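import Mathlib

-- merged part: Pool.Agent.Work.MP_e21d36_nt.SzDefs
section
/-!
# Sizes: sums of at most `H` signed monomials of length at most `n` in a set of generators
-/

namespace Pool.Agent.E21

/-- Signed monomials of length at most `n` in the generators `G`. -/
inductive Mon {R : Type} [CommRing R] (G : Set R) : ℕ → R → Prop
  | one (n : ℕ) : Mon G n 1
  | neg {n : ℕ} {x : R} : Mon G n x → Mon G n (-x)
  | mul {n : ℕ} {g x : R} : g ∈ G → Mon G n x → Mon G (n + 1) (g * x)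

/-- `x` is a sum of at most `H` signed monomials of length at most `n`. -/
def Sz {R : Type} [CommRing R] (G : Set R) (n H : ℕ) (x : R) : Prop :=
  ∃ L : List R, L.length ≤ H ∧ (∀ y ∈ L, Mon G n y) ∧ L.sum = x

/-- Sum of the absolute values of the coefficients of an integer polynomial. -/
noncomputable def l1 (P : Polynomial ℤ) : ℕ := ∑ i ∈ P.support, (P.coeff i).natAbs

/-- `x` is a combination of the `w k` with integer polynomials in `θ0` of degree at most `d`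
and length at most `H`. -/
def Rep (θ0 : ℂ) {m : ℕ} (w : Fin m → ℂ) (d H : ℕ) (x : ℂ) : Prop :=
  ∃ γ : Fin m → Polynomial ℤ, (∀ k, (γ k).natDegree ≤ d ∧ l1 (γ k) ≤ H) ∧
    x = ∑ k, Polynomial.aeval θ0 (γ k) * w k

/-- A free multiplicatively closed module over `ℤ[θ0]` that contains `δ` and `δ G`. -/
structure Ord (θ0 : ℂ) (G : Set ℂ) where
  m : ℕ
  w : Fin m → ℂ
  δ : ℂ
  c : ℕ
  hδ : δ ≠ 0
  indep : ∀ γ : Fin m → Polynomial ℤ, ∑ k, Polynomial.aeval θ0 (γ k) * w k = 0 → γ = 0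
  mul : ∀ k l, Rep θ0 w c c (w k * w l)
  one : Rep θ0 w c c δ
  gen : ∀ g ∈ G, Rep θ0 w c c (δ * g)

/-- Taylor series at the origin. -/
noncomputable def tay (g : ℂ → ℂ) : PowerSeries ℂ :=
  PowerSeries.mk fun n => iteratedDeriv n g 0 / (n.factorial : ℂ)

/-- Class of power series whose `n`-th coefficient has denominator `(k n)!` and controlled
size. -/
def Cl (G : Set ℂ) (k c0 M m : ℕ) (g : PowerSeries ℂ) : Prop :=
  ∀ n : ℕ, Sz G (k * n + c0) (M * (n + 1) ^ m * k ^ n * (k * n).factorial)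
    (((k * n).factorial : ℂ) * PowerSeries.coeff n g)

/-- `g` agrees near `z` (except possibly at `z`) with a function analytic at `z`. -/
def NoPole (g : ℂ → ℂ) (z : ℂ) : Prop :=
  ∃ ψ : ℂ → ℂ, AnalyticAt ℂ ψ z ∧ g =ᶠ[nhdsWithin z {z}ᶜ] ψ

end Pool.Agent.E21
end

-- merged part: Pool.Agent.Work.MP_e21d36_nt.ZDefs
section
/-!
# Abstract zero lemma: definitions (MP_e21d36_nt, helper70)

`A` is a commutative complex algebra with a filtration by finite dimensional subspaces,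
points are algebra maps `A → ℂ`.  See PROOF.md in this folder.
-/

namespace Pool.Agent.E21

/-- A multiplicative exhaustive filtration by finite dimensional subspaces. -/
structure Filt (A : Type) [CommRing A] [Algebra ℂ A] where
  F : ℕ → Submodule ℂ A
  one_mem : (1 : A) ∈ F 0
  mono : Monotone F
  mul_mem : ∀ {m n : ℕ} {a b : A}, a ∈ F m → b ∈ F n → a * b ∈ F (m + n)
  exh : ∀ a : A, ∃ n, a ∈ F n
  fin : ∀ n, Module.Finite ℂ (F n)

variable {A : Type} [CommRing A] [Algebra ℂ A]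

/-- Hilbert function of an ideal: dimension of the image of the `n`-th piece in `A / I`. -/
noncomputable def Filt.H (𝓕 : Filt A) (I : Ideal A) (n : ℕ) : ℕ :=
  Module.finrank ℂ ((𝓕.F n).map (Ideal.Quotient.mkₐ ℂ I).toLinearMap)

/-- Lower bound of dimension `m` and mass `μ` (at scale `d`) for the Hilbert function. -/
def Filt.LB (𝓕 : Filt A) (d : ℕ) (I : Ideal A) (m μ : ℕ) : Prop :=
  ∃ k0 : ℕ, ∀ k : ℕ, μ * (k + m).choose m ≤ 𝓕.H I ((k + k0) * d)

/-- `x` is a non zero divisor modulo `I`. -/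
def Nzd (I : Ideal A) (x : A) : Prop := ∀ a, x * a ∈ I → a ∈ I

/-- Saturation of `I` at the point `t` (contraction of the localisation at the kernel of `t`). -/
def sat (t : A →ₐ[ℂ] ℂ) (I : Ideal A) : Ideal A where
  carrier := {a | ∃ s, t s ≠ 0 ∧ s * a ∈ I}
  zero_mem' := ⟨1, by simp, by simp⟩
  add_mem' := by
    rintro a b ⟨s, hs, ha⟩ ⟨s', hs', hb⟩
    refine ⟨s * s', by simp [hs, hs'], ?_⟩
    have h : s * s' * (a + b) = s' * (s * a) + s * (s' * b) := by ring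
    rw [h]
    exact I.add_mem (I.mul_mem_left _ ha) (I.mul_mem_left _ hb)
  smul_mem' := by
    rintro c a ⟨s, hs, ha⟩
    refine ⟨s, hs, ?_⟩
    have h : s * (c • a) = c * (s * a) := by rw [smul_eq_mul]; ring
    rw [h]
    exact I.mul_mem_left _ ha

theorem mem_sat (t : A →ₐ[ℂ] ℂ) (I : Ideal A) (a : A) :
    a ∈ sat t I ↔ ∃ s, t s ≠ 0 ∧ s * a ∈ I := Iff.rfl

/-- Depth at least `n` of `A / I` at the point `t`. -/
def Dep (t : A →ₐ[ℂ] ℂ) : ℕ → Ideal A → Prop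
  | 0, _ => True
  | n + 1, I => ∃ x, t x = 0 ∧ Nzd (sat t I) x ∧ Dep t n (I ⊔ Ideal.span {x})

/-- A chain of `n` strict inclusions of primes going up from `p` inside the kernel of `t`. -/
def Ch (t : A →ₐ[ℂ] ℂ) : ℕ → Ideal A → Prop
  | 0, p => ∀ a ∈ p, t a = 0
  | n + 1, p => ∃ q : Ideal A, q.IsPrime ∧ p < q ∧ Ch t n q

/-- `p` is an associated prime of `A / I`. -/
def AssP (I p : Ideal A) : Prop := p.IsPrime ∧ ∃ a, ∀ b, b ∈ p ↔ b * a ∈ I

theorem iter_mul_mem (D : Derivation ℂ A A) (p : Ideal A) (j : ℕ) :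
    ∀ a c : A, (∀ i ≤ j, (⇑D)^[i] a ∈ p) → (⇑D)^[j] (c * a) ∈ p := by
  have hadd : ∀ (n : ℕ) (x y : A), (⇑D)^[n] (x + y) = (⇑D)^[n] x + (⇑D)^[n] y := by
    intro n
    induction n with
    | zero => intro x y; rfl
    | succ n ih => intro x y; simp only [Function.iterate_succ_apply, map_add, ih]
  induction j with
  | zero => intro a c h; simpa using p.mul_mem_left c (by simpa using h 0 le_rfl)
  | succ j ih =>
    intro a c h
    rw [Function.iterate_succ_apply, Derivation.leibniz, hadd, smul_eq_mul, smul_eq_mul,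
      mul_comm a]
    refine p.add_mem (ih _ _ ?_) (ih _ _ ?_)
    · intro i hi
      have := h (i + 1) (by omega)
      rwa [Function.iterate_succ_apply] at this
    · intro i hi
      exact h i (by omega)

/-- Differential thickening of order `T` of an ideal. -/
def thick (D : Derivation ℂ A A) (p : Ideal A) (T : ℕ) : Ideal A where
  carrier := {a | ∀ j < T, (⇑D)^[j] a ∈ p}
  zero_mem' := by
    intro j _
    rw [Function.iterate_fixed (map_zero D)]
    exact p.zero_mem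
  add_mem' := by
    intro a b ha hb j hj
    have hadd : ∀ (n : ℕ) (x y : A), (⇑D)^[n] (x + y) = (⇑D)^[n] x + (⇑D)^[n] y := by
      intro n
      induction n with
      | zero => intro x y; rfl
      | succ n ih => intro x y; simp only [Function.iterate_succ_apply, map_add, ih]
    rw [hadd]
    exact p.add_mem (ha j hj) (hb j hj)
  smul_mem' := by
    intro c a ha j hj
    rw [smul_eq_mul]
    exact iter_mul_mem D p j a c fun i hi => ha i (lt_of_le_of_lt hi hj)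

theorem mem_thick (D : Derivation ℂ A A) (p : Ideal A) (T : ℕ) (a : A) :
    a ∈ thick D p T ↔ ∀ j < T, (⇑D)^[j] a ∈ p := Iff.rfl

end Pool.Agent.E21
end

-- merged part: Pool.Agent.Work.MP_e21d36_nt.TDefs
section
/-!
# Theta data, coordinates on the universal extension, torsion points

For an odd theta function `θ` of the lattice `ℤ ω + ℤ ω'`: `zt = θ'/θ`, `xf = - zt'`
(a Weierstrass function plus a constant), `yf = xf'`.  A point of the universal extension is a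
pair `(x, s)` with coordinates `X = xf x`, `Y = yf x`, `Z = zt x - s`; periods are `(ω, 0)` and
`(ω', -ν)`.
-/

namespace Pool.Agent.E21

open MvPolynomial

noncomputable def zt (θ : ℂ → ℂ) (z : ℂ) : ℂ := deriv θ z / θ z
noncomputable def xf (θ : ℂ → ℂ) (z : ℂ) : ℂ := - deriv (zt θ) z
noncomputable def yf (θ : ℂ → ℂ) (z : ℂ) : ℂ := deriv (xf θ) z
/-- The entire function `θ^2 * xf`. -/
noncomputable def nA (θ : ℂ → ℂ) (z : ℂ) : ℂ := deriv θ z ^ 2 - θ z * deriv (deriv θ) z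
/-- The entire function `θ^3 * yf`. -/
noncomputable def nB (θ : ℂ → ℂ) (z : ℂ) : ℂ := θ z * deriv (nA θ) z - 2 * deriv θ z * nA θ z

/-- An odd theta function of the lattice spanned by `ω`, `ω'`. -/
structure PreTheta where
  ω : ℂ
  ω' : ℂ
  κ : ℂ
  ν : ℂ
  θ : ℂ → ℂ
  him : (ω' / ω).im ≠ 0
  hν : ν ≠ 0
  diff : Differentiable ℂ θ
  odd : ∀ z, θ (-z) = -θ z
  per : ∀ z, θ (z + ω) = -θ z
  qper : ∀ z, θ (z + ω') = κ * Complex.exp (-(ν * z)) * θ z
  zero_iff : ∀ z, θ z = 0 ↔ ∃ k l : ℤ, z = (k : ℂ) * ω + (l : ℂ) * ω'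
  deriv0 : deriv θ 0 = 1

/-- A theta function together with its Weierstrass equation. -/
structure Theta extends PreTheta where
  a0 : ℂ
  a1 : ℂ
  a2 : ℂ
  ode : ∀ z, θ z ≠ 0 →
    yf θ z ^ 2 = 4 * xf θ z ^ 3 + a2 * xf θ z ^ 2 + 2 * a1 * xf θ z + a0

abbrev P1 : Type := MvPolynomial (Fin 3) ℂ
abbrev P2 : Type := MvPolynomial (Fin 2 × Fin 3) ℂ
abbrev PB : Type := MvPolynomial (Fin 2 × Fin 2) ℂ

namespace Theta

variable (Θ : Theta)

/-- Coordinates `X, Y, Z` of the point `(x, s)`. -/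
noncomputable def crd (q : ℂ × ℂ) : Fin 3 → ℂ := ![xf Θ.θ q.1, yf Θ.θ q.1, zt Θ.θ q.1 - q.2]

noncomputable def ev1 (q : ℂ × ℂ) : P1 →ₐ[ℂ] ℂ := aeval (Θ.crd q)

noncomputable def dgen : Fin 3 → P1 :=
  ![X 1, 6 * X 0 ^ 2 + C Θ.a2 * X 0 + C Θ.a1, -X 0]

/-- The derivation `d/dx`. -/
noncomputable def D1 : Derivation ℂ P1 P1 := mkDerivation ℂ Θ.dgen

/-- Polynomials that vanish as functions. -/
noncomputable def I1 : Ideal P1 := ⨅ (q : ℂ × ℂ) (_ : Θ.θ q.1 ≠ 0), RingHom.ker (Θ.ev1 q)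

/-- Translates of the half period by the torsion points of order `N`. -/
noncomputable def pt (N : ℕ) (k l : ℤ) : ℂ × ℂ :=
  (Θ.ω / 2 + ((k : ℂ) * Θ.ω + (l : ℂ) * Θ.ω') / N, -((l : ℂ) * Θ.ν / N))

/-- Sum over the `N ^ 2` points. -/
noncomputable def tr1 (N : ℕ) (Q : P1) : ℂ :=
  ∑ κ : Fin N × Fin N, Θ.ev1 (Θ.pt N (κ.1 : ℕ) (κ.2 : ℕ)) Q

noncomputable def e0 : ℂ := xf Θ.θ (Θ.ω / 2)
noncomputable def k0 : ℂ := (6 * Θ.e0 ^ 2 + Θ.a2 * Θ.e0 + Θ.a1) / 2

/-- The numbers that enter the arithmetic estimates. -/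
def data : Set ℂ := {Θ.a1, Θ.a2, Θ.e0, Θ.k0⁻¹}

def G1 : Set P1 := Set.range X ∪ C '' Θ.data

noncomputable def th0 : ℂ → ℂ := dslope Θ.θ 0
/-- `x^2 * xf x` near the origin. -/
noncomputable def pF (x : ℂ) : ℂ := nA Θ.θ x / Θ.th0 x ^ 2
/-- `x^3 * yf x` near the origin. -/
noncomputable def qF (x : ℂ) : ℂ := nB Θ.θ x / Θ.th0 x ^ 3
/-- `x * zt x` near the origin. -/
noncomputable def rF (x : ℂ) : ℂ := deriv Θ.θ x / Θ.th0 x
/-- `x / θ x` near the origin. -/
noncomputable def iF (x : ℂ) : ℂ := (Θ.th0 x)⁻¹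

/-- `Pm m` is the `m`-th derivative at `u = 0` of `exp (-s u) θ (x + u) / θ x`. -/
noncomputable def Pm : ℕ → P1
  | 0 => 1
  | m + 1 => Θ.D1 (Pm m) + X 2 * Pm m

/-- Coefficient of `u ^ l` in `u * exp (-s u) θ (x + u) / (θ x * θ u)`. -/
noncomputable def Fl (l : ℕ) : P1 :=
  ∑ m ∈ Finset.range (l + 1),
    C (PowerSeries.coeff (l - m) (tay Θ.iF) / (m.factorial : ℂ)) * Θ.Pm m

/-- Coefficient of `D^[i] (Fl (k+1))` in the expansion of `X^a Y^e Z^l`. -/
noncomputable def coefE (a e l k i : ℕ) : ℂ :=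
  (-1) ^ i * (l.choose k : ℂ) * (k.factorial : ℂ) / (i.factorial : ℂ) *
    PowerSeries.coeff (2 * a + 3 * e + l - k - 1 - i)
      (tay Θ.pF ^ a * tay Θ.qF ^ e * tay Θ.rF ^ (l - k))

/-- The polar part of `X^a Y^e Z^l` written in the basis `D^[i] (Fl (k+1))`. -/
noncomputable def polE (a e l : ℕ) : P1 :=
  ∑ k ∈ Finset.range (l + 1), ∑ i ∈ Finset.range (2 * a + 3 * e + l - k),
    C (Θ.coefE a e l k i) * (⇑Θ.D1)^[i] (Θ.Fl (k + 1))

/-- `θ(u)^2 (X(u) - X)`. -/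
noncomputable def hU (u : ℂ) : P1 := C (nA Θ.θ u) - C (Θ.θ u ^ 2) * X 0

/-- `hU u * Z(x + u, s)` as a polynomial in the coordinates of `(x, s)`. -/
noncomputable def zU (u : ℂ) : P1 :=
  Θ.hU u * X 2 + C (deriv (nA Θ.θ) u / 2) - C (Θ.θ u * deriv Θ.θ u) * X 0 -
    C (Θ.θ u ^ 2 / 2) * X 1

/-- `hU u ^ 2 * X(x + u)` as a polynomial in the coordinates of `(x, s)`. -/
noncomputable def xU (u : ℂ) : P1 :=
  Θ.hU u ^ 2 * X 0 + C (Θ.θ u ^ 2 / 2) * Θ.hU u * Θ.dgen 1 + C (Θ.θ u ^ 4 / 2) * X 1 ^ 2 -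
    C (Θ.θ u * nB Θ.θ u / 2) * X 1

end Theta

/-- Span of the monomials `X^i Z^j` with `i, j ≤ n`. -/
noncomputable def boxXZ (n : ℕ) : Submodule ℂ P1 :=
  Submodule.span ℂ {Q | ∃ i ≤ n, ∃ j ≤ n, Q = X 0 ^ i * X 2 ^ j}

/-- Two theta data with a common period and independent second periods. -/
structure Pair where
  Θ : Fin 2 → Theta
  hω : (Θ 1).ω = (Θ 0).ω
  hind : ∀ i j k : ℤ, (i : ℂ) * (Θ 0).ω + (j : ℂ) * (Θ 0).ω' + (k : ℂ) * (Θ 1).ω' = 0 →
    i = 0 ∧ j = 0 ∧ k = 0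

namespace Pair

variable (W : Pair)

noncomputable def val (p : Fin 2 → ℂ × ℂ) (v : Fin 2 × Fin 3) : ℂ := (W.Θ v.1).crd (p v.1) v.2

noncomputable def ev2 (p : Fin 2 → ℂ × ℂ) : P2 →ₐ[ℂ] ℂ := aeval (W.val p)

def Good (p : Fin 2 → ℂ × ℂ) : Prop := ∀ i, (W.Θ i).θ (p i).1 ≠ 0

/-- The derivation along the leaves `z ↦ (x1 + z, s1, x2 + z, s2)`. -/
noncomputable def D2 : Derivation ℂ P2 P2 :=
  mkDerivation ℂ fun v => rename (Prod.mk v.1) ((W.Θ v.1).dgen v.2)

noncomputable def I2 : Ideal P2 := ⨅ (p : Fin 2 → ℂ × ℂ) (_ : W.Good p), RingHom.ker (W.ev2 p)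

noncomputable def pt2 (N : ℕ) (κ : Fin 2 → ℤ × ℤ) : Fin 2 → ℂ × ℂ :=
  fun i => (W.Θ i).pt N (κ i).1 (κ i).2

/-- The `N ^ 4` points. -/
noncomputable def ptF (N : ℕ) (κ : Fin 2 → Fin N × Fin N) : Fin 2 → ℂ × ℂ :=
  W.pt2 N fun i => ((((κ i).1 : ℕ) : ℤ), (((κ i).2 : ℕ) : ℤ))

noncomputable def Tr (N : ℕ) (Q : P2) : ℂ := ∑ κ : Fin 2 → Fin N × Fin N, W.ev2 (W.ptF N κ) Q

def data2 : Set ℂ := (W.Θ 0).data ∪ (W.Θ 1).data

def G2 : Set P2 := Set.range X ∪ C '' W.data2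

end Pair

/-- Moving along a leaf. -/
def mv (p : Fin 2 → ℂ × ℂ) (z : ℂ) : Fin 2 → ℂ × ℂ := fun i => ((p i).1 + z, (p i).2)

/-- The variables `X` (index 0) and `Z` (index 1) of each factor. -/
def emb (v : Fin 2 × Fin 2) : Fin 2 × Fin 3 := (v.1, ![0, 2] v.2)

noncomputable def monoB {D : ℕ} (l : Fin 2 × Fin 2 → Fin D) : P2 :=
  ∏ v, X (emb v) ^ (l v : ℕ)

/-- The auxiliary polynomial. -/
noncomputable def auxF {D : ℕ} (c : (Fin 2 × Fin 2 → Fin D) → ℂ) : P2 :=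
  ∑ l, C (c l) * monoB l

/-- The separating monomials. -/
noncomputable def muM {M : ℕ} (a : Fin 2 → Fin M) (e : Fin 2 → Fin 2) : P2 :=
  ∏ i, X (i, 0) ^ (a i : ℕ) * X (i, 1) ^ (e i : ℕ)

/-- Filtration of a polynomial ring by the total degree. -/
noncomputable def degF (σ : Type) [Finite σ] : Filt (MvPolynomial σ ℂ) where
  F n := restrictTotalDegree σ ℂ n
  one_mem := by simp [mem_restrictTotalDegree]
  mono := fun m n h Q hQ => by
    rw [mem_restrictTotalDegree] at hQ ⊢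
    exact hQ.trans h
  mul_mem := fun {m n a b} ha hb => by
    rw [mem_restrictTotalDegree] at ha hb ⊢
    exact (totalDegree_mul a b).trans (add_le_add ha hb)
  exh := fun a => ⟨a.totalDegree, by rw [mem_restrictTotalDegree]⟩
  fin := fun n => inferInstance

/-- The three q-series of the problem. -/
noncomputable def eP (τ : ℂ) : ℂ := 1 - 24 * ∑' n : ℕ,
  (ArithmeticFunction.sigma 1 (n + 1) : ℂ) * Complex.exp (2 * (Real.pi : ℂ) * Complex.I * τ) ^ (n + 1)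
noncomputable def eQ (τ : ℂ) : ℂ := 1 + 240 * ∑' n : ℕ,
  (ArithmeticFunction.sigma 3 (n + 1) : ℂ) * Complex.exp (2 * (Real.pi : ℂ) * Complex.I * τ) ^ (n + 1)
noncomputable def eR (τ : ℂ) : ℂ := 1 - 504 * ∑' n : ℕ,
  (ArithmeticFunction.sigma 5 (n + 1) : ℂ) * Complex.exp (2 * (Real.pi : ℂ) * Complex.I * τ) ^ (n + 1)

end Pool.Agent.E21
end

-- merged part: Pool.Agent.Work.MP_e21d36_nt.TB1
section
/-!
# Calculus of theta data

Plan.  All functions are analytic where `θ ≠ 0` (an open set): `AnalyticAt.div`,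
`AnalyticAt.deriv`.  `sq_mul_xf`: `deriv_div`.  `cube_mul_yf`: differentiate `θ^2 xf = nA` on
the open set (`Filter.EventuallyEq.deriv_eq`).  Parity and periodicity: differentiate the
functional equations of `θ` (`deriv_comp_neg`, `deriv_comp_add_const`); `κ ≠ 0` because
`ω/2 + ω'` is not a lattice point (`lat_inj`).  For integer multiples use `Int.induction_on`.
`eventually_ne`: isolated zeros, `θ` is not identically zero as `deriv θ 0 = 1`.
`lat_inj`: divide by `ω` (nonzero by `him`) and take imaginary parts.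
-/

namespace Pool.Agent.E21

open Filter Topology

namespace PreTheta

variable (Θ : PreTheta)

theorem ω_ne : Θ.ω ≠ 0 := by
  intro h
  exact Θ.him (by rw [h, div_zero, Complex.zero_im])

theorem lat_inj (a b : ℝ) (h : (a : ℂ) * Θ.ω + (b : ℂ) * Θ.ω' = 0) : a = 0 ∧ b = 0 := by
  have h1 : (a : ℂ) + b * (Θ.ω' / Θ.ω) = 0 := by
    have := Θ.ω_ne
    field_simp
    rw [h, mul_zero]
  have h2 : b = 0 := by
    have := congrArg Complex.im h1
    simp only [Complex.add_im, Complex.ofReal_im, Complex.im_ofReal_mul, zero_add,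
      Complex.zero_im] at this
    exact (mul_eq_zero.1 this).resolve_right Θ.him
  rw [h2, Complex.ofReal_zero, zero_mul, add_zero] at h1
  exact ⟨Complex.ofReal_eq_zero.1 h1, h2⟩

theorem θ_zero : Θ.θ 0 = 0 := by
  exact (Θ.zero_iff 0).2 ⟨0, 0, by simp⟩

theorem TB1_half (b : ℝ) : Θ.θ (Θ.ω / 2 + b * Θ.ω') ≠ 0 := by
  intro h
  obtain ⟨k, l, h1⟩ := (Θ.zero_iff _).1 h
  have h2 := (Θ.lat_inj (1 - 2 * k) (2 * b - 2 * l) (by push_cast; linear_combination 2 * h1)).1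
  have h3 : 1 - 2 * k = 0 := by exact_mod_cast h2
  omega

theorem θ_half : Θ.θ (Θ.ω / 2) ≠ 0 := by
  simpa using Θ.TB1_half 0

theorem κ_ne : Θ.κ ≠ 0 := by
  intro h
  have := Θ.TB1_half 1
  rw [Complex.ofReal_one, one_mul, Θ.qper, h, zero_mul, zero_mul] at this
  exact this rfl

theorem analyticAt (z : ℂ) : AnalyticAt ℂ Θ.θ z := by
  exact Θ.diff.analyticAt z

theorem eventually_ne (z : ℂ) : ∀ᶠ w in 𝓝[≠] z, Θ.θ w ≠ 0 := by
  refine (Θ.analyticAt z).eventually_eq_zero_or_eventually_ne_zero.resolve_left fun h => ?_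
  exact Θ.θ_half (AnalyticOnNhd.eqOn_zero_of_preconnected_of_eventuallyEq_zero
    (fun w _ => Θ.analyticAt w) isPreconnected_univ (Set.mem_univ z) h (Set.mem_univ _))

theorem eventually_ne_of_ne {z : ℂ} (h : Θ.θ z ≠ 0) : ∀ᶠ w in 𝓝 z, Θ.θ w ≠ 0 := by
  exact Θ.diff.continuous.continuousAt.eventually_ne h

/-- Translations with their exponential factors. -/
def TB1_grp : AddSubgroup (ℂ × ℂ) where
  carrier := {p | ∃ c : ℂ, c ≠ 0 ∧ ∀ z, Θ.θ (z + p.1) = c * Complex.exp (-(p.2 * z)) * Θ.θ z}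
  zero_mem' := ⟨1, one_ne_zero, fun z => by simp⟩
  add_mem' := by
    rintro p q ⟨c, c0, hc⟩ ⟨d, d0, hd⟩
    refine ⟨c * d * Complex.exp (-(q.2 * p.1)),
      mul_ne_zero (mul_ne_zero c0 d0) (Complex.exp_ne_zero _), fun z => ?_⟩
    rw [Prod.fst_add, Prod.snd_add, ← add_assoc, hd, hc, add_mul, mul_add, neg_add, neg_add,
      Complex.exp_add, Complex.exp_add]
    ring
  neg_mem' := by
    rintro p ⟨c, c0, hc⟩
    refine ⟨c⁻¹ * Complex.exp (-(p.2 * p.1)),
      mul_ne_zero (inv_ne_zero c0) (Complex.exp_ne_zero _), fun z => ?_⟩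
    have h1 := hc (z + -p.1)
    have h2 : Complex.exp (-(p.2 * p.1)) * Complex.exp (-(-p.2 * z)) *
        Complex.exp (-(p.2 * (z + -p.1))) = 1 := by
      rw [← Complex.exp_add, ← Complex.exp_add, ← Complex.exp_zero]
      exact congrArg _ (by ring)
    rw [neg_add_cancel_right] at h1
    rw [Prod.fst_neg, Prod.snd_neg, h1]
    linear_combination -(Θ.θ (z + -p.1) * (c⁻¹ * c)) * h2 - Θ.θ (z + -p.1) * inv_mul_cancel₀ c0

theorem TB1_lat (k l : ℤ) : ∃ c : ℂ, c ≠ 0 ∧ ∀ z,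
    Θ.θ (z + ((k : ℂ) * Θ.ω + (l : ℂ) * Θ.ω')) = c * Complex.exp (-(l * Θ.ν * z)) * Θ.θ z ∧
    deriv Θ.θ (z + ((k : ℂ) * Θ.ω + (l : ℂ) * Θ.ω')) =
      c * Complex.exp (-(l * Θ.ν * z)) * (deriv Θ.θ z - l * Θ.ν * Θ.θ z) := by
  have h1 : (Θ.ω, 0) ∈ Θ.TB1_grp := ⟨-1, by simp, fun z => by simp [Θ.per]⟩
  have h2 : (Θ.ω', Θ.ν) ∈ Θ.TB1_grp := ⟨Θ.κ, Θ.κ_ne, Θ.qper⟩
  obtain ⟨c, c0, hc⟩ := add_mem (zsmul_mem h1 k) (zsmul_mem h2 l)
  simp only [Prod.smul_mk, Prod.mk_add_mk, zsmul_eq_mul, mul_zero, zero_add] at hc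
  refine ⟨c, c0, fun z => ⟨hc z, ?_⟩⟩
  rw [← deriv_comp_add_const, funext hc]
  refine (((((hasDerivAt_id' z).const_mul (l * Θ.ν)).fun_neg.cexp.const_mul c).fun_mul
    (Θ.diff z).hasDerivAt).deriv).trans ?_
  ring

theorem ne_lat_iff (z : ℂ) (k l : ℤ) :
    Θ.θ (z + ((k : ℂ) * Θ.ω + (l : ℂ) * Θ.ω')) ≠ 0 ↔ Θ.θ z ≠ 0 := by
  obtain ⟨c, c0, hc⟩ := Θ.TB1_lat k l
  rw [(hc z).1]
  exact mul_ne_zero_iff_left (mul_ne_zero c0 (Complex.exp_ne_zero _))

theorem deriv_ne_of_zero {z : ℂ} (h : Θ.θ z = 0) : deriv Θ.θ z ≠ 0 := by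
  obtain ⟨k, l, rfl⟩ := (Θ.zero_iff z).1 h
  obtain ⟨c, c0, hc⟩ := Θ.TB1_lat k l
  have := (hc 0).2
  rw [zero_add, Θ.θ_zero, Θ.deriv0] at this
  simpa [this] using c0

theorem differentiable_deriv : Differentiable ℂ (deriv Θ.θ) := by
  exact fun z => (Θ.analyticAt z).deriv.differentiableAt

theorem TB1_nA (z : ℂ) : AnalyticAt ℂ (nA Θ.θ) z :=
  ((Θ.analyticAt z).deriv.pow 2).sub ((Θ.analyticAt z).mul (Θ.analyticAt z).deriv.deriv)

theorem differentiable_nA : Differentiable ℂ (nA Θ.θ) := by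
  exact fun z => (Θ.TB1_nA z).differentiableAt

theorem differentiable_nB : Differentiable ℂ (nB Θ.θ) := by
  exact fun z => (((Θ.analyticAt z).mul (Θ.TB1_nA z).deriv).sub
    ((analyticAt_const.mul (Θ.analyticAt z).deriv).mul (Θ.TB1_nA z))).differentiableAt

theorem analyticAt_zt {z : ℂ} (h : Θ.θ z ≠ 0) : AnalyticAt ℂ (zt Θ.θ) z := by
  exact (Θ.analyticAt z).deriv.div (Θ.analyticAt z) h

theorem analyticAt_xf {z : ℂ} (h : Θ.θ z ≠ 0) : AnalyticAt ℂ (xf Θ.θ) z := by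
  exact (Θ.analyticAt_zt h).deriv.neg

theorem analyticAt_yf {z : ℂ} (h : Θ.θ z ≠ 0) : AnalyticAt ℂ (yf Θ.θ) z := by
  exact (Θ.analyticAt_xf h).deriv

theorem hasDerivAt_zt {z : ℂ} (h : Θ.θ z ≠ 0) : HasDerivAt (zt Θ.θ) (-xf Θ.θ z) z := by
  rw [xf, neg_neg]
  exact (Θ.analyticAt_zt h).differentiableAt.hasDerivAt

theorem hasDerivAt_xf {z : ℂ} (h : Θ.θ z ≠ 0) : HasDerivAt (xf Θ.θ) (yf Θ.θ z) z := by
  exact (Θ.analyticAt_xf h).differentiableAt.hasDerivAt

theorem mul_zt {z : ℂ} (h : Θ.θ z ≠ 0) : Θ.θ z * zt Θ.θ z = deriv Θ.θ z := by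
  exact mul_div_cancel₀ _ h

theorem sq_mul_xf {z : ℂ} (h : Θ.θ z ≠ 0) : Θ.θ z ^ 2 * xf Θ.θ z = nA Θ.θ z := by
  have h1 := (Θ.hasDerivAt_zt h).unique
    ((Θ.differentiable_deriv z).hasDerivAt.fun_div (Θ.diff z).hasDerivAt h)
  rw [eq_div_iff (pow_ne_zero 2 h)] at h1
  rw [nA]
  linear_combination -h1

theorem cube_mul_yf {z : ℂ} (h : Θ.θ z ≠ 0) : Θ.θ z ^ 3 * yf Θ.θ z = nB Θ.θ z := by
  have h1 := (((Θ.diff z).hasDerivAt.fun_pow 2).fun_mul (Θ.hasDerivAt_xf h)).deriv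
  rw [EventuallyEq.deriv_eq ((Θ.eventually_ne_of_ne h).mono fun w hw => Θ.sq_mul_xf hw)] at h1
  rw [nB, h1, ← Θ.sq_mul_xf h]
  push_cast
  ring

theorem nA_zero : nA Θ.θ 0 = 1 := by
  simp [nA, Θ.deriv0, Θ.θ_zero]

theorem nB_zero : nB Θ.θ 0 = -2 := by
  simp [nB, Θ.deriv0, Θ.θ_zero, Θ.nA_zero]

theorem TB1_odd {f : ℂ → ℂ} (h : ∀ z, f (-z) = -f z) (z : ℂ) : deriv f (-z) = deriv f z := by
  have := deriv_comp_neg f z
  rw [funext h, deriv.fun_neg] at this
  exact (neg_injective this).symm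

theorem TB1_even {f : ℂ → ℂ} (h : ∀ z, f (-z) = f z) (z : ℂ) : deriv f (-z) = -deriv f z := by
  have := deriv_comp_neg f z
  rw [funext h] at this
  exact (neg_eq_iff_eq_neg.2 this).symm

theorem deriv_neg (z : ℂ) : deriv Θ.θ (-z) = deriv Θ.θ z := by
  exact TB1_odd Θ.odd z

theorem zt_neg (z : ℂ) : zt Θ.θ (-z) = -zt Θ.θ z := by
  rw [zt, zt, Θ.deriv_neg, Θ.odd, div_neg]

theorem xf_neg (z : ℂ) : xf Θ.θ (-z) = xf Θ.θ z := by
  rw [xf, xf, TB1_odd Θ.zt_neg]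

theorem yf_neg (z : ℂ) : yf Θ.θ (-z) = -yf Θ.θ z := by
  exact TB1_even Θ.xf_neg z

theorem nA_neg (z : ℂ) : nA Θ.θ (-z) = nA Θ.θ z := by
  rw [nA, nA, Θ.deriv_neg, Θ.odd, TB1_even Θ.deriv_neg, neg_mul_neg]

theorem zt_lat {z : ℂ} (h : Θ.θ z ≠ 0) (k l : ℤ) :
    zt Θ.θ (z + ((k : ℂ) * Θ.ω + (l : ℂ) * Θ.ω')) = zt Θ.θ z - (l : ℂ) * Θ.ν := by
  obtain ⟨c, c0, hc⟩ := Θ.TB1_lat k l
  rw [zt, zt, (hc z).1, (hc z).2, mul_div_mul_left _ _ (mul_ne_zero c0 (Complex.exp_ne_zero _)),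
    sub_div, mul_div_cancel_right₀ _ h]

theorem xf_lat {z : ℂ} (h : Θ.θ z ≠ 0) (k l : ℤ) :
    xf Θ.θ (z + ((k : ℂ) * Θ.ω + (l : ℂ) * Θ.ω')) = xf Θ.θ z := by
  rw [xf, xf, ← deriv_comp_add_const, EventuallyEq.deriv_eq
    ((Θ.eventually_ne_of_ne h).mono fun w hw => Θ.zt_lat hw k l), deriv_sub_const]

theorem yf_lat {z : ℂ} (h : Θ.θ z ≠ 0) (k l : ℤ) :
    yf Θ.θ (z + ((k : ℂ) * Θ.ω + (l : ℂ) * Θ.ω')) = yf Θ.θ z := by
  rw [yf, yf, ← deriv_comp_add_const]
  exact EventuallyEq.deriv_eq ((Θ.eventually_ne_of_ne h).mono fun w hw => Θ.xf_lat hw k l)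

theorem TB1_mid : Θ.θ (-(Θ.ω / 2)) ≠ 0 ∧
    -(Θ.ω / 2) + (((1 : ℤ) : ℂ) * Θ.ω + ((0 : ℤ) : ℂ) * Θ.ω') = Θ.ω / 2 :=
  ⟨by rw [Θ.odd]; exact neg_ne_zero.2 Θ.θ_half, by push_cast; ring⟩

theorem zt_half : zt Θ.θ (Θ.ω / 2) = 0 := by
  have := Θ.zt_lat Θ.TB1_mid.1 1 0
  rw [Θ.TB1_mid.2, Θ.zt_neg, Int.cast_zero] at this
  linear_combination this / 2

theorem yf_half : yf Θ.θ (Θ.ω / 2) = 0 := by
  have := Θ.yf_lat Θ.TB1_mid.1 1 0
  rw [Θ.TB1_mid.2, Θ.yf_neg] at this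
  linear_combination this / 2

/-- `xf` has a pole at the origin. -/
theorem tendsto_xf : Tendsto (fun z => ‖xf Θ.θ z‖) (𝓝[≠] 0) atTop := by
  have h1 : Tendsto (fun z => ‖nA Θ.θ z‖) (𝓝[≠] 0) (𝓝 1) := by
    have := (Θ.differentiable_nA.continuous.tendsto 0).norm
    rw [Θ.nA_zero, norm_one] at this
    exact this.mono_left nhdsWithin_le_nhds
  have h2 : Tendsto (fun z => ‖Θ.θ z ^ 2‖) (𝓝[≠] 0) (𝓝[>] 0) := by
    refine tendsto_nhdsWithin_iff.2 ⟨?_, (Θ.eventually_ne 0).mono fun w hw =>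
      norm_pos_iff.2 (pow_ne_zero 2 hw)⟩
    have := ((Θ.diff.continuous.tendsto 0).pow 2).norm
    rw [Θ.θ_zero, zero_pow two_ne_zero, norm_zero] at this
    exact this.mono_left nhdsWithin_le_nhds
  refine (h1.pos_mul_atTop one_pos h2.inv_tendsto_nhdsGT_zero).congr'
    ((Θ.eventually_ne 0).mono fun w hw => ?_)
  simp only [Pi.inv_apply, ← Θ.sq_mul_xf hw, norm_mul]
  rw [mul_comm, inv_mul_cancel_left₀ (norm_ne_zero_iff.2 (pow_ne_zero 2 hw))]

end PreTheta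

end Pool.Agent.E21
end

-- merged part: Pool.Agent.Work.MP_e21d36_nt.Liou
section
/-!
# Removable singularities and Liouville arguments

Plan.  `ext_entire`: define `ĝ z = limUnder (𝓝[≠] z) g` (or choose `ψ z` and put
`ĝ z = ψ z z`); near `z` the function `ĝ` agrees with `ψ z`
(`eventually_nhdsWithin_iff`, `Filter.Eventually.eventually_nhds`, `AnalyticAt.eventually_analyticAt`).
`bounded_of_norm_periodic`: every `z` is `z0 + k a + l b` with `z0` in the compact image of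
`[0,1]^2` (solve for real coordinates using `(b/a).im ≠ 0`, take floors), `‖g‖` is invariant.
`liou_entire_add`: `deriv g` is entire and periodic, hence constant
(`Differentiable.apply_eq_apply_of_bounded`), periodicity in `a` forces it to be zero.
The last two statements: pass to `ĝ`; the functional equations hold eventually in every
punctured neighbourhood, hence everywhere by continuity.
-/

namespace Pool.Agent.E21

open Filter Topology

theorem NoPole.of_analyticAt {g : ℂ → ℂ} {z : ℂ} (h : AnalyticAt ℂ g z) : NoPole g z := by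
  exact ⟨g, h, EventuallyEq.rfl⟩

theorem NoPole.congr {g g' : ℂ → ℂ} {z : ℂ} (h : NoPole g z) (e : g =ᶠ[𝓝[≠] z] g') :
    NoPole g' z := by
  obtain ⟨ψ, a, b⟩ := h
  exact ⟨ψ, a, e.symm.trans b⟩

theorem NoPole.add {g g' : ℂ → ℂ} {z : ℂ} (h : NoPole g z) (h' : NoPole g' z) :
    NoPole (fun x => g x + g' x) z := by
  obtain ⟨ψ, a, b⟩ := h
  obtain ⟨ψ', a', b'⟩ := h'
  exact ⟨ψ + ψ', a.add a', b.add b'⟩

theorem NoPole.sub {g g' : ℂ → ℂ} {z : ℂ} (h : NoPole g z) (h' : NoPole g' z) :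
    NoPole (fun x => g x - g' x) z := by
  obtain ⟨ψ, a, b⟩ := h
  obtain ⟨ψ', a', b'⟩ := h'
  exact ⟨ψ - ψ', a.sub a', b.sub b'⟩

theorem NoPole.mul {g g' : ℂ → ℂ} {z : ℂ} (h : NoPole g z) (h' : NoPole g' z) :
    NoPole (fun x => g x * g' x) z := by
  obtain ⟨ψ, a, b⟩ := h
  obtain ⟨ψ', a', b'⟩ := h'
  exact ⟨ψ * ψ', a.mul a', b.mul b'⟩

theorem NoPole.sum {ι : Type} (s : Finset ι) {g : ι → ℂ → ℂ} {z : ℂ}
    (h : ∀ i ∈ s, NoPole (g i) z) : NoPole (fun x => ∑ i ∈ s, g i x) z := by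
  classical
  induction s using Finset.induction_on with
  | empty => simpa using NoPole.of_analyticAt (g := fun _ => (0 : ℂ)) analyticAt_const
  | insert i s hi ih =>
    simp only [Finset.sum_insert hi]
    exact (h i (Finset.mem_insert_self i s)).add
      (ih fun j hj => h j (Finset.mem_insert_of_mem hj))

theorem NoPole.deriv {g : ℂ → ℂ} {z : ℂ} (h : NoPole g z) : NoPole (deriv g) z := by
  obtain ⟨ψ, a, b⟩ := h
  exact ⟨_root_.deriv ψ, a.deriv, b.nhdsNE_deriv⟩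

theorem Liou_shift (z a : ℂ) : Tendsto (fun x => x + a) (𝓝[≠] z) (𝓝[≠] (z + a)) :=
  (continuous_add_const a).continuousWithinAt.tendsto_nhdsWithin fun _ hx e =>
    hx (add_right_cancel (Set.mem_singleton_iff.1 e))
theorem NoPole.shift {g : ℂ → ℂ} {z a : ℂ} (h : NoPole g (z + a)) :
    NoPole (fun x => g (x + a)) z := by
  obtain ⟨ψ, h1, h2⟩ := h
  exact ⟨fun x => ψ (x + a), h1.comp_of_eq (f := fun x => x + a) (by fun_prop) rfl,
    (Liou_shift z a).eventually h2⟩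

/-- An analytic function that vanishes to order `n` at the origin may be divided by `x ^ n`. -/
theorem NoPole.div_pow {g : ℂ → ℂ} (hg : AnalyticAt ℂ g 0) (n : ℕ)
    (h : ∀ j < n, iteratedDeriv j g 0 = 0) : NoPole (fun x => g x / x ^ n) 0 := by
  obtain ⟨ψ, h1, h2⟩ := (natCast_le_analyticOrderAt hg).1
    ((natCast_le_analyticOrderAt_iff_iteratedDeriv_eq_zero hg).2 h)
  refine ⟨ψ, h1, ?_⟩
  filter_upwards [h2.filter_mono nhdsWithin_le_nhds, self_mem_nhdsWithin] with x hx h0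
  rw [hx, sub_zero, smul_eq_mul, mul_div_cancel_left₀ _ (pow_ne_zero n h0)]

theorem Liou_uniq {f f' : ℂ → ℂ} {w : ℂ} (h : ContinuousAt f w) (h' : ContinuousAt f' w)
    (e : f =ᶠ[𝓝[≠] w] f') : f w = f' w :=
  tendsto_nhds_unique_of_eventuallyEq (h.tendsto.mono_left nhdsWithin_le_nhds)
    (h'.tendsto.mono_left nhdsWithin_le_nhds) e
theorem ext_entire (g : ℂ → ℂ) (h : ∀ z, NoPole g z) : ∃ ĝ : ℂ → ℂ, Differentiable ℂ ĝ ∧
    (∀ z, ĝ =ᶠ[𝓝[≠] z] g) ∧ ∀ z, ContinuousAt g z → ĝ z = g z := by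
  choose ψ h1 h2 using h
  have key : ∀ z, (fun w => ψ w w) =ᶠ[𝓝[≠] z] ψ z := by
    intro z
    filter_upwards [eventually_eventually_nhdsWithin.2 (h2 z), self_mem_nhdsWithin,
      (h1 z).eventually_analyticAt.filter_mono nhdsWithin_le_nhds] with w a1 a2 a3
    rw [isOpen_compl_singleton.nhdsWithin_eq a2] at a1
    exact Liou_uniq (h1 w).continuousAt a3.continuousAt
      ((h2 w).symm.trans (a1.filter_mono nhdsWithin_le_nhds))
  refine ⟨fun w => ψ w w, fun z => ?_, fun z => (key z).trans (h2 z).symm, fun z hz =>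
    Liou_uniq (h1 z).continuousAt hz (h2 z).symm⟩
  have e : (fun w => ψ w w) =ᶠ[𝓝 z] ψ z := by
    rw [← nhdsNE_sup_pure z]
    exact eventually_sup.2 ⟨key z, eventually_pure.2 rfl⟩
  exact (h1 z).differentiableAt.congr_of_eventuallyEq e

theorem Liou_ne {a b : ℂ} (hab : (b / a).im ≠ 0) : a ≠ 0 := by
  rintro rfl
  simp at hab

theorem Liou_coord {a b : ℂ} (hab : (b / a).im ≠ 0) (z : ℂ) : ∃ s t : ℝ, z = s * a + t * b := by
  have ha := Liou_ne hab
  have key : ∀ u v : ℂ, v.im ≠ 0 → ∃ s t : ℝ, u = s + t * v := fun u v hv =>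
    ⟨u.re - u.im / v.im * v.re, u.im / v.im, Complex.ext (by simp [-Complex.ofReal_div])
      (by simp [-Complex.ofReal_div, hv])⟩
  obtain ⟨s, t, e⟩ := key (z / a) (b / a) hab
  refine ⟨s, t, ?_⟩
  rw [div_eq_iff ha] at e
  rw [e]
  field_simp
theorem bounded_of_norm_periodic {a b : ℂ} (hab : (b / a).im ≠ 0) {g : ℂ → ℂ}
    (hg : Continuous g) (ha : ∀ z, ‖g (z + a)‖ = ‖g z‖) (hb : ∀ z, ‖g (z + b)‖ = ‖g z‖) :
    ∃ B : ℝ, ∀ z, ‖g z‖ ≤ B := by
  obtain ⟨B, hB⟩ := (isCompact_closedBall (0 : ℂ) (‖a‖ + ‖b‖)).exists_bound_of_continuousOn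
    hg.continuousOn
  refine ⟨B, fun z => ?_⟩
  obtain ⟨s, t, e⟩ := Liou_coord hab z
  have pa : Function.Periodic (fun z => ‖g z‖) a := ha
  have pb : Function.Periodic (fun z => ‖g z‖) b := hb
  have e2 : z = (Int.fract s : ℝ) * a + (Int.fract t : ℝ) * b + (⌊s⌋ : ℤ) * a + (⌊t⌋ : ℤ) * b := by
    rw [e, Int.fract, Int.fract]
    push_cast
    ring
  have e3 : ‖g z‖ = ‖g ((Int.fract s : ℝ) * a + (Int.fract t : ℝ) * b)‖ := by
    rw [e2]
    exact (pb.int_mul ⌊t⌋ _).trans (pa.int_mul ⌊s⌋ _)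
  have hf : ∀ (r : ℝ) (c : ℂ), ‖(Int.fract r : ℝ) * c‖ ≤ ‖c‖ := fun r c => by
    rw [norm_mul, Complex.norm_real, Real.norm_of_nonneg (Int.fract_nonneg r)]
    exact mul_le_of_le_one_left (norm_nonneg c) (Int.fract_lt_one r).le
  rw [e3]
  exact hB _ (mem_closedBall_zero_iff.2 ((norm_add_le _ _).trans (add_le_add (hf s a) (hf t b))))

theorem Liou_const {a b : ℂ} (hab : (b / a).im ≠ 0) {g : ℂ → ℂ} (hg : Differentiable ℂ g)
    (ha : ∀ z, ‖g (z + a)‖ = ‖g z‖) (hb : ∀ z, ‖g (z + b)‖ = ‖g z‖) (z w : ℂ) : g z = g w := by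
  obtain ⟨B, hB⟩ := bounded_of_norm_periodic hab hg.continuous ha hb
  exact hg.apply_eq_apply_of_bounded (isBounded_iff_forall_norm_le.2
    ⟨B, by rintro _ ⟨x, rfl⟩; exact hB x⟩) z w
theorem liou_entire_add {a b c : ℂ} (hab : (b / a).im ≠ 0) {g : ℂ → ℂ}
    (hg : Differentiable ℂ g) (ha : ∀ z, g (z + a) = g z) (hb : ∀ z, g (z + b) = g z + c) :
    c = 0 ∧ ∃ c0, ∀ z, g z = c0 := by
  have d1 : ∀ z, deriv g (z + a) = deriv g z := fun z => by
    rw [← deriv_comp_add_const, funext ha]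
  have d2 : ∀ z, deriv g (z + b) = deriv g z := fun z => by
    rw [← deriv_comp_add_const, funext hb, deriv_add_const]
  have hk := Liou_const hab hg.deriv (fun z => by rw [d1]) fun z => by rw [d2]
  have hd : ∀ z, HasDerivAt (fun z => g z - deriv g 0 * z) 0 z := fun z => by
    have := (hg z).hasDerivAt.sub ((hasDerivAt_id z).const_mul (deriv g 0))
    rwa [hk z 0, mul_one, sub_self] at this
  have hc := is_const_of_deriv_eq_zero (fun z => (hd z).differentiableAt) fun z => (hd z).deriv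
  have h0 : deriv g 0 = 0 := by
    have a1 := hc (0 + a) 0
    rw [ha, zero_add, mul_zero, sub_zero, sub_eq_self] at a1
    exact (mul_eq_zero.1 a1).resolve_right (Liou_ne hab)
  simp only [h0, zero_mul, sub_zero] at hc
  refine ⟨?_, g 0, fun z => hc z 0⟩
  have a1 := hb 0
  rw [hc (0 + b) 0] at a1
  exact left_eq_add.1 a1

theorem Liou_ext {g f φ : ℂ → ℂ} {a : ℂ} {Z : Set ℂ} (hZ : ∀ z, ∀ᶠ w in 𝓝[≠] z, w ∉ Z)
    (h1 : Differentiable ℂ f) (h2 : ∀ z, f =ᶠ[𝓝[≠] z] g) (hφ : Continuous φ)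
    (ha : ∀ z, z ∉ Z → g (z + a) = φ (g z)) (z : ℂ) : f (z + a) = φ (f z) := by
  refine Liou_uniq (f := fun x => f (x + a)) (f' := fun x => φ (f x))
    (h1.continuous.comp (continuous_add_const a)).continuousAt
    (hφ.comp h1.continuous).continuousAt ?_
  filter_upwards [hZ z, h2 z, (Liou_shift z a).eventually (h2 (z + a))] with w a1 a2 a3
  rw [a3, a2, ha w a1]
theorem liou_add {a b c : ℂ} (hab : (b / a).im ≠ 0) {g : ℂ → ℂ} (Z : Set ℂ)
    (hZ : ∀ z, ∀ᶠ w in 𝓝[≠] z, w ∉ Z) (hg : ∀ z, NoPole g z)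
    (hc : ∀ z, z ∉ Z → ContinuousAt g z) (ha : ∀ z, z ∉ Z → g (z + a) = g z)
    (hb : ∀ z, z ∉ Z → g (z + b) = g z + c) : c = 0 ∧ ∃ c0, ∀ z, z ∉ Z → g z = c0 := by
  obtain ⟨f, h1, h2, h3⟩ := ext_entire g hg
  obtain ⟨e, c0, h4⟩ := liou_entire_add hab h1
    (Liou_ext (φ := fun x => x) hZ h1 h2 continuous_id ha)
    (Liou_ext (φ := fun x => x + c) hZ h1 h2 (continuous_add_const c) hb)
  exact ⟨e, c0, fun z hz => (h3 z (hc z hz)).symm.trans (h4 z)⟩

theorem liou_mul {a b m : ℂ} (hab : (b / a).im ≠ 0) (hm : ‖m‖ = 1) (hm1 : m ≠ 1) {g : ℂ → ℂ}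
    (Z : Set ℂ) (hZ : ∀ z, ∀ᶠ w in 𝓝[≠] z, w ∉ Z) (hg : ∀ z, NoPole g z)
    (hc : ∀ z, z ∉ Z → ContinuousAt g z) (ha : ∀ z, z ∉ Z → g (z + a) = g z)
    (hb : ∀ z, z ∉ Z → g (z + b) = m * g z) : ∀ z, z ∉ Z → g z = 0 := by
  obtain ⟨f, h1, h2, h3⟩ := ext_entire g hg
  have a1 := Liou_ext (φ := fun x => x) hZ h1 h2 continuous_id ha
  have a2 := Liou_ext (φ := fun x => m * x) hZ h1 h2 (continuous_const_mul m) hb
  have hk := Liou_const hab h1 (fun z => by rw [a1]) fun z => by rw [a2, norm_mul, hm, one_mul]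
  intro z hz
  rw [← h3 z (hc z hz)]
  have a3 := a2 z
  rw [hk (z + b) z] at a3
  by_contra h0
  exact hm1 (mul_right_cancel₀ h0 (a3.symm.trans (one_mul _).symm))

end Pool.Agent.E21
end

-- merged part: Pool.Agent.Work.MP_e21d36_nt.TB2
section
/-!
# The sigma identity and the addition formula

Plan.  `noPole_of_lat`: a function that is periodic off the lattice and has no pole at `0` has
no pole anywhere (`zero_iff`, `NoPole.shift`).
`sigma_id`: fix `u`; `g x = θ(x+u) θ(x-u) - θ(u)^2 (θ(x)^2 X(u) - nA x)` is entire, even,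
`g 0 = 0`, so `g' 0 = 0`; `g / θ^2 = (g / x^2) / (dslope θ 0)^2` has no pole at `0`
(`NoPole.div_pow`), is periodic off the lattice (for the last term use `sq_mul_xf`, `xf_lat`),
so it is a constant by `liou_add` with `Z = {θ = 0}`; the constant is `0` (put `x = u`).
`add_zt`: the identity holds on an open set of pairs; differentiate it in `x` and in `u`
(`HasDerivAt.unique` after `EventuallyEq`), add, use `θ'(x+u) = zt(x+u) θ(x+u)` and the identity
once more, cancel `θ(x)^2 θ(u)^2`.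
`theta_double`: the derivative in `u` at `u = x`.
`xf_eq_iff`: `sigma_id`.  `xy_inj`: if `θ (x + x') = 0` then `yf x' = - yf x` (`yf_lat`,
`yf_neg`), so `yf x = 0`, `θ (2x) = 0`, and `x - x' = 2x - (x + x')`.
`xf_infinite`: `yf ≠ 0` off `{θ (2x) = 0}` by `theta_double`; if the values of `xf` on the set
were finite, `tendsto_xf` fails (the set is a punctured neighbourhood of `0`).
-/

namespace Pool.Agent.E21

open Filter Topology

namespace PreTheta

variable (Θ : PreTheta)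

theorem noPole_of_lat {g : ℂ → ℂ} (h0 : NoPole g 0) (ha : ∀ z, Θ.θ z ≠ 0 → AnalyticAt ℂ g z)
    (hp : ∀ (k l : ℤ), ∃ m c : ℂ, ∀ z, Θ.θ z ≠ 0 →
      g (z + ((k : ℂ) * Θ.ω + (l : ℂ) * Θ.ω')) = m * g z + c) (z : ℂ) : NoPole g z := by
  by_cases hz : Θ.θ z = 0
  · obtain ⟨k, l, e⟩ := (Θ.zero_iff z).1 hz
    obtain ⟨m, c, hm⟩ := hp k l
    have h1 : NoPole (fun x => g (x + -z)) z := NoPole.shift (by rwa [add_neg_cancel])
    have h2 := ((NoPole.of_analyticAt (g := fun _ => m) analyticAt_const).mul h1).add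
      (NoPole.of_analyticAt (g := fun _ => c) analyticAt_const)
    refine h2.congr ?_
    filter_upwards [Θ.eventually_ne z] with w hw
    have e1 : w + -z + ((k : ℂ) * Θ.ω + (l : ℂ) * Θ.ω') = w := by rw [← e]; ring
    have h3 := hm (w + -z) ((Θ.ne_lat_iff _ k l).1 (by rwa [e1]))
    rw [e1] at h3
    exact h3.symm
  · exact NoPole.of_analyticAt (ha z hz)

/-- The shifts under which `θ` is multiplied by an exponential factor. -/
def TB2_grp : AddSubgroup ℂ where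
  carrier := {a | ∃ A b : ℂ, A ≠ 0 ∧ ∀ z, Θ.θ (z + a) = A * Complex.exp (b * z) * Θ.θ z}
  zero_mem' := ⟨1, 0, one_ne_zero, fun z => by simp⟩
  add_mem' := by
    rintro a a' ⟨A, b, hA, h⟩ ⟨A', b', hA', h'⟩
    refine ⟨A * A' * Complex.exp (b' * a), b + b',
      mul_ne_zero (mul_ne_zero hA hA') (Complex.exp_ne_zero _), fun z => ?_⟩
    rw [← add_assoc, h', h, mul_add, add_mul, Complex.exp_add, Complex.exp_add]
    ring
  neg_mem' := by
    rintro a ⟨A, b, hA, h⟩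
    refine ⟨A⁻¹ * Complex.exp (b * a), -b,
      mul_ne_zero (inv_ne_zero hA) (Complex.exp_ne_zero _), fun z => ?_⟩
    have h1 := h (z + -a)
    rw [neg_add_cancel_right] at h1
    have h2 : Complex.exp (b * a) * Complex.exp (-b * z) * Complex.exp (b * (z + -a)) = 1 := by
      rw [← Complex.exp_add, ← Complex.exp_add, ← Complex.exp_zero]
      congr 1
      ring
    rw [h1]
    have h3 : A⁻¹ * A = 1 := inv_mul_cancel₀ hA
    calc Θ.θ (z + -a) = (A⁻¹ * A) * (Complex.exp (b * a) * Complex.exp (-b * z) *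
          Complex.exp (b * (z + -a))) * Θ.θ (z + -a) := by rw [h2, h3]; ring
      _ = _ := by ring

theorem TB2_quasi (k l : ℤ) : ∃ A b : ℂ, A ≠ 0 ∧ ∀ z,
    Θ.θ (z + ((k : ℂ) * Θ.ω + (l : ℂ) * Θ.ω')) = A * Complex.exp (b * z) * Θ.θ z := by
  have h1 : Θ.ω ∈ Θ.TB2_grp := ⟨-1, 0, by norm_num, fun z => by rw [Θ.per]; simp⟩
  have h2 : Θ.ω' ∈ Θ.TB2_grp := ⟨Θ.κ, -Θ.ν, Θ.κ_ne, fun z => by rw [Θ.qper, neg_mul]⟩
  have h3 := Θ.TB2_grp.add_mem (Θ.TB2_grp.zsmul_mem h1 k) (Θ.TB2_grp.zsmul_mem h2 l)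
  rw [zsmul_eq_mul, zsmul_eq_mul] at h3
  exact h3

theorem TB2_dslope : AnalyticAt ℂ (dslope Θ.θ 0) 0 :=
  ((Complex.differentiableOn_dslope (s := Set.univ) univ_mem).2
    Θ.diff.differentiableOn).analyticAt univ_mem

theorem TB2_even {g : ℂ → ℂ} (h : ∀ x, g (-x) = g x) : deriv g 0 = 0 := by
  have h1 : deriv (fun x => g (-x)) 0 = -deriv g (-0) := deriv_comp_neg g 0
  have h2 : (fun x => g (-x)) = g := funext h
  rw [h2, neg_zero] at h1
  linear_combination (1 / 2 : ℂ) * h1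

theorem sigma_id {x u : ℂ} (hx : Θ.θ x ≠ 0) (hu : Θ.θ u ≠ 0) :
    Θ.θ (x + u) * Θ.θ (x - u) = Θ.θ x ^ 2 * Θ.θ u ^ 2 * (xf Θ.θ u - xf Θ.θ x) := by
  obtain ⟨G, hG⟩ : ∃ G : ℂ → ℂ, G = fun x => Θ.θ (x + u) * Θ.θ (x - u) / Θ.θ x ^ 2 -
      Θ.θ u ^ 2 * (xf Θ.θ u - xf Θ.θ x) := ⟨_, rfl⟩
  obtain ⟨g, hg⟩ : ∃ g : ℂ → ℂ, g = fun x => Θ.θ (x + u) * Θ.θ (x - u) -
      Θ.θ u ^ 2 * (Θ.θ x ^ 2 * xf Θ.θ u - nA Θ.θ x) := ⟨_, rfl⟩
  have d1 : Differentiable ℂ fun x => Θ.θ (x + u) := Θ.diff.comp (differentiable_id.add_const u)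
  have d2 : Differentiable ℂ fun x => Θ.θ (x - u) := Θ.diff.comp (differentiable_id.sub_const u)
  have dg : Differentiable ℂ g := by
    rw [hg]
    exact (d1.mul d2).sub ((((Θ.diff.pow 2).mul_const _).sub Θ.differentiable_nA).const_mul _)
  have g0 : g 0 = 0 := by
    rw [hg]
    simp only [zero_add, zero_sub, Θ.odd, Θ.θ_zero, Θ.nA_zero]
    ring
  have ge : ∀ x, g (-x) = g x := fun x => by
    have e1 : -x + u = -(x - u) := by ring
    have e2 : -x - u = -(x + u) := by ring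
    rw [hg]
    simp only [e1, e2, Θ.odd, Θ.nA_neg]
    ring
  have n1 : NoPole (fun x => g x / x ^ 2) 0 := NoPole.div_pow (dg.analyticAt 0) 2 (fun j hj => by
    interval_cases j
    · rw [iteratedDeriv_zero, g0]
    · rw [iteratedDeriv_one, TB2_even ge])
  have s0 : dslope Θ.θ 0 0 ≠ 0 := by rw [dslope_same, Θ.deriv0]; exact one_ne_zero
  have n2 : NoPole (fun x => ((dslope Θ.θ 0 x) ^ 2)⁻¹) 0 :=
    NoPole.of_analyticAt ((Θ.TB2_dslope.pow 2).inv (pow_ne_zero 2 s0))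
  have n0 : NoPole G 0 := (n1.mul n2).congr (by
    filter_upwards [Θ.eventually_ne 0, self_mem_nhdsWithin] with w hw hw0
    have hw1 : w ≠ 0 := hw0
    rw [dslope_of_ne _ hw1, slope_def_field, Θ.θ_zero, hG, hg]
    simp only [sub_zero]
    rw [← Θ.sq_mul_xf hw]
    field_simp)
  have aG : ∀ z, Θ.θ z ≠ 0 → AnalyticAt ℂ G z := fun z hz => by
    rw [hG]
    exact (((d1.analyticAt z).mul (d2.analyticAt z)).div ((Θ.analyticAt z).pow 2)
      (pow_ne_zero 2 hz)).sub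
      (analyticAt_const.mul (analyticAt_const.sub (Θ.analyticAt_xf hz)))
  have pG : ∀ (k l : ℤ) z, Θ.θ z ≠ 0 → G (z + ((k : ℂ) * Θ.ω + (l : ℂ) * Θ.ω')) = G z :=
    fun k l z hz => by
    obtain ⟨A, b, hA, h⟩ := Θ.TB2_quasi k l
    have e1 : z + ((k : ℂ) * Θ.ω + (l : ℂ) * Θ.ω') + u =
        z + u + ((k : ℂ) * Θ.ω + (l : ℂ) * Θ.ω') := by ring
    have e2 : z + ((k : ℂ) * Θ.ω + (l : ℂ) * Θ.ω') - u =
        z - u + ((k : ℂ) * Θ.ω + (l : ℂ) * Θ.ω') := by ring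
    have e3 : Complex.exp (b * (z + u)) * Complex.exp (b * (z - u)) = Complex.exp (b * z) ^ 2 := by
      rw [sq, ← Complex.exp_add, ← Complex.exp_add]
      congr 1
      ring
    have e4 := Complex.exp_ne_zero (b * z)
    rw [hG]
    simp only [e1, e2, h, Θ.xf_lat hz]
    congr 1
    rw [div_eq_div_iff (pow_ne_zero 2 (mul_ne_zero (mul_ne_zero hA e4) hz)) (pow_ne_zero 2 hz)]
    linear_combination A ^ 2 * Θ.θ (z + u) * Θ.θ (z - u) * Θ.θ z ^ 2 * e3
  have nG := Θ.noPole_of_lat n0 aG (fun k l => ⟨1, 0, fun z hz => by rw [pG k l z hz]; ring⟩)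
  obtain ⟨-, c0, hc⟩ := liou_add (c := 0) Θ.him {z | Θ.θ z = 0} Θ.eventually_ne nG
    (fun z hz => (aG z hz).continuousAt)
    (fun z hz => by simpa using pG 1 0 z hz) (fun z hz => by simpa using pG 0 1 z hz)
  have h1 : G x = G u := (hc x hx).trans (hc u hu).symm
  rw [hG] at h1
  simp only [sub_self, Θ.θ_zero, mul_zero, zero_div] at h1
  rw [sub_eq_zero, div_eq_iff (pow_ne_zero 2 hx)] at h1
  rw [h1]
  ring

theorem TB2_dx {x u : ℂ} (hx : Θ.θ x ≠ 0) (hu : Θ.θ u ≠ 0) :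
    deriv Θ.θ (x + u) * Θ.θ (x - u) + Θ.θ (x + u) * deriv Θ.θ (x - u) =
      2 * Θ.θ x * deriv Θ.θ x * Θ.θ u ^ 2 * (xf Θ.θ u - xf Θ.θ x) -
        Θ.θ x ^ 2 * Θ.θ u ^ 2 * yf Θ.θ x := by
  have h1 := ((Θ.diff (x + u)).hasDerivAt.comp_add_const x u).mul
    ((Θ.diff (x - u)).hasDerivAt.comp_sub_const x u)
  have h2 := (((Θ.diff x).hasDerivAt.pow 2).mul_const (Θ.θ u ^ 2)).mul
    ((Θ.hasDerivAt_xf hx).const_sub (xf Θ.θ u))
  have h3 := h1.unique (h2.congr_of_eventuallyEq (by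
    filter_upwards [Θ.eventually_ne_of_ne hx] with w hw
    exact Θ.sigma_id hw hu))
  simp only [Pi.pow_apply] at h3
  rw [h3]
  push_cast
  ring

theorem TB2_du {x u : ℂ} (hx : Θ.θ x ≠ 0) (hu : Θ.θ u ≠ 0) :
    deriv Θ.θ (x + u) * Θ.θ (x - u) - Θ.θ (x + u) * deriv Θ.θ (x - u) =
      2 * Θ.θ x ^ 2 * Θ.θ u * deriv Θ.θ u * (xf Θ.θ u - xf Θ.θ x) +
        Θ.θ x ^ 2 * Θ.θ u ^ 2 * yf Θ.θ u := by
  have h := Θ.TB2_dx hu hx
  have e1 : u - x = -(x - u) := by ring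
  rw [add_comm u x, e1, Θ.odd, Θ.deriv_neg] at h
  linear_combination -h

theorem add_zt {x u : ℂ} (hx : Θ.θ x ≠ 0) (hu : Θ.θ u ≠ 0) (hxu : Θ.θ (x + u) ≠ 0) :
    2 * (xf Θ.θ u - xf Θ.θ x) * (zt Θ.θ (x + u) - zt Θ.θ x - zt Θ.θ u) =
      yf Θ.θ u - yf Θ.θ x := by
  have h1 := Θ.TB2_dx hx hu
  have h2 := Θ.TB2_du hx hu
  have h3 := Θ.sigma_id hx hu
  rw [← Θ.mul_zt hxu, ← Θ.mul_zt hx] at h1
  rw [← Θ.mul_zt hxu, ← Θ.mul_zt hu] at h2
  refine mul_left_cancel₀ (mul_ne_zero (pow_ne_zero 2 hx) (pow_ne_zero 2 hu)) ?_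
  linear_combination h1 + h2 - 2 * zt Θ.θ (x + u) * h3

theorem theta_double {x : ℂ} (hx : Θ.θ x ≠ 0) : Θ.θ (2 * x) = -(Θ.θ x ^ 4 * yf Θ.θ x) := by
  have h := Θ.TB2_dx hx hx
  rw [sub_self, sub_self, Θ.θ_zero, Θ.deriv0, ← two_mul] at h
  linear_combination h

theorem xf_eq_iff {x u : ℂ} (hx : Θ.θ x ≠ 0) (hu : Θ.θ u ≠ 0) :
    xf Θ.θ x = xf Θ.θ u ↔ Θ.θ (x + u) = 0 ∨ Θ.θ (x - u) = 0 := by
  rw [← mul_eq_zero, Θ.sigma_id hx hu, mul_eq_zero, sub_eq_zero,
    or_iff_right (mul_ne_zero (pow_ne_zero 2 hx) (pow_ne_zero 2 hu))]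
  exact eq_comm

theorem xy_inj {x x' : ℂ} (hx : Θ.θ x ≠ 0) (hx' : Θ.θ x' ≠ 0) (h1 : xf Θ.θ x = xf Θ.θ x')
    (h2 : yf Θ.θ x = yf Θ.θ x') : Θ.θ (x - x') = 0 := by
  rcases (Θ.xf_eq_iff hx hx').1 h1 with h | h
  · obtain ⟨k, l, e⟩ := (Θ.zero_iff _).1 h
    have hn : Θ.θ (-x) ≠ 0 := by rw [Θ.odd]; exact neg_ne_zero.2 hx
    have h3 := Θ.yf_lat hn k l
    rw [← e, neg_add_cancel_left, Θ.yf_neg, ← h2] at h3
    have h4 : yf Θ.θ x = 0 := by linear_combination (1 / 2 : ℂ) * h3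
    have h5 := Θ.theta_double hx
    rw [h4, mul_zero, neg_zero] at h5
    obtain ⟨k', l', e'⟩ := (Θ.zero_iff _).1 h5
    refine (Θ.zero_iff _).2 ⟨k' - k, l' - l, ?_⟩
    push_cast
    linear_combination e' - e
  · exact h

theorem xf_infinite : (xf Θ.θ '' {x | Θ.θ x ≠ 0 ∧ yf Θ.θ x ≠ 0}).Infinite := by
  intro hf
  obtain ⟨B, hB⟩ := (hf.image fun w : ℂ => ‖w‖).bddAbove
  have t2 : Tendsto (fun x : ℂ => 2 * x) (𝓝[≠] 0) (𝓝[≠] 0) := by
    refine tendsto_nhdsWithin_iff.2 ⟨?_, ?_⟩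
    · have h : Tendsto (fun x : ℂ => 2 * x) (𝓝 0) (𝓝 (2 * 0)) :=
        (continuous_const.mul continuous_id).tendsto 0
      rw [mul_zero] at h
      exact h.mono_left nhdsWithin_le_nhds
    · filter_upwards [self_mem_nhdsWithin] with w hw
      exact mul_ne_zero two_ne_zero hw
  obtain ⟨w, h1, h2, h3⟩ := ((Θ.eventually_ne 0).and ((t2.eventually (Θ.eventually_ne 0)).and
    (Θ.tendsto_xf.eventually_gt_atTop B))).exists
  have h4 : yf Θ.θ w ≠ 0 := fun h => h2 (by rw [Θ.theta_double h1, h, mul_zero, neg_zero])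
  exact absurd (hB ⟨_, ⟨w, ⟨h1, h4⟩, rfl⟩, rfl⟩) (not_le.2 h3)

end PreTheta

end Pool.Agent.E21
end

-- merged part: Pool.Agent.Work.MP_e21d36_nt.Tay
section
/-!
# Taylor series at the origin as a ring map

Plan.  `tay_mul`: `iteratedDeriv_fun_mul` (needs `AnalyticAt.contDiffAt`),
`PowerSeries.coeff_mul`, `Finset.Nat.sum_antidiagonal_eq_sum_range_succ_mk`, `Nat.cast_choose`.
`tay_congr`: two functions analytic at `0` that agree on a punctured neighbourhood agree on a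
neighbourhood (continuity), `Filter.EventuallyEq.iteratedDeriv_eq`.
`tay_scale`: `iteratedDeriv_comp_const_mul` or the germ version by induction.
`noPole_polar`: `AnalyticAt.exists_eventuallyEq_sum_add_pow_mul`.
-/

namespace Pool.Agent.E21

open Filter Topology PowerSeries

theorem coeff_tay (g : ℂ → ℂ) (n : ℕ) :
    coeff n (tay g) = iteratedDeriv n g 0 / (n.factorial : ℂ) := by
  simp only [tay, PowerSeries.coeff_mk]

theorem coeff_zero_tay (g : ℂ → ℂ) : coeff 0 (tay g) = g 0 := by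
  rw [coeff_tay]; simp

theorem tay_congr {f g : ℂ → ℂ} (hf : AnalyticAt ℂ f 0) (hg : AnalyticAt ℂ g 0)
    (h : f =ᶠ[𝓝[≠] 0] g) : tay f = tay g := by
  have h0 : f 0 = g 0 := by
    have h1 : Tendsto f (𝓝[≠] 0) (𝓝 (f 0)) :=
      hf.continuousAt.tendsto.mono_left nhdsWithin_le_nhds
    have h2 : Tendsto g (𝓝[≠] 0) (𝓝 (g 0)) :=
      hg.continuousAt.tendsto.mono_left nhdsWithin_le_nhds
    exact tendsto_nhds_unique (h1.congr' h) h2
  have h' : f =ᶠ[𝓝 0] g := by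
    have h3 := eventually_nhdsWithin_iff.1 h
    filter_upwards [h3] with x hx
    by_cases hx0 : x = 0
    · rw [hx0]; exact h0
    · exact hx hx0
  ext n
  rw [coeff_tay, coeff_tay, h'.iteratedDeriv_eq n]

theorem tay_const (c : ℂ) : tay (fun _ => c) = PowerSeries.C c := by
  ext n
  rw [coeff_tay, iteratedDeriv_const, PowerSeries.coeff_C]
  by_cases h : n = 0
  · simp [h]
  · simp [h]

theorem tay_id : tay (fun x => x) = PowerSeries.X := by
  ext n
  rw [coeff_tay, iteratedDeriv_fun_id_zero, PowerSeries.coeff_X]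
  by_cases h : n = 1
  · simp [h]
  · simp [h]

theorem tay_add {f g : ℂ → ℂ} (hf : AnalyticAt ℂ f 0) (hg : AnalyticAt ℂ g 0) :
    tay (fun x => f x + g x) = tay f + tay g := by
  ext n
  rw [map_add, coeff_tay, coeff_tay, coeff_tay,
    iteratedDeriv_fun_add hf.contDiffAt hg.contDiffAt, add_div]

theorem tay_sub {f g : ℂ → ℂ} (hf : AnalyticAt ℂ f 0) (hg : AnalyticAt ℂ g 0) :
    tay (fun x => f x - g x) = tay f - tay g := by
  ext n
  rw [map_sub, coeff_tay, coeff_tay, coeff_tay,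
    iteratedDeriv_fun_sub hf.contDiffAt hg.contDiffAt, sub_div]

theorem tay_mul {f g : ℂ → ℂ} (hf : AnalyticAt ℂ f 0) (hg : AnalyticAt ℂ g 0) :
    tay (fun x => f x * g x) = tay f * tay g := by
  ext n
  rw [PowerSeries.coeff_mul, coeff_tay, iteratedDeriv_fun_mul hf.contDiffAt hg.contDiffAt,
    Finset.Nat.sum_antidiagonal_eq_sum_range_succ_mk, Finset.sum_div]
  refine Finset.sum_congr rfl fun i hi => ?_
  have hi' : i ≤ n := Nat.lt_succ_iff.1 (Finset.mem_range.1 hi)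
  rw [coeff_tay, coeff_tay, Nat.cast_choose ℂ hi']
  have h1 : (i.factorial : ℂ) ≠ 0 := Nat.cast_ne_zero.2 (Nat.factorial_ne_zero _)
  have h2 : ((n - i).factorial : ℂ) ≠ 0 := Nat.cast_ne_zero.2 (Nat.factorial_ne_zero _)
  have h3 : (n.factorial : ℂ) ≠ 0 := Nat.cast_ne_zero.2 (Nat.factorial_ne_zero _)
  field_simp

theorem tay_pow {f : ℂ → ℂ} (hf : AnalyticAt ℂ f 0) (k : ℕ) :
    tay (fun x => f x ^ k) = tay f ^ k := by
  induction k with
  | zero =>
    have := tay_const 1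
    simpa using this
  | succ k ih =>
    have h1 : (fun x => f x ^ (k + 1)) = fun x => (fun y => f y ^ k) x * f x := by
      funext x; rw [pow_succ]
    rw [h1, tay_mul (hf.fun_pow k) hf, ih, pow_succ]

theorem tay_sum {ι : Type} (s : Finset ι) {f : ι → ℂ → ℂ} (hf : ∀ i ∈ s, AnalyticAt ℂ (f i) 0) :
    tay (fun x => ∑ i ∈ s, f i x) = ∑ i ∈ s, tay (f i) := by
  classical
  induction s using Finset.induction_on with
  | empty =>
    have := tay_const 0
    simpa using this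
  | insert a s ha ih =>
    have h1 : (fun x => ∑ i ∈ insert a s, f i x) =
        fun x => f a x + (fun y => ∑ i ∈ s, f i y) x := by
      funext x; rw [Finset.sum_insert ha]
    have h2 : ∀ i ∈ s, AnalyticAt ℂ (f i) 0 := fun i hi => hf i (Finset.mem_insert_of_mem hi)
    rw [h1, tay_add (hf a (Finset.mem_insert_self a s)) (Finset.analyticAt_fun_sum s h2),
      ih h2, Finset.sum_insert ha]

theorem coeff_tay_deriv (f : ℂ → ℂ) (n : ℕ) :
    coeff n (tay (deriv f)) = ((n : ℂ) + 1) * coeff (n + 1) (tay f) := by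
  rw [coeff_tay, coeff_tay, iteratedDeriv_succ', Nat.factorial_succ]
  have h3 : (n.factorial : ℂ) ≠ 0 := Nat.cast_ne_zero.2 (Nat.factorial_ne_zero _)
  have h4 : ((n : ℂ) + 1) ≠ 0 := by exact_mod_cast Nat.succ_ne_zero n
  push_cast
  field_simp

theorem coeff_tay_euler {f : ℂ → ℂ} (hf : AnalyticAt ℂ f 0) (n : ℕ) :
    coeff n (tay (fun x => x * deriv f x)) = (n : ℂ) * coeff n (tay f) := by
  have h1 : tay (fun x => x * deriv f x) = PowerSeries.X * tay (deriv f) := by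
    rw [← tay_id]
    exact tay_mul (f := fun x => x) analyticAt_id hf.deriv
  rw [h1]
  cases n with
  | zero => simp
  | succ n =>
    rw [PowerSeries.coeff_succ_X_mul, coeff_tay_deriv]
    push_cast
    ring

theorem Tay_scale (f : ℂ → ℂ) (c : ℂ) (n : ℕ) :
    iteratedDeriv n (fun x => f (c * x)) = fun x => c ^ n * iteratedDeriv n f (c * x) := by
  induction n with
  | zero => simp
  | succ n ih =>
    rw [iteratedDeriv_succ, ih, iteratedDeriv_succ]
    funext x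
    rw [deriv_const_mul_field, deriv_comp_mul_left, smul_eq_mul, pow_succ]
    ring

theorem coeff_tay_scale {f : ℂ → ℂ} (hf : AnalyticAt ℂ f 0) (c : ℂ) (n : ℕ) :
    coeff n (tay (fun x => f (c * x))) = c ^ n * coeff n (tay f) := by
  have _ := hf
  rw [coeff_tay, coeff_tay, Tay_scale]
  simp only [mul_zero]
  ring

theorem coeff_tay_exp (c : ℂ) (n : ℕ) :
    coeff n (tay (fun x => Complex.exp (c * x))) = c ^ n / (n.factorial : ℂ) := by
  rw [coeff_tay, iteratedDeriv_cexp_const_mul]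
  simp

theorem eventually_zero_of_tay {f : ℂ → ℂ} (hf : AnalyticAt ℂ f 0) (h : tay f = 0) :
    ∀ᶠ x in 𝓝 (0 : ℂ), f x = 0 := by
  rw [← analyticOrderAt_eq_top]
  have h1 : ∀ n : ℕ, iteratedDeriv n f 0 = 0 := by
    intro n
    have h2 := coeff_tay f n
    rw [h, map_zero] at h2
    have h3 : (n.factorial : ℂ) ≠ 0 := Nat.cast_ne_zero.2 (Nat.factorial_ne_zero _)
    rcases div_eq_zero_iff.1 h2.symm with h4 | h4
    · exact h4
    · exact absurd h4 h3
  have h5 : ∀ n : ℕ, (n : ℕ∞) ≤ analyticOrderAt f 0 := fun n =>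
    (natCast_le_analyticOrderAt_iff_iteratedDeriv_eq_zero hf).2 fun i _ => h1 i
  exact ENat.eq_top_iff_forall_ge.2 h5

/-- Polar part of `g x / x ^ M`. -/
theorem noPole_polar {g : ℂ → ℂ} (hg : AnalyticAt ℂ g 0) (M : ℕ) :
    NoPole (fun x => g x / x ^ M -
      ∑ i ∈ Finset.range M, coeff (M - 1 - i) (tay g) / x ^ (i + 1)) 0 := by
  obtain ⟨F, hF, hFe⟩ := hg.exists_eventuallyEq_sum_add_pow_mul M
  refine ⟨F, hF, ?_⟩
  have h1 : ∀ᶠ x in nhdsWithin (0 : ℂ) {0}ᶜ, x ≠ 0 := self_mem_nhdsWithin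
  filter_upwards [h1, hFe.filter_mono nhdsWithin_le_nhds] with x hx hxe
  have hxM : x ^ M ≠ 0 := pow_ne_zero _ hx
  have h2 : ∑ i ∈ Finset.range M, coeff (M - 1 - i) (tay g) / x ^ (i + 1) =
      (∑ i ∈ Finset.range M, (x ^ i / (i.factorial : ℂ)) • iteratedDeriv i g 0) / x ^ M := by
    rw [Finset.sum_div, ← Finset.sum_range_reflect
      (fun i => ((x ^ i / (i.factorial : ℂ)) • iteratedDeriv i g 0) / x ^ M) M]
    refine Finset.sum_congr rfl fun i hi => ?_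
    have hi' : i < M := Finset.mem_range.1 hi
    have h3 : x ^ M = x ^ (M - 1 - i) * x ^ (i + 1) := by
      rw [← pow_add]; congr 1; omega
    have h4 : ((M - 1 - i).factorial : ℂ) ≠ 0 := Nat.cast_ne_zero.2 (Nat.factorial_ne_zero _)
    have h5 : x ^ (M - 1 - i) ≠ 0 := pow_ne_zero _ hx
    have h6 : x ^ (i + 1) ≠ 0 := pow_ne_zero _ hx
    rw [coeff_tay, h3, smul_eq_mul]
    field_simp
  rw [h2, hxe, smul_eq_mul]
  field_simp
  ring

end Pool.Agent.E21
end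

-- merged part: Pool.Agent.Work.MP_e21d36_nt.Sz
section
/-!
# Calculus of sizes

Plan: everything by induction on `Mon` or on the list.  `Sz.map` is the basic transfer lemma
(induction on the list, `Sz.add`).  `Sz.mul`: `Sz.map` applied to multiplication by `y`.
`Sz.deriv`: for a monomial `g * x`, `D (g x) = g D x + x D g`.
-/

namespace Pool.Agent.E21

variable {R : Type} [CommRing R] {G : Set R}

theorem Mon.mono {n n' : ℕ} {x : R} (h : Mon G n x) (hn : n ≤ n') : Mon G n' x := by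
  induction h generalizing n' with
  | one n => exact Mon.one _
  | neg _ ih => exact Mon.neg (ih hn)
  | mul hg _ ih =>
    obtain ⟨k, rfl⟩ : ∃ k, n' = k + 1 := ⟨n' - 1, by omega⟩
    exact Mon.mul hg (ih (by omega))

theorem Mon.mul' {n n' : ℕ} {x y : R} (hx : Mon G n x) (hy : Mon G n' y) :
    Mon G (n + n') (x * y) := by
  induction hx with
  | one n => rw [one_mul]; exact hy.mono (by omega)
  | neg _ ih => rw [neg_mul]; exact Mon.neg ih
  | @mul k g z hg _ ih =>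
    have e : k + 1 + n' = (k + n') + 1 := by omega
    rw [mul_assoc, e]
    exact Mon.mul hg ih

theorem Mon.subset {G' : Set R} (hG : G ⊆ G') {n : ℕ} {x : R} (h : Mon G n x) : Mon G' n x := by
  induction h with
  | one n => exact Mon.one _
  | neg _ ih => exact Mon.neg ih
  | mul hg _ ih => exact Mon.mul (hG hg) ih

theorem Sz.mono {n n' H H' : ℕ} {x : R} (h : Sz G n H x) (hn : n ≤ n') (hH : H ≤ H') :
    Sz G n' H' x := by
  obtain ⟨L, hL, hm, hs⟩ := h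
  exact ⟨L, hL.trans hH, fun y hy => (hm y hy).mono hn, hs⟩

theorem Sz.subset {G' : Set R} (hG : G ⊆ G') {n H : ℕ} {x : R} (h : Sz G n H x) :
    Sz G' n H x := by
  obtain ⟨L, hL, hm, hs⟩ := h
  exact ⟨L, hL, fun y hy => (hm y hy).subset hG, hs⟩

theorem Sz.zero (n H : ℕ) : Sz G n H 0 := by
  exact ⟨[], by simp, by simp, by simp⟩

theorem Sz.of_mon {n : ℕ} {x : R} (h : Mon G n x) : Sz G n 1 x := by
  exact ⟨[x], by simp, by simpa using h, by simp⟩

theorem Sz.one (n : ℕ) : Sz G n 1 1 := by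
  exact Sz.of_mon (Mon.one n)

theorem Sz.gen {g : R} (hg : g ∈ G) : Sz G 1 1 g := by
  have h : Mon G (0 + 1) (g * 1) := Mon.mul hg (Mon.one 0)
  rw [mul_one] at h
  exact Sz.of_mon h

theorem Sz.neg {n H : ℕ} {x : R} (h : Sz G n H x) : Sz G n H (-x) := by
  obtain ⟨L, hL, hm, hs⟩ := h
  refine ⟨L.map (fun y => -y), by simpa using hL, ?_, ?_⟩
  · intro y hy
    obtain ⟨z, hz, rfl⟩ := List.mem_map.1 hy
    exact Mon.neg (hm z hz)
  · rw [← hs, List.sum_neg]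

theorem Sz.add {n H H' : ℕ} {x y : R} (hx : Sz G n H x) (hy : Sz G n H' y) :
    Sz G n (H + H') (x + y) := by
  obtain ⟨L, hL, hm, hs⟩ := hx
  obtain ⟨L', hL', hm', hs'⟩ := hy
  refine ⟨L ++ L', by rw [List.length_append]; omega, ?_, by rw [List.sum_append, hs, hs']⟩
  intro z hz
  rcases List.mem_append.1 hz with hz | hz
  · exact hm z hz
  · exact hm' z hz

theorem Sz.sub {n H H' : ℕ} {x y : R} (hx : Sz G n H x) (hy : Sz G n H' y) :
    Sz G n (H + H') (x - y) := by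
  rw [sub_eq_add_neg]
  exact hx.add hy.neg

theorem Sz.map {R' : Type} [CommRing R'] {G' : Set R'} (φ : R →+ R') {n n' H H' : ℕ}
    (hφ : ∀ y, Mon G n y → Sz G' n' H' (φ y)) {x : R} (h : Sz G n H x) :
    Sz G' n' (H * H') (φ x) := by
  obtain ⟨L, hL, hm, rfl⟩ := h
  have key : Sz G' n' (L.length * H') (φ L.sum) := by
    clear hL
    induction L with
    | nil => simpa using Sz.zero n' 0
    | cons a L ih =>
      have h1 := hφ a (hm a (by simp))
      have h2 := ih (fun y hy => hm y (by simp [hy]))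
      have e : (a :: L).length * H' = H' + L.length * H' := by
        rw [List.length_cons]; ring
      rw [List.sum_cons, map_add, e]
      exact h1.add h2
  exact key.mono le_rfl (Nat.mul_le_mul_right _ hL)

theorem Sz.mul {n n' H H' : ℕ} {x y : R} (hx : Sz G n H x) (hy : Sz G n' H' y) :
    Sz G (n + n') (H * H') (x * y) := by
  have h1 : ∀ a, Mon G n a → Sz G (n + n') H' (a * y) := by
    intro a ha
    have := Sz.map (G := G) (G' := G) (AddMonoidHom.mulLeft a) (n := n') (n' := n + n')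
      (H' := 1) (fun b hb => Sz.of_mon (ha.mul' hb)) hy
    simpa using this
  have := Sz.map (G := G) (G' := G) (AddMonoidHom.mulRight y) (n := n) (n' := n + n')
    (H' := H') (fun a ha => h1 a ha) hx
  simpa using this

theorem Sz.natCast (n k : ℕ) : Sz G n k (k : R) := by
  induction k with
  | zero => simpa using Sz.zero n 0
  | succ k ih =>
    rw [Nat.cast_succ]
    exact ih.add (Sz.one n)

theorem Sz.natCast_mul {n H : ℕ} {x : R} (k : ℕ) (h : Sz G n H x) :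
    Sz G n (k * H) ((k : R) * x) := by
  have := (Sz.natCast (G := G) 0 k).mul h
  rwa [zero_add] at this

theorem Sz.intCast_mul {n H : ℕ} {x : R} (k : ℤ) (h : Sz G n H x) :
    Sz G n (k.natAbs * H) ((k : R) * x) := by
  have h1 := Sz.natCast_mul k.natAbs h
  rcases Int.natAbs_eq k with hk | hk
  · have e : (k : R) = (k.natAbs : R) := by
      conv_lhs => rw [hk]
      exact Int.cast_natCast _
    rw [e]
    exact h1
  · have e : (k : R) = -(k.natAbs : R) := by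
      conv_lhs => rw [hk]
      rw [Int.cast_neg, Int.cast_natCast]
    rw [e, neg_mul]
    exact h1.neg

theorem Sz.sum {ι : Type} (s : Finset ι) {n : ℕ} (H : ι → ℕ) (f : ι → R)
    (h : ∀ i ∈ s, Sz G n (H i) (f i)) : Sz G n (∑ i ∈ s, H i) (∑ i ∈ s, f i) := by
  classical
  induction s using Finset.induction_on with
  | empty => simpa using Sz.zero n 0
  | insert a s ha ih =>
    rw [Finset.sum_insert ha, Finset.sum_insert ha]
    exact (h a (by simp)).add (ih fun i hi => h i (by simp [hi]))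

theorem Sz.sum_le {ι : Type} (s : Finset ι) {n H : ℕ} (f : ι → R)
    (h : ∀ i ∈ s, Sz G n H (f i)) : Sz G n (s.card * H) (∑ i ∈ s, f i) := by
  have := Sz.sum s (fun _ => H) f h
  simpa using this

theorem Sz.prod {ι : Type} (s : Finset ι) (n H : ι → ℕ) (f : ι → R)
    (h : ∀ i ∈ s, Sz G (n i) (H i) (f i)) :
    Sz G (∑ i ∈ s, n i) (∏ i ∈ s, H i) (∏ i ∈ s, f i) := by
  classical
  induction s using Finset.induction_on with
  | empty => simpa using Sz.one 0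
  | insert a s ha ih =>
    rw [Finset.sum_insert ha, Finset.prod_insert ha, Finset.prod_insert ha]
    exact (h a (by simp)).mul (ih fun i hi => h i (by simp [hi]))

theorem Sz.pow {n H : ℕ} {x : R} (h : Sz G n H x) (k : ℕ) : Sz G (k * n) (H ^ k) (x ^ k) := by
  induction k with
  | zero => simpa using Sz.one 0
  | succ k ih =>
    have e : (k + 1) * n = k * n + n := by ring
    rw [e, pow_succ, pow_succ]
    exact ih.mul h

theorem Sz.ringHom {R' : Type} [CommRing R'] {G' : Set R'} (φ : R →+* R')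
    (hφ : ∀ g ∈ G, φ g ∈ G' ∨ φ g = 0) {n H : ℕ} {x : R} (h : Sz G n H x) :
    Sz G' n H (φ x) := by
  have h1 : ∀ (m : ℕ) (y : R), Mon G m y → Mon G' m (φ y) ∨ φ y = 0 := by
    intro m y hy
    induction hy with
    | one k => left; rw [map_one]; exact Mon.one _
    | neg _ ih =>
      rcases ih with ih | ih
      · left; rw [map_neg]; exact Mon.neg ih
      · right; rw [map_neg, ih, neg_zero]
    | mul hg _ ih =>
      rcases hφ _ hg with h2 | h2
      · rcases ih with ih | ih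
        · left; rw [map_mul]; exact Mon.mul h2 ih
        · right; rw [map_mul, ih, mul_zero]
      · right; rw [map_mul, h2, zero_mul]
  have := Sz.map (G := G) (G' := G') φ.toAddMonoidHom (n := n) (n' := n) (H' := 1)
    (fun y hy => by
      rcases h1 n y hy with h2 | h2
      · exact Sz.of_mon h2
      · have e : φ.toAddMonoidHom y = 0 := h2
        rw [e]; exact Sz.zero _ _) h
  simpa using this

theorem Sz.deriv [Algebra ℂ R] (D : Derivation ℂ R R) {C0 : ℕ} (hD : ∀ g ∈ G, Sz G 2 C0 (D g))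
    {n H : ℕ} {x : R} (h : Sz G n H x) : Sz G (n + 1) (C0 * n * H) (D x) := by
  have h1 : ∀ (m : ℕ) (y : R), Mon G m y → Sz G (m + 1) (C0 * m) (D y) := by
    intro m y hy
    induction hy with
    | one k => rw [D.map_one_eq_zero]; exact Sz.zero _ _
    | neg _ ih => rw [map_neg]; exact ih.neg
    | @mul k g z hg hz ih =>
      rw [D.leibniz, smul_eq_mul, smul_eq_mul]
      have a1 := (Sz.gen hg).mul ih
      have a2 := (Sz.of_mon hz).mul (hD g hg)
      have a3 : Sz G (k + 1 + 1) (C0 * k) (g * D z) := a1.mono (by omega) (by omega)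
      have a4 : Sz G (k + 1 + 1) C0 (z * D g) := a2.mono (by omega) (by omega)
      exact (a3.add a4).mono le_rfl (by rw [Nat.mul_succ])
  have := Sz.map (G := G) (G' := G) D.toLinearMap.toAddMonoidHom (n := n) (n' := n + 1)
    (H' := C0 * n) (fun y hy => h1 n y hy) h
  rw [mul_comm H] at this
  exact this

theorem Sz.iter [Algebra ℂ R] (D : Derivation ℂ R R) {C0 : ℕ} (hD : ∀ g ∈ G, Sz G 2 C0 (D g))
    {n H : ℕ} {x : R} (h : Sz G n H x) (j : ℕ) :
    Sz G (n + j) ((C0 * (n + j)) ^ j * H) ((⇑D)^[j] x) := by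
  induction j with
  | zero => simpa using h
  | succ j ih =>
    rw [Function.iterate_succ_apply']
    refine (Sz.deriv D hD ih).mono (by omega) ?_
    have e1 : C0 * (n + j) ≤ C0 * (n + (j + 1)) := Nat.mul_le_mul_left _ (by omega)
    have e2 : (C0 * (n + j)) ^ j ≤ (C0 * (n + (j + 1))) ^ j := Nat.pow_le_pow_left e1 _
    calc C0 * (n + j) * ((C0 * (n + j)) ^ j * H)
        ≤ C0 * (n + (j + 1)) * ((C0 * (n + (j + 1))) ^ j * H) :=
          Nat.mul_le_mul e1 (Nat.mul_le_mul_right _ e2)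
      _ = (C0 * (n + (j + 1))) ^ (j + 1) * H := by ring

/-- Shape of the monomials of a polynomial ring whose generators are the variables and the
constants from `G0`. -/
theorem Mon.mv_shape {σ : Type} [Fintype σ] {G0 : Set ℂ} {n : ℕ} {x : MvPolynomial σ ℂ}
    (h : Mon (Set.range MvPolynomial.X ∪ MvPolynomial.C '' G0) n x) :
    ∃ (y : ℂ) (e : σ → ℕ), Mon G0 n y ∧ ∑ v, e v ≤ n ∧
      x = MvPolynomial.C y * ∏ v, MvPolynomial.X v ^ e v := by
  classical
  induction h with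
  | one k => exact ⟨1, fun _ => 0, Mon.one _, by simp, by simp⟩
  | neg _ ih =>
    obtain ⟨y, e, hy, he, rfl⟩ := ih
    exact ⟨-y, e, Mon.neg hy, he, by rw [map_neg, neg_mul]⟩
  | mul hg _ ih =>
    obtain ⟨y, e, hy, he, rfl⟩ := ih
    rcases hg with ⟨v, rfl⟩ | ⟨c, hc, rfl⟩
    · refine ⟨y, fun u => e u + (if u = v then 1 else 0), hy.mono (by omega), ?_, ?_⟩
      · rw [Finset.sum_add_distrib, Finset.sum_ite_eq' Finset.univ v (fun _ => 1)]
        simp only [Finset.mem_univ, if_true]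
        omega
      · have e1 : ∏ u, (MvPolynomial.X u : MvPolynomial σ ℂ) ^ (if u = v then 1 else 0)
            = MvPolynomial.X v := by
          rw [Finset.prod_eq_single v]
          · simp
          · intro u _ hu
            simp [hu]
          · simp
        simp only [pow_add, Finset.prod_mul_distrib, e1]
        ring
    · exact ⟨c * y, e, Mon.mul hc hy, by omega, by rw [map_mul, mul_assoc]⟩

end Pool.Agent.E21
end

-- merged part: Pool.Agent.Work.MP_e21d36_nt.Cls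
section
/-!
# The class of power series with denominators `(k n)!`

Plan.  `Cl.mul`: `(k n)! (g h)_n = ∑_{i+j=n} choose (k n) (k i) * ((k i)! g_i) * ((k j)! h_j)`
(`Nat.add_choose_mul_factorial_mul_factorial`), `Sz.natCast_mul`, `Sz.mul`, `Sz.sum_le`.
`Cl.mono_k`: `(k n)! ∣ (k' n)!`, multiply by the quotient.
`Cl.inv`: strong induction on `n` for the claim
`Sz (k n) ((2k)^n (k n)!) ((k n)! h_n)` using `h_n = - ∑_{i ≥ 1} g_i h_{n-i}` and
`∑_{i=1}^{n} k^i (2k)^(n-i) ≤ (2k)^n`; then enlarge the factorial.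
`Cl.div_pred`: `(k n)! (n-1)` divides `((k+1) n)!` for `n ≥ 2`.
`Cl.exp_rec`: strong induction for `Sz (k n) ((4k)^n (k n)! n!) ((k n)! n! β_n)`:
`(k n)! n! β_n = - ∑_{i ≥ 1} choose (k n) (k i) * ((n-1)!/(n-i)!) * ((k i)! r_i) *
((k (n-i))! (n-i)! β_{n-i})`; the sizes add up to at most
`(k n)! (n-1)! * 2 * ∑ k^i (4k)^(n-i) ≤ (k n)! n! (4k)^n`; finally
`(k n)! n! ∣ ((k+1) n)! ∣ (4 k n)!` for `k ≥ 1`.
-/

namespace Pool.Agent.E21

open PowerSeries

variable {G : Set ℂ}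

/-- `x` has denominator `D`, and `D x` has size at most `H D`. -/
def Cls_Q (G : Set ℂ) (d H D : ℕ) (x : ℂ) : Prop := Sz G d (H * D) ((D : ℂ) * x)

theorem Cls_dvd {d d' H H' D D' : ℕ} {x : ℂ} (h : Cls_Q G d H D x) (h1 : d ≤ d') (h2 : H ≤ H')
    (h3 : D ∣ D') : Cls_Q G d' H' D' x := by
  obtain ⟨q, rfl⟩ := h3
  have h4 := (Sz.natCast_mul q h).mono h1 (H' := H' * (D * q))
    ((le_of_eq (by ring)).trans (Nat.mul_le_mul_right (D * q) h2))
  unfold Cls_Q
  rwa [Nat.cast_mul, mul_comm (D : ℂ), mul_assoc]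

theorem Cls_zero (d H D : ℕ) : Cls_Q G d H D 0 := by
  unfold Cls_Q
  rw [mul_zero]
  exact Sz.zero _ _

theorem Cls_one : Cls_Q G 0 1 1 1 := by
  simpa [Cls_Q] using Sz.one (G := G) 0

theorem Cls_neg {d H D : ℕ} {x : ℂ} (h : Cls_Q G d H D x) : Cls_Q G d H D (-x) := by
  unfold Cls_Q
  rw [mul_neg]
  exact Sz.neg h

theorem Cls_mul {d d' H H' D D' : ℕ} {x y : ℂ} (h : Cls_Q G d H D x) (h' : Cls_Q G d' H' D' y) :
    Cls_Q G (d + d') (H * H') (D * D') (x * y) := by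
  unfold Cls_Q
  rw [Nat.cast_mul, mul_mul_mul_comm H, mul_mul_mul_comm (D : ℂ)]
  exact Sz.mul h h'

theorem Cls_sum {ι : Type} (s : Finset ι) {d D : ℕ} (H : ι → ℕ) (f : ι → ℂ)
    (h : ∀ i ∈ s, Cls_Q G d (H i) D (f i)) : Cls_Q G d (∑ i ∈ s, H i) D (∑ i ∈ s, f i) := by
  unfold Cls_Q
  rw [Finset.sum_mul, Finset.mul_sum]
  exact Sz.sum s _ _ h

theorem Cls_div {d H D c : ℕ} {x : ℂ} (h : Cls_Q G d H D (((c + 1 : ℕ) : ℂ) * x)) :
    Cls_Q G d H (D * (c + 1)) x := by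
  unfold Cls_Q
  rw [Nat.cast_mul, mul_assoc (D : ℂ)]
  exact Sz.mono h le_rfl (Nat.mul_le_mul_left H (Nat.le_mul_of_pos_right D c.succ_pos))

theorem Cls_geom (c k n : ℕ) : ∑ p ∈ Finset.HasAntidiagonal.antidiagonal n,
    c * k ^ (p.1 + 1) * ((c + 1) * k) ^ p.2 ≤ ((c + 1) * k) ^ (n + 1) := by
  induction n with
  | zero =>
    simp only [Finset.HasAntidiagonal.antidiagonal_zero, Finset.sum_singleton, zero_add, pow_one, pow_zero, mul_one]
    exact Nat.mul_le_mul_right k c.le_succ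
  | succ n ih =>
    rw [Finset.Nat.sum_antidiagonal_succ]
    have h1 : ∑ p ∈ Finset.HasAntidiagonal.antidiagonal n, c * k ^ (p.1 + 1 + 1) * ((c + 1) * k) ^ p.2 =
        k * ∑ p ∈ Finset.HasAntidiagonal.antidiagonal n, c * k ^ (p.1 + 1) * ((c + 1) * k) ^ p.2 := by
      rw [Finset.mul_sum]
      exact Finset.sum_congr rfl fun p _ => by ring
    rw [h1]
    refine (Nat.add_le_add_left (Nat.mul_le_mul_left k ih) _).trans (le_of_eq ?_)
    rw [pow_succ _ (n + 1)]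
    ring

theorem Cls_fac {k i j n : ℕ} (h : i + j = n) :
    (k * i).factorial * (k * j).factorial ∣ (k * n).factorial := by
  rw [← h, mul_add]
  exact Nat.factorial_mul_factorial_dvd_factorial_add _ _

theorem Cl.mono {k c0 c0' M M' m m' : ℕ} {g : ℂ⟦X⟧} (h : Cl G k c0 M m g) (h1 : c0 ≤ c0')
    (h2 : M ≤ M') (h3 : m ≤ m') : Cl G k c0' M' m' g := fun n =>
  Cls_dvd (h n) (Nat.add_le_add_left h1 _)
    (Nat.mul_le_mul_right _ (Nat.mul_le_mul h2 (Nat.pow_le_pow_right n.succ_pos h3))) dvd_rfl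

theorem Cl.mono_k {k k' c0 M m : ℕ} {g : ℂ⟦X⟧} (h : Cl G k c0 M m g) (hk : k ≤ k') :
    Cl G k' c0 M m g := fun n =>
  Cls_dvd (h n) (Nat.add_le_add_right (Nat.mul_le_mul_right n hk) _)
    (Nat.mul_le_mul_left _ (Nat.pow_le_pow_left hk n))
    (Nat.factorial_dvd_factorial (Nat.mul_le_mul_right n hk))

theorem Cl.one (k : ℕ) : Cl G k 0 1 0 1 := by
  rintro (_ | n)
  · simpa using Sz.one (G := G) 0
  · rw [coeff_one, if_neg n.succ_ne_zero]
    exact Cls_zero _ _ _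

theorem Cl.neg {k c0 M m : ℕ} {g : ℂ⟦X⟧} (h : Cl G k c0 M m g) : Cl G k c0 M m (-g) := fun n => by
  rw [map_neg]
  exact Cls_neg (h n)

theorem Cl.add {k c0 M M' m : ℕ} {g g' : ℂ⟦X⟧} (h : Cl G k c0 M m g) (h' : Cl G k c0 M' m g') :
    Cl G k c0 (M + M') m (g + g') := fun n => by
  rw [map_add, mul_add, add_mul, add_mul, add_mul]
  exact (h n).add (h' n)

theorem Cl.mul {k c0 c0' M M' m m' : ℕ} {g g' : ℂ⟦X⟧} (h : Cl G k c0 M m g)
    (h' : Cl G k c0' M' m' g') : Cl G k (c0 + c0') (M * M') (m + m' + 1) (g * g') := fun n => by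
  rw [coeff_mul]
  refine Cls_dvd (Cls_sum (d := k * n + (c0 + c0')) (D := (k * n).factorial) _
    (fun _ => M * M' * (n + 1) ^ (m + m') * k ^ n) _ fun p hp => ?_) le_rfl (le_of_eq ?_) dvd_rfl
  · have e := Finset.HasAntidiagonal.mem_antidiagonal.1 hp
    refine Cls_dvd (Cls_mul (h p.1) (h' p.2)) (le_of_eq (by rw [← e]; ring)) ?_ (Cls_fac e)
    calc M * (p.1 + 1) ^ m * k ^ p.1 * (M' * (p.2 + 1) ^ m' * k ^ p.2)
        ≤ M * (n + 1) ^ m * k ^ p.1 * (M' * (n + 1) ^ m' * k ^ p.2) := by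
          gcongr <;> omega
      _ = _ := by
          rw [← e]
          ring
  · rw [Finset.sum_const, Finset.Nat.card_antidiagonal, smul_eq_mul]
    ring

theorem Cl.pow {k M : ℕ} {g : ℂ⟦X⟧} (h : Cl G k 0 M 0 g) (a : ℕ) :
    Cl G k 0 (M ^ a) a (g ^ a) := by
  induction a with
  | zero => simpa using Cl.one (G := G) k
  | succ a ih =>
    rw [pow_succ, pow_succ]
    exact ih.mul h

/-- Absorb the constants into `k` when the constant coefficient is small. -/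
theorem Cl.absorb {k c0 M m M0 : ℕ} {g : ℂ⟦X⟧} (h : Cl G k c0 M m g) (hM0 : 1 ≤ M0)
    (h0 : Sz G 0 M0 (coeff 0 g)) : ∃ k' : ℕ, k ≤ k' ∧ Cl G k' 0 M0 0 g := by
  refine ⟨(M + 1) * 2 ^ m * k + k + c0, by omega, ?_⟩
  rintro (_ | n)
  · simpa using h0
  refine Cls_dvd (h (n + 1)) ?_ ?_ (Nat.factorial_dvd_factorial
    (Nat.mul_le_mul_right _ (by omega)))
  · linarith only [Nat.zero_le ((M + 1) * 2 ^ m * k * (n + 1)), Nat.zero_le (c0 * n)]
  · have h1 : M ≤ (M + 1) ^ (n + 1) := M.le_succ.trans (Nat.le_self_pow n.succ_ne_zero _)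
    have h2 : (n + 1 + 1) ^ m ≤ (2 ^ m) ^ (n + 1) := by
      rw [← pow_mul, mul_comm, pow_mul]
      exact Nat.pow_le_pow_left Nat.lt_two_pow_self m
    calc M * (n + 1 + 1) ^ m * k ^ (n + 1)
        ≤ (M + 1) ^ (n + 1) * (2 ^ m) ^ (n + 1) * k ^ (n + 1) := by gcongr
      _ = ((M + 1) * 2 ^ m * k) ^ (n + 1) := by rw [mul_pow, mul_pow]
      _ ≤ ((M + 1) * 2 ^ m * k + k + c0) ^ (n + 1) := Nat.pow_le_pow_left (by omega) _
      _ ≤ _ := by
          rw [pow_zero, mul_one]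
          exact Nat.le_mul_of_pos_left _ hM0

theorem Cl.inv {k : ℕ} {g h : ℂ⟦X⟧} (hg : Cl G k 0 1 0 g) (h0 : coeff 0 g = 1)
    (hgh : g * h = 1) : Cl G (2 * k) 0 1 0 h := by
  have key : ∀ n, Cls_Q G (k * n) ((2 * k) ^ n) (k * n).factorial (coeff n h) := by
    intro n
    induction n using Nat.strong_induction_on with
    | _ n ih =>
      have e := congrArg (coeff n) hgh
      rw [coeff_mul] at e
      obtain _ | n := n
      · rw [Finset.HasAntidiagonal.antidiagonal_zero, Finset.sum_singleton, h0, one_mul, coeff_zero_one] at e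
        rw [e]
        exact Cls_one
      rw [Finset.Nat.sum_antidiagonal_succ, h0, one_mul, coeff_one, if_neg n.succ_ne_zero] at e
      rw [eq_neg_of_add_eq_zero_left e]
      refine Cls_dvd (Cls_neg (Cls_sum _ _ _ fun p hp => ?_)) le_rfl (Cls_geom 1 k n) dvd_rfl
      have e1 := Finset.HasAntidiagonal.mem_antidiagonal.1 hp
      exact Cls_dvd (Cls_mul (hg (p.1 + 1)) (ih p.2 (by omega))) (le_of_eq (by rw [← e1]; ring))
        (le_of_eq (by ring)) (Cls_fac (by omega))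
  have h1 : ∀ n, k * n ≤ 2 * k * n := fun n => Nat.mul_le_mul_right n (by omega)
  exact fun n => Cls_dvd (key n) (h1 n) (le_of_eq (by ring)) (Nat.factorial_dvd_factorial (h1 n))

theorem Cl.euler {k c0 M m : ℕ} {g g' : ℂ⟦X⟧} (h : Cl G k c0 M m g)
    (hg' : ∀ n, coeff n g' = (n : ℂ) * coeff n g) : Cl G k c0 M (m + 1) g' := fun n => by
  rw [hg', mul_left_comm]
  refine (Sz.natCast_mul n (h n)).mono le_rfl ?_
  refine (Nat.mul_le_mul_right _ n.le_succ).trans (le_of_eq ?_)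
  rw [Nat.succ_eq_add_one]
  ring

theorem Cl.div_pred {k M : ℕ} {p r : ℂ⟦X⟧} (h : Cl G k 0 M 0 p)
    (hr : ∀ n : ℕ, coeff n p = (1 - (n : ℂ)) * coeff n r) (h1 : coeff 1 r = 0) :
    Cl G (k + 1) 0 M 0 r := by
  rintro (_ | _ | n)
  · have h2 := h 0
    rw [hr, Nat.cast_zero, sub_zero, one_mul] at h2
    exact h2
  · rw [zero_add, h1]
    exact Cls_zero _ _ _
  have h2 : Cls_Q G _ _ _ _ := Cls_neg (h (n + 1 + 1))
  have h3 : -coeff (n + 1 + 1) p = ((n + 1 : ℕ) : ℂ) * coeff (n + 1 + 1) r := by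
    rw [hr]
    push_cast
    ring
  rw [h3] at h2
  refine Cls_dvd (Cls_div h2) (Nat.mul_le_mul_right _ k.le_succ)
    (Nat.mul_le_mul_left _ (Nat.pow_le_pow_left k.le_succ _)) ?_
  rw [add_mul k, one_mul]
  exact (Nat.mul_dvd_mul_left _ (Nat.dvd_factorial n.succ_pos (Nat.le_succ _))).trans
    (Nat.factorial_mul_factorial_dvd_factorial_add _ _)

theorem Cl.exp_rec {k : ℕ} (hk : 1 ≤ k) {r β : ℂ⟦X⟧} (h : Cl G k 0 2 0 r) (h0 : coeff 0 r = 1)
    (hβ0 : coeff 0 β = 1)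
    (hβ : ∀ n : ℕ, (n : ℂ) * coeff n β = - coeff n ((r - 1) * β)) : Cl G (4 * k) 0 1 0 β := by
  have key : ∀ n, Cls_Q G (k * n) ((4 * k) ^ n) ((k * n).factorial * n.factorial)
      (coeff n β) := by
    intro n
    induction n using Nat.strong_induction_on with
    | _ n ih =>
      obtain _ | n := n
      · rw [hβ0]
        exact Cls_one
      have e := hβ (n + 1)
      rw [coeff_mul, Finset.Nat.sum_antidiagonal_succ, map_sub, h0, coeff_zero_one, sub_self,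
        zero_mul, zero_add] at e
      rw [Nat.factorial_succ, mul_comm (n + 1), ← mul_assoc]
      refine Cls_div ?_
      rw [e]
      refine Cls_dvd (Cls_neg (Cls_sum _ _ _ fun p hp => ?_)) le_rfl (Cls_geom 3 k n) dvd_rfl
      have e1 := Finset.HasAntidiagonal.mem_antidiagonal.1 hp
      rw [map_sub, coeff_one, if_neg p.1.succ_ne_zero, sub_zero]
      refine Cls_dvd (Cls_mul (h (p.1 + 1)) (ih p.2 (by omega))) (le_of_eq (by rw [← e1]; ring))
        (Nat.mul_le_mul_right _ (Nat.mul_le_mul_right _ (by simp))) ?_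
      rw [← mul_assoc]
      exact Nat.mul_dvd_mul (Cls_fac (by omega)) (Nat.factorial_dvd_factorial (by omega))
  refine fun n => Cls_dvd (key n) (Nat.mul_le_mul_right n (by omega)) (le_of_eq (by ring))
    ((Nat.factorial_mul_factorial_dvd_factorial_add _ _).trans (Nat.factorial_dvd_factorial ?_))
  linarith only [hk, Nat.zero_le (k * n), Nat.mul_le_mul_right n hk]

end Pool.Agent.E21
end

-- merged part: Pool.Agent.Work.MP_e21d36_nt.ARep
section
/-!
# Lengths of integer polynomials and representations in an order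

Plan.  `l1`: it is convenient to show `l1 P = ∑ i ∈ s, (P.coeff i).natAbs` for any
`s ⊇ P.support`; `l1_mul` by writing both factors as sums of monomials (`l1_sum_le`,
`l1 (monomial i a * monomial j b) = |a| |b|`).
`Rep.mul`: `(∑ γ k w k)(∑ γ' l w l) = ∑_j (∑_{k,l} γ k γ' l μ k l j) w j`.
`Ord.rep_sz`: first for monomials, by induction on `Mon`:
`Rep (C (n+1)) (C^(n+1)) (δ^(n+1) x)` with `C = 2 c + m^2 c^2 + 1`; for `Mon.one n` use
induction on `n`; then sum over the list.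
-/

namespace Pool.Agent.E21

open Polynomial

theorem ARep_l1 (P : ℤ[X]) {s : Finset ℕ} (h : P.support ⊆ s) :
    l1 P = ∑ i ∈ s, (P.coeff i).natAbs :=
  Finset.sum_subset h fun i _ hi => by rw [notMem_support_iff.1 hi, Int.natAbs_zero]

theorem ARep_monomial (n : ℕ) (a : ℤ) : l1 (monomial n a) = a.natAbs := by
  rw [ARep_l1 _ (support_monomial_subset n a), Finset.sum_singleton, coeff_monomial, if_pos rfl]

theorem l1_zero : l1 0 = 0 := by
  simp [l1]

theorem l1_add (P Q : ℤ[X]) : l1 (P + Q) ≤ l1 P + l1 Q := by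
  rw [ARep_l1 _ support_add, ARep_l1 P (Finset.subset_union_left (s₂ := Q.support)),
    ARep_l1 Q (Finset.subset_union_right (s₁ := P.support)), ← Finset.sum_add_distrib]
  exact Finset.sum_le_sum fun i _ => by rw [coeff_add]; exact Int.natAbs_add_le _ _

theorem l1_neg (P : ℤ[X]) : l1 (-P) = l1 P := by
  simp [l1]

theorem l1_sum_le {ι : Type} (s : Finset ι) (f : ι → ℤ[X]) :
    l1 (∑ i ∈ s, f i) ≤ ∑ i ∈ s, l1 (f i) := by
  exact Finset.le_sum_of_subadditive l1 l1_zero.le l1_add s f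

theorem l1_mul (P Q : ℤ[X]) : l1 (P * Q) ≤ l1 P * l1 Q := by
  rw [mul_eq_sum_sum]
  refine (l1_sum_le _ _).trans ?_
  rw [l1, l1, Finset.sum_mul_sum]
  refine Finset.sum_le_sum fun i _ => (l1_sum_le _ _).trans (Finset.sum_le_sum fun j _ => ?_)
  rw [ARep_monomial, Int.natAbs_mul]

theorem l1_prod_le {ι : Type} (s : Finset ι) (f : ι → ℤ[X]) :
    l1 (∏ i ∈ s, f i) ≤ ∏ i ∈ s, l1 (f i) := by
  classical
  induction s using Finset.induction_on with
  | empty => exact (ARep_monomial 0 1).le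
  | insert i s hi ih =>
    rw [Finset.prod_insert hi, Finset.prod_insert hi]
    exact (l1_mul _ _).trans (Nat.mul_le_mul_left _ ih)

theorem l1_monomial (n : ℕ) (a : ℤ) : l1 (monomial n a) = a.natAbs := by
  exact ARep_monomial n a

theorem natAbs_coeff_le_l1 (P : ℤ[X]) (i : ℕ) : (P.coeff i).natAbs ≤ l1 P := by
  rw [ARep_l1 P (Finset.subset_insert i _)]
  exact Finset.single_le_sum (f := fun i => (P.coeff i).natAbs) (fun _ _ => Nat.zero_le _)
    (Finset.mem_insert_self _ _)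

theorem l1_le_of_coeff (P : ℤ[X]) {d B : ℕ} (hd : P.natDegree ≤ d)
    (hB : ∀ i, (P.coeff i).natAbs ≤ B) : l1 P ≤ (d + 1) * B := by
  rw [ARep_l1 P (supp_subset_range (Nat.lt_succ_of_le hd))]
  exact (Finset.sum_le_card_nsmul _ _ B fun i _ => hB i).trans (by simp)

theorem norm_aeval_le (θ0 : ℂ) (P : ℤ[X]) {d : ℕ} (hd : P.natDegree ≤ d) :
    ‖aeval θ0 P‖ ≤ (l1 P : ℝ) * (max 1 ‖θ0‖) ^ d := by
  rw [aeval_def, eval₂_eq_sum, sum_def, l1, Nat.cast_sum, Finset.sum_mul]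
  refine (norm_sum_le _ _).trans (Finset.sum_le_sum fun i hi => ?_)
  rw [norm_mul, norm_pow, eq_intCast, Complex.norm_intCast, Nat.cast_natAbs, Int.cast_abs]
  refine mul_le_mul_of_nonneg_left ((pow_le_pow_left₀ (norm_nonneg _) (le_max_right 1 _) i).trans
    (pow_le_pow_right₀ (le_max_left _ _) ((le_natDegree_of_mem_supp i hi).trans hd))) (abs_nonneg _)

variable {θ0 : ℂ} {m : ℕ} {w : Fin m → ℂ}

theorem Rep.mono {d d' H H' : ℕ} {x : ℂ} (h : Rep θ0 w d H x) (hd : d ≤ d') (hH : H ≤ H') :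
    Rep θ0 w d' H' x := by
  obtain ⟨γ, h1, h2⟩ := h
  exact ⟨γ, fun k => ⟨(h1 k).1.trans hd, (h1 k).2.trans hH⟩, h2⟩

theorem Rep.zero (d H : ℕ) : Rep θ0 w d H 0 := by
  exact ⟨0, fun k => by simp [l1_zero], by simp⟩

theorem Rep.neg {d H : ℕ} {x : ℂ} (h : Rep θ0 w d H x) : Rep θ0 w d H (-x) := by
  obtain ⟨γ, h1, rfl⟩ := h
  exact ⟨fun k => -γ k, fun k => by rw [natDegree_neg, l1_neg]; exact h1 k, by simp⟩

theorem Rep.add {d H H' : ℕ} {x y : ℂ} (hx : Rep θ0 w d H x) (hy : Rep θ0 w d H' y) :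
    Rep θ0 w d (H + H') (x + y) := by
  obtain ⟨γ, h1, rfl⟩ := hx
  obtain ⟨γ', h2, rfl⟩ := hy
  exact ⟨fun k => γ k + γ' k, fun k => ⟨natDegree_add_le_of_degree_le (h1 k).1 (h2 k).1,
    (l1_add _ _).trans (Nat.add_le_add (h1 k).2 (h2 k).2)⟩, by
      simp only [map_add, add_mul, Finset.sum_add_distrib]⟩

theorem Rep.sum_le {ι : Type} (s : Finset ι) {d H : ℕ} (f : ι → ℂ)
    (h : ∀ i ∈ s, Rep θ0 w d H (f i)) : Rep θ0 w d (s.card * H) (∑ i ∈ s, f i) := by
  classical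
  induction s using Finset.induction_on with
  | empty => simpa using Rep.zero d 0
  | insert i s hi ih =>
    rw [Finset.sum_insert hi, Finset.card_insert_of_notMem hi, add_one_mul, add_comm _ H]
    exact (h i (Finset.mem_insert_self _ _)).add (ih fun j hj => h j (Finset.mem_insert_of_mem hj))

theorem Rep.poly_mul {d H d' H' : ℕ} {x : ℂ} (h : Rep θ0 w d H x) (P : ℤ[X])
    (hd : P.natDegree ≤ d') (hH : l1 P ≤ H') :
    Rep θ0 w (d' + d) (H' * H) (aeval θ0 P * x) := by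
  obtain ⟨γ, h1, rfl⟩ := h
  exact ⟨fun k => P * γ k, fun k => ⟨natDegree_mul_le.trans (Nat.add_le_add hd (h1 k).1),
    (l1_mul _ _).trans (Nat.mul_le_mul hH (h1 k).2)⟩, by
      simp only [map_mul, mul_assoc, Finset.mul_sum]⟩

theorem Ord.rep_mul {G : Set ℂ} (O : Ord θ0 G) {d H d' H' : ℕ} {x y : ℂ}
    (hx : Rep θ0 O.w d H x) (hy : Rep θ0 O.w d' H' y) :
    Rep θ0 O.w (d + d' + O.c) (O.m ^ 2 * O.c * (H * H')) (x * y) := by
  obtain ⟨γ, h1, rfl⟩ := hx
  obtain ⟨γ', h2, rfl⟩ := hy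
  have h := Rep.sum_le Finset.univ _ fun k _ => Rep.sum_le Finset.univ _ fun l _ =>
    (O.mul k l).poly_mul (γ k * γ' l) (natDegree_mul_le.trans (Nat.add_le_add (h1 k).1 (h2 l).1))
      ((l1_mul _ _).trans (Nat.mul_le_mul (h1 k).2 (h2 l).2))
  rw [Finset.sum_mul_sum]
  simp only [map_mul, Finset.card_univ, Fintype.card_fin] at h
  simp only [mul_mul_mul_comm _ (O.w _)]
  exact h.mono le_rfl (le_of_eq (by ring))

theorem Ord.m_pos {G : Set ℂ} (O : Ord θ0 G) : 0 < O.m := by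
  obtain ⟨γ, -, h⟩ := O.one
  exact Nat.pos_of_ne_zero fun h0 =>
    O.hδ (h.trans (Finset.sum_eq_zero fun k _ => absurd k.2 (by omega)))

theorem Ord.rep_sz {G : Set ℂ} (O : Ord θ0 G) : ∃ C : ℕ, ∀ (n H : ℕ) (x : ℂ), Sz G n H x →
    Rep θ0 O.w (C * (n + 1)) (C ^ (n + 1) * H) (O.δ ^ (n + 1) * x) := by
  obtain ⟨C, h1, h2⟩ : ∃ C : ℕ, 2 * O.c ≤ C ∧ O.m ^ 2 * O.c * O.c ≤ C :=
    ⟨2 * O.c + O.m ^ 2 * O.c * O.c, Nat.le_add_right _ _, Nat.le_add_left _ _⟩
  have step : ∀ (n : ℕ) (z y : ℂ), Rep θ0 O.w O.c O.c z →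
      Rep θ0 O.w (C * (n + 1)) (C ^ (n + 1)) y →
      Rep θ0 O.w (C * (n + 1 + 1)) (C ^ (n + 1 + 1)) (z * y) := fun n z y hz hy => by
    refine (O.rep_mul hz hy).mono (by rw [mul_add_one C (n + 1)]; omega) ?_
    rw [← mul_assoc, pow_succ' C (n + 1)]
    exact Nat.mul_le_mul_right _ h2
  have mon : ∀ (n : ℕ) (x : ℂ), Mon G n x →
      Rep θ0 O.w (C * (n + 1)) (C ^ (n + 1)) (O.δ ^ (n + 1) * x) := fun n x hx => by
    induction hx with
    | one n =>
      rw [mul_one]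
      induction n with
      | zero =>
        rw [zero_add, pow_one, pow_one, mul_one]
        exact O.one.mono (by omega) (by omega)
      | succ n ih =>
        rw [pow_succ' O.δ]
        exact step n _ _ O.one ih
    | neg _ ih =>
      rw [mul_neg]
      exact ih.neg
    | mul hg _ ih =>
      rw [pow_succ' O.δ, mul_mul_mul_comm]
      exact step _ _ _ (O.gen _ hg) ih
  refine ⟨C, fun n H x hx => ?_⟩
  obtain ⟨L, l1, l2, l3⟩ := hx
  refine Rep.mono (H := C ^ (n + 1) * L.length) ?_ le_rfl (Nat.mul_le_mul_left _ l1)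
  subst l3
  clear l1
  induction L with
  | nil => simpa using Rep.zero _ 0
  | cons y L ih =>
    rw [List.sum_cons, List.length_cons, mul_add (O.δ ^ (n + 1)), mul_add_one (C ^ (n + 1)),
      add_comm (C ^ (n + 1) * _)]
    exact (mon n y (l2 y List.mem_cons_self)).add (ih fun z hz => l2 z (List.mem_cons_of_mem _ hz))

end Pool.Agent.E21
end

-- merged part: Pool.Agent.Work.MP_e21d36_nt.ASieg
section
/-!
# Siegel lemma over `ℤ[θ0]`

Plan.  Choose coordinates `γ e λ k ∈ ℤ[X]`.  Unknowns `t (λ, i)`, `i : Fin (d+1)`; equations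
indexed by `(e, k, n)`, `n : Fin (2d+1)`: the coefficient of `X^n` in `∑ λ, c λ * γ e λ k`
vanishes, where `c λ = ∑ i, monomial i (t (λ, i))`; the matrix entry is
`if i ≤ n then (γ e λ k).coeff (n - i) else 0`, of absolute value at most `H`.
`Int.Matrix.exists_ne_zero_int_vec_norm_le` (number of unknowns at least twice the number of
equations, so the exponent is at most 1; the matrix norm there is the sup norm, see the file
`Mathlib/NumberTheory/SiegelsLemma.lean`; compare `Work/MP_db07cb_ag/Siegel.lean` on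
origin/main).  `l1_le_of_coeff` for the length.
-/

namespace Pool.Agent.E21

open Polynomial

attribute [local instance] Matrix.seminormedAddCommGroup in
theorem ASieg_int {α β : Type} [Fintype α] [Fintype β] (A : Matrix α β ℤ) (H : ℕ)
    (hA : ∀ i j, (A i j).natAbs ≤ H) (h0 : 0 < Fintype.card α)
    (h2 : 2 * Fintype.card α ≤ Fintype.card β) :
    ∃ t : β → ℤ, t ≠ 0 ∧ A.mulVec t = 0 ∧ ∀ j, (t j).natAbs ≤ Fintype.card β * (H + 1) := by
  obtain ⟨t, t0, t1, t2⟩ := Int.Matrix.exists_ne_zero_int_vec_norm_le A (by omega) h0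
  refine ⟨t, t0, t1, fun j => ?_⟩
  have hn : ‖A‖ ≤ (H : ℝ) := (Matrix.norm_le_iff (Nat.cast_nonneg H)).2 fun i j => by
    rw [Int.norm_eq_abs, ← Int.cast_abs, ← Nat.cast_natAbs]
    exact_mod_cast hA i j
  have a0 : (0 : ℝ) < Fintype.card α := by exact_mod_cast h0
  have a2 : 2 * (Fintype.card α : ℝ) ≤ Fintype.card β := by exact_mod_cast h2
  have a1 : (1 : ℝ) ≤ Fintype.card β := by
    have : (1 : ℝ) ≤ Fintype.card α := by exact_mod_cast h0
    linarith only [a0, a2, this]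
  have a3 : (1 : ℝ) ≤ Fintype.card β * max 1 ‖A‖ := one_le_mul_of_one_le_of_one_le a1 (le_max_left _ _)
  have a4 := Real.rpow_le_rpow_of_exponent_le a3
    ((div_le_one (by linarith only [a0, a2])).2 (by linarith only [a2]) :
      (Fintype.card α : ℝ) / ((Fintype.card β : ℝ) - Fintype.card α) ≤ 1)
  rw [Real.rpow_one] at a4
  have a5 : max 1 ‖A‖ ≤ (H : ℝ) + 1 :=
    max_le (le_add_of_nonneg_left (Nat.cast_nonneg H)) (by linarith only [hn])
  have a6 := ((norm_le_pi_norm t j).trans (t2.trans a4)).trans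
    (mul_le_mul_of_nonneg_left a5 (Nat.cast_nonneg _))
  rw [Int.norm_eq_abs, ← Int.cast_abs, ← Nat.cast_natAbs] at a6
  exact_mod_cast a6

theorem siegel_rep {θ0 : ℂ} {m : ℕ} (hm : 0 < m) (w : Fin m → ℂ) {E Λ : Type} [Fintype E]
    [Fintype Λ] (hE : 0 < Fintype.card E) (hcard : 4 * m * Fintype.card E ≤ Fintype.card Λ)
    (d H : ℕ) (a : E → Λ → ℂ) (ha : ∀ e l, Rep θ0 w d H (a e l)) :
    ∃ c : Λ → ℤ[X], c ≠ 0 ∧ (∀ l, (c l).natDegree ≤ d ∧
      l1 (c l) ≤ (d + 1) ^ 2 * Fintype.card Λ * (H + 1)) ∧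
      ∀ e, ∑ l, aeval θ0 (c l) * a e l = 0 := by
  choose γ hγ hγe using ha
  obtain ⟨t, t0, t1, t2⟩ := ASieg_int (α := E × Fin m × Fin (2 * d + 1)) (β := Λ × Fin (d + 1))
    (Matrix.of fun x y => (monomial (y.2 : ℕ) (1 : ℤ) * γ x.1 y.1 x.2.1).coeff x.2.2) H
    (fun x y => by
      rw [Matrix.of_apply]
      refine (natAbs_coeff_le_l1 _ _).trans ((l1_mul _ _).trans ?_)
      rw [l1_monomial]
      simpa using (hγ x.1 y.1 x.2.1).2)
    (by simp only [Fintype.card_prod, Fintype.card_fin]; positivity)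
    (by
      simp only [Fintype.card_prod, Fintype.card_fin]
      calc 2 * (Fintype.card E * (m * (2 * d + 1))) ≤ 4 * m * Fintype.card E * (d + 1) := by
            linarith only [Nat.zero_le (m * Fintype.card E)]
        _ ≤ _ := Nat.mul_le_mul_right _ hcard)
  have hdeg : ∀ l, (∑ i : Fin (d + 1), monomial (i : ℕ) (t (l, i))).natDegree ≤ d := fun l =>
    natDegree_sum_le_of_forall_le _ _ fun i _ =>
      (natDegree_monomial_le _).trans (Nat.lt_succ_iff.1 i.2)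
  refine ⟨fun l => ∑ i : Fin (d + 1), monomial (i : ℕ) (t (l, i)), fun h => t0 ?_,
    fun l => ⟨hdeg l, ?_⟩, fun e => ?_⟩
  · funext ⟨l, i⟩
    have := congrArg (fun P : ℤ[X] => P.coeff i) (congrFun h l)
    simpa [finsetSum_coeff, coeff_monomial, Fin.val_inj] using this
  · refine (l1_sum_le _ _).trans ?_
    simp only [l1_monomial]
    refine (Finset.sum_le_card_nsmul _ _ _ fun i _ => t2 (l, i)).trans (le_of_eq ?_)
    simp only [Fintype.card_prod, Fintype.card_fin, Finset.card_univ, smul_eq_mul]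
    ring
  · have hz : ∀ k, ∑ l, (∑ i : Fin (d + 1), monomial (i : ℕ) (t (l, i))) * γ e l k = 0 := by
      intro k
      ext n
      rcases lt_or_ge n (2 * d + 1) with hn | hn
      · have := congrFun t1 (e, k, ⟨n, hn⟩)
        simp only [Matrix.mulVec, dotProduct, Matrix.of_apply, Fintype.sum_prod_type,
          Pi.zero_apply] at this
        rw [coeff_zero, ← this, finsetSum_coeff]
        refine Finset.sum_congr rfl fun l _ => ?_
        rw [Finset.sum_mul, finsetSum_coeff]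
        refine Finset.sum_congr rfl fun i _ => ?_
        rw [mul_comm _ (t (l, i)), ← coeff_C_mul, ← mul_assoc, C_mul_monomial, mul_one]
      · refine coeff_eq_zero_of_natDegree_lt (lt_of_le_of_lt (b := d + d)
          (natDegree_sum_le_of_forall_le _ _ fun l _ =>
            natDegree_mul_le.trans (add_le_add (hdeg l) (hγ e l k).1)) (by omega))
    simp only [hγe e, Finset.mul_sum, ← mul_assoc, ← map_mul]
    rw [Finset.sum_comm]
    refine Finset.sum_eq_zero fun k _ => ?_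
    rw [← Finset.sum_mul, ← map_sum, hz, map_zero, zero_mul]

end Pool.Agent.E21
end

-- merged part: Pool.Agent.Work.MP_e21d36_nt.ZAss
section
/-!
# Associated primes and saturation

Plan.  `AssP I p` is the Noetherian form of `IsAssociatedPrime p (A ⧸ I)` (see
`Mathlib/RingTheory/Ideal/AssociatedPrime/Basic.lean`, `isAssociatedPrime_iff`,
`associatedPrimes.finite`, `exists_le_isAssociatedPrime_of_isNoetherianRing`,
`biUnion_associatedPrimes_eq_zero_divisors`); `assP_exists` can also be proved directly with a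
maximal element of the family of ideals `(I : b a)`, `b a ∉ I`.
`nakayama_step` (no localisation needed): among the `a ∈ K`, `a ∉ sat t I`, choose one with
`sat t (sat t I ⊔ span {a})` maximal (Noetherian: `set_has_maximal_iff_noetherian`).  If
`s a = i + x a'` with `t s ≠ 0`, `i ∈ I`, then `x a' ∈ K`, so `a' ∈ K`, `a' ∉ sat t I`, the ideal
of `a` is contained in the ideal of `a'`, so they are equal: `s' a' = i' + c a` with
`i' ∈ sat t I`, and `(s s' - x c) a ∈ sat t I` with `t (s s' - x c) ≠ 0`: contradiction.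
`nzd_perm`: first part by `nakayama_step` with `K = (sat t I : z)`; second part: from
`s x a = i + z b` get `b ∈ sat t (I ⊔ span {x})`, `s' b = i' + x b'`,
`x (s s' a - z b') ∈ I`.
-/

namespace Pool.Agent.E21

variable {A : Type} [CommRing A] [Algebra ℂ A]

theorem le_sat (t : A →ₐ[ℂ] ℂ) (I : Ideal A) : I ≤ sat t I := by
  exact fun a ha => ⟨1, by simp, by rwa [one_mul]⟩

theorem sat_mono (t : A →ₐ[ℂ] ℂ) {I J : Ideal A} (h : I ≤ J) : sat t I ≤ sat t J := by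
  exact fun a ⟨s, hs, ha⟩ => ⟨s, hs, h ha⟩

theorem sat_sat (t : A →ₐ[ℂ] ℂ) (I : Ideal A) : sat t (sat t I) = sat t I := by
  refine le_antisymm ?_ (le_sat t _)
  rintro a ⟨s, hs, s', hs', ha⟩
  exact ⟨s' * s, by simp [hs, hs'], by rwa [mul_assoc]⟩

theorem sat_sat_sup (t : A →ₐ[ℂ] ℂ) (I J : Ideal A) : sat t (sat t I ⊔ J) = sat t (I ⊔ J) := by
  refine le_antisymm ?_ (sat_mono t (sup_le_sup_right (le_sat t I) J))
  rw [← sat_sat t (I ⊔ J)]
  exact sat_mono t (sup_le (sat_mono t le_sup_left) (le_sup_right.trans (le_sat t _)))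

theorem sat_vanish (t : A →ₐ[ℂ] ℂ) {I : Ideal A} (hI : ∀ a ∈ I, t a = 0) :
    ∀ a ∈ sat t I, t a = 0 := by
  rintro a ⟨s, hs, ha⟩
  have h := hI _ ha
  rw [map_mul] at h
  exact (mul_eq_zero.1 h).resolve_left hs

theorem nzd_sat (t : A →ₐ[ℂ] ℂ) {I : Ideal A} {x : A} (h : Nzd I x) : Nzd (sat t I) x := by
  rintro a ⟨s, hs, ha⟩
  exact ⟨s, hs, h _ (by rwa [mul_left_comm])⟩

theorem assP_le {I p : Ideal A} (h : AssP I p) : I ≤ p := by
  obtain ⟨-, a, ha⟩ := h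
  exact fun b hb => (ha b).2 (I.mul_mem_right a hb)

theorem assP_sat_vanish (t : A →ₐ[ℂ] ℂ) {I p : Ideal A} (h : AssP (sat t I) p) :
    ∀ a ∈ p, t a = 0 := by
  obtain ⟨hp, a, ha⟩ := h
  intro b hb
  by_contra h0
  have h1 : a ∈ sat t (sat t I) := ⟨b, h0, (ha b).1 hb⟩
  rw [sat_sat] at h1
  exact hp.ne_top ((Ideal.eq_top_iff_one p).2 ((ha 1).2 (by rwa [one_mul])))

theorem ZAss_colon (I : Ideal A) (a b : A) :
    b ∈ (⊥ : Submodule A (A ⧸ I)).colon {Ideal.Quotient.mk I a} ↔ b * a ∈ I := by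
  rw [Submodule.mem_colon_singleton, Submodule.mem_bot, ← Ideal.Quotient.eq_zero_iff_mem]
  exact Iff.rfl

theorem ZAss_sup {I : Ideal A} {x a : A} :
    a ∈ I ⊔ Ideal.span {x} ↔ ∃ i ∈ I, ∃ c, a = i + c * x := by
  rw [Submodule.mem_sup]
  constructor
  · rintro ⟨i, hi, z, hz, rfl⟩
    obtain ⟨c, rfl⟩ := Ideal.mem_span_singleton'.1 hz
    exact ⟨i, hi, c, rfl⟩
  · rintro ⟨i, hi, c, rfl⟩
    exact ⟨i, hi, _, Ideal.mem_span_singleton'.2 ⟨c, rfl⟩, rfl⟩

variable [IsNoetherianRing A]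

theorem ZAss_iff (I p : Ideal A) : AssP I p ↔ IsAssociatedPrime p (A ⧸ I) := by
  rw [isAssociatedPrime_iff]
  refine and_congr_right fun _ => ⟨?_, ?_⟩
  · rintro ⟨a, ha⟩
    exact ⟨Ideal.Quotient.mk I a, Ideal.ext fun b => (ha b).trans (ZAss_colon I a b).symm⟩
  · rintro ⟨x, rfl⟩
    obtain ⟨a, rfl⟩ := Ideal.Quotient.mk_surjective x
    exact ⟨a, ZAss_colon I a⟩

theorem assP_finite (I : Ideal A) : {p : Ideal A | AssP I p}.Finite := by
  exact (associatedPrimes.finite A (A ⧸ I)).subset fun p hp => (ZAss_iff I p).1 hp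

theorem assP_exists (I : Ideal A) {a : A} (ha : a ∉ I) :
    ∃ p, AssP I p ∧ ∀ b, b * a ∈ I → b ∈ p := by
  obtain ⟨p, h1, h2⟩ := exists_le_isAssociatedPrime_of_isNoetherianRing A (Ideal.Quotient.mk I a)
    fun h => ha (Ideal.Quotient.eq_zero_iff_mem.1 h)
  exact ⟨p, (ZAss_iff I p).2 h1, fun b hb => h2 ((ZAss_colon I a b).2 hb)⟩

theorem nzd_of_notMem (I : Ideal A) {x : A} (hx : ∀ p, AssP I p → x ∉ p) : Nzd I x := by
  intro a ha
  by_contra h
  obtain ⟨p, h1, h2⟩ := assP_exists I h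
  exact hx p h1 (h2 x ha)

theorem nakayama_step (t : A →ₐ[ℂ] ℂ) (I K : Ideal A) {x : A} (hx : t x = 0)
    (hIK : sat t I ≤ K) (hK : ∀ a, x * a ∈ K → a ∈ K)
    (hne : ∃ a ∈ K, a ∉ sat t I) : ∃ a ∈ K, a ∉ sat t (I ⊔ Ideal.span {x}) := by
  by_contra h
  push Not at h
  obtain ⟨a0, k0, n0⟩ := hne
  obtain ⟨_, ⟨a, ha, hn, rfl⟩, hmax⟩ := set_has_maximal_iff_noetherian.2
    (inferInstance : IsNoetherian A A)
    {J | ∃ a ∈ K, a ∉ sat t I ∧ J = sat t (I ⊔ Ideal.span {a})} ⟨_, a0, k0, n0, rfl⟩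
  obtain ⟨s, hs, h1⟩ := h a ha
  obtain ⟨i, hi, b, e1⟩ := ZAss_sup.1 h1
  have hb : b ∈ K := hK b (by
    rw [show x * b = s * a - i by rw [e1]; ring]
    exact K.sub_mem (K.mul_mem_left s ha) (hIK (le_sat t I hi)))
  have hb' : b ∉ sat t I := fun h2 => hn (by
    rw [← sat_sat]
    exact ⟨s, hs, e1 ▸ (sat t I).add_mem (le_sat t I hi) ((sat t I).mul_mem_right x h2)⟩)
  have hle : sat t (I ⊔ Ideal.span {a}) ≤ sat t (I ⊔ Ideal.span {b}) := by
    rw [← sat_sat t (I ⊔ Ideal.span {b})]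
    refine sat_mono t (sup_le (le_sup_left.trans (le_sat t _)) ?_)
    rw [Ideal.span_singleton_le_iff_mem]
    exact ⟨s, hs, ZAss_sup.2 ⟨i, hi, x, by rw [e1, mul_comm]⟩⟩
  have heq := eq_of_le_of_not_lt hle (hmax _ ⟨b, hb, hb', rfl⟩)
  have h2 : b ∈ sat t (I ⊔ Ideal.span {a}) :=
    heq ▸ le_sat t _ (ZAss_sup.2 ⟨0, I.zero_mem, 1, by ring⟩)
  obtain ⟨s', hs', h3⟩ := h2
  obtain ⟨i', hi', c, e2⟩ := ZAss_sup.1 h3
  refine hn ⟨s * s' - x * c, by simp [hx, hs, hs'], ?_⟩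
  rw [show (s * s' - x * c) * a = s' * i + x * i' by linear_combination s' * e1 + x * e2]
  exact I.add_mem (I.mul_mem_left _ hi) (I.mul_mem_left _ hi')

theorem nzd_perm (t : A →ₐ[ℂ] ℂ) (I : Ideal A) {x z : A} (hx : t x = 0)
    (h1 : Nzd (sat t I) x) (h2 : Nzd (sat t (I ⊔ Ideal.span {x})) z) :
    Nzd (sat t I) z ∧ Nzd (sat t (I ⊔ Ideal.span {z})) x := by
  constructor
  · intro a ha
    by_contra h
    have hm : ∀ b, b ∈ (sat t I).colon {z} ↔ z * b ∈ sat t I := fun b => by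
      rw [Submodule.mem_colon_singleton, smul_eq_mul, mul_comm]
    obtain ⟨b, h3, h4⟩ := nakayama_step t I ((sat t I).colon {z}) hx
      (fun b hb => (hm b).2 ((sat t I).mul_mem_left z hb))
      (fun b hb => (hm b).2 (h1 _ (by rw [mul_left_comm]; exact (hm _).1 hb)))
      ⟨a, (hm a).2 ha, h⟩
    exact h4 (h2 b (sat_mono t le_sup_left ((hm b).1 h3)))
  · rintro a ⟨s, hs, ha⟩
    obtain ⟨i, hi, b, e1⟩ := ZAss_sup.1 ha
    obtain ⟨s', hs', hb⟩ := h2 b (le_sat t _ (ZAss_sup.2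
      ⟨-i, I.neg_mem hi, s * a, by linear_combination -e1⟩))
    obtain ⟨i', hi', b', e2⟩ := ZAss_sup.1 hb
    obtain ⟨u, hu, h3⟩ := h1 (s * s' * a - z * b') (le_sat t I (by
      rw [show x * (s * s' * a - z * b') = s' * i + z * i' by linear_combination s' * e1 + z * e2]
      exact I.add_mem (I.mul_mem_left _ hi) (I.mul_mem_left _ hi')))
    exact ⟨u * (s * s'), by simp [hu, hs, hs'], ZAss_sup.2 ⟨_, h3, u * b', by ring⟩⟩

end Pool.Agent.E21
end

-- merged part: Pool.Agent.Work.MP_e21d36_nt.ZDep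
section
/-!
# Depth: exchange lemma and depth at most the dimension of an associated prime

Plan.  `exists_common_nzd`: if the kernel `𝔪` of `t` has a non zero divisor modulo `sat t J1`
and modulo `sat t J2`, then no associated prime of these ideals contains `𝔪`, so by prime
avoidance (`Ideal.subset_union_prime_finite` or `Ideal.subset_union_prime`) some `z ∈ 𝔪` avoids
all of them (`assP_finite`, `nzd_of_notMem`).
`exists_nzd_swap`: otherwise every element of `𝔪` lies in an associated prime of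
`sat t (I ⊔ span {y})`, so `𝔪` lies in one of them: `𝔪 u ⊆ sat t (I ⊔ span {y})` with `u`
outside.  Write `s x u = i + y v`.  For the given `w`: `s' w u = i' + y c`, so
`y (s' w v - s x c) ∈ I`, hence `w v ∈ sat t (I ⊔ span {x})`, so `v` is in it:
`s'' v = i'' + x e`, `x (s s'' u - y e) ∈ I`, so `u ∈ sat t (I ⊔ span {y})`: contradiction.
`dep_exchange`: induction on `n` for all `I`, `y`.  For `n+1`: take `x` from the hypothesis, `z`
common non zero divisor modulo `I + x` and `I + y`; induction gives `Dep n (I + x + z)`,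
`nzd_perm` gives `Dep (n+1) (I + z)` (through `x`) and that `y` is a non zero divisor modulo
`I + z`; induction gives `Dep n (I + z + y)`; conclude through `z` (`sup_right_comm`).
`ch_of_dep`: induction on `n` for all `I`, `p`.  `n = 0`: `assP_sat_vanish`.  Step: `x ∉ p`
(else `a ∈ sat t I`, `p = ⊤`), `K = (sat t I : p)` contains `a`; `nakayama_step` gives `z ∈ K`
outside `sat t (I ⊔ span {x})`; `assP_exists` gives `q` containing `p` and `x`.
-/

namespace Pool.Agent.E21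

variable {A : Type} [CommRing A] [Algebra ℂ A] [IsNoetherianRing A]

omit [Algebra ℂ A] [IsNoetherianRing A] in
theorem ZDep_out {J p : Ideal A} {a : A} (hp : p.IsPrime) (h : ∀ b, b ∈ p ↔ b * a ∈ J) : a ∉ J :=
  fun ha => hp.ne_top ((Ideal.eq_top_iff_one p).2 ((h 1).2 (by rwa [one_mul])))

omit [Algebra ℂ A] [IsNoetherianRing A] in
theorem ZDep_notMem {J p : Ideal A} {x : A} (hp : AssP J p) (hx : Nzd J x) : x ∉ p := by
  obtain ⟨h1, a, h2⟩ := hp
  exact fun h => ZDep_out h1 h2 (hx a ((h2 x).1 h))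

omit [IsNoetherianRing A] in
theorem ZDep_avoid (t : A →ₐ[ℂ] ℂ) {S : Set (Ideal A)} (hS : S.Finite) (hp : ∀ p ∈ S, p.IsPrime)
    (h : ∀ p ∈ S, ∃ w, t w = 0 ∧ w ∉ p) : ∃ z, t z = 0 ∧ ∀ p ∈ S, z ∉ p := by
  by_contra hn
  obtain ⟨p, h1, h2⟩ := (Ideal.subset_union_prime (s := hS.toFinset) (f := id) ⊤ ⊤
    (fun p h1 _ _ => hp p (hS.mem_toFinset.1 h1)) (I := RingHom.ker t)).1 fun z hz => by
      by_contra h1
      refine hn ⟨z, hz, fun p h2 h3 => h1 ?_⟩
      exact Set.mem_biUnion (Finset.mem_coe.2 (hS.mem_toFinset.2 h2)) h3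
  obtain ⟨w, h3, h4⟩ := h p (hS.mem_toFinset.1 h1)
  exact h4 (h2 h3)

omit [IsNoetherianRing A] in
theorem ZDep_mem (t : A →ₐ[ℂ] ℂ) (I : Ideal A) (y a : A) :
    a ∈ sat t (I ⊔ Ideal.span {y}) ↔ ∃ s v, t s ≠ 0 ∧ s * a - v * y ∈ I := by
  constructor
  · rintro ⟨s, hs, h⟩
    obtain ⟨i, hi, c, hc, e⟩ := Submodule.mem_sup.1 h
    obtain ⟨v, rfl⟩ := Ideal.mem_span_singleton'.1 hc
    exact ⟨s, v, hs, by rw [← e, add_sub_cancel_right]; exact hi⟩
  · rintro ⟨s, v, hs, h⟩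
    exact ⟨s, hs, Submodule.mem_sup.2 ⟨_, h, v * y, Ideal.mem_span_singleton'.2 ⟨v, rfl⟩,
      sub_add_cancel _ _⟩⟩

theorem exists_common_nzd (t : A →ₐ[ℂ] ℂ) (J1 J2 : Ideal A)
    (h1 : ∃ w, t w = 0 ∧ Nzd (sat t J1) w) (h2 : ∃ w, t w = 0 ∧ Nzd (sat t J2) w) :
    ∃ z, t z = 0 ∧ Nzd (sat t J1) z ∧ Nzd (sat t J2) z := by
  obtain ⟨z, h3, h4⟩ := ZDep_avoid t ((assP_finite (sat t J1)).union (assP_finite (sat t J2)))
    (fun p hp => hp.elim (fun h => h.1) fun h => h.1) fun p hp => hp.elim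
      (fun h => h1.imp fun w hw => ⟨hw.1, ZDep_notMem h hw.2⟩)
      fun h => h2.imp fun w hw => ⟨hw.1, ZDep_notMem h hw.2⟩
  exact ⟨z, h3, nzd_of_notMem _ fun p hp => h4 p (Or.inl hp),
    nzd_of_notMem _ fun p hp => h4 p (Or.inr hp)⟩

theorem exists_nzd_swap (t : A →ₐ[ℂ] ℂ) (I : Ideal A) {x y : A} (hx : t x = 0)
    (h1 : Nzd (sat t I) x) (h2 : Nzd (sat t I) y)
    (hw : ∃ w, t w = 0 ∧ Nzd (sat t (I ⊔ Ideal.span {x})) w) :
    ∃ w, t w = 0 ∧ Nzd (sat t (I ⊔ Ideal.span {y})) w := by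
  obtain ⟨w, w0, hw⟩ := hw
  obtain ⟨z, h3, h4⟩ := ZDep_avoid t (assP_finite (sat t (I ⊔ Ideal.span {y})))
    (fun p hp => hp.1) fun p hp => by
      obtain ⟨p1, u, p2⟩ := hp
      by_contra hn
      have k : ∀ b, t b = 0 → b * u ∈ sat t (I ⊔ Ideal.span {y}) := fun b hb => (p2 b).1 (by
        by_contra h
        exact hn ⟨b, hb, h⟩)
      obtain ⟨s, v, s0, e1⟩ := (ZDep_mem t I y _).1 (k x hx)
      obtain ⟨s', c, s1, e2⟩ := (ZDep_mem t I y _).1 (k w w0)
      have e3 : y * (s' * w * v - s * x * c) ∈ I := by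
        have := I.sub_mem (I.mul_mem_left (s * x) e2) (I.mul_mem_left (s' * w) e1)
        rwa [show s * x * (s' * (w * u) - c * y) - s' * w * (s * (x * u) - v * y) =
          y * (s' * w * v - s * x * c) by ring] at this
      obtain ⟨r, r0, e4⟩ := h2 _ (le_sat t I e3)
      have e5 : w * v ∈ sat t (I ⊔ Ideal.span {x}) :=
        (ZDep_mem t I x _).2 ⟨r * s', r * s * c, by rw [map_mul]; exact mul_ne_zero r0 s1, by
          rwa [show r * s' * (w * v) - r * s * c * x = r * (s' * w * v - s * x * c) by ring]⟩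
      obtain ⟨s'', e, s2, e6⟩ := (ZDep_mem t I x _).1 (hw v e5)
      have e7 : x * (s * s'' * u - y * e) ∈ I := by
        have := I.add_mem (I.mul_mem_left s'' e1) (I.mul_mem_left y e6)
        rwa [show s'' * (s * (x * u) - v * y) + y * (s'' * v - e * x) =
          x * (s * s'' * u - y * e) by ring] at this
      obtain ⟨r', r1, e8⟩ := h1 _ (le_sat t I e7)
      refine ZDep_out p1 p2 ((ZDep_mem t I y _).2 ⟨r' * (s * s''), r' * e, ?_, ?_⟩)
      · rw [map_mul, map_mul]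
        exact mul_ne_zero r1 (mul_ne_zero s0 s2)
      · rwa [show r' * (s * s'') * u - r' * e * y = r' * (s * s'' * u - y * e) by ring]
  exact ⟨z, h3, nzd_of_notMem _ h4⟩

theorem dep_exchange (t : A →ₐ[ℂ] ℂ) (n : ℕ) (I : Ideal A) (hI : Dep t (n + 1) I) {y : A}
    (hy : t y = 0) (hn : Nzd (sat t I) y) : Dep t n (I ⊔ Ideal.span {y}) := by
  induction n generalizing I y with
  | zero => trivial
  | succ n ih =>
    obtain ⟨x, hx, h1, h2⟩ := hI
    have h3 : ∃ w, t w = 0 ∧ Nzd (sat t (I ⊔ Ideal.span {x})) w :=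
      h2.imp fun w hw => ⟨hw.1, hw.2.1⟩
    obtain ⟨z, hz, z1, z2⟩ := exists_common_nzd t _ _ h3 (exists_nzd_swap t I hx h1 hn h3)
    have h4 := ih _ h2 hz z1
    rw [sup_right_comm] at h4
    have h5 := ih (I ⊔ Ideal.span {z}) ⟨x, hx, (nzd_perm t I hx h1 z1).2, h4⟩ hy
      (nzd_perm t I hy hn z2).2
    rw [sup_right_comm] at h5
    exact ⟨z, hz, z2, h5⟩

theorem ch_of_dep (t : A →ₐ[ℂ] ℂ) (n : ℕ) (I p : Ideal A) (hI : Dep t n I)
    (hp : AssP (sat t I) p) : Ch t n p := by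
  induction n generalizing I p with
  | zero => exact assP_sat_vanish t hp
  | succ n ih =>
    obtain ⟨x, hx, h1, h2⟩ := hI
    have xp := ZDep_notMem hp h1
    obtain ⟨p1, a, p2⟩ := hp
    let K : Ideal A :=
      { carrier := {z | ∀ b ∈ p, b * z ∈ sat t I}
        zero_mem' := fun b _ => by rw [mul_zero]; exact Ideal.zero_mem _
        add_mem' := fun h h' b hb => by rw [mul_add]; exact Ideal.add_mem _ (h b hb) (h' b hb)
        smul_mem' := fun c z h b hb => by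
          rw [smul_eq_mul, mul_left_comm]
          exact Ideal.mul_mem_left _ c (h b hb) }
    obtain ⟨z, z1, z2⟩ := nakayama_step t I K hx (fun z hz b _ => Ideal.mul_mem_left _ b hz)
      (fun z hz b hb => h1 _ (by rw [mul_left_comm]; exact hz b hb))
      ⟨a, fun b hb => (p2 b).1 hb, ZDep_out p1 p2⟩
    obtain ⟨q, q1, q2⟩ := assP_exists _ z2
    have pq : p ≤ q := fun b hb => q2 b (sat_mono t le_sup_left (z1 b hb))
    have xq : x ∈ q := q2 x (le_sat t _ (Ideal.mem_sup_right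
      (Ideal.mul_mem_right z _ (Ideal.mem_span_singleton_self x))))
    exact ⟨q, q1.1, lt_of_le_of_ne pq fun e => xp (e ▸ xq), ih _ q h2 q1⟩

end Pool.Agent.E21
end

-- merged part: Pool.Agent.Work.MP_e21d36_nt.ANorm
section
/-!
# Norm of a nonzero element of an order

Plan.  `y * w k = ∑ j, M k j (θ0) * w j` with `M k j = ∑ l, γ l * μ l k j ∈ ℤ[X]` of degree at
most `d + c` and length at most `m H c`.  `P = det M`.  `P ≠ 0`: otherwise
`Matrix.exists_vecMul_eq_zero_iff` gives `v ≠ 0` with `v ᵥ* M = 0`, so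
`y * ∑ v k (θ0) w k = 0`, against `indep`.  Degree and length from `Matrix.det_apply`
(`l1_sum_le`, `l1_prod_le`).  Smallness: with `M' = M.map (aeval θ0)`, `M' *ᵥ w = y • w`, so
`det M' • w = y • (adjugate M' *ᵥ w)`; some `w k0 ≠ 0` (all are, by `indep`); bound the entries
of the adjugate by `Matrix.det_le` (`adjugate_apply`: a determinant with entries bounded by
`max 1 (entry bound)`) and `norm_aeval_le`.
-/

namespace Pool.Agent.E21

open Polynomial

theorem ANorm_det {m D B : ℕ} (M : Matrix (Fin m) (Fin m) ℤ[X])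
    (h : ∀ k j, (M k j).natDegree ≤ D ∧ l1 (M k j) ≤ B) :
    M.det.natDegree ≤ m * D ∧ l1 M.det ≤ (m * B) ^ m := by
  have h1 : ∀ σ : Equiv.Perm (Fin m),
      (Equiv.Perm.sign σ • ∏ i, M (σ i) i).natDegree ≤ m * D ∧
        l1 (Equiv.Perm.sign σ • ∏ i, M (σ i) i) ≤ B ^ m := by
    intro σ
    have a : (∏ i, M (σ i) i).natDegree ≤ m * D :=
      (natDegree_prod_le _ _).trans ((Finset.sum_le_card_nsmul _ _ D fun i _ => (h _ _).1).trans
        (by simp))
    have b : l1 (∏ i, M (σ i) i) ≤ B ^ m :=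
      (l1_prod_le _ _).trans ((Finset.prod_le_pow_card _ _ B fun i _ => (h _ _).2).trans (by simp))
    rcases Int.units_eq_one_or (Equiv.Perm.sign σ) with e | e <;> rw [e]
    · rw [one_smul]
      exact ⟨a, b⟩
    · rw [Units.neg_smul, one_smul, natDegree_neg, l1_neg]
      exact ⟨a, b⟩
  rw [Matrix.det_apply]
  refine ⟨natDegree_sum_le_of_forall_le _ _ fun σ _ => (h1 σ).1, (l1_sum_le _ _).trans
    ((Finset.sum_le_card_nsmul _ _ (B ^ m) fun σ _ => (h1 σ).2).trans ?_)⟩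
  rw [Finset.card_univ, Fintype.card_perm, Fintype.card_fin, smul_eq_mul, mul_pow]
  exact Nat.mul_le_mul_right _ (Nat.factorial_le_pow m)

theorem ANorm_small {m : ℕ} (A : Matrix (Fin m) (Fin m) ℂ) (w : Fin m → ℂ) (y : ℂ) (x : ℝ)
    (hw : w ≠ 0) (hA : A.mulVec w = y • w) (hx : 1 ≤ x) (h : ∀ k j, ‖A k j‖ ≤ x) :
    ‖A.det‖ ≤ ‖y‖ * (m * x) ^ m := by
  obtain ⟨k1, hk1⟩ := Function.ne_iff.1 hw
  haveI : Nonempty (Fin m) := ⟨k1⟩
  obtain ⟨k0, hk0⟩ := Finite.exists_max fun k => ‖w k‖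
  have h0 : 0 < ‖w k0‖ := (norm_pos_iff.2 hk1).trans_le (hk0 k1)
  have h1 : w k0 ≠ 0 := norm_pos_iff.1 h0
  have h2 : A.det • w = y • A.cramer w := by
    rw [← map_smul, ← hA, Matrix.cramer_eq_adjugate_mulVec, Matrix.mulVec_mulVec,
      Matrix.adjugate_mul, Matrix.smul_mulVec, Matrix.one_mulVec]
  have h3 : A.det = y * A.cramer ((w k0)⁻¹ • w) k0 := by
    have := congrFun h2 k0
    simp only [Pi.smul_apply, smul_eq_mul] at this
    rw [map_smul, Pi.smul_apply, smul_eq_mul]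
    field_simp
    exact this
  have h4 : ‖(A.updateCol k0 ((w k0)⁻¹ • w)).det‖ ≤
      (Fintype.card (Fin m)).factorial • x ^ Fintype.card (Fin m) := by
    refine Matrix.det_le (abv := IsAbsoluteValue.toAbsoluteValue (norm : ℂ → ℝ)) fun i j => ?_
    change ‖(_ : ℂ)‖ ≤ x
    rw [Matrix.updateCol_apply]
    split_ifs
    · rw [Pi.smul_apply, smul_eq_mul, norm_mul, norm_inv, inv_mul_le_iff₀ h0]
      exact (hk0 i).trans (le_mul_of_one_le_right h0.le hx)
    · exact h i j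
  rw [h3, norm_mul, Matrix.cramer_apply]
  refine mul_le_mul_of_nonneg_left (h4.trans ?_) (norm_nonneg _)
  rw [Fintype.card_fin, nsmul_eq_mul, mul_pow]
  refine mul_le_mul_of_nonneg_right ?_ (by positivity)
  exact_mod_cast Nat.factorial_le_pow m

theorem Ord.norm {θ0 : ℂ} {G : Set ℂ} (O : Ord θ0 G) : ∃ C : ℕ, ∀ (d H : ℕ) (y : ℂ),
    Rep θ0 O.w d H y → y ≠ 0 → ∃ P : ℤ[X], P ≠ 0 ∧ P.natDegree ≤ C * (d + 1) ∧
      l1 P ≤ (C * (H + 1)) ^ C ∧
      ‖aeval θ0 P‖ ≤ ‖y‖ * ((C : ℝ) * (H + 1)) ^ C * (C : ℝ) ^ (d + 1) := by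
  obtain ⟨T, hT⟩ : ∃ T : ℝ, T = max 1 ‖θ0‖ := ⟨_, rfl⟩
  have T1 : 1 ≤ T := hT ▸ le_max_left _ _
  obtain ⟨N, hN⟩ := exists_nat_ge (T ^ (O.m * (O.c + 1)))
  obtain ⟨C, hC⟩ : ∃ C : ℕ, C = O.m * (O.m * O.c + 1) + O.m * (O.c + 1) + N + 1 := ⟨_, rfl⟩
  have C1 : O.m * (O.m * O.c + 1) ≤ C := by omega
  have C2 : O.m * (O.c + 1) ≤ C := by omega
  have C3 : N ≤ C := by omega
  have C4 : 1 ≤ C := by omega
  have C5 : O.m ≤ C := (Nat.le_mul_of_pos_right _ O.c.succ_pos).trans C2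
  refine ⟨C, fun d H y hy y0 => ?_⟩
  obtain ⟨γ, hγ, ey⟩ := hy
  have h1 : ∀ k, Rep θ0 O.w (d + O.c) (O.m * (H * O.c)) (y * O.w k) := by
    intro k
    have := Rep.sum_le Finset.univ (fun l => aeval θ0 (γ l) * (O.w l * O.w k))
      fun l _ => (O.mul l k).poly_mul (γ l) (hγ l).1 (hγ l).2
    rw [Finset.card_univ, Fintype.card_fin] at this
    convert this using 1
    rw [ey, Finset.sum_mul]
    exact Finset.sum_congr rfl fun l _ => mul_assoc _ _ _
  choose M hM eM using h1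
  have hdet := ANorm_det (Matrix.of M) hM
  have e1 : O.m * (d + O.c) ≤ O.m * (O.c + 1) * (d + 1) := by
    rw [mul_assoc]
    exact Nat.mul_le_mul_left _ (by linarith only [Nat.zero_le (O.c * d)])
  have e2 : O.m * ((O.m * O.c + 1) * (H + 1)) ≤ C * (H + 1) := by
    rw [← mul_assoc]
    exact Nat.mul_le_mul_right _ C1
  have e3 : O.m * (H * O.c) ≤ (O.m * O.c + 1) * (H + 1) := by
    linarith only [Nat.zero_le (O.m * O.c)]
  have e4 : (O.m * ((O.m * O.c + 1) * (H + 1))) ^ O.m ≤ (C * (H + 1)) ^ C :=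
    (Nat.pow_le_pow_left e2 _).trans (Nat.pow_le_pow_right (Nat.mul_pos C4 H.succ_pos) C5)
  refine ⟨(Matrix.of M).det, fun h0 => ?_, hdet.1.trans (e1.trans (Nat.mul_le_mul_right _ C2)),
    hdet.2.trans ((Nat.pow_le_pow_left (Nat.mul_le_mul_left _ e3) _).trans e4), ?_⟩
  · obtain ⟨v, v0, hv⟩ := Matrix.exists_vecMul_eq_zero_iff.2 h0
    refine v0 (O.indep v ((mul_eq_zero.1 ?_).resolve_left y0))
    have h2 : ∀ j, ∑ k, aeval θ0 (v k) * aeval θ0 (M k j) = 0 := by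
      intro j
      have := congrArg (aeval θ0) (congrFun hv j)
      simpa [Matrix.vecMul, dotProduct] using this
    calc y * ∑ k, aeval θ0 (v k) * O.w k
        = ∑ k, ∑ j, aeval θ0 (v k) * aeval θ0 (M k j) * O.w j := by
          rw [Finset.mul_sum]
          refine Finset.sum_congr rfl fun k _ => ?_
          rw [mul_left_comm, eM k, Finset.mul_sum]
          exact Finset.sum_congr rfl fun j _ => (mul_assoc _ _ _).symm
      _ = 0 := by
          rw [Finset.sum_comm]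
          refine Finset.sum_eq_zero fun j _ => ?_
          rw [← Finset.sum_mul, h2, zero_mul]
  · have w0 : O.w ≠ 0 := fun h0 => y0 (by simp [ey, h0])
    have x1 : (1 : ℝ) ≤ (((O.m * O.c + 1) * (H + 1) : ℕ) : ℝ) := by
      exact_mod_cast Nat.mul_pos (Nat.succ_pos _) (Nat.succ_pos _)
    have h3 := ANorm_small ((aeval θ0 : ℤ[X] →ₐ[ℤ] ℂ).mapMatrix (Matrix.of M)) O.w y
      ((((O.m * O.c + 1) * (H + 1) : ℕ) : ℝ) * T ^ (d + O.c)) w0
      (funext fun k => (eM k).symm)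
      (one_le_mul_of_one_le_of_one_le x1 (one_le_pow₀ T1)) fun k j => by
        refine (norm_aeval_le θ0 (M k j) (hM k j).1).trans ?_
        rw [← hT]
        refine mul_le_mul_of_nonneg_right ?_ (by positivity)
        exact_mod_cast (hM k j).2.trans e3
    rw [← AlgHom.map_det] at h3
    refine h3.trans ?_
    rw [mul_assoc ‖y‖, ← mul_assoc (O.m : ℝ), mul_pow]
    refine mul_le_mul_of_nonneg_left (mul_le_mul ?_ ?_ (by positivity) (by positivity))
      (norm_nonneg _)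
    · exact_mod_cast e4
    · rw [← pow_mul, mul_comm]
      refine (pow_le_pow_right₀ T1 e1).trans ?_
      rw [pow_mul]
      refine pow_le_pow_left₀ (by positivity) (hN.trans ?_) _
      exact_mod_cast C3

end Pool.Agent.E21
end

-- merged part: Pool.Agent.Work.MP_e21d36_nt.AOrd
section
/-!
# Existence of an order

Plan.  Make `ℂ` an algebra over `R = ℤ[X]` through `aeval θ0` (injective since `θ0` is
transcendental; `letI := (aeval θ0).toRingHom.toAlgebra`), or work with the subring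
`R = Algebra.adjoin ℤ {θ0}` and pull elements back to polynomials at the end.
1. Every `g ∈ G` is algebraic over `R`: `ℚ⟮θ0⟯` is algebraic over `R` (its elements are
   quotients `p(θ0)/q(θ0)` of rational polynomials, `IntermediateField.mem_adjoin_simple_iff`,
   clear denominators), then transitivity.
2. `IsAlgebraic.exists_integral_multiples` (or `exists_integral_multiples`) gives `δ0 ∈ R`,
   `δ0 ≠ 0`, with all `δ0 g` integral; `𝒪 = Algebra.adjoin R (δ0 G)` is a finite `R`-module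
   (`fg_adjoin_of_finite`), spanned by a finite family `v`.
3. Take a maximal `R`-independent subfamily `u` (`exists_maximal_linearIndepOn`): each `v i`
   has a nonzero multiple in the span of `u`, so one `δ1 ≠ 0` in `R` sends `𝒪` into the span.
   Put `w = δ1 u`, `δ = δ1^2 δ0`: `w k w l = δ1 (δ1 u k u l)`, `δ = δ1 (δ1 δ0)`,
   `δ g = δ1 (δ1 (δ0 g))` all lie in the span of `w`.
4. `c` is a bound for the degrees and lengths of the finitely many coefficient polynomials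
   (prove first: for a finite family of numbers in the span there is a common `c`, `Rep.mono`).
-/

namespace Pool.Agent.E21

open Submodule Filter Polynomial

theorem AOrd_den {R : Type} [CommRing R] [IsDomain R] [Algebra R ℂ] (S : Submodule R ℂ)
    {s : Set ℂ} (hs : s.Finite) (h : ∀ x ∈ s, ∃ a : R, a ≠ 0 ∧ a • x ∈ S) :
    ∃ a : R, a ≠ 0 ∧ ∀ x ∈ s, a • x ∈ S := by
  induction s, hs using Set.Finite.induction_on with
  | empty => exact ⟨1, one_ne_zero, fun _ k => k.elim⟩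
  | @insert y s _ _ ih =>
    obtain ⟨a, a0, ha⟩ := ih fun x k => h x (Set.mem_insert_of_mem _ k)
    obtain ⟨b, b0, hb⟩ := h y (Set.mem_insert _ _)
    refine ⟨a * b, mul_ne_zero a0 b0, ?_⟩
    rintro x (rfl | k)
    · rw [mul_smul]
      exact S.smul_mem _ hb
    · rw [mul_comm, mul_smul]
      exact S.smul_mem _ (ha x k)

theorem AOrd_alg {R : Type} [CommRing R] [IsDomain R] [Algebra R ℂ] {θ0 g : ℂ}
    (hθ : IsAlgebraic R θ0)
    (hg : IsAlgebraic (IntermediateField.adjoin ℚ ({θ0} : Set ℂ)) g) : IsAlgebraic R g := by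
  have h1 : ∀ x ∈ IntermediateField.adjoin ℚ ({θ0} : Set ℂ), IsAlgebraic R x := fun x hx => by
    induction hx using IntermediateField.adjoin_induction with
    | mem x hx => exact hx ▸ hθ
    | algebraMap q =>
      rw [eq_ratCast, Rat.cast_def, div_eq_mul_inv]
      exact (isAlgebraic_intCast _).mul (isAlgebraic_natCast _).inv
    | add x y _ _ k1 k2 => exact k1.add k2
    | inv x _ k => exact k.inv
    | mul x y _ _ k1 k2 => exact k1.mul k2
  have h2 : IsAlgebraic (Subalgebra.algebraicClosure R ℂ) ((RingHom.id ℂ) g) :=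
    hg.ringHom_of_comp_eq ((algebraMap (IntermediateField.adjoin ℚ ({θ0} : Set ℂ)) ℂ).codRestrict
      (Subalgebra.algebraicClosure R ℂ) fun x => h1 x x.2) (RingHom.id ℂ) (RingHom.injective _) rfl
  exact h2.restrictScalars R

theorem AOrd_abs {R : Type} [CommRing R] [IsDomain R] [Algebra R ℂ] {G : Set ℂ} (hG : G.Finite)
    (halg : ∀ g ∈ G, IsAlgebraic R g) : ∃ (m : ℕ) (w : Fin m → ℂ) (d : R), d ≠ 0 ∧
      LinearIndependent R w ∧ (∀ k l, w k * w l ∈ span R (Set.range w)) ∧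
      ∀ g, g = 1 ∨ g ∈ G → d • g ∈ span R (Set.range w) := by
  obtain ⟨a, a0, ha⟩ := AOrd_den (integralClosure R ℂ).toSubmodule hG
    fun g hg => (halg g hg).exists_integral_multiple
  obtain ⟨t, ht⟩ := fg_adjoin_of_finite (R := R) (hG.image fun g => a • g) (by
    rintro _ ⟨g, hg, rfl⟩
    exact ha g hg)
  obtain ⟨s, h1, h2⟩ := exists_maximal_linearIndepOn R ((↑) : t → ℂ)
  obtain ⟨m, ⟨e⟩⟩ := Finite.exists_equiv_fin s
  obtain ⟨u, hu⟩ : ∃ u : Fin m → ℂ, u = fun k => ((e.symm k : t) : ℂ) := ⟨_, rfl⟩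
  have u1 : LinearIndependent R u := hu ▸ LinearIndependent.comp h1 _ e.symm.injective
  have u2 : ((↑) : t → ℂ) '' s = Set.range u := by
    rw [Set.image_eq_range, hu]
    exact (e.symm.surjective.range_comp fun x : s => ((x : t) : ℂ)).symm
  have u3 : ∀ k, u k ∈ Algebra.adjoin R ((fun g => a • g) '' G) := fun k => by
    rw [← Subalgebra.mem_toSubmodule, ← ht, hu]
    exact subset_span (e.symm k).1.2
  obtain ⟨b, b0, hb⟩ := AOrd_den (R := R) (span R (Set.range u)) t.finite_toSet fun x hx => by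
    rw [← u2]
    by_cases k : (⟨x, hx⟩ : t) ∈ s
    exacts [⟨1, one_ne_zero, smul_mem _ _ (subset_span ⟨_, k, rfl⟩)⟩, h2 _ k]
  have h3 : ∀ x ∈ Algebra.adjoin R ((fun g => a • g) '' G),
      b • b • x ∈ span R (Set.range fun k => b • u k) := fun x hx => by
    rw [← Subalgebra.mem_toSubmodule, ← ht] at hx
    have k : b • x ∈ span R (Set.range u) := by
      induction hx using span_induction with
      | mem y k => exact hb y k
      | zero => simp
      | add y z _ _ k1 k2 => exact smul_add b y z ▸ add_mem k1 k2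
      | smul c y _ k => exact smul_comm b c y ▸ smul_mem _ c k
    obtain ⟨c, hc⟩ := (mem_span_range_iff_exists_fun R).1 k
    refine (mem_span_range_iff_exists_fun R).2 ⟨c, ?_⟩
    rw [← hc, Finset.smul_sum]
    exact Finset.sum_congr rfl fun i _ => smul_comm _ _ _
  refine ⟨m, fun k => b • u k, b * (b * a), mul_ne_zero b0 (mul_ne_zero b0 a0), ?_,
    fun k l => ?_, fun g hg => ?_⟩
  · rw [Fintype.linearIndependent_iff] at u1 ⊢
    exact fun c hc i => (mul_eq_zero.1 (u1 (fun i => c i * b)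
      (by simpa only [mul_smul] using hc) i)).resolve_right b0
  · rw [smul_mul_smul_comm, mul_smul]
    exact h3 _ (mul_mem (u3 k) (u3 l))
  · rw [mul_smul, mul_smul]
    rcases hg with rfl | hg
    exacts [h3 _ (Subalgebra.smul_mem _ (one_mem _) _), h3 _ (Algebra.subset_adjoin ⟨g, hg, rfl⟩)]

theorem exists_ord (θ0 : ℂ) (hθ : Transcendental ℚ θ0) (G : Set ℂ) (hG : G.Finite)
    (halg : ∀ g ∈ G, IsAlgebraic (IntermediateField.adjoin ℚ ({θ0} : Set ℂ)) g) :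
    Nonempty (Ord θ0 G) := by
  have hinj : Function.Injective (aeval θ0 : ℤ[X] →ₐ[ℤ] ℂ) :=
    transcendental_iff_injective.1 (hθ.restrictScalars (algebraMap ℤ ℚ).injective_int)
  letI : Algebra ℤ[X] ℂ := (aeval θ0 : ℤ[X] →ₐ[ℤ] ℂ).toRingHom.toAlgebra
  have h0 : ∀ (P : ℤ[X]) (x : ℂ), P • x = aeval θ0 P * x := fun _ _ => rfl
  have h1 : IsAlgebraic ℤ[X] θ0 := by
    have := isAlgebraic_algebraMap (R := ℤ[X]) (A := ℂ) X
    rwa [show algebraMap ℤ[X] ℂ X = θ0 from aeval_X θ0] at this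
  obtain ⟨m, w, d, d0, h2, h3, h4⟩ := AOrd_abs (R := ℤ[X]) hG fun g hg => AOrd_alg h1 (halg g hg)
  have h5 : ∀ x ∈ span ℤ[X] (Set.range w), ∀ᶠ c in atTop, Rep θ0 w c c x := fun x hx => by
    obtain ⟨γ, hγ⟩ := (mem_span_range_iff_exists_fun _).1 hx
    exact (eventually_all.2 fun k => (eventually_ge_atTop (γ k).natDegree).and
      (eventually_ge_atTop (l1 (γ k)))).mono fun c hc => ⟨γ, hc, hγ.symm⟩
  obtain ⟨c, c1, c2, c3⟩ := ((eventually_all.2 fun k => eventually_all.2 fun l =>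
    h5 _ (h3 k l)).and ((h5 _ (h4 1 (Or.inl rfl))).and
      ((eventually_all_finite hG).2 fun g hg => h5 _ (h4 g (Or.inr hg))))).exists
  rw [h0, mul_one] at c2
  exact ⟨⟨m, w, aeval θ0 d, c, (map_ne_zero_iff _ hinj).2 d0,
    fun γ hγ => funext (Fintype.linearIndependent_iff.1 h2 γ hγ), c1, c2, c3⟩⟩

end Pool.Agent.E21
end

-- merged part: Pool.Agent.Work.MP_e21d36_nt.GA
section
/-!
# Two coprime integer polynomials are not both very small at a point

Plan.  Let `m, n` be the degrees.  If `m = n = 0` one of the two constants is a nonzero integer.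
Otherwise `Polynomial.resultant A B ≠ 0` (`Polynomial.resultant_ne_zero` for the images over
`ℚ`, `resultant_map_map`; if one of `A`, `B` is zero the other is a nonzero constant), so the
integer determinant of the Sylvester matrix `S` has absolute value at least 1.  The vector
`v = (θ0^i)` is sent by `S` (or its transpose) to the vector with entries `θ0^j A(θ0)`,
`θ0^j B(θ0)`.  Hence `det S * v = adjugate S *ᵥ (S *ᵥ v)`; look at the entry `v 0 = 1` and
bound the entries of the adjugate by `Matrix.det_le`: `(m+n)! (2^h)^(m+n)`, with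
`(2d)! ≤ (2d)^(2d) ≤ 2^(4 d h)`.  One may also use
`Polynomial.exists_mul_add_mul_eq_C_resultant` as a guide, or build an own square matrix of the
linear map `(U, V) ↦ U A + V B` on polynomials of degree `< n`, `< m` (injective by coprimality).
`l1_le_of_dvd`: Mahler measure, `norm_coeff_le_choose_mul_mahlerMeasure`, `mahlerMeasure_mul`,
`one_le_mahlerMeasure_of_ne_zero`, `mahlerMeasure_le_sum_norm_coeff`, `Nat.sum_range_choose`.
-/

namespace Pool.Agent.E21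

open Polynomial

theorem GA_det_bound {N : ℕ} (S : Matrix (Fin N) (Fin N) ℤ) (H W : ℝ) (hH : 1 ≤ H)
    (hS : ∀ i j, |(S i j : ℝ)| ≤ H) (hdet : S.det ≠ 0) (v : Fin N → ℂ) (i0 : Fin N)
    (hv : v i0 = 1) (hw : ∀ j, ‖∑ i, v i * (S i j : ℂ)‖ ≤ W) :
    1 ≤ (N : ℝ) * (W * ((N.factorial : ℝ) * H ^ N)) := by
  classical
  obtain ⟨T, hT⟩ : ∃ T : Matrix (Fin N) (Fin N) ℂ, T = (Int.castRingHom ℂ).mapMatrix S :=
    ⟨_, rfl⟩
  have hTe : ∀ i j, T i j = (S i j : ℂ) := by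
    intro i j
    rw [hT]
    rfl
  have hdT : T.det = ((S.det : ℤ) : ℂ) := by
    rw [hT, ← RingHom.map_det]
    rfl
  have h1 : (1 : ℝ) ≤ ‖T.det‖ := by
    rw [hdT, Complex.norm_intCast]
    have h : (1 : ℤ) ≤ |S.det| := Int.one_le_abs hdet
    exact_mod_cast h
  have hid : T.det = ∑ j, (∑ i, v i * T i j) * T.adjugate j i0 := by
    have h := congrFun (Matrix.vecMul_vecMul v T T.adjugate) i0
    rw [Matrix.mul_adjugate, Matrix.vecMul_smul, Matrix.vecMul_one] at h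
    simp only [Pi.smul_apply, hv, smul_eq_mul, mul_one] at h
    rw [← h]
    rfl
  have hadj : ∀ j, ‖T.adjugate j i0‖ ≤ (N.factorial : ℝ) * H ^ N := by
    intro j
    rw [Matrix.adjugate_apply]
    have h := Matrix.det_le (A := T.updateRow i0 (Pi.single j 1))
      (abv := IsAbsoluteValue.toAbsoluteValue (norm : ℂ → ℝ)) (x := H) (by
        intro a b
        show ‖T.updateRow i0 (Pi.single j 1) a b‖ ≤ H
        rw [Matrix.updateRow_apply]
        split_ifs with ha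
        · rw [Pi.single_apply]
          split_ifs with hb
          · simpa using hH
          · simpa using (by linarith only [hH] : (0 : ℝ) ≤ H)
        · rw [hTe, Complex.norm_intCast]
          exact hS a b)
    simpa [nsmul_eq_mul] using h
  have hW : 0 ≤ W := le_trans (norm_nonneg _) (hw i0)
  calc (1 : ℝ) ≤ ‖T.det‖ := h1
    _ ≤ ∑ j, ‖(∑ i, v i * T i j) * T.adjugate j i0‖ := by
        rw [hid]
        exact norm_sum_le _ _
    _ ≤ ∑ _j : Fin N, W * ((N.factorial : ℝ) * H ^ N) := by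
        apply Finset.sum_le_sum
        intro j _
        rw [norm_mul]
        apply mul_le_mul _ (hadj j) (norm_nonneg _) hW
        simpa only [hTe] using hw j
    _ = (N : ℝ) * (W * ((N.factorial : ℝ) * H ^ N)) := by
        simp [Finset.sum_const, nsmul_eq_mul]

theorem GA_col (θ : ℂ) (g : ℤ[X]) {n j N : ℕ} (hg : g.natDegree ≤ n) (hj : j + n < N) :
    ∑ i : Fin N, θ ^ (i : ℕ) *
      (((if (i : ℕ) ∈ Set.Icc j (j + n) then g.coeff (i - j) else 0 : ℤ)) : ℂ)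
      = θ ^ j * aeval θ g := by
  have h1 : (X ^ j * g).natDegree < N := by
    refine lt_of_le_of_lt natDegree_mul_le ?_
    have : (X ^ j : ℤ[X]).natDegree = j := natDegree_X_pow j
    omega
  have h2 : aeval θ (X ^ j * g) = θ ^ j * aeval θ g := by simp
  rw [← h2, aeval_eq_sum_range' h1, Finset.sum_range]
  apply Finset.sum_congr rfl
  intro i _
  rw [coeff_X_pow_mul', zsmul_eq_mul, mul_comm]
  congr 2
  by_cases h : j ≤ (i : ℕ)
  · by_cases h' : (i : ℕ) ≤ j + n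
    · rw [if_pos ⟨h, h'⟩, if_pos h]
    · rw [if_neg (fun hh => h' hh.2), if_pos h, coeff_eq_zero_of_natDegree_lt (by omega)]
  · rw [if_neg (fun hh => h hh.1), if_neg h]

theorem GA_coeff_le (P : ℤ[X]) {h : ℕ} (hP : l1 P ≤ 2 ^ h) (i : ℕ) :
    |((P.coeff i : ℤ) : ℝ)| ≤ 2 ^ h := by
  have h1 : (P.coeff i).natAbs ≤ 2 ^ h := le_trans (natAbs_coeff_le_l1 P i) hP
  have h2 : (((P.coeff i).natAbs : ℕ) : ℝ) ≤ 2 ^ h := by exact_mod_cast h1
  rw [Nat.cast_natAbs] at h2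
  simpa using h2

theorem GA_const {A B : ℤ[X]} (θ : ℂ)
    (hc : IsCoprime (A.map (algebraMap ℤ ℚ)) (B.map (algebraMap ℤ ℚ)))
    (hA : A.natDegree = 0) (hB : B.natDegree = 0) :
    1 ≤ max ‖aeval θ A‖ ‖aeval θ B‖ := by
  have key : ∀ P : ℤ[X], P.natDegree = 0 → P ≠ 0 → 1 ≤ ‖aeval θ P‖ := by
    intro P hP hP0
    obtain ⟨a, rfl⟩ := natDegree_eq_zero.mp hP
    have ha : a ≠ 0 := by
      rintro rfl
      exact hP0 (map_zero _)
    rw [aeval_C]
    have h : (1 : ℤ) ≤ |a| := Int.one_le_abs ha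
    have h' : ‖(a : ℂ)‖ = |(a : ℝ)| := Complex.norm_intCast a
    simp only [algebraMap_int_eq, eq_intCast]
    rw [h']
    exact_mod_cast h
  by_cases hA0 : A = 0
  · by_cases hB0 : B = 0
    · subst hA0 hB0
      simp only [Polynomial.map_zero] at hc
      exact absurd hc not_isCoprime_zero_zero
    · exact le_trans (key B hB hB0) (le_max_right _ _)
  · exact le_trans (key A hA hA0) (le_max_left _ _)

theorem res_ineq (θ0 : ℂ) : ∃ c : ℕ, ∀ (A B : ℤ[X]) (d h : ℕ),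
    IsCoprime (A.map (algebraMap ℤ ℚ)) (B.map (algebraMap ℤ ℚ)) →
    A.natDegree ≤ d → B.natDegree ≤ d → l1 A ≤ 2 ^ h → l1 B ≤ 2 ^ h → d ≤ h →
    1 ≤ max ‖aeval θ0 A‖ ‖aeval θ0 B‖ * 2 ^ (c * (d + 1) * (h + 1)) := by
  obtain ⟨k, hk⟩ : ∃ k : ℕ, ‖θ0‖ < 2 ^ k := pow_unbounded_of_one_lt _ (by norm_num)
  refine ⟨k + 4, ?_⟩
  intro A B d h hc hA hB hlA hlB hdh
  obtain ⟨M, hM⟩ : ∃ M : ℝ, M = max ‖aeval θ0 A‖ ‖aeval θ0 B‖ := ⟨_, rfl⟩
  have hM0 : 0 ≤ M := by
    rw [hM]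
    exact le_trans (norm_nonneg _) (le_max_left _ _)
  by_cases h0 : A.natDegree = 0 ∧ B.natDegree = 0
  · have h1 := GA_const θ0 hc h0.1 h0.2
    have h2 : (1 : ℝ) ≤ 2 ^ ((k + 4) * (d + 1) * (h + 1)) := one_le_pow₀ (by norm_num)
    exact one_le_mul_of_one_le_of_one_le h1 h2
  rw [← hM]
  have hpos : 0 < A.natDegree + B.natDegree := by omega
  have hinj : Function.Injective (algebraMap ℤ ℚ) := fun a b hab => by
    simpa using hab
  have hres : (sylvester A B A.natDegree B.natDegree).det ≠ 0 := by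
    have h1 := resultant_ne_zero _ _ hc
    rw [natDegree_map_eq_of_injective hinj, natDegree_map_eq_of_injective hinj,
      resultant_map_map] at h1
    intro h2
    apply h1
    unfold resultant
    rw [h2, map_zero]
  have hθ : ∀ j : ℕ, j ≤ d → ‖θ0 ^ j‖ ≤ 2 ^ (k * d) := by
    intro j hj
    rw [norm_pow]
    calc ‖θ0‖ ^ j ≤ (2 ^ k) ^ j := pow_le_pow_left₀ (norm_nonneg _) hk.le j
      _ ≤ (2 ^ k) ^ d := pow_le_pow_right₀ (one_le_pow₀ (by norm_num)) hj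
      _ = 2 ^ (k * d) := by rw [← pow_mul]
  have hb := GA_det_bound (sylvester A B A.natDegree B.natDegree) (2 ^ h) (2 ^ (k * d) * M)
    (one_le_pow₀ (by norm_num)) (by
      intro i j
      unfold sylvester
      rw [Matrix.of_apply]
      refine Fin.addCases (fun j₁ => ?_) (fun j₁ => ?_) j
      · rw [Fin.addCases_left]
        split_ifs
        · exact GA_coeff_le B hlB _
        · simp
      · rw [Fin.addCases_right]
        split_ifs
        · exact GA_coeff_le A hlA _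
        · simp) hres (fun i => θ0 ^ (i : ℕ)) ⟨0, hpos⟩ (by simp) (by
      intro j
      unfold sylvester
      simp only [Matrix.of_apply]
      refine Fin.addCases (fun j₁ => ?_) (fun j₁ => ?_) j
      · simp only [Fin.addCases_left]
        have hj := j₁.2
        rw [GA_col θ0 B le_rfl (by omega), norm_mul]
        apply mul_le_mul (hθ _ (by omega)) _ (norm_nonneg _) (by positivity)
        rw [hM]
        exact le_max_right _ _
      · simp only [Fin.addCases_right]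
        have hj := j₁.2
        rw [GA_col θ0 A le_rfl (by omega), norm_mul]
        apply mul_le_mul (hθ _ (by omega)) _ (norm_nonneg _) (by positivity)
        rw [hM]
        exact le_max_left _ _)
  obtain ⟨N, hN⟩ : ∃ N, N = A.natDegree + B.natDegree := ⟨_, rfl⟩
  rw [← hN] at hb
  have hN2 : N ≤ 2 * d := by omega
  have hN3 : N ≤ 2 ^ (h + 1) := by
    have := Nat.lt_two_pow_self (n := h)
    rw [pow_succ]
    omega
  have hF : N.factorial ≤ 2 ^ ((h + 1) * (2 * d)) := by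
    calc N.factorial ≤ N ^ N := Nat.factorial_le_pow N
      _ ≤ (2 ^ (h + 1)) ^ N := Nat.pow_le_pow_left hN3 N
      _ ≤ (2 ^ (h + 1)) ^ (2 * d) := Nat.pow_le_pow_right (by positivity) hN2
      _ = 2 ^ ((h + 1) * (2 * d)) := by rw [← pow_mul]
  have hH : (2 ^ h) ^ N ≤ 2 ^ (h * (2 * d)) := by
    rw [pow_mul]
    exact Nat.pow_le_pow_right (by positivity) hN2
  have hall : N * (2 ^ (k * d) * (N.factorial * (2 ^ h) ^ N))
      ≤ 2 ^ ((k + 4) * (d + 1) * (h + 1)) := by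
    calc N * (2 ^ (k * d) * (N.factorial * (2 ^ h) ^ N))
        ≤ 2 ^ (h + 1) * (2 ^ (k * d) * (2 ^ ((h + 1) * (2 * d)) * 2 ^ (h * (2 * d)))) :=
          Nat.mul_le_mul hN3 (Nat.mul_le_mul le_rfl (Nat.mul_le_mul hF hH))
      _ = 2 ^ ((h + 1) + (k * d + ((h + 1) * (2 * d) + h * (2 * d)))) := by
          rw [← pow_add, ← pow_add, ← pow_add]
      _ ≤ 2 ^ ((k + 4) * (d + 1) * (h + 1)) := by
          apply Nat.pow_le_pow_right (by norm_num)
          linarith only [hA, hB, hdh, hpos, Nat.zero_le (k * d * h), Nat.zero_le (k * h), Nat.zero_le (d * h),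
            Nat.zero_le k, Nat.zero_le d, Nat.zero_le h]
  have hall' : (N : ℝ) * (2 ^ (k * d) * ((N.factorial : ℝ) * (2 ^ h) ^ N))
      ≤ 2 ^ ((k + 4) * (d + 1) * (h + 1)) := by exact_mod_cast hall
  calc (1 : ℝ) ≤ (N : ℝ) * (2 ^ (k * d) * M * ((N.factorial : ℝ) * (2 ^ h) ^ N)) := hb
    _ = M * ((N : ℝ) * (2 ^ (k * d) * ((N.factorial : ℝ) * (2 ^ h) ^ N))) := by ring
    _ ≤ M * 2 ^ ((k + 4) * (d + 1) * (h + 1)) := mul_le_mul_of_nonneg_left hall' hM0

theorem l1_le_of_dvd {A P : ℤ[X]} (hP : P ≠ 0) (h : A ∣ P) :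
    l1 A ≤ 2 ^ P.natDegree * l1 P := by
  have hdeg : A.natDegree ≤ P.natDegree := natDegree_le_of_dvd h hP
  obtain ⟨Q, rfl⟩ := h
  have hQ : Q ≠ 0 := right_ne_zero_of_mul hP
  have hinj : Function.Injective (Int.castRingHom ℂ) := fun a b hab => by
    simpa using hab
  have hM : ((A * Q).map (Int.castRingHom ℂ)).mahlerMeasure ≤ (l1 (A * Q) : ℝ) := by
    refine le_trans (mahlerMeasure_le_sum_norm_coeff _) (le_of_eq ?_)
    unfold l1 Polynomial.sum
    rw [support_map_of_injective _ hinj, Nat.cast_sum]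
    apply Finset.sum_congr rfl
    intro i _
    rw [coeff_map, Nat.cast_natAbs]
    simp
  have hc : ∀ n, ((A.coeff n).natAbs : ℝ) ≤ (A.natDegree.choose n : ℝ) * (l1 (A * Q) : ℝ) := by
    intro n
    have h1 := norm_coeff_le_choose_mul_mahlerMeasure_of_one_le_mahlerMeasure n
      (A.map (Int.castRingHom ℂ)) (Q.map (Int.castRingHom ℂ))
      (one_le_mahlerMeasure_of_ne_zero hQ)
    rw [← Polynomial.map_mul, natDegree_map_eq_of_injective hinj, coeff_map] at h1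
    have h2 : ‖(Int.castRingHom ℂ) (A.coeff n)‖ = ((A.coeff n).natAbs : ℝ) := by
      rw [Nat.cast_natAbs]
      simp
    rw [h2] at h1
    exact le_trans h1 (mul_le_mul_of_nonneg_left hM (Nat.cast_nonneg _))
  have hc' : ∀ n, (A.coeff n).natAbs ≤ A.natDegree.choose n * l1 (A * Q) := by
    intro n
    exact_mod_cast hc n
  calc l1 A ≤ ∑ i ∈ Finset.range (A.natDegree + 1), (A.coeff i).natAbs :=
        Finset.sum_le_sum_of_subset supp_subset_range_natDegree_succ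
    _ ≤ ∑ i ∈ Finset.range (A.natDegree + 1), A.natDegree.choose i * l1 (A * Q) :=
        Finset.sum_le_sum fun i _ => hc' i
    _ = 2 ^ A.natDegree * l1 (A * Q) := by
        rw [← Finset.sum_mul, Nat.sum_range_choose]
    _ ≤ 2 ^ (A * Q).natDegree * l1 (A * Q) :=
        Nat.mul_le_mul_right _ (Nat.pow_le_pow_right (by norm_num) hdeg)

end Pool.Agent.E21
end

-- merged part: Pool.Agent.Work.MP_e21d36_nt.GB
section
/-!
# A small integer polynomial has a small primary factor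

Plan.  Let `E = 2^(c0 (d+1) (2h+1))` be the bound of `res_ineq` for divisors of `P` (their
length is at most `2^(d+h) ≤ 2^(2h)` by `l1_le_of_dvd`): for coprime (over `ℚ`) divisors
`A`, `B` of `P`, `max |A(θ0)| |B(θ0)| ≥ 1/E`.  Write `P = a * ∏_{Q ∈ s} Q^(e Q)` with `a` a
nonzero integer constant and the `Q` irreducible of positive degree, pairwise non associated
(`UniqueFactorizationMonoid.normalizedFactors`, or induct with
`UniqueFactorizationMonoid.induction_on_coprime` / `WfDvdMonoid.max_power_factor`); different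
`Q` are coprime over `ℚ` (`Polynomial.IsPrimitive.irreducible_iff_irreducible_map_fraction_map`,
`IsPrimitive.dvd_iff_fraction_map_dvd_fraction_map`).  Combinatorial step: let `s'` be a
MINIMAL subset of `s` with `|∏_{s'}(θ0)| < 1/E` (the whole `s` qualifies, the empty set does
not); pick `Q ∈ s'`; then `|∏_{s' \ Q}| ≥ 1/E`, `|∏_{s \ s'}| ≥ 1/E`, so
`|Q^(e Q)(θ0)| ≤ |P(θ0)| E^2`.  Take `c = 4 c0` or larger.
-/

namespace Pool.Agent.E21

open Polynomial

theorem GB_comb {ι : Type} [DecidableEq ι] (s : Finset ι) (x : ι → ℝ) (E : ℝ)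
    (hx : ∀ i, 0 ≤ x i) (hE : 1 ≤ E)
    (hco : ∀ t ⊆ s, 1 ≤ max (∏ i ∈ t, x i) (∏ i ∈ s \ t, x i) * E)
    (hs : (∏ i ∈ s, x i) * E < 1) : ∃ i ∈ s, x i ≤ (∏ i ∈ s, x i) * E ^ 2 := by
  classical
  have hne : (s.powerset.filter fun t => (∏ i ∈ t, x i) * E < 1).Nonempty :=
    ⟨s, Finset.mem_filter.2 ⟨Finset.mem_powerset.2 le_rfl, hs⟩⟩
  obtain ⟨t, ht, hmin⟩ := Finset.exists_min_image _ Finset.card hne
  obtain ⟨hts, htE⟩ := Finset.mem_filter.1 ht
  have hts' : t ⊆ s := Finset.mem_powerset.1 hts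
  have htne : t.Nonempty := by
    rcases t.eq_empty_or_nonempty with h | h
    · subst h
      simp only [Finset.prod_empty, one_mul] at htE
      linarith
    · exact h
  obtain ⟨q, hq⟩ := htne
  refine ⟨q, hts' hq, ?_⟩
  have h1 : 1 ≤ (∏ i ∈ t.erase q, x i) * E := by
    by_contra hc
    push Not at hc
    have := hmin (t.erase q) (Finset.mem_filter.2
      ⟨Finset.mem_powerset.2 ((Finset.erase_subset _ _).trans hts'), hc⟩)
    have h2 := Finset.card_erase_lt_of_mem hq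
    omega
  have h2 : 1 ≤ (∏ i ∈ s \ t, x i) * E := by
    have h3 := hco t hts'
    rcases le_total (∏ i ∈ t, x i) (∏ i ∈ s \ t, x i) with h | h
    · rwa [max_eq_right h] at h3
    · rw [max_eq_left h] at h3
      linarith only [htE, h3]
  have h4 : ∏ i ∈ s, x i = x q * (∏ i ∈ t.erase q, x i) * ∏ i ∈ s \ t, x i := by
    rw [Finset.mul_prod_erase t x hq, mul_comm, Finset.prod_sdiff hts']
  have h5 : 1 ≤ ((∏ i ∈ t.erase q, x i) * E) * ((∏ i ∈ s \ t, x i) * E) :=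
    one_le_mul_of_one_le_of_one_le h1 h2
  calc x q = x q * 1 := (mul_one _).symm
    _ ≤ x q * (((∏ i ∈ t.erase q, x i) * E) * ((∏ i ∈ s \ t, x i) * E)) :=
        mul_le_mul_of_nonneg_left h5 (hx q)
    _ = (∏ i ∈ s, x i) * E ^ 2 := by rw [h4]; ring

theorem GB_assoc_or_coprime {Q Q' : ℤ[X]} (hQ : Irreducible Q) (hQ' : Irreducible Q')
    (h : 0 < Q.natDegree) (h' : 0 < Q'.natDegree) :
    Q ∣ Q' ∨ IsCoprime (Q.map (algebraMap ℤ ℚ)) (Q'.map (algebraMap ℤ ℚ)) := by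
  have p1 : Q.IsPrimitive := hQ.isPrimitive h.ne'
  have i1 : Irreducible (Q.map (algebraMap ℤ ℚ)) :=
    (p1.irreducible_iff_irreducible_map_fraction_map (K := ℚ)).1 hQ
  by_cases hd : Q.map (algebraMap ℤ ℚ) ∣ Q'.map (algebraMap ℤ ℚ)
  · left
    exact (IsPrimitive.dvd_iff_fraction_map_dvd_fraction_map ℚ p1).2 hd
  · right
    exact i1.coprime_iff_not_dvd.2 hd

theorem GB_const (θ0 : ℂ) {A : ℤ[X]} (h0 : A ≠ 0) (h : A.natDegree = 0) :
    1 ≤ ‖aeval θ0 A‖ := by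
  rw [Polynomial.natDegree_eq_zero] at h
  obtain ⟨a, rfl⟩ := h
  have ha : a ≠ 0 := by
    rintro rfl
    simp at h0
  rw [aeval_C]
  simp only [algebraMap_int_eq, eq_intCast, Complex.norm_intCast]
  have : (1 : ℤ) ≤ |a| := Int.one_le_abs ha
  exact_mod_cast this

open UniqueFactorizationMonoid in
theorem GB_factor (P : ℤ[X]) (hP : P ≠ 0) : ∃ (s : Finset ℤ[X]) (e : ℤ[X] → ℕ) (A : ℤ[X]),
    A ≠ 0 ∧ A.natDegree = 0 ∧ P = A * ∏ Q ∈ s, Q ^ e Q ∧
    (∀ Q ∈ s, Irreducible Q ∧ 0 < Q.natDegree ∧ 1 ≤ e Q) ∧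
    (∀ Q ∈ s, ∀ Q' ∈ s, Q ∣ Q' → Q = Q') := by
  classical
  obtain ⟨u, hu⟩ := prod_normalizedFactors hP
  set F := normalizedFactors P with hF
  have hprod : F.prod = ∏ Q ∈ F.toFinset, Q ^ F.count Q := Finset.prod_multiset_count F
  refine ⟨F.toFinset.filter fun Q => 0 < Q.natDegree, fun Q => F.count Q,
    (u : ℤ[X]) * ∏ Q ∈ F.toFinset.filter (fun Q => ¬ 0 < Q.natDegree), Q ^ F.count Q,
    ?_, ?_, ?_, ?_, ?_⟩
  · refine mul_ne_zero u.ne_zero (Finset.prod_ne_zero_iff.2 fun Q hQ => pow_ne_zero _ ?_)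
    exact (irreducible_of_normalized_factor Q
      (Multiset.mem_toFinset.1 (Finset.mem_filter.1 hQ).1)).ne_zero
  · refine Nat.le_zero.1 (natDegree_mul_le.trans ?_)
    rw [natDegree_coe_units, zero_add]
    refine (natDegree_prod_le _ _).trans (Nat.le_zero.2 (Finset.sum_eq_zero fun Q hQ => ?_))
    have h1 : Q.natDegree = 0 := by
      have := (Finset.mem_filter.1 hQ).2
      omega
    refine Nat.le_zero.1 (natDegree_pow_le.trans ?_)
    simp [h1]
  · rw [mul_assoc, mul_comm (∏ Q ∈ F.toFinset.filter (fun Q => ¬ 0 < Q.natDegree), _),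
      Finset.prod_filter_mul_prod_filter_not, ← hprod, mul_comm, hu]
  · intro Q hQ
    obtain ⟨h1, h2⟩ := Finset.mem_filter.1 hQ
    have h3 := Multiset.mem_toFinset.1 h1
    exact ⟨irreducible_of_normalized_factor Q h3, h2, Multiset.one_le_count_iff_mem.2 h3⟩
  · intro Q hQ Q' hQ' hd
    exact normalizedFactors_eq_of_dvd P Q (Multiset.mem_toFinset.1 (Finset.mem_filter.1 hQ).1)
      Q' (Multiset.mem_toFinset.1 (Finset.mem_filter.1 hQ').1) hd

theorem small_primary (θ0 : ℂ) : ∃ c : ℕ, ∀ (P : ℤ[X]) (d h : ℕ), P ≠ 0 →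
    P.natDegree ≤ d → l1 P ≤ 2 ^ h → d ≤ h →
    ‖aeval θ0 P‖ * 2 ^ (c * (d + 1) * (h + 1)) < 1 →
    ∃ (Q : ℤ[X]) (s : ℕ), Irreducible Q ∧ 0 < Q.natDegree ∧ 1 ≤ s ∧ Q ^ s ∣ P ∧
      ‖aeval θ0 Q‖ ^ s ≤ ‖aeval θ0 P‖ * 2 ^ (c * (d + 1) * (h + 1)) := by
  classical
  obtain ⟨c0, hc0⟩ := res_ineq θ0
  refine ⟨4 * c0, fun P d h hP hd hl hdh hsm => ?_⟩
  obtain ⟨s, e, A, hA0, hAd, hPA, hs, huniq⟩ := GB_factor P hP
  set E : ℝ := 2 ^ (c0 * (d + 1) * (2 * h + 1)) with hE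
  have hE1 : 1 ≤ E := one_le_pow₀ (by norm_num)
  have hE2 : E ^ 2 ≤ 2 ^ (4 * c0 * (d + 1) * (h + 1)) := by
    rw [hE, ← pow_mul]
    refine pow_le_pow_right₀ (by norm_num) ?_
    have : c0 * (d + 1) * (2 * h + 1) * 2 + c0 * (d + 1) * 2 = 4 * c0 * (d + 1) * (h + 1) := by
      ring
    omega
  have hE3 : E ≤ E ^ 2 := by linarith only [hE1, mul_nonneg_of_nonpos_of_nonpos (Mathlib.Tactic.Linarith.sub_nonpos_of_le hE1) (Mathlib.Tactic.Linarith.sub_nonpos_of_le hE1)]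
  have hdvd : ∀ t ⊆ s, (∏ Q ∈ t, Q ^ e Q) ∣ P := by
    intro t ht
    rw [hPA]
    exact Dvd.dvd.mul_left (Finset.prod_dvd_prod_of_subset _ _ _ ht) _
  have hev : ∀ t : Finset ℤ[X],
      ‖aeval θ0 (∏ Q ∈ t, Q ^ e Q)‖ = ∏ Q ∈ t, ‖aeval θ0 Q‖ ^ e Q := by
    intro t
    simp only [map_prod, map_pow, norm_prod, norm_pow]
  have hle : ∏ Q ∈ s, ‖aeval θ0 Q‖ ^ e Q ≤ ‖aeval θ0 P‖ := by
    have h1 := GB_const θ0 hA0 hAd
    have h2 : ‖aeval θ0 P‖ = ‖aeval θ0 A‖ * ∏ Q ∈ s, ‖aeval θ0 Q‖ ^ e Q := by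
      conv_lhs => rw [hPA]
      rw [map_mul, norm_mul, hev]
    rw [h2]
    exact le_mul_of_one_le_left (Finset.prod_nonneg fun _ _ => by positivity) h1
  have hl1 : ∀ B : ℤ[X], B ∣ P → l1 B ≤ 2 ^ (2 * h) := by
    intro B hB
    calc l1 B ≤ 2 ^ P.natDegree * l1 P := l1_le_of_dvd hP hB
      _ ≤ 2 ^ h * 2 ^ h := Nat.mul_le_mul (Nat.pow_le_pow_right (by norm_num) (by omega)) hl
      _ = 2 ^ (2 * h) := by rw [← pow_add, two_mul]
  have hnn : (0 : ℝ) ≤ ∏ Q ∈ s, ‖aeval θ0 Q‖ ^ e Q := Finset.prod_nonneg fun _ _ => by positivity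
  obtain ⟨Q, hQ, hQle⟩ := GB_comb s (fun Q => ‖aeval θ0 Q‖ ^ e Q) E (fun _ => by positivity) hE1
    (by
      intro t ht
      have hco : IsCoprime ((∏ Q ∈ t, Q ^ e Q).map (algebraMap ℤ ℚ))
          ((∏ Q ∈ s \ t, Q ^ e Q).map (algebraMap ℤ ℚ)) := by
        simp only [Polynomial.map_prod, Polynomial.map_pow]
        refine IsCoprime.prod_left fun Q hQ => IsCoprime.prod_right fun Q' hQ' => ?_
        obtain ⟨h1, h2⟩ := Finset.mem_sdiff.1 hQ'
        refine IsCoprime.pow ?_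
        rcases GB_assoc_or_coprime (hs Q (ht hQ)).1 (hs Q' h1).1 (hs Q (ht hQ)).2.1
          (hs Q' h1).2.1 with h3 | h3
        · exact absurd (huniq Q (ht hQ) Q' h1 h3 ▸ hQ) h2
        · exact h3
      have h1 := hdvd t ht
      have h2 := hdvd (s \ t) Finset.sdiff_subset
      have := hc0 _ _ d (2 * h) hco ((natDegree_le_of_dvd h1 hP).trans hd)
        ((natDegree_le_of_dvd h2 hP).trans hd) (hl1 _ h1) (hl1 _ h2) (by omega)
      rwa [hev, hev] at this)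
    (lt_of_le_of_lt (mul_le_mul hle (hE3.trans hE2) (by linarith only [hE1]) (norm_nonneg _)) hsm)
  refine ⟨Q, e Q, (hs Q hQ).1, (hs Q hQ).2.1, (hs Q hQ).2.2, ?_, ?_⟩
  · have := hdvd {Q} (Finset.singleton_subset_iff.2 hQ)
    simpa using this
  · exact hQle.trans (mul_le_mul hle hE2 (by positivity) (norm_nonneg _))

/-- Two irreducible integer polynomials of positive degree are associated or coprime over `ℚ`. -/
theorem assoc_or_coprime {Q Q' : ℤ[X]} (hQ : Irreducible Q) (hQ' : Irreducible Q')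
    (h : 0 < Q.natDegree) (h' : 0 < Q'.natDegree) :
    (Q' = Q ∨ Q' = -Q) ∨ IsCoprime (Q.map (algebraMap ℤ ℚ)) (Q'.map (algebraMap ℤ ℚ)) := by
  rcases GB_assoc_or_coprime hQ hQ' h h' with h1 | h1
  · left
    obtain ⟨u, hu⟩ := hQ.associated_of_dvd hQ' h1
    obtain ⟨r, hr, hru⟩ := Polynomial.isUnit_iff.1 u.isUnit
    rcases Int.isUnit_iff.1 hr with rfl | rfl
    · left
      rw [← hu, ← hru]
      simp
    · right
      rw [← hu, ← hru]
      simp
  · exact Or.inr h1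

end Pool.Agent.E21
end

-- merged part: Pool.Agent.Work.MP_e21d36_nt.GC
section
/-!
# Gelfond's criterion (the special case needed here)

Plan.  Put `n = 2k+1`, `d k = C n^16`, `h k = C n^17`.  For large `k`, `small_primary` gives
`Q k`, `s k` with `|Q k (θ0)|^(s k) ≤ 2^(-n^34/2)` (as `c (d+1)(h+1) ≤ C' n^33`).  The powers
`R k = (Q k)^(s k)` divide `P k`, so have degree at most `d k` and length at most `2^(2 h k)`.
If `Q k`, `Q (k+1)` were coprime over `ℚ`, so would be `R k`, `R (k+1)` (`IsCoprime.pow`) and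
`res_ineq` (with `d (k+1)`, `2 h (k+1)`, `n + 2 ≤ 3 n`) fails for large `k`.  So by
`assoc_or_coprime` the number `ρ = |Q k (θ0)|` is the same for all large `k`; `ρ > 0` because
`θ0` is transcendental, `s k ≤ d k`, so `min ρ 1 ^ (C n^16) ≤ 2^(-n^34/2)` for all large `k`,
which is false.
-/

namespace Pool.Agent.E21

open Polynomial

theorem GC_small {A B e n : ℕ} {x : ℝ} (h : A + B < n)
    (hx : x ≤ (1 / 2) ^ (n ^ 34) * 2 ^ (A * n ^ 33)) (he : e ≤ B * n ^ 33) : x * 2 ^ e < 1 := by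
  have h1 : A * n ^ 33 + e < n ^ 34 := by
    have h2 := Nat.mul_lt_mul_of_pos_right h (Nat.pow_pos (n := 33) (by omega : 0 < n))
    rw [add_mul, show n * n ^ 33 = n ^ 34 by ring] at h2
    omega
  refine (mul_le_mul_of_nonneg_right hx (by positivity)).trans_lt ?_
  rw [mul_assoc, ← pow_add, one_div, inv_pow, inv_mul_lt_one₀ (by positivity)]
  exact pow_lt_pow_right₀ one_lt_two h1

theorem GC_exp (c C D : ℕ) {n : ℕ} (hn : 0 < n) :
    c * (C * n ^ 16 + 1) * (D * n ^ 17 + 1) ≤ c * (C + 1) * (D + 1) * n ^ 33 := by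
  have h1 : C * n ^ 16 + 1 ≤ (C + 1) * n ^ 16 := by
    rw [add_mul, one_mul]; exact Nat.add_le_add_left (Nat.pow_pos hn) _
  have h2 : D * n ^ 17 + 1 ≤ (D + 1) * n ^ 17 := by
    rw [add_mul, one_mul]; exact Nat.add_le_add_left (Nat.pow_pos hn) _
  exact (Nat.mul_le_mul (Nat.mul_le_mul_left c h1) h2).trans_eq (by ring)

/-- The small primary factor with its size bounds. -/
theorem GC_fac (θ0 : ℂ) (C : ℕ) : ∃ A : ℕ, ∀ n : ℕ, A < n → ∀ P : ℤ[X], P ≠ 0 →
    P.natDegree ≤ C * n ^ 16 → l1 P ≤ 2 ^ (C * n ^ 17) → ‖aeval θ0 P‖ ≤ (1 / 2) ^ (n ^ 34) →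
    ∃ (Q : ℤ[X]) (s : ℕ), Irreducible Q ∧ 0 < Q.natDegree ∧ (Q ^ s).natDegree ≤ C * n ^ 16 ∧
      l1 (Q ^ s) ≤ 2 ^ (2 * C * n ^ 17) ∧
      ‖aeval θ0 Q‖ ^ s ≤ (1 / 2) ^ (n ^ 34) * 2 ^ (A * n ^ 33) := by
  obtain ⟨c, hc⟩ := small_primary θ0
  refine ⟨c * (C + 1) * (C + 1), fun n hn P h0 h1 h2 h3 => ?_⟩
  have n0 : 0 < n := by omega
  have h4 : C * n ^ 16 ≤ C * n ^ 17 := Nat.mul_le_mul_left _ (Nat.pow_le_pow_right n0 (by norm_num))
  obtain ⟨Q, s, a1, a2, -, a4, a5⟩ := hc P _ _ h0 h1 h2 h4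
    (GC_small (A := 0) (by rwa [zero_add]) (by simpa using h3) (GC_exp c C C n0))
  refine ⟨Q, s, a1, a2, (natDegree_le_of_dvd a4 h0).trans h1, (l1_le_of_dvd h0 a4).trans ?_,
    a5.trans (mul_le_mul h3 (pow_le_pow_right₀ one_le_two (GC_exp c C C n0)) (by positivity)
      (by positivity))⟩
  rw [mul_assoc, two_mul, pow_add]
  exact Nat.mul_le_mul (Nat.pow_le_pow_right two_pos (h1.trans h4)) h2

theorem gelfond (θ0 : ℂ) (hθ : Transcendental ℚ θ0) (C : ℕ) :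
    ¬ ∀ᶠ k : ℕ in Filter.atTop, ∃ P : ℤ[X], P ≠ 0 ∧ P.natDegree ≤ C * (2 * k + 1) ^ 16 ∧
      l1 P ≤ 2 ^ (C * (2 * k + 1) ^ 17) ∧ ‖aeval θ0 P‖ ≤ (1 / 2) ^ ((2 * k + 1) ^ 34) := by
  intro h
  obtain ⟨A, hA⟩ := GC_fac θ0 C
  obtain ⟨c, hc⟩ := res_ineq θ0
  obtain ⟨B, hB⟩ : ∃ B, B = c * (C + 1) * (2 * C + 1) := ⟨_, rfl⟩
  obtain ⟨K, hK⟩ := Filter.eventually_atTop.1
    (h.and (Filter.eventually_ge_atTop (A + B * 3 ^ 33)))
  choose! Q s a1 a2 a3 a4 a5 using fun k (hk : K ≤ k) => (hK k hk).1.elim fun P hP =>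
    hA (2 * k + 1) (by have := (hK k hk).2; omega) P hP.1 hP.2.1 hP.2.2.1 hP.2.2.2
  have step : ∀ k, K ≤ k → ‖aeval θ0 (Q (k + 1))‖ = ‖aeval θ0 (Q k)‖ := fun k hk => by
    have hk' : K ≤ k + 1 := hk.trans k.le_succ
    rcases assoc_or_coprime (a1 k hk) (a1 _ hk') (a2 k hk) (a2 _ hk') with (e | e) | e
    · rw [e]
    · rw [e, map_neg, norm_neg]
    exfalso
    have b0 := (hK k hk).2
    have b1 : 2 * k + 1 ≤ 2 * (k + 1) + 1 := by omega
    have b2 := GC_exp c C (2 * C) (by omega : 0 < 2 * (k + 1) + 1)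
    have b3 : (2 * (k + 1) + 1) ^ 33 ≤ 3 ^ 33 * (2 * k + 1) ^ 33 := by
      rw [← mul_pow]; exact Nat.pow_le_pow_left (by omega) _
    have b4 := hc (Q k ^ s k) (Q (k + 1) ^ s (k + 1)) _ _
      (by rw [Polynomial.map_pow, Polynomial.map_pow]; exact e.pow)
      ((a3 k hk).trans (Nat.mul_le_mul_left _ (Nat.pow_le_pow_left b1 _))) (a3 _ hk')
      ((a4 k hk).trans (Nat.pow_le_pow_right two_pos
        (Nat.mul_le_mul_left _ (Nat.pow_le_pow_left b1 _)))) (a4 _ hk')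
      (Nat.mul_le_mul (by omega) (Nat.pow_le_pow_right (Nat.succ_pos _) (by norm_num)))
    rw [← hB] at b2
    rw [map_pow, map_pow, norm_pow, norm_pow, max_mul_of_nonneg _ _ (by positivity),
      le_max_iff] at b4
    rcases b4 with b4 | b4
    · exact (GC_small (B := B * 3 ^ 33) (by omega) (a5 k hk)
        (b2.trans ((Nat.mul_le_mul_left B b3).trans_eq (mul_assoc B _ _).symm))).not_ge b4
    · exact (GC_small (by omega) (a5 _ hk') b2).not_ge b4
  have const : ∀ k, K ≤ k → ‖aeval θ0 (Q k)‖ = ‖aeval θ0 (Q K)‖ := fun k hk => by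
    induction k, hk using Nat.le_induction with
    | base => rfl
    | succ k hk ih => rw [step k hk, ih]
  have pos : 0 < ‖aeval θ0 (Q K)‖ := norm_pos_iff.2 fun e =>
    hθ ⟨(Q K).map (algebraMap ℤ ℚ), (Polynomial.map_ne_zero_iff (algebraMap ℤ ℚ).injective_int).2
      (a1 K le_rfl).ne_zero, by rwa [aeval_map_algebraMap]⟩
  obtain ⟨D, hD⟩ := exists_pow_lt_of_lt_one pos one_half_lt_one
  obtain ⟨k, hk, hk'⟩ : ∃ k, K ≤ k ∧ A + D * C ≤ k := ⟨max _ _, le_max_left _ _, le_max_right _ _⟩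
  have b1 : s k ≤ C * (2 * k + 1) ^ 33 := by
    have b2 := a3 k hk
    rw [natDegree_pow] at b2
    exact ((Nat.le_mul_of_pos_right _ (a2 k hk)).trans b2).trans
      (Nat.mul_le_mul_left _ (Nat.pow_le_pow_right (Nat.succ_pos _) (by norm_num)))
  refine (GC_small (B := D * C) (e := D * s k) (by omega) (a5 k hk)
    ((Nat.mul_le_mul_left D b1).trans_eq (mul_assoc D _ _).symm)).not_ge ?_
  rw [const k hk, pow_mul, ← mul_pow]
  refine one_le_pow₀ ?_
  rw [one_div, inv_pow, inv_lt_iff_one_lt_mul₀ (by positivity)] at hD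
  exact hD.le

end Pool.Agent.E21
end

-- merged part: Pool.Agent.Work.MP_e21d36_nt.CT1
section
/-!
# The infinite product `∏ (1 - q^(n+1) e^(2 π i z))`

Plan.  `‖q‖ < 1` for `0 < τ.im` (`Complex.norm_exp`, or `UpperHalfPlane.norm_exp_two_pi_I_lt_one`).
On a compact set the terms are bounded by `B ‖q‖^(n+1)`:
`Summable.multipliableLocallyUniformlyOn_nat_one_add` / `hasProdLocallyUniformlyOn_nat_one_add`
(file `Mathlib/Analysis/Normed/Module/MultipliableUniformlyOn.lean`, compare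
`Mathlib/NumberTheory/ModularForms/DedekindEta.lean` and
`Mathlib/Analysis/SpecialFunctions/Trigonometric/Cotangent.lean`), differentiability by
`TendstoLocallyUniformlyOn.differentiableOn` / `HasProdLocallyUniformlyOn.differentiableOn`.
`pr_shift`: `Multipliable.tprod_eq_zero_mul'` or `tprod_eq_zero_mul'` (no inverses needed).
`pr_eq_zero_iff`: `tprod_one_add_ne_zero_of_summable`, and `tprod_of_exists_eq_zero`.
`logDeriv_pr`: `logDeriv_tprod_eq_tsum` on an open neighbourhood where no factor vanishes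
(the set where `pr ≠ 0` is open), `logDeriv` of one factor by `HasDerivAt`.
-/

namespace Pool.Agent.E21

open Complex

noncomputable def qq (τ : ℂ) : ℂ := exp (2 * (Real.pi : ℂ) * I * τ)

noncomputable def pr (τ z : ℂ) : ℂ :=
  ∏' n : ℕ, (1 - qq τ ^ (n + 1) * exp (2 * (Real.pi : ℂ) * I * z))

variable {τ : ℂ}

theorem norm_qq_lt (h : 0 < τ.im) : ‖qq τ‖ < 1 := by
  have e : (2 * (Real.pi : ℂ) * I * τ).re = -(2 * Real.pi * τ.im) := by simp
  rw [qq, norm_exp, e, Real.exp_lt_one_iff, neg_lt_zero]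
  positivity

theorem CT1_sum {q : ℂ} (hq : ‖q‖ < 1) (B : ℝ) : Summable fun n : ℕ => ‖q‖ ^ (n + 1) * B :=
  ((summable_nat_add_iff 1).2 (summable_geometric_of_lt_one (norm_nonneg _) hq)).mul_right B

theorem CT1_sum' {q : ℂ} (hq : ‖q‖ < 1) (w : ℂ) : Summable fun n : ℕ => ‖-(q ^ (n + 1) * w)‖ := by
  simpa only [norm_neg, norm_mul, norm_pow] using CT1_sum hq ‖w‖

theorem CT1_mul {q : ℂ} (hq : ‖q‖ < 1) (w : ℂ) : Multipliable fun n : ℕ => 1 - q ^ (n + 1) * w := by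
  simpa only [sub_eq_add_neg] using multipliable_one_add_of_summable (CT1_sum' hq w)

theorem CT1_lu (h : 0 < τ.im) : HasProdLocallyUniformlyOn
    (fun (n : ℕ) (z : ℂ) => 1 - qq τ ^ (n + 1) * exp (2 * (Real.pi : ℂ) * I * z)) (pr τ)
    Set.univ := by
  unfold pr
  simp only [sub_eq_add_neg]
  refine hasProdLocallyUniformlyOn_of_forall_compact isOpen_univ fun K _ hK => ?_
  obtain ⟨B, hB⟩ := hK.exists_bound_of_continuousOn
    (f := fun z : ℂ => exp (2 * (Real.pi : ℂ) * I * z)) (by fun_prop)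
  refine (CT1_sum (norm_qq_lt h) B).hasProdUniformlyOn_nat_one_add hK
    (.of_forall fun n x hx => ?_) fun _ => by fun_prop
  rw [norm_neg, norm_mul, norm_pow]
  exact mul_le_mul_of_nonneg_left (hB x hx) (by positivity)

theorem differentiable_pr (h : 0 < τ.im) : Differentiable ℂ (pr τ) := by
  rw [← differentiableOn_univ]
  refine (CT1_lu h).differentiableOn (.of_forall fun _ => ?_) isOpen_univ
  simpa [Finset.prod_fn] using DifferentiableOn.finsetProd (fun _ _ => by fun_prop)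

theorem pr_add_one (z : ℂ) : pr τ (z + 1) = pr τ z := by
  unfold pr
  rw [mul_add, mul_one, exp_add, exp_two_pi_mul_I, mul_one]

theorem pr_shift (h : 0 < τ.im) (z : ℂ) :
    pr τ z = (1 - qq τ * exp (2 * (Real.pi : ℂ) * I * z)) * pr τ (z + τ) := by
  have e : ∀ n : ℕ, 1 - qq τ ^ (n + 1) * exp (2 * (Real.pi : ℂ) * I * (z + τ)) =
      1 - qq τ ^ (n + 1 + 1) * exp (2 * (Real.pi : ℂ) * I * z) := fun n => by
    rw [mul_add, exp_add, pow_succ _ (n + 1), qq]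
    ring
  have h1 := CT1_mul (norm_qq_lt h) (exp (2 * (Real.pi : ℂ) * I * (z + τ)))
  unfold pr
  simp only [e] at h1 ⊢
  have h2 := tprod_eq_zero_mul'
    (f := fun n : ℕ => 1 - qq τ ^ (n + 1) * exp (2 * (Real.pi : ℂ) * I * z)) h1
  rwa [zero_add, pow_one] at h2

theorem pr_eq_zero_iff (h : 0 < τ.im) (z : ℂ) :
    pr τ z = 0 ↔ ∃ (n : ℕ) (k : ℤ), z = (k : ℂ) - ((n : ℂ) + 1) * τ := by
  have hc : 2 * (Real.pi : ℂ) * I ≠ 0 := two_pi_I_ne_zero
  have e : ∀ n : ℕ, 1 - qq τ ^ (n + 1) * exp (2 * (Real.pi : ℂ) * I * z) = 0 ↔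
      ∃ k : ℤ, z = (k : ℂ) - ((n : ℂ) + 1) * τ := fun n => by
    rw [sub_eq_zero, eq_comm, qq, ← exp_nat_mul, ← exp_add, exp_eq_one_iff]
    refine exists_congr fun k => ⟨fun hk => mul_left_cancel₀ hc ?_, fun hk => ?_⟩
    · push_cast at hk
      linear_combination hk
    · rw [hk]
      push_cast
      ring
  simp only [← e]
  refine ⟨fun h0 => ?_, tprod_of_exists_eq_zero⟩
  by_contra hn
  refine tprod_one_add_ne_zero_of_summable (fun n hn' => hn ⟨n, ?_⟩)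
    (CT1_sum' (norm_qq_lt h) (exp (2 * (Real.pi : ℂ) * I * z))) ?_
  · rwa [sub_eq_add_neg]
  · simpa only [pr, sub_eq_add_neg] using h0

theorem logDeriv_pr (h : 0 < τ.im) {z : ℂ} (hz : pr τ z ≠ 0) :
    deriv (pr τ) z / pr τ z = ∑' n : ℕ,
      -(2 * (Real.pi : ℂ) * I) * (qq τ ^ (n + 1) * exp (2 * (Real.pi : ℂ) * I * z)) /
        (1 - qq τ ^ (n + 1) * exp (2 * (Real.pi : ℂ) * I * z)) := by
  have e : ∀ n : ℕ, logDeriv (fun z : ℂ => 1 - qq τ ^ (n + 1) * exp (2 * (Real.pi : ℂ) * I * z)) z =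
      -(2 * (Real.pi : ℂ) * I) * (qq τ ^ (n + 1) * exp (2 * (Real.pi : ℂ) * I * z)) /
        (1 - qq τ ^ (n + 1) * exp (2 * (Real.pi : ℂ) * I * z)) := fun n => by
    have h1 := ((((hasDerivAt_id z).const_mul (2 * (Real.pi : ℂ) * I)).cexp).const_mul
      (qq τ ^ (n + 1))).const_sub 1
    simp only [id, mul_one] at h1
    rw [logDeriv_apply, h1.deriv]
    ring
  have h2 := CT1_sum' (norm_qq_lt h) (exp (2 * (Real.pi : ℂ) * I * z))
  have h3 := ((h2.of_norm.tendsto_cofinite_zero.const_add 1).inv₀ (by simp)).const_mul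
    (2 * (Real.pi : ℂ) * I)
  have h4 := logDeriv_tprod_eq_tsum isOpen_univ (Set.mem_univ z)
    (f := fun (n : ℕ) (z : ℂ) => 1 - qq τ ^ (n + 1) * exp (2 * (Real.pi : ℂ) * I * z))
    (fun n hn => hz (tprod_of_exists_eq_zero ⟨n, hn⟩)) (fun n => by fun_prop)
    ((h2.mul_tendsto_const h3).congr fun n => by rw [e, sub_eq_add_neg]; ring) ⟨_, CT1_lu h⟩ hz
  simp only [e] at h4
  exact h4

end Pool.Agent.E21
end

-- merged part: Pool.Agent.Work.MP_e21d36_nt.CT2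
section
/-!
# The second logarithmic derivative of the product at the origin

Plan.  `hasDerivAt_logDeriv_pr`: near `0` the function is the series of `logDeriv_pr`
(`pr τ 0 ≠ 0` by `pr_eq_zero_iff`).  On a small ball around `0` where
`‖exp (2 π i z)‖ ≤ ρ` with `ρ ‖q‖ < 1`, the `n`-th term is bounded by
`2π ρ ‖q‖^(n+1) / (1 - ρ‖q‖)`; use `Complex.hasSum_deriv_of_summable_norm` and
`Complex.differentiableOn_tsum_of_summable_norm` (or `hasDerivAt_tsum_of_isPreconnected`).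
The derivative of the `n`-th term at `0` is `4 π^2 a / (1 - a)^2`, `a = q^(n+1)`.
`tsum_div_sq`: `a / (1-a)^2 = ∑ c, c a^c` (`tsum_coe_mul_geometric_of_norm_lt_one`),
`tsum_prod_pow_eq_tsum_sigma 1`, `tsum_pnat_eq_tsum_succ`.
-/

namespace Pool.Agent.E21

open Complex

variable {τ : ℂ}

theorem CT2_term (c a : ℂ) {z : ℂ} (hz : 1 - a * exp (c * z) ≠ 0) :
    HasDerivAt (fun w => -c * (a * exp (c * w)) / (1 - a * exp (c * w)))
      (-c ^ 2 * (a * exp (c * z)) / (1 - a * exp (c * z)) ^ 2) z := by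
  have h1 : HasDerivAt (fun w => a * exp (c * w)) (a * (exp (c * z) * (c * 1))) z :=
    (((hasDerivAt_id z).const_mul c).cexp).const_mul a
  refine ((h1.const_mul (-c)).div (h1.const_sub 1) hz).congr_deriv ?_
  congr 1
  ring

theorem CT2_pr_zero (h : 0 < τ.im) : pr τ 0 ≠ 0 := by
  intro h0
  obtain ⟨n, k, e⟩ := (pr_eq_zero_iff h 0).1 h0
  have h1 := congrArg Complex.im e
  simp only [zero_im, sub_im, intCast_im, mul_im, add_re, natCast_re, one_re, add_im, natCast_im,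
    one_im, add_zero, zero_mul, zero_sub] at h1
  have h2 : (0 : ℝ) < ((n : ℝ) + 1) * τ.im := by positivity
  linarith

theorem hasDerivAt_logDeriv_pr (h : 0 < τ.im) :
    HasDerivAt (fun z => deriv (pr τ) z / pr τ z)
      (4 * (Real.pi : ℂ) ^ 2 * ∑' n : ℕ, qq τ ^ (n + 1) / (1 - qq τ ^ (n + 1)) ^ 2) 0 := by
  obtain ⟨c, hc⟩ : ∃ c : ℂ, c = 2 * (Real.pi : ℂ) * I := ⟨_, rfl⟩
  have hq := norm_qq_lt h
  have hq0 := norm_nonneg (qq τ)
  obtain ⟨ρ, h1, h2⟩ := exists_between hq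
  have hU : IsOpen {z : ℂ | ‖qq τ * exp (c * z)‖ < ρ} :=
    isOpen_lt (by fun_prop) continuous_const
  have h0 : (0 : ℂ) ∈ {z : ℂ | ‖qq τ * exp (c * z)‖ < ρ} := by simpa using h1
  have hb : ∀ (n : ℕ) (z : ℂ), ‖qq τ * exp (c * z)‖ < ρ →
      ‖qq τ ^ (n + 1) * exp (c * z)‖ ≤ ‖qq τ‖ ^ n * ρ := fun n z hz => by
    rw [pow_succ, mul_assoc, norm_mul, norm_pow]
    exact mul_le_mul_of_nonneg_left hz.le (by positivity)
  have hd : ∀ (n : ℕ) (z : ℂ), ‖qq τ * exp (c * z)‖ < ρ →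
      1 - ρ ≤ ‖1 - qq τ ^ (n + 1) * exp (c * z)‖ := fun n z hz => by
    have a1 := norm_sub_norm_le (1 : ℂ) (qq τ ^ (n + 1) * exp (c * z))
    have a2 : ‖qq τ‖ ^ n * ρ ≤ ρ := mul_le_of_le_one_left (by linarith) (pow_le_one₀ hq0 hq.le)
    rw [norm_one] at a1
    linarith [hb n z hz]
  have hne : ∀ (n : ℕ) (z : ℂ), ‖qq τ * exp (c * z)‖ < ρ →
      1 - qq τ ^ (n + 1) * exp (c * z) ≠ 0 := fun n z hz =>
    norm_pos_iff.1 (lt_of_lt_of_le (by linarith) (hd n z hz))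
  have hu : Summable fun n : ℕ => ‖c‖ * (‖qq τ‖ ^ n * ρ) / (1 - ρ) :=
    (((summable_geometric_of_lt_one hq0 hq).mul_right ρ).mul_left _).div_const _
  have hf : ∀ n : ℕ, DifferentiableOn ℂ (fun w => -c * (qq τ ^ (n + 1) * exp (c * w)) /
      (1 - qq τ ^ (n + 1) * exp (c * w))) {z : ℂ | ‖qq τ * exp (c * z)‖ < ρ} := fun n z hz =>
    (CT2_term c _ (hne n z hz)).differentiableAt.differentiableWithinAt
  have hle : ∀ (n : ℕ) (w : ℂ), w ∈ {z : ℂ | ‖qq τ * exp (c * z)‖ < ρ} →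
      ‖-c * (qq τ ^ (n + 1) * exp (c * w)) / (1 - qq τ ^ (n + 1) * exp (c * w))‖ ≤
        ‖c‖ * (‖qq τ‖ ^ n * ρ) / (1 - ρ) := fun n w hw => by
    rw [norm_div, norm_mul, norm_neg]
    have a1 : 0 ≤ ρ := by linarith
    exact div_le_div₀ (by positivity) (mul_le_mul_of_nonneg_left (hb n w hw) (norm_nonneg _))
      (by linarith) (hd n w hw)
  have d1 := ((differentiableOn_tsum_of_summable_norm hu hf hU hle).differentiableAt
    (hU.mem_nhds h0)).hasDerivAt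
  rw [← (hasSum_deriv_of_summable_norm hu hf hU hle h0).tsum_eq] at d1
  refine (d1.congr_of_eventuallyEq ?_).congr_deriv ?_
  · filter_upwards [(differentiable_pr h).continuous.continuousAt.eventually_ne (CT2_pr_zero h)]
      with z hz
    rw [logDeriv_pr h hz, hc]
  · rw [← tsum_mul_left]
    refine tsum_congr fun n => ?_
    have a1 : -c ^ 2 = 4 * (Real.pi : ℂ) ^ 2 := by
      rw [hc]
      linear_combination (-4 * (Real.pi : ℂ) ^ 2) * I_sq
    rw [(CT2_term c _ (hne n 0 h0)).deriv, mul_zero, exp_zero, mul_one, a1, mul_div_assoc]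

theorem tsum_div_sq {q : ℂ} (hq : ‖q‖ < 1) :
    ∑' n : ℕ, q ^ (n + 1) / (1 - q ^ (n + 1)) ^ 2 =
      ∑' n : ℕ, (ArithmeticFunction.sigma 1 (n + 1) : ℂ) * q ^ (n + 1) := by
  rw [← tsum_pnat_eq_tsum_succ (f := fun n => (ArithmeticFunction.sigma 1 n : ℂ) * q ^ n),
    ← tsum_prod_pow_eq_tsum_sigma 1 hq,
    ← tsum_pnat_eq_tsum_succ (f := fun n => q ^ n / (1 - q ^ n) ^ 2)]
  refine tsum_congr fun d => ?_
  have h1 : ‖q ^ (d : ℕ)‖ < 1 := by
    rw [norm_pow]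
    exact pow_lt_one₀ (norm_nonneg _) hq d.ne_zero
  rw [← tsum_coe_mul_geometric_of_norm_lt_one h1,
    ← tsum_pnat_eq_tsum_of_eq_zero (f := fun n : ℕ => (n : ℂ) * (q ^ (d : ℕ)) ^ n) (by simp)]
  refine tsum_congr fun c => ?_
  rw [pow_one, pow_mul]

end Pool.Agent.E21
end

-- merged part: Pool.Agent.Work.MP_e21d36_nt.CT3
section
/-!
# The odd theta function of the lattice `ℤ + ℤ τ`

Plan.  `exists_pre`: `κ = - exp (-(π I τ))`.  `qper`: `pr (z) = (1 - q w) pr (z + τ)`,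
`pr (-(z + τ)) = (1 - w⁻¹) pr (-z)` (`pr_shift` at `-z - τ`), `w = exp (2 π I z)`, and
`sin (π (z + τ)) (1 - w⁻¹) = - exp (-π I τ) w⁻¹ (1 - q w) sin (π z)` (write `sin` by `exp`:
`Complex.sin`, put `u = exp (π I z)`, `v = exp (π I τ)`, `field_simp`, `ring`).
`zero_iff`: `Complex.sin_eq_zero_iff`, `pr_eq_zero_iff`, split by the sign of `l`.
`deriv0`: product rule at `0`, `sin 0 = 0`.
`tendsto_xf_thq`: near `0`, `z ≠ 0`: `zt = π cos (πz)/sin (πz) + L z - L (-z)` with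
`L = deriv pr / pr` analytic at `0`, so `xf z = π^2 / sin (πz)^2 - L' z - L' (-z)`;
`tendsto_inv_sin_sq`, continuity of `L'` at `0`, `hasDerivAt_logDeriv_pr`, `tsum_div_sq`.
`tendsto_inv_sin_sq`: with `sin y = y - y^3/6 + y^5 g y`, `g` analytic
(`AnalyticAt.exists_eventuallyEq_sum_add_pow_mul`) or `sin y = y * s y`, `s y = 1 - y^2 t y`,
`t 0 = 1/6`.
-/

namespace Pool.Agent.E21

open Complex Filter Topology

noncomputable def thq (τ z : ℂ) : ℂ :=
  sin ((Real.pi : ℂ) * z) / (Real.pi : ℂ) * pr τ z * pr τ (-z) / pr τ 0 ^ 2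

theorem CT3_pi : (Real.pi : ℂ) ≠ 0 := ofReal_ne_zero.2 Real.pi_ne_zero

theorem CT3_pr0 {τ : ℂ} (h : 0 < τ.im) : pr τ 0 ≠ 0 := fun h0 => by
  obtain ⟨n, k, e⟩ := (pr_eq_zero_iff h 0).1 h0
  have h1 := congrArg im e
  simp only [zero_im, sub_im, intCast_im, mul_im, add_re, natCast_re, one_re, add_im, natCast_im,
    one_im, add_zero, zero_mul] at h1
  have h2 : 0 < ((n : ℝ) + 1) * τ.im := by positivity
  linarith

theorem CT3_zero {τ : ℂ} (h : 0 < τ.im) (z : ℂ) :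
    thq τ z = 0 ↔ sin ((Real.pi : ℂ) * z) = 0 ∨ pr τ z = 0 ∨ pr τ (-z) = 0 := by
  simp [thq, CT3_pr0 h, or_assoc]

theorem CT3_deriv {τ : ℂ} (h : 0 < τ.im) (z : ℂ) : HasDerivAt (thq τ)
    (((cos ((Real.pi : ℂ) * z) * pr τ z + sin ((Real.pi : ℂ) * z) / (Real.pi : ℂ) * deriv (pr τ) z) *
      pr τ (-z) - sin ((Real.pi : ℂ) * z) / (Real.pi : ℂ) * pr τ z * deriv (pr τ) (-z)) /
        pr τ 0 ^ 2) z := by
  have h1 := ((hasDerivAt_id' z).const_mul (Real.pi : ℂ)).csin.div_const (Real.pi : ℂ)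
  have h2 := (differentiable_pr h z).hasDerivAt
  have h3 := (differentiable_pr h (-z)).hasDerivAt.comp z (hasDerivAt_neg' z)
  refine (((h1.mul h2).mul h3).div_const (pr τ 0 ^ 2)).congr_deriv ?_
  simp only [Pi.mul_apply, Function.comp_apply, mul_one, mul_div_cancel_right₀ _ CT3_pi]
  ring

theorem CT3_sin (z τ : ℂ) : sin ((Real.pi : ℂ) * (z + τ)) *
    (1 - qq τ * exp (2 * (Real.pi : ℂ) * I * -(z + τ))) =
      -exp (-((Real.pi : ℂ) * I * τ)) * exp (-(2 * (Real.pi : ℂ) * I * z)) *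
        sin ((Real.pi : ℂ) * z) * (1 - qq τ * exp (2 * (Real.pi : ℂ) * I * z)) := by
  have hu := exp_ne_zero ((Real.pi : ℂ) * I * z)
  have hv := exp_ne_zero ((Real.pi : ℂ) * I * τ)
  have e1 : exp ((Real.pi : ℂ) * (z + τ) * I) = exp (Real.pi * I * z) * exp (Real.pi * I * τ) := by
    rw [← exp_add]
    congr 1
    ring
  have e2 : ∀ y : ℂ, exp (2 * (Real.pi : ℂ) * I * y) = exp (Real.pi * I * y) ^ 2 := fun y => by
    rw [sq, ← exp_add]
    congr 1
    ring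
  have e3 : exp ((Real.pi : ℂ) * z * I) = exp (Real.pi * I * z) := by rw [mul_right_comm]
  unfold Complex.sin qq
  simp only [neg_mul, mul_neg, exp_neg, e1, e2, e3]
  rw [mul_add, exp_add]
  field_simp
  ring

theorem exists_pre {τ : ℂ} (h : 0 < τ.im) : ∃ Θ : PreTheta, Θ.ω = 1 ∧ Θ.ω' = τ ∧
    Θ.ν = 2 * (Real.pi : ℂ) * I ∧ Θ.θ = thq τ := by
  refine ⟨⟨1, τ, -exp (-((Real.pi : ℂ) * I * τ)), 2 * (Real.pi : ℂ) * I, thq τ, ?_,
    two_pi_I_ne_zero, fun z => (CT3_deriv h z).differentiableAt, fun z => ?_, fun z => ?_,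
    fun z => ?_, fun z => ?_, ?_⟩, rfl, rfl, rfl, rfl⟩
  · rw [div_one]
    exact h.ne'
  · unfold thq
    rw [mul_neg, sin_neg, neg_neg]
    ring
  · have e : pr τ (-(z + 1)) = pr τ (-z) := by
      rw [← pr_add_one]
      congr 1
      ring
    unfold thq
    rw [e, pr_add_one, mul_add, mul_one, sin_add_pi]
    ring
  · have e := pr_shift h (-(z + τ))
    rw [show -(z + τ) + τ = -z by ring] at e
    unfold thq
    rw [e, pr_shift h z]
    linear_combination (pr τ (z + τ) * pr τ (-z) / (Real.pi : ℂ) / pr τ 0 ^ 2) * CT3_sin z τ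
  · rw [CT3_zero h, sin_eq_zero_iff, pr_eq_zero_iff h, pr_eq_zero_iff h]
    constructor
    · rintro (⟨k, e⟩ | ⟨n, k, e⟩ | ⟨n, k, e⟩)
      · refine ⟨k, 0, mul_left_cancel₀ CT3_pi ?_⟩
        rw [e]
        push_cast
        ring
      · refine ⟨k, -(n + 1), ?_⟩
        rw [e]
        push_cast
        ring
      · refine ⟨-k, n + 1, ?_⟩
        push_cast
        linear_combination -e
    · rintro ⟨k, l, e⟩
      rcases lt_trichotomy l 0 with hl | rfl | hl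
      · obtain ⟨n, hn⟩ : ∃ n : ℕ, l = -(n + 1) := ⟨(-l - 1).toNat, by omega⟩
        refine Or.inr (Or.inl ⟨n, k, ?_⟩)
        rw [e, hn]
        push_cast
        ring
      · refine Or.inl ⟨k, ?_⟩
        rw [e]
        push_cast
        ring
      · obtain ⟨n, hn⟩ : ∃ n : ℕ, l = n + 1 := ⟨(l - 1).toNat, by omega⟩
        refine Or.inr (Or.inr ⟨n, -k, ?_⟩)
        rw [e, hn]
        push_cast
        ring
  · have h0 := CT3_pr0 h
    rw [(CT3_deriv h 0).deriv]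
    simp only [mul_zero, cos_zero, sin_zero, zero_div, zero_mul, one_mul, add_zero, sub_zero,
      neg_zero]
    field_simp

theorem CT3_t : Tendsto (fun y : ℂ => (y - sin y) / y ^ 3) (𝓝[≠] 0) (𝓝 (1 / 6)) := by
  rw [tendsto_iff_norm_sub_tendsto_zero]
  have h1 : Tendsto (fun y : ℂ => ‖y‖ ^ 2 / 100) (𝓝[≠] 0) (𝓝 0) :=
    ((by fun_prop : Continuous fun y : ℂ => ‖y‖ ^ 2 / 100).tendsto' 0 0 (by simp)).mono_left
      nhdsWithin_le_nhds
  refine squeeze_zero' (Eventually.of_forall fun _ => norm_nonneg _) ?_ h1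
  filter_upwards [self_mem_nhdsWithin,
    mem_nhdsWithin_of_mem_nhds (Metric.closedBall_mem_nhds (0 : ℂ) one_pos)] with y h2 h3
  have h4 : y ≠ 0 := h2
  have h5 : 0 < ‖y‖ := norm_pos_iff.2 h4
  have h6 : (y - sin y) / y ^ 3 - 1 / 6 = -(sin y - (y - y ^ 3 / 6)) / y ^ 3 := by
    field_simp
    ring
  rw [h6, norm_div, norm_neg, norm_pow, div_le_iff₀ (by positivity)]
  refine (sin_bound (mem_closedBall_zero_iff.1 h3)).trans_eq ?_
  ring

theorem CT3_inv : Tendsto (fun y : ℂ => 1 / sin y ^ 2 - 1 / y ^ 2) (𝓝[≠] 0) (𝓝 (1 / 3)) := by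
  have h1 : Tendsto (fun y : ℂ => y ^ 2 * ((y - sin y) / y ^ 3)) (𝓝[≠] 0) (𝓝 (0 ^ 2 * (1 / 6))) :=
    ((tendsto_id.mono_left nhdsWithin_le_nhds).pow 2).mul CT3_t
  rw [zero_pow two_ne_zero, zero_mul] at h1
  have h2 := h1.const_sub 1
  have h3 := (CT3_t.mul (h1.const_sub 2)).div (h2.pow 2) (by simp)
  rw [show (1 / 6 * (2 - 0) / (1 - 0) ^ 2 : ℂ) = 1 / 3 by norm_num] at h3
  refine h3.congr' ?_
  filter_upwards [self_mem_nhdsWithin, h2.eventually_ne (b₂ := 0) (by simp)] with y h4 h5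
  have h6 : y ≠ 0 := h4
  have h7 : 1 - y ^ 2 * ((y - sin y) / y ^ 3) = sin y / y := by
    field_simp
    ring
  have h8 : sin y ≠ 0 := fun k => h5 (by rw [h7, k, zero_div])
  simp only [Pi.div_apply, h7]
  field_simp
  ring

theorem tendsto_inv_sin_sq : Tendsto
    (fun z : ℂ => (Real.pi : ℂ) ^ 2 / sin ((Real.pi : ℂ) * z) ^ 2 - 1 / z ^ 2) (𝓝[≠] 0)
    (𝓝 ((Real.pi : ℂ) ^ 2 / 3)) := by
  have h1 : Tendsto (fun z : ℂ => (Real.pi : ℂ) * z) (𝓝[≠] 0) (𝓝[≠] 0) := by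
    refine tendsto_nhdsWithin_iff.2 ⟨((by fun_prop : Continuous fun z : ℂ =>
      (Real.pi : ℂ) * z).tendsto' 0 0 (mul_zero _)).mono_left nhdsWithin_le_nhds, ?_⟩
    filter_upwards [self_mem_nhdsWithin] with z hz
    exact mul_ne_zero CT3_pi hz
  have h2 := (CT3_inv.comp h1).const_mul ((Real.pi : ℂ) ^ 2)
  rw [mul_one_div] at h2
  refine h2.congr fun z => ?_
  have h3 := CT3_pi
  simp only [Function.comp_apply, mul_sub, mul_one_div, mul_pow]
  rw [div_mul_eq_div_div, div_self (pow_ne_zero 2 h3)]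

theorem CT3_an {τ : ℂ} (h : 0 < τ.im) {z : ℂ} (hz : pr τ z ≠ 0) :
    AnalyticAt ℂ (fun z => deriv (pr τ) z / pr τ z) z :=
  ((differentiable_pr h).analyticAt z).deriv.div ((differentiable_pr h).analyticAt z) hz

theorem CT3_zt {τ : ℂ} (h : 0 < τ.im) {z : ℂ} (hz : thq τ z ≠ 0) : zt (thq τ) z =
    (Real.pi : ℂ) * cos ((Real.pi : ℂ) * z) / sin ((Real.pi : ℂ) * z) + deriv (pr τ) z / pr τ z -
      deriv (pr τ) (-z) / pr τ (-z) := by
  have h0 := CT3_pr0 h
  have h1 := CT3_pi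
  rw [Ne, CT3_zero h, not_or, not_or] at hz
  obtain ⟨h2, h3, h4⟩ := hz
  rw [zt, (CT3_deriv h z).deriv, thq]
  field_simp

theorem CT3_xf {τ : ℂ} (h : 0 < τ.im) {z : ℂ} (hz : thq τ z ≠ 0) : xf (thq τ) z =
    (Real.pi : ℂ) ^ 2 / sin ((Real.pi : ℂ) * z) ^ 2 - deriv (fun z => deriv (pr τ) z / pr τ z) z -
      deriv (fun z => deriv (pr τ) z / pr τ z) (-z) := by
  have h0 : zt (thq τ) =ᶠ[𝓝 z] fun z => (Real.pi : ℂ) * cos ((Real.pi : ℂ) * z) /
      sin ((Real.pi : ℂ) * z) + deriv (pr τ) z / pr τ z - deriv (pr τ) (-z) / pr τ (-z) := by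
    filter_upwards [(CT3_deriv h z).continuousAt.eventually_ne hz] with y hy
    exact CT3_zt h hy
  rw [Ne, CT3_zero h, not_or, not_or] at hz
  obtain ⟨h2, h3, h4⟩ := hz
  have h5 := (hasDerivAt_id' z).const_mul (Real.pi : ℂ)
  have h6 := (((h5.ccos.const_mul (Real.pi : ℂ)).div h5.csin h2).add
    (CT3_an h h3).differentiableAt.hasDerivAt).sub
    ((CT3_an h h4).differentiableAt.hasDerivAt.comp z (hasDerivAt_neg' z))
  rw [xf, (h6.congr_of_eventuallyEq h0).deriv]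
  field_simp
  linear_combination ((Real.pi : ℂ) ^ 2) * sin_sq_add_cos_sq ((Real.pi : ℂ) * z)

theorem tendsto_xf_thq {τ : ℂ} (h : 0 < τ.im) :
    Tendsto (fun z => xf (thq τ) z - 1 / z ^ 2) (𝓝[≠] 0) (𝓝 ((Real.pi : ℂ) ^ 2 / 3 * eP τ)) := by
  obtain ⟨Θ, -, -, -, hΘ⟩ := exists_pre h
  have h1 := (CT3_an h (CT3_pr0 h)).deriv.continuousAt.tendsto
  rw [(hasDerivAt_logDeriv_pr h).deriv, tsum_div_sq (norm_qq_lt h)] at h1
  have h2 := h1.comp (continuous_neg.tendsto' (0 : ℂ) 0 neg_zero)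
  have h3 := (tendsto_inv_sin_sq.sub (h1.mono_left nhdsWithin_le_nhds)).sub
    (h2.mono_left nhdsWithin_le_nhds)
  convert h3.congr' (f₂ := fun z => xf (thq τ) z - 1 / z ^ 2) ?_ using 2
  · unfold eP qq
    ring
  · filter_upwards [Θ.eventually_ne 0] with z hz
    rw [hΘ] at hz
    rw [CT3_xf h hz, Function.comp_apply]
    ring

end Pool.Agent.E21
end

-- merged part: Pool.Agent.Work.MP_e21d36_nt.CT4
section
/-!
# Comparison with the Weierstrass function of Mathlib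

Plan.  `xf_eq_weierstrass`: `g = xf θ - ℘` is analytic off the lattice
(`PeriodPair.analyticOnNhd_weierstrassP`, `mem_lattice`, `zero_iff`), periodic
(`weierstrassP_add_coe`, `xf_lat`), and tends to `b` at `0`
(`weierstrassPExcept_add` with `l₀ = 0`, `analyticAt_weierstrassPExcept`, the value of
`℘[L - 0]` at `0` is `0`), so it has no pole at `0`
(`Complex.analyticAt_of_differentiable_on_punctured_nhds_of_continuousAt` for
`Function.update g 0 b`); `noPole_of_lat`, `liou_add`; the constant is `b`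
(`tendsto_nhds_unique`).  `ode_of_limit`: `yf = deriv ℘ = ℘'` off the lattice
(`deriv_weierstrassP`), `derivWeierstrassP_sq`.
`G_four`, `G_six`: `L.G k = ∑' v, eisSummand k v τ` through `latticeEquivProd` and
`finTwoArrowEquiv` (mind the order of the two coordinates, `Equiv.prodComm`),
`tsum_eisSummand_eq_tsum_sigma_mul_cexp_pow`, `riemannZeta_four`, `riemannZeta_two_mul_nat`
(`ζ(6) = π^6/945`, `bernoulli 6 = 1/42`), `tsum_pnat_eq_tsum_succ`.
-/

namespace Pool.Agent.E21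

open Filter Topology

theorem CT4_lat (Θ : PreTheta) (L : PeriodPair) (h1 : L.ω₁ = Θ.ω) (h2 : L.ω₂ = Θ.ω') (z : ℂ) :
    z ∈ L.lattice ↔ Θ.θ z = 0 := by
  rw [PeriodPair.mem_lattice, Θ.zero_iff, h1, h2]
  simp only [eq_comm]

theorem CT4_noPole {g : ℂ → ℂ} {b : ℂ} (ha : ∀ᶠ z in 𝓝[≠] (0 : ℂ), AnalyticAt ℂ g z)
    (hb : Tendsto g (𝓝[≠] 0) (𝓝 b)) : NoPole g 0 := by
  refine ⟨Function.update g 0 b,
    Complex.analyticAt_of_differentiable_on_punctured_nhds_of_continuousAt ?_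
      (continuousAt_update_same.2 hb), ?_⟩
  · filter_upwards [ha, self_mem_nhdsWithin] with z h1 h2
    refine h1.differentiableAt.congr_of_eventuallyEq ?_
    filter_upwards [isOpen_ne.mem_nhds h2] with w hw using Function.update_of_ne hw _ _
  · filter_upwards [self_mem_nhdsWithin] with w hw using (Function.update_of_ne hw _ _).symm

theorem PreTheta.xf_eq_weierstrass (Θ : PreTheta) (L : PeriodPair) (h1 : L.ω₁ = Θ.ω)
    (h2 : L.ω₂ = Θ.ω') (b : ℂ)
    (hb : Tendsto (fun z => xf Θ.θ z - 1 / z ^ 2) (𝓝[≠] 0) (𝓝 b)) {z : ℂ} (hz : Θ.θ z ≠ 0) :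
    xf Θ.θ z = L.weierstrassP z + b := by
  have hl := CT4_lat Θ L h1 h2
  have ha : ∀ w, Θ.θ w ≠ 0 → AnalyticAt ℂ (fun w => xf Θ.θ w - L.weierstrassP w) w := fun w hw =>
    (Θ.analyticAt_xf hw).sub (L.analyticOnNhd_weierstrassP w fun h => hw ((hl w).1 h))
  have hp : ∀ (k l : ℤ) w, Θ.θ w ≠ 0 →
      xf Θ.θ (w + ((k : ℂ) * Θ.ω + (l : ℂ) * Θ.ω')) -
        L.weierstrassP (w + ((k : ℂ) * Θ.ω + (l : ℂ) * Θ.ω')) = xf Θ.θ w - L.weierstrassP w := by
    intro k l w hw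
    rw [Θ.xf_lat hw, L.weierstrassP_add_coe w
      ⟨_, PeriodPair.mem_lattice.2 ⟨k, l, by rw [h1, h2]⟩⟩]
  have ht : Tendsto (fun w => xf Θ.θ w - L.weierstrassP w) (𝓝[≠] 0) (𝓝 b) := by
    have t1 : Tendsto (L.weierstrassPExcept 0) (𝓝[≠] 0) (𝓝 0) := by
      have := (L.analyticAt_weierstrassPExcept 0).continuousAt.tendsto
      rw [L.weierstrassPExcept_zero] at this
      exact this.mono_left nhdsWithin_le_nhds
    have t2 := hb.sub t1
    rw [sub_zero] at t2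
    refine t2.congr fun w => ?_
    have := L.weierstrassPExcept_add 0 w
    simp only [ZeroMemClass.coe_zero, sub_zero, ne_eq, OfNat.ofNat_ne_zero, not_false_eq_true,
      zero_pow, div_zero] at this
    rw [← this]
    ring
  have hn := Θ.noPole_of_lat (CT4_noPole ((Θ.eventually_ne 0).mono ha) ht) ha
    fun k l => ⟨1, 0, fun w hw => by rw [hp k l w hw]; ring⟩
  obtain ⟨-, c, hc⟩ := liou_add (c := 0) Θ.him {w | Θ.θ w = 0} Θ.eventually_ne hn
    (fun w hw => (ha w hw).continuousAt) (fun w hw => by simpa using hp 1 0 w hw)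
    fun w hw => by simpa using hp 0 1 w hw
  have e : b = c := tendsto_nhds_unique ht
    (tendsto_const_nhds.congr' ((Θ.eventually_ne 0).mono fun w hw => (hc w hw).symm))
  rw [e, ← hc z hz]
  ring

theorem PreTheta.ode_of_limit (Θ : PreTheta) (L : PeriodPair) (h1 : L.ω₁ = Θ.ω)
    (h2 : L.ω₂ = Θ.ω') (b : ℂ)
    (hb : Tendsto (fun z => xf Θ.θ z - 1 / z ^ 2) (𝓝[≠] 0) (𝓝 b)) {z : ℂ} (hz : Θ.θ z ≠ 0) :
    yf Θ.θ z ^ 2 = 4 * (xf Θ.θ z - b) ^ 3 - L.g₂ * (xf Θ.θ z - b) - L.g₃ := by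
  have e : xf Θ.θ =ᶠ[𝓝 z] fun w => L.weierstrassP w + b :=
    (Θ.eventually_ne_of_ne hz).mono fun w hw => Θ.xf_eq_weierstrass L h1 h2 b hb hw
  rw [yf, e.deriv_eq, deriv_add_const, L.deriv_weierstrassP,
    L.derivWeierstrassP_sq z fun h => hz ((CT4_lat Θ L h1 h2 z).1 h),
    Θ.xf_eq_weierstrass L h1 h2 b hb hz, add_sub_cancel_right]

theorem exists_periodPair {τ : ℂ} (h : 0 < τ.im) : ∃ L : PeriodPair, L.ω₁ = 1 ∧ L.ω₂ = τ := by
  refine ⟨⟨1, τ, LinearIndependent.pair_iff.2 fun s t hst => ?_⟩, rfl, rfl⟩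
  have h1 := congrArg Complex.im hst
  have h2 := congrArg Complex.re hst
  simp [h.ne'] at h1
  simp [h1] at h2
  exact ⟨h2, h1⟩

theorem CT4_G {τ : ℂ} (h : 0 < τ.im) (L : PeriodPair) (h1 : L.ω₁ = 1) (h2 : L.ω₂ = τ) {k : ℕ}
    (hk : 3 ≤ k) (hk2 : Even k) : L.G k = 2 * riemannZeta k +
      2 * ((-2 * (Real.pi : ℂ) * Complex.I) ^ k / ((k - 1).factorial : ℂ)) *
        ∑' n : ℕ, (ArithmeticFunction.sigma (k - 1) (n + 1) : ℂ) *
          Complex.exp (2 * (Real.pi : ℂ) * Complex.I * τ) ^ (n + 1) := by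
  have e := tsum_eisSummand_eq_tsum_sigma_mul_cexp_pow hk hk2 ⟨τ, h⟩
  rw [tsum_pnat_eq_tsum_succ (f := fun n : ℕ => (ArithmeticFunction.sigma (k - 1) n : ℂ) *
    Complex.exp (2 * (Real.pi : ℂ) * Complex.I * (⟨τ, h⟩ : UpperHalfPlane)) ^ n)] at e
  refine Eq.trans ?_ e
  rw [PeriodPair.G, ← L.latticeEquivProd.symm.toEquiv.tsum_eq, ← (finTwoArrowEquiv ℤ).symm.tsum_eq,
    ← (Equiv.prodComm ℤ ℤ).tsum_eq]
  refine tsum_congr fun x => ?_
  simp [EisensteinSeries.eisSummand, L.latticeEquiv_symm_apply, h1, h2, add_comm]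

theorem CT4_zeta_six : riemannZeta 6 = (Real.pi : ℂ) ^ 6 / 945 := by
  have h5 : bernoulli' 5 = 0 := bernoulli'_eq_zero_of_odd (by decide) (by norm_num)
  have h6 : bernoulli' 6 = 1 / 42 := by
    rw [bernoulli'_def]
    norm_num [Finset.sum_range_succ, h5, Nat.choose]
  have := riemannZeta_two_mul_nat (k := 3) (by norm_num)
  rw [bernoulli_eq_bernoulli'_of_ne_one (by norm_num), h6] at this
  norm_num [Nat.factorial] at this
  rw [this]
  ring

theorem g2_eq {τ : ℂ} (h : 0 < τ.im) (L : PeriodPair) (h1 : L.ω₁ = 1) (h2 : L.ω₂ = τ) :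
    L.g₂ = 4 * (Real.pi : ℂ) ^ 4 / 3 * eQ τ := by
  rw [PeriodPair.g₂, CT4_G h L h1 h2 (by norm_num) (by decide), eQ, Nat.cast_ofNat,
    riemannZeta_four, mul_pow, Complex.I_pow_four]
  norm_num [Nat.factorial]
  ring

theorem g3_eq {τ : ℂ} (h : 0 < τ.im) (L : PeriodPair) (h1 : L.ω₁ = 1) (h2 : L.ω₂ = τ) :
    L.g₃ = 8 * (Real.pi : ℂ) ^ 6 / 27 * eR τ := by
  have hI : Complex.I ^ 6 = -1 := by
    rw [show 6 = 4 + 2 from rfl, pow_add, Complex.I_pow_four, Complex.I_sq, one_mul]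
  rw [PeriodPair.g₃, CT4_G h L h1 h2 (by norm_num) (by decide), eR, Nat.cast_ofNat,
    CT4_zeta_six, mul_pow, hI]
  norm_num [Nat.factorial]
  ring

end Pool.Agent.E21
end

-- merged part: Pool.Agent.Work.MP_e21d36_nt.RS
section
/-!
# Rescaling a theta datum and exchanging its periods

Plan.  `rescale`: `θ' z = θ (α z) / α`, `κ' = κ`, `ν' = α ν`; `zt' z = α zt (α z)`,
`xf' z = α^2 xf (α z)`, `yf' z = α^3 yf (α z)` for all `z` (`deriv_comp_mul_left`,
`deriv_const_mul_field`, `deriv_div_const`).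
`swap`: `θ' z = exp (β z^2) θ z`, `β = ν / (2 ω')` (`ω' ≠ 0` by `him`).  Then
`θ' (z + ω') = κ exp (β ω'^2) θ' z`, and the constant is `-1`: put `z = -ω'/2`, use `odd` and
`θ (ω'/2) ≠ 0` (`zero_iff`, `lat_inj`).  `θ' (z + ω) = - exp (β ω^2) exp (2 β ω z) θ' z`, so
`ν' = -(ν ω / ω')`.  Where `θ ≠ 0`: `zt' z = 2 β z + zt z`, `xf' = xf - 2β`, `yf' = yf`
(`EventuallyEq.deriv_eq`, `eventually_ne_of_ne`).
-/

namespace Pool.Agent.E21

open Filter Topology

theorem RS_deriv (θ : ℂ → ℂ) {α : ℂ} (hα : α ≠ 0) (z : ℂ) :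
    deriv (fun w => θ (α * w) / α) z = deriv θ (α * z) := by
  rw [deriv_div_const, deriv_comp_mul_left, smul_eq_mul, mul_div_cancel_left₀ _ hα]

theorem RS_zt (θ : ℂ → ℂ) {α : ℂ} (hα : α ≠ 0) :
    zt (fun w => θ (α * w) / α) = fun z => α * zt θ (α * z) := by
  funext z
  unfold zt
  rw [RS_deriv θ hα, div_div_eq_mul_div]
  ring

theorem RS_xf (θ : ℂ → ℂ) {α : ℂ} (hα : α ≠ 0) :
    xf (fun w => θ (α * w) / α) = fun z => α ^ 2 * xf θ (α * z) := by
  funext z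
  unfold xf
  rw [RS_zt θ hα, deriv_const_mul_field, deriv_comp_mul_left, smul_eq_mul]
  ring

theorem RS_yf (θ : ℂ → ℂ) {α : ℂ} (hα : α ≠ 0) :
    yf (fun w => θ (α * w) / α) = fun z => α ^ 3 * yf θ (α * z) := by
  funext z
  unfold yf
  rw [RS_xf θ hα, deriv_const_mul_field, deriv_comp_mul_left, smul_eq_mul]
  ring

theorem RS_hd (Θ : PreTheta) (β z : ℂ) :
    HasDerivAt (fun w => Complex.exp (β * w ^ 2) * Θ.θ w)
      (Complex.exp (β * z ^ 2) * (2 * β * z * Θ.θ z + deriv Θ.θ z)) z := by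
  have h1 : HasDerivAt (fun w : ℂ => β * w ^ 2) (2 * β * z) z := by
    refine ((hasDerivAt_pow 2 z).const_mul β).congr_deriv ?_
    push_cast
    ring
  exact (h1.cexp.mul (Θ.diff z).hasDerivAt).congr_deriv (by ring)

theorem RS_zt' (Θ : PreTheta) (β : ℂ) {z : ℂ} (h : Θ.θ z ≠ 0) :
    zt (fun w => Complex.exp (β * w ^ 2) * Θ.θ w) z = 2 * β * z + zt Θ.θ z := by
  unfold zt
  rw [(RS_hd Θ β z).deriv, mul_div_mul_left _ _ (Complex.exp_ne_zero _), add_div,
    mul_div_cancel_right₀ _ h]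

theorem RS_xf' (Θ : PreTheta) (β : ℂ) {z : ℂ} (h : Θ.θ z ≠ 0) :
    xf (fun w => Complex.exp (β * w ^ 2) * Θ.θ w) z = xf Θ.θ z - 2 * β := by
  have he : zt (fun w => Complex.exp (β * w ^ 2) * Θ.θ w) =ᶠ[𝓝 z]
      fun w => 2 * β * w + zt Θ.θ w := by
    filter_upwards [Θ.eventually_ne_of_ne h] with w hw
    exact RS_zt' Θ β hw
  have h1 : HasDerivAt (fun w => 2 * β * w + zt Θ.θ w) (2 * β * 1 + -xf Θ.θ z) z :=
    ((hasDerivAt_id z).const_mul (2 * β)).add (Θ.hasDerivAt_zt h)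
  show -deriv (zt _) z = _
  rw [he.deriv_eq, h1.deriv]
  ring

theorem RS_yf' (Θ : PreTheta) (β : ℂ) {z : ℂ} (h : Θ.θ z ≠ 0) :
    yf (fun w => Complex.exp (β * w ^ 2) * Θ.θ w) z = yf Θ.θ z := by
  have he : xf (fun w => Complex.exp (β * w ^ 2) * Θ.θ w) =ᶠ[𝓝 z]
      fun w => xf Θ.θ w - 2 * β := by
    filter_upwards [Θ.eventually_ne_of_ne h] with w hw
    exact RS_xf' Θ β hw
  show deriv (xf _) z = _
  rw [he.deriv_eq, ((Θ.hasDerivAt_xf h).sub_const (2 * β)).deriv]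

theorem RS_ω' (Θ : PreTheta) : Θ.ω' ≠ 0 := by
  intro h
  apply Θ.him
  rw [h, zero_div, Complex.zero_im]

theorem RS_half (Θ : PreTheta) : Θ.θ (Θ.ω' / 2) ≠ 0 := by
  intro h
  obtain ⟨k, l, e⟩ := (Θ.zero_iff _).1 h
  have h1 := (Θ.lat_inj (2 * k) (2 * l - 1) (by
    push_cast
    linear_combination -2 * e)).2
  have h2 : (2 * l - 1 : ℤ) = 0 := by exact_mod_cast h1
  omega

theorem RS_per (Θ : PreTheta) {β : ℂ} (hβ : 2 * β * Θ.ω' = Θ.ν) (z : ℂ) :
    Complex.exp (β * (z + Θ.ω') ^ 2) * Θ.θ (z + Θ.ω') = -(Complex.exp (β * z ^ 2) * Θ.θ z) := by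
  have h1 : ∀ w, Complex.exp (β * (w + Θ.ω') ^ 2) * Θ.θ (w + Θ.ω') =
      Θ.κ * Complex.exp (β * Θ.ω' ^ 2) * (Complex.exp (β * w ^ 2) * Θ.θ w) := by
    intro w
    have e : Complex.exp (β * (w + Θ.ω') ^ 2) * Complex.exp (-(Θ.ν * w)) =
        Complex.exp (β * Θ.ω' ^ 2) * Complex.exp (β * w ^ 2) := by
      rw [← Complex.exp_add, ← Complex.exp_add, ← hβ]
      congr 1
      ring
    rw [Θ.qper]
    linear_combination Θ.κ * Θ.θ w * e
  have h2 := h1 (-(Θ.ω' / 2))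
  rw [show -(Θ.ω' / 2) + Θ.ω' = Θ.ω' / 2 by ring, Θ.odd, neg_sq] at h2
  have h3 : Θ.κ * Complex.exp (β * Θ.ω' ^ 2) = -1 := by
    apply mul_right_cancel₀ (mul_ne_zero (Complex.exp_ne_zero (β * (Θ.ω' / 2) ^ 2)) (RS_half Θ))
    linear_combination h2
  rw [h1, h3, neg_one_mul]

theorem Theta.rescale (Θ : Theta) {α : ℂ} (hα : α ≠ 0) : ∃ Θ' : Theta, Θ'.ω = Θ.ω / α ∧
    Θ'.ω' = Θ.ω' / α ∧ Θ'.a2 = α ^ 2 * Θ.a2 ∧ Θ'.a1 = α ^ 4 * Θ.a1 ∧ Θ'.a0 = α ^ 6 * Θ.a0 := by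
  refine ⟨{
    ω := Θ.ω / α
    ω' := Θ.ω' / α
    κ := Θ.κ
    ν := α * Θ.ν
    θ := fun w => Θ.θ (α * w) / α
    him := ?_
    hν := mul_ne_zero hα Θ.hν
    diff := (Θ.diff.comp (differentiable_id.const_mul α)).div_const α
    odd := fun z => ?_
    per := fun z => ?_
    qper := fun z => ?_
    zero_iff := fun z => ?_
    deriv0 := ?_
    a0 := α ^ 6 * Θ.a0
    a1 := α ^ 4 * Θ.a1
    a2 := α ^ 2 * Θ.a2
    ode := fun z hz => ?_ }, rfl, rfl, rfl, rfl, rfl⟩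
  · rw [div_div_div_cancel_right₀ hα]
    exact Θ.him
  · rw [mul_neg, Θ.odd, neg_div]
  · rw [mul_add, mul_div_cancel₀ _ hα, Θ.per, neg_div]
  · rw [mul_add, mul_div_cancel₀ _ hα, Θ.qper, show α * Θ.ν * z = Θ.ν * (α * z) by ring,
      mul_div_assoc]
  · rw [div_eq_zero_iff, or_iff_left hα, Θ.zero_iff]
    refine exists_congr fun k => exists_congr fun l => ?_
    rw [← mul_div_assoc, ← mul_div_assoc, ← add_div, eq_div_iff hα, mul_comm]
  · rw [RS_deriv _ hα, mul_zero, Θ.deriv0]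
  · have h := Θ.ode (α * z) fun e => hz (by simp only [e, zero_div])
    simp only [RS_xf _ hα, RS_yf _ hα]
    linear_combination α ^ 6 * h

theorem Theta.swap (Θ : Theta) : ∃ Θ' : Theta, Θ'.ω = Θ.ω' ∧ Θ'.ω' = Θ.ω ∧
    Θ'.a2 = Θ.a2 + 12 * (Θ.ν / Θ.ω') ∧
    Θ'.a1 = Θ.a1 + Θ.a2 * (Θ.ν / Θ.ω') + 6 * (Θ.ν / Θ.ω') ^ 2 ∧
    Θ'.a0 = Θ.a0 + 2 * Θ.a1 * (Θ.ν / Θ.ω') + Θ.a2 * (Θ.ν / Θ.ω') ^ 2 + 4 * (Θ.ν / Θ.ω') ^ 3 := by
  have h' := RS_ω' Θ.toPreTheta
  obtain ⟨β, hβ⟩ : ∃ β : ℂ, 2 * β = Θ.ν / Θ.ω' := ⟨Θ.ν / Θ.ω' / 2, by ring⟩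
  have hβ' : 2 * β * Θ.ω' = Θ.ν := by rw [hβ, div_mul_cancel₀ _ h']
  refine ⟨{
    ω := Θ.ω'
    ω' := Θ.ω
    κ := -Complex.exp (β * Θ.ω ^ 2)
    ν := -(2 * β * Θ.ω)
    θ := fun w => Complex.exp (β * w ^ 2) * Θ.θ w
    him := ?_
    hν := ?_
    diff := fun z => (RS_hd Θ.toPreTheta β z).differentiableAt
    odd := fun z => ?_
    per := RS_per Θ.toPreTheta hβ'
    qper := fun z => ?_
    zero_iff := fun z => ?_
    deriv0 := ?_
    a0 := Θ.a0 + 2 * Θ.a1 * (Θ.ν / Θ.ω') + Θ.a2 * (Θ.ν / Θ.ω') ^ 2 + 4 * (Θ.ν / Θ.ω') ^ 3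
    a1 := Θ.a1 + Θ.a2 * (Θ.ν / Θ.ω') + 6 * (Θ.ν / Θ.ω') ^ 2
    a2 := Θ.a2 + 12 * (Θ.ν / Θ.ω')
    ode := fun z hz => ?_ }, rfl, rfl, rfl, rfl, rfl⟩
  · have h1 := Θ.him
    rw [← inv_div, Complex.inv_im]
    refine div_ne_zero (neg_ne_zero.2 h1) fun e => h1 ?_
    rw [Complex.normSq_eq_zero.1 e, Complex.zero_im]
  · rw [hβ]
    exact neg_ne_zero.2 (mul_ne_zero (div_ne_zero Θ.hν h') Θ.ω_ne)
  · rw [neg_sq, Θ.odd, mul_neg]
  · have e : Complex.exp (β * (z + Θ.ω) ^ 2) = Complex.exp (β * Θ.ω ^ 2) *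
        Complex.exp (-(-(2 * β * Θ.ω) * z)) * Complex.exp (β * z ^ 2) := by
      rw [← Complex.exp_add, ← Complex.exp_add]
      congr 1
      ring
    rw [Θ.per, e]
    ring
  · rw [mul_eq_zero, or_iff_right (Complex.exp_ne_zero _), Θ.zero_iff]
    exact ⟨fun ⟨k, l, e⟩ => ⟨l, k, e.trans (add_comm _ _)⟩,
      fun ⟨k, l, e⟩ => ⟨l, k, e.trans (add_comm _ _)⟩⟩
  · rw [(RS_hd Θ.toPreTheta β 0).deriv, Θ.deriv0]
    simp
  · have hz' : Θ.θ z ≠ 0 := right_ne_zero_of_mul hz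
    have h := Θ.ode z hz'
    rw [RS_xf' Θ.toPreTheta β hz', RS_yf' Θ.toPreTheta β hz', hβ]
    linear_combination h

end Pool.Agent.E21
end
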