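import Pool.Agent.Work.MP_e21d36_nt.RS
import Mathlib

-- merged part: Pool.Agent.Work.MP_e21d36_nt.Small
section
-- merged part: Pool.Agent.Work.MP_e21d36_nt.TB3
section
/-!
# Second order equation, chain rule, translation formulas (one factor)

Plan.  `hasDerivAt_yf`: differentiate `ode`: `2 Y Y' = (12 X^2 + 2 a2 X + 2 a1) Y` near `z`;
`Y ≠ 0` on a punctured neighbourhood (`theta_double`, `eventually_ne` at `2z`), so the two
analytic functions `deriv yf` and `6 X^2 + a2 X + a1` agree there, hence at `z`.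
`hasDerivAt_ev1`: `MvPolynomial.induction_on`, `mkDerivation_X`, `Derivation.leibniz`.
`ev1_zU`: `add_zt` times `θ(u)^2 / 2`, with `deriv nA u = 2 θ θ' X + θ^2 Y` (from `nB`,
`cube_mul_yf`, `sq_mul_xf`).  `add_xf`: differentiate `add_zt` in `x` and multiply by
`X(x) - X(u)`.  `ev1_xU`: `add_xf` times `θ(u)^4 / 2`.
`half_period`: `add_xf` with `u = ω/2`, `yf_half`, `ode` at `x` and at `ω/2`, cancel
`X(x) - e0 ≠ 0` (`xf_eq_iff`).  `k0_ne`: take `x` with `θ x ≠ 0`, `θ (x ± ω/2) ≠ 0`.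
-/

namespace Pool.Agent.E21

open Filter Topology MvPolynomial

namespace Theta

variable (Θ : Theta)

theorem hasDerivAt_yf {z : ℂ} (h : Θ.θ z ≠ 0) :
    HasDerivAt (yf Θ.θ) (6 * xf Θ.θ z ^ 2 + Θ.a2 * xf Θ.θ z + Θ.a1) z := by
  have key : ∀ w, Θ.θ w ≠ 0 → yf Θ.θ w ≠ 0 →
      deriv (yf Θ.θ) w = 6 * xf Θ.θ w ^ 2 + Θ.a2 * xf Θ.θ w + Θ.a1 := by
    intro w hw hy
    have hY := (Θ.analyticAt_yf hw).differentiableAt.hasDerivAt
    have hX := Θ.hasDerivAt_xf hw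
    have h1 := hY.mul hY
    have h2 := (((((hX.mul hX).mul hX).const_mul 4).add ((hX.mul hX).const_mul Θ.a2)).add
      (hX.const_mul (2 * Θ.a1))).add_const Θ.a0
    have h3 := h1.unique (h2.congr_of_eventuallyEq (by
      filter_upwards [Θ.eventually_ne_of_ne hw] with y hy'
      have h4 := Θ.ode y hy'
      simp only [Pi.mul_apply, Pi.add_apply]
      linear_combination h4))
    simp only [Pi.mul_apply] at h3
    apply mul_left_cancel₀ hy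
    linear_combination (1 / 2 : ℂ) * h3
  have ht : Tendsto (fun w : ℂ => 2 * w) (𝓝[≠] z) (𝓝[≠] (2 * z)) := by
    refine tendsto_nhdsWithin_iff.2 ⟨?_, ?_⟩
    · exact ((continuous_const.mul continuous_id).tendsto z).mono_left nhdsWithin_le_nhds
    · filter_upwards [self_mem_nhdsWithin] with w hw
      exact fun e => hw (mul_left_cancel₀ two_ne_zero e)
  have he : deriv (yf Θ.θ) =ᶠ[𝓝[≠] z] fun w => 6 * xf Θ.θ w ^ 2 + Θ.a2 * xf Θ.θ w + Θ.a1 := by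
    filter_upwards [ht.eventually (Θ.eventually_ne (2 * z)), Θ.eventually_ne z] with w h1 h2
    refine key w h2 fun e => h1 ?_
    rw [Θ.theta_double h2, e, mul_zero, neg_zero]
  have hc := (Θ.analyticAt_xf h).continuousAt
  have c1 : ContinuousAt (deriv (yf Θ.θ)) z := (Θ.analyticAt_yf h).deriv.continuousAt
  have c2 : ContinuousAt (fun w => 6 * xf Θ.θ w ^ 2 + Θ.a2 * xf Θ.θ w + Θ.a1) z :=
    ((continuousAt_const.mul (hc.pow 2)).add (continuousAt_const.mul hc)).add continuousAt_const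
  have e := tendsto_nhds_unique_of_eventuallyEq (c1.tendsto.mono_left nhdsWithin_le_nhds)
    (c2.tendsto.mono_left nhdsWithin_le_nhds) he
  beta_reduce at e
  rw [← e]
  exact (Θ.analyticAt_yf h).differentiableAt.hasDerivAt

theorem ev1_X0 (q : ℂ × ℂ) : Θ.ev1 q (X 0) = xf Θ.θ q.1 := by
  simp [ev1, crd]

theorem ev1_X1 (q : ℂ × ℂ) : Θ.ev1 q (X 1) = yf Θ.θ q.1 := by
  simp [ev1, crd]

theorem ev1_X2 (q : ℂ × ℂ) : Θ.ev1 q (X 2) = zt Θ.θ q.1 - q.2 := by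
  simp [ev1, crd]

theorem ev1_C (q : ℂ × ℂ) (c : ℂ) : Θ.ev1 q (C c) = c := by
  simp [ev1]

theorem mem_I1 (Q : P1) : Q ∈ Θ.I1 ↔ ∀ q : ℂ × ℂ, Θ.θ q.1 ≠ 0 → Θ.ev1 q Q = 0 := by
  simp only [I1, Ideal.mem_iInf, RingHom.mem_ker]

theorem TB3_dgen1 (q : ℂ × ℂ) :
    Θ.ev1 q (Θ.dgen 1) = 6 * xf Θ.θ q.1 ^ 2 + Θ.a2 * xf Θ.θ q.1 + Θ.a1 := by
  have e : Θ.dgen 1 = 6 * X 0 ^ 2 + C Θ.a2 * X 0 + C Θ.a1 := rfl
  simp only [e, map_add, map_mul, map_pow, map_ofNat, ev1_C, ev1_X0]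

theorem TB3_gen {x : ℂ} (hx : Θ.θ x ≠ 0) (s : ℂ) (i : Fin 3) :
    HasDerivAt (fun y => Θ.ev1 (y, s) (X i)) (Θ.ev1 (x, s) (Θ.dgen i)) x := by
  fin_cases i
  · have e : Θ.dgen 0 = X 1 := rfl
    simpa only [Fin.zero_eta, e, ev1_X0, ev1_X1] using Θ.hasDerivAt_xf hx
  · simpa only [Fin.mk_one, ev1_X1, TB3_dgen1] using Θ.hasDerivAt_yf hx
  · have e : Θ.dgen 2 = -X 0 := rfl
    simpa only [Fin.reduceFinMk, e, map_neg, ev1_X0, ev1_X2] using
      (Θ.hasDerivAt_zt hx).sub_const s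

theorem hasDerivAt_ev1 (Q : P1) {x : ℂ} (hx : Θ.θ x ≠ 0) (s : ℂ) :
    HasDerivAt (fun y => Θ.ev1 (y, s) Q) (Θ.ev1 (x, s) (Θ.D1 Q)) x := by
  induction Q using MvPolynomial.induction_on with
  | C c =>
    simp only [ev1_C, derivation_C, map_zero]
    exact hasDerivAt_const x c
  | add p q hp hq =>
    simp only [map_add]
    exact hp.add hq
  | mul_X p i hp =>
    have h := hp.mul (Θ.TB3_gen hx s i)
    simp only [Derivation.leibniz, smul_eq_mul, map_add, map_mul]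
    refine h.congr_deriv ?_
    rw [D1, mkDerivation_X]
    ring

theorem analyticAt_ev1 (Q : P1) {x : ℂ} (hx : Θ.θ x ≠ 0) (s : ℂ) :
    AnalyticAt ℂ (fun y => Θ.ev1 (y, s) Q) x := by
  induction Q using MvPolynomial.induction_on with
  | C c =>
    simp only [ev1_C]
    exact analyticAt_const
  | add p q hp hq =>
    simp only [map_add]
    exact hp.add hq
  | mul_X p i hp =>
    simp only [map_mul]
    refine hp.mul ?_
    fin_cases i
    · simpa only [Fin.zero_eta, ev1_X0] using Θ.analyticAt_xf hx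
    · simpa only [Fin.mk_one, ev1_X1] using Θ.analyticAt_yf hx
    · simp only [Fin.reduceFinMk, ev1_X2]
      exact (Θ.analyticAt_zt hx).sub analyticAt_const

theorem iteratedDeriv_ev1 (Q : P1) {x : ℂ} (hx : Θ.θ x ≠ 0) (s : ℂ) (j : ℕ) :
    iteratedDeriv j (fun y => Θ.ev1 (y, s) Q) x = Θ.ev1 (x, s) ((⇑Θ.D1)^[j] Q) := by
  induction j generalizing Q with
  | zero => rfl
  | succ j ih =>
    have he : deriv (fun y => Θ.ev1 (y, s) Q) =ᶠ[𝓝 x] fun y => Θ.ev1 (y, s) (Θ.D1 Q) := by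
      filter_upwards [Θ.eventually_ne_of_ne hx] with y hy
      exact (Θ.hasDerivAt_ev1 Q hy s).deriv
    rw [iteratedDeriv_succ', he.iteratedDeriv_eq j, ih, Function.iterate_succ_apply]

theorem crd_lat {x : ℂ} (hx : Θ.θ x ≠ 0) (s : ℂ) (k l : ℤ) :
    Θ.crd (x + ((k : ℂ) * Θ.ω + (l : ℂ) * Θ.ω'), s - (l : ℂ) * Θ.ν) = Θ.crd (x, s) := by
  unfold crd
  simp only [Θ.xf_lat hx, Θ.yf_lat hx, Θ.zt_lat hx, sub_sub_sub_cancel_right]

theorem add_xf {x u : ℂ} (hx : Θ.θ x ≠ 0) (hu : Θ.θ u ≠ 0) (hxu : Θ.θ (x + u) ≠ 0) :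
    yf Θ.θ x * (yf Θ.θ x - yf Θ.θ u) +
      2 * (xf Θ.θ x - xf Θ.θ u) ^ 2 * (xf Θ.θ x - xf Θ.θ (x + u)) =
      (6 * xf Θ.θ x ^ 2 + Θ.a2 * xf Θ.θ x + Θ.a1) * (xf Θ.θ x - xf Θ.θ u) := by
  have hX := Θ.hasDerivAt_xf hx
  have hY := Θ.hasDerivAt_yf hx
  have hZ := Θ.hasDerivAt_zt hx
  have hZ' : HasDerivAt (fun y => zt Θ.θ (y + u)) (-xf Θ.θ (x + u)) x :=
    (Θ.hasDerivAt_zt hxu).comp_add_const x u
  have h1 := ((hX.const_sub (xf Θ.θ u)).const_mul 2).mul ((hZ'.sub hZ).sub_const (zt Θ.θ u))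
  have h2 := hY.const_sub (yf Θ.θ u)
  have hc : ∀ᶠ y in 𝓝 x, Θ.θ (y + u) ≠ 0 :=
    ((continuous_id.add continuous_const).tendsto x).eventually (Θ.eventually_ne_of_ne hxu)
  have h3 := h1.unique (h2.congr_of_eventuallyEq (by
    filter_upwards [Θ.eventually_ne_of_ne hx, hc] with y hy hy'
    exact Θ.add_zt hy hu hy'))
  have h4 := Θ.add_zt hx hu hxu
  simp only [Pi.sub_apply] at h3
  linear_combination (xf Θ.θ u - xf Θ.θ x) * h3 + yf Θ.θ x * h4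

theorem ev1_hU {u : ℂ} (hu : Θ.θ u ≠ 0) (q : ℂ × ℂ) :
    Θ.ev1 q (Θ.hU u) = Θ.θ u ^ 2 * (xf Θ.θ u - xf Θ.θ q.1) := by
  simp only [hU, map_sub, map_mul, ev1_C, ev1_X0]
  rw [← Θ.sq_mul_xf hu]
  ring

theorem TB3_nA {u : ℂ} (hu : Θ.θ u ≠ 0) :
    deriv (nA Θ.θ) u = 2 * Θ.θ u * deriv Θ.θ u * xf Θ.θ u + Θ.θ u ^ 2 * yf Θ.θ u := by
  have h1 := Θ.cube_mul_yf hu
  have h2 := Θ.sq_mul_xf hu
  unfold nB at h1
  apply mul_left_cancel₀ hu
  linear_combination -h1 - 2 * deriv Θ.θ u * h2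

theorem ev1_zU {x u : ℂ} (hx : Θ.θ x ≠ 0) (hu : Θ.θ u ≠ 0) (hxu : Θ.θ (x + u) ≠ 0) (s : ℂ) :
    Θ.ev1 (x, s) (Θ.zU u) = Θ.ev1 (x, s) (Θ.hU u) * (zt Θ.θ (x + u) - s) := by
  have h1 := Θ.add_zt hx hu hxu
  have h2 := Θ.mul_zt hu
  have h3 := Θ.TB3_nA hu
  simp only [zU, map_sub, map_add, map_mul, ev1_C, ev1_X0, ev1_X1, ev1_X2, Θ.ev1_hU hu]
  rw [h3, ← h2]
  linear_combination (-(Θ.θ u ^ 2 / 2)) * h1

theorem ev1_xU {x u : ℂ} (hx : Θ.θ x ≠ 0) (hu : Θ.θ u ≠ 0) (hxu : Θ.θ (x + u) ≠ 0) (s : ℂ) :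
    Θ.ev1 (x, s) (Θ.xU u) = Θ.ev1 (x, s) (Θ.hU u) ^ 2 * xf Θ.θ (x + u) := by
  have h1 := Θ.add_xf hx hu hxu
  simp only [xU, map_sub, map_add, map_mul, map_pow, ev1_C, ev1_X0, ev1_X1, Θ.ev1_hU hu,
    TB3_dgen1]
  rw [← Θ.cube_mul_yf hu]
  linear_combination (Θ.θ u ^ 4 / 2) * h1

theorem TB3_add {p q : P1} {n : ℕ} (hp : p.totalDegree ≤ n) (hq : q.totalDegree ≤ n) :
    (p + q).totalDegree ≤ n := (totalDegree_add p q).trans (max_le hp hq)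

theorem TB3_sub {p q : P1} {n : ℕ} (hp : p.totalDegree ≤ n) (hq : q.totalDegree ≤ n) :
    (p - q).totalDegree ≤ n := (totalDegree_sub p q).trans (max_le hp hq)

theorem TB3_mul {p q : P1} {m n : ℕ} (hp : p.totalDegree ≤ m) (hq : q.totalDegree ≤ n) :
    (p * q).totalDegree ≤ m + n := (totalDegree_mul p q).trans (add_le_add hp hq)

theorem TB3_sq {p : P1} (hp : p.totalDegree ≤ 1) : (p ^ 2).totalDegree ≤ 2 :=
  (totalDegree_pow p 2).trans (by omega)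

theorem TB3_C (c : ℂ) : (C c : P1).totalDegree ≤ 0 := (totalDegree_C c).le

theorem TB3_X (i : Fin 3) : (X i : P1).totalDegree ≤ 1 := (totalDegree_X i).le

theorem totalDegree_hU (u : ℂ) : (Θ.hU u).totalDegree ≤ 1 := by
  exact TB3_sub ((TB3_C _).trans (by norm_num)) (TB3_mul (TB3_C _) (TB3_X 0))

theorem totalDegree_zU (u : ℂ) : (Θ.zU u).totalDegree ≤ 2 := by
  exact TB3_sub (TB3_sub (TB3_add (TB3_mul (Θ.totalDegree_hU u) (TB3_X 2))
    ((TB3_C _).trans (by norm_num))) ((TB3_mul (TB3_C _) (TB3_X 0)).trans (by norm_num)))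
    ((TB3_mul (TB3_C _) (TB3_X 1)).trans (by norm_num))

theorem totalDegree_xU (u : ℂ) : (Θ.xU u).totalDegree ≤ 3 := by
  have hh := Θ.totalDegree_hU u
  have h6 : (6 : P1).totalDegree ≤ 0 := by
    rw [← map_ofNat (C : ℂ →+* P1) 6]
    exact TB3_C _
  have hd : (Θ.dgen 1).totalDegree ≤ 2 :=
    TB3_add (TB3_add (TB3_mul h6 (TB3_sq (TB3_X 0)))
      ((TB3_mul (TB3_C _) (TB3_X 0)).trans (by norm_num))) ((TB3_C _).trans (by norm_num))
  exact TB3_sub (TB3_add (TB3_add (TB3_mul (TB3_sq hh) (TB3_X 0))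
    (TB3_mul (TB3_mul (TB3_C _) hh) hd))
    ((TB3_mul (TB3_C _) (TB3_sq (TB3_X 1))).trans (by norm_num)))
    ((TB3_mul (TB3_C _) (TB3_X 1)).trans (by norm_num))

theorem cubic_e0 : 4 * Θ.e0 ^ 3 + Θ.a2 * Θ.e0 ^ 2 + 2 * Θ.a1 * Θ.e0 + Θ.a0 = 0 := by
  have h := Θ.ode _ Θ.θ_half
  rw [Θ.yf_half] at h
  unfold e0
  linear_combination -h

theorem TB3_ne {x : ℂ} (hx : Θ.θ x ≠ 0) (hx' : Θ.θ (x + Θ.ω / 2) ≠ 0) :
    xf Θ.θ x - Θ.e0 ≠ 0 := by
  intro h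
  rcases (Θ.xf_eq_iff hx Θ.θ_half).1 (sub_eq_zero.1 h) with h1 | h1
  · exact hx' h1
  · apply hx'
    rw [show x + Θ.ω / 2 = x - Θ.ω / 2 + Θ.ω by ring, Θ.per, h1, neg_zero]

theorem half_period {x : ℂ} (hx : Θ.θ x ≠ 0) (hx' : Θ.θ (x + Θ.ω / 2) ≠ 0) :
    (xf Θ.θ x - Θ.e0) * (xf Θ.θ (x + Θ.ω / 2) - Θ.e0) = Θ.k0 := by
  have h1 := Θ.add_xf hx Θ.θ_half hx'
  have h2 := Θ.ode x hx
  have h3 := Θ.cubic_e0
  rw [Θ.yf_half] at h1
  apply mul_left_cancel₀ (Θ.TB3_ne hx hx')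
  unfold k0
  unfold e0 at h3 ⊢
  linear_combination (-1 / 2 : ℂ) * h1 + (1 / 2 : ℂ) * h2 + (1 / 2 : ℂ) * h3

theorem k0_ne : Θ.k0 ≠ 0 := by
  have hc : ∀ᶠ y in 𝓝 (0 : ℂ), Θ.θ (y + Θ.ω / 2) ≠ 0 :=
    ((continuous_id.add continuous_const).tendsto 0).eventually
      (Θ.eventually_ne_of_ne (by simpa using Θ.θ_half))
  obtain ⟨x, h1, h2⟩ := ((Θ.eventually_ne 0).and (hc.filter_mono nhdsWithin_le_nhds)).exists
  rw [← Θ.half_period h1 h2]
  refine mul_ne_zero (Θ.TB3_ne h1 h2) (Θ.TB3_ne h2 ?_)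
  rw [show x + Θ.ω / 2 + Θ.ω / 2 = x + Θ.ω by ring, Θ.per]
  exact neg_ne_zero.2 h1

end Theta

end Pool.Agent.E21
end

-- merged part: Pool.Agent.Work.MP_e21d36_nt.TB4
section
/-!
# Torsion points, two factors, chain rule along leaves

Plan.  `pt_good`: if `ω/2 + (kω + lω')/N = k'ω + l'ω'` then `lat_inj` gives
`N + 2k = 2 N k'`, impossible for odd `N`.  `crd_pt_congr`: `crd_lat`.
`pt_sep`: `xy_inj`, `zero_iff`, `lat_inj`.  `exists_fin`: `k = k % N + N (k / N)`.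
`hasDerivAt_ev2`: as `hasDerivAt_ev1`; on a variable `(i, j)` use
`ev2_rename` and `hasDerivAt_ev1` for `X j`.  `auxF_eq`, `auxB_eq_zero`: the monomials are
`monomial (Finsupp.equivFunOnFinite.symm ..) 1`, look at one coefficient.
-/

namespace Pool.Agent.E21

open Filter Topology MvPolynomial

namespace Theta

variable (Θ : Theta)

theorem TB4_int (a b : ℤ) (h : (a : ℂ) * Θ.ω + (b : ℂ) * Θ.ω' = 0) : a = 0 ∧ b = 0 := by
  have e := Θ.toPreTheta.lat_inj (a : ℝ) (b : ℝ) (by simpa using h)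
  exact ⟨by exact_mod_cast e.1, by exact_mod_cast e.2⟩

theorem TB4_ne {N : ℕ} (hN : Odd N) : (N : ℂ) ≠ 0 := by
  have := hN.pos
  exact_mod_cast this.ne'

theorem pt_good {N : ℕ} (hN : Odd N) (k l : ℤ) : Θ.θ (Θ.pt N k l).1 ≠ 0 := by
  intro h
  obtain ⟨k', l', h⟩ := (Θ.zero_iff _).1 h
  have hd := div_mul_cancel₀ ((k : ℂ) * Θ.ω + (l : ℂ) * Θ.ω') (TB4_ne hN)
  simp only [pt] at h
  have e := (Θ.TB4_int (N + 2 * k - 2 * N * k') (2 * l - 2 * N * l') (by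
    push_cast
    linear_combination 2 * (N : ℂ) * h - 2 * hd)).1
  obtain ⟨m, hm⟩ := hN
  have e2 : (2 : ℤ) * (m + k - N * k') + 1 = 0 := by
    rw [← e, hm]
    push_cast
    ring
  omega

theorem crd_pt_congr {N : ℕ} (hN : Odd N) {k l k' l' : ℤ} (hk : (N : ℤ) ∣ k - k')
    (hl : (N : ℤ) ∣ l - l') : Θ.crd (Θ.pt N k l) = Θ.crd (Θ.pt N k' l') := by
  obtain ⟨a, ha⟩ := hk
  obtain ⟨b, hb⟩ := hl
  have hN0 := TB4_ne hN
  have e1 : k = k' + N * a := by linarith only [ha]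
  have e2 : l = l' + N * b := by linarith only [hb]
  have e : Θ.pt N k l = ((Θ.pt N k' l').1 + ((a : ℂ) * Θ.ω + (b : ℂ) * Θ.ω'),
      (Θ.pt N k' l').2 - (b : ℂ) * Θ.ν) := by
    rw [e1, e2]
    refine Prod.ext ?_ ?_
    · simp only [pt]
      push_cast
      field_simp
      ring
    · simp only [pt]
      push_cast
      field_simp
      ring
  rw [e, Θ.crd_lat (Θ.pt_good hN k' l')]

theorem pt_sep {N : ℕ} (hN : Odd N) {k l k' l' : ℤ}
    (h1 : xf Θ.θ (Θ.pt N k l).1 = xf Θ.θ (Θ.pt N k' l').1)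
    (h2 : yf Θ.θ (Θ.pt N k l).1 = yf Θ.θ (Θ.pt N k' l').1) :
    (N : ℤ) ∣ k - k' ∧ (N : ℤ) ∣ l - l' := by
  obtain ⟨a, b, h⟩ := (Θ.zero_iff _).1
    (Θ.toPreTheta.xy_inj (Θ.pt_good hN k l) (Θ.pt_good hN k' l') h1 h2)
  have hd := div_mul_cancel₀ ((k : ℂ) * Θ.ω + (l : ℂ) * Θ.ω') (TB4_ne hN)
  have hd' := div_mul_cancel₀ ((k' : ℂ) * Θ.ω + (l' : ℂ) * Θ.ω') (TB4_ne hN)
  simp only [pt] at h
  have e := Θ.TB4_int (k - k' - N * a) (l - l' - N * b) (by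
    push_cast
    linear_combination (N : ℂ) * h - hd + hd')
  exact ⟨⟨a, by linarith only [e, e.1]⟩, ⟨b, by linarith only [e, e.2]⟩⟩

theorem exists_fin {N : ℕ} (hN : Odd N) (k l : ℤ) : ∃ κ : Fin N × Fin N,
    Θ.crd (Θ.pt N k l) = Θ.crd (Θ.pt N (κ.1 : ℕ) (κ.2 : ℕ)) := by
  have hp : (0 : ℤ) < N := by exact_mod_cast hN.pos
  have a : ∀ k : ℤ, ∃ j : Fin N, (N : ℤ) ∣ k - ((j : ℕ) : ℤ) := fun k => by
    have h0 := Int.emod_nonneg k hp.ne'
    have h1 := Int.emod_lt_of_pos k hp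
    refine ⟨⟨(k % N).toNat, by omega⟩, k / N, ?_⟩
    have h2 := Int.mul_ediv_add_emod k N
    simp only [Int.toNat_of_nonneg h0]
    linarith only [h2]
  obtain ⟨i, hi⟩ := a k
  obtain ⟨j, hj⟩ := a l
  exact ⟨(i, j), Θ.crd_pt_congr hN hi hj⟩

theorem pt_sep_fin {N : ℕ} (hN : Odd N) {κ κ' : Fin N × Fin N}
    (h1 : xf Θ.θ (Θ.pt N (κ.1 : ℕ) (κ.2 : ℕ)).1 = xf Θ.θ (Θ.pt N (κ'.1 : ℕ) (κ'.2 : ℕ)).1)
    (h2 : yf Θ.θ (Θ.pt N (κ.1 : ℕ) (κ.2 : ℕ)).1 = yf Θ.θ (Θ.pt N (κ'.1 : ℕ) (κ'.2 : ℕ)).1) :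
    κ = κ' := by
  obtain ⟨e1, e2⟩ := Θ.pt_sep hN h1 h2
  have a : ∀ i j : Fin N, (N : ℤ) ∣ ((i : ℕ) : ℤ) - ((j : ℕ) : ℤ) → i = j := fun i j h => by
    have b1 := i.2
    have b2 := j.2
    have e := Int.eq_zero_of_abs_lt_dvd h (abs_lt.2 ⟨by omega, by omega⟩)
    exact Fin.ext (by omega)
  exact Prod.ext (a _ _ e1) (a _ _ e2)

theorem crd_half : Θ.crd (Θ.ω / 2, 0) = ![Θ.e0, 0, 0] := by
  simp only [crd, e0, Θ.toPreTheta.yf_half, Θ.toPreTheta.zt_half, sub_zero]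

end Theta

/-- The auxiliary polynomial in four variables. -/
noncomputable def auxB {D : ℕ} (c : (Fin 2 × Fin 2 → Fin D) → ℂ) : PB :=
  ∑ l, C (c l) * ∏ v, X v ^ (l v : ℕ)

theorem auxF_eq {D : ℕ} (c : (Fin 2 × Fin 2 → Fin D) → ℂ) : auxF c = rename emb (auxB c) := by
  simp only [auxF, auxB, monoB, map_sum, map_mul, map_prod, map_pow, rename_C, rename_X]

theorem auxB_eq_zero {D : ℕ} (c : (Fin 2 × Fin 2 → Fin D) → ℂ) (h : auxB c = 0) : c = 0 := by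
  classical
  have a : ∀ l : Fin 2 × Fin 2 → Fin D, (C (c l) * ∏ v, X v ^ (l v : ℕ) : PB) =
      monomial (Finsupp.equivFunOnFinite.symm fun v => (l v : ℕ)) (c l) := fun l => by
    rw [monomial_eq, Finsupp.prod_fintype _ _ (fun _ => pow_zero _)]
    rfl
  funext l
  have e := congrArg (coeff (Finsupp.equivFunOnFinite.symm fun v => (l v : ℕ))) h
  simp only [auxB, a, coeff_sum, coeff_monomial, coeff_zero] at e
  rw [Finset.sum_eq_single l, if_pos rfl] at e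
  · exact e
  · intro m _ hm
    refine if_neg fun k => hm ?_
    have k1 := Finsupp.equivFunOnFinite.symm.injective k
    exact funext fun v => Fin.ext (congrFun k1 v)
  · exact fun k => absurd (Finset.mem_univ l) k

namespace Pair

variable (W : Pair)

theorem mem_I2 (Q : P2) : Q ∈ W.I2 ↔ ∀ p, W.Good p → W.ev2 p Q = 0 := by
  simp only [I2, Ideal.mem_iInf, RingHom.mem_ker]

theorem ev2_rename (p : Fin 2 → ℂ × ℂ) (i : Fin 2) (Q : P1) :
    W.ev2 p (rename (Prod.mk i) Q) = (W.Θ i).ev1 (p i) Q := by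
  rw [ev2, aeval_rename]
  rfl

theorem rename_mem_I2 (i : Fin 2) {Q : P1} (h : Q ∈ (W.Θ i).I1) :
    rename (Prod.mk i) Q ∈ W.I2 := by
  rw [W.mem_I2]
  intro p hp
  rw [W.ev2_rename]
  exact ((W.Θ i).mem_I1 Q).1 h _ (hp i)

theorem mv_zero (p : Fin 2 → ℂ × ℂ) : mv p 0 = p := by
  funext i
  simp only [mv, add_zero]

theorem eventually_good {p : Fin 2 → ℂ × ℂ} {z : ℂ} (h : W.Good (mv p z)) :
    ∀ᶠ w in 𝓝 z, W.Good (mv p w) := by
  refine Filter.eventually_all.2 fun i => ?_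
  have t : Tendsto (fun w : ℂ => (p i).1 + w) (𝓝 z) (𝓝 ((p i).1 + z)) :=
    (continuous_const.add continuous_id).tendsto z
  exact t.eventually ((W.Θ i).toPreTheta.eventually_ne_of_ne (h i))

theorem eventually_good' (p : Fin 2 → ℂ × ℂ) (z : ℂ) : ∀ᶠ w in 𝓝[≠] z, W.Good (mv p w) := by
  refine Filter.eventually_all.2 fun i => ?_
  have t : Tendsto (fun w : ℂ => (p i).1 + w) (𝓝[≠] z) (𝓝[≠] ((p i).1 + z)) := by
    refine tendsto_nhdsWithin_iff.2 ⟨((continuous_const.add continuous_id).tendsto z).mono_left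
      nhdsWithin_le_nhds, ?_⟩
    filter_upwards [self_mem_nhdsWithin] with w hw
    exact fun k => hw (add_left_cancel (Set.mem_singleton_iff.1 k))
  exact t.eventually ((W.Θ i).toPreTheta.eventually_ne _)

theorem hasDerivAt_ev2 (Q : P2) {p : Fin 2 → ℂ × ℂ} {z : ℂ} (h : W.Good (mv p z)) :
    HasDerivAt (fun w => W.ev2 (mv p w) Q) (W.ev2 (mv p z) (W.D2 Q)) z := by
  induction Q using MvPolynomial.induction_on with
  | C a =>
    have e : W.D2 (C a) = 0 := W.D2.map_algebraMap a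
    rw [e, map_zero]
    simp only [ev2, aeval_C]
    exact hasDerivAt_const _ _
  | add P Q hP hQ =>
    simp only [map_add]
    exact hP.add hQ
  | mul_X P v hP =>
    obtain ⟨i, j⟩ := v
    have hx : HasDerivAt (fun w => W.ev2 (mv p w) (X (i, j))) (W.ev2 (mv p z) (W.D2 (X (i, j)))) z := by
      have e1 : ∀ w, W.ev2 (mv p w) (X (i, j)) = (W.Θ i).ev1 ((p i).1 + w, (p i).2) (X j) :=
        fun w => by
          rw [← rename_X (Prod.mk i) j, W.ev2_rename]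
          rfl
      have e2 : W.ev2 (mv p z) (W.D2 (X (i, j))) =
          (W.Θ i).ev1 ((p i).1 + z, (p i).2) ((W.Θ i).D1 (X j)) := by
        rw [D2, mkDerivation_X, Theta.D1, mkDerivation_X, W.ev2_rename]
        rfl
      simp only [e1, e2]
      exact ((W.Θ i).hasDerivAt_ev1 (X j) (h i) (p i).2).comp_const_add (p i).1 z
    rw [Derivation.leibniz]
    simp only [map_mul, map_add, smul_eq_mul]
    refine (hP.mul hx).congr_deriv ?_
    ring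

theorem analyticAt_ev2 (Q : P2) {p : Fin 2 → ℂ × ℂ} {z : ℂ} (h : W.Good (mv p z)) :
    AnalyticAt ℂ (fun w => W.ev2 (mv p w) Q) z := by
  refine Complex.analyticAt_iff_eventually_differentiableAt.2 ?_
  filter_upwards [W.eventually_good h] with w hw
  exact (W.hasDerivAt_ev2 Q hw).differentiableAt

theorem iteratedDeriv_ev2 (Q : P2) {p : Fin 2 → ℂ × ℂ} {z : ℂ} (h : W.Good (mv p z)) (j : ℕ) :
    iteratedDeriv j (fun w => W.ev2 (mv p w) Q) z = W.ev2 (mv p z) ((⇑W.D2)^[j] Q) := by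
  induction j generalizing Q with
  | zero => rfl
  | succ j ih =>
    rw [iteratedDeriv_succ', Function.iterate_succ_apply, ← ih]
    refine Filter.EventuallyEq.iteratedDeriv_eq j ?_
    filter_upwards [W.eventually_good h] with w hw
    exact (W.hasDerivAt_ev2 Q hw).deriv

theorem D2_mem_I2 {Q : P2} (h : Q ∈ W.I2) : W.D2 Q ∈ W.I2 := by
  rw [W.mem_I2] at h ⊢
  intro p hp
  have hp' : W.Good (mv p 0) := by rwa [mv_zero]
  have h1 := W.hasDerivAt_ev2 Q hp'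
  rw [mv_zero] at h1
  refine h1.unique ((hasDerivAt_const (0 : ℂ) (0 : ℂ)).congr_of_eventuallyEq ?_)
  filter_upwards [W.eventually_good hp'] with w hw
  exact h _ hw

theorem pt2_good {N : ℕ} (hN : Odd N) (κ : Fin 2 → ℤ × ℤ) : W.Good (W.pt2 N κ) := by
  exact fun i => (W.Θ i).pt_good hN _ _

theorem ptF_good {N : ℕ} (hN : Odd N) (κ : Fin 2 → Fin N × Fin N) : W.Good (W.ptF N κ) := by
  exact W.pt2_good hN _

theorem exists_ptF {N : ℕ} (hN : Odd N) (κ : Fin 2 → ℤ × ℤ) :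
    ∃ κ' : Fin 2 → Fin N × Fin N, W.ev2 (W.pt2 N κ) = W.ev2 (W.ptF N κ') := by
  choose κ' h using fun i => (W.Θ i).exists_fin hN (κ i).1 (κ i).2
  refine ⟨κ', ?_⟩
  have e : W.val (W.pt2 N κ) = W.val (W.ptF N κ') := funext fun v => congrFun (h v.1) v.2
  rw [ev2, ev2, e]

theorem ptF_inj {N : ℕ} (hN : Odd N) :
    Function.Injective fun κ : Fin 2 → Fin N × Fin N => W.ev2 (W.ptF N κ) := by
  intro κ κ' h
  funext i
  have e : ∀ j, W.val (W.ptF N κ) (i, j) = W.val (W.ptF N κ') (i, j) := fun j => by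
    have k := DFunLike.congr_fun h (X (i, j))
    simpa only [ev2, aeval_X] using k
  exact (W.Θ i).pt_sep_fin hN (e 0) (e 1)

/-- Moving by `k ω / N` along a leaf permutes the points. -/
theorem mv_pt2 {N : ℕ} (κ : Fin 2 → ℤ × ℤ) (k : ℤ) :
    mv (W.pt2 N κ) ((k : ℂ) * (W.Θ 0).ω / N) = W.pt2 N fun i => ((κ i).1 + k, (κ i).2) := by
  funext i
  have e : (W.Θ 0).ω = (W.Θ i).ω := by
    fin_cases i
    · rfl
    · exact W.hω.symm
  rw [e]
  refine Prod.ext ?_ rfl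
  simp only [mv, pt2, Theta.pt]
  push_cast
  ring

end Pair

end Pool.Agent.E21
end

-- merged part: Pool.Agent.Work.MP_e21d36_nt.H0
section
/-!
# Normal form modulo `I2` and the Hilbert function bound

Plan.  `ode_mem`: the Weierstrass relation lies in `I2` (`ode`).
`nf_exists`: `MvPolynomial.induction_on`; multiplying by `X (i,0)`, `X (i,2)` changes the `b e`,
multiplying by `X (i,1)` uses the relation (write the four components explicitly; it may be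
easier to show that the `PB`-submodule (through `rename emb`) spanned by the four monomials
plus `I2` is stable under multiplication by every variable).
`nf_unique`: for a good point `p` and each factor `i` the point with `(x, s)` replaced by
`(-x, s - 2 zt x)` is good, has the same `X`, `Z` and the opposite `Y` (`zt_neg`, `xf_neg`,
`yf_neg`); so each term `b e * Y^e` vanishes at all good points; when both `Y` are nonzero,
`b e` vanishes at `(X1, Z1, X2, Z2)`, where `X_i` runs over an infinite set (`xf_infinite`) and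
`Z_i` is arbitrary; conclude by `MvPolynomial.funext_set`.
`hilbert_bound`: let `V w` be the span in `P2 ⧸ I2` of the classes of the monomials
`∏ i, X(i,0)^a i * X(i,1)^e i * X(i,2)^b i` with `e i ≤ 1` and weight
`∑ (2 a i + 3 e i + b i) ≤ w`.  Multiplication by a variable maps `V w` into `V (w+3)`, so a
monomial of degree `n` lies in `V (3n)` (induction), `restrictTotalDegree` maps into `V (3n)`,
and `V w` is spanned by at most `4 (w+1)^4` elements (`finrank_span_le_card`,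
`finrank_range_le_card`); `4 (3n+1)^4 ≤ 324 (n+1)^4`.
-/

namespace Pool.Agent.E21

open MvPolynomial

/-- The monomial with exponent function `d`. -/
noncomputable def H0_M (d : Fin 2 × Fin 3 → ℕ) : P2 := ∏ v, X v ^ d v

theorem H0_M_add (d d' : Fin 2 × Fin 3 → ℕ) : H0_M (d + d') = H0_M d * H0_M d' := by
  simp only [H0_M, Pi.add_apply, pow_add, Finset.prod_mul_distrib]

theorem H0_M_single (v : Fin 2 × Fin 3) (k : ℕ) : H0_M (Pi.single v k) = X v ^ k := by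
  rw [H0_M, Finset.prod_eq_single v]
  · simp
  · intro u _ hu
    simp [Pi.single_eq_of_ne hu]
  · simp

/-- The weight of a monomial. -/
def H0_wt (d : Fin 2 × Fin 3 → ℕ) : ℕ := ∑ i : Fin 2, (2 * d (i, 0) + 3 * d (i, 1) + d (i, 2))

/-- The reduced monomials in a box. -/
noncomputable def H0_g (w : ℕ) (x : (Fin 2 → Fin 2) × (Fin 2 × Fin 2 → Fin (w + 1))) : P2 :=
  monoB x.2 * ∏ i, X (i, 1) ^ (x.1 i : ℕ)

theorem H0_base {w : ℕ} {d : Fin 2 × Fin 3 → ℕ} (h : ∀ i, d (i, 1) ≤ 1) (hw : H0_wt d ≤ w) :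
    H0_M d ∈ Set.range (H0_g w) := by
  have h1 : ∀ v, d (emb v) < w + 1 := by
    rintro ⟨i, j⟩
    simp only [H0_wt, Fin.sum_univ_two] at hw
    fin_cases i <;> fin_cases j <;> simp [emb] <;> omega
  refine ⟨(fun i => ⟨d (i, 1), Nat.lt_succ_of_le (h i)⟩, fun v => ⟨d (emb v), h1 v⟩), ?_⟩
  simp only [H0_g, monoB, H0_M, Fintype.prod_prod_type, Fin.prod_univ_two, Fin.prod_univ_three,
    emb, Matrix.cons_val_zero, Matrix.cons_val_one]
  ring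

theorem H0_sum {R : Type} [AddCommMonoid R] (f : (Fin 2 → Fin 2) → R) :
    ∑ e, f e = f ![0, 0] + f ![0, 1] + (f ![1, 0] + f ![1, 1]) := by
  rw [← (finTwoArrowEquiv (Fin 2)).symm.sum_comp, Fintype.sum_prod_type]
  simp only [Fin.sum_univ_two]
  rfl

/-- The normal forms. -/
noncomputable def H0_L : ((Fin 2 → Fin 2) → PB) →ₗ[ℂ] P2 where
  toFun b := ∑ e, rename emb (b e) * ∏ i, X (i, 1) ^ (e i : ℕ)
  map_add' b b' := by simp only [Pi.add_apply, map_add, add_mul, Finset.sum_add_distrib]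
  map_smul' c b := by
    simp only [Pi.smul_apply, map_smul, smul_mul_assoc, RingHom.id_apply, Finset.smul_sum]

theorem H0_g_mem (w : ℕ) (x : (Fin 2 → Fin 2) × (Fin 2 × Fin 2 → Fin (w + 1))) :
    H0_g w x ∈ LinearMap.range H0_L := by
  refine ⟨Pi.single x.1 (∏ v, X v ^ (x.2 v : ℕ)), ?_⟩
  change ∑ e, rename emb ((Pi.single x.1 (∏ v, X v ^ (x.2 v : ℕ)) : _ → PB) e) *
    ∏ i, X (i, 1) ^ (e i : ℕ) = _
  rw [Finset.sum_eq_single x.1]
  · simp [H0_g, monoB]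
  · intro u _ hu
    simp [Pi.single_eq_of_ne hu]
  · simp

namespace Pair

variable (W : Pair)

theorem ode_mem (i : Fin 2) : X (i, 1) ^ 2 - (4 * X (i, 0) ^ 3 + C (W.Θ i).a2 * X (i, 0) ^ 2 +
    C (2 * (W.Θ i).a1) * X (i, 0) + C (W.Θ i).a0) ∈ W.I2 := by
  rw [mem_I2]
  intro p hp
  have h := (W.Θ i).ode _ (hp i)
  simp only [ev2, map_sub, map_add, map_mul, map_pow, aeval_X, aeval_C, val, Theta.crd,
    Matrix.cons_val_zero, Matrix.cons_val_one, map_ofNat, Algebra.algebraMap_self,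
    RingHom.id_apply]
  linear_combination h

/-- Reduced monomials in a box, modulo the ideal. -/
noncomputable def H0_V (w : ℕ) : Submodule ℂ P2 :=
  Submodule.span ℂ (Set.range (H0_g w)) ⊔ W.I2.restrictScalars ℂ

theorem H0_M_mem (w n : ℕ) : ∀ d : Fin 2 × Fin 3 → ℕ, d (0, 1) + d (1, 1) = n → H0_wt d ≤ w →
    H0_M d ∈ W.H0_V w := by
  induction n using Nat.strong_induction_on with
  | _ n ih =>
  intro d hn hw
  by_cases h : ∀ i, d (i, 1) ≤ 1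
  · exact Submodule.mem_sup_left (Submodule.subset_span (H0_base h hw))
  push Not at h
  obtain ⟨i, hi⟩ := h
  obtain ⟨d', rfl⟩ : ∃ d' : Fin 2 × Fin 3 → ℕ, d = d' + Pi.single (i, 1) 2 := by
    refine ⟨d - Pi.single (i, 1) 2, funext fun v => ?_⟩
    by_cases hv : v = (i, 1)
    · subst hv
      simp only [Pi.add_apply, Pi.sub_apply, Pi.single_eq_same]
      omega
    · simp [Pi.single_eq_of_ne hv]
  have k : ∀ k ≤ 3, H0_M d' * X (i, 0) ^ k ∈ W.H0_V w := by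
    intro k hk
    rw [← H0_M_single, ← H0_M_add]
    refine ih _ ?_ _ rfl ?_
    · rw [← hn]
      fin_cases i <;> simp
    · refine le_trans ?_ hw
      simp only [H0_wt, Fin.sum_univ_two]
      fin_cases i <;> simp <;> omega
  have e : H0_M (d' + Pi.single (i, 1) 2) = H0_M d' * (X (i, 1) ^ 2 - (4 * X (i, 0) ^ 3 +
      C (W.Θ i).a2 * X (i, 0) ^ 2 + C (2 * (W.Θ i).a1) * X (i, 0) + C (W.Θ i).a0)) +
      ((4 : ℂ) • (H0_M d' * X (i, 0) ^ 3) + (W.Θ i).a2 • (H0_M d' * X (i, 0) ^ 2) +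
        (2 * (W.Θ i).a1) • (H0_M d' * X (i, 0) ^ 1) + (W.Θ i).a0 • (H0_M d' * X (i, 0) ^ 0)) := by
    rw [H0_M_add, H0_M_single]
    simp only [smul_eq_C_mul, map_ofNat]
    ring
  rw [e]
  refine add_mem (Submodule.mem_sup_right (W.I2.mul_mem_left _ (W.ode_mem i))) ?_
  exact add_mem (add_mem (add_mem (Submodule.smul_mem _ _ (k 3 le_rfl))
    (Submodule.smul_mem _ _ (k 2 (by norm_num)))) (Submodule.smul_mem _ _ (k 1 (by norm_num))))
    (Submodule.smul_mem _ _ (k 0 (by norm_num)))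

theorem H0_deg_mem {n : ℕ} {Q : P2} (h : Q.totalDegree ≤ n) : Q ∈ W.H0_V (3 * n) := by
  rw [Q.as_sum]
  refine sum_mem fun s hs => ?_
  have h1 := (le_totalDegree hs).trans h
  rw [Finsupp.sum_fintype _ _ fun _ => rfl] at h1
  rw [monomial_eq, Finsupp.prod_fintype _ _ fun _ => pow_zero _, ← smul_eq_C_mul]
  refine Submodule.smul_mem _ _ (W.H0_M_mem _ _ s rfl ?_)
  simp only [Fintype.sum_prod_type, Fin.sum_univ_two, Fin.sum_univ_three, H0_wt] at h1 ⊢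
  omega

theorem nf_exists (Q : P2) : ∃ b : (Fin 2 → Fin 2) → PB,
    Q - ∑ e, rename emb (b e) * ∏ i, X (i, 1) ^ (e i : ℕ) ∈ W.I2 := by
  have h1 : W.H0_V (3 * Q.totalDegree) ≤ LinearMap.range H0_L ⊔ W.I2.restrictScalars ℂ := by
    refine sup_le_sup_right (Submodule.span_le.2 ?_) _
    rintro _ ⟨x, rfl⟩
    exact H0_g_mem _ x
  obtain ⟨_, ⟨b, rfl⟩, z, hz, e⟩ := Submodule.mem_sup.1 (h1 (W.H0_deg_mem le_rfl))
  refine ⟨b, ?_⟩
  have h2 : Q - H0_L b = z := by rw [← e, add_sub_cancel_left]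
  exact h2 ▸ hz

theorem H0_eval (b : (Fin 2 → Fin 2) → PB)
    (h : ∑ e, rename emb (b e) * ∏ i, X (i, 1) ^ (e i : ℕ) ∈ W.I2) (x z : Fin 2 → ℂ)
    (hx : ∀ i, (W.Θ i).θ (x i) ≠ 0) (s : Fin 2 → ℂ) (hs : ∀ i, s i = 1 ∨ s i = -1) :
    ∑ e, eval (fun v => ![xf (W.Θ v.1).θ (x v.1), z v.1] v.2) (b e) *
      ∏ i, (s i * yf (W.Θ i).θ (x i)) ^ (e i : ℕ) = 0 := by
  let p : Fin 2 → ℂ × ℂ := fun i => (s i * x i, zt (W.Θ i).θ (s i * x i) - z i)
  have hp : W.Good p := by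
    intro i
    change (W.Θ i).θ (s i * x i) ≠ 0
    rcases hs i with e | e
    · rw [e, one_mul]
      exact hx i
    · rw [e, neg_one_mul, (W.Θ i).odd, neg_ne_zero]
      exact hx i
  have h0 : ∀ i, xf (W.Θ i).θ (s i * x i) = xf (W.Θ i).θ (x i) := by
    intro i
    rcases hs i with e | e
    · rw [e, one_mul]
    · rw [e, neg_one_mul, (W.Θ i).xf_neg]
  have h1 : ∀ i, W.val p (i, 1) = s i * yf (W.Θ i).θ (x i) := by
    intro i
    change yf (W.Θ i).θ (s i * x i) = _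
    rcases hs i with e | e
    · rw [e, one_mul, one_mul]
    · rw [e, neg_one_mul, neg_one_mul, (W.Θ i).yf_neg]
  have h2 : W.val p ∘ emb = fun v => ![xf (W.Θ v.1).θ (x v.1), z v.1] v.2 := by
    funext ⟨i, j⟩
    fin_cases j
    · exact h0 i
    · change zt (W.Θ i).θ (s i * x i) - (zt (W.Θ i).θ (s i * x i) - z i) = z i
      ring
  have h3 := (W.mem_I2 _).1 h p hp
  simp only [ev2, map_sum, map_mul, map_prod, map_pow, aeval_X, aeval_rename, h1, h2] at h3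
  exact h3

theorem nf_unique (b : (Fin 2 → Fin 2) → PB)
    (h : ∑ e, rename emb (b e) * ∏ i, X (i, 1) ^ (e i : ℕ) ∈ W.I2) : b = 0 := by
  have key : ∀ x z : Fin 2 → ℂ, (∀ i, (W.Θ i).θ (x i) ≠ 0 ∧ yf (W.Θ i).θ (x i) ≠ 0) → ∀ e,
      eval (fun v => ![xf (W.Θ v.1).θ (x v.1), z v.1] v.2) (b e) = 0 := by
    intro x z hx
    have k := W.H0_eval b h x z fun i => (hx i).1
    have k1 := k ![1, 1] (by simp [Fin.forall_fin_two])
    have k2 := k ![1, -1] (by simp [Fin.forall_fin_two])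
    have k3 := k ![-1, 1] (by simp [Fin.forall_fin_two])
    have k4 := k ![-1, -1] (by simp [Fin.forall_fin_two])
    rw [H0_sum] at k1 k2 k3 k4
    simp only [Fin.prod_univ_two, Matrix.cons_val_zero, Matrix.cons_val_one, Fin.val_zero,
      Fin.val_one, pow_zero, pow_one] at k1 k2 k3 k4
    have y0 := (hx 0).2
    have y1 := (hx 1).2
    intro e
    rw [← (finTwoArrowEquiv (Fin 2)).symm_apply_apply e]
    generalize finTwoArrowEquiv (Fin 2) e = u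
    obtain ⟨u0, u1⟩ := u
    fin_cases u0 <;> fin_cases u1
    · change eval _ (b ![0, 0]) = 0
      linear_combination (k1 + k2 + k3 + k4) / 4
    · change eval _ (b ![0, 1]) = 0
      refine mul_right_cancel₀ y1 ?_
      linear_combination (k1 - k2 + k3 - k4) / 4
    · change eval _ (b ![1, 0]) = 0
      refine mul_right_cancel₀ y0 ?_
      linear_combination (k1 + k2 - k3 - k4) / 4
    · change eval _ (b ![1, 1]) = 0
      refine mul_right_cancel₀ (mul_ne_zero y0 y1) ?_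
      linear_combination (k1 - k2 - k3 + k4) / 4
  funext e
  refine funext_set (fun v : Fin 2 × Fin 2 => ![xf (W.Θ v.1).θ ''
    {x | (W.Θ v.1).θ x ≠ 0 ∧ yf (W.Θ v.1).θ x ≠ 0}, Set.univ] v.2) ?_ fun t ht => ?_
  · rintro ⟨i, j⟩
    fin_cases j
    · exact (W.Θ i).xf_infinite
    · exact Set.infinite_univ
  · have h1 : ∀ i, ∃ x, ((W.Θ i).θ x ≠ 0 ∧ yf (W.Θ i).θ x ≠ 0) ∧ xf (W.Θ i).θ x = t (i, 0) :=
      fun i => ht (i, 0) trivial
    choose x hx1 hx2 using h1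
    have h2 : t = fun v => ![xf (W.Θ v.1).θ (x v.1), t (v.1, 1)] v.2 := by
      funext ⟨i, j⟩
      fin_cases j
      · exact (hx2 i).symm
      · rfl
    rw [h2, key x (fun i => t (i, 1)) hx1 e]
    simp

theorem hilbert_bound (n : ℕ) : (degF (Fin 2 × Fin 3)).H W.I2 n ≤ 324 * (n + 1) ^ 4 := by
  have h1 : ((degF (Fin 2 × Fin 3)).F n).map (Ideal.Quotient.mkₐ ℂ W.I2).toLinearMap ≤
      Submodule.span ℂ (Set.range (Ideal.Quotient.mkₐ ℂ W.I2 ∘ H0_g (3 * n))) := by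
    rintro _ ⟨Q, hQ, rfl⟩
    obtain ⟨y, hy, z, hz, rfl⟩ := Submodule.mem_sup.1
      (W.H0_deg_mem ((mem_restrictTotalDegree _ _ _).1 hQ))
    have h2 : (Ideal.Quotient.mkₐ ℂ W.I2).toLinearMap z = 0 := Ideal.Quotient.eq_zero_iff_mem.2 hz
    rw [map_add, h2, add_zero, Set.range_comp]
    exact Submodule.apply_mem_span_image_of_mem_span (Ideal.Quotient.mkₐ ℂ W.I2).toLinearMap hy
  have : Module.Finite ℂ
      (Submodule.span ℂ (Set.range (Ideal.Quotient.mkₐ ℂ W.I2 ∘ H0_g (3 * n)))) :=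
    Module.Finite.span_of_finite ℂ (Set.finite_range _)
  refine (Submodule.finrank_mono h1).trans ((finrank_range_le_card _).trans ?_)
  simp only [Fintype.card_prod, Fintype.card_fun, Fintype.card_fin]
  calc 2 ^ 2 * (3 * n + 1) ^ (2 * 2) ≤ 2 ^ 2 * (3 * (n + 1)) ^ (2 * 2) := by gcongr; omega
    _ = 324 * (n + 1) ^ 4 := by ring

end Pair

end Pool.Agent.E21
end

-- merged part: Pool.Agent.Work.MP_e21d36_nt.Grow
section
/-!
# Growth of theta functions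

Plan.  `growth_θ`: write `z = z0 + k ω + l ω'` with `z0 = a ω + b ω'`, `a, b ∈ [0, 1)` and
`|l| ≤ C1 (‖z‖ + 1)` (the real coordinate `b + l = (z/ω).im / (ω'/ω).im`).  `‖θ (y + kω)‖ = ‖θ y‖`.
By induction on `n : ℕ`, for `‖y‖ ≤ R`:
`‖θ (y ± n ω')‖ ≤ ‖θ y‖ * exp (C2 n (R + n + 1))` from `qper` (for the minus sign use
`θ (y - ω') = κ⁻¹ exp (ν (y - ω')) θ y`, `κ_ne`), `Complex.norm_exp_le_exp_norm`.
`growth_deriv`: Cauchy estimate on the unit circle around `z`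
(`Complex.norm_deriv_le_of_forall_mem_sphere_norm_le`), `(‖z‖+1)^2 ≤ 2‖z‖^2 + 2`.
`growth`: products and sums, `2 ≤ exp 1`-type slack.
-/

namespace Pool.Agent.E21

theorem growth_deriv {f : ℂ → ℂ} (hf : Differentiable ℂ f) {C : ℝ} (hC : 0 ≤ C)
    (h : ∀ z, ‖f z‖ ≤ Real.exp (C * (‖z‖ ^ 2 + 1))) :
    ∀ z, ‖deriv f z‖ ≤ Real.exp (3 * C * (‖z‖ ^ 2 + 1)) := by
  intro z
  have := Complex.norm_deriv_le_of_forall_mem_sphere_norm_le (c := z) (R := 1)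
    (C := Real.exp (3 * C * (‖z‖ ^ 2 + 1))) one_pos hf.diffContOnCl (by
      intro w hw
      refine (h w).trans (Real.exp_le_exp.2 ?_)
      have h1 : ‖w‖ ≤ ‖z‖ + 1 := by
        have := mem_sphere_iff_norm.1 hw
        calc ‖w‖ = ‖z + (w - z)‖ := by ring_nf
          _ ≤ ‖z‖ + ‖w - z‖ := norm_add_le _ _
          _ = ‖z‖ + 1 := by rw [this]
      have h2 : ‖w‖ ^ 2 ≤ (‖z‖ + 1) ^ 2 := by gcongr
      linarith only [hC, h2, sq_nonneg (‖z‖ - 1), sq_nonneg ‖z‖, mul_nonneg hC (sq_nonneg (‖z‖ - 1)),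
        mul_le_mul_of_nonneg_left h2 hC, mul_nonneg hC (sq_nonneg ‖z‖), sq_nonneg (‖z‖ - (1 : ℝ)), sq_nonneg ‖z‖])
  simpa using this

namespace PreTheta

variable (Θ : PreTheta)

theorem Grow_step : ∃ A : ℝ, 0 ≤ A ∧ ∀ y : ℂ,
    ‖Θ.θ (y + Θ.ω')‖ ≤ ‖Θ.θ y‖ * Real.exp (A * (‖y‖ + 1)) ∧
    ‖Θ.θ (y - Θ.ω')‖ ≤ ‖Θ.θ y‖ * Real.exp (A * (‖y‖ + 1)) := by
  have hκ := Θ.κ_ne
  refine ⟨‖Θ.κ‖ + ‖Θ.κ⁻¹‖ + ‖Θ.ν‖ * (1 + ‖Θ.ω'‖), by positivity, fun y => ?_⟩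
  have e1 : ∀ a : ℝ, a ≤ Real.exp a := fun a => by linarith [Real.add_one_le_exp a]
  have hn := norm_nonneg y
  have hk := norm_nonneg Θ.κ
  have hk' := norm_nonneg Θ.κ⁻¹
  have hv := norm_nonneg Θ.ν
  have hw := norm_nonneg Θ.ω'
  constructor
  · rw [Θ.qper, norm_mul, norm_mul, mul_comm]
    gcongr
    calc ‖Θ.κ‖ * ‖Complex.exp (-(Θ.ν * y))‖ ≤ Real.exp ‖Θ.κ‖ * Real.exp (‖Θ.ν‖ * ‖y‖) := by
          gcongr
          · exact e1 _
          · refine (Complex.norm_exp_le_exp_norm _).trans ?_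
            rw [norm_neg, norm_mul]
      _ ≤ _ := by
          rw [← Real.exp_add]
          refine Real.exp_le_exp.2 ?_
          linarith only [hk', hv, hk, hn, hw, mul_nonneg hk hn, mul_nonneg hk' hn, mul_nonneg hv hw,
            mul_nonneg (mul_nonneg hv hw) hn]
  · have h1 := Θ.qper (y - Θ.ω')
    rw [sub_add_cancel] at h1
    have h2 : Θ.θ (y - Θ.ω') = Θ.κ⁻¹ * Complex.exp (Θ.ν * (y - Θ.ω')) * Θ.θ y := by
      rw [h1, Complex.exp_neg]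
      field_simp
    rw [h2, norm_mul, norm_mul, mul_comm]
    gcongr
    calc ‖Θ.κ⁻¹‖ * ‖Complex.exp (Θ.ν * (y - Θ.ω'))‖
        ≤ Real.exp ‖Θ.κ⁻¹‖ * Real.exp (‖Θ.ν‖ * (‖y‖ + ‖Θ.ω'‖)) := by
          gcongr
          · exact e1 _
          · refine (Complex.norm_exp_le_exp_norm _).trans ?_
            rw [norm_mul]
            gcongr
            exact norm_sub_le _ _
      _ ≤ _ := by
          rw [← Real.exp_add]
          refine Real.exp_le_exp.2 ?_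
          linarith only [hk, hv, hn, hk', hw, mul_nonneg hk hn, mul_nonneg hk' hn, mul_nonneg hv hw,
            mul_nonneg (mul_nonneg hv hw) hn]

theorem Grow_iter {f : ℂ → ℂ} {a : ℂ} {A : ℝ} (hA : 0 ≤ A)
    (h : ∀ y, ‖f (y + a)‖ ≤ ‖f y‖ * Real.exp (A * (‖y‖ + 1))) (y : ℂ) (n : ℕ) :
    ‖f (y + n * a)‖ ≤ ‖f y‖ * Real.exp (A * n * (‖y‖ + n * ‖a‖ + 1)) := by
  induction n with
  | zero => simp
  | succ n ih =>
    have e : y + ((n + 1 : ℕ) : ℂ) * a = y + n * a + a := by push_cast; ring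
    rw [e]
    refine (h _).trans ?_
    have h1 : ‖y + n * a‖ ≤ ‖y‖ + n * ‖a‖ := by
      refine (norm_add_le _ _).trans ?_
      rw [norm_mul, Complex.norm_natCast]
    calc ‖f (y + n * a)‖ * Real.exp (A * (‖y + n * a‖ + 1))
        ≤ ‖f y‖ * Real.exp (A * n * (‖y‖ + n * ‖a‖ + 1)) *
          Real.exp (A * (‖y‖ + n * ‖a‖ + 1)) := by gcongr
      _ ≤ _ := by
          rw [mul_assoc, ← Real.exp_add]
          gcongr
          push_cast
          have := norm_nonneg a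
          have hn : (0 : ℝ) ≤ n := Nat.cast_nonneg n
          linarith only [hA, this, hn, mul_nonneg hA this, mul_nonneg (mul_nonneg hA this) hn]

theorem Grow_per (y : ℂ) (k : ℤ) : ‖Θ.θ (y + k * Θ.ω)‖ = ‖Θ.θ y‖ := by
  induction k using Int.induction_on with
  | zero => simp
  | succ n ih =>
    have e : y + ((n + 1 : ℤ) : ℂ) * Θ.ω = y + ((n : ℤ) : ℂ) * Θ.ω + Θ.ω := by push_cast; ring
    rw [e, Θ.per, norm_neg, ih]
  | pred n ih =>
    have e : y + ((-(n : ℤ) : ℤ) : ℂ) * Θ.ω = y + ((-(n : ℤ) - 1 : ℤ) : ℂ) * Θ.ω + Θ.ω := by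
      push_cast; ring
    rw [e, Θ.per, norm_neg] at ih
    exact ih

theorem growth_θ : ∃ C : ℝ, 0 ≤ C ∧ ∀ z, ‖Θ.θ z‖ ≤ Real.exp (C * (‖z‖ ^ 2 + 1)) := by
  obtain ⟨A, hA, hstep⟩ := Θ.Grow_step
  have hω := Θ.ω_ne
  set R : ℝ := ‖Θ.ω‖ + ‖Θ.ω'‖ with hR
  have hR0 : 0 ≤ R := by positivity
  obtain ⟨B, hB⟩ := (isCompact_closedBall (0 : ℂ) R).exists_bound_of_continuousOn
    Θ.diff.continuous.continuousOn
  set m : ℝ := (Θ.ω' / Θ.ω).im with hm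
  have hm0 : m ≠ 0 := Θ.him
  set c1 : ℝ := 1 / (‖Θ.ω‖ * |m|) + 1 with hc1
  have hc10 : 1 ≤ c1 := by
    have : 0 ≤ 1 / (‖Θ.ω‖ * |m|) := by positivity
    linarith only [this]
  refine ⟨|B| + 2 * A * c1 * (R + 1 + c1 * ‖Θ.ω'‖), by positivity, fun z => ?_⟩
  set t : ℝ := (z / Θ.ω).im / m with ht
  set s : ℝ := (z / Θ.ω).re - t * (Θ.ω' / Θ.ω).re with hs
  have hz : z = (s : ℂ) * Θ.ω + (t : ℂ) * Θ.ω' := by
    have : z / Θ.ω = (s : ℂ) + (t : ℂ) * (Θ.ω' / Θ.ω) := by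
      apply Complex.ext
      · simp [hs]
      · simp only [Complex.add_im, Complex.ofReal_im, Complex.mul_im, Complex.ofReal_re,
          zero_mul, add_zero, zero_add, ← hm, ht]
        field_simp
    field_simp at this
    rw [this]; ring
  set y : ℂ := ((Int.fract s : ℝ) : ℂ) * Θ.ω + ((Int.fract t : ℝ) : ℂ) * Θ.ω' with hy
  have hyR : ‖y‖ ≤ R := by
    refine (norm_add_le _ _).trans ?_
    rw [norm_mul, norm_mul, Complex.norm_real, Complex.norm_real, Real.norm_eq_abs,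
      Real.norm_eq_abs, abs_of_nonneg (Int.fract_nonneg s), abs_of_nonneg (Int.fract_nonneg t)]
    have h1 := (Int.fract_lt_one s).le
    have h2 := (Int.fract_lt_one t).le
    linarith only [h1, h2, norm_nonneg Θ.ω, norm_nonneg Θ.ω', Int.fract_nonneg s, Int.fract_nonneg t, mul_nonneg_of_nonpos_of_nonpos (Mathlib.Tactic.Linarith.sub_nonpos_of_le h1) (Mathlib.Tactic.Linarith.sub_nonpos_of_le (norm_nonneg Θ.ω)), mul_nonneg_of_nonpos_of_nonpos (Mathlib.Tactic.Linarith.sub_nonpos_of_le h2) (Mathlib.Tactic.Linarith.sub_nonpos_of_le (norm_nonneg Θ.ω'))]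
  have hzy : z = y + (⌊t⌋ : ℂ) * Θ.ω' + (⌊s⌋ : ℂ) * Θ.ω := by
    rw [hz, hy]
    have e1 : (s : ℂ) = ((Int.fract s : ℝ) : ℂ) + (⌊s⌋ : ℂ) := by
      rw [← Complex.ofReal_intCast, ← Complex.ofReal_add, Int.fract_add_floor]
    have e2 : (t : ℂ) = ((Int.fract t : ℝ) : ℂ) + (⌊t⌋ : ℂ) := by
      rw [← Complex.ofReal_intCast, ← Complex.ofReal_add, Int.fract_add_floor]
    conv_lhs => rw [e1, e2]
    ring
  have hθy : ‖Θ.θ y‖ ≤ Real.exp |B| := by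
    have := hB y (by simpa using hyR)
    linarith only [this, le_abs_self B, Real.add_one_le_exp |B|]
  obtain ⟨n, hn⟩ : ∃ n : ℕ, (n : ℤ) = |⌊t⌋| := ⟨(⌊t⌋).natAbs, by simp⟩
  have hnt : (n : ℝ) ≤ c1 * (‖z‖ + 1) := by
    have h1 : (n : ℝ) ≤ |t| + 1 := by
      have : (n : ℝ) = |((⌊t⌋ : ℤ) : ℝ)| := by
        rw [← Int.cast_abs, ← hn]; simp
      rw [this, abs_le]
      constructor
      · linarith only [Int.sub_one_lt_floor t, neg_abs_le t]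
      · linarith only [Int.floor_le t, le_abs_self t]
    have h2 : |t| ≤ ‖z‖ * (1 / (‖Θ.ω‖ * |m|)) := by
      rw [ht, abs_div]
      have := Complex.abs_im_le_norm (z / Θ.ω)
      rw [norm_div] at this
      have hmp : 0 < |m| := abs_pos.2 hm0
      have hωp : 0 < ‖Θ.ω‖ := norm_pos_iff.2 hω
      calc |(z / Θ.ω).im| / |m| ≤ (‖z‖ / ‖Θ.ω‖) / |m| := by gcongr
        _ = _ := by field_simp
    have h3 : 0 ≤ 1 / (‖Θ.ω‖ * |m|) := by positivity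
    linarith only [hc10, h1, h2, norm_nonneg z]
  have key : ‖Θ.θ (y + (⌊t⌋ : ℂ) * Θ.ω')‖ ≤
      ‖Θ.θ y‖ * Real.exp (A * n * (‖y‖ + n * ‖Θ.ω'‖ + 1)) := by
    rcases abs_choice ⌊t⌋ with h | h
    · have : ((⌊t⌋ : ℤ) : ℂ) = (n : ℂ) := by rw [← h, ← hn]; simp
      rw [this]
      exact Grow_iter hA (fun y => (hstep y).1) y n
    · have : ((⌊t⌋ : ℤ) : ℂ) * Θ.ω' = (n : ℂ) * (-Θ.ω') := by
        have : ⌊t⌋ = -(n : ℤ) := by rw [hn, h]; simp
        rw [this]; push_cast; ring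
      rw [this]
      have := Grow_iter (f := Θ.θ) (a := -Θ.ω') hA
        (fun y => by rw [← sub_eq_add_neg]; exact (hstep y).2) y n
      rwa [norm_neg] at this
  have hfin : ‖Θ.θ z‖ = ‖Θ.θ (y + (⌊t⌋ : ℂ) * Θ.ω')‖ := by
    conv_lhs => rw [hzy]
    exact Θ.Grow_per _ _
  rw [hfin]
  refine key.trans ?_
  have hz0 := norm_nonneg z
  have hw := norm_nonneg Θ.ω'
  have hn0 : (0 : ℝ) ≤ n := Nat.cast_nonneg n
  calc ‖Θ.θ y‖ * Real.exp (A * n * (‖y‖ + n * ‖Θ.ω'‖ + 1))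
      ≤ Real.exp |B| * Real.exp (A * (c1 * (‖z‖ + 1)) *
        ((R + 1 + c1 * ‖Θ.ω'‖) * (‖z‖ + 1))) := by
        gcongr
        have : n * ‖Θ.ω'‖ ≤ c1 * (‖z‖ + 1) * ‖Θ.ω'‖ := by gcongr
        linarith only [hyR, hz0, this, hR0, mul_nonneg hR0 hz0]
    _ ≤ _ := by
        rw [← Real.exp_add]
        refine Real.exp_le_exp.2 ?_
        have h1 : (‖z‖ + 1) ^ 2 ≤ 2 * (‖z‖ ^ 2 + 1) := by linarith only [sq_nonneg (‖z‖ - 1), sq_nonneg (‖z‖ - (1 : ℝ))]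
        have h2 : 0 ≤ A * c1 * (R + 1 + c1 * ‖Θ.ω'‖) := by positivity
        have h3 := mul_le_mul_of_nonneg_left h1 h2
        linarith only [h3, abs_nonneg B, mul_nonneg (abs_nonneg B) (sq_nonneg ‖z‖), sq_nonneg ‖z‖]

theorem Grow_comb {f g f' g' : ℂ → ℂ} {C : ℝ} (hC : 0 ≤ C)
    (h1 : ∀ z, ‖f z‖ ≤ Real.exp (C * (‖z‖ ^ 2 + 1)))
    (h2 : ∀ z, ‖g z‖ ≤ Real.exp (C * (‖z‖ ^ 2 + 1)))
    (h3 : ∀ z, ‖f' z‖ ≤ Real.exp (C * (‖z‖ ^ 2 + 1)))
    (h4 : ∀ z, ‖g' z‖ ≤ Real.exp (C * (‖z‖ ^ 2 + 1))) (c : ℂ) (hc : ‖c‖ ≤ 2) (z : ℂ) :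
    ‖f z * g z - c * f' z * g' z‖ ≤ Real.exp ((2 * C + 2) * (‖z‖ ^ 2 + 1)) := by
  set E := Real.exp (C * (‖z‖ ^ 2 + 1)) with hE
  have hE0 : 0 ≤ E := (Real.exp_pos _).le
  have h5 : ‖f z * g z - c * f' z * g' z‖ ≤ E * E + 2 * E * E := by
    refine (norm_sub_le _ _).trans ?_
    rw [norm_mul, norm_mul, norm_mul]
    gcongr
    · exact h1 z
    · exact h2 z
    · exact h3 z
    · exact h4 z
  have h6 : Real.exp ((2 * C + 2) * (‖z‖ ^ 2 + 1)) = E * E * Real.exp (2 * (‖z‖ ^ 2 + 1)) := by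
    rw [hE, ← Real.exp_add, ← Real.exp_add]; ring_nf
  have h7 : 3 ≤ Real.exp (2 * (‖z‖ ^ 2 + 1)) := by
    linarith only [Real.add_one_le_exp (2 * (‖z‖ ^ 2 + 1)), sq_nonneg ‖z‖]
  rw [h6]
  linarith only [h5, h7, mul_nonneg hE0 hE0, mul_nonneg_of_nonpos_of_nonpos (Mathlib.Tactic.Linarith.sub_nonpos_of_le (mul_self_nonneg E)) (Mathlib.Tactic.Linarith.sub_nonpos_of_le h7)]

theorem Grow_mono {f : ℂ → ℂ} {C C' : ℝ} (h : C ≤ C')
    (h1 : ∀ z, ‖f z‖ ≤ Real.exp (C * (‖z‖ ^ 2 + 1))) (z : ℂ) :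
    ‖f z‖ ≤ Real.exp (C' * (‖z‖ ^ 2 + 1)) :=
  (h1 z).trans (Real.exp_le_exp.2 (by gcongr))

theorem growth : ∃ C : ℝ, 0 ≤ C ∧ ∀ z, ‖Θ.θ z‖ ≤ Real.exp (C * (‖z‖ ^ 2 + 1)) ∧
    ‖deriv Θ.θ z‖ ≤ Real.exp (C * (‖z‖ ^ 2 + 1)) ∧ ‖nA Θ.θ z‖ ≤ Real.exp (C * (‖z‖ ^ 2 + 1)) ∧
    ‖nB Θ.θ z‖ ≤ Real.exp (C * (‖z‖ ^ 2 + 1)) := by
  obtain ⟨C, hC, h0⟩ := Θ.growth_θ
  have h1 := growth_deriv Θ.diff hC h0
  have h2 := growth_deriv Θ.differentiable_deriv (by positivity) h1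
  have hA : ∀ z, ‖nA Θ.θ z‖ ≤ Real.exp ((2 * (9 * C) + 2) * (‖z‖ ^ 2 + 1)) := by
    intro z
    have := Grow_comb (C := 9 * C) (by positivity) (Grow_mono (by linarith) h1)
      (Grow_mono (by linarith) h1) (Grow_mono (by linarith) h0) (Grow_mono (by linarith) h2) 1
      (by simp) z
    simpa [nA, sq] using this
  have hA' := growth_deriv Θ.differentiable_nA (by positivity) hA
  have hB : ∀ z, ‖nB Θ.θ z‖ ≤ Real.exp ((2 * (54 * C + 6) + 2) * (‖z‖ ^ 2 + 1)) := by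
    intro z
    have := Grow_comb (C := 54 * C + 6) (by positivity) (Grow_mono (by linarith) h0)
      (Grow_mono (by linarith) hA') (Grow_mono (by linarith) h1) (Grow_mono (by linarith) hA) 2
      (by simp) z
    simpa [nB] using this
  exact ⟨2 * (54 * C + 6) + 2, by positivity, fun z => ⟨Grow_mono (by linarith only [hC]) h0 z,
    Grow_mono (by linarith) h1 z, Grow_mono (by linarith only [hC]) hA z, hB z⟩⟩

end PreTheta

end Pool.Agent.E21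
end

-- merged part: Pool.Agent.Work.MP_e21d36_nt.Low
section
/-!
# Lower bounds for theta near the torsion points

Plan.  `lat_gap`: nonzero lattice points have norm at least `ρ`: since `θ ≠ 0` on a punctured
ball around `0` (`eventually_ne`, `Metric.eventually_nhds_iff`), and they are zeros of `θ`.
`lower_dist`: on the compact ball of radius `R`, compactness
(`IsCompact.induction_on` with the property: there is `c > 0` such that for all `y` in the set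
and all `δ ∈ (0, 1]`, if `δ ≤ ‖y - λ‖` for all zeros `λ` of `θ` then `c δ ≤ ‖θ y‖`); near a point
with `θ ≠ 0` use continuity, near a zero `λ` use `θ y = (y - λ) * dslope θ λ y` and
`deriv_ne_of_zero`.
`lower_pt`: `2 N (pt.1 - λ)` is a lattice point with odd first coordinate, so
`‖pt.1 - λ‖ ≥ ρ / (2N)`; `‖pt.1‖ ≤ 2‖ω‖ + ‖ω'‖`.
`val_bound`: `xf = nA / θ^2`, `yf = nB / θ^3`, `zt = θ'/θ`, `growth`, `lower_pt` at `z = 0`,
`‖pt.2‖ ≤ ‖ν‖`.
-/

namespace Pool.Agent.E21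

theorem PreTheta.lat_gap (Θ : PreTheta) :
    ∃ ρ : ℝ, 0 < ρ ∧ ∀ y : ℂ, Θ.θ y = 0 → y ≠ 0 → ρ ≤ ‖y‖ := by
  obtain ⟨ρ, h0, h⟩ := Metric.eventually_nhds_iff.1
    (eventually_nhdsWithin_iff.1 (Θ.eventually_ne 0))
  exact ⟨ρ, h0, fun y h1 h2 => not_lt.1 fun h3 => h (by rwa [dist_zero_right]) h2 h1⟩

theorem Low_near {g : ℂ → ℂ} {x : ℂ} (hg : ContinuousAt g x) (h : g x ≠ 0) :
    {y | ‖g x‖ / 2 ≤ ‖g y‖} ∈ nhds x :=
  (hg.norm.eventually (lt_mem_nhds (half_lt_self (norm_pos_iff.2 h)))).mono fun _ h => h.le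

theorem PreTheta.lower_dist (Θ : PreTheta) (R : ℝ) : ∃ c : ℝ, 0 < c ∧ ∀ (y : ℂ) (δ : ℝ),
    ‖y‖ ≤ R → 0 < δ → δ ≤ 1 → (∀ l : ℂ, Θ.θ l = 0 → δ ≤ ‖y - l‖) → c * δ ≤ ‖Θ.θ y‖ := by
  have key := (isCompact_closedBall (0 : ℂ) R).induction_on
    (p := fun S => ∃ c : ℝ, 0 < c ∧ ∀ y ∈ S, ∀ δ : ℝ, 0 < δ → δ ≤ 1 →
      (∀ l : ℂ, Θ.θ l = 0 → δ ≤ ‖y - l‖) → c * δ ≤ ‖Θ.θ y‖)
    ⟨1, one_pos, fun y hy => hy.elim⟩
    (fun _ _ hst ⟨c, c0, hc⟩ => ⟨c, c0, fun y hy => hc y (hst hy)⟩)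
    (by
      rintro S T ⟨c, c0, hc⟩ ⟨c', c0', hc'⟩
      refine ⟨min c c', lt_min c0 c0', fun y hy δ h0 h1 h2 => hy.elim (fun hy => ?_) fun hy => ?_⟩
      · exact (mul_le_mul_of_nonneg_right (min_le_left _ _) h0.le).trans (hc y hy δ h0 h1 h2)
      · exact (mul_le_mul_of_nonneg_right (min_le_right _ _) h0.le).trans (hc' y hy δ h0 h1 h2))
    (by
      intro x _
      by_cases hx : Θ.θ x = 0
      · have h1 : dslope Θ.θ x x ≠ 0 := by
          rw [dslope_same]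
          exact Θ.deriv_ne_of_zero hx
        refine ⟨_, mem_nhdsWithin_of_mem_nhds (Low_near (continuousAt_dslope_same.2 (Θ.diff x)) h1),
          _, half_pos (norm_pos_iff.2 h1), fun y hy δ h0 _ h2 => ?_⟩
        have h3 := sub_smul_dslope Θ.θ x y
        rw [hx, sub_zero] at h3
        rw [← h3, norm_smul, mul_comm]
        exact mul_le_mul (h2 x hx) hy (by positivity) (norm_nonneg _)
      · exact ⟨_, mem_nhdsWithin_of_mem_nhds (Low_near Θ.diff.continuous.continuousAt hx), _,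
          half_pos (norm_pos_iff.2 hx), fun y hy δ _ h1 _ =>
            (mul_le_of_le_one_right (by positivity) h1).trans hy⟩)
  obtain ⟨c, c0, hc⟩ := key
  exact ⟨c, c0, fun y δ hy => hc y (mem_closedBall_zero_iff.2 hy) δ⟩

theorem Low_frac {N : ℕ} (k : Fin N) (a : ℂ) : ‖(((k : ℕ) : ℤ) : ℂ) * a / N‖ ≤ ‖a‖ := by
  have h1 : (0 : ℝ) < N := Nat.cast_pos.2 k.pos
  rw [norm_div, norm_mul, Int.cast_natCast, Complex.norm_natCast, Complex.norm_natCast,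
    div_le_iff₀ h1, mul_comm]
  exact mul_le_mul_of_nonneg_left (Nat.cast_le.2 k.2.le) (norm_nonneg _)

theorem Theta.pt_norm (Θ : Theta) : ∃ R : ℝ, 0 ≤ R ∧ ∀ (N : ℕ) (κ : Fin N × Fin N),
    ‖(Θ.pt N (κ.1 : ℕ) (κ.2 : ℕ)).1‖ ≤ R ∧ ‖(Θ.pt N (κ.1 : ℕ) (κ.2 : ℕ)).2‖ ≤ R := by
  refine ⟨‖Θ.ω / 2‖ + (‖Θ.ω‖ + ‖Θ.ω'‖) + ‖Θ.ν‖, by positivity, fun N κ => ⟨?_, ?_⟩⟩
  · refine le_add_of_le_of_nonneg ?_ (norm_nonneg _)
    rw [Theta.pt, add_div]
    exact norm_add_le_of_le le_rfl (norm_add_le_of_le (Low_frac _ _) (Low_frac _ _))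
  · rw [Theta.pt, norm_neg]
    exact le_add_of_nonneg_of_le (by positivity) (Low_frac _ _)

theorem Low_sep (Θ : Theta) {ρ : ℝ} (hρ : ∀ y : ℂ, Θ.θ y = 0 → y ≠ 0 → ρ ≤ ‖y‖) {N : ℕ}
    (hN : Odd N) (k l : ℤ) {x : ℂ} (hx : Θ.θ x = 0) : ρ ≤ 2 * N * ‖(Θ.pt N k l).1 - x‖ := by
  have h1 := Θ.pt_good hN k l
  have h2 := Theta.TB4_ne hN
  have h3 := hρ (2 * N * ((Θ.pt N k l).1 - x)) ?_
    (mul_ne_zero (mul_ne_zero two_ne_zero h2) (sub_ne_zero.2 fun e => h1 (e ▸ hx)))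
  · rwa [norm_mul, norm_mul, Complex.norm_two, Complex.norm_natCast] at h3
  obtain ⟨a, b, rfl⟩ := (Θ.zero_iff x).1 hx
  refine (Θ.zero_iff _).2 ⟨N + 2 * k - 2 * N * a, 2 * l - 2 * N * b, ?_⟩
  rw [Theta.pt]
  push_cast
  field_simp
  ring

theorem Theta.lower_pt (Θ : Theta) : ∃ C : ℕ, 1 ≤ C ∧ ∀ N : ℕ, Odd N →
    ∀ (κ : Fin N × Fin N) (z : ℂ), ‖z‖ ≤ 1 / ((C : ℝ) * N) →
      1 / ((C : ℝ) * N) ≤ ‖Θ.θ ((Θ.pt N (κ.1 : ℕ) (κ.2 : ℕ)).1 + z)‖ := by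
  obtain ⟨ρ, ρ0, hρ⟩ := Θ.toPreTheta.lat_gap
  obtain ⟨R, R0, hR⟩ := Θ.pt_norm
  obtain ⟨c, c0, hc⟩ := Θ.toPreTheta.lower_dist (R + 1)
  set r := min ρ 1 / 4 with hr
  have r0 : 0 < r := by positivity
  have r1 : 4 * r ≤ ρ := by linarith only [hr, min_le_left ρ 1]
  have r2 : r ≤ 1 := by linarith only [hr, min_le_right ρ 1]
  obtain ⟨n, hn⟩ := exists_nat_one_div_lt (lt_min r0 (mul_pos c0 r0))
  refine ⟨n + 1, by omega, fun N hN κ z hz => ?_⟩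
  have N1 : (1 : ℝ) ≤ N := Nat.one_le_cast.2 hN.pos
  have N0 : (0 : ℝ) < N := one_pos.trans_le N1
  rw [← div_div, Nat.cast_succ] at hz ⊢
  have h1 : ‖z‖ ≤ r / N :=
    hz.trans (div_le_div_of_nonneg_right (hn.le.trans (min_le_left _ _)) N0.le)
  have h2 : r / N ≤ 1 := (div_le_one N0).2 (r2.trans N1)
  refine (div_le_div_of_nonneg_right (hn.le.trans (min_le_right _ _)) N0.le).trans ?_
  rw [mul_div_assoc]
  refine hc _ _ (norm_add_le_of_le (hR N κ).1 (h1.trans h2)) (by positivity) h2 fun x hx => ?_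
  have h3 := Low_sep Θ hρ hN (κ.1 : ℕ) (κ.2 : ℕ) hx
  have h4 := norm_sub_le ((Θ.pt N (κ.1 : ℕ) (κ.2 : ℕ)).1 + z - x) z
  rw [sub_right_comm, add_sub_cancel_right] at h4
  have h5 : 2 * (r / N) ≤ ‖(Θ.pt N (κ.1 : ℕ) (κ.2 : ℕ)).1 - x‖ := by
    rw [← mul_div_assoc, div_le_iff₀ N0]
    linarith only [r1, h3]
  linarith only [h1, h4, h5]

theorem Low_bd {f : ℂ → ℂ} (hf : Differentiable ℂ f) (R : ℝ) :
    ∃ M : ℝ, 0 ≤ M ∧ ∀ z, ‖z‖ ≤ R → ‖f z‖ ≤ M := by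
  obtain ⟨M, hM⟩ := (isCompact_closedBall (0 : ℂ) R).exists_bound_of_continuousOn
    hf.continuous.continuousOn
  exact ⟨max M 0, le_max_right _ _, fun z hz =>
    (hM z (mem_closedBall_zero_iff.2 hz)).trans (le_max_left _ _)⟩

theorem Low_div {a b x : ℂ} {t M : ℝ} (ht : 1 ≤ t) (h1 : 1 / t ≤ ‖a‖) {j : ℕ} (hj : j ≤ 3)
    (h2 : a ^ j * x = b) (h3 : ‖b‖ ≤ M) : ‖x‖ ≤ M * t ^ 3 := by
  have t0 : 0 < t := one_pos.trans_le ht
  have h4 : (1 / t) ^ j * ‖x‖ ≤ M := by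
    refine le_trans ?_ h3
    rw [← h2, norm_mul, norm_pow]
    gcongr
  rw [one_div, inv_pow, inv_mul_le_iff₀ (pow_pos t0 j), mul_comm] at h4
  exact h4.trans (mul_le_mul_of_nonneg_left (pow_le_pow_right₀ ht hj) ((norm_nonneg _).trans h3))

theorem Low_crd (Θ : Theta) : ∃ C : ℕ, 1 ≤ C ∧ ∀ N : ℕ, Odd N → ∀ (κ : Fin N × Fin N) (j : Fin 3),
    ‖Θ.crd (Θ.pt N (κ.1 : ℕ) (κ.2 : ℕ)) j‖ ≤ ((C : ℝ) * N) ^ 3 := by
  obtain ⟨C, C1, hC⟩ := Θ.lower_pt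
  obtain ⟨R, R0, hR⟩ := Θ.pt_norm
  obtain ⟨A, A0, hA⟩ := Low_bd Θ.toPreTheta.differentiable_nA R
  obtain ⟨B, B0, hB⟩ := Low_bd Θ.toPreTheta.differentiable_nB R
  obtain ⟨D, D0, hD⟩ := Low_bd Θ.toPreTheta.differentiable_deriv R
  obtain ⟨K, hK⟩ := exists_nat_ge (A + B + D + R + 1)
  have K1 : (1 : ℝ) ≤ K := by linarith only [R0, A0, B0, D0, hK]
  refine ⟨K * C, Nat.mul_pos (Nat.one_le_cast.1 K1) C1, fun N hN κ j => ?_⟩
  have t1 : (1 : ℝ) ≤ C * N :=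
    one_le_mul_of_one_le_of_one_le (Nat.one_le_cast.2 C1) (Nat.one_le_cast.2 hN.pos)
  have t3 : (1 : ℝ) ≤ (C * N) ^ 3 := one_le_pow₀ t1
  have h1 := hC N hN κ 0 (by rw [norm_zero]; positivity)
  rw [add_zero] at h1
  have h2 := Θ.pt_good hN (κ.1 : ℕ) (κ.2 : ℕ)
  obtain ⟨h3, h4⟩ := hR N κ
  have h5 := Low_div t1 h1 (by norm_num) (Θ.sq_mul_xf h2) (hA _ h3)
  have h6 := Low_div t1 h1 le_rfl (Θ.cube_mul_yf h2) (hB _ h3)
  have h7 := Low_div t1 h1 (j := 1) (by norm_num) (by rw [pow_one]; exact Θ.mul_zt h2) (hD _ h3)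
  rw [Nat.cast_mul, mul_assoc, mul_pow (K : ℝ)]
  refine le_trans ?_ (mul_le_mul_of_nonneg_right (le_self_pow₀ K1 three_ne_zero) (by positivity))
  fin_cases j
  · exact h5.trans (mul_le_mul_of_nonneg_right (by linarith only [R0, B0, D0, hK]) (by positivity))
  · exact h6.trans (mul_le_mul_of_nonneg_right (by linarith only [R0, A0, D0, hK]) (by positivity))
  · refine (norm_sub_le_of_le h7 (h4.trans (le_mul_of_one_le_right R0 t3))).trans ?_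
    rw [← add_mul]
    exact mul_le_mul_of_nonneg_right (by linarith only [A0, B0, hK]) (by positivity)

theorem Pair.val_bound (W : Pair) : ∃ C : ℕ, 1 ≤ C ∧ ∀ N : ℕ, Odd N →
    ∀ (κ : Fin 2 → Fin N × Fin N) (v : Fin 2 × Fin 3),
      ‖W.val (W.ptF N κ) v‖ ≤ ((C : ℝ) * N) ^ 3 := by
  choose C C1 hC using fun i => Low_crd (W.Θ i)
  have h : ∀ i, C i ≤ ∑ i, C i := fun i =>
    Finset.single_le_sum (f := C) (fun _ _ => Nat.zero_le _) (Finset.mem_univ i)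
  refine ⟨∑ i, C i, (C1 0).trans (h 0), fun N hN κ v => (hC v.1 N hN (κ v.1) v.2).trans ?_⟩
  gcongr
  exact h _

end Pool.Agent.E21
end

-- merged part: Pool.Agent.Work.MP_e21d36_nt.Schwarz
section
/-!
# Schwarz lemma with multiple zeros, and a Cauchy estimate

Plan.  `exists_factor`: an entire `f` whose derivatives of order `< T` vanish at the points of
`s` is `(∏ a ∈ s, (z - a)^T) * g` with `g` entire (induction on `s`; for one point iterate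
`dslope`, `Complex.differentiableOn_dslope`, or use `AnalyticAt.exists_eq_sum_add_pow_mul` and
`analyticOrderAt`: the order of the quotient at the other points does not change,
`analyticOrderAt_mul`, `natCast_le_analyticOrderAt_iff_iteratedDeriv_eq_zero`).
Maximum principle `Complex.norm_le_of_forall_mem_frontier_norm_le` for `g` on the ball of
radius `5 r`: on the sphere `|z - a| ≥ 4 r`, inside the small ball `|z - a| ≤ 2 r`.
`cauchy_iter`: `Complex.norm_iteratedDeriv_le_of_forall_mem_sphere_norm_le`.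
-/

namespace Pool.Agent.E21

theorem Schwarz_one (f : ℂ → ℂ) (hf : Differentiable ℂ f) (a : ℂ) (T : ℕ)
    (h : (T : ℕ∞) ≤ analyticOrderAt f a) :
    ∃ g : ℂ → ℂ, Differentiable ℂ g ∧ ∀ z, f z = (z - a) ^ T * g z := by
  classical
  obtain ⟨g0, hg0, hev⟩ := (natCast_le_analyticOrderAt (hf.analyticAt a)).mp h
  refine ⟨fun z => if z = a then g0 a else f z / (z - a) ^ T, ?_, ?_⟩
  · intro z
    by_cases hz : z = a
    · subst hz
      refine hg0.differentiableAt.congr_of_eventuallyEq ?_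
      filter_upwards [hev] with w hw
      by_cases hwz : w = z
      · simp [hwz]
      · have : (w - z) ^ T ≠ 0 := pow_ne_zero _ (sub_ne_zero.mpr hwz)
        simp only [hwz, if_false, hw, smul_eq_mul]
        field_simp
    · have hne : (z - a) ^ T ≠ 0 := pow_ne_zero _ (sub_ne_zero.mpr hz)
      have hd : DifferentiableAt ℂ (fun w => f w / (w - a) ^ T) z :=
        (hf z).div (by fun_prop) hne
      refine hd.congr_of_eventuallyEq ?_
      filter_upwards [isOpen_ne.mem_nhds hz] with w hw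
      simp [hw]
  · intro z
    by_cases hz : z = a
    · subst hz
      simpa using hev.self_of_nhds
    · have hne : (z - a) ^ T ≠ 0 := pow_ne_zero _ (sub_ne_zero.mpr hz)
      simp only [hz, if_false]
      field_simp

theorem exists_factor (f : ℂ → ℂ) (hf : Differentiable ℂ f) (s : Finset ℂ) (T : ℕ)
    (hz : ∀ a ∈ s, ∀ j < T, iteratedDeriv j f a = 0) :
    ∃ g : ℂ → ℂ, Differentiable ℂ g ∧ ∀ z, f z = (∏ a ∈ s, (z - a) ^ T) * g z := by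
  classical
  induction s using Finset.induction_on with
  | empty => exact ⟨f, hf, by simp⟩
  | insert a s ha ih =>
    obtain ⟨g1, hg1, hfg⟩ := ih (fun b hb => hz b (Finset.mem_insert_of_mem hb))
    have hP : Differentiable ℂ (fun z : ℂ => ∏ b ∈ s, (z - b) ^ T) := by fun_prop
    have hPa : (∏ b ∈ s, (a - b) ^ T) ≠ 0 := by
      refine Finset.prod_ne_zero_iff.mpr fun b hb => pow_ne_zero _ (sub_ne_zero.mpr ?_)
      rintro rfl
      exact ha hb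
    have hfe : f = (fun z : ℂ => ∏ b ∈ s, (z - b) ^ T) * g1 := by
      funext z; exact hfg z
    have h1 : (T : ℕ∞) ≤ analyticOrderAt f a :=
      (natCast_le_analyticOrderAt_iff_iteratedDeriv_eq_zero (hf.analyticAt a)).mpr
        (hz a (Finset.mem_insert_self a s))
    have h0 : analyticOrderAt (fun z : ℂ => ∏ b ∈ s, (z - b) ^ T) a = 0 :=
      analyticOrderAt_eq_zero.mpr (Or.inr hPa)
    rw [hfe, analyticOrderAt_mul (hP.analyticAt a) (hg1.analyticAt a), h0, zero_add] at h1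
    obtain ⟨g, hg, hg1g⟩ := Schwarz_one g1 hg1 a T h1
    refine ⟨g, hg, fun z => ?_⟩
    rw [hfg z, hg1g z, Finset.prod_insert ha]
    ring

theorem schwarz_mult (f : ℂ → ℂ) (hf : Differentiable ℂ f) (s : Finset ℂ) (T : ℕ) (r B : ℝ)
    (hr : 0 < r) (hs : ∀ a ∈ s, ‖a‖ ≤ r) (hz : ∀ a ∈ s, ∀ j < T, iteratedDeriv j f a = 0)
    (hB : ∀ z, ‖z‖ ≤ 5 * r → ‖f z‖ ≤ B) (z : ℂ) (hzr : ‖z‖ ≤ r) :
    ‖f z‖ ≤ B * (1 / 2) ^ (s.card * T) := by
  obtain ⟨g, hg, hfg⟩ := exists_factor f hf s T hz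
  have hB0 : 0 ≤ B := (norm_nonneg _).trans (hB 0 (by simp; linarith))
  have h4 : 0 < (4 * r) ^ (s.card * T) := by positivity
  have hgb : ‖g z‖ ≤ B / (4 * r) ^ (s.card * T) := by
    refine Complex.norm_le_of_forall_mem_frontier_norm_le (U := Metric.ball 0 (5 * r))
      Metric.isBounded_ball hg.diffContOnCl ?_ ?_
    · intro w hw
      rw [frontier_ball 0 (by positivity : (5 * r) ≠ 0)] at hw
      have hw5 : ‖w‖ = 5 * r := by simpa using hw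
      have hlow : (4 * r) ^ (s.card * T) ≤ ‖∏ a ∈ s, (w - a) ^ T‖ := by
        rw [norm_prod, mul_comm s.card, pow_mul, ← Finset.prod_const]
        refine Finset.prod_le_prod (fun _ _ => by positivity) fun a ha => ?_
        rw [norm_pow]
        refine pow_le_pow_left₀ (by positivity) ?_ _
        have := norm_sub_norm_le w a
        have := hs a ha
        linarith
      rw [le_div_iff₀ h4]
      have h1 := hB w hw5.le
      rw [hfg w, norm_mul] at h1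
      calc ‖g w‖ * (4 * r) ^ (s.card * T) ≤ ‖g w‖ * ‖∏ a ∈ s, (w - a) ^ T‖ :=
            mul_le_mul_of_nonneg_left hlow (norm_nonneg _)
        _ ≤ B := by rw [mul_comm]; exact h1
    · apply subset_closure
      rw [mem_ball_zero_iff]
      linarith only [hr, hzr]
  have hup : ‖∏ a ∈ s, (z - a) ^ T‖ ≤ (2 * r) ^ (s.card * T) := by
    rw [norm_prod, mul_comm s.card, pow_mul, ← Finset.prod_const]
    refine Finset.prod_le_prod (fun _ _ => by positivity) fun a ha => ?_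
    rw [norm_pow]
    refine pow_le_pow_left₀ (by positivity) ?_ _
    have := norm_sub_le z a
    have := hs a ha
    linarith
  rw [hfg z, norm_mul]
  calc ‖∏ a ∈ s, (z - a) ^ T‖ * ‖g z‖
      ≤ (2 * r) ^ (s.card * T) * (B / (4 * r) ^ (s.card * T)) :=
        mul_le_mul hup hgb (norm_nonneg _) (by positivity)
    _ = B * (1 / 2) ^ (s.card * T) := by
        have : (1 / 2 : ℝ) = (2 * r) / (4 * r) := by field_simp; norm_num
        rw [this, div_pow]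
        ring

theorem cauchy_iter (f : ℂ → ℂ) (ρ B : ℝ) (hρ : 0 < ρ)
    (hf : DifferentiableOn ℂ f (Metric.closedBall 0 ρ)) (hB : ∀ z, ‖z‖ ≤ ρ → ‖f z‖ ≤ B) (j : ℕ) :
    ‖iteratedDeriv j f 0‖ ≤ (j.factorial : ℝ) * B / ρ ^ j := by
  refine Complex.norm_iteratedDeriv_le_of_forall_mem_sphere_norm_le j hρ ?_ ?_
  · refine DifferentiableOn.diffContOnCl ?_
    rwa [closure_ball 0 hρ.ne']
  · intro z hz
    exact hB z (le_of_eq (by simpa using hz))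

/-- A product vanishes to order `T` where one factor does. -/
theorem iteratedDeriv_mul_eq_zero {f g : ℂ → ℂ} {a : ℂ} (hf : AnalyticAt ℂ f a)
    (hg : AnalyticAt ℂ g a) (T : ℕ) (hz : ∀ j < T, iteratedDeriv j g a = 0) :
    ∀ j < T, iteratedDeriv j (fun z => f z * g z) a = 0 := by
  have hfg : AnalyticAt ℂ (f * g) a := hf.mul hg
  refine (natCast_le_analyticOrderAt_iff_iteratedDeriv_eq_zero hfg).mp ?_
  rw [analyticOrderAt_mul hf hg]
  exact ((natCast_le_analyticOrderAt_iff_iteratedDeriv_eq_zero hg).mpr hz).trans le_add_self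

end Pool.Agent.E21
end

-- merged part: Pool.Agent.Work.MP_e21d36_nt.Small
section
/-!
# Extrapolation on the leaves

Plan.  `entF` is the entire function `∏ θ_i (x_i + z)^(3D) * F (mv p z)`.
`entF_eq`: `sq_mul_xf`, `mul_zt`, `2 a + b + (3D - 2a - b) = 3D`.
`entF_bound`: `growth`, `pt_norm`; each of the `6 D` factors is at most
`exp (C (‖z‖^2 + 1))` (`‖x + z‖^2 ≤ 2 R^2 + 2 ‖z‖^2`, `‖θ' - s θ‖ ≤ (1 + R) exp ..`).
`entF_vanish`: at `a = k ω / N` the point `mv p a` is `pt2 ..` (`mv_pt2`, `exists_ptF`), near `a`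
the function is the product (`eventually_good`, `EventuallyEq.iteratedDeriv_eq`),
`iteratedDeriv_ev2`, `iteratedDeriv_mul_eq_zero`.
`small_values`: `schwarz_mult` with `s = image (k ↦ k ω / N) (range (N r))` (card `N r`),
radius `r (‖ω‖ + 1)`; on the disc of radius `ρ = 1/(C N)` divide by the theta factors
(`lower_pt`), then `cauchy_iter` and `iteratedDeriv_ev2` at `z = 0` (`mv_zero`);
`exp x ≤ 2^(2x)`.
-/

namespace Pool.Agent.E21

namespace Pair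

variable (W : Pair)

noncomputable def entF {D : ℕ} (p : Fin 2 → ℂ × ℂ) (c : (Fin 2 × Fin 2 → Fin D) → ℂ) (z : ℂ) :
    ℂ := ∑ l, c l * ∏ i, nA (W.Θ i).θ ((p i).1 + z) ^ (l (i, 0) : ℕ) *
      (deriv (W.Θ i).θ ((p i).1 + z) - (p i).2 * (W.Θ i).θ ((p i).1 + z)) ^ (l (i, 1) : ℕ) *
      (W.Θ i).θ ((p i).1 + z) ^ (3 * D - 2 * (l (i, 0) : ℕ) - (l (i, 1) : ℕ))

theorem differentiable_entF {D : ℕ} (p : Fin 2 → ℂ × ℂ) (c : (Fin 2 × Fin 2 → Fin D) → ℂ) :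
    Differentiable ℂ (W.entF p c) := by
  have h1 := fun i => (W.Θ i).diff
  have h2 := fun i => (W.Θ i).differentiable_deriv
  have h3 := fun i => (W.Θ i).differentiable_nA
  unfold entF
  fun_prop

theorem entF_eq {D : ℕ} {p : Fin 2 → ℂ × ℂ} (c : (Fin 2 × Fin 2 → Fin D) → ℂ) {z : ℂ}
    (h : W.Good (mv p z)) : W.entF p c z =
      (∏ i, (W.Θ i).θ ((p i).1 + z) ^ (3 * D)) * W.ev2 (mv p z) (auxF c) := by
  rw [entF, auxF, map_sum, Finset.mul_sum]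
  refine Finset.sum_congr rfl fun l _ => ?_
  rw [map_mul, monoB, map_prod, Fintype.prod_prod_type, mul_left_comm, ← Finset.prod_mul_distrib]
  refine congrArg₂ (· * ·) (MvPolynomial.aeval_C (W.val (mv p z)) (c l)).symm
    (Finset.prod_congr rfl fun i _ => ?_)
  have h0 : (W.Θ i).θ ((p i).1 + z) ≠ 0 := h i
  have e0 : W.ev2 (mv p z) (MvPolynomial.X (emb (i, 0))) = xf (W.Θ i).θ ((p i).1 + z) :=
    MvPolynomial.aeval_X _ _
  have e1 : W.ev2 (mv p z) (MvPolynomial.X (emb (i, 1))) =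
      zt (W.Θ i).θ ((p i).1 + z) - (p i).2 := MvPolynomial.aeval_X _ _
  have h1 := (l (i, 0)).2
  have h2 := (l (i, 1)).2
  obtain ⟨m, hm⟩ : ∃ m, 3 * D = 2 * (l (i, 0) : ℕ) + (l (i, 1) : ℕ) + m :=
    Nat.exists_eq_add_of_le (by omega)
  rw [Fin.prod_univ_two, map_pow, map_pow, e0, e1, ← (W.Θ i).sq_mul_xf h0, ← (W.Θ i).mul_zt h0,
    show 3 * D - 2 * (l (i, 0) : ℕ) - (l (i, 1) : ℕ) = m by omega, hm, mul_comm (p i).2, ← mul_sub,
    mul_pow, mul_pow]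
  ring

theorem Small_th (Θ : Theta) : ∃ K : ℝ, 0 ≤ K ∧ ∀ (N : ℕ) (κ : Fin N × Fin N) (q : ℂ × ℂ),
    q = Θ.pt N (κ.1 : ℕ) (κ.2 : ℕ) → ∀ z : ℂ,
      ‖nA Θ.θ (q.1 + z)‖ ≤ Real.exp (K * (‖z‖ ^ 2 + 1)) ∧
      ‖deriv Θ.θ (q.1 + z) - q.2 * Θ.θ (q.1 + z)‖ ≤ Real.exp (K * (‖z‖ ^ 2 + 1)) ∧
      ‖Θ.θ (q.1 + z)‖ ≤ Real.exp (K * (‖z‖ ^ 2 + 1)) := by
  obtain ⟨C, hC, h1⟩ := Θ.growth
  obtain ⟨R, hR, h2⟩ := Θ.pt_norm
  refine ⟨C * (2 * R ^ 2 + 2) + R, by positivity, fun N κ q hq z => ?_⟩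
  obtain ⟨q1, q2⟩ := h2 N κ
  rw [← hq] at q1 q2
  obtain ⟨g1, g2, g3, -⟩ := h1 (q.1 + z)
  have k1 : ‖q.1 + z‖ ^ 2 ≤ (R + ‖z‖) ^ 2 :=
    pow_le_pow_left₀ (norm_nonneg _) ((norm_add_le _ _).trans (by linarith only [q1])) 2
  have k2 : Real.exp (C * (‖q.1 + z‖ ^ 2 + 1)) ≤
      Real.exp (C * (2 * R ^ 2 + 2) * (‖z‖ ^ 2 + 1)) := by
    rw [mul_assoc]
    refine Real.exp_le_exp.2 (mul_le_mul_of_nonneg_left ?_ hC)
    linarith only [k1, sq_nonneg (R - ‖z‖), sq_nonneg (R * ‖z‖), sq_nonneg (R * ‖z‖), sq_nonneg (R - ‖z‖)]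
  have k3 : R + 1 ≤ Real.exp (R * (‖z‖ ^ 2 + 1)) := (Real.add_one_le_exp R).trans
    (Real.exp_le_exp.2 (le_mul_of_one_le_right hR (le_add_of_nonneg_left (sq_nonneg _))))
  have k4 := Real.exp_pos (C * (2 * R ^ 2 + 2) * (‖z‖ ^ 2 + 1))
  have k5 := mul_le_mul_of_nonneg_left k3 k4.le
  have k6 := mul_nonneg k4.le hR
  rw [add_mul, Real.exp_add]
  refine ⟨by linarith only [g3, k2, k5, k6], (norm_sub_le _ _).trans ?_, by linarith only [g1, k2, k5, k6]⟩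
  have k7 := mul_le_mul q2 (g1.trans k2) (norm_nonneg _) hR
  rw [norm_mul]
  linarith only [g2, k2, k5, k7]

theorem entF_bound : ∃ C : ℝ, 0 ≤ C ∧ ∀ (N D : ℕ) (κ : Fin 2 → Fin N × Fin N) (Bc : ℝ)
    (c : (Fin 2 × Fin 2 → Fin D) → ℂ), (∀ l, ‖c l‖ ≤ Bc) → ∀ z,
      ‖W.entF (W.ptF N κ) c z‖ ≤ Bc * (D : ℝ) ^ 4 * Real.exp (C * D * (‖z‖ ^ 2 + 1)) := by
  choose K h0 hK using fun i => Small_th (W.Θ i)
  have h1 : 0 ≤ ∑ i, K i := Finset.sum_nonneg fun i _ => h0 i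
  refine ⟨6 * ∑ i, K i, by positivity, fun N D κ Bc c hc z => ?_⟩
  obtain ⟨E, hE⟩ : ∃ E, E = Real.exp ((∑ i, K i) * (‖z‖ ^ 2 + 1)) := ⟨_, rfl⟩
  have e1 : 1 ≤ E := hE ▸ Real.one_le_exp (by positivity)
  have e2 : ∀ i, Real.exp (K i * (‖z‖ ^ 2 + 1)) ≤ E := fun i => hE ▸ Real.exp_le_exp.2
    (mul_le_mul_of_nonneg_right (Finset.single_le_sum (fun i _ => h0 i) (Finset.mem_univ i))
      (by positivity))
  have e3 : Real.exp (6 * (∑ i, K i) * D * (‖z‖ ^ 2 + 1)) = ∏ _i : Fin 2, E ^ (3 * D) := by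
    rw [Fin.prod_const, ← pow_mul, hE, ← Real.exp_nat_mul]
    congr 1
    push_cast
    ring
  rw [e3, entF]
  refine (norm_sum_le _ _).trans ((Finset.sum_le_card_nsmul _ _
    (Bc * ∏ _i : Fin 2, E ^ (3 * D)) fun l _ => ?_).trans (le_of_eq ?_))
  · rw [norm_mul, norm_prod]
    refine mul_le_mul (hc l) (Finset.prod_le_prod (fun i _ => norm_nonneg _) fun i _ => ?_)
      (Finset.prod_nonneg fun i _ => norm_nonneg _) ((norm_nonneg _).trans (hc l))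
    obtain ⟨k1, k2, k3⟩ := hK i N (κ i) (W.ptF N κ i) rfl z
    have k4 := (l (i, 0)).2
    have k5 := (l (i, 1)).2
    rw [norm_mul, norm_mul, norm_pow, norm_pow, norm_pow]
    calc _ ≤ E ^ (l (i, 0) : ℕ) * E ^ (l (i, 1) : ℕ) *
          E ^ (3 * D - 2 * (l (i, 0) : ℕ) - (l (i, 1) : ℕ)) := by
          gcongr
          exacts [k1.trans (e2 i), k2.trans (e2 i), k3.trans (e2 i)]
      _ ≤ _ := by
          rw [← pow_add, ← pow_add]
          exact pow_le_pow_right₀ e1 (by omega)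
  · simp only [Finset.card_univ, Fintype.card_fun, Fintype.card_prod, Fintype.card_fin,
      nsmul_eq_mul]
    push_cast
    ring

theorem entF_vanish {N D T : ℕ} (hN : Odd N) (c : (Fin 2 × Fin 2 → Fin D) → ℂ)
    (hz : ∀ (κ : Fin 2 → Fin N × Fin N), ∀ j < T,
      W.ev2 (W.ptF N κ) ((⇑W.D2)^[j] (auxF c)) = 0)
    (κ : Fin 2 → Fin N × Fin N) (k : ℤ) : ∀ j < T,
      iteratedDeriv j (W.entF (W.ptF N κ) c) ((k : ℂ) * (W.Θ 0).ω / N) = 0 := by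
  have e := W.mv_pt2 (N := N) (fun i => ((((κ i).1 : ℕ) : ℤ), (((κ i).2 : ℕ) : ℤ))) k
  have g : W.Good (mv (W.ptF N κ) ((k : ℂ) * (W.Θ 0).ω / N)) := by
    rw [ptF, e]
    exact W.pt2_good hN _
  intro j hj
  rw [Filter.EventuallyEq.iteratedDeriv_eq j
    ((W.eventually_good g).mono fun z hz => W.entF_eq c hz)]
  refine iteratedDeriv_mul_eq_zero (Differentiable.analyticAt ?_ _) (W.analyticAt_ev2 _ g) T
    (fun j hj => ?_) j hj
  · have h1 := fun i => (W.Θ i).diff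
    fun_prop
  · obtain ⟨κ', h⟩ := W.exists_ptF hN fun i => ((((κ i).1 : ℕ) : ℤ) + k, (((κ i).2 : ℕ) : ℤ))
    rw [W.iteratedDeriv_ev2 _ g, ptF, e, h]
    exact hz κ' j hj

theorem small_values : ∃ C : ℕ, ∀ (N D T r : ℕ) (Bc : ℝ) (c : (Fin 2 × Fin 2 → Fin D) → ℂ),
    Odd N → 1 ≤ r → 0 ≤ Bc → (∀ l, ‖c l‖ ≤ Bc) →
    (∀ (κ : Fin 2 → Fin N × Fin N), ∀ j < T, W.ev2 (W.ptF N κ) ((⇑W.D2)^[j] (auxF c)) = 0) →
    ∀ (κ : Fin 2 → Fin N × Fin N) (j : ℕ), ‖W.ev2 (W.ptF N κ) ((⇑W.D2)^[j] (auxF c))‖ ≤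
      Bc * (D : ℝ) ^ 4 * (j.factorial : ℝ) * ((C : ℝ) * N) ^ (j + 6 * D) *
        2 ^ (C * D * r ^ 2) * (1 / 2) ^ (N * r * T) := by
  obtain ⟨C, hC, h1⟩ := W.entF_bound
  choose L l1 l2 using fun i => (W.Θ i).lower_pt
  obtain ⟨M, hM⟩ := exists_nat_ge (C * (25 * (‖(W.Θ 0).ω‖ + 1) ^ 2 + 1))
  refine ⟨∑ i, L i + 2 * M, fun N D T r Bc c hN hr hB hc hz κ j => ?_⟩
  have hN0 : (1 : ℝ) ≤ N := Nat.one_le_cast.2 hN.pos
  have hN1 : (N : ℂ) ≠ 0 := Nat.cast_ne_zero.2 hN.pos.ne'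
  have hr0 : (1 : ℝ) ≤ r := Nat.one_le_cast.2 hr
  have hω := norm_nonneg (W.Θ 0).ω
  have k1 : ∀ z : ℂ, ‖z‖ ≤ 1 → ‖W.entF (W.ptF N κ) c z‖ ≤
      Bc * (D : ℝ) ^ 4 * 2 ^ (2 * M * D * r ^ 2) * (1 / 2) ^ (N * r * T) := by
    intro z hz1
    have k := schwarz_mult _ (W.differentiable_entF (W.ptF N κ) c)
      ((Finset.range (N * r)).image fun k : ℕ => ((k : ℤ) : ℂ) * (W.Θ 0).ω / N) T
      (r * (‖(W.Θ 0).ω‖ + 1)) (Bc * (D : ℝ) ^ 4 * 2 ^ (2 * M * D * r ^ 2)) (by positivity)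
      (fun a ha => ?_) (fun a ha => ?_) (fun w hw => (h1 N D κ Bc c hc w).trans ?_) z
      (hz1.trans (by linarith only [hr0, hω, mul_nonneg_of_nonpos_of_nonpos (Mathlib.Tactic.Linarith.sub_nonpos_of_le (Mathlib.Tactic.Linarith.natCast_nonneg ℝ r)) (Mathlib.Tactic.Linarith.sub_nonpos_of_le hω)]))
    · rwa [Finset.card_image_of_injective, Finset.card_range] at k
      intro a b hab
      have k2 := mul_right_cancel₀ (W.Θ 0).ω_ne ((div_left_inj' hN1).1 hab)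
      exact_mod_cast k2
    · obtain ⟨k, k2, rfl⟩ := Finset.mem_image.1 ha
      have k3 : (k : ℝ) ≤ N * r := by exact_mod_cast (Finset.mem_range.1 k2).le
      rw [norm_div, norm_mul, Int.cast_natCast, Complex.norm_natCast, Complex.norm_natCast,
        div_le_iff₀ (by positivity)]
      linarith only [k3, hω, mul_le_mul_of_nonneg_right k3 hω]
    · obtain ⟨k, -, rfl⟩ := Finset.mem_image.1 ha
      exact W.entF_vanish hN c hz κ k
    · refine mul_le_mul_of_nonneg_left ?_ (by positivity)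
      have k2 : ‖w‖ ^ 2 + 1 ≤ (25 * (‖(W.Θ 0).ω‖ + 1) ^ 2 + 1) * r ^ 2 := by
        have k3 := pow_le_pow_left₀ (norm_nonneg w) hw 2
        linarith only [hr0, k3, mul_nonneg_of_nonpos_of_nonpos (Mathlib.Tactic.Linarith.sub_nonpos_of_le (Mathlib.Tactic.Linarith.natCast_nonneg ℝ r)) (Mathlib.Tactic.Linarith.sub_nonpos_of_le hr0)]
      calc _ ≤ Real.exp (((M * D * r ^ 2 : ℕ) : ℝ) * 1) := by
            refine Real.exp_le_exp.2 ?_
            push_cast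
            calc _ ≤ C * D * ((25 * (‖(W.Θ 0).ω‖ + 1) ^ 2 + 1) * r ^ 2) := by gcongr
              _ = C * (25 * (‖(W.Θ 0).ω‖ + 1) ^ 2 + 1) * (D * r ^ 2) := by ring
              _ ≤ M * (D * r ^ 2) := by gcongr
              _ = _ := by ring
        _ ≤ (2 ^ 2) ^ (M * D * r ^ 2) := by
            rw [Real.exp_nat_mul]
            exact pow_le_pow_left₀ (Real.exp_pos 1).le (by linarith only [Real.exp_one_lt_d9]) _
        _ = _ := by
            rw [← pow_mul]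
            congr 1
            ring
  obtain ⟨A, hA⟩ : ∃ A : ℝ, A = ((∑ i, L i : ℕ) : ℝ) * N := ⟨_, rfl⟩
  have a1 : ∀ i, (L i : ℝ) * N ≤ A := fun i => hA ▸ mul_le_mul_of_nonneg_right
    (Nat.cast_le.2 (Finset.single_le_sum (fun i _ => Nat.zero_le (L i)) (Finset.mem_univ i)))
    (by positivity)
  have a2 : ∀ i, (1 : ℝ) ≤ L i * N := fun i =>
    one_le_mul_of_one_le_of_one_le (Nat.one_le_cast.2 (l1 i)) hN0
  have a3 : 1 ≤ A := (a2 0).trans (a1 0)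
  have a4 : 0 < 1 / A := by positivity
  have k2 : ∀ z : ℂ, ‖z‖ ≤ 1 / A → ∀ i, 1 / A ≤ ‖(W.Θ i).θ ((W.ptF N κ i).1 + z)‖ := by
    intro z hz1 i
    have k := one_div_le_one_div_of_le (one_pos.trans_le (a2 i)) (a1 i)
    exact k.trans (l2 i N hN (κ i) z (hz1.trans k))
  have k3 : ∀ z : ℂ, ‖z‖ ≤ 1 / A → W.Good (mv (W.ptF N κ) z) := fun z hz1 i =>
    norm_pos_iff.1 (a4.trans_le (k2 z hz1 i))
  have k4 := cauchy_iter (fun w => W.ev2 (mv (W.ptF N κ) w) (auxF c)) (1 / A)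
    (Bc * (D : ℝ) ^ 4 * 2 ^ (2 * M * D * r ^ 2) * (1 / 2) ^ (N * r * T) * A ^ (6 * D)) a4
    (fun z hz1 => (W.analyticAt_ev2 _ (k3 z (mem_closedBall_zero_iff.1 hz1))).differentiableAt
      |>.differentiableWithinAt) (fun z hz1 => ?_) j
  · rw [W.iteratedDeriv_ev2 _ (k3 0 (by simpa using a4.le)), mv_zero] at k4
    have k5 : A ≤ ((∑ i, L i + 2 * M : ℕ) : ℝ) * N := hA ▸ mul_le_mul_of_nonneg_right
      (Nat.cast_le.2 (Nat.le_add_right _ _)) (by positivity)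
    have k6 : (2 : ℝ) ^ (2 * M * D * r ^ 2) ≤ 2 ^ ((∑ i, L i + 2 * M) * D * r ^ 2) :=
      pow_le_pow_right₀ one_le_two (by gcongr; exact Nat.le_add_left _ _)
    calc _ ≤ _ := k4
      _ = Bc * (D : ℝ) ^ 4 * (j.factorial : ℝ) * A ^ (j + 6 * D) * 2 ^ (2 * M * D * r ^ 2) *
          (1 / 2) ^ (N * r * T) := by
          rw [one_div A, inv_pow, div_inv_eq_mul]
          ring
      _ ≤ _ := by gcongr
  · have k5 := k1 z (hz1.trans ((div_le_one (by positivity)).2 a3))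
    have k6 : ∏ _i : Fin 2, (1 / A) ^ (3 * D) ≤
        ∏ i, ‖(W.Θ i).θ ((W.ptF N κ i).1 + z) ^ (3 * D)‖ :=
      Finset.prod_le_prod (fun i _ => by positivity) fun i _ => by
        rw [norm_pow]
        exact pow_le_pow_left₀ a4.le (k2 z hz1 i) _
    rw [W.entF_eq c (k3 z hz1), norm_mul, norm_prod] at k5
    rw [Fin.prod_const, ← pow_mul, show 3 * D * 2 = 6 * D by ring, one_div, inv_pow] at k6
    rw [← div_le_iff₀ (by positivity), div_eq_inv_mul]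
    exact (mul_le_mul_of_nonneg_right k6 (norm_nonneg _)).trans k5

end Pair

end Pool.Agent.E21
end
end

-- merged part: Pool.Agent.Work.MP_e21d36_nt.Sys
section
-- merged part: Pool.Agent.Work.MP_e21d36_nt.TR1
section
/-!
# Expansions at the origin

Plan.  `th0 = dslope θ 0` is entire (`Complex.differentiableOn_dslope`), `θ x = x * th0 x`
(`sub_smul_dslope`, `θ_zero`), `th0 0 = deriv θ 0 = 1`.  On a punctured neighbourhood of `0`
(`eventually_ne`): `pF = x^2 xf`, `qF = x^3 yf`, `rF = x zt`, `iF = x / θ`; differentiate these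
there to get `pF = rF - x rF'`, `qF = x pF' - 2 pF`, `x iF' = -(rF - 1) iF`, and pass to Taylor
series with `tay_congr`, `tay_sub`, `tay_mul`, `coeff_tay_euler`.  `rF` is even, so
`deriv rF 0 = 0`.
`tay_half`: `E x = xf (x + ω/2) - e0` is analytic at `0`, `coeff n (tay E)` is
`ev1 (ω/2, 0) (D1^[n] (X 0)) / n!` for `n ≥ 1` (`iteratedDeriv_ev1`,
`iteratedDeriv_comp_add_const`), zero for `n = 0, 1` (`yf_half`), so `tay E = C k0 * X^2 * gH`;
`half_period` gives `(pF - e0 x^2) E = k0 x^2` near `0`; cancel `C k0 * X^2` in the domain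
`ℂ⟦X⟧` (`k0_ne`).
-/

namespace Pool.Agent.E21

open Filter Topology PowerSeries

namespace Theta

variable (Θ : Theta)

theorem differentiable_th0 : Differentiable ℂ Θ.th0 := by
  exact differentiableOn_univ.1
    ((Complex.differentiableOn_dslope univ_mem).2 Θ.diff.differentiableOn)

theorem th0_zero : Θ.th0 0 = 1 := by
  rw [th0, dslope_same, Θ.deriv0]

theorem θ_eq_mul_th0 (x : ℂ) : Θ.θ x = x * Θ.th0 x := by
  have h := sub_smul_dslope Θ.θ 0 x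
  rw [sub_zero, Θ.θ_zero, sub_zero, smul_eq_mul] at h
  exact h.symm

theorem analyticAt_pF : AnalyticAt ℂ Θ.pF 0 := by
  exact (Θ.differentiable_nA.analyticAt 0).div ((Θ.differentiable_th0.analyticAt 0).pow 2)
    (by simp [Θ.th0_zero])

theorem analyticAt_qF : AnalyticAt ℂ Θ.qF 0 := by
  exact (Θ.differentiable_nB.analyticAt 0).div ((Θ.differentiable_th0.analyticAt 0).pow 3)
    (by simp [Θ.th0_zero])

theorem analyticAt_rF : AnalyticAt ℂ Θ.rF 0 := by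
  exact (Θ.differentiable_deriv.analyticAt 0).div (Θ.differentiable_th0.analyticAt 0)
    (by simp [Θ.th0_zero])

theorem analyticAt_iF : AnalyticAt ℂ Θ.iF 0 := by
  exact (Θ.differentiable_th0.analyticAt 0).inv (by simp [Θ.th0_zero])

theorem TR1_ne {x : ℂ} (hx : Θ.θ x ≠ 0) : Θ.th0 x ≠ 0 :=
  right_ne_zero_of_mul (Θ.θ_eq_mul_th0 x ▸ hx)

theorem pF_eq {x : ℂ} (hx : Θ.θ x ≠ 0) : Θ.pF x = x ^ 2 * xf Θ.θ x := by
  have h := Θ.TR1_ne hx
  rw [pF, ← Θ.sq_mul_xf hx, Θ.θ_eq_mul_th0 x]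
  field_simp

theorem qF_eq {x : ℂ} (hx : Θ.θ x ≠ 0) : Θ.qF x = x ^ 3 * yf Θ.θ x := by
  have h := Θ.TR1_ne hx
  rw [qF, ← Θ.cube_mul_yf hx, Θ.θ_eq_mul_th0 x]
  field_simp

theorem rF_eq {x : ℂ} (hx : Θ.θ x ≠ 0) : Θ.rF x = x * zt Θ.θ x := by
  have h := Θ.TR1_ne hx
  rw [rF, ← Θ.mul_zt hx, Θ.θ_eq_mul_th0 x]
  field_simp

theorem iF_eq {x : ℂ} (hx : Θ.θ x ≠ 0) : Θ.iF x = x / Θ.θ x := by
  have h := Θ.TR1_ne hx
  have h' : x ≠ 0 := left_ne_zero_of_mul (Θ.θ_eq_mul_th0 x ▸ hx)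
  rw [iF, Θ.θ_eq_mul_th0 x]
  field_simp

theorem tay_iF_mul : tay Θ.iF * tay Θ.θ = PowerSeries.X := by
  rw [← tay_mul Θ.analyticAt_iF (Θ.analyticAt 0), ← tay_id]
  refine tay_congr (Θ.analyticAt_iF.mul (Θ.analyticAt 0)) analyticAt_id
    ((Θ.eventually_ne 0).mono fun x hx => ?_)
  beta_reduce
  rw [Θ.iF_eq hx, div_mul_cancel₀ _ hx]

theorem TR1_drF {x : ℂ} (hx : Θ.θ x ≠ 0) : x * deriv Θ.rF x = Θ.rF x - Θ.pF x := by
  have h : HasDerivAt Θ.rF (1 * zt Θ.θ x + x * -xf Θ.θ x) x :=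
    ((hasDerivAt_id' x).mul (Θ.hasDerivAt_zt hx)).congr_of_eventuallyEq
      ((Θ.eventually_ne_of_ne hx).mono fun y hy => Θ.rF_eq hy)
  rw [h.deriv, Θ.rF_eq hx, Θ.pF_eq hx]
  ring

theorem TR1_dpF {x : ℂ} (hx : Θ.θ x ≠ 0) : x * deriv Θ.pF x = Θ.pF x + Θ.pF x + Θ.qF x := by
  have h : HasDerivAt Θ.pF (((2 : ℕ) : ℂ) * x ^ (2 - 1) * xf Θ.θ x + x ^ 2 * yf Θ.θ x) x :=
    ((hasDerivAt_pow 2 x).mul (Θ.hasDerivAt_xf hx)).congr_of_eventuallyEq
      ((Θ.eventually_ne_of_ne hx).mono fun y hy => Θ.pF_eq hy)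
  rw [h.deriv, Θ.qF_eq hx, Θ.pF_eq hx]
  push_cast
  ring

theorem TR1_diF {x : ℂ} (hx : Θ.θ x ≠ 0) : x * deriv Θ.iF x = Θ.iF x - Θ.rF x * Θ.iF x := by
  have h : HasDerivAt Θ.iF ((1 * Θ.θ x - x * deriv Θ.θ x) / Θ.θ x ^ 2) x :=
    ((hasDerivAt_id' x).div (Θ.diff x).hasDerivAt hx).congr_of_eventuallyEq
      ((Θ.eventually_ne_of_ne hx).mono fun y hy => Θ.iF_eq hy)
  rw [h.deriv, Θ.rF_eq hx, Θ.iF_eq hx, zt]
  field_simp

theorem TR1_euler {f g : ℂ → ℂ} (hf : AnalyticAt ℂ f 0) (hg : AnalyticAt ℂ g 0)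
    (h : ∀ x, Θ.θ x ≠ 0 → x * deriv f x = g x) (n : ℕ) :
    (n : ℂ) * coeff n (tay f) = coeff n (tay g) := by
  rw [← coeff_tay_euler hf, tay_congr (f := fun x => x * deriv f x)
    (analyticAt_id.mul hf.deriv) hg ((Θ.eventually_ne 0).mono h)]

theorem coeff_pF (n : ℕ) : coeff n (tay Θ.pF) = (1 - (n : ℂ)) * coeff n (tay Θ.rF) := by
  have h := Θ.TR1_euler Θ.analyticAt_rF (g := fun x => Θ.rF x - Θ.pF x)
    (Θ.analyticAt_rF.sub Θ.analyticAt_pF) (fun x => Θ.TR1_drF) n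
  rw [tay_sub Θ.analyticAt_rF Θ.analyticAt_pF, map_sub] at h
  linear_combination h

theorem coeff_qF (n : ℕ) : coeff n (tay Θ.qF) = ((n : ℂ) - 2) * coeff n (tay Θ.pF) := by
  have h := Θ.TR1_euler Θ.analyticAt_pF (g := fun x => Θ.pF x + Θ.pF x + Θ.qF x)
    ((Θ.analyticAt_pF.add Θ.analyticAt_pF).add Θ.analyticAt_qF) (fun x => Θ.TR1_dpF) n
  rw [tay_add (f := fun x => Θ.pF x + Θ.pF x) (Θ.analyticAt_pF.add Θ.analyticAt_pF)
    Θ.analyticAt_qF, tay_add Θ.analyticAt_pF Θ.analyticAt_pF, map_add, map_add] at h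
  linear_combination -h

theorem coeff_iF (n : ℕ) :
    (n : ℂ) * coeff n (tay Θ.iF) = - coeff n ((tay Θ.rF - 1) * tay Θ.iF) := by
  have h := Θ.TR1_euler Θ.analyticAt_iF (g := fun x => Θ.iF x - Θ.rF x * Θ.iF x)
    (Θ.analyticAt_iF.sub (Θ.analyticAt_rF.mul Θ.analyticAt_iF)) (fun x => Θ.TR1_diF) n
  rw [tay_sub (g := fun x => Θ.rF x * Θ.iF x) Θ.analyticAt_iF
    (Θ.analyticAt_rF.mul Θ.analyticAt_iF), tay_mul Θ.analyticAt_rF Θ.analyticAt_iF] at h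
  rw [h, ← map_neg]
  congr 1
  ring

theorem coeff_zero_pF : coeff 0 (tay Θ.pF) = 1 := by
  rw [coeff_zero_tay, pF, Θ.nA_zero, Θ.th0_zero]
  simp

theorem coeff_zero_rF : coeff 0 (tay Θ.rF) = 1 := by
  rw [coeff_zero_tay, rF, Θ.deriv0, Θ.th0_zero]
  simp

theorem coeff_one_rF : coeff 1 (tay Θ.rF) = 0 := by
  have h := coeff_tay_scale Θ.analyticAt_rF (-1) 1
  have ha : AnalyticAt ℂ (fun x => Θ.rF (-1 * x)) 0 :=
    AnalyticAt.fun_comp_of_eq Θ.analyticAt_rF (by fun_prop) (by simp)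
  rw [tay_congr ha Θ.analyticAt_rF ((Θ.eventually_ne 0).mono fun x hx => by
    have hx' : Θ.θ (-x) ≠ 0 := by rw [Θ.odd]; exact neg_ne_zero.2 hx
    beta_reduce
    rw [neg_one_mul, Θ.rF_eq hx', Θ.rF_eq hx, Θ.zt_neg, neg_mul_neg])] at h
  linear_combination (1 / 2 : ℂ) * h

theorem coeff_zero_iF : coeff 0 (tay Θ.iF) = 1 := by
  rw [coeff_zero_tay, iF, Θ.th0_zero, inv_one]

/-- The normalised Taylor series of `xf` at the half period. -/
noncomputable def gH : ℂ⟦X⟧ := PowerSeries.mk fun n =>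
  Θ.ev1 (Θ.ω / 2, 0) ((⇑Θ.D1)^[n + 2] (MvPolynomial.X 0)) / ((n + 2).factorial : ℂ) * Θ.k0⁻¹

theorem TR1_D0 : Θ.D1 (MvPolynomial.X 0) = MvPolynomial.X 1 := by
  rw [D1, MvPolynomial.mkDerivation_X]
  rfl

theorem TR1_D1 : Θ.D1 (MvPolynomial.X 1) =
    6 * MvPolynomial.X 0 ^ 2 + MvPolynomial.C Θ.a2 * MvPolynomial.X 0 + MvPolynomial.C Θ.a1 := by
  rw [D1, MvPolynomial.mkDerivation_X]
  rfl

theorem coeff_zero_gH : coeff 0 Θ.gH = 1 := by
  have h : Θ.ev1 (Θ.ω / 2, 0) ((⇑Θ.D1)^[0 + 2] (MvPolynomial.X 0)) = 2 * Θ.k0 := by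
    change Θ.ev1 (Θ.ω / 2, 0) (Θ.D1 (Θ.D1 (MvPolynomial.X 0))) = _
    rw [Θ.TR1_D0, Θ.TR1_D1]
    simp only [map_add, map_mul, map_pow, map_ofNat, Θ.ev1_X0, Θ.ev1_C]
    unfold k0 e0
    ring
  have hk := Θ.k0_ne
  rw [gH, coeff_mk, h]
  norm_num
  field_simp

theorem TR1_coeff (n : ℕ) : coeff n (tay fun x => xf Θ.θ (x + Θ.ω / 2)) =
    Θ.ev1 (Θ.ω / 2, 0) ((⇑Θ.D1)^[n] (MvPolynomial.X 0)) / (n.factorial : ℂ) := by
  rw [coeff_tay, iteratedDeriv_comp_add_const, ← Θ.iteratedDeriv_ev1 _ Θ.θ_half]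
  simp only [Θ.ev1_X0, zero_add]

theorem TR1_half : (tay fun x => xf Θ.θ (x + Θ.ω / 2)) - PowerSeries.C Θ.e0 =
    PowerSeries.X ^ 2 * (PowerSeries.C Θ.k0 * Θ.gH) := by
  ext n
  rw [map_sub, Θ.TR1_coeff, coeff_X_pow_mul', coeff_C]
  match n with
  | 0 => simp [Θ.ev1_X0, e0]
  | 1 => simp [Θ.TR1_D0, Θ.ev1_X1, Θ.yf_half]
  | n + 2 =>
    have hk := Θ.k0_ne
    rw [if_neg (by omega), if_pos (by omega), Nat.add_sub_cancel, coeff_C_mul, gH, coeff_mk,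
      sub_zero]
    field_simp

theorem tay_half : Θ.gH * (tay Θ.pF - PowerSeries.C Θ.e0 * PowerSeries.X ^ 2) = 1 := by
  have hE : AnalyticAt ℂ (fun x => xf Θ.θ (x + Θ.ω / 2)) 0 :=
    AnalyticAt.fun_comp_of_eq (Θ.analyticAt_xf Θ.θ_half) (by fun_prop) (by simp)
  have hc : ∀ᶠ y in 𝓝 (0 : ℂ), Θ.θ (y + Θ.ω / 2) ≠ 0 :=
    ((continuous_id.add continuous_const).tendsto 0).eventually
      (Θ.eventually_ne_of_ne (by simpa using Θ.θ_half))
  have h2 : ∀ c : ℂ, AnalyticAt ℂ (fun x : ℂ => c * x ^ 2) 0 := fun c => by fun_prop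
  have h3 : ∀ c : ℂ, (tay fun x => c * x ^ 2) = PowerSeries.C c * PowerSeries.X ^ 2 := fun c => by
    rw [tay_mul (f := fun _ => c) (g := fun x => x ^ 2) analyticAt_const (by fun_prop), tay_const,
      tay_pow (f := fun x => x) analyticAt_id, tay_id]
  have h1 := tay_congr (f := fun x => (Θ.pF x - Θ.e0 * x ^ 2) * (xf Θ.θ (x + Θ.ω / 2) - Θ.e0))
    ((Θ.analyticAt_pF.sub (h2 _)).mul (hE.sub analyticAt_const)) (h2 Θ.k0)
    (((Θ.eventually_ne 0).and (hc.filter_mono nhdsWithin_le_nhds)).mono fun x hx => by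
      beta_reduce
      rw [Θ.pF_eq hx.1, ← Θ.half_period hx.1 hx.2]
      ring)
  rw [tay_mul (f := fun x => Θ.pF x - Θ.e0 * x ^ 2) (g := fun x => xf Θ.θ (x + Θ.ω / 2) - Θ.e0)
    (Θ.analyticAt_pF.sub (h2 _)) (hE.sub analyticAt_const), tay_sub Θ.analyticAt_pF (h2 _),
    tay_sub hE (g := fun _ => Θ.e0) analyticAt_const, tay_const, h3, h3, Θ.TR1_half] at h1
  have hne : (PowerSeries.C Θ.k0 * PowerSeries.X ^ 2 : ℂ⟦X⟧) ≠ 0 :=
    mul_ne_zero (fun e => Θ.k0_ne (by simpa using congrArg (coeff 0) e))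
      (pow_ne_zero _ PowerSeries.X_ne_zero)
  apply mul_left_cancel₀ hne
  linear_combination h1

end Theta

end Pool.Agent.E21
end

-- merged part: Pool.Agent.Work.MP_e21d36_nt.TR2
section
/-!
# The four basic series lie in the class

Plan.  `D1_gen_sz`: `mkDerivation_X`, `Derivation.map_algebraMap` / `derivation_C`.
`ev_half_sz`: `Sz.ringHom` with `crd_half`.
`cl_gH`: for `n ≥ 1`, `(n+2)! ∣ (k n)!` when `k ≥ 3`; `Sz.iter` gives size `(8 (n+3))^(n+2)`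
and degree `n + 3` for `D1^[n+2] (X 0)`, one more generator `k0⁻¹`; and
`(n+3)^(n+2) ≤ 3^(n+3) (n+2)!` (from `m^m ≤ 3^m m!`, e.g. `Real.pow_div_factorial_le_exp` and
`Real.exp_one_lt_d9`, or `Nat.pow_le_choose`-free induction), so the size is at most
`8^2 3^3 * 24^n * (k n)!`; use `Cl.absorb` (or take `k = 24 * 1728`).
`cl_basic`: `Cl.inv` with `tay_half`; add `C e0 * X^2` (direct check, `Cl.mono_k`), `Cl.absorb`;
`Cl.euler`, `Cl.add`, `Cl.neg` for `qF` (constant coefficient `-2`), `Cl.div_pred` for `rF`,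
`Cl.exp_rec` for `iF`; bring all to a common `k` by `Cl.mono_k`, `Cl.mono`.
`sz_Pm`: induction with `Sz.deriv`.
-/

namespace Pool.Agent.E21

namespace Theta

variable (Θ : Theta)

theorem TR2_X (i : Fin 3) : Sz Θ.G1 1 1 (MvPolynomial.X i) := Sz.gen (Or.inl ⟨i, rfl⟩)

theorem TR2_C {c : ℂ} (hc : c ∈ Θ.data) : Sz Θ.G1 1 1 (MvPolynomial.C c) :=
  Sz.gen (Or.inr ⟨c, hc, rfl⟩)

theorem TR2_pow (m : ℕ) : m ^ m ≤ 3 ^ m * m.factorial := by
  have h1 := Real.pow_div_factorial_le_exp (m : ℝ) (Nat.cast_nonneg m) m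
  have h2 : Real.exp m ≤ 3 ^ m := by
    rw [← Real.exp_one_pow]
    exact pow_le_pow_left₀ (Real.exp_pos 1).le (by linarith only [Real.exp_one_lt_d9]) m
  have h3 : (0 : ℝ) < m.factorial := by exact_mod_cast m.factorial_pos
  rw [div_le_iff₀ h3] at h1
  have h4 : (m : ℝ) ^ m ≤ 3 ^ m * m.factorial := h1.trans (mul_le_mul_of_nonneg_right h2 h3.le)
  exact_mod_cast h4

theorem TR2_bound (n : ℕ) : (8 * (1 + (n + 2))) ^ (n + 2) ≤ 1728 * 24 ^ n * (n + 2).factorial := by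
  have h1 := TR2_pow (n + 3)
  rw [pow_succ (n + 3) (n + 2), Nat.factorial_succ (n + 2)] at h1
  have h2 : (n + 3) ^ (n + 2) ≤ 3 ^ (n + 3) * (n + 2).factorial :=
    Nat.le_of_mul_le_mul_right (h1.trans (le_of_eq (by ring))) (Nat.succ_pos (n + 2))
  have e : 1 + (n + 2) = n + 3 := by omega
  have e2 : 24 ^ n = 8 ^ n * 3 ^ n := mul_pow 8 3 n
  rw [e, mul_pow, e2]
  calc 8 ^ (n + 2) * (n + 3) ^ (n + 2) ≤ 8 ^ (n + 2) * (3 ^ (n + 3) * (n + 2).factorial) :=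
        Nat.mul_le_mul_left _ h2
    _ = _ := by ring

theorem D1_gen_sz : ∀ g ∈ Θ.G1, Sz Θ.G1 2 8 (Θ.D1 g) := by
  rintro g (⟨i, rfl⟩ | ⟨c, -, rfl⟩)
  · rw [D1, MvPolynomial.mkDerivation_X]
    fin_cases i
    · exact (Θ.TR2_X 1).mono (by omega) (by omega)
    · have h1 := Sz.natCast_mul 6 ((Θ.TR2_X 0).pow 2)
      have h2 := (Θ.TR2_C (c := Θ.a2) (by simp [data])).mul (Θ.TR2_X 0)
      have h3 := (Θ.TR2_C (c := Θ.a1) (by simp [data])).mono (n' := 2) (by omega) le_rfl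
      exact (h1.add h2).add h3
    · exact (Θ.TR2_X 0).neg.mono (by omega) (by omega)
  · rw [MvPolynomial.derivation_C]
    exact Sz.zero _ _

theorem ev_half_sz {n H : ℕ} {Q : P1} (h : Sz Θ.G1 n H Q) :
    Sz Θ.data n H (Θ.ev1 (Θ.ω / 2, 0) Q) := by
  refine Sz.ringHom (Θ.ev1 (Θ.ω / 2, 0)).toRingHom ?_ h
  rintro g (⟨i, rfl⟩ | ⟨c, hc, rfl⟩)
  · have e : (Θ.ev1 (Θ.ω / 2, 0)).toRingHom (MvPolynomial.X i) = ![Θ.e0, 0, 0] i := by
      rw [← Θ.crd_half]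
      exact MvPolynomial.aeval_X _ i
    rw [e]
    fin_cases i
    · exact Or.inl (by simp [data])
    · exact Or.inr rfl
    · exact Or.inr rfl
  · have e : (Θ.ev1 (Θ.ω / 2, 0)).toRingHom (MvPolynomial.C c) = c := Θ.ev1_C _ c
    rw [e]
    exact Or.inl hc

theorem cl_gH : ∃ k : ℕ, Cl Θ.data k 0 1 0 Θ.gH := by
  have h : Cl Θ.data 24 4 1728 0 Θ.gH := fun n => by
    change Cls_Q Θ.data (24 * n + 4) (1728 * (n + 1) ^ 0 * 24 ^ n) (24 * n).factorial _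
    rcases Nat.eq_zero_or_pos n with rfl | hn
    · rw [Θ.coeff_zero_gH]
      exact Cls_dvd Cls_one (by omega) (by norm_num) (one_dvd _)
    · have h1 := (Θ.ev_half_sz (Sz.iter Θ.D1 Θ.D1_gen_sz (Θ.TR2_X 0) (n + 2))).mul
        (Sz.gen (G := Θ.data) (g := Θ.k0⁻¹) (by simp [data]))
      have h2 : Cls_Q Θ.data (n + 4) (1728 * 24 ^ n) (n + 2).factorial
          (PowerSeries.coeff n Θ.gH) := by
        have hf : ((n + 2).factorial : ℂ) ≠ 0 := by exact_mod_cast (n + 2).factorial_ne_zero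
        unfold Cls_Q
        rw [gH, PowerSeries.coeff_mk, ← mul_assoc, mul_div_cancel₀ _ hf]
        refine h1.mono (by omega) ?_
        rw [mul_one, mul_one]
        exact TR2_bound n
      exact Cls_dvd h2 (by omega) (by rw [pow_zero, mul_one])
        (Nat.factorial_dvd_factorial (by omega))
  obtain ⟨k, -, hk⟩ := h.absorb le_rfl (by rw [Θ.coeff_zero_gH]; exact Sz.one 0)
  exact ⟨k, hk⟩

theorem cl_basic : ∃ k : ℕ, 1 ≤ k ∧ Cl Θ.data k 0 2 0 (tay Θ.pF) ∧ Cl Θ.data k 0 2 0 (tay Θ.qF) ∧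
    Cl Θ.data k 0 2 0 (tay Θ.rF) ∧ Cl Θ.data k 0 2 0 (tay Θ.iF) := by
  obtain ⟨k1, h1⟩ := Θ.cl_gH
  have h2 := h1.inv Θ.coeff_zero_gH Θ.tay_half
  have h3 : Cl Θ.data 1 0 1 0 (PowerSeries.C Θ.e0 * PowerSeries.X ^ 2) := fun n => by
    rw [PowerSeries.coeff_C_mul, PowerSeries.coeff_X_pow]
    split_ifs with hn
    · subst hn
      rw [mul_one Θ.e0]
      exact (Sz.natCast_mul _ (Sz.gen (by simp [data]))).mono (by omega) (by simp)
    · rw [mul_zero, mul_zero]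
      exact Sz.zero _ _
  have hp : Cl Θ.data (2 * k1 + 1) 0 2 0 (tay Θ.pF) := by
    have := (h2.mono_k (Nat.le_succ _)).add (h3.mono_k (Nat.le_add_left 1 (2 * k1)))
    rw [sub_add_cancel] at this
    exact this
  have h4 : Cl Θ.data (2 * k1 + 1) 0 2 1
      (PowerSeries.mk fun n => (n : ℂ) * PowerSeries.coeff n (tay Θ.pF)) :=
    hp.euler fun n => PowerSeries.coeff_mk _ _
  have h5 := (hp.mono le_rfl le_rfl (Nat.zero_le 1)).neg
  have h6 := (h4.add h5).add h5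
  have e : (PowerSeries.mk fun n => (n : ℂ) * PowerSeries.coeff n (tay Θ.pF)) + -tay Θ.pF +
      -tay Θ.pF = tay Θ.qF := by
    ext n
    rw [map_add, map_add, map_neg, PowerSeries.coeff_mk, Θ.coeff_qF]
    ring
  rw [e] at h6
  obtain ⟨k2, -, hq⟩ := h6.absorb (M0 := 2) (by omega) (by
    have e2 : PowerSeries.coeff 0 (tay Θ.qF) = -((2 : ℕ) : ℂ) := by
      rw [Θ.coeff_qF, Θ.coeff_zero_pF]
      norm_num
    rw [e2]
    exact (Sz.natCast 0 2).neg)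
  have hr := hp.div_pred Θ.coeff_pF Θ.coeff_one_rF
  have hi := hr.exp_rec (by omega) Θ.coeff_zero_rF Θ.coeff_zero_iF Θ.coeff_iF
  exact ⟨k2 + 4 * (2 * k1 + 1 + 1), by omega, hp.mono_k (by omega), hq.mono_k (by omega),
    hr.mono_k (by omega), (hi.mono le_rfl (by omega) le_rfl).mono_k (by omega)⟩

theorem sz_Pm (m : ℕ) : Sz Θ.G1 m ((9 * (m + 1)) ^ m) (Θ.Pm m) := by
  induction m with
  | zero => exact Sz.one 0
  | succ m ih =>
    have h1 := Sz.deriv Θ.D1 Θ.D1_gen_sz ih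
    have h2 := ((Θ.TR2_X 2).mul ih).mono (n' := m + 1) (by omega) le_rfl
    refine (h1.add h2).mono le_rfl ?_
    have h3 : (9 * (m + 1)) ^ m ≤ (9 * (m + 1 + 1)) ^ m := Nat.pow_le_pow_left (by omega) m
    calc 8 * m * (9 * (m + 1)) ^ m + 1 * (9 * (m + 1)) ^ m
        = (9 * (m + 1)) ^ m * (8 * m + 1) := by ring
      _ ≤ (9 * (m + 1 + 1)) ^ m * (9 * (m + 1 + 1)) := Nat.mul_le_mul h3 (by omega)
      _ = _ := (pow_succ _ _).symm

end Theta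

end Pool.Agent.E21
end

-- merged part: Pool.Agent.Work.MP_e21d36_nt.TR3
section
/-!
# The polynomials `Pm`, `Fl`: generating function and polar parts

Plan.  `ev1_Pm`: with `ψ y = exp (-(s y)) θ y`, prove by induction on `m`, for all `x` with
`θ x ≠ 0`: `iteratedDeriv m ψ x = ev1 (x, s) (Pm m) * ψ x` (`iteratedDeriv_succ`,
`EventuallyEq.deriv_eq`, `hasDerivAt_ev1`, `ψ' = (zt - s) ψ`), then
`exp (-(s u)) θ (x+u) = exp (s x) ψ (x + u)` (`iteratedDeriv_comp_const_add`).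
`ev1_Fl`: `tay_mul`, `coeff_mul`, `Finset.Nat.sum_antidiagonal_eq_sum_range_succ_mk`.
`noPole_Pm`: `N x = iteratedDeriv m (fun u => exp (-(s u)) θ (x+u)) 0 = exp (s x) ψ^(m) x` is
entire in `x`; `N x / θ x - N 0 / x = (N x - N 0 * th0 x) / x / th0 x` (`NoPole.div_pow`).
`noPole_Fl`: the residue is the coefficient of `u^(k+1)` in
`tay iF * tay θ * tay (exp (-(s u))) = X * tay (exp ..)` (`tay_iF_mul`, `coeff_tay_exp`).
`noPole_DFl`: induction on `i` with `NoPole.deriv`, `NoPole.congr`, `hasDerivAt_ev1`.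
-/

namespace Pool.Agent.E21

open Filter Topology PowerSeries

namespace Theta

variable (Θ : Theta)

theorem TR3_conv (A B : ℂ⟦X⟧) (l : ℕ) :
    coeff l (A * B) = ∑ m ∈ Finset.range (l + 1), coeff (l - m) A * coeff m B := by
  rw [mul_comm, coeff_mul, Finset.Nat.sum_antidiagonal_eq_sum_range_succ_mk]
  exact Finset.sum_congr rfl fun m _ => mul_comm _ _

theorem TR3_an (s : ℂ) : AnalyticAt ℂ (fun y => Complex.exp (-(s * y)) * Θ.θ y) 0 :=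
  AnalyticAt.mul (by fun_prop) (Θ.analyticAt 0)

theorem TR3_N (m : ℕ) (s x : ℂ) :
    iteratedDeriv m (fun u => Complex.exp (-(s * u)) * Θ.θ (x + u)) 0 =
      Complex.exp (s * x) * iteratedDeriv m (fun y => Complex.exp (-(s * y)) * Θ.θ y) x := by
  have h : (fun u => Complex.exp (-(s * u)) * Θ.θ (x + u)) = fun u => Complex.exp (s * x) *
      (fun y => Complex.exp (-(s * y)) * Θ.θ y) (x + u) := by
    funext u
    simp only
    rw [← mul_assoc, ← Complex.exp_add]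
    congr 2
    ring
  rw [h, iteratedDeriv_const_mul_field,
    iteratedDeriv_comp_const_add m (fun y => Complex.exp (-(s * y)) * Θ.θ y) x]
  simp only [add_zero]

theorem TR3_iter (s : ℂ) (m : ℕ) : ∀ x, Θ.θ x ≠ 0 →
    iteratedDeriv m (fun y => Complex.exp (-(s * y)) * Θ.θ y) x =
      Θ.ev1 (x, s) (Θ.Pm m) * (Complex.exp (-(s * x)) * Θ.θ x) := by
  induction m with
  | zero => intro x _; simp [Pm]
  | succ m ih =>
    intro x hx
    have h1 : iteratedDeriv m (fun y => Complex.exp (-(s * y)) * Θ.θ y) =ᶠ[𝓝 x]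
        fun y => Θ.ev1 (y, s) (Θ.Pm m) * (Complex.exp (-(s * y)) * Θ.θ y) :=
      (Θ.eventually_ne_of_ne hx).mono ih
    have h2 := (Θ.hasDerivAt_ev1 (Θ.Pm m) hx s).mul
      ((((hasDerivAt_id x).const_mul s).neg.cexp).mul (Θ.diff x).hasDerivAt)
    rw [iteratedDeriv_succ, h1.deriv_eq]
    refine h2.deriv.trans ?_
    rw [Pm, map_add, map_mul, ev1_X2, ← Θ.mul_zt hx]
    simp only [id, Pi.mul_apply, Pi.neg_apply]
    ring

theorem ev1_Pm (m : ℕ) {x : ℂ} (hx : Θ.θ x ≠ 0) (s : ℂ) : Θ.ev1 (x, s) (Θ.Pm m) =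
    iteratedDeriv m (fun u => Complex.exp (-(s * u)) * Θ.θ (x + u)) 0 / Θ.θ x := by
  rw [TR3_N, TR3_iter Θ s m x hx, eq_div_iff hx]
  have h : Complex.exp (s * x) * Complex.exp (-(s * x)) = 1 := by
    rw [← Complex.exp_add, add_neg_cancel, Complex.exp_zero]
  linear_combination (-(Θ.ev1 (x, s) (Θ.Pm m) * Θ.θ x)) * h

theorem ev1_Fl (l : ℕ) {x : ℂ} (hx : Θ.θ x ≠ 0) (s : ℂ) : Θ.ev1 (x, s) (Θ.Fl l) =
    coeff l (tay fun u => Θ.iF u * (Complex.exp (-(s * u)) * Θ.θ (x + u) / Θ.θ x)) := by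
  have h1 : AnalyticAt ℂ (fun u => Complex.exp (-(s * u)) * Θ.θ (x + u) / Θ.θ x) 0 := by
    refine Differentiable.analyticAt ?_ 0
    have := Θ.diff
    fun_prop
  rw [tay_mul Θ.analyticAt_iF h1, TR3_conv, Fl, map_sum]
  refine Finset.sum_congr rfl fun m _ => ?_
  rw [map_mul, ev1_C, Θ.ev1_Pm m hx, coeff_tay _ m, iteratedDeriv_div_const]
  ring

theorem noPole_Pm (m : ℕ) (s : ℂ) : NoPole (fun x => Θ.ev1 (x, s) (Θ.Pm m) -
    iteratedDeriv m (fun u => Complex.exp (-(s * u)) * Θ.θ u) 0 / x) 0 := by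
  obtain ⟨N, hN⟩ : ∃ N : ℂ → ℂ, N = fun x => Complex.exp (s * x) *
    iteratedDeriv m (fun y => Complex.exp (-(s * y)) * Θ.θ y) x := ⟨_, rfl⟩
  have h1 : AnalyticAt ℂ N 0 := by
    rw [hN, iteratedDeriv_eq_iterate]
    refine AnalyticAt.mul (by fun_prop) (AnalyticAt.iterated_deriv (TR3_an Θ s) m)
  have h2 : NoPole (fun x => (N x * Θ.iF x - N 0) / x ^ 1) 0 := by
    refine NoPole.div_pow ((h1.mul Θ.analyticAt_iF).sub analyticAt_const) 1 fun j hj => ?_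
    have : j = 0 := by omega
    subst this
    simp [iF, Θ.th0_zero]
  refine h2.congr ?_
  filter_upwards [Θ.eventually_ne 0, self_mem_nhdsWithin] with x hx hx0
  have hx1 : x ≠ 0 := hx0
  rw [Θ.ev1_Pm m hx, TR3_N, Θ.iF_eq hx, hN]
  simp only [mul_zero, Complex.exp_zero, one_mul]
  field_simp

theorem noPole_Fl (k : ℕ) (s : ℂ) : NoPole (fun x => Θ.ev1 (x, s) (Θ.Fl (k + 1)) -
    (-s) ^ k / (k.factorial : ℂ) / x) 0 := by
  have h1 := NoPole.sum (Finset.range (k + 1 + 1)) (z := 0) fun m _ =>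
    (NoPole.of_analyticAt (analyticAt_const
      (v := coeff (k + 1 - m) (tay Θ.iF) / (m.factorial : ℂ)))).mul (Θ.noPole_Pm m s)
  have h2 : ∑ m ∈ Finset.range (k + 1 + 1), coeff (k + 1 - m) (tay Θ.iF) / (m.factorial : ℂ) *
      iteratedDeriv m (fun u => Complex.exp (-(s * u)) * Θ.θ u) 0 =
      (-s) ^ k / (k.factorial : ℂ) := by
    have h3 : tay (fun u => Complex.exp (-(s * u)) * Θ.θ u) =
        tay (fun u => Complex.exp (-s * u)) * tay Θ.θ := by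
      simp only [neg_mul]
      exact tay_mul (by fun_prop) (Θ.analyticAt 0)
    have h4 := TR3_conv (tay Θ.iF) (tay fun u => Complex.exp (-(s * u)) * Θ.θ u) (k + 1)
    conv_lhs at h4 => rw [h3, mul_left_comm, Θ.tay_iF_mul, coeff_succ_mul_X, coeff_tay_exp]
    rw [h4]
    refine Finset.sum_congr rfl fun m _ => ?_
    rw [coeff_tay _ m]
    ring
  refine h1.congr (Eventually.of_forall fun x => ?_)
  simp only [← h2, Fl, map_sum, map_mul, ev1_C, Finset.sum_div, ← Finset.sum_sub_distrib]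
  refine Finset.sum_congr rfl fun m _ => ?_
  ring

theorem noPole_DFl (k i : ℕ) (s : ℂ) :
    NoPole (fun x => Θ.ev1 (x, s) ((⇑Θ.D1)^[i] (Θ.Fl (k + 1))) -
      (-s) ^ k / (k.factorial : ℂ) * ((-1) ^ i * (i.factorial : ℂ)) / x ^ (i + 1)) 0 := by
  induction i with
  | zero => simpa using Θ.noPole_Fl k s
  | succ i ih =>
    refine ih.deriv.congr ?_
    filter_upwards [Θ.eventually_ne 0, self_mem_nhdsWithin] with x hx hx0
    have hx1 : x ≠ 0 := hx0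
    have h1 := (Θ.hasDerivAt_ev1 ((⇑Θ.D1)^[i] (Θ.Fl (k + 1))) hx s).sub
      ((hasDerivAt_const x ((-s) ^ k / (k.factorial : ℂ) * ((-1) ^ i * (i.factorial : ℂ)))).div
        (hasDerivAt_pow (i + 1) x) (pow_ne_zero _ hx1))
    refine h1.deriv.trans ?_
    rw [Function.iterate_succ_apply', Nat.factorial_succ, Nat.add_sub_cancel]
    push_cast
    field_simp
    ring

end Theta

end Pool.Agent.E21
end

-- merged part: Pool.Agent.Work.MP_e21d36_nt.TR4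
section
/-!
# The distribution relation for the Kronecker function

Plan.  For fixed `u` let `Δ x` be the difference of the two sides, `R y = θ (y+u) / θ y`,
`Z = {x | θ (N x) = 0}`.  `R (y + ω) = R y`, `R (y + ω') = exp (-(ν u)) R y`.
`Δ (x + ω/N) = Δ x` and `Δ (x + ω'/N) = exp (-(ν u / N)) Δ x` off `Z`: shift the summation
index (write the sum as a double sum over `Finset.range N`; `Finset.sum_range_succ`,
`Finset.sum_range_succ'` give `∑ f (k+1) = ∑ f k` when `f N = f 0`).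
No pole at `0`: the terms with `κ ≠ 0` are analytic at `0` (`lat_inj`), and
`θ(u/N) θ(x+u)/θ(x) - N θ(u) θ(Nx+u/N)/θ(Nx)` is `(g x / x)` with `g` analytic, `g 0 = 0`
(write `θ y = y * dslope θ 0 y`); no pole at the other points of `Z` by the quasi periodicity
(compare `noPole_of_lat`; one can iterate the two relations), analytic off `Z`.
`liou_mul` with `a = ω/N`, `b = ω'/N` gives `Δ = 0` when `u = I t N / ν`, `t` real,
`0 < t < 2π`.  For fixed `x` both sides are entire in `u`; identity theorem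
(`AnalyticOnNhd.eq_of_frequently_eq` at `u = 0`).
-/

namespace Pool.Agent.E21

open Filter Topology

namespace PreTheta

variable (Θ : PreTheta)

theorem TR4_ne {N : ℕ} (hN : 1 ≤ N) : (N : ℂ) ≠ 0 := Nat.cast_ne_zero.2 (by omega)

theorem ne_of_mul_ne {N : ℕ} (hN : 1 ≤ N) {x : ℂ} (hx : Θ.θ (N * x) ≠ 0) (k l : ℤ) :
    Θ.θ (x + ((k : ℂ) * Θ.ω + (l : ℂ) * Θ.ω') / N) ≠ 0 := by
  intro h
  obtain ⟨a, b, e⟩ := (Θ.zero_iff _).1 h
  have hd := div_mul_cancel₀ ((k : ℂ) * Θ.ω + (l : ℂ) * Θ.ω') (TR4_ne hN)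
  refine hx ((Θ.zero_iff _).2 ⟨N * a - k, N * b - l, ?_⟩)
  push_cast
  linear_combination (N : ℂ) * e - hd

theorem TR4_R (u y : ℂ) (k l : ℤ) :
    Θ.θ (y + ((k : ℂ) * Θ.ω + (l : ℂ) * Θ.ω') + u) / Θ.θ (y + ((k : ℂ) * Θ.ω + (l : ℂ) * Θ.ω')) =
      Complex.exp (-(l * Θ.ν * u)) * (Θ.θ (y + u) / Θ.θ y) := by
  obtain ⟨c, c0, hc⟩ := Θ.TB1_lat k l
  rw [add_right_comm, (hc _).1, (hc _).1, mul_add, neg_add, Complex.exp_add, ← mul_assoc,
    mul_assoc (c * _), mul_div_mul_left _ _ (mul_ne_zero c0 (Complex.exp_ne_zero _)),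
    mul_div_assoc]

/-- One term of the sum. -/
noncomputable def TR4_F (N : ℕ) (u : ℂ) (k l : ℤ) (x : ℂ) : ℂ :=
  Complex.exp ((l : ℂ) * Θ.ν / N * u) * Θ.θ (x + ((k : ℂ) * Θ.ω + (l : ℂ) * Θ.ω') / N + u) /
    Θ.θ (x + ((k : ℂ) * Θ.ω + (l : ℂ) * Θ.ω') / N)

/-- The difference of the two sides. -/
noncomputable def TR4_D (N : ℕ) (u x : ℂ) : ℂ :=
  Θ.θ (u / N) * ∑ κ : Fin N × Fin N, Θ.TR4_F N u (κ.1 : ℕ) (κ.2 : ℕ) x -
    N * Θ.θ u * (Θ.θ (N * x + u / N) / Θ.θ (N * x))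

theorem TR4_per {N : ℕ} (hN : 1 ≤ N) (u : ℂ) (k l a b : ℤ) (x : ℂ) :
    Θ.TR4_F N u (k + N * a) (l + N * b) x = Θ.TR4_F N u k l x := by
  have hN0 := TR4_ne hN
  have e : x + (((k + N * a : ℤ) : ℂ) * Θ.ω + ((l + N * b : ℤ) : ℂ) * Θ.ω') / N =
      x + ((k : ℂ) * Θ.ω + (l : ℂ) * Θ.ω') / N + ((a : ℂ) * Θ.ω + (b : ℂ) * Θ.ω') := by
    push_cast
    field_simp
    ring
  rw [TR4_F, TR4_F, e, mul_div_assoc, Θ.TR4_R, ← mul_assoc, ← Complex.exp_add,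
    mul_div_assoc (Complex.exp _)]
  congr 2
  push_cast
  field_simp
  ring

theorem TR4_mv (N : ℕ) (u : ℂ) (k l a b : ℤ) (x : ℂ) :
    Θ.TR4_F N u k l (x + ((a : ℂ) * Θ.ω + (b : ℂ) * Θ.ω') / N) =
      Complex.exp (-(b * Θ.ν * (u / N))) * Θ.TR4_F N u (k + a) (l + b) x := by
  have e : x + ((a : ℂ) * Θ.ω + (b : ℂ) * Θ.ω') / N + ((k : ℂ) * Θ.ω + (l : ℂ) * Θ.ω') / N =
      x + (((k + a : ℤ) : ℂ) * Θ.ω + ((l + b : ℤ) : ℂ) * Θ.ω') / N := by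
    push_cast
    ring
  rw [TR4_F, TR4_F, e, mul_div_assoc, mul_div_assoc (Complex.exp _), ← mul_assoc,
    ← Complex.exp_add]
  congr 2
  push_cast
  ring

theorem TR4_sum {N : ℕ} {f : ℤ → ℂ} (h : ∀ k, f (k + N) = f k) (a : ℤ) :
    ∑ k : Fin N, f ((k : ℕ) + a) = ∑ k : Fin N, f (k : ℕ) := by
  have p : Function.Periodic (fun a : ℤ => ∑ k ∈ Finset.range N, f (k + a)) 1 := fun a => by
    have e1 := Finset.sum_range_succ (fun k : ℕ => f (k + a)) N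
    have e2 := Finset.sum_range_succ' (fun k : ℕ => f (k + a)) N
    rw [add_comm (N : ℤ) a, h, e2, Nat.cast_zero, zero_add, add_left_inj] at e1
    refine Eq.trans ?_ e1
    refine Finset.sum_congr rfl fun k _ => congrArg f ?_
    push_cast
    ring
  have e := p.int_mul a 0
  simp only [Int.cast_id, mul_one, zero_add, add_zero] at e
  rw [Fin.sum_univ_eq_sum_range (fun k => f (k + a)), Fin.sum_univ_eq_sum_range (fun k => f k), e]

theorem TR4_shift {N : ℕ} (hN : 1 ≤ N) (u : ℂ) (a b : ℤ) (x : ℂ) :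
    Θ.TR4_D N u (x + ((a : ℂ) * Θ.ω + (b : ℂ) * Θ.ω') / N) =
      Complex.exp (-(b * Θ.ν * (u / N))) * Θ.TR4_D N u x := by
  have e : ∑ κ : Fin N × Fin N, Θ.TR4_F N u ((κ.1 : ℕ) + a) ((κ.2 : ℕ) + b) x =
      ∑ κ : Fin N × Fin N, Θ.TR4_F N u (κ.1 : ℕ) (κ.2 : ℕ) x := by
    rw [Fintype.sum_prod_type, Fintype.sum_prod_type,
      TR4_sum (f := fun k => ∑ l : Fin N, Θ.TR4_F N u k ((l : ℕ) + b) x)
        (fun k => Finset.sum_congr rfl fun l _ => by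
          simpa using Θ.TR4_per hN u k ((l : ℕ) + b) 1 0 x)]
    exact Finset.sum_congr rfl fun k _ => TR4_sum (f := fun l => Θ.TR4_F N u (k : ℕ) l x)
      (fun l => by simpa using Θ.TR4_per hN u (k : ℕ) l 0 1 x) b
  rw [TR4_D, TR4_D, mul_add, mul_div_cancel₀ _ (TR4_ne hN), Θ.TR4_R]
  simp only [Θ.TR4_mv]
  rw [← Finset.mul_sum, e]
  ring

theorem TR4_comp {f : ℂ → ℂ} {z : ℂ} (h : AnalyticAt ℂ f z) :
    AnalyticAt ℂ (fun x => Θ.θ (f x)) z := (Θ.analyticAt _).comp h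

theorem TR4_an (N : ℕ) (u : ℂ) (k l : ℤ) {z : ℂ}
    (h : Θ.θ (z + ((k : ℂ) * Θ.ω + (l : ℂ) * Θ.ω') / N) ≠ 0) :
    AnalyticAt ℂ (Θ.TR4_F N u k l) z :=
  (analyticAt_const.mul (Θ.TR4_comp (by fun_prop))).div (Θ.TR4_comp (by fun_prop)) h

theorem TR4_zero {N : ℕ} (hN : 1 ≤ N) (u : ℂ) : NoPole (Θ.TR4_D N u) 0 := by
  have hN0 := TR4_ne hN
  let κ0 : Fin N × Fin N := (⟨0, hN⟩, ⟨0, hN⟩)
  have s0 : dslope Θ.θ 0 0 = 1 := by rw [dslope_same, Θ.deriv0]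
  have hd : ∀ y, Θ.θ y = y * dslope Θ.θ 0 y := fun y => by
    have := sub_smul_dslope Θ.θ 0 y
    rw [Θ.θ_zero, sub_zero, sub_zero, smul_eq_mul] at this
    exact this.symm
  have a1 : AnalyticAt ℂ (fun x : ℂ => dslope Θ.θ 0 (N * x)) 0 :=
    Θ.TB2_dslope.comp_of_eq (f := fun x : ℂ => (N : ℂ) * x) (by fun_prop) (mul_zero _)
  have n1 := NoPole.div_pow (g := fun x => Θ.θ (u / N) * Θ.θ (x + u) / dslope Θ.θ 0 x -
      Θ.θ u * Θ.θ (N * x + u / N) / dslope Θ.θ 0 (N * x))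
    (((analyticAt_const.mul (Θ.TR4_comp (by fun_prop))).div Θ.TB2_dslope
      (by rw [s0]; exact one_ne_zero)).sub ((analyticAt_const.mul (Θ.TR4_comp (by fun_prop))).div a1
      (by rw [mul_zero, s0]; exact one_ne_zero))) 1 (fun j hj => by
      obtain rfl : j = 0 := by omega
      simp only [iteratedDeriv_zero, mul_zero, zero_add, s0]
      ring)
  have n2 : NoPole (fun x => Θ.θ (u / N) *
      ∑ κ ∈ Finset.univ.erase κ0, Θ.TR4_F N u (κ.1 : ℕ) (κ.2 : ℕ) x) 0 := by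
    refine NoPole.of_analyticAt (analyticAt_const.mul (Finset.analyticAt_fun_sum _ fun κ hκ =>
      Θ.TR4_an N u _ _ fun h => (Finset.mem_erase.1 hκ).1 ?_))
    obtain ⟨a, b, e⟩ := (Θ.zero_iff _).1 h
    rw [zero_add, div_eq_iff hN0] at e
    have e1 := Θ.lat_inj (((κ.1 : ℕ) - N * a : ℤ) : ℝ) (((κ.2 : ℕ) - N * b : ℤ) : ℝ) (by
      push_cast at e ⊢
      linear_combination e)
    have k : ∀ (i : Fin N) (c : ℤ), (((i : ℕ) - N * c : ℤ) : ℝ) = 0 → i = ⟨0, hN⟩ := fun i c hc => by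
      have b1 : ((i : ℕ) : ℤ) - N * c = 0 := by exact_mod_cast hc
      have b2 := i.2
      have b3 := Int.eq_zero_of_abs_lt_dvd (m := N) (x := (i : ℕ)) ⟨c, by omega⟩
        (abs_lt.2 ⟨by omega, by omega⟩)
      exact Fin.ext (by simpa using b3)
    exact Prod.ext (k _ _ e1.1) (k _ _ e1.2)
  refine (n1.add n2).congr (Eventually.of_forall fun x => ?_)
  have e : Θ.TR4_F N u (κ0.1 : ℕ) (κ0.2 : ℕ) x = Θ.θ (x + u) / Θ.θ x := by simp [TR4_F, κ0]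
  have e2 : (N : ℂ) * (N : ℂ)⁻¹ = 1 := mul_inv_cancel₀ hN0
  simp only [TR4_D]
  rw [← Finset.add_sum_erase _ _ (Finset.mem_univ κ0), e, hd x, hd (N * x)]
  simp only [div_eq_mul_inv, mul_inv, pow_one]
  linear_combination Θ.θ u * Θ.θ (N * x + u * (N : ℂ)⁻¹) * x⁻¹ * (dslope Θ.θ 0 (N * x))⁻¹ * e2

theorem dist_theta_unit {N : ℕ} (hN : 1 ≤ N) {u : ℂ}
    (h1 : ‖Complex.exp (-(Θ.ν * u / N))‖ = 1) (h2 : Complex.exp (-(Θ.ν * u / N)) ≠ 1)
    {x : ℂ} (hx : Θ.θ (N * x) ≠ 0) :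
    Θ.θ (u / N) * ∑ κ : Fin N × Fin N, Complex.exp (((κ.2 : ℕ) : ℂ) * Θ.ν / N * u) *
      Θ.θ (x + (((κ.1 : ℕ) : ℂ) * Θ.ω + ((κ.2 : ℕ) : ℂ) * Θ.ω') / N + u) /
        Θ.θ (x + (((κ.1 : ℕ) : ℂ) * Θ.ω + ((κ.2 : ℕ) : ℂ) * Θ.ω') / N) =
      N * Θ.θ u * (Θ.θ (N * x + u / N) / Θ.θ (N * x)) := by
  have hN0 := TR4_ne hN
  have an : ∀ z : ℂ, Θ.θ (N * z) ≠ 0 → AnalyticAt ℂ (Θ.TR4_D N u) z := fun z hz =>
    (analyticAt_const.mul (Finset.analyticAt_fun_sum _ fun κ _ =>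
      Θ.TR4_an N u _ _ (Θ.ne_of_mul_ne hN hz _ _))).sub (analyticAt_const.mul
      ((Θ.TR4_comp (by fun_prop)).div (Θ.TR4_comp (by fun_prop)) hz))
  have np : ∀ z, NoPole (Θ.TR4_D N u) z := fun z => by
    by_cases hz : Θ.θ (N * z) = 0
    · obtain ⟨a, b, e⟩ := (Θ.zero_iff _).1 hz
      have e1 : ((a : ℂ) * Θ.ω + (b : ℂ) * Θ.ω') / N = z := by
        rw [← e, mul_div_cancel_left₀ _ hN0]
      have n1 : NoPole (fun w => Θ.TR4_D N u (w + -z)) z :=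
        NoPole.shift (by rw [add_neg_cancel]; exact Θ.TR4_zero hN u)
      refine ((NoPole.of_analyticAt (g := fun _ => Complex.exp (-(b * Θ.ν * (u / N))))
        analyticAt_const).mul n1).congr (Eventually.of_forall fun w => ?_)
      have e2 := Θ.TR4_shift hN u a b (w + -z)
      rw [e1, neg_add_cancel_right] at e2
      exact e2.symm
    · exact NoPole.of_analyticAt (an z hz)
  have hZ : ∀ z : ℂ, ∀ᶠ w in 𝓝[≠] z, w ∉ {w : ℂ | Θ.θ (N * w) = 0} := fun z => by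
    have t : Tendsto (fun w : ℂ => (N : ℂ) * w) (𝓝[≠] z) (𝓝[≠] (N * z)) :=
      (continuous_const_mul (N : ℂ)).continuousWithinAt.tendsto_nhdsWithin fun _ hw e =>
        hw (mul_left_cancel₀ hN0 (Set.mem_singleton_iff.1 e))
    exact t.eventually (Θ.eventually_ne _)
  have key := liou_mul (a := Θ.ω / N) (b := Θ.ω' / N)
    (by rw [div_div_div_cancel_right₀ hN0]; exact Θ.him) h1 h2 _ hZ np
    (fun z hz => (an z hz).continuousAt)
    (fun z _ => by simpa using Θ.TR4_shift hN u 1 0 z)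
    (fun z _ => by simpa [mul_div_assoc] using Θ.TR4_shift hN u 0 1 z) x hx
  simpa only [TR4_D, TR4_F, Int.cast_natCast, sub_eq_zero] using key

theorem dist_theta {N : ℕ} (hN : 1 ≤ N) (u : ℂ) {x : ℂ} (hx : Θ.θ (N * x) ≠ 0) :
    Θ.θ (u / N) * ∑ κ : Fin N × Fin N, Complex.exp (((κ.2 : ℕ) : ℂ) * Θ.ν / N * u) *
      Θ.θ (x + (((κ.1 : ℕ) : ℂ) * Θ.ω + ((κ.2 : ℕ) : ℂ) * Θ.ω') / N + u) /
        Θ.θ (x + (((κ.1 : ℕ) : ℂ) * Θ.ω + ((κ.2 : ℕ) : ℂ) * Θ.ω') / N) =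
      N * Θ.θ u * (Θ.θ (N * x + u / N) / Θ.θ (N * x)) := by
  have hN0 := TR4_ne hN
  refine congrFun (AnalyticOnNhd.eq_of_frequently_eq (z₀ := 0)
    (f := fun u : ℂ => Θ.θ (u / N) * ∑ κ : Fin N × Fin N,
      Complex.exp (((κ.2 : ℕ) : ℂ) * Θ.ν / N * u) *
      Θ.θ (x + (((κ.1 : ℕ) : ℂ) * Θ.ω + ((κ.2 : ℕ) : ℂ) * Θ.ω') / N + u) /
        Θ.θ (x + (((κ.1 : ℕ) : ℂ) * Θ.ω + ((κ.2 : ℕ) : ℂ) * Θ.ω') / N))
    (g := fun u : ℂ => N * Θ.θ u * (Θ.θ (N * x + u / N) / Θ.θ (N * x)))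
    (fun z _ => (Θ.TR4_comp (by fun_prop)).mul (Finset.analyticAt_fun_sum _ fun κ _ =>
      ((AnalyticAt.cexp' (by fun_prop)).mul (Θ.TR4_comp (by fun_prop))).div_const))
    (fun z _ => (analyticAt_const.mul (Θ.analyticAt z)).mul
      (Θ.TR4_comp (by fun_prop)).div_const) ?_) u
  have t : Tendsto (fun t : ℝ => -((t : ℂ) * Complex.I) * N / Θ.ν) (𝓝[>] 0) (𝓝[≠] 0) := by
    refine tendsto_nhdsWithin_iff.2 ⟨?_, ?_⟩
    · have c : Continuous fun t : ℝ => -((t : ℂ) * Complex.I) * N / Θ.ν := by fun_prop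
      simpa using (c.tendsto 0).mono_left nhdsWithin_le_nhds
    · filter_upwards [self_mem_nhdsWithin] with s hs
      exact div_ne_zero (mul_ne_zero (neg_ne_zero.2 (mul_ne_zero
        (Complex.ofReal_ne_zero.2 (ne_of_gt hs)) Complex.I_ne_zero)) hN0) Θ.hν
  refine t.frequently (Eventually.frequently ?_)
  filter_upwards [Ioo_mem_nhdsGT Real.pi_pos] with s hs
  have e : -(Θ.ν * (-((s : ℂ) * Complex.I) * N / Θ.ν) / N) = s * Complex.I := by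
    have := Θ.hν
    field_simp
  refine Θ.dist_theta_unit hN (by rw [e, Complex.norm_exp_ofReal_mul_I]) (fun k => ?_) hx
  have k1 := congrArg Complex.im k
  rw [e, Complex.exp_ofReal_mul_I_im, Complex.one_im] at k1
  exact (Real.sin_pos_of_pos_of_lt_pi hs.1 hs.2).ne' k1

end PreTheta

end Pool.Agent.E21
end

-- merged part: Pool.Agent.Work.MP_e21d36_nt.TR5
section
/-!
# The distribution relation for `Fl` and its derivatives

Plan.  `dist_Fl0`: by `ev1_Fl` both sides are coefficients of Taylor series in `u`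
(`tay_sum`, `coeff_tay_scale` with `c = 1/N` applied to
`v ↦ iF v * (exp (-(N s v)) θ (N x + v) / θ (N x))`).  For `u ≠ 0` near `0`, `iF u = u / θ u`,
`iF (u/N) = (u/N) / θ (u/N)` (`iF_eq`), and `dist_theta` multiplied by
`exp (-(s u)) u / (θ u θ (u/N))` gives equality of the two functions; `tay_congr`.
`dist_Fl`: induction on `i` for all `x`: the identity holds near `x` (the set `θ (N x) ≠ 0` is
open), differentiate with `hasDerivAt_ev1` and the chain rule.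
`tr1_Fl`: `x = ω/2`, `s = 0`, `N ω/2 = ω/2 + ((N-1)/2) ω`, `crd_lat`, `ne_lat_iff`, `θ_half`.
-/

namespace Pool.Agent.E21

namespace Theta

variable (Θ : Theta)

theorem TR5_an (a b : ℂ) :
    AnalyticAt ℂ (fun u => Θ.iF u * (Complex.exp (-(b * u)) * Θ.θ (a + u) / Θ.θ a)) 0 := by
  refine Θ.analyticAt_iF.mul ?_
  have h1 : AnalyticAt ℂ (fun u : ℂ => Complex.exp (-(b * u))) 0 := by fun_prop
  have h2 : AnalyticAt ℂ (fun u : ℂ => Θ.θ (a + u)) 0 :=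
    AnalyticAt.comp (g := Θ.θ) (f := fun u : ℂ => a + u) (Θ.analyticAt _) (by fun_prop)
  exact (h1.mul h2).div_const

theorem TR5_ev {c : ℂ} (hc : c ≠ 0) :
    ∀ᶠ u in nhdsWithin (0 : ℂ) {0}ᶜ, Θ.θ (c * u) ≠ 0 := by
  have h : Filter.Tendsto (fun u : ℂ => c * u) (nhdsWithin 0 {0}ᶜ) (nhdsWithin 0 {0}ᶜ) := by
    refine tendsto_nhdsWithin_of_tendsto_nhds_of_eventually_within _ ?_ ?_
    · have h1 : Filter.Tendsto (fun u : ℂ => c * u) (nhds 0) (nhds (c * 0)) :=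
        (continuous_const.mul continuous_id).tendsto 0
      rw [mul_zero] at h1
      exact h1.mono_left nhdsWithin_le_nhds
    · filter_upwards [self_mem_nhdsWithin] with u hu
      exact mul_ne_zero hc hu
  exact h.eventually (Θ.eventually_ne 0)

theorem TR5_ne {N : ℕ} (hN : 1 ≤ N) {x : ℂ} (hx : Θ.θ (N * x) ≠ 0) (k l : ℕ) :
    Θ.θ (x + ((k : ℂ) * Θ.ω + (l : ℂ) * Θ.ω') / N) ≠ 0 := by
  have h := Θ.ne_of_mul_ne hN hx (k : ℤ) (l : ℤ)
  rwa [Int.cast_natCast, Int.cast_natCast] at h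

theorem dist_Fl0 {N : ℕ} (hN : 1 ≤ N) (l : ℕ) {x : ℂ} (hx : Θ.θ (N * x) ≠ 0) (s : ℂ) :
    (N : ℂ) ^ l * ∑ κ : Fin N × Fin N,
      Θ.ev1 (x + (((κ.1 : ℕ) : ℂ) * Θ.ω + ((κ.2 : ℕ) : ℂ) * Θ.ω') / N,
        s - ((κ.2 : ℕ) : ℂ) * Θ.ν / N) (Θ.Fl l) =
      (N : ℂ) ^ 2 * Θ.ev1 (N * x, N * s) (Θ.Fl l) := by
  have hN0 : (N : ℂ) ≠ 0 := Nat.cast_ne_zero.2 (by omega)
  obtain ⟨g, hg⟩ : ∃ g : ℂ → ℂ, g = fun v =>
      Θ.iF v * (Complex.exp (-(N * s * v)) * Θ.θ (N * x + v) / Θ.θ (N * x)) := ⟨_, rfl⟩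
  have hga : AnalyticAt ℂ g 0 := hg ▸ Θ.TR5_an _ _
  obtain ⟨f, hf⟩ : ∃ f : Fin N × Fin N → ℂ → ℂ, f = fun κ u =>
      Θ.iF u * (Complex.exp (-((s - ((κ.2 : ℕ) : ℂ) * Θ.ν / N) * u)) *
        Θ.θ (x + (((κ.1 : ℕ) : ℂ) * Θ.ω + ((κ.2 : ℕ) : ℂ) * Θ.ω') / N + u) /
          Θ.θ (x + (((κ.1 : ℕ) : ℂ) * Θ.ω + ((κ.2 : ℕ) : ℂ) * Θ.ω') / N)) := ⟨_, rfl⟩
  have hfa : ∀ κ ∈ (Finset.univ : Finset (Fin N × Fin N)), AnalyticAt ℂ (f κ) 0 := by
    intro κ _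
    rw [hf]
    exact Θ.TR5_an _ _
  have hgs : AnalyticAt ℂ (fun u : ℂ => g ((N : ℂ)⁻¹ * u)) 0 := by
    refine AnalyticAt.comp (g := g) (f := fun u : ℂ => (N : ℂ)⁻¹ * u) ?_ (by fun_prop)
    simpa using hga
  have h1 : ∀ κ : Fin N × Fin N,
      Θ.ev1 (x + (((κ.1 : ℕ) : ℂ) * Θ.ω + ((κ.2 : ℕ) : ℂ) * Θ.ω') / N,
        s - ((κ.2 : ℕ) : ℂ) * Θ.ν / N) (Θ.Fl l) = PowerSeries.coeff l (tay (f κ)) := by
    intro κ
    rw [Θ.ev1_Fl l (Θ.TR5_ne hN hx _ _), hf]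
  have h2 : Θ.ev1 (N * x, N * s) (Θ.Fl l) = PowerSeries.coeff l (tay g) := by
    rw [Θ.ev1_Fl l hx, hg]
  have h3 : tay (fun u => ∑ κ : Fin N × Fin N, f κ u) =
      tay (fun u => (N : ℂ) ^ 2 * g ((N : ℂ)⁻¹ * u)) := by
    refine tay_congr (Finset.analyticAt_fun_sum _ hfa) (analyticAt_const.mul hgs) ?_
    filter_upwards [Θ.eventually_ne 0, Θ.TR5_ev (inv_ne_zero hN0)] with u hu hu'
    have hd := Θ.dist_theta hN u hx
    have e1 : (N : ℂ)⁻¹ * u = u / N := by field_simp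
    rw [e1] at hu' ⊢
    have e2 : ∑ κ : Fin N × Fin N, f κ u = u / Θ.θ u * Complex.exp (-(s * u)) *
        ∑ κ : Fin N × Fin N, Complex.exp (((κ.2 : ℕ) : ℂ) * Θ.ν / N * u) *
          Θ.θ (x + (((κ.1 : ℕ) : ℂ) * Θ.ω + ((κ.2 : ℕ) : ℂ) * Θ.ω') / N + u) /
            Θ.θ (x + (((κ.1 : ℕ) : ℂ) * Θ.ω + ((κ.2 : ℕ) : ℂ) * Θ.ω') / N) := by
      rw [Finset.mul_sum]
      refine Finset.sum_congr rfl fun κ _ => ?_
      rw [hf]
      simp only []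
      rw [Θ.iF_eq hu, show -((s - ((κ.2 : ℕ) : ℂ) * Θ.ν / N) * u) =
        -(s * u) + ((κ.2 : ℕ) : ℂ) * Θ.ν / N * u by ring, Complex.exp_add]
      ring
    rw [e2, eq_div_of_mul_eq hu' ((mul_comm _ _).trans hd), hg]
    simp only []
    rw [Θ.iF_eq hu', show (N : ℂ) * s * (u / N) = s * u by field_simp]
    field_simp
  have h4 : tay (fun u => (N : ℂ) ^ 2 * g ((N : ℂ)⁻¹ * u)) =
      PowerSeries.C ((N : ℂ) ^ 2) * tay (fun u => g ((N : ℂ)⁻¹ * u)) := by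
    rw [← tay_const]
    exact tay_mul (f := fun _ => (N : ℂ) ^ 2) analyticAt_const hgs
  rw [Finset.sum_congr rfl fun κ _ => h1 κ, h2, ← map_sum, ← tay_sum _ hfa, h3, h4,
    PowerSeries.coeff_C_mul, coeff_tay_scale hga]
  rw [inv_pow]
  field_simp

theorem dist_Fl {N : ℕ} (hN : 1 ≤ N) (l i : ℕ) {x : ℂ} (hx : Θ.θ (N * x) ≠ 0) (s : ℂ) :
    (N : ℂ) ^ l * ∑ κ : Fin N × Fin N,
      Θ.ev1 (x + (((κ.1 : ℕ) : ℂ) * Θ.ω + ((κ.2 : ℕ) : ℂ) * Θ.ω') / N,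
        s - ((κ.2 : ℕ) : ℂ) * Θ.ν / N) ((⇑Θ.D1)^[i] (Θ.Fl l)) =
      (N : ℂ) ^ (2 + i) * Θ.ev1 (N * x, N * s) ((⇑Θ.D1)^[i] (Θ.Fl l)) := by
  induction i generalizing x with
  | zero => simpa using Θ.dist_Fl0 hN l hx s
  | succ i ih =>
    simp only [Function.iterate_succ_apply']
    obtain ⟨Q, hQ⟩ : ∃ Q, Q = (⇑Θ.D1)^[i] (Θ.Fl l) := ⟨_, rfl⟩
    rw [← hQ] at ih ⊢
    have hc : Continuous fun y : ℂ => Θ.θ (N * y) :=
      Θ.diff.continuous.comp (continuous_const.mul continuous_id)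
    have hev : ∀ᶠ y in nhds x, Θ.θ (N * y) ≠ 0 := hc.continuousAt.eventually_ne hx
    have hL : HasDerivAt (fun y : ℂ => (N : ℂ) ^ l * ∑ κ : Fin N × Fin N,
        Θ.ev1 (y + (((κ.1 : ℕ) : ℂ) * Θ.ω + ((κ.2 : ℕ) : ℂ) * Θ.ω') / N,
          s - ((κ.2 : ℕ) : ℂ) * Θ.ν / N) Q)
        ((N : ℂ) ^ l * ∑ κ : Fin N × Fin N,
        Θ.ev1 (x + (((κ.1 : ℕ) : ℂ) * Θ.ω + ((κ.2 : ℕ) : ℂ) * Θ.ω') / N,
          s - ((κ.2 : ℕ) : ℂ) * Θ.ν / N) (Θ.D1 Q)) x := by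
      refine HasDerivAt.const_mul _ (HasDerivAt.fun_sum fun κ _ => ?_)
      exact HasDerivAt.comp_add_const (f := fun y => Θ.ev1 (y, s - ((κ.2 : ℕ) : ℂ) * Θ.ν / N) Q)
        x _ (Θ.hasDerivAt_ev1 Q (Θ.TR5_ne hN hx _ _) _)
    have hR : HasDerivAt (fun y : ℂ => (N : ℂ) ^ (2 + i) * Θ.ev1 (N * y, N * s) Q)
        ((N : ℂ) ^ (2 + i) * (Θ.ev1 (N * x, N * s) (Θ.D1 Q) * N)) x := by
      refine HasDerivAt.const_mul _ ?_
      have h1 : HasDerivAt (fun y : ℂ => (N : ℂ) * y) (N : ℂ) x := by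
        simpa using (hasDerivAt_id x).const_mul (N : ℂ)
      exact HasDerivAt.comp (h₂ := fun y => Θ.ev1 (y, N * s) Q) (h := fun y : ℂ => (N : ℂ) * y)
        x (Θ.hasDerivAt_ev1 Q hx _) h1
    have hE := hL.unique (hR.congr_of_eventuallyEq (hev.mono fun y hy => ih hy))
    rw [hE]
    ring

theorem tr1_Fl {N : ℕ} (hN : Odd N) (l i : ℕ) :
    (N : ℂ) ^ l * Θ.tr1 N ((⇑Θ.D1)^[i] (Θ.Fl l)) =
      (N : ℂ) ^ (2 + i) * Θ.ev1 (Θ.ω / 2, 0) ((⇑Θ.D1)^[i] (Θ.Fl l)) := by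
  obtain ⟨k, hk⟩ := hN
  have hN1 : 1 ≤ N := by omega
  have e : (N : ℂ) * (Θ.ω / 2) = Θ.ω / 2 + (((k : ℤ) : ℂ) * Θ.ω + ((0 : ℤ) : ℂ) * Θ.ω') := by
    rw [hk]
    push_cast
    ring
  have hx : Θ.θ (N * (Θ.ω / 2)) ≠ 0 := by
    rw [e]
    exact (Θ.ne_lat_iff _ _ _).2 Θ.θ_half
  have h := Θ.dist_Fl hN1 l i hx 0
  have h2 : Θ.crd (N * (Θ.ω / 2), N * 0) = Θ.crd (Θ.ω / 2, 0) := by
    rw [← Θ.crd_lat Θ.θ_half 0 k 0, e]
    simp
  unfold tr1 pt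
  unfold ev1 at h ⊢
  rw [h2] at h
  rw [← h]
  simp only [Int.cast_natCast, zero_sub]

end Theta

end Pool.Agent.E21
end

-- merged part: Pool.Agent.Work.MP_e21d36_nt.TR6
section
/-!
# A polynomial without pole is constant; expansion of monomials

Plan.  `const_aux`: induction on `n`.  For `n = 0` the function does not depend on `s`; use
`noPole_of_lat` and `liou_add` (`Z = {θ = 0}`).  Step: `g' x s = g x (s+1) - g x s` satisfies the
hypotheses with `n` (degree of `p.comp (X + 1) - p` drops; `Polynomial.taylor`, or use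
`Polynomial.fwdDiff`-type lemmas), so `g' = c`; then `g x s - c s` is a polynomial in `s`
invariant under `s ↦ s + 1`, hence independent of `s` (a periodic polynomial minus its value
at `0` has infinitely many roots); `g1 x = g x 0` has `g1 (x + ω) = g1 x`,
`g1 (x + ω') = g1 x + c ν`, so `liou_add` gives `c ν = 0`, `c = 0`, `g1` constant.
(`g x s` has no pole at a lattice point by the invariance.)
`const_of_noPole`: `s ↦ ev1 (x, s) Q` is a polynomial of degree at most `totalDegree Q`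
(write `Q` as a sum of monomials), `crd_lat`, `analyticAt_ev1`.
`noPole_expand`: for `θ x ≠ 0`, `x^w X^a Y^e Z^l = pF^a qF^e (rF - s x)^l`, binomial theorem
(`add_pow` / `sub_pow`), `noPole_polar` for `g = pF^a qF^e rF^(l-k)`, `M = w - k`
(`tay_mul`, `tay_pow`), `noPole_DFl`, `NoPole.sum`.
`tr1_mono`: the constant is the value at `(ω/2, 0)`; `pt_good`.
-/

namespace Pool.Agent.E21

open MvPolynomial

namespace Theta

variable (Θ : Theta)

theorem TR6_lin (g : ℂ → ℂ → ℂ) (c : ℂ)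
    (ha : ∀ s x, Θ.θ x ≠ 0 → AnalyticAt ℂ (fun y => g y s) x)
    (h0 : ∀ s, NoPole (fun y => g y s) 0)
    (hp : ∀ (k l : ℤ) (x s : ℂ), Θ.θ x ≠ 0 →
      g (x + ((k : ℂ) * Θ.ω + (l : ℂ) * Θ.ω')) (s - (l : ℂ) * Θ.ν) = g x s)
    (hc : ∀ x s, Θ.θ x ≠ 0 → g x s = g x 0 + c * s) :
    ∃ c0, ∀ x s, Θ.θ x ≠ 0 → g x s = c0 := by
  have h1 : ∀ (k l : ℤ) (x : ℂ), Θ.θ x ≠ 0 →
      g (x + ((k : ℂ) * Θ.ω + (l : ℂ) * Θ.ω')) 0 = g x 0 + c * (l * Θ.ν) := fun k l x hx => by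
    rw [← hc x _ hx, ← hp k l x _ hx, sub_self]
  obtain ⟨h2, c0, h3⟩ := liou_add (c := c * Θ.ν) (g := fun y => g y 0) Θ.him {z | Θ.θ z = 0}
    Θ.eventually_ne
    (Θ.noPole_of_lat (h0 0) (ha 0) fun k l => ⟨1, c * (l * Θ.ν), fun z hz => by
      rw [h1 k l z hz, one_mul]⟩)
    (fun z hz => (ha 0 z hz).continuousAt) (fun z hz => by simpa using h1 1 0 z hz)
    (fun z hz => by simpa using h1 0 1 z hz)
  refine ⟨c0, fun x s hx => ?_⟩
  rw [hc x s hx, (mul_eq_zero.1 h2).resolve_right Θ.hν, zero_mul, add_zero]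
  exact h3 x hx

theorem TR6_deg {p : Polynomial ℂ} {n : ℕ} (h : p.natDegree ≤ n + 1) :
    (Polynomial.taylor 1 p - p).natDegree ≤ n := by
  rcases eq_or_ne p 0 with rfl | h0
  · simp
  rcases eq_or_ne (Polynomial.taylor 1 p - p) 0 with h1 | h1
  · simp [h1]
  have h2 := Polynomial.degree_sub_lt_left (Polynomial.degree_taylor p 1)
    (fun k => h0 ((Polynomial.taylor_eq_zero _ _).1 k)) (Polynomial.leadingCoeff_taylor _ _)
  have h3 := Polynomial.natDegree_lt_natDegree h1 h2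
  rw [Polynomial.natDegree_taylor] at h3
  omega

theorem TR6_per {p : Polynomial ℂ} {c : ℂ} (h : ∀ s, p.eval (s + 1) - p.eval s = c) (s : ℂ) :
    p.eval s = p.eval 0 + c * s := by
  have h1 : ∀ m : ℕ, p.eval (m : ℂ) = p.eval 0 + c * m := fun m => by
    induction m with
    | zero => simp
    | succ m ih =>
      rw [Nat.cast_succ]
      linear_combination h m + ih
  have h2 : p = Polynomial.C (p.eval 0) + Polynomial.C c * Polynomial.X :=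
    Polynomial.eq_of_infinite_eval_eq _ _ (Set.infinite_of_injective_forall_mem
      (f := fun m : ℕ => (m : ℂ)) Nat.cast_injective fun m => by simpa using h1 m)
  simpa using congrArg (Polynomial.eval s) h2


theorem const_aux (n : ℕ) (g : ℂ → ℂ → ℂ)
    (ha : ∀ s x, Θ.θ x ≠ 0 → AnalyticAt ℂ (fun y => g y s) x)
    (h0 : ∀ s, NoPole (fun y => g y s) 0)
    (hp : ∀ (k l : ℤ) (x s : ℂ), Θ.θ x ≠ 0 →
      g (x + ((k : ℂ) * Θ.ω + (l : ℂ) * Θ.ω')) (s - (l : ℂ) * Θ.ν) = g x s)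
    (hd : ∀ x, Θ.θ x ≠ 0 → ∃ p : Polynomial ℂ, p.natDegree ≤ n ∧ ∀ s, g x s = p.eval s) :
    ∃ c0, ∀ x s, Θ.θ x ≠ 0 → g x s = c0 := by
  induction n generalizing g with
  | zero =>
    refine Θ.TR6_lin g 0 ha h0 hp fun x s hx => ?_
    obtain ⟨p, h1, h2⟩ := hd x hx
    rw [h2, h2, Polynomial.eq_C_of_natDegree_le_zero h1]
    simp
  | succ n ih =>
    obtain ⟨c, hc⟩ := ih (fun x s => g x (s + 1) - g x s)
      (fun s x hx => (ha _ x hx).sub (ha _ x hx)) (fun s => (h0 _).sub (h0 _))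
      (fun k l x s hx => by rw [sub_add_eq_add_sub, hp k l x _ hx, hp k l x _ hx])
      fun x hx => by
        obtain ⟨p, h1, h2⟩ := hd x hx
        exact ⟨_, TR6_deg h1, fun s => by
          rw [h2, h2, Polynomial.eval_sub, Polynomial.taylor_eval]⟩
    refine Θ.TR6_lin g c ha h0 hp fun x s hx => ?_
    obtain ⟨p, -, h2⟩ := hd x hx
    rw [h2, h2]
    exact TR6_per (fun t => by rw [← h2, ← h2]; exact hc x t hx) s

theorem TR6_poly (Q : P1) : ∃ n, ∀ x, ∃ p : Polynomial ℂ, p.natDegree ≤ n ∧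
    ∀ s, Θ.ev1 (x, s) Q = p.eval s := by
  induction Q using MvPolynomial.induction_on with
  | C a => exact ⟨0, fun x => ⟨Polynomial.C a, by simp, fun s => by simp [Θ.ev1_C]⟩⟩
  | add p q hp hq =>
    obtain ⟨m, hm⟩ := hp
    obtain ⟨n, hn⟩ := hq
    refine ⟨max m n, fun x => ?_⟩
    obtain ⟨a, a1, a2⟩ := hm x
    obtain ⟨b, b1, b2⟩ := hn x
    exact ⟨a + b, Polynomial.natDegree_add_le_of_le a1 b1, fun s => by simp [a2, b2]⟩
  | mul_X p i hp =>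
    obtain ⟨m, hm⟩ := hp
    refine ⟨m + 1, fun x => ?_⟩
    obtain ⟨a, a1, a2⟩ := hm x
    obtain ⟨b, b1, b2⟩ : ∃ b : Polynomial ℂ, b.natDegree ≤ 1 ∧
        ∀ s, Θ.ev1 (x, s) (X i) = b.eval s := by
      obtain rfl | rfl | rfl : i = 0 ∨ i = 1 ∨ i = 2 := by omega
      · exact ⟨Polynomial.C (xf Θ.θ x), by simp, fun s => by simp [Θ.ev1_X0]⟩
      · exact ⟨Polynomial.C (yf Θ.θ x), by simp, fun s => by simp [Θ.ev1_X1]⟩
      · exact ⟨Polynomial.C (zt Θ.θ x) - Polynomial.X, by compute_degree,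
          fun s => by simp [Θ.ev1_X2]⟩
    exact ⟨a * b, Polynomial.natDegree_mul_le_of_le a1 b1, fun s => by simp [a2, b2]⟩


theorem const_of_noPole (Q : P1) (h : ∀ s, NoPole (fun x => Θ.ev1 (x, s) Q) 0) :
    ∃ c0, ∀ q : ℂ × ℂ, Θ.θ q.1 ≠ 0 → Θ.ev1 q Q = c0 := by
  obtain ⟨n, hn⟩ := Θ.TR6_poly Q
  obtain ⟨c0, hc⟩ := Θ.const_aux n (fun x s => Θ.ev1 (x, s) Q)
    (fun s x hx => Θ.analyticAt_ev1 Q hx s) h
    (fun k l x s hx => by simp only [ev1, Θ.crd_lat hx]) fun x _ => hn x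
  exact ⟨c0, fun q hq => hc q.1 q.2 hq⟩

theorem noPole_expand (a e l : ℕ) (s : ℂ) :
    NoPole (fun x => Θ.ev1 (x, s) (X 0 ^ a * X 1 ^ e * X 2 ^ l - Θ.polE a e l)) 0 := by
  have key : ∀ k ∈ Finset.range (l + 1), NoPole (fun x => (l.choose k : ℂ) * (-s) ^ k *
      (Θ.pF x ^ a * Θ.qF x ^ e * Θ.rF x ^ (l - k) / x ^ (2 * a + 3 * e + l - k)) -
      ∑ i ∈ Finset.range (2 * a + 3 * e + l - k),
        Θ.coefE a e l k i * Θ.ev1 (x, s) ((⇑Θ.D1)^[i] (Θ.Fl (k + 1)))) 0 := by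
    intro k _
    have g1 := Θ.analyticAt_pF.fun_pow a
    have g2 := Θ.analyticAt_qF.fun_pow e
    have g3 := Θ.analyticAt_rF.fun_pow (l - k)
    have h1 := (NoPole.of_analyticAt (analyticAt_const (v := (l.choose k : ℂ) * (-s) ^ k))).mul
      (noPole_polar ((g1.fun_mul g2).fun_mul g3) (2 * a + 3 * e + l - k))
    rw [tay_mul (g1.fun_mul g2) g3, tay_mul g1 g2, tay_pow Θ.analyticAt_pF,
      tay_pow Θ.analyticAt_qF, tay_pow Θ.analyticAt_rF] at h1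
    have h2 := NoPole.sum (Finset.range (2 * a + 3 * e + l - k)) fun i _ =>
      (NoPole.of_analyticAt (analyticAt_const (v := Θ.coefE a e l k i))).mul (Θ.noPole_DFl k i s)
    refine (h1.sub h2).congr (Filter.Eventually.of_forall fun x => ?_)
    have h3 : ∀ i ∈ Finset.range (2 * a + 3 * e + l - k), (l.choose k : ℂ) * (-s) ^ k *
        (PowerSeries.coeff (2 * a + 3 * e + l - k - 1 - i)
          (tay Θ.pF ^ a * tay Θ.qF ^ e * tay Θ.rF ^ (l - k)) / x ^ (i + 1)) = Θ.coefE a e l k i *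
        ((-s) ^ k / (k.factorial : ℂ) * ((-1) ^ i * (i.factorial : ℂ)) / x ^ (i + 1)) := by
      intro i _
      have k1 : (k.factorial : ℂ) * (k.factorial : ℂ)⁻¹ = 1 :=
        mul_inv_cancel₀ (Nat.cast_ne_zero.2 k.factorial_ne_zero)
      have k2 : (i.factorial : ℂ) * (i.factorial : ℂ)⁻¹ = 1 :=
        mul_inv_cancel₀ (Nat.cast_ne_zero.2 i.factorial_ne_zero)
      have k3 : (-1 : ℂ) ^ i * (-1) ^ i = 1 := by rw [← mul_pow]; simp
      rw [coefE]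
      generalize PowerSeries.coeff (2 * a + 3 * e + l - k - 1 - i)
        (tay Θ.pF ^ a * tay Θ.qF ^ e * tay Θ.rF ^ (l - k)) = t
      calc _ = (l.choose k : ℂ) * (-s) ^ k * (t / x ^ (i + 1)) *
            ((k.factorial : ℂ) * (k.factorial : ℂ)⁻¹) * ((i.factorial : ℂ) * (i.factorial : ℂ)⁻¹) *
            ((-1 : ℂ) ^ i * (-1) ^ i) := by rw [k1, k2, k3, mul_one, mul_one, mul_one]
        _ = _ := by
          generalize (-1 : ℂ) ^ i = u
          generalize (-s) ^ k = v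
          ring
    simp only [mul_sub, Finset.sum_sub_distrib, Finset.mul_sum]
    rw [Finset.sum_congr rfl h3]
    ring
  refine (NoPole.sum _ key).congr ?_
  filter_upwards [Θ.eventually_ne 0] with x hx
  have x0 : x ≠ 0 := fun h => hx (h ▸ Θ.θ_zero)
  simp only [polE, map_sub, map_mul, map_pow, map_sum, ev1_X0, ev1_X1, ev1_X2, ev1_C,
    Finset.sum_sub_distrib]
  congr 1
  rw [sub_eq_neg_add, add_pow, Finset.mul_sum]
  refine Finset.sum_congr rfl fun k hk => ?_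
  have hk' := Finset.mem_range.1 hk
  rw [Θ.pF_eq hx, Θ.qF_eq hx, Θ.rF_eq hx,
    show 2 * a + 3 * e + l - k = 2 * a + 3 * e + (l - k) by omega]
  generalize (-s) ^ k = v
  field_simp
  ring

theorem tr1_mono {N : ℕ} (hN : Odd N) (a e l : ℕ) :
    Θ.tr1 N (X 0 ^ a * X 1 ^ e * X 2 ^ l) = Θ.tr1 N (Θ.polE a e l) +
      (N : ℂ) ^ 2 * Θ.ev1 (Θ.ω / 2, 0) (X 0 ^ a * X 1 ^ e * X 2 ^ l - Θ.polE a e l) := by
  obtain ⟨c0, hc⟩ := Θ.const_of_noPole _ (Θ.noPole_expand a e l)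
  have h : ∀ κ : Fin N × Fin N,
      Θ.ev1 (Θ.pt N (κ.1 : ℕ) (κ.2 : ℕ)) (X 0 ^ a * X 1 ^ e * X 2 ^ l) =
        Θ.ev1 (Θ.pt N (κ.1 : ℕ) (κ.2 : ℕ)) (Θ.polE a e l) + c0 := fun κ => by
    rw [← hc _ (Θ.pt_good hN (κ.1 : ℕ) (κ.2 : ℕ)), map_sub, add_sub_cancel]
  rw [hc _ Θ.θ_half, tr1, tr1, Finset.sum_congr rfl fun κ _ => h κ, Finset.sum_add_distrib]
  simp [sq]

end Theta

end Pool.Agent.E21
end

-- merged part: Pool.Agent.Work.MP_e21d36_nt.TR7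
section
/-!
# Denominators and sizes of the traces

Plan.  Crude bounds are enough: `j! ≤ j^j`, `2^j ≤ ..`, every factor is at most
`(k0 w)^(c w)` with `k0 = 3 k + 50`; choose `C` larger at the end (a multiple of `k0`).
`sz_DFl`: `D1^[i] (C c * P) = C c * D1^[i] P`; the `m`-th term is
`β_(l-m) / m! * ev (D1^[i] (Pm m))`, `(k (l-m))! ∣ (k0 w)!`, `m! ∣ (k0 w)!`; `cl_basic`, `sz_Pm`,
`Sz.iter`, `ev_half_sz`.
`sz_coefE`: `Cl.pow`, `Cl.mul` give `Cl k 0 (2^(a+e+l-k)) (a+e+l-k+2)`; the index of the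
coefficient is at most `3 w`; `i! ∣ (k0 w)!`.
`trace_sz`: `den = N^(w+1) * (k1 w)!^2 * (k2 w)!^2`; `tr1_mono`, `tr1` is linear,
`N^(w+1) tr1 (D^[i] (Fl (k+1))) = N^(w-k) N^(2+i) ev (..)` by `tr1_Fl`; at most `(w+1) 3 w` terms.
-/

namespace Pool.Agent.E21

open MvPolynomial

theorem TR7_p {B x j e : ℕ} (hB : 1 ≤ B) (hx : x ≤ B) (hj : j ≤ e) : x ^ j ≤ B ^ e :=
  (Nat.pow_le_pow_left hx j).trans (Nat.pow_le_pow_right hB hj)

theorem TR7_p1 {B x e : ℕ} (hB : 1 ≤ B) (hx : x ≤ B) (he : 1 ≤ e) : x ≤ B ^ e := by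
  have := TR7_p hB hx he
  rwa [pow_one] at this

theorem TR7_int {G : Set ℂ} {d H : ℕ} {x : ℂ} (h : Sz G d H x) : Cls_Q G d H 1 x := by
  unfold Cls_Q
  rwa [mul_one, Nat.cast_one, one_mul]

theorem TR7_inv {G : Set ℂ} {m n : ℕ} (h : m ≤ n) :
    Cls_Q G 0 1 n.factorial ((m.factorial : ℂ)⁻¹) := by
  refine Cls_dvd (D := m.factorial) ?_ le_rfl le_rfl (Nat.factorial_dvd_factorial h)
  unfold Cls_Q
  rw [mul_inv_cancel₀ (Nat.cast_ne_zero.2 m.factorial_ne_zero), one_mul]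
  exact (Sz.one 0).mono le_rfl m.factorial_pos

theorem TR7_fin {G : Set ℂ} {d H K c C w : ℕ} {x : ℂ}
    (h : Cls_Q G d H ((K * w).factorial * (K * w).factorial) x) (hw : 1 ≤ w) (hK : 1 ≤ K)
    (hd : d ≤ C * w) (hH : H ≤ (K * w) ^ (c * w)) (hC : c + 2 * K ≤ C) :
    Sz G (C * w) ((C * w) ^ (C * w)) (((K * w).factorial : ℂ) ^ 2 * x) := by
  unfold Cls_Q at h
  rw [Nat.cast_mul] at h
  rw [sq]
  refine h.mono hd ?_
  have h1 := Nat.factorial_le_pow (K * w)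
  calc H * ((K * w).factorial * (K * w).factorial)
      ≤ (K * w) ^ (c * w) * ((K * w) ^ (K * w) * (K * w) ^ (K * w)) :=
        Nat.mul_le_mul hH (Nat.mul_le_mul h1 h1)
    _ = (K * w) ^ ((c + 2 * K) * w) := by ring
    _ ≤ (C * w) ^ (C * w) := TR7_p (Nat.mul_pos (by omega) hw)
        (Nat.mul_le_mul_right w (by omega)) (Nat.mul_le_mul_right w hC)

namespace Theta

variable (Θ : Theta)

theorem TR7_C (q : ℂ × ℂ) (c : ℂ) : Θ.ev1 q (C c) = c := by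
  simp [ev1]

theorem TR7_iter (q : ℂ × ℂ) (i : ℕ) (s : Finset ℕ) (c : ℕ → ℂ) (P : ℕ → P1) :
    Θ.ev1 q ((⇑Θ.D1)^[i] (∑ m ∈ s, C (c m) * P m)) =
      ∑ m ∈ s, c m * Θ.ev1 q ((⇑Θ.D1)^[i] (P m)) := by
  have h : ∀ x, (⇑Θ.D1)^[i] x = (Θ.D1.toLinearMap ^ i) x := fun x =>
    (Module.End.pow_apply Θ.D1.toLinearMap i x).symm
  simp only [h, ← smul_eq_C_mul, map_sum, map_smul, smul_eq_mul]

theorem TR7_tr_sum (N : ℕ) (s : Finset ℕ) (P : ℕ → P1) :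
    Θ.tr1 N (∑ m ∈ s, P m) = ∑ m ∈ s, Θ.tr1 N (P m) := by
  unfold tr1
  simp only [map_sum]
  exact Finset.sum_comm

theorem TR7_tr_C (N : ℕ) (c : ℂ) (P : P1) : Θ.tr1 N (C c * P) = c * Θ.tr1 N P := by
  unfold tr1
  simp only [map_mul, TR7_C, Finset.mul_sum]

theorem TR7_mono (a e l : ℕ) :
    Sz Θ.data (a + e + l) 1 (Θ.ev1 (Θ.ω / 2, 0) (X 0 ^ a * X 1 ^ e * X 2 ^ l)) := by
  have hX : ∀ (v : Fin 3) (j : ℕ), Sz Θ.G1 j 1 ((X v : P1) ^ j) := fun v j => by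
    have := (Sz.gen (G := Θ.G1) (g := X v) (Or.inl ⟨v, rfl⟩)).pow j
    rwa [mul_one, one_pow] at this
  exact Θ.ev_half_sz (((hX 0 a).mul (hX 1 e)).mul (hX 2 l))

theorem TR7_eq {N : ℕ} (hN : Odd N) {w a e l : ℕ} (hl : l ≤ w) (F₁ F₂ : ℂ) :
    (N : ℂ) ^ (w + 1) * F₁ * F₂ * Θ.tr1 N (X 0 ^ a * X 1 ^ e * X 2 ^ l) =
      ∑ k ∈ Finset.range (l + 1), ∑ i ∈ Finset.range (2 * a + 3 * e + l - k),
        ((N : ℂ) ^ (w - k + (2 + i)) * ((F₂ * Θ.coefE a e l k i) *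
            (F₁ * Θ.ev1 (Θ.ω / 2, 0) ((⇑Θ.D1)^[i] (Θ.Fl (k + 1))))) -
          (N : ℂ) ^ (w + 3) * ((F₂ * Θ.coefE a e l k i) *
            (F₁ * Θ.ev1 (Θ.ω / 2, 0) ((⇑Θ.D1)^[i] (Θ.Fl (k + 1)))))) +
      (N : ℂ) ^ (w + 1) * F₁ * F₂ * (N : ℂ) ^ 2 *
        Θ.ev1 (Θ.ω / 2, 0) (X 0 ^ a * X 1 ^ e * X 2 ^ l) := by
  have h1 : (N : ℂ) ^ (w + 1) * F₁ * F₂ * Θ.tr1 N (Θ.polE a e l) =
      ∑ k ∈ Finset.range (l + 1), ∑ i ∈ Finset.range (2 * a + 3 * e + l - k),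
        (N : ℂ) ^ (w - k + (2 + i)) * ((F₂ * Θ.coefE a e l k i) *
          (F₁ * Θ.ev1 (Θ.ω / 2, 0) ((⇑Θ.D1)^[i] (Θ.Fl (k + 1))))) := by
    unfold polE
    rw [TR7_tr_sum, Finset.mul_sum]
    refine Finset.sum_congr rfl fun k hk => ?_
    rw [TR7_tr_sum, Finset.mul_sum]
    refine Finset.sum_congr rfl fun i _ => ?_
    have hk' : w + 1 = (w - k) + (k + 1) := by
      have := Finset.mem_range.1 hk
      omega
    rw [TR7_tr_C, hk', pow_add, pow_add _ (w - k)]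
    linear_combination (N : ℂ) ^ (w - k) * F₁ * F₂ * Θ.coefE a e l k i * Θ.tr1_Fl hN (k + 1) i
  have h2 : (N : ℂ) ^ (w + 1) * F₁ * F₂ * (N : ℂ) ^ 2 * Θ.ev1 (Θ.ω / 2, 0) (Θ.polE a e l) =
      ∑ k ∈ Finset.range (l + 1), ∑ i ∈ Finset.range (2 * a + 3 * e + l - k),
        (N : ℂ) ^ (w + 3) * ((F₂ * Θ.coefE a e l k i) *
          (F₁ * Θ.ev1 (Θ.ω / 2, 0) ((⇑Θ.D1)^[i] (Θ.Fl (k + 1))))) := by
    unfold polE
    rw [map_sum, Finset.mul_sum]
    refine Finset.sum_congr rfl fun k _ => ?_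
    rw [map_sum, Finset.mul_sum]
    refine Finset.sum_congr rfl fun i _ => ?_
    rw [map_mul, TR7_C]
    ring
  simp only [Finset.sum_sub_distrib]
  rw [Θ.tr1_mono hN, map_sub, ← h1, ← h2]
  ring

theorem sz_DFl : ∃ k0 C : ℕ, ∀ w l i : ℕ, 1 ≤ w → l ≤ 2 * w → i ≤ 3 * w →
    Sz Θ.data (C * w) ((C * w) ^ (C * w))
      (((k0 * w).factorial : ℂ) ^ 2 * Θ.ev1 (Θ.ω / 2, 0) ((⇑Θ.D1)^[i] (Θ.Fl l))) := by
  obtain ⟨k, hk, -, -, -, hi⟩ := Θ.cl_basic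
  refine ⟨3 * k + 50, 6 * k + 109, fun w l i hw hl hi' => ?_⟩
  obtain ⟨B, hB⟩ : ∃ B, B = (3 * k + 50) * w := ⟨_, rfl⟩
  have hB1 : 3 * (k * w) + 50 * w = B := by rw [hB]; ring
  have hkw : k ≤ k * w := Nat.le_mul_of_pos_right k hw
  have hB0 : 1 ≤ B := by omega
  refine TR7_fin (d := k * (2 * w) + 0 + 5 * w) (c := 9)
    (H := ∑ _m ∈ Finset.range (l + 1), B ^ w * B ^ (2 * w) * 1 * (B ^ (3 * w) * B ^ (2 * w))) ?_ hw
    (by omega) (by linarith only [hk, hw, hkw]) ?_ (by omega)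
  · unfold Fl
    rw [TR7_iter]
    refine Cls_sum _ _ _ fun m hm => ?_
    have hm' : m ≤ 2 * w := by
      have := Finset.mem_range.1 hm
      omega
    have hn : k * (l - m) ≤ k * (2 * w) := Nat.mul_le_mul_left k (by omega)
    have hn2 : k * (2 * w) = 2 * (k * w) := by ring
    have h1 : Cls_Q Θ.data (k * (2 * w)) (B ^ w * B ^ (2 * w)) B.factorial
        (PowerSeries.coeff (l - m) (tay Θ.iF)) := by
      refine Cls_dvd (hi (l - m)) (by omega) ?_ (Nat.factorial_dvd_factorial (by omega))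
      rw [pow_zero, mul_one]
      exact Nat.mul_le_mul (TR7_p1 hB0 (by omega) hw) (TR7_p hB0 (by omega) (by omega))
    have h2 : Cls_Q Θ.data 0 1 B.factorial ((m.factorial : ℂ)⁻¹) := TR7_inv (by omega)
    have h3 : Cls_Q Θ.data (5 * w) (B ^ (3 * w) * B ^ (2 * w)) 1
        (Θ.ev1 (Θ.ω / 2, 0) ((⇑Θ.D1)^[i] (Θ.Pm m))) :=
      TR7_int ((Θ.ev_half_sz (Sz.iter Θ.D1 Θ.D1_gen_sz (Θ.sz_Pm m) i)).mono (by omega)
        (Nat.mul_le_mul (TR7_p hB0 (by omega) hi') (TR7_p hB0 (by omega) hm')))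
    have h4 := Cls_mul (Cls_mul h1 h2) h3
    rw [mul_one (B.factorial * B.factorial), ← div_eq_mul_inv] at h4
    rw [← hB]
    exact h4
  · rw [Finset.sum_const, Finset.card_range, smul_eq_mul, ← hB]
    refine (Nat.mul_le_mul_right _ (TR7_p1 (x := l + 1) hB0 (by omega) hw)).trans (le_of_eq ?_)
    ring

theorem sz_coefE : ∃ k0 C : ℕ, ∀ w a e l k i : ℕ, 1 ≤ w → a + e + l ≤ w → k ≤ l → i ≤ 3 * w →
    Sz Θ.data (C * w) ((C * w) ^ (C * w))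
      (((k0 * w).factorial : ℂ) ^ 2 * Θ.coefE a e l k i) := by
  obtain ⟨κ, hκ, hp, hq, hr, -⟩ := Θ.cl_basic
  refine ⟨3 * κ + 50, 6 * κ + 109, fun w a e l k i hw hl hk hi => ?_⟩
  obtain ⟨B, hB⟩ : ∃ B, B = (3 * κ + 50) * w := ⟨_, rfl⟩
  have hB1 : 3 * (κ * w) + 50 * w = B := by rw [hB]; ring
  have hkw : κ ≤ κ * w := Nat.le_mul_of_pos_right κ hw
  have hB0 : 1 ≤ B := by omega
  refine TR7_fin (d := 0 + 0 + κ * (3 * w)) (c := 9)
    (H := B ^ w * B ^ w * 1 * (B ^ w * B ^ (3 * w) * B ^ (3 * w))) ?_ hw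
    (by omega) (by linarith only [hκ, hw, hkw]) (le_of_eq (by rw [← hB]; ring)) (by omega)
  unfold coefE
  obtain ⟨n, hn⟩ : ∃ n, n = 2 * a + 3 * e + l - k - 1 - i := ⟨_, rfl⟩
  rw [← hn, ← hB]
  have hn1 : κ * n ≤ κ * (3 * w) := Nat.mul_le_mul_left κ (by omega)
  have hn2 : κ * (3 * w) = 3 * (κ * w) := by ring
  have h0 : Sz Θ.data 0 (B ^ w * B ^ w) ((l.choose k : ℂ) * (k.factorial : ℂ)) := by
    rw [← Nat.cast_mul]
    exact (Sz.natCast 0 _).mono le_rfl (Nat.mul_le_mul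
      ((Nat.choose_le_pow l k).trans (TR7_p hB0 (by omega) (by omega)))
      ((Nat.factorial_le_pow k).trans (TR7_p hB0 (by omega) (by omega))))
  have h1 : Cls_Q Θ.data 0 (B ^ w * B ^ w) 1
      ((-1) ^ i * (l.choose k : ℂ) * (k.factorial : ℂ)) := by
    refine TR7_int ?_
    rcases neg_one_pow_eq_or ℂ i with h | h
    · rwa [h, one_mul]
    · rw [h, neg_one_mul, neg_mul]
      exact h0.neg
  have h2 : Cls_Q Θ.data 0 1 B.factorial ((i.factorial : ℂ)⁻¹) := TR7_inv (by omega)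
  have h3 : Cls_Q Θ.data (κ * (3 * w)) (B ^ w * B ^ (3 * w) * B ^ (3 * w)) B.factorial
      (PowerSeries.coeff n (tay Θ.pF ^ a * tay Θ.qF ^ e * tay Θ.rF ^ (l - k))) := by
    refine Cls_dvd ((((hp.pow a).mul (hq.pow e)).mul (hr.pow (l - k))) n) (by omega) ?_
      (Nat.factorial_dvd_factorial (by omega))
    rw [← pow_add, ← pow_add]
    exact Nat.mul_le_mul (Nat.mul_le_mul (TR7_p hB0 (by omega) (by omega))
      (TR7_p hB0 (by omega) (by omega))) (TR7_p hB0 (by omega) (by omega))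
  have h4 := Cls_mul (Cls_mul h1 h2) h3
  rwa [one_mul B.factorial, ← div_eq_mul_inv] at h4

theorem trace_sz : ∃ C : ℕ, ∀ N w : ℕ, Odd N → 1 ≤ w → ∃ den : ℕ, 0 < den ∧
    den ≤ (C * w * N) ^ (C * w) ∧ ∀ a e l : ℕ, a + e + l ≤ w →
      Sz Θ.data (C * w) ((C * w * N) ^ (C * w))
        ((den : ℂ) * Θ.tr1 N (X 0 ^ a * X 1 ^ e * X 2 ^ l)) := by
  obtain ⟨k1, C1, h1⟩ := Θ.sz_DFl
  obtain ⟨k2, C2, h2⟩ := Θ.sz_coefE
  refine ⟨C1 + C2 + 2 * k1 + 2 * k2 + 20, fun N w hN hw => ?_⟩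
  have hN0 : 1 ≤ N := hN.pos
  obtain ⟨B, hB⟩ : ∃ B, B = (C1 + C2 + 2 * k1 + 2 * k2 + 20) * w * N := ⟨_, rfl⟩
  obtain ⟨E, hE⟩ : ∃ E, E = (C1 + C2 + 2 * k1 + 2 * k2 + 20) * w := ⟨_, rfl⟩
  have hE1 : C1 * w + C2 * w + 2 * (k1 * w) + 2 * (k2 * w) + 20 * w = E := by rw [hE]; ring
  have hEB : E ≤ B := by
    rw [hB, ← hE]
    exact Nat.le_mul_of_pos_right E hN0
  have hNB : N ≤ B := by
    rw [hB, ← hE]
    exact Nat.le_mul_of_pos_left N (by omega)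
  have hB0 : 1 ≤ B := by omega
  rw [← hB, ← hE]
  have hden : N ^ (w + 1) * (k1 * w).factorial ^ 2 * (k2 * w).factorial ^ 2 ≤
      B ^ (2 * w) * (B ^ (k1 * w)) ^ 2 * (B ^ (k2 * w)) ^ 2 :=
    Nat.mul_le_mul (Nat.mul_le_mul (TR7_p hB0 hNB (by omega)) (Nat.pow_le_pow_left
      ((Nat.factorial_le_pow _).trans (TR7_p hB0 (by omega) le_rfl)) 2)) (Nat.pow_le_pow_left
      ((Nat.factorial_le_pow _).trans (TR7_p hB0 (by omega) le_rfl)) 2)
  rw [← pow_mul B, ← pow_mul B, ← pow_add B, ← pow_add B] at hden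
  refine ⟨N ^ (w + 1) * (k1 * w).factorial ^ 2 * (k2 * w).factorial ^ 2, by positivity,
    hden.trans (Nat.pow_le_pow_right hB0 (by omega)), fun a e l hl => ?_⟩
  have e1 := Θ.TR7_eq hN (w := w) (a := a) (e := e) (l := l) (by omega)
    (((k1 * w).factorial : ℂ) ^ 2) (((k2 * w).factorial : ℂ) ^ 2)
  have hT : Sz Θ.data E ((Finset.range (l + 1)).card * (B ^ w * (B ^ (6 * w) *
      (B ^ (C2 * w) * B ^ (C1 * w)) + B ^ (6 * w) * (B ^ (C2 * w) * B ^ (C1 * w))))) _ :=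
    Sz.sum_le (Finset.range (l + 1)) (fun k => ∑ i ∈ Finset.range (2 * a + 3 * e + l - k),
      ((N : ℂ) ^ (w - k + (2 + i)) * ((((k2 * w).factorial : ℂ) ^ 2 * Θ.coefE a e l k i) *
          (((k1 * w).factorial : ℂ) ^ 2 * Θ.ev1 (Θ.ω / 2, 0) ((⇑Θ.D1)^[i] (Θ.Fl (k + 1))))) -
        (N : ℂ) ^ (w + 3) * ((((k2 * w).factorial : ℂ) ^ 2 * Θ.coefE a e l k i) *
          (((k1 * w).factorial : ℂ) ^ 2 * Θ.ev1 (Θ.ω / 2, 0) ((⇑Θ.D1)^[i] (Θ.Fl (k + 1)))))))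
      fun k hk => by
        have hk' := Finset.mem_range.1 hk
        refine (Sz.sum_le _ _ fun i hi => ?_).mono le_rfl (Nat.mul_le_mul_right _
          (TR7_p1 hB0 (by rw [Finset.card_range]; omega) hw))
        have hi' := Finset.mem_range.1 hi
        have h3 := ((h2 w a e l k i hw hl (by omega) (by omega)).mul
          (h1 w (k + 1) i hw (by omega) (by omega))).mono (n' := E) (by omega)
          (Nat.mul_le_mul (TR7_p hB0 (by omega) le_rfl) (TR7_p hB0 (by omega) le_rfl))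
        rw [← Nat.cast_pow N, ← Nat.cast_pow N]
        exact ((h3.natCast_mul _).mono le_rfl (Nat.mul_le_mul_right _
          (TR7_p hB0 hNB (by omega)))).sub ((h3.natCast_mul _).mono le_rfl
          (Nat.mul_le_mul_right _ (TR7_p hB0 hNB (by omega))))
  have hM := ((Θ.TR7_mono a e l).natCast_mul
    (N ^ (w + 1) * (k1 * w).factorial ^ 2 * (k2 * w).factorial ^ 2 * N ^ 2)).mono (n' := E)
    (by omega) (Nat.mul_le_mul_right 1 (Nat.mul_le_mul hden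
      (TR7_p (e := 2 * w) hB0 hNB (by omega))))
  have h4 := hT.add hM
  push_cast at h4 ⊢
  rw [e1]
  refine h4.mono le_rfl ?_
  rw [Finset.card_range, mul_one, ← pow_add B, ← pow_add B, ← pow_add B, ← two_mul]
  have b1 : l + 1 ≤ B ^ w := TR7_p1 hB0 (by omega) hw
  have b2 : 2 ≤ B ^ w := TR7_p1 hB0 (by omega) hw
  have b3 : (l + 1) * (B ^ w * (2 * B ^ (6 * w + (C2 * w + C1 * w)))) ≤ B ^ (E - w) := by
    refine (Nat.mul_le_mul b1 (Nat.mul_le_mul_left _ (Nat.mul_le_mul_right _ b2))).trans ?_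
    rw [← pow_add B, ← pow_add B, ← pow_add B]
    exact Nat.pow_le_pow_right hB0 (by omega)
  have b4 : B ^ (2 * w + k1 * w * 2 + k2 * w * 2 + 2 * w) ≤ B ^ (E - w) :=
    Nat.pow_le_pow_right hB0 (by omega)
  have b5 : 2 * B ^ (E - w) ≤ B ^ E := by
    refine (Nat.mul_le_mul_right _ b2).trans ?_
    rw [← pow_add B]
    exact Nat.pow_le_pow_right hB0 (by omega)
  omega

end Theta

end Pool.Agent.E21
end

-- merged part: Pool.Agent.Work.MP_e21d36_nt.Num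
section
/-!
# Elementary numerical bounds

Plan.  `n ≤ 2^n` (`Nat.lt_two_pow_self`), so `C n^a ≤ 2^(C + a n) ≤ 2^((C + a) n)` for `n ≥ 1`;
`j! ≤ j^j` (`Nat.factorial_le_pow`).
-/

namespace Pool.Agent.E21

theorem num_base (C a : ℕ) : ∀ n : ℕ, 1 ≤ n → C * n ^ a ≤ 2 ^ ((C + a) * n) := by
  intro n hn
  have h1 : C ≤ 2 ^ (C * n) :=
    Nat.lt_two_pow_self.le.trans (Nat.pow_le_pow_right two_pos (Nat.le_mul_of_pos_right C hn))
  have h2 : n ^ a ≤ 2 ^ (a * n) := by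
    rw [mul_comm, pow_mul]
    exact Nat.pow_le_pow_left Nat.lt_two_pow_self.le a
  rw [add_mul, pow_add]
  exact Nat.mul_le_mul h1 h2

theorem num_pow (C a c b : ℕ) : ∃ C' : ℕ, ∀ n x y : ℕ, 1 ≤ n → x ≤ C * n ^ a → y ≤ c * n ^ b →
    x ^ y ≤ 2 ^ (C' * n ^ (b + 1)) := by
  refine ⟨(C + a) * c, fun n x y hn hx hy => ?_⟩
  calc x ^ y ≤ (2 ^ ((C + a) * n)) ^ y := Nat.pow_le_pow_left (hx.trans (num_base C a n hn)) y
    _ = 2 ^ ((C + a) * n * y) := (pow_mul _ _ _).symm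
    _ ≤ 2 ^ ((C + a) * n * (c * n ^ b)) :=
      Nat.pow_le_pow_right two_pos (Nat.mul_le_mul_left _ hy)
    _ = 2 ^ ((C + a) * c * n ^ (b + 1)) := by congr 1; ring

theorem num_fact (C b : ℕ) : ∃ C' : ℕ, ∀ n j : ℕ, 1 ≤ n → j ≤ C * n ^ b →
    j.factorial ≤ 2 ^ (C' * n ^ (b + 1)) := by
  obtain ⟨C', h⟩ := num_pow C b C b
  exact ⟨C', fun n j hn hj => (Nat.factorial_le_pow j).trans (h n j j hn hj hj)⟩

theorem num_real (B : ℝ) (c b : ℕ) : ∃ C' : ℕ, ∀ n y : ℕ, y ≤ c * n ^ b →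
    (max 1 B) ^ y ≤ (2 : ℝ) ^ (C' * n ^ b) := by
  obtain ⟨m, hm⟩ := pow_unbounded_of_one_lt (max 1 B) (one_lt_two (α := ℝ))
  refine ⟨m * c, fun n y hy => ?_⟩
  calc (max 1 B) ^ y ≤ ((2 : ℝ) ^ m) ^ y :=
        pow_le_pow_left₀ (zero_le_one.trans (le_max_left _ _)) hm.le y
    _ = 2 ^ (m * y) := (pow_mul _ _ _).symm
    _ ≤ 2 ^ (m * c * n ^ b) := by
      refine pow_le_pow_right₀ one_le_two ?_
      rw [mul_assoc]
      exact Nat.mul_le_mul_left _ hy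

theorem num_final (C : ℕ) : ∀ᶠ k : ℕ in Filter.atTop,
    (2 : ℝ) ^ (C * (2 * k + 1) ^ 34) * (1 / 2) ^ ((2 * k + 1) ^ 35) ≤
      (1 / 2) ^ ((2 * k + 1) ^ 34) := by
  filter_upwards [Filter.eventually_ge_atTop C] with k hk
  have h1 : C * (2 * k + 1) ^ 34 + (2 * k + 1) ^ 34 ≤ (2 * k + 1) ^ 35 := by
    rw [pow_succ' _ 34, ← add_one_mul]
    exact Nat.mul_le_mul_right _ (by omega)
  generalize (2 * k + 1) ^ 34 = x at h1 ⊢
  generalize (2 * k + 1) ^ 35 = y at h1 ⊢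
  calc (2 : ℝ) ^ (C * x) * (1 / 2) ^ y ≤ 2 ^ (C * x) * (1 / 2) ^ (C * x + x) :=
        mul_le_mul_of_nonneg_left (pow_le_pow_of_le_one (by norm_num) (by norm_num) h1)
          (by positivity)
    _ = (1 / 2) ^ x := by rw [pow_add, ← mul_assoc, ← mul_pow]; norm_num

end Pool.Agent.E21
end

-- merged part: Pool.Agent.Work.MP_e21d36_nt.Sys
section
/-!
# Arithmetic of the linear system

Plan.  `Tr_prod`: the sum over `Fin 2 → Fin N × Fin N` of a product of a function of `κ 0` and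
a function of `κ 1` is the product of the sums (`Finset.prod_univ_sum` / `Fintype.piFinset`,
or `finTwoArrowEquiv`), `ev2_rename`.
`Tr_sz`: `den = den0 * den1`; `Sz.map` with the additive map `Q ↦ den * Tr N Q`; a monomial has
the shape of `Mon.mv_shape`, `∏ v, X v ^ e v = ∏ i, rename (Prod.mk i) (X 0^.. * X 1^.. * X 2^..)`
(`Fintype.prod_prod_type`, `Fin.prod_univ_three`); `trace_sz` for both factors, `Sz.subset`,
`Sz.mul`; `C = 2 (C0 + C1) + 1` works since the bounds are monotone in `C`.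
`sz_cond`: `Sz.prod`, `Sz.pow`, `Sz.gen`, `Sz.iter`.
`rep_cond`: `w = C3 n^16` with `C3 = 4 + 4 C1 + C2`, `η = δ^(C w + 1) * den`; `Ord.rep_sz`,
`num_pow`, `num_real`, `Rep.mono`.
-/

namespace Pool.Agent.E21

open MvPolynomial

namespace Pair

variable (W : Pair)

/-- The trace as a linear map. -/
noncomputable def Sys_L (N : ℕ) : P2 →ₗ[ℂ] ℂ :=
  ∑ κ : Fin 2 → Fin N × Fin N, (W.ev2 (W.ptF N κ)).toLinearMap

theorem Sys_L_eq (N : ℕ) (Q : P2) : W.Sys_L N Q = W.Tr N Q := by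
  simp [Sys_L, Tr]

theorem Sys_C_mul (N : ℕ) (c : ℂ) (Q : P2) : W.Tr N (C c * Q) = c * W.Tr N Q := by
  rw [← Sys_L_eq, ← Sys_L_eq, C_mul', map_smul, smul_eq_mul]

theorem Sys_data (i : Fin 2) : (W.Θ i).data ⊆ W.data2 := by
  fin_cases i
  · exact Set.subset_union_left
  · exact Set.subset_union_right

theorem Sys_X (v : Fin 2 × Fin 3) (k : ℕ) : Sz W.G2 k 1 (X v ^ k) := by
  have h := (Sz.gen (G := W.G2) (g := X v) (Or.inl ⟨v, rfl⟩)).pow k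
  rwa [mul_one, one_pow] at h

theorem Tr_prod (N : ℕ) (Q : Fin 2 → P1) :
    W.Tr N (∏ i, rename (Prod.mk i) (Q i)) = ∏ i, (W.Θ i).tr1 N (Q i) := by
  simp only [Tr, Theta.tr1, map_prod, ev2_rename]
  rw [Fintype.prod_sum]
  rfl

theorem Tr_sz : ∃ C : ℕ, ∀ N w : ℕ, Odd N → 1 ≤ w → ∃ den : ℕ, 0 < den ∧
    den ≤ (C * w * N) ^ (C * w) ∧ ∀ (H : ℕ) (Q : P2), Sz W.G2 w H Q →
      Sz W.data2 (C * w) (H * (C * w * N) ^ (C * w)) ((den : ℂ) * W.Tr N Q) := by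
  obtain ⟨C0, h0⟩ := (W.Θ 0).trace_sz
  obtain ⟨C1, h1⟩ := (W.Θ 1).trace_sz
  refine ⟨C0 + C1 + 1, fun N w hN hw => ?_⟩
  obtain ⟨d0, p0, b0, s0⟩ := h0 N w hN hw
  obtain ⟨d1, p1, b1, s1⟩ := h1 N w hN hw
  have hN1 := hN.pos
  have key : (C0 * w * N) ^ (C0 * w) * (C1 * w * N) ^ (C1 * w) ≤
      ((C0 + C1 + 1) * w * N) ^ ((C0 + C1 + 1) * w) := by
    have e0 : C0 * w * N ≤ (C0 + C1 + 1) * w * N := by gcongr; omega
    have e1 : C1 * w * N ≤ (C0 + C1 + 1) * w * N := by gcongr; omega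
    refine (Nat.mul_le_mul (Nat.pow_le_pow_left e0 _) (Nat.pow_le_pow_left e1 _)).trans ?_
    rw [← pow_add]
    exact Nat.pow_le_pow_right (by positivity) (by linarith only [hw])
  refine ⟨d0 * d1, Nat.mul_pos p0 p1, (Nat.mul_le_mul b0 b1).trans key, fun H Q hQ => ?_⟩
  have h2 := Sz.map (G' := W.data2) (((d0 * d1 : ℕ) : ℂ) • W.Sys_L N).toAddMonoidHom
    (n' := (C0 + C1 + 1) * w) (H' := ((C0 + C1 + 1) * w * N) ^ ((C0 + C1 + 1) * w))
    (fun y hy => ?_) hQ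
  · simpa only [LinearMap.toAddMonoidHom_coe, LinearMap.smul_apply, smul_eq_mul, Sys_L_eq] using h2
  obtain ⟨y0, e, hy0, he, rfl⟩ := Mon.mv_shape hy
  have e1 : (∏ v, X v ^ e v : P2) = ∏ i : Fin 2, rename (Prod.mk i)
      (X 0 ^ e (i, 0) * X 1 ^ e (i, 1) * X 2 ^ e (i, 2) : P1) := by
    simp only [Fintype.prod_prod_type, Fin.prod_univ_three, map_mul, map_pow, rename_X]
  simp only [Fintype.sum_prod_type, Fin.sum_univ_two, Fin.sum_univ_three] at he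
  have a0 := (s0 (e (0, 0)) (e (0, 1)) (e (0, 2)) (by omega)).subset (W.Sys_data 0)
  have a1 := (s1 (e (1, 0)) (e (1, 1)) (e (1, 2)) (by omega)).subset (W.Sys_data 1)
  have a2 := ((Sz.of_mon hy0).mul (a0.mul a1)).mono (n' := (C0 + C1 + 1) * w)
    (le_of_eq (by ring)) ((one_mul _).le.trans key)
  simp only [LinearMap.toAddMonoidHom_coe, LinearMap.smul_apply, smul_eq_mul, Sys_L_eq]
  rw [Sys_C_mul, e1, Tr_prod, Fin.prod_univ_two]
  convert a2 using 1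
  push_cast
  ring

theorem D2_gen_sz : ∀ g ∈ W.G2, Sz W.G2 2 8 (W.D2 g) := by
  rintro _ (⟨v, rfl⟩ | ⟨c, -, rfl⟩)
  · have h := (W.Θ v.1).D1_gen_sz (X v.2) (Or.inl ⟨_, rfl⟩)
    rw [Theta.D1, mkDerivation_X] at h
    rw [D2, mkDerivation_X]
    refine Sz.ringHom (rename (Prod.mk v.1) : P1 →ₐ[ℂ] P2).toRingHom ?_ h
    rintro _ (⟨j, rfl⟩ | ⟨c, hc, rfl⟩)
    · exact Or.inl (Or.inl ⟨(v.1, j), by simp⟩)
    · exact Or.inl (Or.inr ⟨c, W.Sys_data _ hc, by simp⟩)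
  · rw [derivation_C]
    exact Sz.zero _ _

theorem sz_cond {M D : ℕ} (a : Fin 2 → Fin M) (e : Fin 2 → Fin 2) (l : Fin 2 × Fin 2 → Fin D)
    (j : ℕ) : Sz W.G2 (2 * M + 2 + 4 * D + j) ((8 * (4 * D + j)) ^ j)
      (muM a e * (⇑W.D2)^[j] (monoB l)) := by
  have h1 : Sz W.G2 (2 * M + 2) 1 (muM a e) := by
    rw [muM, Fin.prod_univ_two]
    refine (((W.Sys_X _ _).mul (W.Sys_X _ _)).mul ((W.Sys_X _ _).mul (W.Sys_X _ _))).mono ?_ le_rfl
    have := (a 0).2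
    have := (a 1).2
    have := (e 0).2
    have := (e 1).2
    omega
  have h2 : Sz W.G2 (4 * D) 1 (monoB l) := by
    refine (Sz.prod Finset.univ (fun v => (l v : ℕ)) (fun _ => 1) _
      fun v _ => W.Sys_X (emb v) (l v)).mono ?_ (by simp)
    refine (Finset.sum_le_card_nsmul _ _ D fun v _ => (l v).2.le).trans ?_
    simp
  exact (h1.mul (Sz.iter W.D2 W.D2_gen_sz h2 j)).mono (by omega) (by simp)

theorem rep_cond {θ0 : ℂ} (O : Ord θ0 W.data2) (C1 C2 : ℕ) : ∃ C : ℕ, ∀ n : ℕ, Odd n →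
    ∃ η : ℂ, η ≠ 0 ∧ ‖η‖ ≤ 2 ^ (C * n ^ 17) ∧ ∀ j ≤ C2 * n ^ 16,
      ∀ (a : Fin 2 → Fin ((n ^ 8) ^ 2)) (e : Fin 2 → Fin 2)
        (l : Fin 2 × Fin 2 → Fin (C1 * n ^ 12)),
        Rep θ0 O.w (C * n ^ 16) (2 ^ (C * n ^ 17))
          (η * W.Tr (n ^ 8) (muM a e * (⇑W.D2)^[j] (monoB l))) := by
  obtain ⟨T, hT⟩ := W.Tr_sz
  obtain ⟨R, hR⟩ := O.rep_sz
  obtain ⟨C3, hC3⟩ : ∃ C3 : ℕ, C3 = 4 + 4 * C1 + C2 := ⟨_, rfl⟩
  obtain ⟨Ca, ha⟩ := num_pow (8 * C3) 16 C2 16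
  obtain ⟨Cb, hb⟩ := num_pow (T * C3) 24 (T * C3) 16
  obtain ⟨Cc, hc⟩ := num_pow R 0 (T * C3 + 1) 16
  obtain ⟨Cd, hd⟩ := num_real ‖O.δ‖ (T * C3 + 1) 16
  refine ⟨Ca + Cb + Cc + Cd + R * (T * C3 + 1), fun n hn => ?_⟩
  have hn1 : 1 ≤ n := hn.pos
  have p16 : 1 ≤ n ^ 16 := Nat.one_le_pow _ _ hn1
  have p12 : n ^ 12 ≤ n ^ 16 := Nat.pow_le_pow_right hn1 (by norm_num)
  have p17 : n ^ 16 ≤ n ^ 17 := Nat.pow_le_pow_right hn1 (by norm_num)
  obtain ⟨den, d0, d1, d2⟩ := hT (n ^ 8) (C3 * n ^ 16) hn.pow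
    (Nat.mul_pos (by omega) p16)
  have b1 : (T * (C3 * n ^ 16) * n ^ 8) ^ (T * (C3 * n ^ 16)) ≤ 2 ^ (Cb * n ^ 17) :=
    hb n _ _ hn1 (le_of_eq (by ring)) (le_of_eq (by ring))
  have y1 : T * (C3 * n ^ 16) + 1 ≤ (T * C3 + 1) * n ^ 16 := by
    rw [add_mul, one_mul, mul_assoc]
    omega
  have b2 : R ^ (T * (C3 * n ^ 16) + 1) ≤ 2 ^ (Cc * n ^ 17) := hc n R _ hn1 (by simp) y1
  have b3 := hd n _ y1
  refine ⟨O.δ ^ (T * (C3 * n ^ 16) + 1) * den,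
    mul_ne_zero (pow_ne_zero _ O.hδ) (Nat.cast_ne_zero.2 d0.ne'), ?_, fun j hj a e l => ?_⟩
  · have b4 : (den : ℝ) ≤ 2 ^ (Cb * n ^ 17) := by exact_mod_cast d1.trans b1
    have b5 : ‖O.δ‖ ^ (T * (C3 * n ^ 16) + 1) ≤ 2 ^ (Cd * n ^ 16) :=
      (pow_le_pow_left₀ (norm_nonneg _) (le_max_right 1 _) _).trans b3
    rw [norm_mul, norm_pow, Complex.norm_natCast]
    refine (mul_le_mul b5 b4 (Nat.cast_nonneg _) (by positivity)).trans ?_
    rw [← pow_add]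
    refine pow_le_pow_right₀ one_le_two ?_
    have := Nat.mul_le_mul_left Cd p17
    simp only [add_mul]
    omega
  · have q1 := Nat.mul_le_mul_left C1 p12
    have q2 : (n ^ 8) ^ 2 = n ^ 16 := by ring
    have q3 : C3 * n ^ 16 = 4 * n ^ 16 + 4 * (C1 * n ^ 16) + C2 * n ^ 16 := by
      rw [hC3]
      ring
    have b6 : (8 * (4 * (C1 * n ^ 12) + j)) ^ j ≤ 2 ^ (Ca * n ^ 17) :=
      ha n _ _ hn1 (by rw [mul_assoc 8 C3]; omega) hj
    have s1 := (W.sz_cond a e l j).mono (n' := C3 * n ^ 16) (by omega) b6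
    have s2 := hR _ _ _ (d2 _ _ s1)
    rw [mul_assoc]
    refine s2.mono ?_ ?_
    · refine (Nat.mul_le_mul_left R y1).trans ?_
      rw [← mul_assoc]
      exact Nat.mul_le_mul_right _ (Nat.le_add_left _ _)
    · refine (Nat.mul_le_mul b2 (Nat.mul_le_mul_left _ b1)).trans ?_
      rw [← pow_add, ← pow_add]
      refine Nat.pow_le_pow_right two_pos ?_
      simp only [add_mul]
      omega

theorem Tr_aux {D : ℕ} (N j : ℕ) (μ : P2) (c : (Fin 2 × Fin 2 → Fin D) → ℂ) :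
    W.Tr N (μ * (⇑W.D2)^[j] (auxF c)) = ∑ l, c l * W.Tr N (μ * (⇑W.D2)^[j] (monoB l)) := by
  have h : (⇑W.D2)^[j] (auxF c) = ∑ l, c l • (⇑W.D2)^[j] (monoB l) := by
    induction j with
    | zero => simp only [auxF, C_mul', Function.iterate_zero, id]
    | succ j ih => simp only [Function.iterate_succ_apply', ih, map_sum, Derivation.map_smul]
  simp only [h, ← Sys_L_eq, Finset.mul_sum, mul_smul_comm, map_sum, map_smul, smul_eq_mul]

end Pair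

end Pool.Agent.E21
end
end
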