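import Mathlib
import Pool.Agent.Work.MP_e21d36_nt.Sys
import Pool.Agent.Work.MP_e21d36_nt.RS

-- merged part: Pool.Agent.Work.MP_e21d36_nt.H3a
section
-- merged part: Pool.Agent.Work.MP_e21d36_nt.MDefs
section
/-!
# The field of meromorphic functions on the plane as a fraction field
-/

namespace Pool.Agent.E21

/-- Entire functions. -/
def Ent : Subalgebra ℂ (ℂ → ℂ) where
  carrier := {f | Differentiable ℂ f}
  mul_mem' := fun ha hb => Differentiable.mul ha hb
  add_mem' := fun ha hb => Differentiable.add ha hb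
  algebraMap_mem' := fun c => differentiable_const c

instance : NoZeroDivisors Ent where
  eq_zero_or_eq_zero_of_mul_eq_zero := by
    intro f g h
    have hf : AnalyticOnNhd ℂ f.1 Set.univ := fun z _ => (f.2 : Differentiable ℂ f.1).analyticAt z
    have hg : AnalyticOnNhd ℂ g.1 Set.univ := fun z _ => (g.2 : Differentiable ℂ g.1).analyticAt z
    have h' : ∀ z ∈ (Set.univ : Set ℂ), f.1 z * g.1 z = 0 := fun z _ =>
      congrFun (congrArg Subtype.val h) z
    rcases AnalyticOnNhd.eq_zero_or_eq_zero_of_mul_eq_zero hf hg h' isPreconnected_univ with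
      h1 | h1
    · left; ext z; exact h1 z trivial
    · right; ext z; exact h1 z trivial

instance : IsDomain Ent := NoZeroDivisors.to_isDomain _

/-- Meromorphic functions. -/
abbrev Mer : Type := FractionRing Ent

/-- Precomposition with the affine map `z ↦ ε z + a`, `ε ^ 2 = 1`. -/
def affE (ε a : ℂ) (hε : ε * ε = 1) : Ent ≃ₐ[ℂ] Ent where
  toFun f := ⟨fun z => f.1 (ε * z + a),
    (f.2 : Differentiable ℂ f.1).comp (by fun_prop : Differentiable ℂ fun z => ε * z + a)⟩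
  invFun f := ⟨fun z => f.1 (ε * (z - a)),
    (f.2 : Differentiable ℂ f.1).comp (by fun_prop : Differentiable ℂ fun z => ε * (z - a))⟩
  left_inv f := by
    ext z
    have : ε * (ε * (z - a)) + a = z := by rw [← mul_assoc, hε]; ring
    simp only [this]
  right_inv f := by
    ext z
    have : ε * (ε * z + a - a) = z := by rw [add_sub_cancel_right, ← mul_assoc, hε, one_mul]
    simp only [this]
  map_mul' _ _ := rfl
  map_add' _ _ := rfl
  commutes' _ := rfl

/-- Translation `f ↦ f (· + a)` on meromorphic functions. -/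
noncomputable def sh (a : ℂ) : Mer →ₐ[ℂ] Mer :=
  (IsFractionRing.algEquivOfAlgEquiv (K := Mer) (L := Mer) (affE 1 a (mul_one 1))).toAlgHom

/-- Reflection `f ↦ f (- ·)` on meromorphic functions. -/
noncomputable def rf : Mer →ₐ[ℂ] Mer :=
  (IsFractionRing.algEquivOfAlgEquiv (K := Mer) (L := Mer)
    (affE (-1) 0 (by ring))).toAlgHom

/-- The meromorphic function `m` is regular at `z` with value `v`. -/
def HasVal (m : Mer) (z v : ℂ) : Prop :=
  ∃ g h : Ent, h.1 z ≠ 0 ∧ m * algebraMap Ent Mer h = algebraMap Ent Mer g ∧ v = g.1 z / h.1 z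

end Pool.Agent.E21
end

-- merged part: Pool.Agent.Work.MP_e21d36_nt.MF1
section
/-!
# Values of meromorphic functions

Plan.  `IsFractionRing.injective Ent Mer`, `IsFractionRing.div_surjective`,
`IsFractionRing.algEquivOfAlgEquiv_algebraMap`; equality of algebra maps out of `Mer` can be
checked on `algebraMap Ent Mer f` (`IsLocalization.algHom_ext`, or write `m = f / g`).
For the identity principle use `AnalyticAt.eventually_eq_zero_or_eventually_ne_zero` and
`AnalyticOnNhd.eq_of_frequently_eq` / `eqOn_zero_of_preconnected_of_frequently_eq_zero`.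
-/

namespace Pool.Agent.E21

open Filter Topology

theorem MF1_inj {f g : Ent} (h : algebraMap Ent Mer f = algebraMap Ent Mer g) (z : ℂ) :
    f.1 z = g.1 z := by
  rw [IsFractionRing.injective Ent Mer h]

theorem MF1_ne {f : Ent} {z : ℂ} (h : f.1 z ≠ 0) : algebraMap Ent Mer f ≠ 0 := fun e =>
  h (MF1_inj (e.trans (map_zero _).symm) z)

theorem MF1_div (m : Mer) :
    ∃ f g : Ent, g ≠ 0 ∧ m = algebraMap Ent Mer f / algebraMap Ent Mer g := by
  obtain ⟨f, g, hg, e⟩ := IsFractionRing.div_surjective (A := Ent) m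
  exact ⟨f, g, nonZeroDivisors.ne_zero hg, e.symm⟩

theorem MF1_ev {g : Ent} (hg : g ≠ 0) (z : ℂ) : ∀ᶠ w in 𝓝[≠] z, g.1 w ≠ 0 := by
  have ha : AnalyticOnNhd ℂ g.1 Set.univ := fun z _ => (g.2 : Differentiable ℂ g.1).analyticAt z
  refine (ha z trivial).eventually_eq_zero_or_eventually_ne_zero.resolve_left fun h => hg ?_
  exact Subtype.ext (funext fun w =>
    ha.eqOn_zero_of_preconnected_of_eventuallyEq_zero isPreconnected_univ trivial h trivial)

theorem MF1_aff (ε a : ℂ) (hε : ε * ε = 1) (m : Mer) (z v : ℂ) :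
    HasVal (IsFractionRing.algEquivOfAlgEquiv (K := Mer) (L := Mer) (affE ε a hε) m) z v ↔
      HasVal m (ε * z + a) v := by
  constructor
  · rintro ⟨g, h, h1, h2, h3⟩
    obtain ⟨g, rfl⟩ := (affE ε a hε).surjective g
    obtain ⟨h, rfl⟩ := (affE ε a hε).surjective h
    refine ⟨g, h, h1, (IsFractionRing.algEquivOfAlgEquiv (K := Mer) (L := Mer)
      (affE ε a hε)).injective ?_, h3⟩
    rw [map_mul, IsFractionRing.algEquivOfAlgEquiv_algebraMap,
      IsFractionRing.algEquivOfAlgEquiv_algebraMap, h2]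
  · rintro ⟨g, h, h1, h2, h3⟩
    refine ⟨affE ε a hε g, affE ε a hε h, h1, ?_, h3⟩
    rw [← IsFractionRing.algEquivOfAlgEquiv_algebraMap (K := Mer) (L := Mer),
      ← IsFractionRing.algEquivOfAlgEquiv_algebraMap (K := Mer) (L := Mer), ← map_mul, h2]


theorem sh_algebraMap (a : ℂ) (f g : Ent) (h : ∀ z, g.1 z = f.1 (z + a)) :
    sh a (algebraMap Ent Mer f) = algebraMap Ent Mer g := by
  have e : g = affE 1 a (mul_one 1) f := Subtype.ext (funext fun z => by
    rw [h]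
    exact congrArg f.1 (by rw [one_mul]))
  rw [e]
  exact IsFractionRing.algEquivOfAlgEquiv_algebraMap _ f

theorem rf_algebraMap (f g : Ent) (h : ∀ z, g.1 z = f.1 (-z)) :
    rf (algebraMap Ent Mer f) = algebraMap Ent Mer g := by
  have e : g = affE (-1) 0 (by ring) f := Subtype.ext (funext fun z => by
    rw [h]
    exact congrArg f.1 (by ring))
  rw [e]
  exact IsFractionRing.algEquivOfAlgEquiv_algebraMap _ f

theorem sh_sh (a b : ℂ) (m : Mer) : sh a (sh b m) = sh (a + b) m := by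
  have key : ∀ f : Ent, sh a (sh b (algebraMap Ent Mer f)) = sh (a + b) (algebraMap Ent Mer f) := by
    intro f
    have h : ∀ (c : ℂ) (f : Ent) (z : ℂ), (affE 1 c (mul_one 1) f).1 z = f.1 (z + c) :=
      fun c f z => congrArg f.1 (by rw [one_mul])
    rw [sh_algebraMap b f _ (h b f), sh_algebraMap a _ _ (h a _),
      sh_algebraMap (a + b) f _ fun z => by rw [h, h, add_assoc]]
  obtain ⟨f, g, -, rfl⟩ := MF1_div m
  simp only [map_div₀, key]

theorem sh_zero (m : Mer) : sh 0 m = m := by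
  obtain ⟨f, g, -, rfl⟩ := MF1_div m
  rw [map_div₀, sh_algebraMap 0 f f fun z => by rw [add_zero],
    sh_algebraMap 0 g g fun z => by rw [add_zero]]

theorem HasVal.unique {m : Mer} {z v v' : ℂ} (h : HasVal m z v) (h' : HasVal m z v') :
    v = v' := by
  obtain ⟨g, k, h1, h2, rfl⟩ := h
  obtain ⟨g', k', h1', h2', rfl⟩ := h'
  rw [div_eq_div_iff h1 h1']
  exact MF1_inj (f := g * k') (g := g' * k) (by
    rw [map_mul, map_mul, ← h2, ← h2']
    ring) z

theorem hasVal_ent (f : Ent) (z : ℂ) : HasVal (algebraMap Ent Mer f) z (f.1 z) :=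
  ⟨f, 1, one_ne_zero, by rw [map_one, mul_one], (div_one _).symm⟩

theorem hasVal_div (f g : Ent) (z : ℂ) (hg : g.1 z ≠ 0) :
    HasVal (algebraMap Ent Mer f / algebraMap Ent Mer g) z (f.1 z / g.1 z) :=
  ⟨f, g, hg, div_mul_cancel₀ _ (MF1_ne hg), rfl⟩

theorem hasVal_const (c z : ℂ) : HasVal (algebraMap ℂ Mer c) z c := by
  rw [IsScalarTower.algebraMap_apply ℂ Ent Mer]
  exact hasVal_ent _ z

theorem HasVal.add {m m' : Mer} {z v v' : ℂ} (h : HasVal m z v) (h' : HasVal m' z v') :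
    HasVal (m + m') z (v + v') := by
  obtain ⟨g, k, h1, h2, rfl⟩ := h
  obtain ⟨g', k', h1', h2', rfl⟩ := h'
  refine ⟨g * k' + k * g', k * k', mul_ne_zero h1 h1', ?_, div_add_div _ _ h1 h1'⟩
  rw [map_add, map_mul, map_mul, map_mul, ← h2, ← h2']
  ring

theorem HasVal.neg {m : Mer} {z v : ℂ} (h : HasVal m z v) : HasVal (-m) z (-v) := by
  obtain ⟨g, k, h1, h2, rfl⟩ := h
  exact ⟨-g, k, h1, by rw [map_neg, neg_mul, h2], (neg_div _ _).symm⟩

theorem HasVal.sub {m m' : Mer} {z v v' : ℂ} (h : HasVal m z v) (h' : HasVal m' z v') :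
    HasVal (m - m') z (v - v') := by
  rw [sub_eq_add_neg, sub_eq_add_neg]
  exact h.add h'.neg

theorem HasVal.mul {m m' : Mer} {z v v' : ℂ} (h : HasVal m z v) (h' : HasVal m' z v') :
    HasVal (m * m') z (v * v') := by
  obtain ⟨g, k, h1, h2, rfl⟩ := h
  obtain ⟨g', k', h1', h2', rfl⟩ := h'
  refine ⟨g * g', k * k', mul_ne_zero h1 h1', ?_, div_mul_div_comm _ _ _ _⟩
  rw [map_mul, map_mul, ← h2, ← h2']
  ring

theorem HasVal.pow {m : Mer} {z v : ℂ} (h : HasVal m z v) (k : ℕ) :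
    HasVal (m ^ k) z (v ^ k) := by
  induction k with
  | zero =>
    rw [pow_zero, pow_zero]
    simpa only [map_one] using hasVal_const 1 z
  | succ k ih =>
    rw [pow_succ, pow_succ]
    exact ih.mul h

theorem HasVal.inv {m : Mer} {z v : ℂ} (h : HasVal m z v) (hv : v ≠ 0) :
    HasVal m⁻¹ z v⁻¹ := by
  obtain ⟨g, k, h1, h2, rfl⟩ := h
  have hg : g.1 z ≠ 0 := fun e => hv (by rw [e, zero_div])
  have hm : m ≠ 0 := fun e => MF1_ne hg (by rw [← h2, e, zero_mul])
  exact ⟨k, g, hg, by rw [← h2, inv_mul_cancel_left₀ hm], inv_div _ _⟩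

theorem hasVal_aeval {σ : Type} (m : σ → Mer) (z : ℂ) (v : σ → ℂ)
    (h : ∀ i, HasVal (m i) z (v i)) (Q : MvPolynomial σ ℂ) :
    HasVal (MvPolynomial.aeval m Q) z (MvPolynomial.aeval v Q) := by
  induction Q using MvPolynomial.induction_on with
  | C c =>
    rw [MvPolynomial.aeval_C, MvPolynomial.aeval_C]
    exact hasVal_const c z
  | add p q hp hq =>
    rw [map_add, map_add]
    exact hp.add hq
  | mul_X p i hp =>
    rw [map_mul, map_mul, MvPolynomial.aeval_X, MvPolynomial.aeval_X]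
    exact hp.mul (h i)

theorem hasVal_aeval_poly {m : Mer} {z v : ℂ} (h : HasVal m z v) (Q : Polynomial ℂ) :
    HasVal (Polynomial.aeval m Q) z (Polynomial.aeval v Q) := by
  induction Q using Polynomial.induction_on' with
  | add p q hp hq =>
    rw [map_add, map_add]
    exact hp.add hq
  | monomial n c =>
    rw [Polynomial.aeval_monomial, Polynomial.aeval_monomial]
    exact (hasVal_const c z).mul (h.pow n)

theorem hasVal_sh (a : ℂ) (m : Mer) (z v : ℂ) : HasVal (sh a m) z v ↔ HasVal m (z + a) v := by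
  refine (MF1_aff 1 a (mul_one 1) m z v).trans ?_
  rw [one_mul]

theorem hasVal_rf (m : Mer) (z v : ℂ) : HasVal (rf m) z v ↔ HasVal m (-z) v := by
  refine (MF1_aff (-1) 0 (by ring) m z v).trans ?_
  rw [neg_one_mul, add_zero]

theorem eventually_hasVal (m : Mer) (z : ℂ) : ∀ᶠ w in 𝓝[≠] z, ∃ v, HasVal m w v := by
  obtain ⟨f, g, hg, rfl⟩ := MF1_div m
  exact (MF1_ev hg z).mono fun w hw => ⟨_, hasVal_div f g w hw⟩

theorem eq_zero_of_frequently (m : Mer) (z : ℂ) (h : ∃ᶠ w in 𝓝[≠] z, HasVal m w 0) :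
    m = 0 := by
  obtain ⟨f, g, hg, rfl⟩ := MF1_div m
  by_cases hf : f = 0
  · rw [hf, map_zero, zero_div]
  obtain ⟨w, h1, h2, h3⟩ := (h.and_eventually ((MF1_ev hg z).and (MF1_ev hf z))).exists
  exact absurd ((hasVal_div f g w h2).unique h1) (div_ne_zero h3 h2)

theorem eq_of_frequently (m m' : Mer) (z : ℂ)
    (h : ∃ᶠ w in 𝓝[≠] z, ∃ v, HasVal m w v ∧ HasVal m' w v) : m = m' := by
  refine sub_eq_zero.1 (eq_zero_of_frequently _ z (h.mono ?_))
  rintro w ⟨v, h1, h2⟩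
  simpa only [sub_self] using h1.sub h2

end Pool.Agent.E21
end

-- merged part: Pool.Agent.Work.MP_e21d36_nt.MT
section
/-!
# The coordinates as meromorphic functions

Plan.  Values by `hasVal_div` and `sq_mul_xf`, `cube_mul_yf`.  Identities in `Mer` by
`eq_of_frequently` at any point, using `eventually_ne` and the periodicity and parity lemmas of
TB1 (`hasVal_sh`, `hasVal_rf`).  `xM_transcendental`: a nonzero polynomial has finitely many
roots but `xf` takes infinitely many values (`xf_infinite`, `hasVal_aeval_poly`,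
`HasVal.unique`).  `hasVal_rho`: `eval (algebraMap s) (rho Q) = aeval ![xM, yM, zM - s] Q`
(compare the two algebra maps on variables) and `hasVal_aeval`.
`poly_ext`: a polynomial over the field `Mer` with infinitely many roots is zero.
-/

namespace Pool.Agent.E21

open Filter Topology

namespace Theta

variable (Θ : Theta)

noncomputable def θE : Ent := ⟨Θ.θ, Θ.diff⟩
noncomputable def xM : Mer :=
  algebraMap Ent Mer ⟨nA Θ.θ, Θ.differentiable_nA⟩ / algebraMap Ent Mer (Θ.θE ^ 2)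
noncomputable def yM : Mer :=
  algebraMap Ent Mer ⟨nB Θ.θ, Θ.differentiable_nB⟩ / algebraMap Ent Mer (Θ.θE ^ 3)
noncomputable def zM : Mer :=
  algebraMap Ent Mer ⟨deriv Θ.θ, Θ.differentiable_deriv⟩ / algebraMap Ent Mer Θ.θE

/-- A polynomial in `X, Y, Z` as a polynomial in `s` with meromorphic coefficients. -/
noncomputable def rho : P1 →ₐ[ℂ] Polynomial Mer :=
  MvPolynomial.aeval ![Polynomial.C Θ.xM, Polynomial.C Θ.yM, Polynomial.C Θ.zM - Polynomial.X]

theorem MT_eq {m m' : Mer} (h : ∀ w, Θ.θ w ≠ 0 → ∃ v, HasVal m w v ∧ HasVal m' w v) : m = m' :=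
  eq_of_frequently m m' 0 ((Θ.eventually_ne 0).mono h).frequently

theorem MT_neg {z : ℂ} (h : Θ.θ z ≠ 0) : Θ.θ (-z) ≠ 0 := by
  rw [Θ.odd]
  exact neg_ne_zero.2 h

theorem hasVal_xM {z : ℂ} (h : Θ.θ z ≠ 0) : HasVal Θ.xM z (xf Θ.θ z) := by
  have h2 : xf Θ.θ z = nA Θ.θ z / Θ.θ z ^ 2 := by
    rw [← Θ.sq_mul_xf h, mul_div_cancel_left₀ _ (pow_ne_zero 2 h)]
  rw [h2]
  exact hasVal_div ⟨nA Θ.θ, Θ.differentiable_nA⟩ (Θ.θE ^ 2) z (pow_ne_zero 2 h)

theorem hasVal_yM {z : ℂ} (h : Θ.θ z ≠ 0) : HasVal Θ.yM z (yf Θ.θ z) := by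
  have h2 : yf Θ.θ z = nB Θ.θ z / Θ.θ z ^ 3 := by
    rw [← Θ.cube_mul_yf h, mul_div_cancel_left₀ _ (pow_ne_zero 3 h)]
  rw [h2]
  exact hasVal_div ⟨nB Θ.θ, Θ.differentiable_nB⟩ (Θ.θE ^ 3) z (pow_ne_zero 3 h)

theorem hasVal_zM {z : ℂ} (h : Θ.θ z ≠ 0) : HasVal Θ.zM z (zt Θ.θ z) := by
  exact hasVal_div ⟨deriv Θ.θ, Θ.differentiable_deriv⟩ Θ.θE z h

theorem sh_xM (k l : ℤ) : sh ((k : ℂ) * Θ.ω + (l : ℂ) * Θ.ω') Θ.xM = Θ.xM := by
  refine Θ.MT_eq fun w hw => ⟨_, (hasVal_sh _ _ _ _).2 ?_, Θ.hasVal_xM hw⟩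
  rw [← Θ.xf_lat hw k l]
  exact Θ.hasVal_xM ((Θ.ne_lat_iff w k l).2 hw)

theorem sh_yM (k l : ℤ) : sh ((k : ℂ) * Θ.ω + (l : ℂ) * Θ.ω') Θ.yM = Θ.yM := by
  refine Θ.MT_eq fun w hw => ⟨_, (hasVal_sh _ _ _ _).2 ?_, Θ.hasVal_yM hw⟩
  rw [← Θ.yf_lat hw k l]
  exact Θ.hasVal_yM ((Θ.ne_lat_iff w k l).2 hw)

theorem sh_zM (k l : ℤ) :
    sh ((k : ℂ) * Θ.ω + (l : ℂ) * Θ.ω') Θ.zM = Θ.zM - algebraMap ℂ Mer ((l : ℂ) * Θ.ν) := by
  refine Θ.MT_eq fun w hw =>
    ⟨_, (hasVal_sh _ _ _ _).2 ?_, (Θ.hasVal_zM hw).sub (hasVal_const _ w)⟩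
  rw [← Θ.zt_lat hw k l]
  exact Θ.hasVal_zM ((Θ.ne_lat_iff w k l).2 hw)

theorem rf_xM : rf Θ.xM = Θ.xM := by
  refine Θ.MT_eq fun w hw => ⟨_, (hasVal_rf _ _ _).2 ?_, Θ.hasVal_xM hw⟩
  rw [← Θ.xf_neg w]
  exact Θ.hasVal_xM (Θ.MT_neg hw)

theorem rf_yM : rf Θ.yM = -Θ.yM := by
  refine Θ.MT_eq fun w hw => ⟨_, (hasVal_rf _ _ _).2 ?_, (Θ.hasVal_yM hw).neg⟩
  rw [← Θ.yf_neg w]
  exact Θ.hasVal_yM (Θ.MT_neg hw)

theorem yM_sq : Θ.yM ^ 2 = 4 * Θ.xM ^ 3 + algebraMap ℂ Mer Θ.a2 * Θ.xM ^ 2 +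
    algebraMap ℂ Mer (2 * Θ.a1) * Θ.xM + algebraMap ℂ Mer Θ.a0 := by
  refine Θ.MT_eq fun w hw => ⟨_, (Θ.hasVal_yM hw).pow 2, ?_⟩
  have h4 : HasVal (4 : Mer) w 4 := by
    have := hasVal_const 4 w
    rwa [map_ofNat] at this
  have hx := Θ.hasVal_xM hw
  rw [Θ.ode w hw]
  exact (((h4.mul (hx.pow 3)).add ((hasVal_const _ w).mul (hx.pow 2))).add
    ((hasVal_const _ w).mul hx)).add (hasVal_const _ w)

theorem xM_transcendental : Transcendental ℂ Θ.xM := by
  classical
  rintro ⟨P, hP, h0⟩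
  refine Θ.xf_infinite (P.roots.toFinset.finite_toSet.subset ?_)
  rintro _ ⟨x, hx, rfl⟩
  have h1 := hasVal_aeval_poly (Θ.hasVal_xM hx.1) P
  have h2 := hasVal_const 0 x
  rw [h0] at h1
  rw [map_zero] at h2
  have h3 := h1.unique h2
  rw [Polynomial.coe_aeval_eq_eval] at h3
  exact Finset.mem_coe.2 (Multiset.mem_toFinset.2 ((Polynomial.mem_roots hP).2 h3))

theorem MT_rho (Q : P1) (t : Mer) :
    (Θ.rho Q).eval t = MvPolynomial.aeval ![Θ.xM, Θ.yM, Θ.zM - t] Q := by
  induction Q using MvPolynomial.induction_on with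
  | C c =>
    rw [MvPolynomial.aeval_C, ← MvPolynomial.algebraMap_eq, AlgHom.commutes,
      Polynomial.algebraMap_apply, Polynomial.eval_C]
  | add p q hp hq => rw [map_add, map_add, Polynomial.eval_add, hp, hq]
  | mul_X p i hp =>
    rw [map_mul, map_mul, Polynomial.eval_mul, hp]
    congr 1
    fin_cases i <;> simp [rho]

theorem hasVal_rho (Q : P1) {x : ℂ} (hx : Θ.θ x ≠ 0) (s : ℂ) :
    HasVal ((Θ.rho Q).eval (algebraMap ℂ Mer s)) x (Θ.ev1 (x, s) Q) := by
  rw [Θ.MT_rho]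
  refine hasVal_aeval _ x (Θ.crd (x, s)) (fun i => ?_) Q
  fin_cases i
  · exact Θ.hasVal_xM hx
  · exact Θ.hasVal_yM hx
  · exact (Θ.hasVal_zM hx).sub (hasVal_const s x)

end Theta

/-- Translation by `(a, σ)` on polynomials in `s` with meromorphic coefficients. -/
noncomputable def tw (a σ : ℂ) : Polynomial Mer →+* Polynomial Mer :=
  (Polynomial.compRingHom (Polynomial.X + Polynomial.C (algebraMap ℂ Mer σ))).comp
    (Polynomial.mapRingHom (sh a).toRingHom)

theorem eval_tw (a σ s : ℂ) (g : Polynomial Mer) :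
    (tw a σ g).eval (algebraMap ℂ Mer s) = sh a (g.eval (algebraMap ℂ Mer (s + σ))) := by
  have h1 : algebraMap ℂ Mer s + algebraMap ℂ Mer σ =
      (sh a).toRingHom (algebraMap ℂ Mer (s + σ)) := by
    rw [← map_add]
    exact ((sh a).commutes _).symm
  simp only [tw, RingHom.comp_apply, Polynomial.coe_mapRingHom, Polynomial.coe_compRingHom_apply,
    Polynomial.eval_comp, Polynomial.eval_add, Polynomial.eval_X, Polynomial.eval_C]
  rw [h1, Polynomial.eval_map, Polynomial.eval₂_at_apply]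
  rfl

theorem poly_ext {g g' : Polynomial Mer}
    (h : ∀ s : ℂ, g.eval (algebraMap ℂ Mer s) = g'.eval (algebraMap ℂ Mer s)) : g = g' := by
  refine Polynomial.eq_of_infinite_eval_eq g g'
    ((Set.infinite_range_of_injective (algebraMap ℂ Mer).injective).mono ?_)
  rintro _ ⟨s, rfl⟩
  exact h s

theorem tw_tw (a σ a' σ' : ℂ) (g : Polynomial Mer) :
    tw a σ (tw a' σ' g) = tw (a + a') (σ + σ') g := by
  refine poly_ext fun s => ?_
  rw [eval_tw, eval_tw, eval_tw, sh_sh, add_assoc]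

theorem tw_zero (g : Polynomial Mer) : tw 0 0 g = g := by
  refine poly_ext fun s => ?_
  rw [eval_tw, sh_zero, add_zero]

theorem Theta.tw_lat (Θ : Theta) (k l : ℤ) (Q : P1) :
    tw ((k : ℂ) * Θ.ω + (l : ℂ) * Θ.ω') (-((l : ℂ) * Θ.ν)) (Θ.rho Q) = Θ.rho Q := by
  refine poly_ext fun s => ?_
  rw [eval_tw]
  refine Θ.MT_eq fun w hw => ⟨_, (hasVal_sh _ _ _ _).2 ?_, Θ.hasVal_rho Q hw s⟩
  have h1 := Θ.hasVal_rho Q ((Θ.ne_lat_iff w k l).2 hw) (s - (l : ℂ) * Θ.ν)
  rw [Theta.ev1, Θ.crd_lat hw s k l] at h1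
  rw [← sub_eq_add_neg]
  exact h1

end Pool.Agent.E21
end

-- merged part: Pool.Agent.Work.MP_e21d36_nt.H3a
section
/-!
# A polynomial of degree `N` through the `N ^ 2` points, and its cleared translates

Plan.  `exists_box_vanish`: the linear map from coefficient vectors
`(Fin (N+1) × Fin (N+1) → ℂ)` to values `(Fin N × Fin N → ℂ)` has a nonzero kernel element
(`LinearMap.ker_ne_bot_of_finrank_lt` or `Module.finrank` count); the polynomial is nonzero
because the monomials are different; all integer indices by `exists_fin`.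
`exists_translate`: `Submodule.span_induction`; for the monomial `X^i Z^j` take
`xU^i * (zU - C σ * hU)^j * hU^(3n - 2i - j)` and use `ev1_xU`, `ev1_zU` and the degree lemmas.
`rho_translate`: `poly_ext`, `eval_tw`, then `eq_of_frequently` with `hasVal_rho`,
`hasVal_sh`, `HasVal.mul`, `eventually_ne` (at `0` and at `u`).
`rho_hU`: unfold, `sq_mul_xf`; nonzero because `xM` is transcendental.
`rho_box`: for `Q0 = ∑ c i j X^i Z^j` put `p j = ∑ c i j X^i ∈ ℂ[X]`; then
`rho Q0 = (∑ C (aeval xM (p j)) X^j).comp (C zM - X)`; let `n0` be the largest `j` with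
`p j ≠ 0`; the leading coefficient is `(-1)^n0 aeval xM (p n0)`
(`Polynomial.leadingCoeff_comp`).
`rho_coeff_reg`: induction on `Q`; the polynomials all of whose coefficients are regular at
`z` form a subring (`coeff_mul`), or use `Polynomial.lifts`.
-/

namespace Pool.Agent.E21

open MvPolynomial

namespace Theta

variable (Θ : Theta)

theorem H3a_mono (i j : ℕ) : (X 0 ^ i * X 2 ^ j : P1) =
    monomial (Finsupp.single 0 i + Finsupp.single 2 j) 1 := by
  rw [X_pow_eq_monomial, X_pow_eq_monomial, monomial_mul, mul_one]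

theorem H3a_li (N : ℕ) : LinearIndependent ℂ
    (fun a : Fin (N + 1) × Fin (N + 1) => (X 0 ^ (a.1 : ℕ) * X 2 ^ (a.2 : ℕ) : P1)) := by
  have h := (basisMonomials (Fin 3) ℂ).linearIndependent.comp
    (fun a : Fin (N + 1) × Fin (N + 1) =>
      (Finsupp.single 0 (a.1 : ℕ) + Finsupp.single 2 (a.2 : ℕ) : Fin 3 →₀ ℕ)) (by
      intro a b hab
      have h0 := DFunLike.congr_fun hab 0
      have h2 := DFunLike.congr_fun hab 2
      simp at h0 h2
      exact Prod.ext (Fin.ext h0) (Fin.ext h2))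
  have e : (fun a : Fin (N + 1) × Fin (N + 1) =>
      (X 0 ^ (a.1 : ℕ) * X 2 ^ (a.2 : ℕ) : P1)) = ⇑(basisMonomials (Fin 3) ℂ) ∘
      (fun a : Fin (N + 1) × Fin (N + 1) =>
        (Finsupp.single 0 (a.1 : ℕ) + Finsupp.single 2 (a.2 : ℕ) : Fin 3 →₀ ℕ)) := by
    funext a
    simp only [Function.comp, coe_basisMonomials, H3a_mono]
  rw [e]
  exact h

theorem exists_box_vanish {N : ℕ} (hN : Odd N) :
    ∃ Q0 ∈ boxXZ N, Q0 ≠ 0 ∧ ∀ k l : ℤ, Θ.ev1 (Θ.pt N k l) Q0 = 0 := by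
  classical
  let v : Fin (N + 1) × Fin (N + 1) → P1 := fun a => X 0 ^ (a.1 : ℕ) * X 2 ^ (a.2 : ℕ)
  let mk : (Fin (N + 1) × Fin (N + 1) → ℂ) →ₗ[ℂ] P1 := Fintype.linearCombination ℂ v
  let L : P1 →ₗ[ℂ] (Fin N × Fin N → ℂ) :=
    LinearMap.pi fun κ => (Θ.ev1 (Θ.pt N (κ.1 : ℕ) (κ.2 : ℕ))).toLinearMap
  have hker : LinearMap.ker (L ∘ₗ mk) ≠ ⊥ := by
    apply LinearMap.ker_ne_bot_of_finrank_lt
    simp only [Module.finrank_fintype_fun_eq_card, Fintype.card_prod, Fintype.card_fin]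
    nlinarith
  obtain ⟨c, hc, hc0⟩ := Submodule.exists_mem_ne_zero_of_ne_bot hker
  refine ⟨mk c, ?_, ?_, ?_⟩
  · simp only [mk, Fintype.linearCombination_apply]
    refine Submodule.sum_mem _ fun a _ => Submodule.smul_mem _ _ (Submodule.subset_span ?_)
    exact ⟨a.1, Nat.lt_succ_iff.mp a.1.2, a.2, Nat.lt_succ_iff.mp a.2.2, rfl⟩
  · intro h
    apply hc0
    funext a
    have hli := Fintype.linearIndependent_iff.mp (H3a_li N) c
      (by simpa only [mk, Fintype.linearCombination_apply] using h)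
    exact hli a
  · intro k l
    obtain ⟨κ, hκ⟩ := Θ.exists_fin hN k l
    have h1 := congrFun (LinearMap.mem_ker.mp hc) κ
    unfold ev1
    rw [hκ]
    exact h1

theorem totalDegree_box {n : ℕ} {Q0 : P1} (h : Q0 ∈ boxXZ n) : Q0.totalDegree ≤ 2 * n := by
  have hle : boxXZ n ≤ restrictTotalDegree (Fin 3) ℂ (2 * n) := by
    refine Submodule.span_le.mpr ?_
    rintro Q ⟨i, hi, j, hj, rfl⟩
    rw [SetLike.mem_coe, mem_restrictTotalDegree]
    refine (totalDegree_mul _ _).trans ?_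
    rw [totalDegree_X_pow, totalDegree_X_pow]
    omega
  exact (mem_restrictTotalDegree _ _ _).mp (hle h)

theorem exists_translate {n : ℕ} {Q0 : P1} (h : Q0 ∈ boxXZ n) {u : ℂ} (hu : Θ.θ u ≠ 0) (σ : ℂ) :
    ∃ Q : P1, Q.totalDegree ≤ 5 * n ∧ ∀ x s, Θ.θ x ≠ 0 → Θ.θ (x + u) ≠ 0 →
      Θ.ev1 (x, s) Q = Θ.ev1 (x, s) (Θ.hU u) ^ (3 * n) * Θ.ev1 (x + u, s + σ) Q0 := by
  induction h using Submodule.span_induction with
  | mem Q hQ =>
    obtain ⟨i, hi, j, hj, rfl⟩ := hQ
    obtain ⟨m, hm⟩ : ∃ m, 3 * n = 2 * i + j + m := ⟨3 * n - 2 * i - j, by omega⟩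
    refine ⟨Θ.xU u ^ i * (Θ.zU u - C σ * Θ.hU u) ^ j * Θ.hU u ^ m, ?_, ?_⟩
    · have h1 : (Θ.xU u ^ i).totalDegree ≤ i * 3 :=
        (totalDegree_pow _ _).trans (Nat.mul_le_mul_left _ (Θ.totalDegree_xU u))
      have h2 : (Θ.zU u - C σ * Θ.hU u).totalDegree ≤ 2 := by
        refine (totalDegree_sub _ _).trans (max_le (Θ.totalDegree_zU u) ?_)
        refine (totalDegree_mul _ _).trans ?_
        rw [totalDegree_C]
        have := Θ.totalDegree_hU u
        omega
      have h3 : ((Θ.zU u - C σ * Θ.hU u) ^ j).totalDegree ≤ j * 2 :=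
        (totalDegree_pow _ _).trans (Nat.mul_le_mul_left _ h2)
      have h4 : (Θ.hU u ^ m).totalDegree ≤ m * 1 :=
        (totalDegree_pow _ _).trans (Nat.mul_le_mul_left _ (Θ.totalDegree_hU u))
      have h5 := totalDegree_mul (Θ.xU u ^ i * (Θ.zU u - C σ * Θ.hU u) ^ j) (Θ.hU u ^ m)
      have h6 := totalDegree_mul (Θ.xU u ^ i) ((Θ.zU u - C σ * Θ.hU u) ^ j)
      omega
    · intro x s hx hxu
      simp only [map_mul, map_pow, map_sub, Θ.ev1_xU hx hu hxu, Θ.ev1_zU hx hu hxu, Θ.ev1_C,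
        Θ.ev1_X0, Θ.ev1_X2]
      have e : Θ.ev1 (x, s) (Θ.hU u) * (zt Θ.θ (x + u) - s) - σ * Θ.ev1 (x, s) (Θ.hU u) =
          Θ.ev1 (x, s) (Θ.hU u) * (zt Θ.θ (x + u) - (s + σ)) := by ring
      rw [e, hm, mul_pow, mul_pow]
      ring
  | zero => exact ⟨0, by simp, fun x s _ _ => by simp⟩
  | add a b _ _ ha hb =>
    obtain ⟨Q, hQ, h1⟩ := ha
    obtain ⟨Q', hQ', h2⟩ := hb
    refine ⟨Q + Q', (totalDegree_add _ _).trans (max_le hQ hQ'), fun x s hx hxu => ?_⟩
    rw [map_add, map_add, h1 x s hx hxu, h2 x s hx hxu, mul_add]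
  | smul c a _ ha =>
    obtain ⟨Q, hQ, h1⟩ := ha
    refine ⟨c • Q, (totalDegree_smul_le _ _).trans hQ, fun x s hx hxu => ?_⟩
    rw [map_smul, map_smul, h1 x s hx hxu, smul_eq_mul, smul_eq_mul]
    ring

theorem rho_translate {n : ℕ} {Q Q0 : P1} {u σ : ℂ}
    (h : ∀ x s, Θ.θ x ≠ 0 → Θ.θ (x + u) ≠ 0 →
      Θ.ev1 (x, s) Q = Θ.ev1 (x, s) (Θ.hU u) ^ n * Θ.ev1 (x + u, s + σ) Q0) :
    Θ.rho Q = Θ.rho (Θ.hU u) ^ n * tw u σ (Θ.rho Q0) := by
  refine poly_ext fun s => ?_
  rw [Polynomial.eval_mul, Polynomial.eval_pow, eval_tw]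
  refine eq_of_frequently _ _ 0 (Filter.Eventually.frequently ?_)
  have e1 := Θ.eventually_ne 0
  have e2 := (Liou_shift 0 u).eventually (Θ.eventually_ne (0 + u))
  filter_upwards [e1, e2] with w hw hwu
  refine ⟨_, Θ.hasVal_rho Q hw s, ?_⟩
  rw [h w s hw hwu]
  exact ((Θ.hasVal_rho _ hw s).pow n).mul
    ((hasVal_sh _ _ _ _).mpr (Θ.hasVal_rho Q0 hwu (s + σ)))

theorem H3a_rho_C (c : ℂ) : Θ.rho (C c) = Polynomial.C (algebraMap ℂ Mer c) := by
  unfold rho
  rw [aeval_C, Polynomial.algebraMap_apply]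

theorem H3a_rho_X0 : Θ.rho (X 0) = Polynomial.C Θ.xM := by
  unfold rho
  rw [aeval_X]
  rfl

theorem H3a_rho_X1 : Θ.rho (X 1) = Polynomial.C Θ.yM := by
  unfold rho
  rw [aeval_X]
  rfl

theorem H3a_rho_X2 : Θ.rho (X 2) = Polynomial.C Θ.zM - Polynomial.X := by
  unfold rho
  rw [aeval_X]
  rfl

theorem rho_hU {u : ℂ} (hu : Θ.θ u ≠ 0) :
    ∃ m : Mer, m ≠ 0 ∧ Θ.rho (Θ.hU u) = Polynomial.C m := by
  refine ⟨algebraMap ℂ Mer (nA Θ.θ u) - algebraMap ℂ Mer (Θ.θ u ^ 2) * Θ.xM, ?_, ?_⟩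
  · intro h0
    apply Θ.xM_transcendental
    refine ⟨Polynomial.C (nA Θ.θ u) - Polynomial.C (Θ.θ u ^ 2) * Polynomial.X, ?_, ?_⟩
    · intro h1
      have h2 := congrArg (fun p => Polynomial.coeff p 1) h1
      simp only [Polynomial.coeff_sub, Polynomial.coeff_C_mul, Polynomial.coeff_X_one,
        Polynomial.coeff_zero, Polynomial.coeff_C] at h2
      simp at h2
      exact hu h2
    · rw [map_sub, map_mul, Polynomial.aeval_C, Polynomial.aeval_C, Polynomial.aeval_X]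
      exact h0
  · unfold hU
    rw [map_sub, map_mul, H3a_rho_C, H3a_rho_C, H3a_rho_X0, map_sub, map_mul]

/-- A polynomial in `Z` with coefficients polynomials in `X`. -/
noncomputable def H3a_Phi : Polynomial (Polynomial ℂ) →+* P1 :=
  Polynomial.eval₂RingHom (Polynomial.aeval (X 0 : P1)).toRingHom (X 2)

theorem H3a_Phi_C (p : Polynomial ℂ) :
    H3a_Phi (Polynomial.C p) = Polynomial.aeval (X 0 : P1) p := by
  simp [H3a_Phi]

theorem H3a_Phi_X : H3a_Phi Polynomial.X = X 2 := by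
  simp [H3a_Phi]

theorem H3a_box_rep {n : ℕ} {Q0 : P1} (h : Q0 ∈ boxXZ n) :
    ∃ P : Polynomial (Polynomial ℂ), (∀ j, (P.coeff j).natDegree ≤ n) ∧ Q0 = H3a_Phi P := by
  induction h using Submodule.span_induction with
  | mem Q hQ =>
    obtain ⟨i, hi, j, hj, rfl⟩ := hQ
    refine ⟨Polynomial.C (Polynomial.X ^ i) * Polynomial.X ^ j, fun k => ?_, ?_⟩
    · rw [Polynomial.coeff_C_mul_X_pow]
      split_ifs
      · rw [Polynomial.natDegree_X_pow]; exact hi
      · simp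
    · rw [map_mul, H3a_Phi_C, map_pow, map_pow, H3a_Phi_X, Polynomial.aeval_X]
  | zero => exact ⟨0, by simp, by simp⟩
  | add a b _ _ ha hb =>
    obtain ⟨P, hP, rfl⟩ := ha
    obtain ⟨P', hP', rfl⟩ := hb
    refine ⟨P + P', fun j => ?_, by rw [map_add]⟩
    rw [Polynomial.coeff_add]
    exact (Polynomial.natDegree_add_le _ _).trans (max_le (hP j) (hP' j))
  | smul c a _ ha =>
    obtain ⟨P, hP, rfl⟩ := ha
    refine ⟨Polynomial.C (Polynomial.C c) * P, fun j => ?_, ?_⟩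
    · rw [Polynomial.coeff_C_mul]
      exact (Polynomial.natDegree_C_mul_le _ _).trans (hP j)
    · rw [map_mul, H3a_Phi_C, Polynomial.aeval_C, smul_eq_C_mul, algebraMap_eq]

theorem H3a_rho_Phi (P : Polynomial (Polynomial ℂ)) : Θ.rho (H3a_Phi P) =
    (P.map (Polynomial.aeval Θ.xM).toRingHom).comp (Polynomial.C Θ.zM - Polynomial.X) := by
  have hC : ∀ p : Polynomial ℂ, Θ.rho (Polynomial.aeval (X 0 : P1) p) =
      Polynomial.C (Polynomial.aeval Θ.xM p) := by
    intro p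
    rw [← Polynomial.aeval_algHom_apply, H3a_rho_X0]
    exact Polynomial.aeval_algHom_apply (Polynomial.CAlgHom : Mer →ₐ[ℂ] Polynomial Mer) Θ.xM p
  induction P using Polynomial.induction_on' with
  | add p q hp hq => rw [map_add, map_add, hp, hq, Polynomial.map_add, Polynomial.add_comp]
  | monomial j p =>
    rw [← Polynomial.C_mul_X_pow_eq_monomial, map_mul, map_pow, H3a_Phi_C, H3a_Phi_X, map_mul,
      map_pow, hC, H3a_rho_X2]
    simp

theorem rho_box {n : ℕ} {Q0 : P1} (h : Q0 ∈ boxXZ n) (h0 : Q0 ≠ 0) :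
    ∃ r : Polynomial ℂ, r ≠ 0 ∧ r.natDegree ≤ n ∧
      (Θ.rho Q0).leadingCoeff = Polynomial.aeval Θ.xM r := by
  obtain ⟨P, hP, rfl⟩ := H3a_box_rep h
  have hP0 : P ≠ 0 := by
    rintro rfl
    exact h0 (map_zero _)
  have hinj : Function.Injective (Polynomial.aeval Θ.xM : Polynomial ℂ →ₐ[ℂ] Mer).toRingHom :=
    transcendental_iff_injective.mp Θ.xM_transcendental
  have hq : (Polynomial.C Θ.zM - Polynomial.X : Polynomial Mer) =
      -(Polynomial.X - Polynomial.C Θ.zM) := by ring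
  have hq1 : (Polynomial.C Θ.zM - Polynomial.X : Polynomial Mer).natDegree = 1 := by
    rw [hq, Polynomial.natDegree_neg, Polynomial.natDegree_X_sub_C]
  have hq2 : (Polynomial.C Θ.zM - Polynomial.X : Polynomial Mer).leadingCoeff = -1 := by
    rw [hq, Polynomial.leadingCoeff_neg, Polynomial.leadingCoeff_X_sub_C]
  refine ⟨Polynomial.C ((-1) ^ P.natDegree) * P.leadingCoeff, ?_, ?_, ?_⟩
  · refine mul_ne_zero ?_ (Polynomial.leadingCoeff_ne_zero.mpr hP0)
    rw [Ne, Polynomial.C_eq_zero]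
    exact pow_ne_zero _ (by norm_num)
  · exact (Polynomial.natDegree_C_mul_le _ _).trans (hP _)
  · rw [H3a_rho_Phi, Polynomial.leadingCoeff_comp (by rw [hq1]; exact one_ne_zero), hq2,
      Polynomial.leadingCoeff_map_of_injective hinj,
      Polynomial.natDegree_map_eq_of_injective hinj, map_mul, Polynomial.aeval_C, mul_comm]
    simp

/-- The meromorphic functions that are regular at `z`. -/
def H3a_reg (z : ℂ) : Subring Mer where
  carrier := {m | ∃ v, HasVal m z v}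
  mul_mem' := fun ⟨_, h⟩ ⟨_, h'⟩ => ⟨_, h.mul h'⟩
  add_mem' := fun ⟨_, h⟩ ⟨_, h'⟩ => ⟨_, h.add h'⟩
  neg_mem' := fun ⟨_, h⟩ => ⟨_, h.neg⟩
  one_mem' := ⟨1, by simpa using hasVal_const 1 z⟩
  zero_mem' := ⟨0, by simpa using hasVal_const 0 z⟩

theorem rho_coeff_reg (Q : P1) {z : ℂ} (hz : Θ.θ z ≠ 0) (i : ℕ) :
    ∃ v, HasVal ((Θ.rho Q).coeff i) z v := by
  have hC : ∀ m ∈ H3a_reg z, ∀ i, (Polynomial.C m).coeff i ∈ H3a_reg z := by
    intro m hm i
    rw [Polynomial.coeff_C]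
    split_ifs
    · exact hm
    · exact zero_mem _
  have hX : ∀ k : Fin 3, ∀ i, (Θ.rho (X k)).coeff i ∈ H3a_reg z := by
    intro k i
    fin_cases k
    · exact Θ.H3a_rho_X0 ▸ hC _ ⟨_, Θ.hasVal_xM hz⟩ i
    · exact Θ.H3a_rho_X1 ▸ hC _ ⟨_, Θ.hasVal_yM hz⟩ i
    · have h2 : (Θ.rho (X 2)).coeff i ∈ H3a_reg z := by
        rw [Θ.H3a_rho_X2, Polynomial.coeff_sub]
        refine sub_mem (hC _ ⟨_, Θ.hasVal_zM hz⟩ i) ?_
        rw [Polynomial.coeff_X]
        split_ifs
        · exact one_mem _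
        · exact zero_mem _
      exact h2
  have key : ∀ i, (Θ.rho Q).coeff i ∈ H3a_reg z := by
    induction Q using MvPolynomial.induction_on with
    | C c =>
      intro i
      rw [H3a_rho_C]
      exact hC _ ⟨_, hasVal_const c z⟩ i
    | add p q hp hq =>
      intro i
      rw [map_add, Polynomial.coeff_add]
      exact add_mem (hp i) (hq i)
    | mul_X p k hp =>
      intro i
      rw [map_mul, Polynomial.coeff_mul]
      exact sum_mem fun x _ => mul_mem (hp _) (hX k _)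
  exact key i

end Theta

end Pool.Agent.E21
end
end

-- merged part: Pool.Agent.Work.MP_e21d36_nt.H4b
section
-- merged part: Pool.Agent.Work.MP_e21d36_nt.MF2
section
/-!
# Poles of meromorphic functions

Plan.  `reg_or_inv`: write `m = f / g`, `f = (x - z)^a f1`, `g = (x - z)^b g1` with `f1`, `g1`
ENTIRE and nonzero at `z` (iterate `dslope`; induction on the order, or
`AnalyticAt.exists_eq_sum_add_pow_mul` plus differentiability away from `z`), compare `a`, `b`.
`locR`: subring by the lemmas of MF1.  `mem_locR_of_isIntegral`: if `m⁻¹` has value `0` at `z`,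
multiply the monic equation by `m⁻¹ ^ n`: `1 + ∑ a_i (m⁻¹)^(n-i) = 0` has value `1` at `z`.
`entire_of_reg`: `m = f / g`; the function `f / g` has `NoPole` everywhere (near `z` it equals
`f1 / h1` for the representation regular at `z`), `ext_entire` gives `ĝ`, `eq_of_frequently`.
`quasi_zero`: `entire_of_reg`, values, `liou_entire_add`.
`const_of_quasi`: the set of non regular points is invariant under the group generated by
`a, b, b'`, which has nonzero elements of arbitrarily small norm (`small_elements`: otherwise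
the `ℤ`-span is discrete, spans `ℂ` over `ℝ`, so is a lattice of rank 2 (`ZLattice.rank`) with
three independent elements; or pigeonhole on fractional parts); `eventually_hasVal` forbids a
non regular point; then `liou_entire_add` with `a, b`.
-/

namespace Pool.Agent.E21

open Filter Topology

theorem MF2_an (f : Ent) (z : ℂ) : AnalyticAt ℂ f.1 z :=
  (f.2 : Differentiable ℂ f.1).analyticAt z

theorem MF2_not {f : Ent} (hf : f ≠ 0) (z : ℂ) : ¬∀ᶠ x in 𝓝 z, f.1 x = 0 := fun h =>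
  hf (Subtype.ext (funext fun x =>
    AnalyticOnNhd.eqOn_zero_of_preconnected_of_eventuallyEq_zero (U := Set.univ)
      (fun w _ => MF2_an f w) isPreconnected_univ (Set.mem_univ z) h (Set.mem_univ x)))

theorem MF2_ne {f : Ent} (hf : f ≠ 0) (z : ℂ) : ∀ᶠ x in 𝓝[≠] z, f.1 x ≠ 0 :=
  (MF2_an f z).eventually_eq_zero_or_eventually_ne_zero.resolve_left (MF2_not hf z)

/-- The function `x - z`. -/
def MF2_L (z : ℂ) : Ent := ⟨fun x => x - z, (by fun_prop : Differentiable ℂ fun x : ℂ => x - z)⟩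

theorem MF2_L_ne (z : ℂ) : MF2_L z ≠ 0 := fun h => by
  have : z + 1 - z = 0 := congrFun (congrArg Subtype.val h) (z + 1)
  simp at this

theorem MF2_factor {f : Ent} (hf : f ≠ 0) (z : ℂ) :
    ∃ (n : ℕ) (f1 : Ent), f1.1 z ≠ 0 ∧ f = MF2_L z ^ n * f1 := by
  classical
  obtain ⟨n, g, hg, hz, he⟩ := (MF2_an f z).exists_eventuallyEq_pow_smul_nonzero_iff.2
    (MF2_not hf z)
  refine ⟨n, ⟨Function.update (fun x => f.1 x / (x - z) ^ n) z (g z), fun x => ?_⟩,
    by simpa using hz, Subtype.ext (funext fun x => ?_)⟩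
  · by_cases hx : x = z
    · subst hx
      refine hg.differentiableAt.congr_of_eventuallyEq (he.mono fun w hw => ?_)
      by_cases hw' : w = x
      · subst hw'
        simp
      · rw [Function.update_of_ne hw', hw, smul_eq_mul,
          mul_div_cancel_left₀ _ (pow_ne_zero _ (sub_ne_zero.2 hw'))]
    · refine DifferentiableAt.congr_of_eventuallyEq (f := fun x => f.1 x / (x - z) ^ n)
        (((f.2 : Differentiable ℂ f.1) x).div (by fun_prop) (pow_ne_zero _ (sub_ne_zero.2 hx)))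
        ((eventually_ne_nhds hx).mono fun w hw => Function.update_of_ne hw _ _)
  · change f.1 x = (x - z) ^ n * Function.update (fun x => f.1 x / (x - z) ^ n) z (g z) x
    by_cases hx : x = z
    · subst hx
      rw [Function.update_self]
      exact he.self_of_nhds
    · rw [Function.update_of_ne hx, mul_div_cancel₀ _ (pow_ne_zero _ (sub_ne_zero.2 hx))]

theorem MF2_map_ne {f : Ent} (hf : f ≠ 0) : algebraMap Ent Mer f ≠ 0 :=
  (map_ne_zero_iff _ (IsFractionRing.injective Ent Mer)).2 hf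

theorem MF2_cancel (z : ℂ) (f g : Ent) (a k : ℕ) :
    algebraMap Ent Mer (MF2_L z ^ (a + k) * f) / algebraMap Ent Mer (MF2_L z ^ a * g) =
      algebraMap Ent Mer (MF2_L z ^ k * f) / algebraMap Ent Mer g := by
  rw [pow_add, mul_assoc, map_mul, map_mul _ _ g,
    mul_div_mul_left _ _ (MF2_map_ne (pow_ne_zero _ (MF2_L_ne z)))]

theorem reg_or_inv (m : Mer) (z : ℂ) : (∃ v, HasVal m z v) ∨ (m ≠ 0 ∧ HasVal m⁻¹ z 0) := by
  by_cases hm : m = 0
  · exact Or.inl ⟨0, by simpa [hm] using hasVal_const 0 z⟩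
  obtain ⟨f, g, hg, rfl⟩ := IsFractionRing.div_surjective (A := Ent) m
  have hf : f ≠ 0 := fun e => hm (by rw [e, map_zero, zero_div])
  obtain ⟨a, f1, h1, rfl⟩ := MF2_factor hf z
  obtain ⟨b, g1, h2, rfl⟩ := MF2_factor (nonZeroDivisors.ne_zero hg) z
  rcases le_or_gt b a with h | h
  · obtain ⟨k, rfl⟩ := Nat.exists_eq_add_of_le h
    exact Or.inl ⟨_, by rw [MF2_cancel]; exact hasVal_div _ _ z h2⟩
  · obtain ⟨k, rfl⟩ := Nat.exists_eq_add_of_lt h
    refine Or.inr ⟨hm, ?_⟩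
    rw [inv_div, add_assoc, MF2_cancel]
    have := hasVal_div (MF2_L z ^ (k + 1) * g1) f1 z h1
    have e : (MF2_L z ^ (k + 1) * g1).1 z = 0 := by
      change (z - z) ^ (k + 1) * g1.1 z = 0
      simp
    rwa [e, zero_div] at this

/-- The ring of meromorphic functions regular at `z`. -/
def locR (z : ℂ) : Subring Mer where
  carrier := {m | ∃ v, HasVal m z v}
  mul_mem' := fun ⟨v, h⟩ ⟨v', h'⟩ => ⟨v * v', h.mul h'⟩
  one_mem' := ⟨1, by simpa using hasVal_const 1 z⟩
  add_mem' := fun ⟨v, h⟩ ⟨v', h'⟩ => ⟨v + v', h.add h'⟩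
  zero_mem' := ⟨0, by simpa using hasVal_const 0 z⟩
  neg_mem' := fun ⟨v, h⟩ => ⟨-v, h.neg⟩

theorem mem_locR (z : ℂ) (m : Mer) : m ∈ locR z ↔ ∃ v, HasVal m z v := Iff.rfl

theorem mem_locR_of_isIntegral (z : ℂ) (m : Mer) (h : IsIntegral (locR z) m) : m ∈ locR z := by
  let V : ValuationSubring Mer := ValuationSubring.ofSubring (locR z) fun x =>
    (reg_or_inv x z).imp id fun e => ⟨0, e.2⟩
  obtain ⟨y, hy⟩ := (isIntegrallyClosed_iff (R := V) Mer).1 inferInstance (x := m) h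
  exact hy ▸ y.2

theorem entire_of_reg (m : Mer) (h : ∀ z, ∃ v, HasVal m z v) :
    ∃ f : Ent, m = algebraMap Ent Mer f := by
  obtain ⟨f, g, hg, rfl⟩ := IsFractionRing.div_surjective (A := Ent) m
  have hg0 : g ≠ 0 := nonZeroDivisors.ne_zero hg
  obtain ⟨G, hG, he, -⟩ := ext_entire (fun x => f.1 x / g.1 x) fun z => by
    obtain ⟨v, g1, h1, hz, e, -⟩ := h z
    rw [div_mul_eq_mul_div, div_eq_iff (MF2_map_ne hg0), ← map_mul, ← map_mul] at e
    have e' := IsFractionRing.injective Ent Mer e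
    refine ⟨fun x => g1.1 x / h1.1 x, (MF2_an g1 z).div (MF2_an h1 z) hz, ?_⟩
    filter_upwards [MF2_ne hg0 z,
      ((MF2_an h1 z).continuousAt.eventually_ne hz).filter_mono nhdsWithin_le_nhds] with x k1 k2
    rw [div_eq_div_iff k1 k2]
    exact congrFun (congrArg Subtype.val e') x
  refine ⟨⟨G, hG⟩, eq_of_frequently _ _ 0 (Eventually.frequently ?_)⟩
  filter_upwards [MF2_ne hg0 0, he 0] with x k1 k2
  exact ⟨_, hasVal_div f g x k1, k2 ▸ hasVal_ent ⟨G, hG⟩ x⟩

theorem quasi_zero {a b c : ℂ} (hab : (b / a).im ≠ 0) (m : Mer) (h : ∀ z, ∃ v, HasVal m z v)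
    (ha : sh a m = m) (hb : sh b m = m + algebraMap ℂ Mer c) :
    c = 0 ∧ ∃ c0 : ℂ, m = algebraMap ℂ Mer c0 := by
  obtain ⟨f, rfl⟩ := entire_of_reg m h
  obtain ⟨h1, c0, h2⟩ := liou_entire_add hab (c := c) (f.2 : Differentiable ℂ f.1)
    (fun z => (ha ▸ (hasVal_sh a _ z _).2 (hasVal_ent f (z + a))).unique (hasVal_ent f z))
    fun z => (hb ▸ (hasVal_sh b _ z _).2 (hasVal_ent f (z + b))).unique
      ((hasVal_ent f z).add (hasVal_const c z))
  refine ⟨h1, c0, ?_⟩
  rw [IsScalarTower.algebraMap_apply ℂ Ent Mer]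
  exact congrArg _ (Subtype.ext (funext h2))

theorem small_elements {a b b' : ℂ} (hab : (b / a).im ≠ 0)
    (hind : ∀ i j k : ℤ, (i : ℂ) * a + (j : ℂ) * b + (k : ℂ) * b' = 0 → i = 0 ∧ j = 0 ∧ k = 0)
    (ε : ℝ) (hε : 0 < ε) : ∃ i j k : ℤ, (i : ℂ) * a + (j : ℂ) * b + (k : ℂ) * b' ≠ 0 ∧
      ‖(i : ℂ) * a + (j : ℂ) * b + (k : ℂ) * b'‖ < ε := by
  have ha : a ≠ 0 := fun e => hab (by simp [e])
  obtain ⟨x, y, hxy⟩ : ∃ x y : ℝ, b' = x * a + y * b := by
    refine ⟨(b' / a).re - (b' / a).im / (b / a).im * (b / a).re, (b' / a).im / (b / a).im, ?_⟩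
    have : b' / a = (((b' / a).re - (b' / a).im / (b / a).im * (b / a).re : ℝ) : ℂ) +
        (((b' / a).im / (b / a).im : ℝ) : ℂ) * (b / a) := by
      generalize b' / a = s
      generalize b / a = t at hab
      apply Complex.ext
      · simp only [Complex.add_re, Complex.ofReal_re, Complex.re_ofReal_mul]
        ring
      · simp only [Complex.add_im, Complex.ofReal_im, Complex.im_ofReal_mul]
        field_simp
        ring
    rw [← div_mul_cancel₀ b' ha]
    conv_lhs => rw [this]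
    rw [add_mul, mul_assoc, div_mul_cancel₀ b ha, div_mul_cancel₀ b' ha]
  let F : ℕ → ℂ := fun n => (Int.fract (n * x) : ℝ) * a + (Int.fract (n * y) : ℝ) * b
  have hF : ∀ n, F n ∈ Metric.closedBall (0 : ℂ) (‖a‖ + ‖b‖) := fun n => by
    have k : ∀ (t : ℝ) (c : ℂ), ‖(Int.fract t : ℝ) * c‖ ≤ ‖c‖ := fun t c => by
      rw [norm_mul, Complex.norm_real, Real.norm_of_nonneg (Int.fract_nonneg t)]
      exact mul_le_of_le_one_left (norm_nonneg c) (Int.fract_lt_one t).le
    rw [mem_closedBall_zero_iff]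
    exact (norm_add_le _ _).trans (add_le_add (k _ _) (k _ _))
  obtain ⟨p, -, φ, hφ, hl⟩ := (isCompact_closedBall (0 : ℂ) (‖a‖ + ‖b‖)).tendsto_subseq hF
  have h1 := ((hl.comp (tendsto_add_atTop_nat 1)).sub hl).norm
  rw [sub_self, norm_zero] at h1
  obtain ⟨n, hn⟩ := (h1.eventually (gt_mem_nhds hε)).exists
  have e : ((⌊φ n * x⌋ - ⌊φ (n + 1) * x⌋ : ℤ) : ℂ) * a +
      ((⌊φ n * y⌋ - ⌊φ (n + 1) * y⌋ : ℤ) : ℂ) * b + (((φ (n + 1) : ℤ) - φ n : ℤ) : ℂ) * b' =
      F (φ (n + 1)) - F (φ n) := by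
    simp only [F, Int.fract, hxy]
    push_cast
    ring
  refine ⟨_, _, _, fun h0 => ?_, e ▸ hn⟩
  have := (hind _ _ _ h0).2.2
  have := hφ (Nat.lt_succ_self n)
  simp only [Nat.succ_eq_add_one] at this
  omega

theorem const_of_quasi {a b b' : ℂ} (hab : (b / a).im ≠ 0)
    (hind : ∀ i j k : ℤ, (i : ℂ) * a + (j : ℂ) * b + (k : ℂ) * b' = 0 → i = 0 ∧ j = 0 ∧ k = 0)
    (m : Mer) (c1 c2 : ℂ) (h0 : sh a m = m) (h1 : sh b m = m + algebraMap ℂ Mer c1)
    (h2 : sh b' m = m + algebraMap ℂ Mer c2) : ∃ c : ℂ, m = algebraMap ℂ Mer c := by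
  have key : ∀ d c : ℂ, sh d m = m + algebraMap ℂ Mer c →
      Function.Periodic (fun w => ∃ v, HasVal m w v) d := fun d c e w => by
    simp only [← hasVal_sh, e]
    exact propext ⟨fun ⟨v, h⟩ => ⟨_, by simpa using h.sub (hasVal_const c w)⟩,
      fun ⟨v, h⟩ => ⟨_, h.add (hasVal_const c w)⟩⟩
  refine (quasi_zero hab m (fun z => ?_) h0 h1).2
  obtain ⟨ε, hε, hb⟩ := Metric.eventually_nhds_iff.1
    (eventually_nhdsWithin_iff.1 (eventually_hasVal m z))
  obtain ⟨i, j, k, e1, e2⟩ := small_elements hab hind ε hε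
  have p := (((key a 0 (by simpa using h0)).int_mul i).add_period
    ((key b c1 h1).int_mul j)).add_period ((key b' c2 h2).int_mul k)
  exact (p z).mp (hb (by simpa [dist_eq_norm] using e2) (by simpa using e1))

end Pool.Agent.E21
end

-- merged part: Pool.Agent.Work.MP_e21d36_nt.AI1
section
/-!
# Difference algebra I: invariant minimal polynomials

Plan of `ai_o1`.  `p = minpoly k y`, monic of degree `n ≥ 1`; work with `p' = p.map` into
`L[X]`.  For `γ ∈ Γ` the polynomial `q = (p'.map γ).comp (X + C (γ y - y))` is monic of degree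
`n`, has coefficients in `k` and vanishes at `y`, so `q = p'` (lift `q - p'` to `k[X]`:
`Polynomial.lifts`, `minpoly.degree_le_of_ne_zero`; or build `q` over `k` from the restriction
of `γ` to `k`, `minpoly.unique`).  Compare `nextCoeff` (`Polynomial.taylor`,
`Monic.nextCoeff_mul`, or `coeff (n-1)` of `comp (X + C a)`): `γ c + n (γ y - y) = c`, so
`c + n y` is fixed by `Γ`, lies in `k`, and `y ∈ k` in characteristic zero.
`ai_o2`: the ideal of `q ∈ k[U]` with `q(z) b ∈ k[z]` is nonzero; let `q` be its monic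
generator.  The twist `q ↦ (q.map α|k).comp (U + C (α z - z))` preserves the ideal, so fixes
`q`; if `deg q = n ≥ 1`, `n z + nextCoeff q` is fixed by `α`, against `hno`.  So `b = p(z)`,
and the twist of `p` is `p + C (α b - b)` (`z` is transcendental).  The leading coefficient of
`p` is a constant if `deg p ≥ 1` (`hfix`); if `deg p = n ≥ 2` the coefficient of degree `n-1`
gives a fixed element `(n ℓ) z + c`, against `hno`.
-/

namespace Pool.Agent.E21

variable {L : Type} [Field L] [Algebra ℂ L]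

open Polynomial in
theorem AI1_coeff {R : Type} [CommRing R] (p : R[X]) (a : R) (m : ℕ) (h : p.natDegree ≤ m + 1) :
    (taylor a p).coeff m = p.coeff m + (m + 1) * a * p.coeff (m + 1) := by
  have h1 : (hasseDeriv m p).natDegree < 2 := by
    have := natDegree_hasseDeriv_le p m
    omega
  rw [taylor_coeff, eval_eq_sum_range' h1]
  simp only [Finset.sum_range_succ, Finset.sum_range_zero, hasseDeriv_coeff, zero_add,
    Nat.choose_self, add_comm 1 m, Nat.choose_succ_self_right]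
  push_cast
  ring

open Polynomial in
/-- the twist of polynomials over `k` that describes the action of `α` on `k[z]` -/
theorem AI1_twist (k : IntermediateField ℂ L) (α : L →ₐ[ℂ] L) (hk : ∀ a ∈ k, α a ∈ k) (z : L)
    (hz : α z - z ∈ k) : ∃ T : k[X] → k[X], (∀ p, aeval z (T p) = α (aeval z p)) ∧
      (∀ p, p.Monic → (T p).Monic ∧ (T p).natDegree = p.natDegree) ∧
      ∀ (p : k[X]) (m : ℕ), p.natDegree ≤ m + 1 → ((T p).coeff m : L) =
        α (p.coeff m) + (m + 1) * (α z - z) * α (p.coeff (m + 1)) := by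
  let σ : k →+* k := ((α : L →+* L).comp (algebraMap k L)).codRestrict k fun a => hk a a.2
  refine ⟨fun p => taylor ⟨_, hz⟩ (p.map σ), fun p => ?_, fun p hp => ⟨?_, ?_⟩, fun p m hm => ?_⟩
  · have h1 : aeval z (X + C (⟨_, hz⟩ : k)) = α z := by
      rw [map_add, aeval_X, aeval_C]
      exact add_sub_cancel _ _
    dsimp only
    rw [taylor_apply, aeval_comp, h1]
    exact (map_aeval_eq_aeval_map (φ := σ) (ψ := (α : L →+* L)) rfl p z).symm
  · rw [Monic, leadingCoeff_taylor]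
    exact hp.map σ
  · rw [natDegree_taylor, hp.natDegree_map]
  · rw [AI1_coeff _ _ _ (natDegree_map_le.trans hm), coeff_map, coeff_map]
    push_cast
    rfl

theorem ai_o1 (k : IntermediateField ℂ L) (Γ : Set (L →ₐ[ℂ] L))
    (hk : ∀ γ ∈ Γ, ∀ a ∈ k, γ a ∈ k) (hfix : ∀ y, (∀ γ ∈ Γ, γ y = y) → y ∈ k) (y : L)
    (hy : ∀ γ ∈ Γ, γ y - y ∈ k) (halg : IsAlgebraic k y) : y ∈ k := by
  have : CharZero L := charZero_of_injective_algebraMap (algebraMap ℂ L).injective
  have hi := halg.isIntegral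
  have hm := minpoly.monic hi
  obtain ⟨m, h1⟩ : ∃ m, (minpoly k y).natDegree = m + 1 :=
    Nat.exists_eq_succ_of_ne_zero (minpoly.natDegree_pos hi).ne'
  have h2 : (minpoly k y).coeff (m + 1) = 1 := h1 ▸ hm.coeff_natDegree
  have h3 : ((minpoly k y).coeff m : L) + (m + 1) * y ∈ k := by
    refine hfix _ fun γ hγ => ?_
    obtain ⟨T, t1, t2, t3⟩ := AI1_twist k γ (hk γ hγ) y (hy γ hγ)
    have e := Polynomial.eq_of_monic_of_dvd_of_natDegree_le hm (t2 _ hm).1
      (minpoly.dvd k y (by rw [t1, minpoly.aeval, map_zero])) (t2 _ hm).2.le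
    have k1 := t3 _ m h1.le
    rw [e, h2] at k1
    simp only [OneMemClass.coe_one, map_add, map_mul, map_natCast, map_one] at k1 ⊢
    linear_combination -k1
  have h4 : ((m : L) + 1) ≠ 0 := Nat.cast_add_one_ne_zero m
  have h5 := k.mul_mem (k.inv_mem (k.add_mem (natCast_mem k m) k.one_mem))
    (k.sub_mem h3 ((minpoly k y).coeff m).2)
  rwa [add_sub_cancel_left, inv_mul_cancel_left₀ h4] at h5

open Polynomial in
theorem ai_o2 (k : IntermediateField ℂ L) (α : L →ₐ[ℂ] L) (hk : ∀ a ∈ k, α a ∈ k) (z : L)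
    (hz : Transcendental k z) (hαz : α z - z ∈ k)
    (hfix : ∀ a ∈ k, α a = a → ∃ c : ℂ, a = algebraMap ℂ L c)
    (hno : ∀ (γ : ℂ), ∀ c ∈ k, α (algebraMap ℂ L γ * z + c) = algebraMap ℂ L γ * z + c → γ = 0)
    (b : L) (hb : b ∈ IntermediateField.adjoin k ({z} : Set L)) (hαb : α b - b ∈ k) :
    ∃ γ : ℂ, ∃ c ∈ k, b = algebraMap ℂ L γ * z + c := by
  obtain ⟨T, t1, t2, t3⟩ := AI1_twist k α hk z hαz
  let I : Ideal k[X] :=
    { carrier := {q | ∃ p : k[X], aeval z q * b = aeval z p}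
      add_mem' := by
        rintro q q' ⟨p, hp⟩ ⟨p', hp'⟩
        exact ⟨p + p', by rw [map_add, map_add, add_mul, hp, hp']⟩
      zero_mem' := ⟨0, by simp⟩
      smul_mem' := by
        rintro c q ⟨p, hp⟩
        exact ⟨c * p, by rw [smul_eq_mul, map_mul, map_mul, mul_assoc, hp]⟩ }
  have hI : ∃ s ∈ I, s ≠ 0 := by
    obtain ⟨r, s, h⟩ := (IntermediateField.mem_adjoin_simple_iff k b).1 hb
    by_cases h1 : aeval z s = 0
    · exact ⟨1, ⟨0, by simp [h, h1]⟩, one_ne_zero⟩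
    · exact ⟨s, ⟨r, by rw [h, mul_div_cancel₀ _ h1]⟩, fun k => h1 (by rw [k, map_zero])⟩
  obtain ⟨q, hq, hm, hd⟩ : ∃ q ∈ I, q.Monic ∧ ∀ s ∈ I, q ∣ s := by
    obtain ⟨s, h1, h2⟩ := hI
    obtain ⟨g, hg⟩ := (IsPrincipalIdealRing.principal I).principal
    have h3 : ∀ s, s ∈ I ↔ g ∣ s := fun s => by
      rw [hg, Ideal.submodule_span_eq, Ideal.mem_span_singleton]
    have h4 : g ≠ 0 := fun k => h2 (zero_dvd_iff.1 (k ▸ (h3 s).1 h1))
    classical
    exact ⟨normalize g, (h3 _).2 (dvd_normalize_iff.2 dvd_rfl), monic_normalize h4,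
      fun s hs => normalize_dvd_iff.2 ((h3 s).1 hs)⟩
  obtain ⟨p, hp⟩ := hq
  have hd' : ∀ d : k, aeval z (C d) = (d : L) := fun d => aeval_C z d
  have e : T q = q := eq_of_monic_of_dvd_of_natDegree_le hm (t2 _ hm).1
    (hd _ ⟨T p - T q * C ⟨_, hαb⟩, by
      rw [map_sub, map_mul, hd', t1, t1, ← hp, map_mul]
      ring⟩) (t2 _ hm).2.le
  have h0 : q = 1 := by
    refine hm.natDegree_eq_zero.1 ?_
    by_contra h
    obtain ⟨m, h1⟩ := Nat.exists_eq_succ_of_ne_zero h
    have h2 : q.coeff (m + 1) = 1 := by rw [← hm.coeff_natDegree, h1]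
    have k1 := t3 _ m h1.le
    rw [e, h2] at k1
    refine Nat.cast_add_one_ne_zero m (hno ((m : ℂ) + 1) _ (q.coeff m).2 ?_)
    simp only [OneMemClass.coe_one, map_add, map_mul, map_natCast, map_one] at k1 ⊢
    linear_combination -k1
  rw [h0, map_one, one_mul] at hp
  have e' : T p = p + C ⟨_, hαb⟩ := transcendental_iff_injective.1 hz (by
    rw [map_add, hd', t1, ← hp]
    ring)
  rcases Nat.eq_zero_or_pos p.natDegree with h | h
  · refine ⟨0, _, (p.coeff 0).2, ?_⟩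
    rw [map_zero, zero_mul, zero_add, hp, ← hd', ← eq_C_of_natDegree_eq_zero h]
  obtain ⟨m, h1⟩ := Nat.exists_eq_succ_of_ne_zero h.ne'
  have k1 := t3 p (m + 1) (by omega)
  rw [e', coeff_add, coeff_C_succ, add_zero, coeff_eq_zero_of_natDegree_lt (n := m + 1 + 1)
    (by omega), ZeroMemClass.coe_zero, map_zero, mul_zero, add_zero] at k1
  obtain ⟨c, hc⟩ := hfix _ (p.coeff (m + 1)).2 k1.symm
  rcases m with _ | m
  · refine ⟨c, _, (p.coeff 0).2, ?_⟩
    rw [hp, ← hc, ← hd', ← hd']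
    conv_lhs => rw [eq_X_add_C_of_natDegree_le_one h1.le]
    rw [map_add, map_mul, aeval_X]
  · have k2 := t3 p (m + 1) h1.le
    rw [e', coeff_add, coeff_C_succ, add_zero, ← k1, hc] at k2
    have k3 := hno ((((m + 1 : ℕ) : ℂ) + 1) * c) _ (p.coeff (m + 1)).2 (by
      simp only [map_add, map_mul, map_natCast, map_one, AlgHom.commutes]
      linear_combination -k2)
    have k4 : c = 0 := (mul_eq_zero.1 k3).resolve_left (Nat.cast_add_one_ne_zero _)
    rw [k4, map_zero, ZeroMemClass.coe_eq_zero] at hc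
    have k5 : p = 0 := leadingCoeff_eq_zero.1 (by rw [leadingCoeff, h1]; exact hc)
    rw [k5] at h
    simp at h

end Pool.Agent.E21
end

-- merged part: Pool.Agent.Work.MP_e21d36_nt.AI2
section
/-!
# Difference algebra II: linear disjointness

Plan of `ai_ld`.  Use `linearIndependent_iff'` and strong induction on the card of the finite
set `s`: if `∑_{i ∈ s} b i * a i = 0` with `b i ∈ L2`, `b i0 ≠ 0`, divide by `b i0`, apply `α`
and subtract; the new relation lives on `s.erase i0`, so all `b i` are fixed by `α`, hence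
complex constants, against the independence over `ℂ`.
`ai_cb`: let `a` be a basis of `fixF α` over `ℂ` that contains `1`
(`Basis.extend` / `exists_linearIndepOn_id_extension`, or `exists_linearIndependent`), and
`R = span L2 (fixF α)` (a subring of `L`, stable under `α`).  Every element of
`fixF α ⊔ L2` is `p / q` with `p, q ∈ R` (the quotients form a subfield containing both; or
`IntermediateField.sup_toSubalgebra`-free: `Subfield.mem_closure_iff` and
`Subring.closure_induction`).  By `ai_ld` elements of `R` have unique coordinates.  Among the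
`q ∈ R`, `q ≠ 0`, with `z q ∈ R` take one with smallest support, scale one coordinate to `1`;
`α q - q` has the same property with smaller support, so is zero, so the coordinates are
constants and `q ∈ fixF α`.  Then `z ∈ R`; the coordinate `b` of `z` at the basis element `1`
satisfies `α b = b - ν`, so `b` is constant by `hq` and `ν = 0`.
-/

namespace Pool.Agent.E21

variable {L : Type} [Field L] [Algebra ℂ L]

/-- The field of elements fixed by `α`. -/
def fixF (α : L →ₐ[ℂ] L) : IntermediateField ℂ L where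
  carrier := {y | α y = y}
  mul_mem' := by
    intro a b ha hb
    simp only [Set.mem_ofPred_eq] at ha hb ⊢
    rw [map_mul, ha, hb]
  add_mem' := by
    intro a b ha hb
    simp only [Set.mem_ofPred_eq] at ha hb ⊢
    rw [map_add, ha, hb]
  algebraMap_mem' := fun c => α.commutes c
  inv_mem' := by
    intro a ha
    simp only [Set.mem_ofPred_eq] at ha ⊢
    rw [map_inv₀, ha]

theorem mem_fixF (α : L →ₐ[ℂ] L) (y : L) : y ∈ fixF α ↔ α y = y := Iff.rfl

theorem ai_ld (α : L →ₐ[ℂ] L) (L2 : IntermediateField ℂ L) (hL2 : ∀ b ∈ L2, α b ∈ L2)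
    (hfix : ∀ b ∈ L2, α b = b → ∃ c : ℂ, b = algebraMap ℂ L c) {ι : Type} (a : ι → L)
    (ha : ∀ i, α (a i) = a i) (hli : LinearIndependent ℂ a) : LinearIndependent L2 a := by
  classical
  rw [linearIndependent_iff']
  intro s
  induction s using Finset.induction_on with
  | empty => intro g _ i hi; simp at hi
  | insert j s hj ih =>
    intro g hg
    rw [Finset.sum_insert hj] at hg
    have h0 : g j = 0 := by
      by_contra h0
      have h1 : a j + ∑ i ∈ s, ((g i / g j : L2) : L) * a i = 0 := by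
        have h2 := congrArg (fun x => (g j)⁻¹ • x) hg
        simp only [smul_add, Finset.smul_sum, smul_smul, inv_mul_cancel₀ h0, one_smul,
          smul_zero] at h2
        simpa only [div_eq_inv_mul, IntermediateField.smul_def, smul_eq_mul] using h2
      have h2 := congrArg α h1
      simp only [map_add, map_sum, map_mul, ha, map_zero] at h2
      have h3 := ih (fun i => ⟨α ((g i / g j : L2) : L), hL2 _ (g i / g j).2⟩ - g i / g j) (by
        simp only [sub_smul, Finset.sum_sub_distrib, IntermediateField.smul_def, smul_eq_mul]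
        linear_combination h2 - h1)
      have h4 : ∀ i, ∃ c : ℂ, i ∈ s → ((g i / g j : L2) : L) = algebraMap ℂ L c := fun i => by
        by_cases hi : i ∈ s
        · obtain ⟨c, hc⟩ := hfix _ (g i / g j).2 (congrArg Subtype.val (sub_eq_zero.1 (h3 i hi)))
          exact ⟨c, fun _ => hc⟩
        · exact ⟨0, fun k => absurd k hi⟩
      choose c hc using h4
      have h5 := linearIndependent_iff'.1 hli (insert j s) (Function.update c j 1) (by
        rw [Finset.sum_insert hj, Function.update_self, one_smul, ← h1]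
        congr 1
        refine Finset.sum_congr rfl fun i hi => ?_
        rw [Function.update_of_ne (ne_of_mem_of_not_mem hi hj), hc i hi, Algebra.smul_def])
        j (Finset.mem_insert_self _ _)
      simp at h5
    rw [h0, zero_smul, zero_add] at hg
    intro i hi
    rcases Finset.mem_insert.1 hi with rfl | hi
    exacts [h0, ih g hg i hi]

theorem AI2_stab (α : L →ₐ[ℂ] L) (L2 : IntermediateField ℂ L) (hL2 : ∀ b ∈ L2, α b ∈ L2)
    {S : Set L} (hS : S ⊆ fixF α) {x : L} (hx : x ∈ Submodule.span L2 S) :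
    α x ∈ Submodule.span L2 S := by
  induction hx using Submodule.span_induction with
  | mem y hy =>
    rw [(mem_fixF α y).1 (hS hy)]
    exact Submodule.subset_span hy
  | zero =>
    rw [map_zero]
    exact zero_mem _
  | add x y _ _ h1 h2 =>
    rw [map_add]
    exact add_mem h1 h2
  | smul c y _ h =>
    rw [IntermediateField.smul_def, smul_eq_mul, map_mul]
    exact Submodule.smul_mem _ (⟨α c, hL2 _ c.2⟩ : L2) h

theorem AI2_min (α : L →ₐ[ℂ] L) (L2 : IntermediateField ℂ L) (hL2 : ∀ b ∈ L2, α b ∈ L2)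
    {z : L} {ν : ℂ} (hz : α z = z - algebraMap ℂ L ν) (s : Finset L) (hs : (s : Set L) ⊆ fixF α)
    (q : L) (h1 : q ∈ Submodule.span L2 (s : Set L)) (h0 : q ≠ 0)
    (h2 : z * q ∈ Submodule.span L2 (fixF α : Set L)) :
    ∃ y ∈ fixF α, y ≠ 0 ∧ z * y ∈ Submodule.span L2 (fixF α : Set L) := by
  classical
  induction s using Finset.induction_on generalizing q with
  | empty => exact absurd (by simpa using h1) h0
  | insert f s _ ih =>
    have h3 := Submodule.span_mono hs h1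
    rw [Finset.coe_insert, Set.insert_subset_iff] at hs
    rw [Finset.coe_insert, Submodule.mem_span_insert] at h1
    obtain ⟨c, r, hr, e⟩ := h1
    by_cases hc : c = 0
    · rw [hc, zero_smul, zero_add] at e
      exact ih hs.2 q (e ▸ hr) h0 h2
    have h4 : z * c⁻¹ • q ∈ Submodule.span L2 (fixF α : Set L) := by
      rw [mul_smul_comm]
      exact Submodule.smul_mem _ _ h2
    by_cases k : α (c⁻¹ • q) = c⁻¹ • q
    · exact ⟨_, k, smul_ne_zero (inv_ne_zero hc) h0, h4⟩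
    refine ih hs.2 _ ?_ (sub_ne_zero.2 k) ?_
    · have h5 := Submodule.smul_mem _ c⁻¹ hr
      convert sub_mem (AI2_stab α L2 hL2 hs.2 h5) h5 using 1
      rw [e, smul_add, smul_smul, inv_mul_cancel₀ hc, one_smul, map_add, (mem_fixF α f).1 hs.1]
      ring
    · have h5 := AI2_stab α L2 hL2 subset_rfl (Submodule.smul_mem _ c⁻¹ h3)
      convert sub_mem (add_mem (AI2_stab α L2 hL2 subset_rfl h4)
        (Submodule.smul_mem _ (algebraMap ℂ L2 ν) h5)) h4 using 1
      rw [map_mul, hz, algebraMap_smul, Algebra.smul_def ν]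
      ring

theorem ai_cb (α : L →ₐ[ℂ] L) (L2 : IntermediateField ℂ L) (hL2 : ∀ b ∈ L2, α b ∈ L2)
    (hq : ∀ b ∈ L2, ∀ c : ℂ, α b = b + algebraMap ℂ L c → ∃ c' : ℂ, b = algebraMap ℂ L c')
    (z : L) (ν : ℂ) (hν : ν ≠ 0) (hz : α z = z - algebraMap ℂ L ν) : z ∉ fixF α ⊔ L2 := by
  intro hm
  rw [sup_comm, ← IntermediateField.adjoin_self ℂ (fixF α),
    ← IntermediateField.restrictScalars_adjoin_eq_sup, IntermediateField.mem_restrictScalars,
    IntermediateField.mem_adjoin_iff_div] at hm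
  obtain ⟨p, hp, q, hq', e⟩ := hm
  have hR : ∀ x, x ∈ Algebra.adjoin L2 (fixF α : Set L) ↔
      x ∈ Submodule.span L2 (fixF α : Set L) := fun x => by
    rw [← Algebra.adjoin_eq_span_of_subset L2 (s := (fixF α : Set L)) fun y hy => Submodule.subset_span
      ((Submonoid.closure_le (S := (fixF α).toSubalgebra.toSubmonoid)).2 subset_rfl hy)]
    rfl
  have hν' : algebraMap ℂ L ν ≠ 0 := (map_ne_zero _).2 hν
  have q0 : q ≠ 0 := by
    rintro rfl
    rw [div_zero] at e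
    rw [e, map_zero, zero_sub, eq_comm, neg_eq_zero] at hz
    exact hν' hz
  obtain ⟨s, hs, hqs⟩ := Submodule.mem_span_finite_of_mem_span ((hR q).1 hq')
  obtain ⟨y, y1, y0, y2⟩ := AI2_min α L2 hL2 hz s hs q hqs q0 (by
    rw [e, div_mul_cancel₀ _ q0]
    exact (hR p).1 hp)
  have z1 : z ∈ Submodule.span L2 (fixF α : Set L) := by
    have := mul_mem ((hR _).2 y2) (Algebra.subset_adjoin (inv_mem y1))
    rw [mul_inv_cancel_right₀ y0] at this
    exact (hR z).1 this
  obtain ⟨b, b1, b2, b3, b4⟩ := exists_linearIndepOn_id_extension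
    (LinearIndepOn.singleton (R := ℂ) (v := id) (one_ne_zero (α := L)))
    (Set.singleton_subset_iff.2 (one_mem (fixF α)))
  have b5 : (1 : L) ∈ b := b2 rfl
  have b6 : LinearIndepOn L2 id b :=
    ai_ld α L2 hL2 (fun x hx k => hq x hx 0 (by rw [k, map_zero, add_zero])) _ (fun i => b1 i.2) b4
  have b7 := b6.notMem_span b5
  rw [Set.image_id, id] at b7
  have z2 := Submodule.span_le.2 (b3.trans (Submodule.span_subset_span ℂ L2 b)) z1
  rw [← Set.insert_sdiff_self_of_mem b5, Submodule.mem_span_insert] at z2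
  obtain ⟨β, σ, hσ, z3⟩ := z2
  have z4 := AI2_stab α L2 hL2 (Set.sdiff_subset.trans b1) hσ
  rw [IntermediateField.smul_def, smul_eq_mul, mul_one] at z3
  have z5 : α β = β + algebraMap ℂ L (-ν) := by
    by_contra k
    let γ : L2 := ⟨α β, hL2 _ β.2⟩ - β + algebraMap ℂ L2 ν
    have k1 : (γ : L) = α β - β + algebraMap ℂ L ν := rfl
    have k2 : γ ≠ 0 := fun k2 => k (by
      rw [k2, ZeroMemClass.coe_zero] at k1
      rw [map_neg]
      linear_combination -k1)
    refine b7 ((Submodule.smul_mem_iff _ k2).1 ?_)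
    convert sub_mem hσ z4 using 1
    rw [IntermediateField.smul_def, smul_eq_mul, mul_one, k1]
    rw [z3, map_add] at hz
    linear_combination hz
  obtain ⟨c, hc⟩ := hq _ β.2 _ z5
  rw [hc, AlgHom.commutes, left_eq_add, map_neg, neg_eq_zero] at z5
  exact hν' z5

end Pool.Agent.E21
end

-- merged part: Pool.Agent.Work.MP_e21d36_nt.AI3
section
/-!
# Difference algebra III: algebraic independence of four elements

Plan of `ai_main`.  `k1 = fixF α`, `k2 = fixF β`; `α` maps `k2` to `k2`, `β` maps `k1` to `k1`,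
`α z2 - z2 ∈ k2`, `β z1 - z1 ∈ k1` (commutation).
1. `z2` is transcendental over `k2` (`ai_o1` with `Γ = {β}`).
2. `L2 = (adjoin k2 {z2}).restrictScalars ℂ` is stable under `α` and `β`
   (`IntermediateField.adjoin_induction`).  If `b ∈ L2` and `α b = b + c` then `b` is constant:
   `ai_o2` gives `b = γ z2 + c'`, so `β b = b - γ ν2`, use `hK` (the hypotheses `hfix`, `hno` of
   `ai_o2` also come from `hK`).
3. `z1` is transcendental over `k' = k1 ⊔ L2` (`ai_o1` with `Γ = {α, β}`, then `ai_cb`).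
4. `x1` is transcendental over `L2`: the powers of `x1` are independent over `ℂ` (a nonconstant
   element is transcendental since `ℂ` is algebraically closed), hence over `L2` by `ai_ld`.
   Likewise `x2` is transcendental over `ℂ`.
5. Assemble in the order `x2, z2, x1, z1` (`AlgebraicIndependent.option_iff`,
   `algebraicIndependent_of_finite_type`, or `algebraicIndependent_iff` with
   `MvPolynomial.finSuccEquiv`; `Transcendental.of_tower_top` style lemmas to pass from a field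
   to the smaller algebra generated by the previous elements), then permute
   (`AlgebraicIndependent.comp`).
`ai_main0`: restrict `α`, `β` to the field `fixF σ` and apply `ai_main` there; map back with
`AlgebraicIndependent.map'` along `(fixF σ).val`.
-/

namespace Pool.Agent.E21

theorem AI3_pow {K L : Type} [Field K] [Field L] [Algebra K L] (x : L) :
    LinearIndependent K (fun n : ℕ => x ^ n) ↔ Transcendental K x := by
  have e : (fun n : ℕ => x ^ n) =
      (Polynomial.aeval x : Polynomial K →ₐ[K] L).toLinearMap ∘ Polynomial.basisMonomials K := by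
    funext n
    simp
  rw [e, transcendental_iff_injective]
  exact ⟨fun h => LinearMap.injective_of_linearIndependent (Polynomial.basisMonomials K).span_eq h,
    fun h => (Polynomial.basisMonomials K).linearIndependent.map' _ (LinearMap.ker_eq_bot.2 h)⟩

theorem AI3_tr {L : Type} [Field L] [Algebra ℂ L] {x : L} (h : ∀ c : ℂ, x ≠ algebraMap ℂ L c) :
    Transcendental ℂ x := by
  intro ha
  have hi := ha.isIntegral
  obtain ⟨c, hc⟩ := minpoly.degree_eq_one_iff.1
    (IsAlgClosed.degree_eq_one_of_irreducible ℂ (minpoly.irreducible hi))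
  exact h c hc.symm

theorem AI3_snoc {L ι : Type} [Field L] [Algebra ℂ L] {x : ι → L} (hx : AlgebraicIndependent ℂ x)
    (k : IntermediateField ℂ L) (hk : ∀ i, x i ∈ k) {y : L} (hy : Transcendental k y) :
    AlgebraicIndependent ℂ fun o : Option ι => o.elim y x :=
  (hx.option_iff_transcendental y).2 (Transcendental.of_tower_top_of_subalgebra_le
    (B := k.toSubalgebra) (Algebra.adjoin_le (Set.range_subset_iff.2 hk)) hy)

theorem AI3_adj {L : Type} [Field L] [Algebra ℂ L] (k : IntermediateField ℂ L) (z : L)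
    (γ : L →ₐ[ℂ] L) (hk : ∀ a ∈ k, γ a ∈ k) (hz : γ z - z ∈ k) :
    ∀ b ∈ IntermediateField.adjoin k ({z} : Set L), γ b ∈ IntermediateField.adjoin k ({z} : Set L) := by
  have h0 : ∀ a ∈ k, a ∈ IntermediateField.adjoin k ({z} : Set L) := fun a ha =>
    IntermediateField.algebraMap_mem _ (⟨a, ha⟩ : k)
  intro b hb
  induction hb using IntermediateField.adjoin_induction with
  | mem x hx =>
    obtain rfl : x = z := hx
    have := add_mem (h0 _ hz) (IntermediateField.mem_adjoin_simple_self k x)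
    rwa [sub_add_cancel] at this
  | algebraMap x => exact h0 _ (hk _ x.2)
  | add x y _ _ hx hy => rw [map_add]; exact add_mem hx hy
  | inv x _ hx => rw [map_inv₀]; exact inv_mem hx
  | mul x y _ _ hx hy => rw [map_mul]; exact mul_mem hx hy

theorem AI3_sup {L : Type} [Field L] [Algebra ℂ L] (k k' : IntermediateField ℂ L)
    (γ : L →ₐ[ℂ] L) (hk : ∀ a ∈ k, γ a ∈ k) (hk' : ∀ a ∈ k', γ a ∈ k') :
    ∀ a ∈ k ⊔ k', γ a ∈ k ⊔ k' :=
  show k ⊔ k' ≤ (k ⊔ k').comap γ from
    sup_le (fun a ha => (le_sup_left : k ≤ k ⊔ k') (hk a ha))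
      fun a ha => (le_sup_right : k' ≤ k ⊔ k') (hk' a ha)

/-- Restriction of a map that commutes with `σ` to the fixed field of `σ`. -/
def AI3_res {L : Type} [Field L] [Algebra ℂ L] (σ α : L →ₐ[ℂ] L) (h : ∀ y, σ (α y) = α (σ y)) :
    fixF σ →ₐ[ℂ] fixF σ where
  toFun y := ⟨α y, (h y).trans (congrArg α y.2)⟩
  map_one' := Subtype.ext (map_one α)
  map_mul' x y := Subtype.ext (map_mul α x.1 y.1)
  map_zero' := Subtype.ext (map_zero α)
  map_add' x y := Subtype.ext (map_add α x.1 y.1)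
  commutes' c := Subtype.ext (α.commutes c)

theorem ai_main {L : Type} [Field L] [Algebra ℂ L] (α β : L →ₐ[ℂ] L)
    (hc : ∀ y, α (β y) = β (α y))
    (hK : ∀ (y : L) (c1 c2 : ℂ), α y = y + algebraMap ℂ L c1 → β y = y + algebraMap ℂ L c2 →
      ∃ c : ℂ, y = algebraMap ℂ L c)
    (x1 z1 x2 z2 : L) (ν1 ν2 : ℂ) (hν1 : ν1 ≠ 0) (hν2 : ν2 ≠ 0)
    (hx1 : α x1 = x1) (hz1 : α z1 = z1 - algebraMap ℂ L ν1)
    (hx2 : β x2 = x2) (hz2 : β z2 = z2 - algebraMap ℂ L ν2)
    (nx1 : ∀ c : ℂ, x1 ≠ algebraMap ℂ L c) (nx2 : ∀ c : ℂ, x2 ≠ algebraMap ℂ L c) :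
    AlgebraicIndependent ℂ ![x1, z1, x2, z2] := by
  have inj : ∀ c : ℂ, algebraMap ℂ L c = 0 → c = 0 := fun c h =>
    (map_eq_zero_iff _ (algebraMap ℂ L).injective).1 h
  have a2 : ∀ a ∈ fixF β, α a ∈ fixF β := fun a ha => (hc a).symm.trans (congrArg α ha)
  have b2 : ∀ a ∈ fixF β, β a ∈ fixF β := fun a ha => congrArg β ha
  have a1 : ∀ a ∈ fixF α, α a ∈ fixF α := fun a ha => congrArg α ha
  have b1 : ∀ a ∈ fixF α, β a ∈ fixF α := fun a ha => (hc a).trans (congrArg β ha)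
  have az2 : α z2 - z2 ∈ fixF β := by
    rw [mem_fixF, map_sub, ← hc, hz2, map_sub, α.commutes]
    ring
  have bz2 : β z2 - z2 ∈ fixF β := by
    rw [hz2, sub_sub_cancel_left]
    exact neg_mem (IntermediateField.algebraMap_mem _ _)
  have bz1 : β z1 - z1 ∈ fixF α := by
    rw [mem_fixF, map_sub, hc, hz1, map_sub, β.commutes]
    ring
  have t2 : Transcendental (fixF β) z2 := fun h => by
    have := ai_o1 (fixF β) {β} (by rintro _ rfl; exact b2) (fun y hy => hy β rfl) z2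
      (by rintro _ rfl; exact bz2) h
    rw [mem_fixF, hz2, sub_eq_self] at this
    exact hν2 (inj _ this)
  have hβ : ∀ (γ : ℂ), ∀ c ∈ fixF β, β (algebraMap ℂ L γ * z2 + c) =
      algebraMap ℂ L γ * z2 + c + algebraMap ℂ L (-(γ * ν2)) := fun γ c h => by
    rw [map_add, map_mul, β.commutes, hz2, (mem_fixF β c).1 h, map_neg, map_mul]
    ring
  obtain ⟨L2, hL2⟩ : ∃ L2 : IntermediateField ℂ L,
      ∀ b, b ∈ L2 ↔ b ∈ IntermediateField.adjoin (fixF β) ({z2} : Set L) :=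
    ⟨(IntermediateField.adjoin (fixF β) ({z2} : Set L)).restrictScalars ℂ, fun _ => Iff.rfl⟩
  have aL : ∀ b ∈ L2, α b ∈ L2 := fun b hb =>
    (hL2 _).2 (AI3_adj _ z2 α a2 az2 b ((hL2 _).1 hb))
  have bL : ∀ b ∈ L2, β b ∈ L2 := fun b hb =>
    (hL2 _).2 (AI3_adj _ z2 β b2 bz2 b ((hL2 _).1 hb))
  have hq : ∀ b ∈ L2, ∀ c : ℂ, α b = b + algebraMap ℂ L c → ∃ c' : ℂ, b = algebraMap ℂ L c' := by
    intro b hb c h
    obtain ⟨γ, c', hc', e⟩ := ai_o2 (fixF β) α a2 z2 t2 az2
      (fun a ha h => hK a 0 0 (by rw [h, map_zero, add_zero]) (by rw [map_zero, add_zero]; exact ha))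
      (fun γ c hc h => by
        obtain ⟨d, hd⟩ := hK _ 0 _ (by rw [h, map_zero, add_zero]) (hβ γ c hc)
        have := hβ γ c hc
        rw [hd, β.commutes, left_eq_add] at this
        exact (mul_eq_zero.1 (neg_eq_zero.1 (inj _ this))).resolve_right hν2)
      b ((hL2 _).1 hb) (by
        rw [h, add_sub_cancel_left]
        exact IntermediateField.algebraMap_mem _ _)
    exact hK b c _ h (by rw [e]; exact hβ γ c' hc')
  have t1 : Transcendental (fixF α ⊔ L2 : IntermediateField ℂ L) z1 := fun h => by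
    refine ai_cb α L2 aL hq z1 ν1 hν1 hz1 (ai_o1 (fixF α ⊔ L2) {α, β} ?_
      (fun y hy => (le_sup_left : fixF α ≤ _) (hy α (Or.inl rfl))) z1 ?_ h)
    · rintro _ (rfl | rfl)
      · exact AI3_sup _ _ _ a1 aL
      · exact AI3_sup _ _ _ b1 bL
    · rintro _ (rfl | rfl)
      · rw [hz1, sub_sub_cancel_left]
        exact neg_mem (IntermediateField.algebraMap_mem _ _)
      · exact (le_sup_left : fixF α ≤ _) bz1
  have u1 : Transcendental L2 x1 := (AI3_pow x1).1 (ai_ld α L2 aL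
    (fun b hb h => hq b hb 0 (by rw [h, map_zero, add_zero])) _
    (fun n => by rw [map_pow, hx1]) ((AI3_pow x1).2 (AI3_tr nx1)))
  have m1 : x2 ∈ L2 := (hL2 _).2 (IntermediateField.algebraMap_mem _ (⟨x2, hx2⟩ : fixF β))
  have m2 : z2 ∈ L2 := (hL2 _).2 (IntermediateField.mem_adjoin_simple_self _ z2)
  have i1 : AlgebraicIndependent ℂ fun _ : Unit => x2 :=
    algebraicIndependent_unique_type_iff.2 (AI3_tr nx2)
  have i2 := AI3_snoc i1 (fixF β) (fun _ => hx2) t2
  have i3 := AI3_snoc i2 L2 (by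
    rintro (_ | _)
    · exact m2
    · exact m1) u1
  have i4 := AI3_snoc i3 (fixF α ⊔ L2) (by
    rintro (_ | _ | _)
    · exact (le_sup_left : fixF α ≤ _) hx1
    · exact (le_sup_right : L2 ≤ _) m2
    · exact (le_sup_right : L2 ≤ _) m1) t1
  have i5 := i4.comp ![some none, none, some (some (some ())), some (some none)] (by decide)
  convert i5 using 1
  funext i
  fin_cases i <;> rfl

theorem ai_main0 {L : Type} [Field L] [Algebra ℂ L] (σ α β : L →ₐ[ℂ] L)
    (hc : ∀ y, α (β y) = β (α y)) (hσα : ∀ y, σ (α y) = α (σ y)) (hσβ : ∀ y, σ (β y) = β (σ y))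
    (hK : ∀ (y : L) (c1 c2 : ℂ), σ y = y → α y = y + algebraMap ℂ L c1 →
      β y = y + algebraMap ℂ L c2 → ∃ c : ℂ, y = algebraMap ℂ L c)
    (x1 z1 x2 z2 : L) (ν1 ν2 : ℂ) (hν1 : ν1 ≠ 0) (hν2 : ν2 ≠ 0)
    (s1 : σ x1 = x1) (s2 : σ z1 = z1) (s3 : σ x2 = x2) (s4 : σ z2 = z2)
    (hx1 : α x1 = x1) (hz1 : α z1 = z1 - algebraMap ℂ L ν1)
    (hx2 : β x2 = x2) (hz2 : β z2 = z2 - algebraMap ℂ L ν2)
    (nx1 : ∀ c : ℂ, x1 ≠ algebraMap ℂ L c) (nx2 : ∀ c : ℂ, x2 ≠ algebraMap ℂ L c) :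
    AlgebraicIndependent ℂ ![x1, z1, x2, z2] := by
  have h := ai_main (AI3_res σ α hσα) (AI3_res σ β hσβ) (fun y => Subtype.ext (hc y))
    (fun y c1 c2 h1 h2 => (hK y c1 c2 y.2 (congrArg Subtype.val h1)
      (congrArg Subtype.val h2)).imp fun _ h => Subtype.ext h)
    ⟨x1, s1⟩ ⟨z1, s2⟩ ⟨x2, s3⟩ ⟨z2, s4⟩ ν1 ν2 hν1 hν2 (Subtype.ext hx1) (Subtype.ext hz1)
    (Subtype.ext hx2) (Subtype.ext hz2) (fun c h => nx1 c (congrArg Subtype.val h))
    fun c h => nx2 c (congrArg Subtype.val h)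
  have h' := h.map' (f := (fixF σ).val) Subtype.val_injective
  convert h' using 1
  funext i
  fin_cases i <;> rfl

end Pool.Agent.E21
end

-- merged part: Pool.Agent.Work.MP_e21d36_nt.H1
section
/-!
# A nonzero polynomial in `X1, Z1, X2, Z2` does not vanish on a leaf

Plan.  `leaf_indep`: `ai_main0` in `L = Mer` with `σ = sh ω`, `α = sh ω1'`, `β = sh ω2'`
(`sh_sh` for commutation, `const_of_quasi` for `hK`, `sh_xM`, `sh_zM` with `(k,l) = (1,0)` and
`(0,1)`, `hω`); `sh a xM` is not a constant since `xM` is transcendental (apply `sh (-a)`).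
`leaf_zero`: the function `w ↦ ev2 (mv p w) (rename emb F0)` is analytic at `0` with all
derivatives zero (`iteratedDeriv_ev2`), so it vanishes near `0`
(`AnalyticAt.hasFPowerSeriesAt` / `natCast_le_analyticOrderAt_iff_iteratedDeriv_eq_zero`,
`analyticOrderAt_eq_top`); by `hasVal_aeval`, `hasVal_sh` and `eq_zero_of_frequently` the
element `aeval m F0` of `Mer` is zero, where `m (i, 0) = sh (x i) xM`,
`m (i, 1) = sh (x i) zM - s i`; reindex `leaf_indep` along an equivalence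
`Fin 2 × Fin 2 ≃ Fin 4` (`finProdFinEquiv`) and use `algebraicIndependent_iff`.
`h1_hyp`: if `p` is stable under `D2` then all `D2^[j] F` lie in `p`.
-/

namespace Pool.Agent.E21

open MvPolynomial

theorem H1_comm (a b : ℂ) (m : Mer) : sh a (sh b m) = sh b (sh a m) := by
  rw [sh_sh, sh_sh, add_comm]

theorem H1_x (Θ : Theta) (x : ℂ) : sh Θ.ω (sh x Θ.xM) = sh x Θ.xM ∧
    sh Θ.ω' (sh x Θ.xM) = sh x Θ.xM := by
  have h1 := Θ.sh_xM 1 0
  have h2 := Θ.sh_xM 0 1
  simp only [Int.cast_one, Int.cast_zero, one_mul, zero_mul, add_zero, zero_add] at h1 h2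
  exact ⟨by rw [H1_comm, h1], by rw [H1_comm, h2]⟩

theorem H1_z (Θ : Theta) (x s : ℂ) :
    sh Θ.ω (sh x Θ.zM - algebraMap ℂ Mer s) = sh x Θ.zM - algebraMap ℂ Mer s ∧
    sh Θ.ω' (sh x Θ.zM - algebraMap ℂ Mer s) =
      sh x Θ.zM - algebraMap ℂ Mer s - algebraMap ℂ Mer Θ.ν := by
  have h1 := Θ.sh_zM 1 0
  have h2 := Θ.sh_zM 0 1
  simp only [Int.cast_one, Int.cast_zero, one_mul, zero_mul, add_zero, zero_add, map_zero,
    sub_zero] at h1 h2
  constructor
  · rw [map_sub, H1_comm, h1, AlgHom.commutes]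
  · rw [map_sub, H1_comm, h2, map_sub, AlgHom.commutes, AlgHom.commutes]
    ring

theorem H1_nc (Θ : Theta) (x c : ℂ) : sh x Θ.xM ≠ algebraMap ℂ Mer c := by
  intro h
  have h1 := congrArg (sh (-x)) h
  rw [sh_sh, neg_add_cancel, sh_zero, AlgHom.commutes] at h1
  exact Θ.xM_transcendental (h1 ▸ isAlgebraic_algebraMap c)

namespace Pair

variable (W : Pair)

theorem leaf_indep (x1 x2 s1 s2 : ℂ) : AlgebraicIndependent ℂ
    ![sh x1 (W.Θ 0).xM, sh x1 (W.Θ 0).zM - algebraMap ℂ Mer s1,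
      sh x2 (W.Θ 1).xM, sh x2 (W.Θ 1).zM - algebraMap ℂ Mer s2] := by
  have h3 := (H1_x (W.Θ 1) x2).1
  have h4 := (H1_z (W.Θ 1) x2 s2).1
  rw [W.hω] at h3 h4
  exact ai_main0 (sh (W.Θ 0).ω) (sh (W.Θ 0).ω') (sh (W.Θ 1).ω') (H1_comm _ _) (H1_comm _ _)
    (H1_comm _ _) (fun y c1 c2 => const_of_quasi (W.Θ 0).him W.hind y c1 c2) _ _ _ _
    (W.Θ 0).ν (W.Θ 1).ν (W.Θ 0).hν (W.Θ 1).hν (H1_x (W.Θ 0) x1).1 (H1_z (W.Θ 0) x1 s1).1 h3 h4
    (H1_x (W.Θ 0) x1).2 (H1_z (W.Θ 0) x1 s1).2 (H1_x (W.Θ 1) x2).2 (H1_z (W.Θ 1) x2 s2).2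
    (H1_nc _ _) (H1_nc _ _)

theorem leaf_zero {p : Fin 2 → ℂ × ℂ} (hp : W.Good p) (F0 : PB)
    (h : ∀ j, W.ev2 p ((⇑W.D2)^[j] (rename emb F0)) = 0) : F0 = 0 := by
  have hp0 : W.Good (mv p 0) := by rw [mv_zero]; exact hp
  have han := W.analyticAt_ev2 (rename emb F0) hp0
  have h5 : ∀ n : ℕ, (n : ℕ∞) ≤ analyticOrderAt (fun w => W.ev2 (mv p w) (rename emb F0)) 0 :=
    fun n => (natCast_le_analyticOrderAt_iff_iteratedDeriv_eq_zero han).2 fun i _ => by
      rw [W.iteratedDeriv_ev2 _ hp0, mv_zero]; exact h i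
  have hz := analyticOrderAt_eq_top.1 (ENat.eq_top_iff_forall_ge.2 h5)
  have hI := (W.leaf_indep (p 0).1 (p 1).1 (p 0).2 (p 1).2).comp
    (finProdFinEquiv (m := 2) (n := 2)) finProdFinEquiv.injective
  refine algebraicIndependent_iff.1 hI F0 (eq_zero_of_frequently _ 0 ?_)
  refine Filter.Eventually.frequently ?_
  filter_upwards [hz.filter_mono nhdsWithin_le_nhds, W.eventually_good' p 0] with w h1 h2
  have h3 : W.ev2 (mv p w) (rename emb F0) = aeval (W.val (mv p w) ∘ emb) F0 := by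
    rw [ev2, aeval_rename]
  rw [← h1, h3]
  refine hasVal_aeval _ _ _ (fun v => ?_) F0
  have hx : ∀ i, HasVal (sh (p i).1 (W.Θ i).xM) w (xf (W.Θ i).θ ((p i).1 + w)) := fun i => by
    rw [hasVal_sh, add_comm]; exact (W.Θ i).hasVal_xM (h2 i)
  have hy : ∀ i, HasVal (sh (p i).1 (W.Θ i).zM - algebraMap ℂ Mer (p i).2) w
      (zt (W.Θ i).θ ((p i).1 + w) - (p i).2) := fun i => by
    refine HasVal.sub ?_ (hasVal_const _ _)
    rw [hasVal_sh, add_comm]; exact (W.Θ i).hasVal_zM (h2 i)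
  obtain ⟨i, j⟩ := v
  fin_cases i <;> fin_cases j
  · exact hx 0
  · exact hy 0
  · exact hx 1
  · exact hy 1

theorem h1_hyp {p : Fin 2 → ℂ × ℂ} (hp : W.Good p) {F0 : PB} (hF : F0 ≠ 0) (𝔭 : Ideal P2)
    (hv : ∀ a ∈ 𝔭, W.ev2 p a = 0) (hm : rename emb F0 ∈ 𝔭) : ∃ g ∈ 𝔭, W.D2 g ∉ 𝔭 := by
  by_contra hc
  push Not at hc
  refine hF (W.leaf_zero hp F0 fun j => hv _ ?_)
  induction j with
  | zero => exact hm
  | succ j ih => rw [Function.iterate_succ_apply']; exact hc _ ih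

end Pair

end Pool.Agent.E21
end

-- merged part: Pool.Agent.Work.MP_e21d36_nt.H4a
section
/-!
# Triangular change of generators, and degrees of the coefficients of power series

Plan.  `h4_alg`: strong induction on `j`.  `coeff j (H * Φ) = ∑_{i ≤ j} coeff i H * coeff (j-i) Φ`
with `coeff 0 H ≡ 1`; `f i / i!` and `f i` generate the same ideal.
`SDeg`: `PowerSeries.coeff_mul`, `totalDegree_finset_sum_le`, `totalDegree_mul`.
-/

namespace Pool.Agent.E21

open PowerSeries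

theorem h4_alg {A : Type} [CommRing A] [Algebra ℂ A] (I0 : Ideal A) (f : ℕ → A) (Gs Hs : A⟦X⟧)
    (h0 : coeff 0 Hs - 1 ∈ I0)
    (h : ∀ j, coeff j Gs -
      coeff j (Hs * PowerSeries.mk fun i => ((i.factorial : ℂ)⁻¹) • f i) ∈ I0) (j : ℕ) :
    I0 ⊔ Ideal.span ((fun i => coeff i Gs) '' Set.Iic j) =
      I0 ⊔ Ideal.span (f '' Set.Iic j) := by
  have key : ∀ (J : Ideal A) (i : ℕ), f i ∈ J → ∀ a : A, a * ((i.factorial : ℂ)⁻¹) • f i ∈ J :=
    fun J i hi a => J.mul_mem_left a (by rw [Algebra.smul_def]; exact J.mul_mem_left _ hi)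
  refine le_antisymm (sup_le le_sup_left (Ideal.span_le.2 ?_)) (sup_le le_sup_left
    (Ideal.span_le.2 ?_))
  · rintro _ ⟨i, hi, rfl⟩
    have h1 : coeff i (Hs * PowerSeries.mk fun i => ((i.factorial : ℂ)⁻¹) • f i) ∈
        Ideal.span (f '' Set.Iic j) := by
      rw [coeff_mul]
      refine Ideal.sum_mem _ fun p hp => ?_
      rw [coeff_mk]
      have := Finset.HasAntidiagonal.mem_antidiagonal.1 hp
      have h2 : p.2 ∈ Set.Iic j := le_trans (by omega) (Set.mem_Iic.1 hi)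
      exact key _ _ (Ideal.subset_span (Set.mem_image_of_mem f h2)) _
    simpa using Submodule.add_mem_sup (h i) h1
  · set J := I0 ⊔ Ideal.span ((fun i => coeff i Gs) '' Set.Iic j) with hJ
    have hI : ∀ a ∈ I0, a ∈ J := fun a ha => Ideal.mem_sup_left ha
    suffices H : ∀ i, i ≤ j → f i ∈ J by
      rintro _ ⟨i, hi, rfl⟩
      exact H i hi
    intro i
    induction i using Nat.strong_induction_on with
    | _ i ih =>
      intro hi
      have h1 : coeff i (Hs * PowerSeries.mk fun i => ((i.factorial : ℂ)⁻¹) • f i) ∈ J := by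
        have h2 : coeff i Gs ∈ J := Ideal.mem_sup_right (Ideal.subset_span ⟨i, hi, rfl⟩)
        simpa using J.sub_mem h2 (hI _ (h i))
      have hm : (0, i) ∈ Finset.HasAntidiagonal.antidiagonal i := by simp
      rw [coeff_mul, ← Finset.add_sum_erase _ _ hm] at h1
      have h3 : coeff 0 Hs * ((i.factorial : ℂ)⁻¹) • f i ∈ J := by
        refine (Ideal.add_mem_iff_left J (Ideal.sum_mem _ fun p hp => ?_)).1
          (by simpa only [coeff_mk] using h1)
        obtain ⟨hp1, hp2⟩ := Finset.mem_erase.1 hp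
        have h4 := Finset.HasAntidiagonal.mem_antidiagonal.1 hp2
        have h5 : p.2 < i := by
          by_contra h6
          exact hp1 (Prod.ext (by simp only; omega) (by simp only; omega))
        exact key _ _ (ih _ h5 (by omega)) _
      have h7 := J.sub_mem h3 (J.mul_mem_right (((i.factorial : ℂ)⁻¹) • f i) (hI _ h0))
      have h8 := J.mul_mem_left (algebraMap ℂ A i.factorial) h7
      have h9 : (i.factorial : ℂ) ≠ 0 := Nat.cast_ne_zero.2 i.factorial_ne_zero
      rwa [sub_mul, one_mul, sub_sub_cancel, ← Algebra.smul_def, smul_inv_smul₀ h9] at h8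

/-- All coefficients have total degree at most `n`. -/
def SDeg {σ : Type} (n : ℕ) (g : (MvPolynomial σ ℂ)⟦X⟧) : Prop :=
  ∀ j, (coeff j g).totalDegree ≤ n

variable {σ : Type}

theorem SDeg.mono {n n' : ℕ} {g : (MvPolynomial σ ℂ)⟦X⟧} (h : SDeg n g) (hn : n ≤ n') :
    SDeg n' g := by
  exact fun j => (h j).trans hn

theorem SDeg.add {n : ℕ} {g g' : (MvPolynomial σ ℂ)⟦X⟧} (h : SDeg n g) (h' : SDeg n g') :
    SDeg n (g + g') := by
  intro j
  rw [map_add]
  exact (MvPolynomial.totalDegree_add _ _).trans (max_le (h j) (h' j))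

theorem SDeg.sub {n : ℕ} {g g' : (MvPolynomial σ ℂ)⟦X⟧} (h : SDeg n g) (h' : SDeg n g') :
    SDeg n (g - g') := by
  intro j
  rw [map_sub]
  exact (MvPolynomial.totalDegree_sub _ _).trans (max_le (h j) (h' j))

theorem SDeg.mul {n n' : ℕ} {g g' : (MvPolynomial σ ℂ)⟦X⟧} (h : SDeg n g) (h' : SDeg n' g') :
    SDeg (n + n') (g * g') := by
  intro j
  rw [coeff_mul]
  exact MvPolynomial.totalDegree_finsetSum_le fun p _ =>
    (MvPolynomial.totalDegree_mul _ _).trans (add_le_add (h _) (h' _))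

theorem SDeg.pow {n : ℕ} {g : (MvPolynomial σ ℂ)⟦X⟧} (h : SDeg n g) (k : ℕ) :
    SDeg (k * n) (g ^ k) := by
  induction k with
  | zero =>
    intro j
    rw [pow_zero, coeff_one]
    split_ifs <;> simp
  | succ k ih =>
    rw [pow_succ, add_mul, one_mul]
    exact ih.mul h

theorem SDeg.sum {ι : Type} (s : Finset ι) {n : ℕ} {g : ι → (MvPolynomial σ ℂ)⟦X⟧}
    (h : ∀ i ∈ s, SDeg n (g i)) : SDeg n (∑ i ∈ s, g i) := by
  intro j
  rw [map_sum]
  exact MvPolynomial.totalDegree_finsetSum_le fun i hi => h i hi j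

theorem SDeg.C {n : ℕ} {Q : MvPolynomial σ ℂ} (h : Q.totalDegree ≤ n) :
    SDeg n (PowerSeries.C Q) := by
  intro j
  rw [coeff_C]
  split_ifs
  · exact h
  · simp

theorem SDeg.const (a : ℂ⟦X⟧) :
    SDeg 0 (PowerSeries.map (MvPolynomial.C : ℂ →+* MvPolynomial σ ℂ) a) := by
  intro j
  rw [coeff_map, MvPolynomial.totalDegree_C]

end Pool.Agent.E21
end

-- merged part: Pool.Agent.Work.MP_e21d36_nt.H4b
section
/-!
# Hypothesis (H4): derivatives of low degree

`Lift n g` says that the family `u ↦ g u` of polynomials has a Taylor series in `u` whose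
coefficients have degree at most `n`.

Plan.  Closure lemmas from `tay_add`, `tay_mul`, `tay_const`, `SDeg.*` and `map_add`, `map_mul`
for `PowerSeries.map`.  `lift_hU` etc.: unfold the definitions, `map_sub`, `rename_C`,
`rename_X`; the coefficient functions are entire (TB1).
`h4_hyp`: put `h i u = rename (Prod.mk i) (hU u)` (same for `zU`, `xU`),
`g u = ∑ l, C (c l) * ∏ i, xU^(l (i,0)) * zU^(l (i,1)) * hU^(3D - 2 l (i,0) - l (i,1))`,
`H u = ∏ i, hU^(3D)`.  For a good point `p` and `u ≠ 0` near `0`: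
`ev2 p (g u) = ev2 p (H u) * ev2 (mv p u) (auxF c)` (`ev2_rename`, `ev1_xU`, `ev1_zU`,
`eventually_ne`, `eventually_good`).  `tay_congr`, `tay_mul`, `iteratedDeriv_ev2` turn this
into the hypothesis of `h4_alg` (membership in `I2` by `mem_I2`); `hU 0 = 1` (`nA_zero`,
`θ_zero`).
-/

namespace Pool.Agent.E21

open MvPolynomial

/-- Taylor lift of a family of polynomials. -/
def Lift {σ : Type} (n : ℕ) (g : ℂ → MvPolynomial σ ℂ) : Prop :=
  ∃ Gs : PowerSeries (MvPolynomial σ ℂ), SDeg n Gs ∧ ∀ v : σ → ℂ,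
    AnalyticAt ℂ (fun u => aeval v (g u)) 0 ∧
      ∀ j, aeval v (PowerSeries.coeff j Gs) = PowerSeries.coeff j (tay fun u => aeval v (g u))

variable {σ : Type}

theorem H4b_iff (v : σ → ℂ) (Gs : PowerSeries (MvPolynomial σ ℂ)) (T : PowerSeries ℂ) :
    (∀ j, aeval v (PowerSeries.coeff j Gs) = PowerSeries.coeff j T) ↔
      PowerSeries.map (aeval v : MvPolynomial σ ℂ →ₐ[ℂ] ℂ).toRingHom Gs = T := by
  constructor
  · intro h
    ext j
    rw [PowerSeries.coeff_map]
    exact h j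
  · intro h j
    rw [← h, PowerSeries.coeff_map]
    rfl

theorem Lift.mono {n n' : ℕ} {g : ℂ → MvPolynomial σ ℂ} (h : Lift n g) (hn : n ≤ n') :
    Lift n' g := by
  obtain ⟨Gs, hd, hv⟩ := h
  exact ⟨Gs, hd.mono hn, hv⟩

theorem Lift.const {n : ℕ} {Q : MvPolynomial σ ℂ} (h : Q.totalDegree ≤ n) :
    Lift n (fun _ => Q) := by
  refine ⟨PowerSeries.C Q, SDeg.C h, fun v => ⟨analyticAt_const, ?_⟩⟩
  rw [H4b_iff, tay_const, PowerSeries.map_C]
  rfl

theorem Lift.coef {α : ℂ → ℂ} (h : AnalyticAt ℂ α 0) :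
    Lift 0 (fun u => (C (α u) : MvPolynomial σ ℂ)) := by
  refine ⟨PowerSeries.map (MvPolynomial.C : ℂ →+* MvPolynomial σ ℂ) (tay α), SDeg.const _,
    fun v => ?_⟩
  have e : (fun u => aeval v (C (α u) : MvPolynomial σ ℂ)) = α := by
    funext u
    simp
  rw [e]
  refine ⟨h, fun j => ?_⟩
  rw [PowerSeries.coeff_map]
  simp

theorem Lift.add {n : ℕ} {g g' : ℂ → MvPolynomial σ ℂ} (h : Lift n g) (h' : Lift n g') :
    Lift n (fun u => g u + g' u) := by
  obtain ⟨Gs, hd, hv⟩ := h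
  obtain ⟨Gs', hd', hv'⟩ := h'
  refine ⟨Gs + Gs', hd.add hd', fun v => ?_⟩
  obtain ⟨a, e⟩ := hv v
  obtain ⟨a', e'⟩ := hv' v
  rw [H4b_iff] at e e' ⊢
  simp only [map_add]
  exact ⟨a.add a', by rw [e, e', tay_add a a']⟩

theorem Lift.sub {n : ℕ} {g g' : ℂ → MvPolynomial σ ℂ} (h : Lift n g) (h' : Lift n g') :
    Lift n (fun u => g u - g' u) := by
  obtain ⟨Gs, hd, hv⟩ := h
  obtain ⟨Gs', hd', hv'⟩ := h'
  refine ⟨Gs - Gs', hd.sub hd', fun v => ?_⟩
  obtain ⟨a, e⟩ := hv v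
  obtain ⟨a', e'⟩ := hv' v
  rw [H4b_iff] at e e' ⊢
  simp only [map_sub]
  exact ⟨a.sub a', by rw [e, e', tay_sub a a']⟩

theorem Lift.mul {n n' : ℕ} {g g' : ℂ → MvPolynomial σ ℂ} (h : Lift n g) (h' : Lift n' g') :
    Lift (n + n') (fun u => g u * g' u) := by
  obtain ⟨Gs, hd, hv⟩ := h
  obtain ⟨Gs', hd', hv'⟩ := h'
  refine ⟨Gs * Gs', hd.mul hd', fun v => ?_⟩
  obtain ⟨a, e⟩ := hv v
  obtain ⟨a', e'⟩ := hv' v
  rw [H4b_iff] at e e' ⊢
  simp only [map_mul]
  exact ⟨a.mul a', by rw [e, e', tay_mul a a']⟩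

theorem Lift.pow {n : ℕ} {g : ℂ → MvPolynomial σ ℂ} (h : Lift n g) (k : ℕ) :
    Lift (k * n) (fun u => g u ^ k) := by
  obtain ⟨Gs, hd, hv⟩ := h
  refine ⟨Gs ^ k, hd.pow k, fun v => ?_⟩
  obtain ⟨a, e⟩ := hv v
  rw [H4b_iff] at e ⊢
  simp only [map_pow]
  exact ⟨a.pow k, by rw [e, tay_pow a k]⟩

theorem Lift.sum {ι : Type} (s : Finset ι) {n : ℕ} {g : ι → ℂ → MvPolynomial σ ℂ}
    (h : ∀ i ∈ s, Lift n (g i)) : Lift n (fun u => ∑ i ∈ s, g i u) := by
  classical
  induction s using Finset.induction_on with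
  | empty =>
    simp only [Finset.sum_empty]
    exact Lift.const (by simp)
  | insert a s ha ih =>
    simp only [Finset.sum_insert ha]
    exact (h a (Finset.mem_insert_self a s)).add
      (ih fun i hi => h i (Finset.mem_insert_of_mem hi))

theorem H4b_congr {n : ℕ} {g g' : ℂ → MvPolynomial σ ℂ} (h : Lift n g) (e : ∀ u, g' u = g u) :
    Lift n g' := by
  have : g' = g := funext e
  rw [this]
  exact h

theorem H4b_X (v : σ) : Lift 1 (fun _ => (X v : MvPolynomial σ ℂ)) :=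
  Lift.const (by rw [totalDegree_X])

theorem H4b_cm {n : ℕ} {α : ℂ → ℂ} (h : AnalyticAt ℂ α 0) {g : ℂ → MvPolynomial σ ℂ}
    (hg : Lift n g) : Lift n (fun u => C (α u) * g u) :=
  ((Lift.coef h).mul hg).mono (by omega)

theorem H4b_θ (Θ : Theta) : AnalyticAt ℂ Θ.θ 0 := Θ.toPreTheta.analyticAt 0

theorem H4b_nA (Θ : Theta) : AnalyticAt ℂ (nA Θ.θ) 0 :=
  Θ.toPreTheta.differentiable_nA.analyticAt 0

theorem H4b_nB (Θ : Theta) : AnalyticAt ℂ (nB Θ.θ) 0 :=
  Θ.toPreTheta.differentiable_nB.analyticAt 0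

theorem H4b_half {α : ℂ → ℂ} (h : AnalyticAt ℂ α 0) : AnalyticAt ℂ (fun u => α u / 2) 0 :=
  h.div analyticAt_const (by norm_num)

theorem lift_hU (Θ : Theta) (i : Fin 2) :
    Lift 1 (fun u => (rename (Prod.mk i) (Θ.hU u) : P2)) := by
  refine H4b_congr (((Lift.coef (H4b_nA Θ)).mono (Nat.zero_le 1)).sub
    (H4b_cm ((H4b_θ Θ).pow 2) (H4b_X (i, (0 : Fin 3))))) fun u => ?_
  simp only [Theta.hU, map_sub, map_mul, rename_C, rename_X, Pi.pow_apply]

theorem lift_zU (Θ : Theta) (i : Fin 2) :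
    Lift 2 (fun u => (rename (Prod.mk i) (Θ.zU u) : P2)) := by
  have h1 := (lift_hU Θ i).mul (H4b_X (i, (2 : Fin 3)))
  have h2 : Lift 2 (fun u => (C (deriv (nA Θ.θ) u / 2) : P2)) :=
    (Lift.coef (H4b_half (H4b_nA Θ).deriv)).mono (Nat.zero_le 2)
  have h3 : Lift 2 (fun u => (C (Θ.θ u * deriv Θ.θ u) * X (i, (0 : Fin 3)) : P2)) :=
    (H4b_cm ((H4b_θ Θ).mul (H4b_θ Θ).deriv) (H4b_X (i, (0 : Fin 3)))).mono (by omega)
  have h4 : Lift 2 (fun u => (C (Θ.θ u ^ 2 / 2) * X (i, (1 : Fin 3)) : P2)) :=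
    (H4b_cm (H4b_half ((H4b_θ Θ).pow 2)) (H4b_X (i, (1 : Fin 3)))).mono (by omega)
  refine H4b_congr (((h1.add h2).sub h3).sub h4) fun u => ?_
  simp only [Theta.zU, map_sub, map_add, map_mul, rename_C, rename_X]

theorem lift_xU (Θ : Theta) (i : Fin 2) :
    Lift 3 (fun u => (rename (Prod.mk i) (Θ.xU u) : P2)) := by
  have hd : (rename (Prod.mk i) (Θ.dgen 1) : P2).totalDegree ≤ 2 := by
    refine (totalDegree_rename_le _ _).trans ?_
    have e : Θ.dgen 1 = C 6 * X 0 ^ 2 + C Θ.a2 * X 0 + C Θ.a1 := by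
      simp only [Theta.dgen, Matrix.cons_val_one, Matrix.cons_val_zero]
      rfl
    rw [e]
    refine (totalDegree_add _ _).trans (max_le ((totalDegree_add _ _).trans (max_le ?_ ?_)) ?_)
    · refine (totalDegree_mul _ _).trans ?_
      rw [totalDegree_C, totalDegree_X_pow]
    · refine (totalDegree_mul _ _).trans ?_
      rw [totalDegree_C, totalDegree_X]
      omega
    · rw [totalDegree_C]
      omega
  have h1 : Lift 3 (fun u => (rename (Prod.mk i) (Θ.hU u) ^ 2 * X (i, (0 : Fin 3)) : P2)) :=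
    ((lift_hU Θ i).pow 2).mul (H4b_X (i, (0 : Fin 3)))
  have h2 : Lift 3 (fun u => (C (Θ.θ u ^ 2 / 2) * rename (Prod.mk i) (Θ.hU u) *
      rename (Prod.mk i) (Θ.dgen 1) : P2)) :=
    (H4b_cm (H4b_half ((H4b_θ Θ).pow 2)) (lift_hU Θ i)).mul (Lift.const hd)
  have h3 : Lift 3 (fun u => (C (Θ.θ u ^ 4 / 2) * X (i, (1 : Fin 3)) ^ 2 : P2)) :=
    (H4b_cm (H4b_half ((H4b_θ Θ).pow 4)) ((H4b_X (i, (1 : Fin 3))).pow 2)).mono (by omega)
  have h4 : Lift 3 (fun u => (C (Θ.θ u * nB Θ.θ u / 2) * X (i, (1 : Fin 3)) : P2)) :=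
    (H4b_cm (H4b_half ((H4b_θ Θ).mul (H4b_nB Θ))) (H4b_X (i, (1 : Fin 3)))).mono (by omega)
  refine H4b_congr (((h1.add h2).add h3).sub h4) fun u => ?_
  simp only [Theta.xU, map_sub, map_add, map_mul, map_pow, rename_C, rename_X]

/-- One factor of the cleared monomial. -/
noncomputable def H4b_fac (W : Pair) (D : ℕ) (i : Fin 2) (a b : ℕ) (u : ℂ) : P2 :=
  rename (Prod.mk i) ((W.Θ i).xU u) ^ a * rename (Prod.mk i) ((W.Θ i).zU u) ^ b *
    rename (Prod.mk i) ((W.Θ i).hU u) ^ (3 * D - 2 * a - b)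

theorem H4b_lift_fac (W : Pair) {D : ℕ} (i : Fin 2) {a b : ℕ} (ha : a < D) (hb : b < D) :
    Lift (5 * D) (H4b_fac W D i a b) :=
  ((((lift_xU (W.Θ i) i).pow a).mul ((lift_zU (W.Θ i) i).pow b)).mul
    ((lift_hU (W.Θ i) i).pow (3 * D - 2 * a - b))).mono (by omega)

theorem H4b_ev_fac (W : Pair) {D : ℕ} (i : Fin 2) {a b : ℕ} (ha : a < D) (hb : b < D)
    {p : Fin 2 → ℂ × ℂ} {u : ℂ} (hp : W.Good p) (hu : (W.Θ i).θ u ≠ 0)
    (hpu : W.Good (mv p u)) :
    W.ev2 p (H4b_fac W D i a b u) =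
      W.ev2 p (rename (Prod.mk i) ((W.Θ i).hU u)) ^ (3 * D) *
        (W.ev2 (mv p u) (X (i, 0)) ^ a * W.ev2 (mv p u) (X (i, 2)) ^ b) := by
  have hx : (W.Θ i).θ (p i).1 ≠ 0 := hp i
  have hxu : (W.Θ i).θ ((p i).1 + u) ≠ 0 := hpu i
  have e0 : W.ev2 (mv p u) (X (i, 0)) = xf (W.Θ i).θ ((p i).1 + u) := by
    have := W.ev2_rename (mv p u) i (X 0)
    rw [rename_X, Theta.ev1_X0] at this
    exact this
  have e2 : W.ev2 (mv p u) (X (i, 2)) = zt (W.Θ i).θ ((p i).1 + u) - (p i).2 := by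
    have := W.ev2_rename (mv p u) i (X 2)
    rw [rename_X, Theta.ev1_X2] at this
    exact this
  have ex := (W.Θ i).ev1_xU hx hu hxu (p i).2
  have ez := (W.Θ i).ev1_zU hx hu hxu (p i).2
  simp only [Prod.mk.eta] at ex ez
  have hk : 3 * D = 2 * a + b + (3 * D - 2 * a - b) := by omega
  simp only [H4b_fac, map_mul, map_pow, W.ev2_rename, ex, ez, e0, e2]
  generalize 3 * D - 2 * a - b = k at hk
  rw [hk, mul_pow _ (zt (W.Θ i).θ ((p i).1 + u) - (p i).2)]
  ring

theorem Pair.h4_hyp (W : Pair) {D : ℕ} (c : (Fin 2 × Fin 2 → Fin D) → ℂ) :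
    ∃ G : ℕ → P2, (∀ j, (G j).totalDegree ≤ 10 * D) ∧ ∀ j : ℕ,
      W.I2 ⊔ Ideal.span (G '' Set.Iic j) =
        W.I2 ⊔ Ideal.span ((fun i => (⇑W.D2)^[i] (auxF c)) '' Set.Iic j) := by
  have hg : Lift (10 * D) (fun u => ∑ l : Fin 2 × Fin 2 → Fin D, C (c l) *
      (H4b_fac W D 0 (l (0, 0)) (l (0, 1)) u * H4b_fac W D 1 (l (1, 0)) (l (1, 1)) u)) := by
    refine Lift.sum _ fun l _ => H4b_cm analyticAt_const ?_
    exact ((H4b_lift_fac W 0 (l (0, 0)).2 (l (0, 1)).2).mul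
      (H4b_lift_fac W 1 (l (1, 0)).2 (l (1, 1)).2)).mono (by omega)
  have hH := ((lift_hU (W.Θ 0) 0).pow (3 * D)).mul ((lift_hU (W.Θ 1) 1).pow (3 * D))
  obtain ⟨Gs, hGd, hG⟩ := hg
  obtain ⟨Hs, -, hHv⟩ := hH
  refine ⟨fun j => PowerSeries.coeff j Gs, hGd, fun j => h4_alg W.I2 _ Gs Hs ?_ ?_ j⟩
  · rw [W.mem_I2]
    intro p _
    have e := (hHv (W.val p)).2 0
    rw [coeff_zero_tay] at e
    have h1 : ∀ i : Fin 2, (W.Θ i).hU 0 = 1 := fun i => by
      have a1 : nA (W.Θ i).θ 0 = 1 := (W.Θ i).toPreTheta.nA_zero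
      have a2 : (W.Θ i).θ 0 = 0 := (W.Θ i).toPreTheta.θ_zero
      simp [Theta.hU, a1, a2]
    simp only [h1] at e
    rw [map_sub, map_one, Pair.ev2, e]
    simp
  · intro k
    rw [W.mem_I2]
    intro p hp
    obtain ⟨ag, eg⟩ := hG (W.val p)
    obtain ⟨aH, eH⟩ := hHv (W.val p)
    have hp0 : W.Good (mv p 0) := by
      rw [Pair.mv_zero]
      exact hp
    have aF := W.analyticAt_ev2 (auxF c) hp0
    have eF : PowerSeries.map (aeval (W.val p) : P2 →ₐ[ℂ] ℂ).toRingHom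
        (PowerSeries.mk fun i => ((i.factorial : ℂ)⁻¹) • (⇑W.D2)^[i] (auxF c)) =
        tay fun w => W.ev2 (mv p w) (auxF c) := by
      rw [← H4b_iff]
      intro i
      rw [PowerSeries.coeff_mk, coeff_tay, W.iteratedDeriv_ev2 _ hp0, Pair.mv_zero, map_smul,
        smul_eq_mul, Pair.ev2, div_eq_inv_mul]
    rw [H4b_iff] at eg eH
    have key : PowerSeries.map (aeval (W.val p) : P2 →ₐ[ℂ] ℂ).toRingHom Gs =
        PowerSeries.map (aeval (W.val p) : P2 →ₐ[ℂ] ℂ).toRingHom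
          (Hs * PowerSeries.mk fun i => ((i.factorial : ℂ)⁻¹) • (⇑W.D2)^[i] (auxF c)) := by
      rw [map_mul, eg, eH, eF, ← tay_mul aH aF]
      refine tay_congr ag (aH.mul aF) ?_
      filter_upwards [W.eventually_good' p 0, (W.Θ 0).toPreTheta.eventually_ne 0,
        (W.Θ 1).toPreTheta.eventually_ne 0] with u hu h0 h1
      change W.ev2 p _ = W.ev2 p _ * _
      rw [auxF, map_sum, map_sum, Finset.mul_sum]
      refine Finset.sum_congr rfl fun l _ => ?_
      rw [map_mul, map_mul, H4b_ev_fac W 0 (l (0, 0)).2 (l (0, 1)).2 hp h0 hu,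
        H4b_ev_fac W 1 (l (1, 0)).2 (l (1, 1)).2 hp h1 hu]
      simp only [monoB, Fintype.prod_prod_type, Fin.prod_univ_two, emb, map_mul, map_pow,
        Matrix.cons_val_zero, Matrix.cons_val_one, Pair.ev2, aeval_C]
      ring
    have := congrArg (PowerSeries.coeff k) key
    rw [PowerSeries.coeff_map, PowerSeries.coeff_map] at this
    rw [map_sub, sub_eq_zero]
    exact this

end Pool.Agent.E21
end
end
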