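import Pool.Agent.Work.MP_e21d36_nt.RS
import Pool.Agent.Work.MP_e21d36_nt.Sys
import Pool.Agent.Work.MP_e21d36_nt.H4b

-- merged part: Pool.Agent.Work.MP_e21d36_nt.ZMain
section
-- merged part: Pool.Agent.Work.MP_e21d36_nt.ZHil
section
/-!
# Hilbert function calculus

Plan.  `H_add`: the map from the image of `F (n+c)` in `A/J` onto its image in `A/I`
(induced by `Ideal.Quotient.factor`) is onto; its kernel contains the image `K` of `h * F n` in
`A/J`, and `K` maps ONTO the image of `F n` in `A/I'` (well defined by `hc`; or: the linear map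
`F n → A/J, a ↦ h a` has kernel inside the kernel of `F n → A/I'`, so its rank is at least
`H I' n`, use rank-nullity `LinearMap.finrank_range_add_finrank_ker` twice).
`LB.tele`: induction on `k` with `H_add` for `J = I' := I`, Pascal's rule
`Nat.choose_succ_succ`; base case `H_anti`.  `LB.add`: take `c0` with `h ∈ F c0 ≤ F (c0 * d)`
and `k0 := k1 + k2 + c0`.  `LB.bound`: `μ k^4 / 24 ≤ μ * choose (k+4) 4 ≤ c ((k+k0) d + 1)^4`
for all `k`; if `μ ≥ 24 c d^4 + 1` this fails for large `k` (compare leading terms, e.g. with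
`Nat.pow_le_choose`-type bound `k^4 ≤ 24 * choose (k+4) 4`, and a limit in the reals).
-/

namespace Pool.Agent.E21

variable {A : Type} [CommRing A] [Algebra ℂ A] (𝓕 : Filt A)

theorem ZHil_rank {B : Type} [AddCommGroup B] [Module ℂ B] (f : A →ₗ[ℂ] B) (S : Submodule ℂ A)
    [Module.Finite ℂ S] :
    Module.finrank ℂ (S.map f) + Module.finrank ℂ (S ⊓ LinearMap.ker f : Submodule ℂ A) =
      Module.finrank ℂ S := by
  have h := LinearMap.finrank_range_add_finrank_ker (f.domRestrict S)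
  rw [LinearMap.range_domRestrict, LinearMap.ker_domRestrict,
    ← Submodule.finrank_map_subtype_eq S, Submodule.map_comap_subtype] at h
  exact h

/-- dimension of the part of the ideal in the `n`-th piece -/
noncomputable def ZHil_K (I : Ideal A) (n : ℕ) : ℕ :=
  Module.finrank ℂ (𝓕.F n ⊓ I.restrictScalars ℂ : Submodule ℂ A)

theorem ZHil_ker (I : Ideal A) :
    LinearMap.ker (Ideal.Quotient.mkₐ ℂ I).toLinearMap = I.restrictScalars ℂ := by
  ext a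
  simp [Ideal.Quotient.eq_zero_iff_mem]

theorem ZHil_HK (I : Ideal A) (n : ℕ) :
    𝓕.H I n + ZHil_K 𝓕 I n = Module.finrank ℂ (𝓕.F n) := by
  have := 𝓕.fin n
  have h := ZHil_rank (Ideal.Quotient.mkₐ ℂ I).toLinearMap (𝓕.F n)
  rw [ZHil_ker] at h
  exact h

theorem ZHil_fin (n : ℕ) (S : Submodule ℂ A) : Module.Finite ℂ (𝓕.F n ⊓ S : Submodule ℂ A) := by
  have := 𝓕.fin n
  exact Submodule.finiteDimensional_of_le inf_le_left

theorem ZHil_choose (k m : ℕ) : (k + 1) ^ m ≤ m.factorial * (k + m).choose m := by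
  have h := Nat.pow_sub_le_descFactorial (k + m) m
  rw [Nat.descFactorial_eq_factorial_mul_choose, show k + m + 1 - m = k + 1 by omega] at h
  exact h

theorem ZHil_quart {k L : ℕ} (h : L ≤ k) : (k + L) ^ 4 ≤ k ^ 4 + 15 * L * k ^ 3 := by
  have h1 : L * L * (k * k) ≤ L * k * (k * k) := by gcongr
  have h2 : L * L * L * k ≤ L * k * k * k := by gcongr
  have h3 : L * L * L * L ≤ L * k * k * k := by gcongr
  nlinarith

theorem Filt.H_mono (I : Ideal A) : Monotone (𝓕.H I) := by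
  intro m n hmn
  have := 𝓕.fin n
  exact Submodule.finrank_mono (Submodule.map_mono (𝓕.mono hmn))

theorem Filt.H_anti {I I' : Ideal A} (h : I ≤ I') (n : ℕ) : 𝓕.H I' n ≤ 𝓕.H I n := by
  have h1 := ZHil_HK 𝓕 I n
  have h2 := ZHil_HK 𝓕 I' n
  have := ZHil_fin 𝓕 n (I'.restrictScalars ℂ)
  have h3 : ZHil_K 𝓕 I n ≤ ZHil_K 𝓕 I' n :=
    Submodule.finrank_mono (inf_le_inf_left _ fun a ha => h ha)
  omega

theorem Filt.H_add {J I I' : Ideal A} (hJI : J ≤ I) {h : A} {c : ℕ} (hh : h ∈ 𝓕.F c)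
    (hI : h ∈ I) (hc : ∀ a, h * a ∈ J → a ∈ I') (n : ℕ) :
    𝓕.H I (n + c) + 𝓕.H I' n ≤ 𝓕.H J (n + c) := by
  have h1 := ZHil_HK 𝓕 I (n + c)
  have h2 := ZHil_HK 𝓕 I' n
  have h3 := ZHil_HK 𝓕 J (n + c)
  have := 𝓕.fin n
  have := ZHil_fin 𝓕 n (I'.restrictScalars ℂ)
  have := ZHil_fin 𝓕 (n + c) (I.restrictScalars ℂ)
  set g : A →ₗ[ℂ] A ⧸ J := (Ideal.Quotient.mkₐ ℂ J).toLinearMap ∘ₗ LinearMap.mulLeft ℂ h with hg
  have h4 := ZHil_rank g (𝓕.F n)
  have h5 := ZHil_rank (Ideal.Quotient.mkₐ ℂ J).toLinearMap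
    (𝓕.F (n + c) ⊓ I.restrictScalars ℂ : Submodule ℂ A)
  have h6 : Module.finrank ℂ (𝓕.F n ⊓ LinearMap.ker g : Submodule ℂ A) ≤ ZHil_K 𝓕 I' n := by
    refine Submodule.finrank_mono (inf_le_inf_left _ fun a ha => hc a ?_)
    simpa [hg, Ideal.Quotient.eq_zero_iff_mem, ← map_mul] using ha
  have h7 : Module.finrank ℂ ((𝓕.F n).map g) ≤ Module.finrank ℂ
      ((𝓕.F (n + c) ⊓ I.restrictScalars ℂ : Submodule ℂ A).map
        (Ideal.Quotient.mkₐ ℂ J).toLinearMap) := by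
    refine Submodule.finrank_mono ?_
    rintro _ ⟨a, ha, rfl⟩
    refine ⟨h * a, ⟨?_, I.mul_mem_right _ hI⟩, rfl⟩
    rw [add_comm]
    exact 𝓕.mul_mem hh ha
  have h8 : (𝓕.F (n + c) ⊓ I.restrictScalars ℂ ⊓
      LinearMap.ker (Ideal.Quotient.mkₐ ℂ J).toLinearMap : Submodule ℂ A) =
      𝓕.F (n + c) ⊓ J.restrictScalars ℂ := by
    rw [ZHil_ker, inf_assoc]
    congr 1
    exact inf_eq_right.2 fun a ha => hJI ha
  rw [h8] at h5
  unfold ZHil_K at h1 h2 h3 h6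
  omega

theorem Filt.LB.anti {d : ℕ} {I I' : Ideal A} (h : I ≤ I') {m μ : ℕ}
    (hL : 𝓕.LB d I' m μ) : 𝓕.LB d I m μ := by
  obtain ⟨k0, hk⟩ := hL
  exact ⟨k0, fun k => (hk k).trans (𝓕.H_anti h _)⟩

theorem Filt.LB.zero (d : ℕ) (I : Ideal A) (m : ℕ) : 𝓕.LB d I m 0 :=
  ⟨0, fun k => by simp⟩

theorem Filt.LB.one (d : ℕ) {I : Ideal A} (hI : I ≠ ⊤) : 𝓕.LB d I 0 1 := by
  refine ⟨0, fun k => ?_⟩
  have h1 := ZHil_HK 𝓕 I ((k + 0) * d)
  have := 𝓕.fin ((k + 0) * d)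
  have h2 : ZHil_K 𝓕 I ((k + 0) * d) < Module.finrank ℂ (𝓕.F ((k + 0) * d)) := by
    refine Submodule.finrank_lt_finrank_of_lt (lt_of_le_of_ne inf_le_left fun he => hI ?_)
    have h3 : (1 : A) ∈ 𝓕.F ((k + 0) * d) := 𝓕.mono (Nat.zero_le _) 𝓕.one_mem
    rw [← he] at h3
    exact (Ideal.eq_top_iff_one I).2 h3.2
  rw [Nat.choose_zero_right]
  omega

theorem Filt.LB.tele {d : ℕ} {I I' : Ideal A} (h : I ≤ I') {f : A} (hf : f ∈ 𝓕.F d)
    (hfI : f ∈ I') (hn : Nzd I f) {m μ : ℕ} (hL : 𝓕.LB d I' m μ) :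
    𝓕.LB d I (m + 1) μ := by
  obtain ⟨k0, hk⟩ := hL
  refine ⟨k0, fun k => ?_⟩
  induction k with
  | zero =>
    have h1 := hk 0
    rw [zero_add, Nat.choose_self] at h1
    rw [zero_add (m + 1), Nat.choose_self]
    exact h1.trans (𝓕.H_anti h _)
  | succ k ih =>
    have h1 := hk (k + 1)
    have h2 := 𝓕.H_add h hf hfI hn ((k + k0) * d)
    rw [show (k + k0) * d + d = (k + 1 + k0) * d by ring] at h2
    rw [show k + 1 + (m + 1) = (k + 1 + m) + 1 by ring, Nat.choose_succ_succ, mul_add]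
    rw [show k + (m + 1) = k + 1 + m by ring] at ih
    exact (add_le_add h1 ih).trans h2

theorem Filt.LB.add {d : ℕ} (hd : 1 ≤ d) {J I I' : Ideal A} (hJI : J ≤ I) {h : A}
    (hI : h ∈ I) (hc : ∀ a, h * a ∈ J → a ∈ I') {m μ μ' : ℕ}
    (hL : 𝓕.LB d I m μ) (hL' : 𝓕.LB d I' m μ') : 𝓕.LB d J m (μ + μ') := by
  obtain ⟨k1, h1⟩ := hL
  obtain ⟨k2, h2⟩ := hL'
  obtain ⟨c0, hc0⟩ := 𝓕.exh h
  have hh : h ∈ 𝓕.F (c0 * d) := 𝓕.mono (Nat.le_mul_of_pos_right _ hd) hc0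
  refine ⟨k1 + k2 + c0, fun k => ?_⟩
  have h3 := 𝓕.H_add hJI hh hI hc ((k + k1 + k2) * d)
  rw [show (k + k1 + k2) * d + c0 * d = (k + (k1 + k2 + c0)) * d by ring] at h3
  have h4 : 𝓕.H I ((k + k1) * d) ≤ 𝓕.H I ((k + (k1 + k2 + c0)) * d) :=
    𝓕.H_mono I (Nat.mul_le_mul_right _ (by omega))
  have h5 : 𝓕.H I' ((k + k2) * d) ≤ 𝓕.H I' ((k + k1 + k2) * d) :=
    𝓕.H_mono I' (Nat.mul_le_mul_right _ (by omega))
  rw [add_mul]
  exact (add_le_add ((h1 k).trans h4) ((h2 k).trans h5)).trans h3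

theorem Filt.LB.bound {d c : ℕ} {I : Ideal A} (hH : ∀ n, 𝓕.H I n ≤ c * (n + 1) ^ 4) {μ : ℕ}
    (hd : 1 ≤ d) (hL : 𝓕.LB d I 4 μ) : μ ≤ 24 * c * d ^ 4 := by
  obtain ⟨k0, hk⟩ := hL
  by_contra hlt
  rw [not_le] at hlt
  obtain ⟨M, hM⟩ : ∃ M, M = 24 * c * d ^ 4 := ⟨_, rfl⟩
  obtain ⟨k, hkdef⟩ : ∃ k, k = 15 * M * k0 + k0 := ⟨_, rfl⟩
  rw [← hM] at hlt
  have h1 := (hk k).trans (hH _)
  have h2 := ZHil_choose k 4
  rw [show Nat.factorial 4 = 24 from rfl] at h2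
  have h3 : (k + k0) * d + 1 ≤ (k + 1 + k0) * d := by nlinarith
  have h4 : (M + 1) * (k + 1) ^ 4 ≤ M * (k + 1 + k0) ^ 4 :=
    calc (M + 1) * (k + 1) ^ 4 ≤ μ * (24 * (k + 4).choose 4) := Nat.mul_le_mul hlt h2
      _ = 24 * (μ * (k + 4).choose 4) := by ring
      _ ≤ 24 * (c * ((k + k0) * d + 1) ^ 4) := Nat.mul_le_mul_left _ h1
      _ ≤ 24 * (c * ((k + 1 + k0) * d) ^ 4) := by gcongr
      _ = M * (k + 1 + k0) ^ 4 := by rw [hM]; ring
  have h5 := Nat.mul_le_mul_left M (ZHil_quart (k := k + 1) (L := k0) (by omega))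
  have h6 : (k + 1) * (k + 1) ^ 3 ≤ (15 * M * k0) * (k + 1) ^ 3 := by nlinarith
  have h7 := Nat.le_of_mul_le_mul_right h6 (by positivity)
  omega

theorem Filt.LB.not_five {d c : ℕ} {I : Ideal A} (hH : ∀ n, 𝓕.H I n ≤ c * (n + 1) ^ 4) :
    ¬ 𝓕.LB d I 5 1 := by
  rintro ⟨k0, hk⟩
  obtain ⟨M, hM⟩ : ∃ M, M = 120 * c * ((d + 1) * (k0 + 1)) ^ 4 := ⟨_, rfl⟩
  have h1 := (hk M).trans (hH _)
  have h2 := ZHil_choose M 5
  rw [show Nat.factorial 5 = 120 from rfl] at h2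
  have h3 : (M + k0) * d + 1 ≤ (d + 1) * (k0 + 1) * (M + 1) := by
    have : (d + 1) * (k0 + 1) * (M + 1) =
        (M + k0) * d + 1 + (d * k0 * M + d + k0 * M + k0 + M) := by ring
    omega
  have h4 : (M + 1) * (M + 1) ^ 4 ≤ M * (M + 1) ^ 4 :=
    calc (M + 1) * (M + 1) ^ 4 = (M + 1) ^ 5 := by ring
      _ ≤ 120 * (1 * (M + 5).choose 5) := by rw [one_mul]; exact h2
      _ ≤ 120 * (c * ((M + k0) * d + 1) ^ 4) := Nat.mul_le_mul_left _ h1
      _ ≤ 120 * (c * ((d + 1) * (k0 + 1) * (M + 1)) ^ 4) := by gcongr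
      _ = 120 * c * ((d + 1) * (k0 + 1)) ^ 4 * (M + 1) ^ 4 := by rw [mul_pow _ (M + 1)]; ring
      _ = M * (M + 1) ^ 4 := by rw [← hM]
  have h7 := Nat.le_of_mul_le_mul_right h4 (by positivity)
  omega

end Pool.Agent.E21
end

-- merged part: Pool.Agent.Work.MP_e21d36_nt.ZFam
section
/-!
# Additivity of lower bounds over a finite family of primary-like ideals

Plan.  Induction on the finite set `P` (strong induction on the card), removing an element `p`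
that is MINIMAL for inclusion in `P` (`Finset.exists_minimal`, or a minimal element of a finite
set).  Put `I = ⨅ over P.erase p`, `J = I ⊓ q p`.  For `p' ≠ p` in `P` pick `x p' ∈ p'`,
`x p' ∉ p` (minimality), and `T` with `(x p')^T ∈ q p'`; `h = ∏ (x p')^T ∈ I`, `h ∉ p` (prime),
and `h a ∈ J` gives `a ∈ q p` by `hs`.  Apply `LB.add`.  The empty family is `LB.zero`.
`LB_points`: apply `LB_family` to the image of `S` under `t ↦ RingHom.ker t` (injective: two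
algebra maps to `ℂ` with the same kernel agree, look at `a - algebraMap (t a)`), `q p = p`,
`μ p = 1`, `LB.one`.
`LB_fibers`: apply `LB_family` to `P = S.image π` with `μ p = T * (S.filter (π · = p)).card`
and `Finset.card_eq_sum_card_image` (or `Finset.card_eq_sum_card_fiberwise`).
-/

namespace Pool.Agent.E21

variable {A : Type} [CommRing A] [Algebra ℂ A] (𝓕 : Filt A)

theorem Filt.LB_family {d : ℕ} (hd : 1 ≤ d) (m : ℕ) (P : Finset (Ideal A)) (q : Ideal A → Ideal A)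
    (μ : Ideal A → ℕ) (hP : ∀ p ∈ P, p.IsPrime)
    (hs : ∀ p ∈ P, ∀ s a, s ∉ p → s * a ∈ q p → a ∈ q p)
    (hr : ∀ p ∈ P, ∀ x ∈ p, ∃ T : ℕ, x ^ T ∈ q p)
    (hL : ∀ p ∈ P, 𝓕.LB d (q p) m (μ p)) :
    𝓕.LB d (⨅ p ∈ P, q p) m (∑ p ∈ P, μ p) := by
  classical
  induction P using Finset.strongInduction with
  | H P ih =>
    rcases P.eq_empty_or_nonempty with rfl | hne
    · rw [Finset.sum_empty]; exact Filt.LB.zero 𝓕 d _ m
    obtain ⟨p, hp, hmin⟩ := P.exists_minimal hne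
    have hx : ∀ p' ∈ P.erase p, ∃ y ∈ q p', y ∉ p := fun p' hp' => by
      obtain ⟨h1, h2⟩ := Finset.mem_erase.1 hp'
      have h3 : ¬ p' ≤ p := fun h => h1 (le_antisymm h (hmin h2 h))
      obtain ⟨x, hx1, hx2⟩ := SetLike.not_le_iff_exists.1 h3
      obtain ⟨T, hT⟩ := hr p' h2 x hx1
      exact ⟨x ^ T, hT, fun h => hx2 ((hP p hp).mem_of_pow_mem T h)⟩
    choose! y hy1 hy2 using hx
    have hI := ih (P.erase p) (Finset.erase_ssubset hp)
      (fun p' h => hP p' (Finset.mem_of_mem_erase h)) (fun p' h => hs p' (Finset.mem_of_mem_erase h))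
      (fun p' h => hr p' (Finset.mem_of_mem_erase h)) (fun p' h => hL p' (Finset.mem_of_mem_erase h))
    have := hP p hp
    have hh : ∏ p' ∈ P.erase p, y p' ∉ p := fun h => by
      obtain ⟨p', h1, h2⟩ := Ideal.IsPrime.prod_mem_iff.1 h
      exact hy2 p' h1 h2
    rw [← Finset.sum_erase_add _ _ hp]
    refine Filt.LB.add 𝓕 hd (h := ∏ p' ∈ P.erase p, y p') ?_ ?_ (fun a ha => ?_) hI (hL p hp)
    · exact le_iInf₂ fun p' h => iInf₂_le p' (Finset.mem_of_mem_erase h)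
    · simp only [Ideal.mem_iInf]
      exact fun p' h => Ideal.prod_mem _ h (hy1 p' h)
    · simp only [Ideal.mem_iInf] at ha
      exact hs p hp _ a hh (ha p hp)

theorem Filt.LB_points {d : ℕ} (hd : 1 ≤ d) (S : Finset (A →ₐ[ℂ] ℂ)) (I : Ideal A)
    (hI : ∀ t ∈ S, ∀ a ∈ I, t a = 0) : 𝓕.LB d I 0 S.card := by
  classical
  have hinj : Function.Injective fun t : A →ₐ[ℂ] ℂ => RingHom.ker t := fun t t' h => by
    ext a
    have h1 : a - algebraMap ℂ A (t a) ∈ RingHom.ker t := by simp [RingHom.mem_ker]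
    have h2 : RingHom.ker t = RingHom.ker t' := h
    rw [h2, RingHom.mem_ker, map_sub, AlgHom.commutes, sub_eq_zero] at h1
    exact h1.symm
  have hP : ∀ p ∈ S.image fun t : A →ₐ[ℂ] ℂ => RingHom.ker t, p.IsPrime := fun p hp => by
    obtain ⟨t, _, rfl⟩ := Finset.mem_image.1 hp
    exact RingHom.ker_isPrime t
  have h := 𝓕.LB_family hd 0 _ (fun p => p) (fun _ => 1) hP
    (fun p hp s a h1 h2 => ((hP p hp).mem_or_mem h2).resolve_left h1)
    (fun p _ x hx => ⟨1, by simpa using hx⟩) fun p hp => Filt.LB.one 𝓕 d (hP p hp).ne_top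
  rw [Finset.sum_const, Finset.card_image_of_injective _ hinj, smul_eq_mul, mul_one] at h
  refine Filt.LB.anti 𝓕 (le_iInf₂ fun p hp => ?_) h
  obtain ⟨t, ht, rfl⟩ := Finset.mem_image.1 hp
  exact fun a ha => hI t ht a ha

/-- Version indexed by points: every point `t` carries a prime `π t`; `S'` runs over the
subsets of `S` on which `π` is constant. -/
theorem Filt.LB_fibers {ι : Type} {d : ℕ} (hd : 1 ≤ d) (m T : ℕ) (S : Finset ι)
    (π : ι → Ideal A) (q : Ideal A → Ideal A) (hP : ∀ t ∈ S, (π t).IsPrime)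
    (hs : ∀ t ∈ S, ∀ s a, s ∉ π t → s * a ∈ q (π t) → a ∈ q (π t))
    (hr : ∀ t ∈ S, ∀ x ∈ π t, ∃ T : ℕ, x ^ T ∈ q (π t))
    (hL : ∀ t ∈ S, ∀ S' : Finset ι, S' ⊆ S → (∀ t' ∈ S', π t' = π t) →
      𝓕.LB d (q (π t)) m (T * S'.card))
    (I : Ideal A) (hI : ∀ t ∈ S, I ≤ q (π t)) : 𝓕.LB d I m (T * S.card) := by
  classical
  have h := 𝓕.LB_family hd m (S.image π) q (fun p => T * (S.filter (π · = p)).card)
    (fun p hp => by obtain ⟨t, ht, rfl⟩ := Finset.mem_image.1 hp; exact hP t ht)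
    (fun p hp => by obtain ⟨t, ht, rfl⟩ := Finset.mem_image.1 hp; exact hs t ht)
    (fun p hp => by obtain ⟨t, ht, rfl⟩ := Finset.mem_image.1 hp; exact hr t ht)
    (fun p hp => by
      obtain ⟨t, ht, rfl⟩ := Finset.mem_image.1 hp
      exact hL t ht _ (Finset.filter_subset _ _) fun t' h => (Finset.mem_filter.1 h).2)
  rw [← Finset.mul_sum, ← Finset.card_eq_sum_card_image] at h
  refine Filt.LB.anti 𝓕 (le_iInf₂ fun p hp => ?_) h
  obtain ⟨t, ht, rfl⟩ := Finset.mem_image.1 hp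
  exact hI t ht

end Pool.Agent.E21
end

-- merged part: Pool.Agent.Work.MP_e21d36_nt.ZCount
section
/-!
# Counting points on a prime

Plan.  `ch_exchange`: turn `Ch t (n+1) p` into an `LTSeries (PrimeSpectrum A)` of length `n+1`
with head `p` and last term the kernel of `t` (prove by induction on `n`: for a prime `p` with
`Ch t (n+1) p` there is such a series; in the base case `p < q ≤ ker t`; use `RelSeries.cons`),
apply `PrimeSpectrum.exist_ltSeries_mem_one_of_mem_last`, take `q` the term of index 1, and turn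
the tail back into `Ch` (a series of length `n` with last term inside the kernel gives
`Ch t n head`).
`count`: induction on `m` for all `p`, `S'`.  `m = 0`: `LB_points`.  Step: if `S'` is empty use
`LB.zero`; else `h3` (at a point of `S'`; `p` is strictly inside the kernel) gives `f`;
choose for each `t ∈ S'` a prime `π t` by `ch_exchange`; `LB_fibers` with `q = id`, `T = 1`,
`I = ⨅ t ∈ S', π t` and the induction hypothesis; then `LB.tele`.
-/

namespace Pool.Agent.E21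

variable {A : Type} [CommRing A] [Algebra ℂ A]

theorem ch_vanish (t : A →ₐ[ℂ] ℂ) (n : ℕ) (p : Ideal A) (h : Ch t n p) : ∀ a ∈ p, t a = 0 := by
  induction n generalizing p with
  | zero => exact h
  | succ n ih =>
    obtain ⟨q, -, hq, hc⟩ := h
    exact fun a ha => ih q hc a (hq.le ha)

variable [IsNoetherianRing A]

theorem ch_exchange (t : A →ₐ[ℂ] ℂ) (n : ℕ) {p : Ideal A} (hp : p.IsPrime)
    (h : Ch t (n + 1) p) {f : A} (hf : t f = 0) :
    ∃ q : Ideal A, q.IsPrime ∧ p ≤ q ∧ f ∈ q ∧ Ch t n q := by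
  induction n generalizing p with
  | zero =>
    exact ⟨RingHom.ker t, RingHom.ker_isPrime t, fun a ha => ch_vanish t _ p h a ha, hf,
      fun a ha => ha⟩
  | succ n ih =>
    obtain ⟨p1, h1, hlt, hc⟩ := h
    obtain ⟨q1, k1, k2, k3, k4⟩ := ih h1 hc
    rcases k2.eq_or_lt with rfl | k5
    · exact ⟨p1, h1, hlt.le, k3, hc⟩
    · obtain ⟨q, a1, a2, a3⟩ := PrimeSpectrum.exist_mem_one_of_mem_two (p₁ := ⟨p1, h1⟩)
        (p₀ := ⟨p, hp⟩) (p₂ := ⟨q1, k1⟩) hlt k5 k3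
      exact ⟨q.asIdeal, q.isPrime, a2.le, a1, q1, k1, a3, k4⟩

theorem Filt.count (𝓕 : Filt A) {d : ℕ} (hd : 1 ≤ d) (I0 : Ideal A) (S : Finset (A →ₐ[ℂ] ℂ))
    (h3 : ∀ t ∈ S, ∀ p : Ideal A, p.IsPrime → I0 ≤ p → (∀ a ∈ p, t a = 0) →
      (∃ a, t a = 0 ∧ a ∉ p) →
      ∃ f ∈ 𝓕.F d, f ∉ p ∧ ∀ t' ∈ S, (∀ a ∈ p, t' a = 0) → t' f = 0)
    (m : ℕ) (p : Ideal A) (hp : p.IsPrime) (hI0 : I0 ≤ p) (S' : Finset (A →ₐ[ℂ] ℂ))
    (hS : S' ⊆ S) (hch : ∀ t ∈ S', Ch t m p) : 𝓕.LB d p m S'.card := by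
  induction m generalizing p S' with
  | zero => exact 𝓕.LB_points hd S' p hch
  | succ m ih =>
    rcases S'.eq_empty_or_nonempty with rfl | ⟨t0, ht0⟩
    · exact Filt.LB.zero 𝓕 d p _
    obtain ⟨q0, -, hlt, hc⟩ := hch t0 ht0
    obtain ⟨a, ha, ha'⟩ := SetLike.exists_of_lt hlt
    obtain ⟨f, hf, hfp, hf0⟩ := h3 t0 (hS ht0) p hp hI0 (ch_vanish _ _ _ (hch t0 ht0))
      ⟨a, ch_vanish _ _ _ hc a ha, ha'⟩
    choose! π k1 k2 k3 k4 using fun t (ht : t ∈ S') => ch_exchange t m hp (hch t ht)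
      (hf0 t (hS ht) (ch_vanish _ _ _ (hch t ht)))
    have k := 𝓕.LB_fibers hd m 1 S' π id k1
      (fun t ht s a hs h => ((k1 t ht).mem_or_mem h).resolve_left hs)
      (fun t _ x hx => ⟨1, by rwa [pow_one]⟩)
      (fun t ht S'' h1 h2 => by
        rw [one_mul]
        exact ih (π t) (k1 t ht) (hI0.trans (k2 t ht)) S'' (h1.trans hS) fun t' ht' =>
          h2 t' ht' ▸ k4 t' (h1 ht'))
      (p ⊔ Ideal.span {f}) fun t ht =>
        sup_le (k2 t ht) ((Ideal.span_singleton_le_iff_mem _).2 (k3 t ht))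
    rw [one_mul] at k
    exact Filt.LB.tele 𝓕 le_sup_left hf (Ideal.mem_sup_right (Ideal.mem_span_singleton_self f))
      (fun a h => (hp.mem_or_mem h).resolve_left hfp) k

end Pool.Agent.E21
end

-- merged part: Pool.Agent.Work.MP_e21d36_nt.ZThick
section
/-!
# Differential thickening of a prime

Plan.  Use the recursion `a ∈ thick (T+1) ↔ a ∈ p ∧ D a ∈ thick T` (`mem_thick_succ`).
`thick_sat`: induction on `T` for all `a` (`D (s a) = s D a + a D s`, `a ∈ thick T` by the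
induction hypothesis since `thick (T+1) ≤ thick T`).  `pow_mem_thick`: prove
`x^T * b ∈ thick T` for all `b` by induction (`Derivation.leibniz_pow`).
`thick_key`: by induction on `k`, for all `a`: `D^[k] (g^k a) - k! (D g)^k a ∈ p`
(write `D (g^(k+1) a) = g^k ((k+1) D g a) + g^(k+1) D a`, the last term lies in `thick (k+1)`).
`LB_thick`: induction on `T` with `LB.add` (`J = thick (T+1)`, `I = thick T`, `h = g^T`,
`I' = p`); `thick 0 = ⊤` and `LB.zero`.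
-/

namespace Pool.Agent.E21

variable {A : Type} [CommRing A] [Algebra ℂ A] (D : Derivation ℂ A A)

theorem mem_thick_succ (p : Ideal A) (T : ℕ) (a : A) :
    a ∈ thick D p (T + 1) ↔ a ∈ p ∧ D a ∈ thick D p T := by
  constructor
  · intro h
    refine ⟨h 0 (Nat.succ_pos T), fun j hj => ?_⟩
    have := h (j + 1) (by omega)
    rwa [Function.iterate_succ_apply] at this
  · rintro ⟨h0, h⟩ j hj
    cases j with
    | zero => exact h0
    | succ j =>
      rw [Function.iterate_succ_apply]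
      exact h j (by omega)

theorem thick_anti (p : Ideal A) {T T' : ℕ} (h : T ≤ T') : thick D p T' ≤ thick D p T := by
  intro a ha j hj
  exact ha j (lt_of_lt_of_le hj h)

theorem thick_sat {p : Ideal A} (hp : p.IsPrime) (T : ℕ) (s a : A) (hs : s ∉ p)
    (h : s * a ∈ thick D p T) : a ∈ thick D p T := by
  induction T generalizing a with
  | zero =>
    intro j hj
    omega
  | succ T ih =>
    have h1 : a ∈ thick D p T := ih a (thick_anti D p (Nat.le_succ T) h)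
    rw [mem_thick_succ] at h ⊢
    refine ⟨(hp.mem_or_mem h.1).resolve_left hs, ih _ ?_⟩
    have h2 := h.2
    rw [Derivation.leibniz, smul_eq_mul, smul_eq_mul] at h2
    have h3 := (thick D p T).sub_mem h2 ((thick D p T).mul_mem_right (D s) h1)
    rwa [add_sub_cancel_right] at h3

theorem ZThick_der (x b : A) (T : ℕ) :
    D (x ^ (T + 1) * b) = x ^ T * (((T + 1 : ℕ) : A) * D x * b) + x ^ (T + 1) * D b := by
  rw [Derivation.leibniz, Derivation.leibniz_pow, Nat.add_sub_cancel]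
  simp only [smul_eq_mul, nsmul_eq_mul]
  ring

theorem ZThick_pow (p : Ideal A) (T : ℕ) {x : A} (hx : x ∈ p) :
    ∀ b : A, x ^ T * b ∈ thick D p T := by
  induction T with
  | zero =>
    intro b j hj
    omega
  | succ T ih =>
    intro b
    rw [mem_thick_succ]
    refine ⟨p.mul_mem_right _ (p.pow_mem_of_mem hx _ (Nat.succ_pos T)), ?_⟩
    rw [ZThick_der, pow_succ, mul_assoc (x ^ T) x]
    exact (thick D p T).add_mem (ih _) (ih _)

theorem pow_mem_thick (p : Ideal A) (T : ℕ) {x : A} (hx : x ∈ p) : x ^ T ∈ thick D p T := by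
  have := ZThick_pow D p T hx 1
  rwa [mul_one] at this

theorem thick_key {p : Ideal A} (hp : p.IsPrime) {g : A} (hg : g ∈ p) (hDg : D g ∉ p) (k : ℕ)
    (a : A) (h : g ^ k * a ∈ thick D p (k + 1)) : a ∈ p := by
  induction k generalizing a with
  | zero =>
    have := ((mem_thick_succ D p 0 _).mp h).1
    rwa [pow_zero, one_mul] at this
  | succ k ih =>
    have h2 := ((mem_thick_succ D p (k + 1) _).mp h).2
    rw [ZThick_der] at h2
    have h3 := (thick D p (k + 1)).sub_mem h2 (ZThick_pow D p (k + 1) hg (D a))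
    rw [add_sub_cancel_right] at h3
    have hu : IsUnit ((k + 1 : ℕ) : A) := by
      have h4 : IsUnit ((k + 1 : ℕ) : ℂ) := IsUnit.mk0 _ (Nat.cast_ne_zero.mpr (Nat.succ_ne_zero k))
      have h5 := h4.map (algebraMap ℂ A)
      rwa [map_natCast] at h5
    refine (hp.mem_or_mem (ih _ h3)).resolve_left fun h4 => ?_
    rcases hp.mem_or_mem h4 with h5 | h5
    · exact hp.ne_top (p.eq_top_of_isUnit_mem h5 hu)
    · exact hDg h5

theorem Filt.LB_thick (𝓕 : Filt A) {d : ℕ} (hd : 1 ≤ d) {p : Ideal A} (hp : p.IsPrime) {g : A}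
    (hg : g ∈ p) (hDg : D g ∉ p) {m μ : ℕ} (hL : 𝓕.LB d p m μ) (T : ℕ) :
    𝓕.LB d (thick D p T) m (T * μ) := by
  induction T with
  | zero =>
    rw [Nat.zero_mul]
    exact Filt.LB.zero 𝓕 d _ m
  | succ T ih =>
    rw [Nat.succ_mul]
    exact Filt.LB.add 𝓕 hd (thick_anti D p (Nat.le_succ T)) (pow_mem_thick D p T hg)
      (thick_key D hp hg hDg T) ih hL

/-- If `D` moves `J j` into `J (j+1)` and `J (j+T) ≤ p`, then `J j` lies in the thickening. -/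
theorem le_thick_of_chain (J : ℕ → Ideal A) (hmono : Monotone J)
    (hJ : ∀ j, ∀ a ∈ J j, D a ∈ J (j + 1)) (p : Ideal A) (j T : ℕ) (hp : J (j + T) ≤ p) :
    J j ≤ thick D p T := by
  intro a ha i hi
  have h : ∀ n : ℕ, (⇑D)^[n] a ∈ J (j + n) := by
    intro n
    induction n with
    | zero => exact ha
    | succ n ih =>
      rw [Function.iterate_succ_apply']
      exact hJ _ _ ih
  exact hp (hmono (by omega) (h i))

end Pool.Agent.E21
end

-- merged part: Pool.Agent.Work.MP_e21d36_nt.ZMain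
section
/-!
# The abstract zero lemma

Notation: `𝔉 j = I0 ⊔ span {D^[i] F | i ≤ j}` (monotone, `D` maps `𝔉 j` into `𝔉 (j+1)`, all
points of `S` vanish on `𝔉 j` for `j ≤ 5 T0`).  `Inv r S' J` is the invariant at level `r`.

Plan of `inv_step` (level `r ≤ 4`).  Call a prime bad if it contains `G j` for all
`j ≤ (r+1) T0`.  `B` = points `t ∈ S'` such that some associated prime of `sat t J` is bad,
`S'' = S' \ B`.
* Bad part: choose `π t` bad associated prime for `t ∈ B`.  It contains `I0` (`assP_le`,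
  `le_sat`), so by `h4` it contains `𝔉 ((r+1) T0)`, so `J ≤ 𝔉 (r T0) ≤ thick D (π t) T0`
  (`le_thick_of_chain`), and `sat t J ≤ thick D (π t) T0` by `thick_sat` and `assP_sat_vanish`.
  `ch_of_dep` gives `Ch t (4-r) (π t)`; `count` and `LB_thick` (with `h1`) give the hypothesis
  of `LB_fibers` with `q p = thick D p T0`, so `LB (⨅ t ∈ B, sat t J) (4-r) (T0 * B.card)`;
  the transfer in the invariant and `LB.bound` give `T0 * B.card ≤ 24 c d^4`.
* Good part: the finitely many associated primes of `sat t J`, `t ∈ S''`, cut proper subspaces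
  of `V = span ℂ (G '' Iic ((r+1) T0))`; pick `f ∈ V` outside all of them
  (`Subspace.biUnion_ne_univ_of_top_notMem` or `Submodule.iUnion_ssubset_of_forall_ne_top_of_card_lt`
  or a direct induction); `f ∈ F d`, `f ∈ 𝔉 ((r+1) T0)`, `nzd_of_notMem`, `dep_exchange`,
  `J' = J ⊔ span {f}`; transfer by `LB.tele` with `I = ⨅ t ∈ S''', sat t J`.
`zero_lemma`: start with `Inv 0 S I0` (`LB.anti`), apply the step five times; at level 5 a point
`t` of the remaining set gives `LB (sat t J) 0 1` (`LB.one`, `sat_vanish`), hence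
`LB I0 5 1`, impossible by `LB.not_five`.
-/

namespace Pool.Agent.E21

variable {A : Type} [CommRing A] [Algebra ℂ A]

/-- The hypotheses of the zero lemma. -/
structure ZHyp (𝓕 : Filt A) (D : Derivation ℂ A A) (I0 : Ideal A) (S : Finset (A →ₐ[ℂ] ℂ))
    (c d T0 : ℕ) (F : A) (G : ℕ → A) : Prop where
  hd : 1 ≤ d
  hH : ∀ n, 𝓕.H I0 n ≤ c * (n + 1) ^ 4
  hI0D : ∀ a ∈ I0, D a ∈ I0
  hI0S : ∀ t ∈ S, ∀ a ∈ I0, t a = 0
  hdep : ∀ t ∈ S, Dep t 4 I0
  h1 : ∀ t ∈ S, ∀ p : Ideal A, p.IsPrime → I0 ≤ p → (∀ a ∈ p, t a = 0) → F ∈ p →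
    ∃ g ∈ p, D g ∉ p
  h3 : ∀ t ∈ S, ∀ p : Ideal A, p.IsPrime → I0 ≤ p → (∀ a ∈ p, t a = 0) →
    (∃ a, t a = 0 ∧ a ∉ p) → ∃ f ∈ 𝓕.F d, f ∉ p ∧ ∀ t' ∈ S, (∀ a ∈ p, t' a = 0) → t' f = 0
  hG : ∀ j, G j ∈ 𝓕.F d
  h4 : ∀ j : ℕ, I0 ⊔ Ideal.span (G '' Set.Iic j) =
    I0 ⊔ Ideal.span ((fun i => (⇑D)^[i] F) '' Set.Iic j)
  hvan : ∀ t ∈ S, ∀ j ≤ 5 * T0, t ((⇑D)^[j] F) = 0

/-- The invariant at level `r`. -/
structure ZInv (𝓕 : Filt A) (D : Derivation ℂ A A) (I0 : Ideal A) (S : Finset (A →ₐ[ℂ] ℂ))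
    (d T0 : ℕ) (F : A) (r : ℕ) (S' : Finset (A →ₐ[ℂ] ℂ)) (J : Ideal A) : Prop where
  sub : S' ⊆ S
  low : I0 ≤ J
  up : J ≤ I0 ⊔ Ideal.span ((fun i => (⇑D)^[i] F) '' Set.Iic (r * T0))
  dep : ∀ t ∈ S', Dep t (4 - r) J
  transfer : ∀ S'' : Finset (A →ₐ[ℂ] ℂ), S'' ⊆ S' → ∀ m μ : ℕ,
    𝓕.LB d (⨅ t ∈ S'', sat t J) m μ → 𝓕.LB d I0 (m + r) μ

variable [IsNoetherianRing A] {𝓕 : Filt A} {D : Derivation ℂ A A} {I0 : Ideal A}
  {S : Finset (A →ₐ[ℂ] ℂ)} {c d T0 : ℕ} {F : A} {G : ℕ → A}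

/-- The chain of ideals generated by the derivatives of `F`. -/
def ZMain_J (D : Derivation ℂ A A) (I0 : Ideal A) (F : A) (j : ℕ) : Ideal A :=
  I0 ⊔ Ideal.span ((fun i => (⇑D)^[i] F) '' Set.Iic j)

omit [IsNoetherianRing A] in
theorem ZMain_mono : Monotone (ZMain_J D I0 F) := fun _ _ h =>
  sup_le_sup_left (Ideal.span_mono (Set.image_mono (Set.Iic_subset_Iic.2 h))) _

omit [IsNoetherianRing A] in
theorem ZMain_mem {i j : ℕ} (h : i ≤ j) : (⇑D)^[i] F ∈ ZMain_J D I0 F j :=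
  Ideal.mem_sup_right (Ideal.subset_span ⟨i, h, rfl⟩)

omit [IsNoetherianRing A] in
theorem ZMain_step (h : ∀ a ∈ I0, D a ∈ I0) (j : ℕ) :
    ∀ a ∈ ZMain_J D I0 F j, D a ∈ ZMain_J D I0 F (j + 1) := by
  intro a ha
  obtain ⟨x, hx, y, hy, rfl⟩ := Submodule.mem_sup.1 ha
  rw [map_add]
  refine Ideal.add_mem _ (Ideal.mem_sup_left (h x hx)) ?_
  clear ha
  induction hy using Submodule.span_induction with
  | mem z hz =>
    obtain ⟨i, hi, rfl⟩ := hz
    have k : (⇑D)^[i + 1] F ∈ ZMain_J D I0 F (j + 1) := ZMain_mem (Nat.succ_le_succ hi)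
    rwa [Function.iterate_succ_apply'] at k
  | zero => rw [map_zero]; exact Ideal.zero_mem _
  | add y z _ _ h1 h2 => rw [map_add]; exact Ideal.add_mem _ h1 h2
  | smul e y hy h1 =>
    rw [smul_eq_mul, Derivation.leibniz, smul_eq_mul, smul_eq_mul]
    exact Ideal.add_mem _ (Ideal.mul_mem_left _ _ h1)
      (Ideal.mul_mem_right _ _ (ZMain_mono (Nat.le_succ j) (Ideal.mem_sup_right hy)))

omit [IsNoetherianRing A] in
theorem ZMain_van (h : ZHyp 𝓕 D I0 S c d T0 F G) {t : A →ₐ[ℂ] ℂ} (ht : t ∈ S) {j : ℕ}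
    (hj : j ≤ 5 * T0) : ∀ a ∈ ZMain_J D I0 F j, t a = 0 := by
  have k : ZMain_J D I0 F j ≤ RingHom.ker t := by
    refine sup_le (fun a ha => h.hI0S t ht a ha) (Ideal.span_le.2 ?_)
    rintro _ ⟨i, hi, rfl⟩
    exact h.hvan t ht i (le_trans hi hj)
  exact fun a ha => k ha

omit [IsNoetherianRing A] in
theorem ZMain_avoid (V : Submodule ℂ A) {P : Set (Ideal A)} (hP : P.Finite)
    (h : ∀ p ∈ P, ∃ v ∈ V, v ∉ p) : ∃ f ∈ V, ∀ p ∈ P, f ∉ p := by
  have := hP.to_subtype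
  obtain ⟨f, hf⟩ := Submodule.exists_forall_notMem_of_forall_ne_top
    (fun p : P => (p.1.restrictScalars ℂ).comap V.subtype) fun p e => by
      obtain ⟨v, hv, hn⟩ := h p.1 p.2
      have k : (⟨v, hv⟩ : V) ∈ (p.1.restrictScalars ℂ).comap V.subtype := by
        rw [e]
        trivial
      exact hn k
  exact ⟨f.1, f.2, fun p hp => hf ⟨p, hp⟩⟩

theorem inv_bad (h : ZHyp 𝓕 D I0 S c d T0 F G) {r : ℕ} (hr : r ≤ 4) {S' : Finset (A →ₐ[ℂ] ℂ)}
    {J : Ideal A} (hI : ZInv 𝓕 D I0 S d T0 F r S' J) (B : Finset (A →ₐ[ℂ] ℂ)) (hB : B ⊆ S')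
    (hbad : ∀ t ∈ B, ∃ p, AssP (sat t J) p ∧ ∀ j ≤ (r + 1) * T0, G j ∈ p) :
    T0 * B.card ≤ 24 * c * d ^ 4 := by
  choose! π hπ hG using hbad
  have hP : ∀ t ∈ B, (π t).IsPrime := fun t ht => (hπ t ht).1
  have h0 : ∀ t ∈ B, I0 ≤ π t := fun t ht =>
    (hI.low.trans (le_sat t J)).trans (assP_le (hπ t ht))
  have hv : ∀ t ∈ B, ∀ a ∈ π t, t a = 0 := fun t ht => assP_sat_vanish t (hπ t ht)
  have hJ : ∀ t ∈ B, ZMain_J D I0 F (r * T0 + T0) ≤ π t := fun t ht => by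
    rw [ZMain_J, ← h.h4, ← add_one_mul]
    refine sup_le (h0 t ht) (Ideal.span_le.2 ?_)
    rintro _ ⟨j, hj, rfl⟩
    exact hG t ht j hj
  have hs : ∀ t ∈ B, sat t J ≤ thick D (π t) T0 := fun t ht a ⟨s, hs, ha⟩ =>
    thick_sat D (hP t ht) T0 s a (fun k => hs (hv t ht s k))
      (le_thick_of_chain D (ZMain_J D I0 F) ZMain_mono (ZMain_step h.hI0D) (π t) (r * T0) T0
        (hJ t ht) (hI.up ha))
  have hL : 𝓕.LB d (⨅ t ∈ B, sat t J) (4 - r) (T0 * B.card) := by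
    refine 𝓕.LB_fibers h.hd (4 - r) T0 B π (fun p => thick D p T0) hP
      (fun t ht s a => thick_sat D (hP t ht) T0 s a)
      (fun t _ x hx => ⟨T0, pow_mem_thick D _ T0 hx⟩) (fun t ht S1 h1 h2 => ?_) _
      fun t ht => (iInf₂_le t ht).trans (hs t ht)
    obtain ⟨g, hg, hDg⟩ := h.h1 t (hI.sub (hB ht)) (π t) (hP t ht) (h0 t ht) (hv t ht)
      (hJ t ht (ZMain_mem (Nat.zero_le _)))
    refine Filt.LB_thick D 𝓕 h.hd (hP t ht) hg hDg (𝓕.count h.hd I0 S h.h3 (4 - r) (π t)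
      (hP t ht) (h0 t ht) S1 ((h1.trans hB).trans hI.sub) fun t' ht' => ?_) T0
    rw [← h2 t' ht']
    exact ch_of_dep t' _ J _ (hI.dep t' (hB (h1 ht'))) (hπ t' (h1 ht'))
  have k := hI.transfer B hB _ _ hL
  rw [Nat.sub_add_cancel hr] at k
  exact Filt.LB.bound 𝓕 h.hH h.hd k

theorem inv_good (h : ZHyp 𝓕 D I0 S c d T0 F G) {r : ℕ} (hr : r ≤ 4) {S' : Finset (A →ₐ[ℂ] ℂ)}
    {J : Ideal A} (hI : ZInv 𝓕 D I0 S d T0 F r S' J) (S'' : Finset (A →ₐ[ℂ] ℂ)) (hS : S'' ⊆ S')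
    (hgood : ∀ t ∈ S'', ∀ p, AssP (sat t J) p → ∃ j ≤ (r + 1) * T0, G j ∉ p) :
    ∃ J' : Ideal A, ZInv 𝓕 D I0 S d T0 F (r + 1) S'' J' := by
  have hP : {p : Ideal A | ∃ t ∈ S'', AssP (sat t J) p}.Finite := by
    refine (S''.finite_toSet.biUnion fun t _ => assP_finite (sat t J)).subset ?_
    rintro p ⟨t, ht, hp⟩
    exact Set.mem_biUnion (Finset.mem_coe.2 ht) hp
  obtain ⟨f, hf, hn⟩ := ZMain_avoid (Submodule.span ℂ (G '' Set.Iic ((r + 1) * T0))) hP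
    fun p ⟨t, ht, hp⟩ => by
      obtain ⟨j, hj, k⟩ := hgood t ht p hp
      exact ⟨G j, Submodule.subset_span ⟨j, hj, rfl⟩, k⟩
  have f1 : f ∈ 𝓕.F d := by
    refine Submodule.span_le.2 ?_ hf
    rintro _ ⟨j, -, rfl⟩
    exact h.hG j
  have f2 : f ∈ ZMain_J D I0 F ((r + 1) * T0) := by
    rw [ZMain_J, ← h.h4]
    exact Ideal.mem_sup_right (Submodule.span_subset_span ℂ A _ hf)
  have f3 : ∀ t ∈ S'', Nzd (sat t J) f := fun t ht =>
    nzd_of_notMem _ fun p hp => hn p ⟨t, ht, hp⟩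
  refine ⟨J ⊔ Ideal.span {f}, hS.trans hI.sub, hI.low.trans le_sup_left,
    sup_le (hI.up.trans (ZMain_mono (Nat.mul_le_mul_right _ (Nat.le_succ r))))
      ((Ideal.span_singleton_le_iff_mem _).2 f2), fun t ht => ?_, fun S1 h1 m μ hL => ?_⟩
  · rcases hr.eq_or_lt with rfl | hlt
    · trivial
    · have k := hI.dep t (hS ht)
      rw [show 4 - r = 4 - (r + 1) + 1 by omega] at k
      exact dep_exchange t _ J k (ZMain_van h (hI.sub (hS ht))
        (Nat.mul_le_mul_right _ (by omega)) f f2) (f3 t ht)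
  · have k : 𝓕.LB d (⨅ t ∈ S1, sat t J) (m + 1) μ := by
      refine Filt.LB.tele 𝓕 (iInf₂_mono fun t _ => sat_mono t le_sup_left) f1 ?_ ?_ hL
      · simp only [Ideal.mem_iInf]
        exact fun t _ => le_sat t _ (Ideal.mem_sup_right (Ideal.mem_span_singleton_self f))
      · intro a
        simp only [Ideal.mem_iInf]
        exact fun ha t ht => f3 t (h1 ht) a (ha t ht)
    have k' := hI.transfer S1 (h1.trans hS) _ _ k
    rwa [add_assoc, add_comm 1 r] at k'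

theorem zero_lemma (h : ZHyp 𝓕 D I0 S c d T0 F G) : T0 * S.card ≤ 120 * c * d ^ 4 := by
  classical
  have key : ∀ r ≤ 5, ∃ S' J, ZInv 𝓕 D I0 S d T0 F r S' J ∧
      T0 * S.card ≤ T0 * S'.card + r * (24 * c * d ^ 4) := by
    intro r
    induction r with
    | zero =>
      exact fun _ => ⟨S, I0, ⟨Finset.Subset.refl _, le_rfl, le_sup_left, h.hdep,
        fun S1 _ m μ hL => Filt.LB.anti 𝓕 (le_iInf₂ fun t _ => le_sat t I0) hL⟩, by simp⟩
    | succ r ih =>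
      intro hr
      obtain ⟨S', J, hI, hc⟩ := ih (by omega)
      have b := inv_bad h (by omega) hI
        (S'.filter fun t => ∃ p, AssP (sat t J) p ∧ ∀ j ≤ (r + 1) * T0, G j ∈ p)
        (Finset.filter_subset _ _) fun t ht => (Finset.mem_filter.1 ht).2
      obtain ⟨J', hJ'⟩ := inv_good h (by omega) hI
        (S'.filter fun t => ¬ ∃ p, AssP (sat t J) p ∧ ∀ j ≤ (r + 1) * T0, G j ∈ p)
        (Finset.filter_subset _ _) fun t ht p hp => by
          by_contra k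
          refine (Finset.mem_filter.1 ht).2 ⟨p, hp, fun j hj => ?_⟩
          by_contra k'
          exact k ⟨j, hj, k'⟩
      refine ⟨_, J', hJ', ?_⟩
      rw [← Finset.card_filter_add_card_filter_not (s := S')
        (fun t => ∃ p, AssP (sat t J) p ∧ ∀ j ≤ (r + 1) * T0, G j ∈ p), mul_add] at hc
      rw [add_one_mul r (24 * c * d ^ 4)]
      omega
  obtain ⟨S', J, hI, hc⟩ := key 5 le_rfl
  rcases S'.eq_empty_or_nonempty with rfl | ⟨t, ht⟩
  · rw [Finset.card_empty, mul_zero, zero_add] at hc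
    exact hc.trans (le_of_eq (by ring))
  · refine absurd (hI.transfer {t} (Finset.singleton_subset_iff.2 ht) 0 1 ?_)
      (Filt.LB.not_five 𝓕 h.hH)
    refine Filt.LB.anti 𝓕 (iInf₂_le t (Finset.mem_singleton_self t)) (Filt.LB.one 𝓕 d fun e => ?_)
    have k := sat_vanish t (fun a ha => ZMain_van h (hI.sub ht) le_rfl a (hI.up ha)) 1
      (by rw [e]; trivial)
    simp at k

end Pool.Agent.E21
end
end

-- merged part: Pool.Agent.Work.MP_e21d36_nt.Fin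
section
-- merged part: Pool.Agent.Work.MP_e21d36_nt.HD
section
/-!
# Depth four at every good point

Plan.  For a finite set `s` of variables of `PB` and values `c`, let `σ s : PB →ₐ PB` send
`X v` to `C (c v)` for `v ∈ s` and fix the other variables; `b - σ s b` lies in
`span {X v - C (c v) | v ∈ s}` (induction on `b`).  Put
`J s = I2 ⊔ span {X (emb v) - C (c v) | v ∈ s}`.  With `nf_exists`, `nf_unique`: for a normal
form `b` of `Q`, `Q ∈ J s ↔ ∀ e, σ s (b e) = 0` (for the forward direction: the set of `Q` that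
have a normal form killed by `σ s` is an ideal containing `J s`; or write
`Q = i + ∑ (X (emb v) - C (c v)) Q_v` and take normal forms of the `Q_v`).  For `w ∉ s`,
`σ s (X w - C (c w)) = X w - C (c w) ≠ 0` and `PB` is a domain, so `X (emb w) - C (c w)` is a
non zero divisor modulo `J s`.  Then unfold `Dep` four times with `nzd_sat` and
`J s ⊔ span {X (emb w) - C (c w)} = J (insert w s)`; a clean way is an induction on `n` for the
claim: `s.card + n ≤ 4 → Dep t n (J s)`.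
-/

namespace Pool.Agent.E21

open MvPolynomial

/-- The polynomial with normal form `b`. -/
noncomputable def HD_nf (b : (Fin 2 → Fin 2) → PB) : P2 :=
  ∑ e, rename emb (b e) * ∏ i, X (i, 1) ^ (e i : ℕ)

theorem HD_nf_add (b b' : (Fin 2 → Fin 2) → PB) : HD_nf (b + b') = HD_nf b + HD_nf b' := by
  simp only [HD_nf, Pi.add_apply, map_add, add_mul, Finset.sum_add_distrib]

theorem HD_nf_sub (b b' : (Fin 2 → Fin 2) → PB) : HD_nf (b - b') = HD_nf b - HD_nf b' := by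
  simp only [HD_nf, Pi.sub_apply, map_sub, sub_mul, Finset.sum_sub_distrib]

theorem HD_nf_mul (r : PB) (b : (Fin 2 → Fin 2) → PB) :
    HD_nf (fun e => r * b e) = rename emb r * HD_nf b := by
  simp only [HD_nf, map_mul, Finset.mul_sum, mul_assoc]

theorem HD_nf_zero : HD_nf 0 = 0 := by
  simp only [HD_nf, Pi.zero_apply, map_zero, zero_mul, Finset.sum_const_zero]

/-- The ideal generated by `I2` and the image of `K`. -/
noncomputable def HD_J (W : Pair) (K : Ideal PB) : Ideal P2 :=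
  W.I2 ⊔ K.map (rename emb : PB →ₐ[ℂ] P2)

theorem HD_mem_of (W : Pair) (K : Ideal PB) {b : (Fin 2 → Fin 2) → PB} (h : ∀ e, b e ∈ K) :
    HD_nf b ∈ HD_J W K :=
  Ideal.mem_sup_right (Ideal.sum_mem _ fun e _ =>
    Ideal.mul_mem_right _ _ (Ideal.mem_map_of_mem _ (h e)))

theorem HD_of_mem (W : Pair) (K : Ideal PB) {b : (Fin 2 → Fin 2) → PB}
    (h : HD_nf b ∈ HD_J W K) : ∀ e, b e ∈ K := by
  have key : ∀ m ∈ K.map (rename emb : PB →ₐ[ℂ] P2), ∀ R : P2,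
      ∃ b' : (Fin 2 → Fin 2) → PB, (∀ e, b' e ∈ K) ∧ R * m - HD_nf b' ∈ W.I2 := by
    intro m hm
    refine Submodule.span_induction (p := fun m _ => ∀ R : P2,
      ∃ b' : (Fin 2 → Fin 2) → PB, (∀ e, b' e ∈ K) ∧ R * m - HD_nf b' ∈ W.I2) ?_ ?_ ?_ ?_ hm
    · rintro _ ⟨k, hk, rfl⟩ R
      obtain ⟨b0, hb0⟩ := W.nf_exists R
      refine ⟨fun e => k * b0 e, fun e => K.mul_mem_right _ hk, ?_⟩
      rw [HD_nf_mul, mul_comm R, ← mul_sub]
      exact W.I2.mul_mem_left _ hb0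
    · intro R
      exact ⟨0, fun _ => K.zero_mem, by rw [HD_nf_zero, mul_zero, sub_zero]; exact W.I2.zero_mem⟩
    · intro x y _ _ hx hy R
      obtain ⟨b1, h1, h1'⟩ := hx R
      obtain ⟨b2, h2, h2'⟩ := hy R
      refine ⟨b1 + b2, fun e => K.add_mem (h1 e) (h2 e), ?_⟩
      have := W.I2.add_mem h1' h2'
      rw [HD_nf_add]
      convert this using 1
      ring
    · intro a x _ hx R
      obtain ⟨b1, h1, h1'⟩ := hx (R * a)
      exact ⟨b1, h1, by rwa [smul_eq_mul, ← mul_assoc]⟩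
  obtain ⟨i, hi, m, hm, e⟩ := Submodule.mem_sup.1 h
  obtain ⟨b', h1, h2⟩ := key m hm 1
  have h3 : HD_nf (b - b') ∈ W.I2 := by
    rw [HD_nf_sub, ← e]
    convert W.I2.add_mem hi h2 using 1
    ring
  have h4 : b = b' := sub_eq_zero.1 (W.nf_unique _ h3)
  rw [h4]
  exact h1

theorem HD_nzd (W : Pair) (K : Ideal PB) {x : PB} (hx : Nzd K x) :
    Nzd (HD_J W K) (rename emb x) := by
  intro a ha
  obtain ⟨b, hb⟩ := W.nf_exists a
  have hb' : a - HD_nf b ∈ HD_J W K := Ideal.mem_sup_left hb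
  have h1 : HD_nf (fun e => x * b e) ∈ HD_J W K := by
    rw [HD_nf_mul]
    convert (HD_J W K).sub_mem ha ((HD_J W K).mul_mem_left (rename emb x) hb') using 1
    ring
  have h2 := HD_mem_of W K fun e => hx _ (HD_of_mem W K h1 e)
  simpa using (HD_J W K).add_mem hb' h2

/-- The ideal of a coordinate subspace. -/
noncomputable def HD_K (c : Fin 2 × Fin 2 → ℂ) (s : Finset (Fin 2 × Fin 2)) : Ideal PB :=
  Ideal.span ((fun v => (X v - C (c v) : PB)) '' (s : Set (Fin 2 × Fin 2)))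

theorem HD_K_nzd (c : Fin 2 × Fin 2 → ℂ) (s : Finset (Fin 2 × Fin 2)) {w : Fin 2 × Fin 2}
    (hw : w ∉ s) : Nzd (HD_K c s) (X w - C (c w)) := by
  obtain ⟨σ, hσ⟩ : ∃ σ : PB →ₐ[ℂ] PB, σ = aeval fun v => if v ∈ s then C (c v) else X v :=
    ⟨_, rfl⟩
  have hX : ∀ v, σ (X v) = if v ∈ s then C (c v) else X v := fun v => by rw [hσ, aeval_X]
  have hC : ∀ r : ℂ, σ (C r) = C r := fun r => σ.commutes r
  have h1 : ∀ b, b - σ b ∈ HD_K c s := by
    intro b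
    induction b using MvPolynomial.induction_on with
    | C r => rw [hC, sub_self]; exact Ideal.zero_mem _
    | add p q hp hq =>
      rw [map_add]
      convert (HD_K c s).add_mem hp hq using 1
      ring
    | mul_X p v hp =>
      have h2 : X v - σ (X v) ∈ HD_K c s := by
        rw [hX]
        split_ifs with hv
        · exact Ideal.subset_span ⟨v, hv, rfl⟩
        · rw [sub_self]; exact Ideal.zero_mem _
      rw [map_mul]
      convert (HD_K c s).add_mem ((HD_K c s).mul_mem_right (X v) hp)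
        ((HD_K c s).mul_mem_left (σ p) h2) using 1
      ring
  have h2 : ∀ b ∈ HD_K c s, σ b = 0 := by
    intro b hb
    have : HD_K c s ≤ RingHom.ker σ := by
      refine Ideal.span_le.2 ?_
      rintro _ ⟨v, hv, rfl⟩
      have hv' : v ∈ s := hv
      simp only [SetLike.mem_coe, RingHom.mem_ker, map_sub, hX, hC, if_pos hv', sub_self]
    exact this hb
  intro a ha
  have h3 := h2 _ ha
  rw [map_mul, map_sub, hX, hC, if_neg hw] at h3
  have h4 : (X w - C (c w) : PB) ≠ 0 := by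
    intro h0
    have := congrArg (eval fun _ => c w + 1) h0
    simp at this
  have h5 := h1 a
  rwa [(mul_eq_zero.1 h3).resolve_left h4, sub_zero] at h5

theorem HD_dep (W : Pair) (p : Fin 2 → ℂ × ℂ) (n : ℕ) : ∀ s : Finset (Fin 2 × Fin 2),
    s.card + n ≤ 4 → Dep (W.ev2 p) n (HD_J W (HD_K (fun v => W.val p (emb v)) s)) := by
  induction n with
  | zero => intro _ _; trivial
  | succ n ih =>
    intro s hs
    obtain ⟨w, hw⟩ : ∃ w, w ∉ s := by
      by_contra hc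
      push Not at hc
      have := Finset.card_le_card (fun w _ => hc w : Finset.univ ⊆ s)
      simp only [Finset.card_univ, Fintype.card_prod, Fintype.card_fin] at this
      omega
    refine ⟨rename emb (X w - C (W.val p (emb w))), ?_,
      nzd_sat _ (HD_nzd W _ (HD_K_nzd _ s hw)), ?_⟩
    · simp [Pair.ev2]
    · have h1 := ih (insert w s) (by rw [Finset.card_insert_of_notMem hw]; omega)
      convert h1 using 1
      simp only [HD_J, HD_K, Finset.coe_insert, Set.image_insert_eq]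
      rw [Ideal.span_insert, Ideal.map_sup, Ideal.map_span _ {_}, Set.image_singleton, sup_assoc,
        sup_comm (Ideal.span _)]

theorem Pair.dep_four (W : Pair) (p : Fin 2 → ℂ × ℂ) : Dep (W.ev2 p) 4 W.I2 := by
  have h := HD_dep W p 4 ∅ (by simp)
  simpa [HD_J, HD_K] using h

end Pool.Agent.E21
end

-- merged part: Pool.Agent.Work.MP_e21d36_nt.H3b
section
/-!
# A prime without polynomials in `X` stays proper over the meromorphic functions

Plan.  `common_field`: `K0 = FractionRing ℂ[X]` (or `RatFunc ℂ`) maps to both fields by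
`IsFractionRing.lift` of the injective maps `aeval x`, `aeval x'`
(`transcendental_iff_injective`); with these algebra structures the tensor product
`E ⊗[K0] E'` is a nontrivial ring; divide by a maximal ideal (`Ideal.exists_maximal`,
`Ideal.Quotient.field`), and take `Algebra.TensorProduct.includeLeftRingHom` and `includeRight`.
`map_rho_ne_top`: `E = FractionRing (P1 ⧸ 𝔭)`, `x, y, ζ` the images of the variables; `x` is
transcendental by `hX`.  `common_field` for `Mer ∋ xM` and `E ∋ x` gives `φ`, `ψ`.  The relation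
`Y^2 = 4X^3 + ...` lies in `I1` (`mem_I1`, `ode`), so `(φ yM)^2 = (ψ y)^2` (`yM_sq`); replacing
`φ` by `φ ∘ rf` if needed (`rf_xM`, `rf_yM`) we get `φ yM = ψ y`.  The ring map
`Polynomial.eval₂RingHom φ (φ zM - ψ ζ)` composed with `rho` equals `ψ` composed with the
quotient map (`MvPolynomial.ringHom_ext`), so it kills `Ideal.map rho 𝔭`, which is then proper.
-/

namespace Pool.Agent.E21

open scoped TensorProduct in
theorem H3b_push {K E E' : Type} [Field K] [Field E] [Field E'] (f : K →+* E) (f' : K →+* E') :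
    ∃ (Ω : Type) (_ : Field Ω) (φ : E →+* Ω) (ψ : E' →+* Ω), ∀ k, φ (f k) = ψ (f' k) := by
  letI := f.toAlgebra
  letI := f'.toAlgebra
  haveI : Nontrivial (E ⊗[K] E') := inferInstance
  obtain ⟨m, hm⟩ := Ideal.exists_maximal (E ⊗[K] E')
  refine ⟨(E ⊗[K] E') ⧸ m, Ideal.Quotient.field m,
    (Ideal.Quotient.mk m).comp Algebra.TensorProduct.includeLeftRingHom,
    (Ideal.Quotient.mk m).comp Algebra.TensorProduct.includeRight.toRingHom, fun k => ?_⟩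
  exact congrArg (Ideal.Quotient.mk m)
    (RingHom.congr_fun Algebra.TensorProduct.includeLeftRingHom_comp_algebraMap k)

theorem common_field {E E' : Type} [Field E] [Field E'] [Algebra ℂ E] [Algebra ℂ E'] (x : E)
    (x' : E') (hx : Transcendental ℂ x) (hx' : Transcendental ℂ x') :
    ∃ (Ω : Type) (_ : Field Ω) (φ : E →+* Ω) (ψ : E' →+* Ω), φ x = ψ x' ∧
      ∀ c : ℂ, φ (algebraMap ℂ E c) = ψ (algebraMap ℂ E' c) := by
  have h1 : Function.Injective (Polynomial.aeval x : Polynomial ℂ →ₐ[ℂ] E).toRingHom :=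
    transcendental_iff_injective.1 hx
  have h2 : Function.Injective (Polynomial.aeval x' : Polynomial ℂ →ₐ[ℂ] E').toRingHom :=
    transcendental_iff_injective.1 hx'
  obtain ⟨Ω, _, φ, ψ, h⟩ := H3b_push
    (IsFractionRing.lift (K := FractionRing (Polynomial ℂ)) h1)
    (IsFractionRing.lift (K := FractionRing (Polynomial ℂ)) h2)
  have h3 : ∀ p : Polynomial ℂ, φ (Polynomial.aeval x p) = ψ (Polynomial.aeval x' p) := fun p => by
    have := h (algebraMap _ _ p)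
    rwa [IsFractionRing.lift_algebraMap, IsFractionRing.lift_algebraMap] at this
  refine ⟨Ω, inferInstance, φ, ψ, ?_, fun c => ?_⟩
  · simpa using h3 Polynomial.X
  · simpa using h3 (Polynomial.C c)

theorem H3b_E (𝔭 : Ideal P1) (hp : 𝔭.IsPrime) :
    ∃ (E : Type) (_ : Field E) (_ : Algebra ℂ E) (π : P1 →ₐ[ℂ] E), ∀ Q, π Q = 0 ↔ Q ∈ 𝔭 :=
  ⟨𝔭.ResidueField, inferInstance, inferInstance, IsScalarTower.toAlgHom ℂ P1 𝔭.ResidueField,
    fun _ => Ideal.algebraMap_residueField_eq_zero⟩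

theorem H3b_fin (Θ : Theta) (𝔭 : Ideal P1) {E Ω : Type} [Field E] [Algebra ℂ E] [Field Ω]
    (π : P1 →ₐ[ℂ] E) (hπ : ∀ Q ∈ 𝔭, π Q = 0) (φ : Mer →+* Ω) (ψ : E →+* Ω)
    (h0 : φ Θ.xM = ψ (π (MvPolynomial.X 0))) (h1 : φ Θ.yM = ψ (π (MvPolynomial.X 1)))
    (hc : ∀ c : ℂ, φ (algebraMap ℂ Mer c) = ψ (algebraMap ℂ E c)) : Ideal.map Θ.rho 𝔭 ≠ ⊤ := by
  have e : (Polynomial.eval₂RingHom φ (φ Θ.zM - ψ (π (MvPolynomial.X 2)))).comp
      Θ.rho.toRingHom = ψ.comp π.toRingHom := by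
    refine MvPolynomial.ringHom_ext (fun c => ?_) fun i => ?_
    · have e1 : Θ.rho (MvPolynomial.C c) = Polynomial.C (algebraMap ℂ Mer c) := Θ.rho.commutes c
      have e2 : π (MvPolynomial.C c) = algebraMap ℂ E c := π.commutes c
      change Polynomial.eval₂ φ _ (Θ.rho (MvPolynomial.C c)) = ψ (π (MvPolynomial.C c))
      rw [e1, e2, Polynomial.eval₂_C, hc]
    · change Polynomial.eval₂ φ _ (Θ.rho (MvPolynomial.X i)) = ψ (π (MvPolynomial.X i))
      rw [Theta.rho, MvPolynomial.aeval_X]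
      fin_cases i
      · exact (Polynomial.eval₂_C _ _).trans h0
      · exact (Polynomial.eval₂_C _ _).trans h1
      · change Polynomial.eval₂ φ _ (Polynomial.C Θ.zM - Polynomial.X) = ψ (π (MvPolynomial.X 2))
        rw [Polynomial.eval₂_sub, Polynomial.eval₂_C, Polynomial.eval₂_X, sub_sub_cancel]
  refine ne_top_of_le_ne_top (RingHom.ker_ne_top
    (Polynomial.eval₂RingHom φ (φ Θ.zM - ψ (π (MvPolynomial.X 2))))) ?_
  rw [Ideal.map_le_iff_le_comap]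
  intro Q hQ
  rw [Ideal.mem_comap, RingHom.mem_ker]
  refine (RingHom.congr_fun e Q).trans ?_
  change ψ (π Q) = 0
  rw [hπ Q hQ, map_zero]

theorem Theta.map_rho_ne_top (Θ : Theta) (𝔭 : Ideal P1) (hp : 𝔭.IsPrime) (hI : Θ.I1 ≤ 𝔭)
    (hX : ∀ r : Polynomial ℂ, Polynomial.aeval (MvPolynomial.X 0 : P1) r ∈ 𝔭 → r = 0) :
    Ideal.map Θ.rho 𝔭 ≠ ⊤ := by
  obtain ⟨E, _, _, π, hπ⟩ := H3b_E 𝔭 hp
  have ht : Transcendental ℂ (π (MvPolynomial.X 0)) := by
    rw [transcendental_iff]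
    intro r hr
    rw [Polynomial.aeval_algHom_apply] at hr
    exact hX r ((hπ _).1 hr)
  obtain ⟨Ω, _, φ, ψ, h0, hc⟩ := common_field Θ.xM _ Θ.xM_transcendental ht
  have hr : (MvPolynomial.X 1 ^ 2 - (4 * MvPolynomial.X 0 ^ 3 +
      MvPolynomial.C Θ.a2 * MvPolynomial.X 0 ^ 2 + MvPolynomial.C (2 * Θ.a1) * MvPolynomial.X 0 +
      MvPolynomial.C Θ.a0) : P1) ∈ Θ.I1 := by
    rw [Θ.mem_I1]
    intro q hq
    simp only [map_sub, map_add, map_mul, map_pow, map_ofNat, Θ.ev1_X0, Θ.ev1_X1, Θ.ev1_C]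
    rw [Θ.ode q.1 hq, sub_self]
  have eC : ∀ c : ℂ, π (MvPolynomial.C c) = algebraMap ℂ E c := π.commutes
  have h1 := (hπ _).2 (hI hr)
  rw [map_sub, sub_eq_zero, map_add, map_add, map_add, map_mul, map_mul, map_mul, eC, eC, eC,
    map_pow, map_pow, map_pow, map_ofNat] at h1
  have h2 : φ Θ.yM ^ 2 = ψ (π (MvPolynomial.X 1)) ^ 2 := by
    rw [← map_pow, ← map_pow, Θ.yM_sq, h1]
    simp only [map_add φ, map_mul φ, map_pow φ, map_ofNat φ, map_add ψ, map_mul ψ, map_pow ψ,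
      map_ofNat ψ, h0, hc]
  rcases sq_eq_sq_iff_eq_or_eq_neg.1 h2 with h3 | h3
  · exact H3b_fin Θ 𝔭 π (fun Q hQ => (hπ Q).2 hQ) φ ψ h0 h3 hc
  · refine H3b_fin Θ 𝔭 π (fun Q hQ => (hπ Q).2 hQ) (φ.comp rf.toRingHom) ψ ?_ ?_ fun c => ?_
    · change φ (rf Θ.xM) = _
      rw [Θ.rf_xM, h0]
    · change φ (rf Θ.yM) = _
      rw [Θ.rf_yM, map_neg, h3, neg_neg]
    · change φ (rf (algebraMap ℂ Mer c)) = _
      rw [rf.commutes, hc]

end Pool.Agent.E21
end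

-- merged part: Pool.Agent.Work.MP_e21d36_nt.H3c
section
/-!
# The translates of a polynomial of small degree have no common root

Plan.  `few_points`: a finite set of points off the lattice, pairwise inequivalent, on which
`xf` takes values among the roots of `r`: each fibre of `xf` has at most two points
(`xf_eq_iff`: if `x, y, w` have the same value and are pairwise inequivalent then `x + y` and
`x + w` are lattice points, so `y - w` is), `Finset.card_le_mul_card_image`,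
`Polynomial.card_roots'`.
`reg_of_quasi`: the set of non regular points is invariant under `ω/N`, `ω'/N` (`hasVal_sh`);
from one such point get `N^2` pairwise inequivalent ones (`lat_inj`, `zero_iff`), at most one
of them on the lattice; `N^2 ≤ 2N + 1` is false for `N ≥ 3`.
`span_tw_eq_top`: the ideal `𝔍` is principal (`Polynomial Mer` over a field), nonzero
(`k = l = 0`, `tw_zero`, `rho_box`), generated by a monic `g`.  `tw (ω/N) 0` and
`tw (ω'/N) (-ν/N)` map `𝔍` into itself (`tw_tw`), keep monic and the degree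
(`Monic.comp_X_add_C`-type lemmas, `natDegree_comp`), so they fix `g`.  If `μ = natDegree g ≥ 1`
then `c = g.nextCoeff` has `sh (ω/N) c = c`, `sh (ω'/N) c = c + μ ν / N`.  As `g` divides
`rho Q0`, `c` is regular at every `z` with `θ z ≠ 0`, `r (xf z) ≠ 0`: divide `rho Q0` by its
leading coefficient, lift it to `(locR z)[X]` (`rho_coeff_reg`, `HasVal.inv`,
`Polynomial.lifts_and_natDegree_eq_and_monic`), `Polynomial.isIntegral_coeff_of_dvd`,
`mem_locR_of_isIntegral`.  `reg_of_quasi` and `quasi_zero` give `μ ν / N = 0`, false.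
-/

namespace Pool.Agent.E21

namespace Theta

variable (Θ : Theta)

theorem H3c_sub {a b : ℂ} (ha : Θ.θ a = 0) (hb : Θ.θ b = 0) : Θ.θ (a - b) = 0 := by
  obtain ⟨k, l, rfl⟩ := (Θ.zero_iff a).1 ha
  obtain ⟨k', l', rfl⟩ := (Θ.zero_iff b).1 hb
  exact (Θ.zero_iff _).2 ⟨k - k', l - l', by push_cast; ring⟩

theorem few_points (r : Polynomial ℂ) (hr : r ≠ 0) (s : Finset ℂ)
    (h1 : ∀ x ∈ s, Θ.θ x ≠ 0 ∧ r.eval (xf Θ.θ x) = 0)
    (h2 : ∀ x ∈ s, ∀ y ∈ s, Θ.θ (x - y) = 0 → x = y) : s.card ≤ 2 * r.natDegree := by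
  classical
  have h3 : s.card ≤ 2 * r.roots.toFinset.card := by
    refine Finset.card_le_mul_card_image_of_maps_to (f := xf Θ.θ) (fun x hx => ?_) 2 fun b _ => ?_
    · rw [Multiset.mem_toFinset, Polynomial.mem_roots hr]
      exact (h1 x hx).2
    · by_contra hlt
      obtain ⟨x, hx, y, hy, w, hw, hxy, hxw, hyw⟩ := Finset.two_lt_card.1 (not_le.1 hlt)
      rw [Finset.mem_filter] at hx hy hw
      have e1 := ((Θ.xf_eq_iff (h1 x hx.1).1 (h1 y hy.1).1).1 (hx.2.trans hy.2.symm)).resolve_right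
        fun h => hxy (h2 x hx.1 y hy.1 h)
      have e2 := ((Θ.xf_eq_iff (h1 x hx.1).1 (h1 w hw.1).1).1 (hx.2.trans hw.2.symm)).resolve_right
        fun h => hxw (h2 x hx.1 w hw.1 h)
      have e3 := Θ.H3c_sub e1 e2
      rw [add_sub_add_left_eq_sub] at e3
      exact hyw (h2 y hy.1 w hw.1 e3)
  exact h3.trans (Nat.mul_le_mul_left 2 ((Multiset.toFinset_card_le _).trans r.card_roots'))

theorem H3c_int {N k k' : ℕ} (hk : k < N) (hk' : k' < N) {a : ℤ}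
    (h : ((k : ℝ) - k') / N - a = 0) : k = k' := by
  have hN : (N : ℝ) ≠ 0 := Nat.cast_ne_zero.2 (by omega)
  have h1 : (k : ℝ) - k' = a * N := by rwa [sub_eq_zero, div_eq_iff hN] at h
  have h2 : (k : ℤ) - k' = a * N := by exact_mod_cast h1
  have h3 : a = 0 := by
    by_contra ha
    rcases lt_or_gt_of_ne ha with ha | ha <;> nlinarith
  rw [h3, zero_mul] at h2
  omega

theorem H3c_sep {N : ℕ} (z : ℂ) {κ κ' : ℕ × ℕ} (hκ : κ ∈ Finset.range N ×ˢ Finset.range N)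
    (hκ' : κ' ∈ Finset.range N ×ˢ Finset.range N)
    (h : Θ.θ ((z + κ.1 * (Θ.ω / N) + κ.2 * (Θ.ω' / N)) -
      (z + κ'.1 * (Θ.ω / N) + κ'.2 * (Θ.ω' / N))) = 0) : κ = κ' := by
  simp only [Finset.mem_product, Finset.mem_range] at hκ hκ'
  obtain ⟨a, b, e⟩ := (Θ.zero_iff _).1 h
  obtain ⟨e1, e2⟩ := Θ.lat_inj (((κ.1 : ℝ) - κ'.1) / N - a) (((κ.2 : ℝ) - κ'.2) / N - b) (by
    push_cast
    linear_combination e)
  exact Prod.ext (H3c_int hκ.1 hκ'.1 e1) (H3c_int hκ.2 hκ'.2 e2)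

theorem H3c_bad {c : Mer} {a c1 : ℂ} (h : sh a c = c + algebraMap ℂ Mer c1) (k : ℕ) (z : ℂ)
    (hz : ∃ v, HasVal c (z + k * a) v) : ∃ v, HasVal c z v := by
  induction k with
  | zero => simpa using hz
  | succ k ih =>
    obtain ⟨v, hv⟩ := hz
    have e : z + ((k + 1 : ℕ) : ℂ) * a = z + k * a + a := by push_cast; ring
    rw [e, ← hasVal_sh, h] at hv
    have h' := hv.sub (hasVal_const c1 _)
    rw [add_sub_cancel_right] at h'
    exact ih ⟨_, h'⟩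

theorem reg_of_quasi {N : ℕ} (hN : 3 ≤ N) (r : Polynomial ℂ) (hr : r ≠ 0) (hd : r.natDegree ≤ N)
    (c : Mer) (c1 : ℂ) (h0 : sh (Θ.ω / N) c = c)
    (h1 : sh (Θ.ω' / N) c = c + algebraMap ℂ Mer c1)
    (hreg : ∀ z, Θ.θ z ≠ 0 → r.eval (xf Θ.θ z) ≠ 0 → ∃ v, HasVal c z v) (z : ℂ) :
    ∃ v, HasVal c z v := by
  classical
  by_contra hz
  let p : ℕ × ℕ → ℂ := fun κ => z + κ.1 * (Θ.ω / N) + κ.2 * (Θ.ω' / N)
  have hbad : ∀ κ, ¬∃ v, HasVal c (p κ) v := fun κ h =>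
    hz (H3c_bad (c1 := 0) (by rw [h0, map_zero, add_zero]) κ.1 z (H3c_bad h1 κ.2 _ h))
  let T := Finset.range N ×ˢ Finset.range N
  have hT : T.card = N * N := by simp [T]
  have hA : (T.filter fun κ => Θ.θ (p κ) = 0).card ≤ 1 := by
    refine Finset.card_le_one.2 fun κ hκ κ' hκ' => ?_
    rw [Finset.mem_filter] at hκ hκ'
    exact Θ.H3c_sep z hκ.1 hκ'.1 (Θ.H3c_sub hκ.2 hκ'.2)
  have hB : (T.filter fun κ => ¬Θ.θ (p κ) = 0).card ≤ 2 * r.natDegree := by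
    rw [← Finset.card_image_of_injOn (f := p) fun κ hκ κ' hκ' e =>
      Θ.H3c_sep z (Finset.mem_filter.1 hκ).1 (Finset.mem_filter.1 hκ').1 (by
        change Θ.θ (p κ - p κ') = 0
        rw [e, sub_self]
        exact Θ.θ_zero)]
    refine Θ.few_points r hr _ (fun x hx => ?_) fun x hx y hy e => ?_
    · obtain ⟨κ, hκ, rfl⟩ := Finset.mem_image.1 hx
      have h2 := (Finset.mem_filter.1 hκ).2
      exact ⟨h2, by_contra fun h3 => hbad κ (hreg _ h2 h3)⟩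
    · obtain ⟨κ, hκ, rfl⟩ := Finset.mem_image.1 hx
      obtain ⟨κ', hκ', rfl⟩ := Finset.mem_image.1 hy
      rw [Θ.H3c_sep z (Finset.mem_filter.1 hκ).1 (Finset.mem_filter.1 hκ').1 e]
  have hC := Finset.card_filter_add_card_filter_not (s := T) fun κ => Θ.θ (p κ) = 0
  nlinarith

open Polynomial in
theorem H3c_taylor {F : Type} [Field F] {f : F[X]} (hf : f.Monic) {n : ℕ}
    (hn : f.natDegree = n + 1) (t : F) : (taylor t f).coeff n = f.coeff n + (n + 1) * t := by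
  have h1 : (hasseDeriv n f).natDegree ≤ 1 := (natDegree_hasseDeriv_le f n).trans (by omega)
  have h2 : f.coeff (1 + n) = 1 := by rw [add_comm, ← hn]; exact hf.coeff_natDegree
  rw [taylor_coeff, eq_X_add_C_of_natDegree_le_one h1, hasseDeriv_coeff, hasseDeriv_coeff, h2,
    zero_add, Nat.choose_self, add_comm 1 n, Nat.choose_succ_self_right]
  simp only [eval_add, eval_mul, eval_C, eval_X]
  push_cast
  ring

open Polynomial in
theorem H3c_fix {g : Mer[X]} (hg : g.Monic) {n : ℕ} (hn : g.natDegree = n + 1) {a σ : ℂ}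
    (h : g ∣ tw a σ g) :
    sh a (g.coeff n) = g.coeff n + algebraMap ℂ Mer (-((n + 1) * σ)) := by
  have e : tw a σ g = taylor (algebraMap ℂ Mer σ) (g.map (sh a).toRingHom) := rfl
  have hm : (g.map (sh a).toRingHom).Monic := hg.map _
  have hd : (g.map (sh a).toRingHom).natDegree = n + 1 := by rw [hg.natDegree_map, hn]
  have hm' : (tw a σ g).Monic := by
    rw [e, Monic, leadingCoeff_taylor]
    exact hm
  have h1 := eq_of_monic_of_dvd_of_natDegree_le hg hm' h (by rw [e, natDegree_taylor, hd, hn])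
  have h2 := H3c_taylor hm hd (algebraMap ℂ Mer σ)
  rw [← e, h1, coeff_map] at h2
  rw [map_neg, map_mul, map_add, map_natCast, map_one]
  change (sh a).toRingHom (g.coeff n) = _
  linear_combination -h2

open Polynomial in
theorem H3c_reg {Q0 : P1} {r : ℂ[X]} (hl : (Θ.rho Q0).leadingCoeff = aeval Θ.xM r)
    (hne : Θ.rho Q0 ≠ 0) {g : Mer[X]} (hg : g.Monic) (hdvd : g ∣ Θ.rho Q0) (i : ℕ) (z : ℂ)
    (hz : Θ.θ z ≠ 0) (hr : r.eval (xf Θ.θ z) ≠ 0) : ∃ v, HasVal (g.coeff i) z v := by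
  have hv : HasVal (Θ.rho Q0).leadingCoeff⁻¹ z (r.eval (xf Θ.θ z))⁻¹ := by
    refine HasVal.inv ?_ hr
    rw [hl, ← coe_aeval_eq_eval]
    exact hasVal_aeval_poly (Θ.hasVal_xM hz) r
  have hlift : Θ.rho Q0 * C (Θ.rho Q0).leadingCoeff⁻¹ ∈ lifts (algebraMap (locR z) Mer) := by
    refine (lifts_iff_coeff_lifts _).2 fun n => ?_
    obtain ⟨v, hv'⟩ := Θ.rho_coeff_reg Q0 hz n
    exact ⟨⟨_, _, hv'.mul hv⟩, (coeff_mul_C _ _ _).symm⟩
  obtain ⟨q, hq, -, hqm⟩ := lifts_and_natDegree_eq_and_monic hlift (monic_mul_leadingCoeff_inv hne)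
  exact mem_locR_of_isIntegral z _
    (isIntegral_coeff_of_dvd q g hqm hg (by rw [hq]; exact hdvd.mul_right _) i)

theorem H3c_map {ι : Type} (A S : ι → ℂ) (f0 : Polynomial Mer) {a σ : ℂ}
    (h : ∀ κ, ∃ κ', A κ' = a + A κ ∧ S κ' = σ + S κ) {f : Polynomial Mer}
    (hf : f ∈ Ideal.span (Set.range fun κ => tw (A κ) (S κ) f0)) :
    tw a σ f ∈ Ideal.span (Set.range fun κ => tw (A κ) (S κ) f0) := by
  have h1 : Ideal.span (Set.range fun κ => tw (A κ) (S κ) f0) ≤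
      (Ideal.span (Set.range fun κ => tw (A κ) (S κ) f0)).comap (tw a σ) := by
    rw [Ideal.span_le]
    rintro _ ⟨κ, rfl⟩
    obtain ⟨κ', h1, h2⟩ := h κ
    rw [SetLike.mem_coe, Ideal.mem_comap, tw_tw, ← h1, ← h2]
    exact Ideal.subset_span ⟨κ', rfl⟩
  exact Ideal.mem_comap.1 (h1 hf)

theorem H3c_gen {N : ℕ} (hN : 3 ≤ N) {Q0 : P1} (h : Q0 ∈ boxXZ N) (h0 : Q0 ≠ 0)
    (J : Ideal (Polynomial Mer)) (hmem : Θ.rho Q0 ∈ J) (m0 : ∀ f ∈ J, tw (Θ.ω / N) 0 f ∈ J)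
    (m1 : ∀ f ∈ J, tw (Θ.ω' / N) (-(Θ.ν / N)) f ∈ J) : J = ⊤ := by
  obtain ⟨r, hr, hd, hl⟩ := Θ.rho_box h h0
  have hne : Θ.rho Q0 ≠ 0 := by
    intro e
    rw [e, Polynomial.leadingCoeff_zero] at hl
    exact Θ.xM_transcendental ⟨r, hr, hl.symm⟩
  obtain ⟨g, hg, rfl⟩ := Polynomial.exists_monic_span J fun e => hne (by
    rw [e] at hmem
    exact Ideal.mem_bot.1 hmem)
  have hgJ := Ideal.mem_span_singleton_self g
  rcases Nat.eq_zero_or_eq_succ_pred g.natDegree with hn | hn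
  · rw [hg.natDegree_eq_zero.1 hn, Ideal.span_singleton_one]
  exfalso
  generalize g.natDegree.pred = n at hn
  have hN0 : (N : ℂ) ≠ 0 := Nat.cast_ne_zero.2 (by omega)
  have e0 := H3c_fix hg hn (Ideal.mem_span_singleton.1 (m0 g hgJ))
  have e1 := H3c_fix hg hn (Ideal.mem_span_singleton.1 (m1 g hgJ))
  rw [mul_zero, neg_zero, map_zero, add_zero] at e0
  have hreg := Θ.reg_of_quasi hN r hr hd _ _ e0 e1
    (Θ.H3c_reg hl hne hg (Ideal.mem_span_singleton.1 hmem) n)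
  have him : (Θ.ω' / N / (Θ.ω / N)).im ≠ 0 := by
    rw [div_div_div_cancel_right₀ hN0]
    exact Θ.him
  have hz := (quasi_zero him _ hreg e0 e1).1
  have hn1 : (n : ℂ) + 1 ≠ 0 := by exact_mod_cast Nat.succ_ne_zero n
  exact neg_ne_zero.2 (mul_ne_zero hn1 (neg_ne_zero.2 (div_ne_zero Θ.hν hN0))) hz

theorem span_tw_eq_top {N : ℕ} (hN : 3 ≤ N) {Q0 : P1} (h : Q0 ∈ boxXZ N) (h0 : Q0 ≠ 0) :
    Ideal.span (Set.range fun κ : ℤ × ℤ =>
      tw (((κ.1 : ℂ) * Θ.ω + (κ.2 : ℂ) * Θ.ω') / N) (-((κ.2 : ℂ) * Θ.ν / N)) (Θ.rho Q0)) = ⊤ := by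
  refine Θ.H3c_gen hN h h0 _ (Ideal.subset_span ⟨(0, 0), ?_⟩)
    (fun f hf => H3c_map _ _ _ (fun κ => ⟨(κ.1 + 1, κ.2), ?_, ?_⟩) hf)
    fun f hf => H3c_map _ _ _ (fun κ => ⟨(κ.1, κ.2 + 1), ?_, ?_⟩) hf
  · have e1 : (((0 : ℤ) : ℂ) * Θ.ω + ((0 : ℤ) : ℂ) * Θ.ω') / N = 0 := by simp
    have e2 : -(((0 : ℤ) : ℂ) * Θ.ν / N) = 0 := by simp
    beta_reduce
    rw [e1, e2, tw_zero]
  all_goals
    push_cast
    ring

end Theta

end Pool.Agent.E21
end

-- merged part: Pool.Agent.Work.MP_e21d36_nt.H3d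
section
/-!
# Hypothesis (H3): cutting a prime by a polynomial of degree `5 N` through the points

Plan.  `no_poly_X`: if a nonzero `r(X)` lies in `𝔭`, then some `X - x0` does (`ℂ` is
algebraically closed: `IsAlgClosed.splits`, `Ideal.IsPrime.multiset_prod_mem_iff_exists_mem`,
or induction on the degree), so both points have `X = x0`; then
`(Y - y)(Y + y) ∈ 𝔭` with `y` the `Y` of the first point (the Weierstrass relation is in `I1`),
and in both cases the two points have the same `Y`; `pt_sep`.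
`h3_one`: `Q0` from `exists_box_vanish`.  For `κ = (k, l)` put `u = (kω + lω')/N`,
`σ = -(lν/N)`.  If `θ u ≠ 0` take `Q κ` from `exists_translate`; it vanishes at all points
(`pt N k0 l0 + (u, σ) = pt N (k0+k) (l0+l)`, `pt_good`).  If `θ u = 0` then `N ∣ k`, `N ∣ l`
(`zero_iff`, `lat_inj`) and `tw u σ (rho Q0) = rho Q0` (`tw_lat`); take `Q κ = Q0`.  If all `Q κ`
were in `𝔭`, then by `rho_translate`, `rho_hU` all `tw u σ (rho Q0)` lie in `Ideal.map rho 𝔭`,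
so `span_tw_eq_top` contradicts `map_rho_ne_top`.
`h3_hyp`: if `ptF κ0` is the only index whose point vanishes on `𝔭`: some `X v - C (val v)` is
not in `𝔭` (else every `a - C (ev2 a)` is in `𝔭`, by induction on `a`), take it.  Otherwise
pick `κ ≠ κ0`, a factor `i` with `κ i ≠ κ0 i`, apply `h3_one` to
`𝔭.comap (rename (Prod.mk i))` (`rename_mem_I2`, `ev2_rename`, `totalDegree_rename_le`).
-/

namespace Pool.Agent.E21

open MvPolynomial

theorem H3d_linear (𝔭 : Ideal P1) (hp : 𝔭.IsPrime) (r : Polynomial ℂ) (h0 : r ≠ 0)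
    (hr : Polynomial.aeval (X 0 : P1) r ∈ 𝔭) : ∃ x0 : ℂ, (X 0 - C x0 : P1) ∈ 𝔭 := by
  have hs : r.Splits := IsAlgClosed.splits r
  have hf := hs.eq_prod_roots
  rw [hf, map_mul, map_multiset_prod, Multiset.map_map] at hr
  rcases hp.mem_or_mem hr with h | h
  · exfalso
    have hu : IsUnit (Polynomial.aeval (X 0 : P1) (Polynomial.C r.leadingCoeff)) := by
      refine IsUnit.map _ (Polynomial.isUnit_C.2 ?_)
      exact isUnit_iff_ne_zero.2 (Polynomial.leadingCoeff_ne_zero.2 h0)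
    exact hp.ne_top (Ideal.eq_top_of_isUnit_mem _ h hu)
  · obtain ⟨a, ha, hm⟩ := (hp.multiset_prod_mem_iff_exists_mem _).1 h
    obtain ⟨x0, -, rfl⟩ := Multiset.mem_map.1 ha
    refine ⟨x0, ?_⟩
    simpa using hm

theorem Theta.no_poly_X (Θ : Theta) {N : ℕ} (hN : Odd N) (𝔭 : Ideal P1) (hp : 𝔭.IsPrime)
    (hI : Θ.I1 ≤ 𝔭) {k l k' l' : ℤ} (h1 : ∀ a ∈ 𝔭, Θ.ev1 (Θ.pt N k l) a = 0)
    (h2 : ∀ a ∈ 𝔭, Θ.ev1 (Θ.pt N k' l') a = 0)
    (hne : ¬ ((N : ℤ) ∣ k - k' ∧ (N : ℤ) ∣ l - l')) (r : Polynomial ℂ)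
    (hr : Polynomial.aeval (X 0 : P1) r ∈ 𝔭) : r = 0 := by
  by_contra h0
  obtain ⟨x0, hx0⟩ := H3d_linear 𝔭 hp r h0 hr
  have e1 : xf Θ.θ (Θ.pt N k l).1 = x0 := by
    have := h1 _ hx0
    rw [map_sub, Θ.ev1_X0, Θ.ev1_C] at this
    exact sub_eq_zero.1 this
  have e2 : xf Θ.θ (Θ.pt N k' l').1 = x0 := by
    have := h2 _ hx0
    rw [map_sub, Θ.ev1_X0, Θ.ev1_C] at this
    exact sub_eq_zero.1 this
  set y : ℂ := yf Θ.θ (Θ.pt N k l).1 with hy
  have hode : y ^ 2 = 4 * x0 ^ 3 + Θ.a2 * x0 ^ 2 + 2 * Θ.a1 * x0 + Θ.a0 := by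
    rw [hy, ← e1]
    exact Θ.ode _ (Θ.pt_good hN k l)
  have hrel : (X 1 ^ 2 - (4 * X 0 ^ 3 + C Θ.a2 * X 0 ^ 2 + 2 * C Θ.a1 * X 0 + C Θ.a0) : P1) ∈
      Θ.I1 := by
    rw [Θ.mem_I1]
    intro q hq
    have := Θ.ode _ hq
    simp only [map_sub, map_add, map_mul, map_pow, Θ.ev1_X0, Θ.ev1_X1, Θ.ev1_C, map_ofNat]
    exact sub_eq_zero.2 this
  have hC : (C y : P1) ^ 2 =
      4 * C x0 ^ 3 + C Θ.a2 * C x0 ^ 2 + 2 * C Θ.a1 * C x0 + C Θ.a0 := by
    have := congrArg (C : ℂ → P1) hode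
    simpa only [map_add, map_mul, map_pow, map_ofNat] using this
  have hprod : ((X 1 - C y) * (X 1 + C y) : P1) ∈ 𝔭 := by
    have e : ((X 1 - C y) * (X 1 + C y) : P1) =
        (X 1 ^ 2 - (4 * X 0 ^ 3 + C Θ.a2 * X 0 ^ 2 + 2 * C Θ.a1 * X 0 + C Θ.a0)) +
          (4 * (X 0 ^ 2 + X 0 * C x0 + C x0 ^ 2) + C Θ.a2 * (X 0 + C x0) + 2 * C Θ.a1) *
            (X 0 - C x0) := by
      linear_combination (-1 : P1) * hC
    rw [e]
    exact 𝔭.add_mem (hI hrel) (𝔭.mul_mem_left _ hx0)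
  apply hne
  refine Θ.pt_sep hN (e1.trans e2.symm) ?_
  rcases hp.mem_or_mem hprod with h | h
  · have := h2 _ h
    rw [map_sub, Θ.ev1_X1, Θ.ev1_C] at this
    exact (sub_eq_zero.1 this).symm
  · have a1 := h1 _ h
    have a2 := h2 _ h
    rw [map_add, Θ.ev1_X1, Θ.ev1_C] at a1 a2
    rw [← hy] at a1 ⊢
    linear_combination a1 - a2

theorem H3d_pt_add (Θ : Theta) (N : ℕ) (k0 l0 k l : ℤ) :
    ((Θ.pt N k0 l0).1 + ((k : ℂ) * Θ.ω + (l : ℂ) * Θ.ω') / N,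
      (Θ.pt N k0 l0).2 + -((l : ℂ) * Θ.ν / N)) = Θ.pt N (k0 + k) (l0 + l) := by
  unfold Theta.pt
  ext
  · simp only [Int.cast_add]; ring
  · simp only [Int.cast_add]; ring

theorem H3d_lat (Θ : Theta) {N : ℕ} (h3 : 3 ≤ N) (k l : ℤ)
    (h : Θ.θ (((k : ℂ) * Θ.ω + (l : ℂ) * Θ.ω') / N) = 0) (Q : P1) :
    tw (((k : ℂ) * Θ.ω + (l : ℂ) * Θ.ω') / N) (-((l : ℂ) * Θ.ν / N)) (Θ.rho Q) = Θ.rho Q := by
  obtain ⟨a, b, hab⟩ := (Θ.zero_iff _).1 h
  have hN : (N : ℂ) ≠ 0 := by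
    have : N ≠ 0 := by omega
    exact_mod_cast this
  have hz := Θ.lat_inj ((k : ℝ) - N * a) ((l : ℝ) - N * b) (by
    push_cast
    field_simp at hab
    linear_combination hab)
  have hl : (l : ℂ) = N * b := by
    have h2 : (l : ℝ) = N * b := sub_eq_zero.1 hz.2
    have h3 : l = N * b := by exact_mod_cast h2
    rw [h3]; push_cast; ring
  have e : -((l : ℂ) * Θ.ν / N) = -((b : ℂ) * Θ.ν) := by
    rw [hl]; field_simp
  rw [e, hab]
  exact Θ.tw_lat a b Q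

theorem Theta.h3_one (Θ : Theta) {N : ℕ} (hN : Odd N) (h3 : 3 ≤ N) (𝔭 : Ideal P1)
    (hp : 𝔭.IsPrime) (hI : Θ.I1 ≤ 𝔭) {k l k' l' : ℤ} (h1 : ∀ a ∈ 𝔭, Θ.ev1 (Θ.pt N k l) a = 0)
    (h2 : ∀ a ∈ 𝔭, Θ.ev1 (Θ.pt N k' l') a = 0)
    (hne : ¬ ((N : ℤ) ∣ k - k' ∧ (N : ℤ) ∣ l - l')) :
    ∃ f : P1, f.totalDegree ≤ 5 * N ∧ f ∉ 𝔭 ∧ ∀ k l : ℤ, Θ.ev1 (Θ.pt N k l) f = 0 := by
  obtain ⟨Q0, hb, h0, hv⟩ := Θ.exists_box_vanish hN
  have hX := Θ.no_poly_X hN 𝔭 hp hI h1 h2 hne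
  have hne' := Θ.map_rho_ne_top 𝔭 hp hI hX
  by_contra hcon
  have hall : ∀ f : P1, f.totalDegree ≤ 5 * N → (∀ k l : ℤ, Θ.ev1 (Θ.pt N k l) f = 0) →
      f ∈ 𝔭 := by
    intro f hd hz
    by_contra hf
    exact hcon ⟨f, hd, hf, hz⟩
  apply hne'
  rw [eq_top_iff, ← Θ.span_tw_eq_top h3 hb h0, Ideal.span_le]
  rintro _ ⟨⟨a, b⟩, rfl⟩
  show tw (((a : ℂ) * Θ.ω + (b : ℂ) * Θ.ω') / N) (-((b : ℂ) * Θ.ν / N)) (Θ.rho Q0) ∈
    Ideal.map Θ.rho 𝔭
  by_cases hu : Θ.θ (((a : ℂ) * Θ.ω + (b : ℂ) * Θ.ω') / N) = 0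
  · rw [H3d_lat Θ h3 a b hu]
    refine Ideal.mem_map_of_mem _ (hall Q0 ?_ hv)
    exact (Theta.totalDegree_box hb).trans (by omega)
  · obtain ⟨Q, hd, hQ⟩ := Θ.exists_translate hb hu (-((b : ℂ) * Θ.ν / N))
    have hQp : Q ∈ 𝔭 := by
      refine hall Q hd fun k0 l0 => ?_
      have e := H3d_pt_add Θ N k0 l0 a b
      have g : Θ.θ ((Θ.pt N k0 l0).1 + ((a : ℂ) * Θ.ω + (b : ℂ) * Θ.ω') / N) ≠ 0 := by
        have := Θ.pt_good hN (k0 + a) (l0 + b)
        rw [← e] at this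
        exact this
      have := hQ (Θ.pt N k0 l0).1 (Θ.pt N k0 l0).2 (Θ.pt_good hN k0 l0) g
      rw [e, hv, mul_zero] at this
      exact this
    have hr := Θ.rho_translate hQ
    obtain ⟨m, hm, hm'⟩ := Θ.rho_hU hu
    have hmem : Θ.rho Q ∈ Ideal.map Θ.rho 𝔭 := Ideal.mem_map_of_mem _ hQp
    rw [hr, hm'] at hmem
    have hunit : IsUnit (Polynomial.C m ^ (3 * N)) :=
      (Polynomial.isUnit_C.2 (isUnit_iff_ne_zero.2 hm)).pow _
    exact (Ideal.unit_mul_mem_iff_mem _ hunit).1 hmem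

theorem H3d_sub_mem (W : Pair) (p : Fin 2 → ℂ × ℂ) (𝔭 : Ideal P2)
    (h : ∀ v, (X v - C (W.val p v) : P2) ∈ 𝔭) (a : P2) : a - C (W.ev2 p a) ∈ 𝔭 := by
  induction a using MvPolynomial.induction_on with
  | C c => simp [Pair.ev2]
  | add a b ha hb =>
    have e : a + b - C (W.ev2 p (a + b)) = (a - C (W.ev2 p a)) + (b - C (W.ev2 p b)) := by
      rw [map_add, map_add]; ring
    rw [e]
    exact 𝔭.add_mem ha hb
  | mul_X a v ha =>
    have e0 : W.ev2 p (X v) = W.val p v := by simp [Pair.ev2]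
    have e : a * X v - C (W.ev2 p (a * X v)) =
        X v * (a - C (W.ev2 p a)) + C (W.ev2 p a) * (X v - C (W.val p v)) := by
      rw [map_mul, map_mul, e0]; ring
    rw [e]
    exact 𝔭.add_mem (𝔭.mul_mem_left _ ha) (𝔭.mul_mem_left _ (h v))

theorem H3d_fin {N : ℕ} {a b : Fin N} (h : (N : ℤ) ∣ ((a : ℕ) : ℤ) - ((b : ℕ) : ℤ)) : a = b := by
  have ha := a.2
  have hb := b.2
  have := Int.eq_zero_of_abs_lt_dvd h (by rw [abs_lt]; omega)
  ext
  omega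

theorem Pair.h3_hyp (W : Pair) {N : ℕ} (hN : Odd N) (h3 : 3 ≤ N) (κ0 : Fin 2 → Fin N × Fin N)
    (𝔭 : Ideal P2) (hp : 𝔭.IsPrime) (hI : W.I2 ≤ 𝔭) (hv : ∀ a ∈ 𝔭, W.ev2 (W.ptF N κ0) a = 0)
    (hne : ∃ a, W.ev2 (W.ptF N κ0) a = 0 ∧ a ∉ 𝔭) :
    ∃ f : P2, f.totalDegree ≤ 5 * N ∧ f ∉ 𝔭 ∧ ∀ κ : Fin 2 → Fin N × Fin N,
      (∀ a ∈ 𝔭, W.ev2 (W.ptF N κ) a = 0) → W.ev2 (W.ptF N κ) f = 0 := by
  by_cases huniq : ∀ κ : Fin 2 → Fin N × Fin N, (∀ a ∈ 𝔭, W.ev2 (W.ptF N κ) a = 0) → κ = κ0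
  · have hex : ∃ v, (X v - C (W.val (W.ptF N κ0) v) : P2) ∉ 𝔭 := by
      by_contra hc
      have hc' : ∀ v, (X v - C (W.val (W.ptF N κ0) v) : P2) ∈ 𝔭 := fun v => by
        by_contra h
        exact hc ⟨v, h⟩
      obtain ⟨a, ha, ha'⟩ := hne
      have := H3d_sub_mem W _ 𝔭 hc' a
      rw [ha, map_zero, sub_zero] at this
      exact ha' this
    obtain ⟨v, hv'⟩ := hex
    refine ⟨_, ?_, hv', fun κ hκ => ?_⟩
    · refine (totalDegree_sub _ _).trans ?_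
      rw [totalDegree_X, totalDegree_C]
      exact max_le (by omega) (by omega)
    · rw [huniq κ hκ]
      simp [Pair.ev2]
  · have hex : ∃ κ : Fin 2 → Fin N × Fin N, (∀ a ∈ 𝔭, W.ev2 (W.ptF N κ) a = 0) ∧ κ ≠ κ0 := by
      by_contra hc
      exact huniq fun κ hκ => by
        by_contra h
        exact hc ⟨κ, hκ, h⟩
    obtain ⟨κ, hκ, hκ0⟩ := hex
    obtain ⟨i, hi⟩ := Function.ne_iff.1 hκ0
    let φ : P1 →+* P2 := (rename (Prod.mk i) : P1 →ₐ[ℂ] P2).toRingHom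
    have hφ : ∀ a, φ a = rename (Prod.mk i) a := fun _ => rfl
    have hq : (𝔭.comap φ).IsPrime := Ideal.IsPrime.comap φ
    have hev : ∀ (κ' : Fin 2 → Fin N × Fin N) (a : P1), W.ev2 (W.ptF N κ') (φ a) =
        (W.Θ i).ev1 ((W.Θ i).pt N (((κ' i).1 : ℕ) : ℤ) (((κ' i).2 : ℕ) : ℤ)) a := by
      intro κ' a
      rw [hφ, W.ev2_rename]
      rfl
    obtain ⟨f, hd, hf, hz⟩ := (W.Θ i).h3_one hN h3 (𝔭.comap φ) hq
      (fun a ha => hI (W.rename_mem_I2 i ha))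
      (k := (((κ i).1 : ℕ) : ℤ)) (l := (((κ i).2 : ℕ) : ℤ))
      (k' := (((κ0 i).1 : ℕ) : ℤ)) (l' := (((κ0 i).2 : ℕ) : ℤ))
      (fun a ha => by rw [← hev]; exact hκ _ ha) (fun a ha => by rw [← hev]; exact hv _ ha)
      (fun h => hi (Prod.ext (H3d_fin h.1) (H3d_fin h.2)))
    refine ⟨φ f, ?_, hf, fun κ' _ => ?_⟩
    · exact (totalDegree_rename_le _ _).trans hd
    · rw [hev, hz]

end Pool.Agent.E21
end

-- merged part: Pool.Agent.Work.MP_e21d36_nt.ZEst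
section
/-!
# The zero estimate, and separation of the points

Plan.  `zero_est`: apply `zero_lemma` with `degF`, `D2`, `I2`,
`S = univ.image (fun κ => ev2 (ptF N κ))` (card `N^4` by `ptF_inj`), `c = 324`, `d = 10 D`,
`F = auxF c = rename emb (auxB c)`, `G` from `h4_hyp`; `hilbert_bound`, `D2_mem_I2`, `mem_I2`,
`ptF_good`, `dep_four`, `h1_hyp`, `auxB_eq_zero`, `h3_hyp` (`5 N ≤ 10 D`).
`sep_one`: the set of functions `g` on the index set with `∑ g κ * v κ = 0` is a subspace that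
contains the values of `r(X) * Y^e` for `natDegree r < N^2`.  For a fixed `κ0` take
`r = ∏ (X - x)` over the values `x ≠ X(κ0)` of `X` (at most `N^2 - 1` of them), times `1` if
`Y(κ0) = 0` and times `Y + Y(κ0)` otherwise; by `ode` equal `X` gives `Y = ± Y(κ0)`, and
`pt_sep_fin` shows that this function vanishes off `κ0` and not at `κ0`.
`sep_two`: write the sum over `Fin 2 → Fin N × Fin N` as a double sum
(`piFinTwoEquiv` / `Fintype.sum_equiv (finTwoArrowEquiv _)`, `Fintype.sum_prod_type`) and apply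
`sep_one` twice.
-/

namespace Pool.Agent.E21

open MvPolynomial

theorem ZEst_sep {ι : Type} [Fintype ι] (x y v : ι → ℂ) {M : ℕ} (hM : Fintype.card ι ≤ M)
    (hsq : ∀ k l, x k = x l → y k ^ 2 = y l ^ 2) (hinj : ∀ k l, x k = x l → y k = y l → k = l)
    (h : ∀ (a : Fin M) (e : Fin 2), ∑ k, x k ^ (a : ℕ) * y k ^ (e : ℕ) * v k = 0) : v = 0 := by
  classical
  have hA : ∀ r : Polynomial ℂ, r.natDegree < M → ∀ e : Fin 2,
      ∑ k, r.eval (x k) * y k ^ (e : ℕ) * v k = 0 := by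
    intro r hr e
    have e1 : ∀ k, r.eval (x k) * y k ^ (e : ℕ) * v k =
        ∑ a : Fin M, r.coeff a * (x k ^ (a : ℕ) * y k ^ (e : ℕ) * v k) := by
      intro k
      rw [Polynomial.eval_eq_sum_range' hr, Finset.sum_range, Finset.sum_mul, Finset.sum_mul]
      exact Finset.sum_congr rfl fun a _ => by ring
    simp only [e1]
    rw [Finset.sum_comm]
    exact Finset.sum_eq_zero fun a _ => by rw [← Finset.mul_sum, h, mul_zero]
  funext k0
  set s := Finset.univ.filter fun k => x k ≠ x k0 with hs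
  set r : Polynomial ℂ := ∏ k ∈ s, (Polynomial.X - Polynomial.C (x k)) with hr
  have hdeg : r.natDegree < M := by
    rw [hr, Polynomial.natDegree_finsetProd_X_sub_C_eq_card]
    refine lt_of_lt_of_le ?_ hM
    exact Finset.card_lt_card (Finset.ssubset_univ_iff.2 fun he => by
      have : k0 ∈ s := he ▸ Finset.mem_univ k0
      simp [hs] at this)
  have hr0 : r.eval (x k0) ≠ 0 := by
    rw [hr, Polynomial.eval_prod]
    refine Finset.prod_ne_zero_iff.2 fun k hk => ?_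
    simpa [sub_eq_zero] using (Finset.mem_filter.1 hk).2.symm
  have hr1 : ∀ k, x k ≠ x k0 → r.eval (x k) = 0 := by
    intro k hk
    rw [hr, Polynomial.eval_prod]
    exact Finset.prod_eq_zero (Finset.mem_filter.2 ⟨Finset.mem_univ k, hk⟩) (by simp)
  have h0 := hA r hdeg 0
  have h1 := hA r hdeg 1
  simp only [Fin.val_zero, Fin.val_one, pow_zero, pow_one, mul_one] at h0 h1
  have hneg : ∀ k, k ≠ k0 → x k = x k0 → y k = -y k0 := fun k hk hx =>
    (sq_eq_sq_iff_eq_or_eq_neg.1 (hsq k k0 hx)).resolve_left fun hy => hk (hinj k k0 hx hy)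
  by_cases hy : y k0 = 0
  · rw [Finset.sum_eq_single k0 ?_ (by simp)] at h0
    · exact (mul_eq_zero.1 h0).resolve_left hr0
    · intro k _ hk
      by_cases hx : x k = x k0
      · exact absurd (hinj k k0 hx (by rw [hneg k hk hx, hy, neg_zero])) hk
      · rw [hr1 k hx, zero_mul]
  · have h2 : ∑ k, r.eval (x k) * (y k + y k0) * v k = 0 := by
      have : ∑ k, r.eval (x k) * (y k + y k0) * v k =
          ∑ k, r.eval (x k) * y k * v k + y k0 * ∑ k, r.eval (x k) * v k := by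
        rw [Finset.mul_sum, ← Finset.sum_add_distrib]
        exact Finset.sum_congr rfl fun k _ => by ring
      rw [this, h0, h1, mul_zero, add_zero]
    rw [Finset.sum_eq_single k0 ?_ (by simp)] at h2
    · exact (mul_eq_zero.1 h2).resolve_left (mul_ne_zero hr0 (by rwa [ne_eq, add_self_eq_zero]))
    · intro k _ hk
      by_cases hx : x k = x k0
      · rw [hneg k hk hx, neg_add_cancel, mul_zero, zero_mul]
      · rw [hr1 k hx, zero_mul, zero_mul]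

theorem ZEst_mu (W : Pair) (p : Fin 2 → ℂ × ℂ) {M : ℕ} (a : Fin 2 → Fin M) (e : Fin 2 → Fin 2) :
    W.ev2 p (muM a e) = xf (W.Θ 0).θ (p 0).1 ^ (a 0 : ℕ) * yf (W.Θ 0).θ (p 0).1 ^ (e 0 : ℕ) *
      (xf (W.Θ 1).θ (p 1).1 ^ (a 1 : ℕ) * yf (W.Θ 1).θ (p 1).1 ^ (e 1 : ℕ)) := by
  unfold muM Pair.ev2
  rw [Fin.prod_univ_two]
  simp only [map_mul, map_pow, aeval_X]
  rfl

theorem Pair.zero_est (W : Pair) {N D T0 : ℕ} (hN : Odd N) (h3 : 3 ≤ N) (hD : N ≤ D)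
    (c : (Fin 2 × Fin 2 → Fin D) → ℂ) (hc : c ≠ 0)
    (hT : 120 * 324 * (10 * D) ^ 4 < T0 * N ^ 4) :
    ∃ κ : Fin 2 → Fin N × Fin N, ∃ j ≤ 5 * T0,
      W.ev2 (W.ptF N κ) ((⇑W.D2)^[j] (auxF c)) ≠ 0 := by
  classical
  by_contra hcon
  push Not at hcon
  obtain ⟨G, hG, h4⟩ := W.h4_hyp c
  have hB : auxB c ≠ 0 := fun h => hc (auxB_eq_zero c h)
  have hz : ZHyp (degF (Fin 2 × Fin 3)) W.D2 W.I2
      (Finset.univ.image fun κ : Fin 2 → Fin N × Fin N => W.ev2 (W.ptF N κ)) 324 (10 * D) T0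
      (auxF c) G :=
    { hd := by omega
      hH := W.hilbert_bound
      hI0D := fun a ha => W.D2_mem_I2 ha
      hI0S := by
        intro t ht a ha
        obtain ⟨κ, -, rfl⟩ := Finset.mem_image.1 ht
        exact (W.mem_I2 a).1 ha _ (W.ptF_good hN κ)
      hdep := by
        intro t ht
        obtain ⟨κ, -, rfl⟩ := Finset.mem_image.1 ht
        exact W.dep_four _
      h1 := by
        intro t ht p _ _ hv hF
        obtain ⟨κ, -, rfl⟩ := Finset.mem_image.1 ht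
        exact W.h1_hyp (W.ptF_good hN κ) hB p hv (auxF_eq c ▸ hF)
      h3 := by
        intro t ht p hp hI hv hne
        obtain ⟨κ, -, rfl⟩ := Finset.mem_image.1 ht
        obtain ⟨f, hf, hfp, hf'⟩ := W.h3_hyp hN h3 κ p hp hI hv hne
        refine ⟨f, (mem_restrictTotalDegree _ _ _).2 (by omega), hfp, fun t' ht' => ?_⟩
        obtain ⟨κ', -, rfl⟩ := Finset.mem_image.1 ht'
        exact hf' κ'
      hG := fun j => (mem_restrictTotalDegree _ _ _).2 (hG j)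
      h4 := h4
      hvan := by
        intro t ht j hj
        obtain ⟨κ, -, rfl⟩ := Finset.mem_image.1 ht
        exact hcon κ j hj }
  have h := zero_lemma hz
  rw [Finset.card_image_of_injective _ (W.ptF_inj hN), Finset.card_univ, Fintype.card_fun,
    Fintype.card_prod, Fintype.card_fin, Fintype.card_fin, show (N * N) ^ 2 = N ^ 4 by ring] at h
  omega

theorem Theta.sep_one (Θ : Theta) {N : ℕ} (hN : Odd N) (v : Fin N × Fin N → ℂ)
    (h : ∀ (a : Fin (N ^ 2)) (e : Fin 2), ∑ κ : Fin N × Fin N,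
      xf Θ.θ (Θ.pt N (κ.1 : ℕ) (κ.2 : ℕ)).1 ^ (a : ℕ) *
        yf Θ.θ (Θ.pt N (κ.1 : ℕ) (κ.2 : ℕ)).1 ^ (e : ℕ) * v κ = 0) : v = 0 := by
  refine ZEst_sep (fun κ : Fin N × Fin N => xf Θ.θ (Θ.pt N (κ.1 : ℕ) (κ.2 : ℕ)).1)
    (fun κ => yf Θ.θ (Θ.pt N (κ.1 : ℕ) (κ.2 : ℕ)).1) v (by simp [pow_two]) (fun k l hx => ?_)
    (fun k l hx hy => Θ.pt_sep_fin hN hx hy) h
  rw [Θ.ode _ (Θ.pt_good hN _ _), Θ.ode _ (Θ.pt_good hN _ _), hx]

theorem Pair.sep_two (W : Pair) {N : ℕ} (hN : Odd N) (Q : P2)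
    (h : ∀ (a : Fin 2 → Fin (N ^ 2)) (e : Fin 2 → Fin 2), W.Tr N (muM a e * Q) = 0)
    (κ : Fin 2 → Fin N × Fin N) : W.ev2 (W.ptF N κ) Q = 0 := by
  have h1 : ∀ (a1 : Fin (N ^ 2)) (e1 : Fin 2), (fun k0 : Fin N × Fin N => ∑ k1 : Fin N × Fin N,
      xf (W.Θ 1).θ ((W.Θ 1).pt N (k1.1 : ℕ) (k1.2 : ℕ)).1 ^ (a1 : ℕ) *
        yf (W.Θ 1).θ ((W.Θ 1).pt N (k1.1 : ℕ) (k1.2 : ℕ)).1 ^ (e1 : ℕ) *
          W.ev2 (W.ptF N ![k0, k1]) Q) = 0 := by
    intro a1 e1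
    refine (W.Θ 0).sep_one hN _ fun a0 e0 => ?_
    refine Eq.trans ?_ (h ![a0, a1] ![e0, e1])
    rw [Pair.Tr, ← Equiv.sum_comp (finTwoArrowEquiv (Fin N × Fin N)).symm
      (fun κ => W.ev2 (W.ptF N κ) (muM ![a0, a1] ![e0, e1] * Q))]
    conv_rhs => rw [Fintype.sum_prod_type]
    refine Finset.sum_congr rfl fun k0 _ => ?_
    rw [Finset.mul_sum]
    refine Finset.sum_congr rfl fun k1 _ => ?_
    rw [map_mul, ZEst_mu, ← mul_assoc]
    rfl
  have h2 := (W.Θ 1).sep_one hN (fun k1 => W.ev2 (W.ptF N ![κ 0, k1]) Q)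
    fun a1 e1 => congrFun (h1 a1 e1) (κ 0)
  have h3 := congrFun h2 (κ 1)
  have e : ![κ 0, κ 1] = κ := by
    funext i
    fin_cases i <;> rfl
  rwa [e] at h3

end Pool.Agent.E21
end

-- merged part: Pool.Agent.Work.MP_e21d36_nt.FAux
section
/-!
# The auxiliary polynomial and the smallness of the traces

Plan.  `exists_aux`: `C1 = 2 m`; `E = Fin (n^16) × (Fin 2 → Fin ((n^8)^2)) × (Fin 2 → Fin 2)` has
`4 n^48` elements, `Λ` has `16 m^4 n^48 ≥ 4 m * 4 n^48` elements; `rep_cond` (with `C2 = 1`),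
`siegel_rep`, `Tr_aux`, `η ≠ 0`, `sep_two`; the length bound by `num_base` / `num_pow`.
`small_trace`: `N = n^8`, `D = C1 n^12`, `T = n^16`, `r = n^11` in `small_values`
(`N r T = n^35`, `D r^2 = C1 n^34`); `‖ev2 (muM a e)‖ ≤ (C N)^(3 (2 N^2 + 2))` by `val_bound`;
`N^4` terms; every factor is at most `2^(C' n^17)` by the lemmas of `Num` (cast to the reals).
-/

namespace Pool.Agent.E21

open Polynomial

namespace Pair

variable (W : Pair)

theorem exists_aux {θ0 : ℂ} (O : Ord θ0 W.data2) : ∃ C1 C : ℕ, 1 ≤ C1 ∧ ∀ n : ℕ, Odd n →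
    ∃ c : (Fin 2 × Fin 2 → Fin (C1 * n ^ 12)) → ℤ[X], c ≠ 0 ∧
      (∀ l, (c l).natDegree ≤ C * n ^ 16 ∧ l1 (c l) ≤ 2 ^ (C * n ^ 17)) ∧
      ∀ (κ : Fin 2 → Fin (n ^ 8) × Fin (n ^ 8)), ∀ j < n ^ 16,
        W.ev2 (W.ptF (n ^ 8) κ) ((⇑W.D2)^[j] (auxF fun l => aeval θ0 (c l))) = 0 := by
  obtain ⟨C, hC⟩ := W.rep_cond O (2 * O.m) 1
  have hm := O.m_pos
  obtain ⟨K, hK⟩ : ∃ K : ℕ, K = (C + 1) ^ 2 * (2 * O.m) ^ 4 := ⟨_, rfl⟩
  refine ⟨2 * O.m, K + 80 + (C + 1), by omega, fun n hn => ?_⟩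
  obtain ⟨η, h0, -, hη⟩ := hC n hn
  have hn1 : 1 ≤ n := hn.pos
  have p16 : 1 ≤ n ^ 16 := Nat.one_le_pow _ _ hn1
  have p17 : n ≤ n ^ 17 := Nat.le_self_pow (by norm_num) n
  have cE : Fintype.card (Fin (n ^ 16) × (Fin 2 → Fin ((n ^ 8) ^ 2)) × (Fin 2 → Fin 2)) =
      4 * n ^ 48 := by
    simp only [Fintype.card_prod, Fintype.card_fun, Fintype.card_fin]
    ring
  have cL : Fintype.card (Fin 2 × Fin 2 → Fin (2 * O.m * n ^ 12)) = (2 * O.m) ^ 4 * n ^ 48 := by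
    simp only [Fintype.card_prod, Fintype.card_fun, Fintype.card_fin]
    ring
  obtain ⟨c, c0, c1, c2⟩ := siegel_rep (θ0 := θ0) hm O.w
    (E := Fin (n ^ 16) × (Fin 2 → Fin ((n ^ 8) ^ 2)) × (Fin 2 → Fin 2))
    (Λ := Fin 2 × Fin 2 → Fin (2 * O.m * n ^ 12)) (by rw [cE]; positivity)
    (by
      rw [cE, cL, ← mul_assoc]
      refine Nat.mul_le_mul_right _ ?_
      have := Nat.le_self_pow (n := 4) (by norm_num) O.m
      rw [mul_pow]
      omega) (C * n ^ 16) (2 ^ (C * n ^ 17))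
    (fun x l => η * W.Tr (n ^ 8) (muM x.2.1 x.2.2 * (⇑W.D2)^[x.1] (monoB l)))
    fun x l => hη x.1 (by rw [one_mul]; exact x.1.2.le) x.2.1 x.2.2 l
  refine ⟨c, c0, fun l => ⟨(c1 l).1.trans (Nat.mul_le_mul_right _ (by omega)),
    (c1 l).2.trans ?_⟩, fun κ j hj => W.sep_two hn.pow _ (fun a e => ?_) κ⟩
  · have b1 : (C * n ^ 16 + 1) ^ 2 * ((2 * O.m) ^ 4 * n ^ 48) ≤ K * n ^ 80 := by
      have : C * n ^ 16 + 1 ≤ (C + 1) * n ^ 16 := by rw [add_mul, one_mul]; omega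
      refine (Nat.mul_le_mul_right _ (Nat.pow_le_pow_left this 2)).trans (le_of_eq ?_)
      rw [hK]
      ring
    have b2 : K * n ^ 80 ≤ 2 ^ ((K + 80) * n ^ 17) :=
      (num_base K 80 n hn1).trans (Nat.pow_le_pow_right two_pos (Nat.mul_le_mul_left _ p17))
    have b3 : 2 ^ (C * n ^ 17) + 1 ≤ 2 ^ ((C + 1) * n ^ 17) :=
      Nat.pow_lt_pow_right one_lt_two (by rw [add_mul, one_mul]; omega)
    rw [cL, add_mul (K + 80), pow_add]
    exact Nat.mul_le_mul (b1.trans b2) b3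
  · have h := c2 (⟨j, hj⟩, a, e)
    simp only [mul_left_comm _ η] at h
    rw [← Finset.mul_sum] at h
    rw [Tr_aux]
    exact (mul_eq_zero.1 h).resolve_left h0

theorem small_trace (C1 C2 C3 : ℕ) : ∃ C4 : ℕ, ∀ n : ℕ, Odd n →
    ∀ c : (Fin 2 × Fin 2 → Fin (C1 * n ^ 12)) → ℂ, (∀ l, ‖c l‖ ≤ 2 ^ (C3 * n ^ 17)) →
      (∀ (κ : Fin 2 → Fin (n ^ 8) × Fin (n ^ 8)), ∀ j < n ^ 16,
        W.ev2 (W.ptF (n ^ 8) κ) ((⇑W.D2)^[j] (auxF c)) = 0) →
      ∀ j ≤ C2 * n ^ 16, ∀ (a : Fin 2 → Fin ((n ^ 8) ^ 2)) (e : Fin 2 → Fin 2),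
        ‖W.Tr (n ^ 8) (muM a e * (⇑W.D2)^[j] (auxF c))‖ ≤
          2 ^ (C4 * n ^ 34) * (1 / 2) ^ (n ^ 35) := by
  obtain ⟨C, hC⟩ := W.small_values
  obtain ⟨V, V1, hV⟩ := W.val_bound
  obtain ⟨Ca, ha⟩ := num_pow (V ^ 3) 24 4 16
  obtain ⟨Cb, hb⟩ := num_fact C2 16
  obtain ⟨Cc, hc⟩ := num_pow C 8 (C2 + 6 * C1) 16
  refine ⟨33 + Ca + C3 + (C1 ^ 4 + 48) + Cb + Cc + C * C1, fun n hn c h1 h2 j hj a e => ?_⟩
  have hn1 : 1 ≤ n := hn.pos
  have p16 : 1 ≤ n ^ 16 := Nat.one_le_pow _ _ hn1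
  have p12 : n ^ 12 ≤ n ^ 16 := Nat.pow_le_pow_right hn1 (by norm_num)
  have up : ∀ {x k b : ℕ}, b ≤ 34 → x ≤ 2 ^ (k * n ^ b) → (x : ℝ) ≤ 2 ^ (k * n ^ 34) :=
    fun hb hx => by
      exact_mod_cast hx.trans (Nat.pow_le_pow_right two_pos
        (Nat.mul_le_mul_left _ (Nat.pow_le_pow_right hn1 hb)))
  have b0 := up (x := n ^ 32) (k := 33) (b := 1) (by norm_num) (by simpa using num_base 1 32 n hn1)
  have b1 := up (by norm_num) (ha n ((V * n ^ 8) ^ 3) (4 * n ^ 16) hn1 (le_of_eq (by ring)) le_rfl)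
  have b2 := up (x := 2 ^ (C3 * n ^ 17)) (by norm_num) le_rfl
  have b3 := up (x := (C1 * n ^ 12) ^ 4) (k := C1 ^ 4 + 48) (b := 1) (by norm_num) (by
    rw [pow_one, mul_pow, ← pow_mul]
    exact num_base _ 48 n hn1)
  have b4 := up (by norm_num) (hb n j hn1 hj)
  have b5 := up (by norm_num) (hc n (C * n ^ 8) (j + 6 * (C1 * n ^ 12)) hn1 le_rfl (by
    have := Nat.mul_le_mul_left C1 p12
    rw [add_mul, mul_assoc]
    omega))
  have hB : (1 : ℝ) ≤ ((V : ℝ) * ((n ^ 8 : ℕ) : ℝ)) ^ 3 := by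
    exact_mod_cast Nat.one_le_pow _ _ (Nat.mul_pos V1 (Nat.one_le_pow _ _ hn1))
  have hμ : ∀ κ, ‖W.ev2 (W.ptF (n ^ 8) κ) (muM a e)‖ ≤ 2 ^ (Ca * n ^ 34) := fun κ => by
    have hx : ∀ v k, ‖W.ev2 (W.ptF (n ^ 8) κ) (MvPolynomial.X v ^ k)‖ ≤
        (((V : ℝ) * ((n ^ 8 : ℕ) : ℝ)) ^ 3) ^ k := fun v k => by
      rw [map_pow, norm_pow, ev2, MvPolynomial.aeval_X]
      exact pow_le_pow_left₀ (norm_nonneg _) (hV _ hn.pow κ v) k
    rw [muM, Fin.prod_univ_two, map_mul, map_mul, map_mul, norm_mul, norm_mul, norm_mul]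
    refine (mul_le_mul (mul_le_mul (hx _ _) (hx _ _) (norm_nonneg _) (by positivity))
      (mul_le_mul (hx _ _) (hx _ _) (norm_nonneg _) (by positivity)) (by positivity)
      (by positivity)).trans (le_trans ?_ b1)
    rw [← pow_add, ← pow_add, ← pow_add, Nat.cast_pow _ (4 * n ^ 16), Nat.cast_pow _ 3, Nat.cast_mul]
    refine pow_le_pow_right₀ hB ?_
    have q : (n ^ 8) ^ 2 = n ^ 16 := by ring
    have := (a 0).2
    have := (a 1).2
    have := (e 0).2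
    have := (e 1).2
    omega
  have hv : ∀ κ, ‖W.ev2 (W.ptF (n ^ 8) κ) ((⇑W.D2)^[j] (auxF c))‖ ≤
      2 ^ (C3 * n ^ 34) * 2 ^ ((C1 ^ 4 + 48) * n ^ 34) * 2 ^ (Cb * n ^ 34) * 2 ^ (Cc * n ^ 34) *
        2 ^ (C * C1 * n ^ 34) * (1 / 2) ^ (n ^ 35) := fun κ => by
    refine (hC (n ^ 8) (C1 * n ^ 12) (n ^ 16) (n ^ 11) _ c hn.pow (Nat.one_le_pow _ _ hn1)
      (by positivity) h1 h2 κ j).trans ?_
    rw [show n ^ 8 * n ^ 11 * n ^ 16 = n ^ 35 by ring,
      show C * (C1 * n ^ 12) * (n ^ 11) ^ 2 = C * C1 * n ^ 34 by ring]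
    rw [Nat.cast_pow, Nat.cast_ofNat] at b2
    rw [Nat.cast_pow] at b3
    rw [Nat.cast_pow, Nat.cast_mul] at b5
    gcongr
  rw [Tr]
  refine (norm_sum_le _ _).trans ((Finset.sum_le_card_nsmul _ _ _ fun κ _ => by
    rw [map_mul, norm_mul]
    exact mul_le_mul (hμ κ) (hv κ) (norm_nonneg _) (by positivity)).trans ?_)
  have cK : (Finset.univ : Finset (Fin 2 → Fin (n ^ 8) × Fin (n ^ 8))).card = n ^ 32 := by
    simp only [Finset.card_univ, Fintype.card_prod, Fintype.card_fun, Fintype.card_fin]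
    ring
  rw [cK, nsmul_eq_mul]
  refine (mul_le_mul_of_nonneg_right b0 (by positivity)).trans (le_of_eq ?_)
  simp only [add_mul _ _ (n ^ 34), pow_add (2 : ℝ)]
  generalize ((1 : ℝ) / 2) ^ (n ^ 35) = t
  generalize n ^ 34 = x
  ac_rfl

end Pair

end Pool.Agent.E21
end

-- merged part: Pool.Agent.Work.MP_e21d36_nt.Core
section
/-!
# The core theorem

Plan.  `exists_poly`: `n = 2k+1 ≥ 3`.  `exists_aux` gives `c`; the complex coefficients are not
all zero (`θ0` is transcendental) and have norm at most `2^(C3 n^17)` (`norm_aeval_le`,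
`num_real`).  `zero_est` with `T0 = C0 n^16`, `C0 = 120 * 324 * 10^4 * C1^4 + 1`, gives `κ`, `j`;
`sep_two` (contrapositive) gives `a`, `e` with nonzero trace; `y = η * Tr ..` (`rep_cond` with
`C2 = 5 C0`, `Tr_aux`, `Rep.poly_mul`, `Rep.sum_le`); `Ord.norm`; `small_trace`; `num_pow`,
`num_final`.
`data_alg`: work in the intermediate field `algebraicClosure K ℂ` (`mem_algebraicClosure_iff`):
`e0` is a root of a nonzero cubic over it (`cubic_e0`), so it is algebraic over it and lies in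
it (`algebraicClosure.algebraicClosure_eq_bot`, or `IsAlgebraic.trans`-type lemmas:
`IsAlgebraic.restrictScalars`, `isAlgebraic_of_isAlgebraic_bot`); `k0⁻¹` lies in the field.
`core`: `exists_ord`, `exists_poly`, `gelfond`.
-/

namespace Pool.Agent.E21

open Polynomial

theorem Core_len (C A : ℕ) {n : ℕ} (hn : 1 ≤ n) :
    (C * (2 ^ (A * n) + 1)) ^ C ≤ 2 ^ ((C + A + 1) * C * n) := by
  have h1 : C ≤ 2 ^ (C * n) := Nat.lt_two_pow_self.le.trans
    (Nat.pow_le_pow_right two_pos (Nat.le_mul_of_pos_right _ hn))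
  have h2 : 2 ^ (A * n) + 1 ≤ 2 ^ (A * n) * 2 ^ n := by
    have k1 : 1 ≤ 2 ^ (A * n) := Nat.one_le_two_pow
    have k2 : 2 ^ (A * n) * 2 ^ 1 ≤ 2 ^ (A * n) * 2 ^ n :=
      Nat.mul_le_mul_left _ (Nat.pow_le_pow_right two_pos hn)
    omega
  refine (Nat.pow_le_pow_left (Nat.mul_le_mul h1 h2) C).trans_eq ?_
  rw [← pow_add, ← pow_add, ← pow_mul]
  exact congrArg _ (by ring)

theorem Core_fin (Θ : Theta) : Θ.data.Finite := by
  unfold Theta.data
  exact Set.toFinite _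

theorem Core_val (θ0 : ℂ) (C : ℕ) : ∃ C' : ℕ, ∀ n : ℕ, 1 ≤ n → ∀ P : ℤ[X],
    P.natDegree ≤ C * n ^ 16 → l1 P ≤ 2 ^ (C * n ^ 17) → ‖aeval θ0 P‖ ≤ 2 ^ (C' * n ^ 17) := by
  obtain ⟨B, hB⟩ := num_real ‖θ0‖ C 16
  refine ⟨C + B, fun n hn P h1 h2 => (norm_aeval_le θ0 P h1).trans ?_⟩
  rw [add_mul, pow_add]
  refine mul_le_mul (by exact_mod_cast h2) ((hB n _ le_rfl).trans (pow_le_pow_right₀ one_le_two
    (Nat.mul_le_mul_left _ (Nat.pow_le_pow_right hn (by norm_num))))) (by positivity)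
    (by positivity)

theorem Core_elt (W : Pair) {θ0 : ℂ} (hθ : Transcendental ℚ θ0) (O : Ord θ0 W.data2) :
    ∃ A B C : ℕ, ∀ n : ℕ, Odd n → 3 ≤ n → ∃ y : ℂ, y ≠ 0 ∧
      Rep θ0 O.w (B * n ^ 16) (2 ^ (A * n ^ 17)) y ∧ ‖y‖ ≤ 2 ^ (C * n ^ 34) * (1 / 2) ^ (n ^ 35) := by
  have hinj : Function.Injective (aeval θ0 : ℤ[X] →ₐ[ℤ] ℂ) :=
    transcendental_iff_injective.1 (hθ.restrictScalars (algebraMap ℤ ℚ).injective_int)
  obtain ⟨C1, Ca, c1, ha⟩ := W.exists_aux O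
  obtain ⟨C0, c0⟩ : ∃ C0, 120 * 324 * (10 * C1) ^ 4 < C0 := ⟨_, Nat.lt_succ_self _⟩
  obtain ⟨Cr, hr⟩ := W.rep_cond O C1 (5 * C0)
  obtain ⟨C3, h3⟩ := Core_val θ0 Ca
  obtain ⟨C4, h4⟩ := W.small_trace C1 (5 * C0) C3
  refine ⟨C1 ^ 4 + 48 + (Ca + Cr), Ca + Cr, Cr + C4, fun n hn n3 => ?_⟩
  have n1 : 1 ≤ n := by omega
  obtain ⟨c, k1, k2, k3⟩ := ha n hn
  obtain ⟨η, e1, e2, e3⟩ := hr n hn
  obtain ⟨κ, j, hj, k4⟩ := W.zero_est (T0 := C0 * n ^ 16) (hn.pow (n := 8))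
    (n3.trans (Nat.le_self_pow (by norm_num) n))
    ((Nat.pow_le_pow_right n1 (by norm_num)).trans (Nat.le_mul_of_pos_left _ c1))
    (fun l => aeval θ0 (c l))
    (fun k => k1 (funext fun l => (map_eq_zero_iff _ hinj).1 (congrFun k l))) (by
      have := Nat.mul_lt_mul_of_pos_right c0 (Nat.pow_pos (n := 48) n1)
      calc _ = 120 * 324 * (10 * C1) ^ 4 * n ^ 48 := by ring
        _ < _ := this
        _ = _ := by ring)
  rw [← mul_assoc] at hj
  obtain ⟨a, e, k5⟩ : ∃ (a : Fin 2 → Fin ((n ^ 8) ^ 2)) (e : Fin 2 → Fin 2), W.Tr (n ^ 8)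
      (muM a e * (⇑W.D2)^[j] (auxF fun l => aeval θ0 (c l))) ≠ 0 := by
    by_contra! k
    exact k4 (W.sep_two hn.pow _ k κ)
  refine ⟨η * _, mul_ne_zero e1 k5, ?_, ?_⟩
  · have := Rep.sum_le Finset.univ _ fun l _ => (e3 j hj a e l).poly_mul (c l) (k2 l).1 (k2 l).2
    rw [W.Tr_aux, Finset.mul_sum]
    simp only [mul_left_comm η]
    refine this.mono (add_mul _ _ _).ge ?_
    rw [Finset.card_univ, Fintype.card_fun, Fintype.card_prod, Fintype.card_fin, Fintype.card_fin,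
      add_mul, add_mul Ca, pow_add, pow_add 2 (Ca * _)]
    refine Nat.mul_le_mul_right _ (le_trans (le_of_eq (by ring)) ((num_base (C1 ^ 4) 48 n n1).trans
      (Nat.pow_le_pow_right two_pos (Nat.mul_le_mul_left _ (Nat.le_self_pow (by norm_num) n)))))
  · rw [norm_mul, add_mul, pow_add, mul_assoc]
    exact mul_le_mul (e2.trans (pow_le_pow_right₀ one_le_two
      (Nat.mul_le_mul_left _ (Nat.pow_le_pow_right n1 (by norm_num)))))
      (h4 n hn _ (fun l => h3 n n1 _ (k2 l).1 (k2 l).2) k3 j hj a e) (norm_nonneg _)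
      (by positivity)

theorem Pair.exists_poly (W : Pair) {θ0 : ℂ} (hθ : Transcendental ℚ θ0) (O : Ord θ0 W.data2) :
    ∃ C : ℕ, ∀ᶠ k : ℕ in Filter.atTop, ∃ P : ℤ[X], P ≠ 0 ∧
      P.natDegree ≤ C * (2 * k + 1) ^ 16 ∧ l1 P ≤ 2 ^ (C * (2 * k + 1) ^ 17) ∧
      ‖aeval θ0 P‖ ≤ (1 / 2) ^ ((2 * k + 1) ^ 34) := by
  obtain ⟨A, B, C, h1⟩ := Core_elt W hθ O
  obtain ⟨D, h2⟩ := O.norm
  refine ⟨D * (B + 1) + (D + A + 1) * D, ((num_final (C + (D + A + 1) * D + D * (B + 1))).and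
    (Filter.eventually_ge_atTop 1)).mono fun k hk => ?_⟩
  obtain ⟨y, y0, y1, y2⟩ := h1 (2 * k + 1) (odd_two_mul_add_one k) (by omega)
  obtain ⟨P, p0, p1, p2, p3⟩ := h2 _ _ y y1 y0
  have hk1 := hk.1
  have n1 : 1 ≤ 2 * k + 1 := by omega
  generalize 2 * k + 1 = n at *
  have k1 : D * (B * n ^ 16 + 1) ≤ D * (B + 1) * n ^ 16 := by
    rw [mul_assoc, add_mul, one_mul]
    exact Nat.mul_le_mul_left _ (Nat.add_le_add_left (Nat.pow_pos n1) _)
  have k2 := Core_len D A (Nat.pow_pos (n := 17) n1)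
  refine ⟨P, p0, p1.trans (k1.trans (Nat.mul_le_mul_right _ (Nat.le_add_right _ _))),
    p2.trans (k2.trans (Nat.pow_le_pow_right two_pos
      (Nat.mul_le_mul_right _ (Nat.le_add_left _ _)))), p3.trans (le_trans ?_ hk1)⟩
  have k3 : ((D : ℝ) * ((2 ^ (A * n ^ 17) : ℕ) + 1)) ^ D ≤ 2 ^ ((D + A + 1) * D * n ^ 34) := by
    exact_mod_cast k2.trans (Nat.pow_le_pow_right two_pos
      (Nat.mul_le_mul_left _ (Nat.pow_le_pow_right n1 (by norm_num))))
  have k4 : (D : ℝ) ^ (B * n ^ 16 + 1) ≤ 2 ^ (D * (B + 1) * n ^ 34) := by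
    have := (Nat.pow_le_pow_left (Nat.lt_two_pow_self (n := D)).le (B * n ^ 16 + 1)).trans
      ((pow_mul 2 D _).ge.trans (Nat.pow_le_pow_right two_pos (k1.trans
        (Nat.mul_le_mul_left _ (Nat.pow_le_pow_right n1 (show 16 ≤ 34 by norm_num))))))
    exact_mod_cast this
  refine (mul_le_mul (mul_le_mul y2 k3 (by positivity) (by positivity)) k4 (by positivity)
    (by positivity)).trans_eq ?_
  rw [add_mul (C + _), add_mul C, pow_add, pow_add]
  ring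

theorem Theta.data_alg (Θ : Theta) (K : IntermediateField ℚ ℂ) (h0 : IsAlgebraic K Θ.a0)
    (h1 : IsAlgebraic K Θ.a1) (h2 : IsAlgebraic K Θ.a2) : ∀ g ∈ Θ.data, IsAlgebraic K g := by
  rw [← mem_algebraicClosure_iff] at h0 h1 h2
  have h3 : Θ.e0 ∈ algebraicClosure K ℂ := by
    have k : IsAlgebraic (algebraicClosure K ℂ) Θ.e0 :=
      ⟨Cubic.toPoly ⟨4, ⟨_, h2⟩, 2 * ⟨_, h1⟩, ⟨_, h0⟩⟩, Cubic.ne_zero_of_a_ne_zero (OfNat.ofNat_ne_zero 4), by
        simpa [Cubic.toPoly, map_ofNat] using Θ.cubic_e0⟩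
    exact mem_algebraicClosure_iff.2 (k.restrictScalars K)
  rintro g (rfl | rfl | rfl | rfl) <;> rw [← mem_algebraicClosure_iff]
  exacts [h1, h2, h3, inv_mem (div_mem (add_mem (add_mem (mul_mem (ofNat_mem _ 6) (pow_mem h3 2))
    (mul_mem h2 h3)) h1) (ofNat_mem _ 2))]

theorem Pair.core (W : Pair) (θ0 : ℂ) (hθ : Transcendental ℚ θ0)
    (h : ∀ i, IsAlgebraic (IntermediateField.adjoin ℚ ({θ0} : Set ℂ)) (W.Θ i).a0 ∧
      IsAlgebraic (IntermediateField.adjoin ℚ ({θ0} : Set ℂ)) (W.Θ i).a1 ∧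
      IsAlgebraic (IntermediateField.adjoin ℚ ({θ0} : Set ℂ)) (W.Θ i).a2) : False := by
  obtain ⟨O⟩ := exists_ord θ0 hθ W.data2 (Set.Finite.union (Core_fin _) (Core_fin _))
    fun g hg => hg.elim (Theta.data_alg _ _ (h 0).1 (h 0).2.1 (h 0).2.2 g)
      (Theta.data_alg _ _ (h 1).1 (h 1).2.1 (h 1).2.2 g)
  obtain ⟨C, hC⟩ := W.exists_poly hθ O
  exact gelfond θ0 hθ C hC

end Pool.Agent.E21
end

-- merged part: Pool.Agent.Work.MP_e21d36_nt.Fin
section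
/-!
# The two main theorems
-/

namespace Pool.Agent.E21

open Complex

theorem exists_theta {τ : ℂ} (h : 0 < τ.im) : ∃ Θ : Theta, Θ.ω = 1 ∧ Θ.ω' = τ ∧
    Θ.ν = 2 * (Real.pi : ℂ) * I ∧ Θ.a2 = -4 * ((Real.pi : ℂ) ^ 2 * eP τ) ∧
    Θ.a1 = 2 / 3 * ((Real.pi : ℂ) ^ 2 * eP τ) ^ 2 - 2 / 3 * ((Real.pi : ℂ) ^ 4 * eQ τ) ∧
    Θ.a0 = -4 / 27 * ((Real.pi : ℂ) ^ 2 * eP τ) ^ 3 +
      4 / 9 * ((Real.pi : ℂ) ^ 2 * eP τ) * ((Real.pi : ℂ) ^ 4 * eQ τ) -
      8 / 27 * ((Real.pi : ℂ) ^ 6 * eR τ) := by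
  obtain ⟨Θ, h1, h2, h3, h4⟩ := exists_pre h
  obtain ⟨L, l1, l2⟩ := exists_periodPair h
  have hb := tendsto_xf_thq h
  rw [← h4] at hb
  refine ⟨{ toPreTheta := Θ
            a0 := -4 / 27 * ((Real.pi : ℂ) ^ 2 * eP τ) ^ 3 +
              4 / 9 * ((Real.pi : ℂ) ^ 2 * eP τ) * ((Real.pi : ℂ) ^ 4 * eQ τ) -
              8 / 27 * ((Real.pi : ℂ) ^ 6 * eR τ)
            a1 := 2 / 3 * ((Real.pi : ℂ) ^ 2 * eP τ) ^ 2 - 2 / 3 * ((Real.pi : ℂ) ^ 4 * eQ τ)
            a2 := -4 * ((Real.pi : ℂ) ^ 2 * eP τ)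
            ode := ?_ }, h1, h2, h3, rfl, rfl, rfl⟩
  intro z hz
  have := Θ.ode_of_limit L (l1.trans h1.symm) (l2.trans h2.symm) _ hb hz
  rw [this, g2_eq h L l1 l2, g3_eq h L l1 l2]
  ring

theorem exists_transc : ∃ θ0 : ℂ, Transcendental ℚ θ0 := by
  have h1 : Transcendental ℤ (liouvilleNumber (2 : ℕ)) := transcendental_liouvilleNumber le_rfl
  have h2 : Transcendental ℤ ((liouvilleNumber (2 : ℕ) : ℝ) : ℂ) :=
    (transcendental_algebraMap_iff (R := ℤ) (A := ℂ) (algebraMap ℝ ℂ).injective).2 h1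
  exact ⟨_, fun h => h2 ((IsFractionRing.isAlgebraic_iff ℤ ℚ ℂ).2 h)⟩

theorem alg_of_not_indep {t y : ℂ} (ht : Transcendental ℚ t)
    (h : ¬ AlgebraicIndependent ℚ ![t, y]) :
    IsAlgebraic (IntermediateField.adjoin ℚ ({t} : Set ℂ)) y := by
  rw [IntermediateField.isAlgebraic_adjoin_iff]
  by_contra hy
  apply h
  have h1 : AlgebraicIndependent ℚ (fun _ : Unit => t) :=
    algebraicIndependent_unique_type_iff.2 ht
  have h2 : Set.range (fun _ : Unit => t) = {t} := Set.range_const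
  have h3 := (h1.option_iff_transcendental y).2 (by rw [h2]; exact hy)
  have h4 := h3.comp ![some (), none] (by
    intro a b hab
    fin_cases a <;> fin_cases b <;> simp_all)
  convert h4 using 1
  ext i
  fin_cases i <;> rfl

theorem indep_swap {x y : ℂ} (h : AlgebraicIndependent ℚ ![x, y]) :
    AlgebraicIndependent ℚ ![y, x] := by
  have h4 := h.comp ![1, 0] (by
    intro a b hab
    fin_cases a <;> fin_cases b <;> simp_all)
  convert h4 using 1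
  ext i
  fin_cases i <;> rfl

theorem exists_base (s : Set ℂ) (h : ∀ x ∈ s, ∀ y ∈ s, ¬ AlgebraicIndependent ℚ ![x, y]) :
    ∃ θ0 : ℂ, Transcendental ℚ θ0 ∧
      ∀ x ∈ s, IsAlgebraic (IntermediateField.adjoin ℚ ({θ0} : Set ℂ)) x := by
  by_cases hs : ∃ t ∈ s, Transcendental ℚ t
  · obtain ⟨t, hts, ht⟩ := hs
    exact ⟨t, ht, fun x hx => alg_of_not_indep ht (h t hts x hx)⟩
  · obtain ⟨t, ht⟩ := exists_transc
    refine ⟨t, ht, fun x hx => ?_⟩
    have : IsAlgebraic ℚ x := by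
      by_contra hc
      exact hs ⟨x, hx, hc⟩
    exact this.tower_top _

theorem alg_rat (K : IntermediateField ℚ ℂ) (q : ℚ) : IsAlgebraic K (q : ℂ) := by
  have : IsAlgebraic ℚ (q : ℂ) := isAlgebraic_algebraMap q
  exact this.tower_top _

/-- The coefficients of the rescaled Weierstrass equation are algebraic. -/
theorem coeff_alg (K : IntermediateField ℚ ℂ) {x y z : ℂ} (hx : IsAlgebraic K x)
    (hy : IsAlgebraic K y) (hz : IsAlgebraic K z) :
    IsAlgebraic K (-4 / 27 * x ^ 3 + 4 / 9 * x * y - 8 / 27 * z) ∧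
      IsAlgebraic K (2 / 3 * x ^ 2 - 2 / 3 * y) ∧ IsAlgebraic K (-4 * x) := by
  have r := alg_rat K
  refine ⟨?_, ?_, ?_⟩
  · have := (((r (-4 / 27)).mul (hx.pow 3)).add (((r (4 / 9)).mul hx).mul hy)).sub
      ((r (8 / 27)).mul hz)
    simpa using this
  · have := ((r (2 / 3)).mul (hx.pow 2)).sub ((r (2 / 3)).mul hy)
    simpa using this
  · have := (r (-4)).mul hx
    simpa using this

/-- Two lattices with the common period `1`. -/
theorem two_lattices {τ1 τ2 c : ℂ} (h1 : 0 < τ1.im) (h2 : 0 < τ2.im) (hc : c ≠ 0)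
    (hind : ∀ i j k : ℤ, (i : ℂ) + (j : ℂ) * τ1 + (k : ℂ) * τ2 = 0 → i = 0 ∧ j = 0 ∧ k = 0) :
    ∃ u ∈ ({c * eP τ1, c ^ 2 * eQ τ1, c ^ 3 * eR τ1, c * eP τ2, c ^ 2 * eQ τ2, c ^ 3 * eR τ2} :
      Set ℂ), ∃ v ∈ ({c * eP τ1, c ^ 2 * eQ τ1, c ^ 3 * eR τ1, c * eP τ2, c ^ 2 * eQ τ2,
        c ^ 3 * eR τ2} : Set ℂ), AlgebraicIndependent ℚ ![u, v] := by
  by_contra hcon
  push Not at hcon
  obtain ⟨θ0, hθ, halg⟩ := exists_base _ hcon
  have hpi : (Real.pi : ℂ) ≠ 0 := ofReal_ne_zero.2 Real.pi_ne_zero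
  obtain ⟨α, hα⟩ := IsAlgClosed.exists_pow_nat_eq (c / (Real.pi : ℂ) ^ 2) (n := 2) (by norm_num)
  have hα0 : α ≠ 0 := by
    rintro rfl
    apply hc
    have : c / (Real.pi : ℂ) ^ 2 = 0 := by rw [← hα]; simp
    rcases div_eq_zero_iff.1 this with h | h
    · exact h
    · exact absurd h (pow_ne_zero _ hpi)
  have hcα : c = α ^ 2 * (Real.pi : ℂ) ^ 2 := by rw [hα]; field_simp
  have key : ∀ τ : ℂ, 0 < τ.im → ∃ Θ : Theta, Θ.ω = 1 / α ∧ Θ.ω' = τ / α ∧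
      Θ.a0 = -4 / 27 * (c * eP τ) ^ 3 + 4 / 9 * (c * eP τ) * (c ^ 2 * eQ τ) -
        8 / 27 * (c ^ 3 * eR τ) ∧
      Θ.a1 = 2 / 3 * (c * eP τ) ^ 2 - 2 / 3 * (c ^ 2 * eQ τ) ∧ Θ.a2 = -4 * (c * eP τ) := by
    intro τ hτ
    obtain ⟨Θ, e1, e2, -, e4, e5, e6⟩ := exists_theta hτ
    obtain ⟨Θ', f1, f2, f3, f4, f5⟩ := Θ.rescale hα0
    refine ⟨Θ', by rw [f1, e1], by rw [f2, e2], ?_, ?_, ?_⟩
    · rw [f5, e6, hcα]; ring
    · rw [f4, e5, hcα]; ring
    · rw [f3, e4, hcα]; ring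
  obtain ⟨Θ1, a1, b1, c1, d1, e1⟩ := key τ1 h1
  obtain ⟨Θ2, a2, b2, c2, d2, e2⟩ := key τ2 h2
  let W : Pair :=
    { Θ := ![Θ1, Θ2]
      hω := by simp [a1, a2]
      hind := by
        intro i j k hijk
        apply hind
        simp only [Matrix.cons_val_zero, Matrix.cons_val_one, a1, b1, b2] at hijk
        field_simp at hijk
        simpa [mul_comm] using hijk }
  refine W.core θ0 hθ ?_
  intro i
  fin_cases i
  · have := coeff_alg _ (halg (c * eP τ1) (by simp)) (halg (c ^ 2 * eQ τ1) (by simp))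
      (halg (c ^ 3 * eR τ1) (by simp))
    simpa [W, c1, d1, e1] using this
  · have := coeff_alg _ (halg (c * eP τ2) (by simp)) (halg (c ^ 2 * eQ τ2) (by simp))
      (halg (c ^ 3 * eR τ2) (by simp))
    simpa [W, c2, d2, e2] using this

/-- One lattice without complex multiplication, the period ratio adjoined. -/
theorem tau_adjoined {τ : ℂ} (h : 0 < τ.im)
    (hq : ¬ ∃ a b c : ℤ, a ≠ 0 ∧ (a : ℂ) * τ ^ 2 + (b : ℂ) * τ + (c : ℂ) = 0) :
    ∃ u ∈ ({τ, (Real.pi : ℂ) * eP τ, (Real.pi : ℂ) ^ 2 * eQ τ, (Real.pi : ℂ) ^ 3 * eR τ} : Set ℂ),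
      ∃ v ∈ ({τ, (Real.pi : ℂ) * eP τ, (Real.pi : ℂ) ^ 2 * eQ τ, (Real.pi : ℂ) ^ 3 * eR τ} :
        Set ℂ), AlgebraicIndependent ℚ ![u, v] := by
  by_contra hcon
  push Not at hcon
  obtain ⟨θ0, hθ, halg⟩ := exists_base _ hcon
  have hpi : (Real.pi : ℂ) ≠ 0 := ofReal_ne_zero.2 Real.pi_ne_zero
  have hτ0 : τ ≠ 0 := by
    rintro rfl
    simp at h
  obtain ⟨α, hα⟩ := IsAlgClosed.exists_pow_nat_eq (1 / (Real.pi : ℂ)) (n := 2) (by norm_num)
  have hα0 : α ≠ 0 := by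
    rintro rfl
    have : (1 : ℂ) / (Real.pi : ℂ) = 0 := by rw [← hα]; simp
    exact (one_div_ne_zero hpi) this
  have hα1 : α ^ 2 * (Real.pi : ℂ) = 1 := by rw [hα]; field_simp
  obtain ⟨Θ, e1, e2, e3, e4, e5, e6⟩ := exists_theta h
  obtain ⟨Θ1, f1, f2, f3, f4, f5⟩ := Θ.rescale hα0
  obtain ⟨Θs, s1, s2, s3, s4, s5⟩ := Θ.swap
  obtain ⟨Θ2, g1, g2, g3, g4, g5⟩ := Θs.rescale (mul_ne_zero hτ0 hα0)
  set x := (Real.pi : ℂ) * eP τ with hx
  set y := (Real.pi : ℂ) ^ 2 * eQ τ with hy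
  set z := (Real.pi : ℂ) ^ 3 * eR τ with hz
  have p2 : α ^ 2 * Θ.a2 = -4 * x := by
    rw [e4, hx]; linear_combination (-4 * (Real.pi : ℂ) * eP τ) * hα1
  have q4 : α ^ 4 * (Real.pi : ℂ) ^ 2 = 1 := by
    have : α ^ 4 * (Real.pi : ℂ) ^ 2 = (α ^ 2 * (Real.pi : ℂ)) ^ 2 := by ring
    rw [this, hα1, one_pow]
  have q6 : α ^ 6 * (Real.pi : ℂ) ^ 3 = 1 := by
    have : α ^ 6 * (Real.pi : ℂ) ^ 3 = (α ^ 2 * (Real.pi : ℂ)) ^ 3 := by ring
    rw [this, hα1, one_pow]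
  have p1 : α ^ 4 * Θ.a1 = 2 / 3 * x ^ 2 - 2 / 3 * y := by
    rw [e5, hx, hy]
    linear_combination (2 / 3 * ((Real.pi : ℂ) * eP τ) ^ 2 -
      2 / 3 * ((Real.pi : ℂ) ^ 2 * eQ τ)) * q4
  have p0 : α ^ 6 * Θ.a0 = -4 / 27 * x ^ 3 + 4 / 9 * x * y - 8 / 27 * z := by
    rw [e6, hx, hy, hz]
    linear_combination (-4 / 27 * ((Real.pi : ℂ) * eP τ) ^ 3 +
      4 / 9 * ((Real.pi : ℂ) * eP τ) * ((Real.pi : ℂ) ^ 2 * eQ τ) -
      8 / 27 * ((Real.pi : ℂ) ^ 3 * eR τ)) * q6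
  have pt : (τ * α) ^ 2 * (Θ.ν / Θ.ω') = 2 * I * τ := by
    rw [e3, e2]
    field_simp
    linear_combination hα1
  have aτ := halg τ (by simp)
  obtain ⟨A0, A1, A2⟩ := coeff_alg _ (halg x (by simp)) (halg y (by simp)) (halg z (by simp))
  have r := alg_rat (IntermediateField.adjoin ℚ ({θ0} : Set ℂ))
  have aI : IsAlgebraic (IntermediateField.adjoin ℚ ({θ0} : Set ℂ)) I := by
    refine IsAlgebraic.of_pow (n := 2) (by norm_num) ?_
    have := r (-1)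
    simpa using this
  have at' : IsAlgebraic (IntermediateField.adjoin ℚ ({θ0} : Set ℂ)) (2 * I * τ) := by
    have := ((r 2).mul aI).mul aτ
    simpa using this
  let W : Pair :=
    { Θ := ![Θ1, Θ2]
      hω := by
        simp only [Matrix.cons_val_zero, Matrix.cons_val_one, f1, g1, s1, e1, e2]
        field_simp
      hind := by
        intro i j k hijk
        simp only [Matrix.cons_val_zero, Matrix.cons_val_one, f1, f2, g2, s2, e1, e2] at hijk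
        field_simp at hijk
        have hj : j = 0 := by
          by_contra hj
          exact hq ⟨j, i, k, hj, by linear_combination hijk⟩
        subst hj
        have him := congrArg Complex.im hijk
        have hi : i = 0 := by
          simp at him
          rcases him with h' | h'
          · exact absurd h' h.ne'
          · exact h'
        subst hi
        refine ⟨rfl, rfl, ?_⟩
        simpa using hijk }
  refine W.core θ0 hθ ?_
  intro i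
  fin_cases i
  · show IsAlgebraic _ Θ1.a0 ∧ IsAlgebraic _ Θ1.a1 ∧ IsAlgebraic _ Θ1.a2
    rw [f5, f4, f3, p0, p1, p2]
    exact ⟨A0, A1, A2⟩
  · show IsAlgebraic _ Θ2.a0 ∧ IsAlgebraic _ Θ2.a1 ∧ IsAlgebraic _ Θ2.a2
    have u2 : Θ2.a2 = τ ^ 2 * (-4 * x) + ((12 : ℚ) : ℂ) * (2 * I * τ) := by
      rw [g3, s3, ← p2, ← pt]; push_cast; ring
    have u1 : Θ2.a1 = τ ^ 4 * (2 / 3 * x ^ 2 - 2 / 3 * y) + τ ^ 2 * (-4 * x) * (2 * I * τ) +
        ((6 : ℚ) : ℂ) * (2 * I * τ) ^ 2 := by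
      rw [g4, s4, ← p2, ← p1, ← pt]; push_cast; ring
    have u0 : Θ2.a0 = τ ^ 6 * (-4 / 27 * x ^ 3 + 4 / 9 * x * y - 8 / 27 * z) +
        ((2 : ℚ) : ℂ) * (τ ^ 4 * (2 / 3 * x ^ 2 - 2 / 3 * y)) * (2 * I * τ) +
        τ ^ 2 * (-4 * x) * (2 * I * τ) ^ 2 + ((4 : ℚ) : ℂ) * (2 * I * τ) ^ 3 := by
      rw [g5, s5, ← p2, ← p1, ← p0, ← pt]; push_cast; ring
    rw [u0, u1, u2]
    exact ⟨((((aτ.pow 6).mul A0).add (((r 2).mul ((aτ.pow 4).mul A1)).mul at')).add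
        (((aτ.pow 2).mul A2).mul (at'.pow 2))).add ((r 4).mul (at'.pow 3)),
      (((aτ.pow 4).mul A1).add (((aτ.pow 2).mul A2).mul at')).add ((r 6).mul (at'.pow 2)),
      ((aτ.pow 2).mul A2).add ((r 12).mul at')⟩

end Pool.Agent.E21
end
end
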