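import Pool.Agent.Work.MP_e21d36_nt.RS

/-!
# Modularity of the series `eP`, `eQ`, `eR`
-/

namespace Pool.Agent.E21

open Complex UpperHalfPlane ModularForm EisensteinSeries
open scoped MatrixGroups

theorem OC1_eP (z : ℍ) : eP (z : ℂ) = E2 z := by
  rw [E2_eq_tsum_cexp, eP]
  congr 2
  rw [tsum_pnat_eq_tsum_succ (f := fun n : ℕ =>
    ((ArithmeticFunction.sigma 1 n : ℕ) : ℂ) * cexp (2 * (Real.pi : ℂ) * Complex.I * z) ^ n)]

theorem OC1_E {k : ℕ} (hk : 3 ≤ k) (hk2 : Even k) (z : ℍ) :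
    E hk z = 1 - (2 * k / bernoulli k) * ∑' n : ℕ,
      (ArithmeticFunction.sigma (k - 1) (n + 1) : ℂ) *
        cexp (2 * (Real.pi : ℂ) * Complex.I * z) ^ (n + 1) := by
  rw [q_expansion_bernoulli hk hk2 z]
  congr 2
  simp only [zpow_natCast]
  rw [tsum_pnat_eq_tsum_succ (f := fun n : ℕ =>
    ((ArithmeticFunction.sigma (k - 1) n : ℕ) : ℂ) *
      cexp (2 * (Real.pi : ℂ) * Complex.I * z) ^ n)]

theorem OC1_eQ (z : ℍ) : eQ (z : ℂ) = E₄ z := by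
  rw [OC1_E (by norm_num) ⟨2, rfl⟩ z, eQ]
  have : bernoulli 4 = -1 / 30 := by
    rw [bernoulli_eq_bernoulli'_of_ne_one (by norm_num), bernoulli'_four]
  rw [this]
  norm_num

theorem OC1_eR (z : ℍ) : eR (z : ℂ) = E₆ z := by
  rw [OC1_E (by norm_num) ⟨3, rfl⟩ z, eR]
  have : bernoulli 6 = 1 / 42 := by decide +kernel
  rw [this]
  norm_num

theorem OC1_ne {τ : ℂ} (h : 0 < τ.im) : eQ τ ≠ 0 ∨ eR τ ≠ 0 := by
  by_contra hc
  push Not at hc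
  have h1 := discriminant_eq_E₄_cube_sub_E₆_sq ⟨τ, h⟩
  rw [← OC1_eQ, ← OC1_eR] at h1
  apply discriminant_ne_zero ⟨τ, h⟩
  rw [h1]
  simp [hc.1, hc.2]

/-- The transformation laws under `SL(2, ℤ)`. -/
theorem OC1_mod {τ : ℂ} (h : 0 < τ.im) {a b c d : ℤ} (hdet : a * d - b * c = 1) :
    0 < (((a : ℂ) * τ + b) / ((c : ℂ) * τ + d)).im ∧ (c : ℂ) * τ + d ≠ 0 ∧
    (Real.pi : ℂ) * eP (((a : ℂ) * τ + b) / ((c : ℂ) * τ + d)) =
      ((c : ℂ) * τ + d) ^ 2 * ((Real.pi : ℂ) * eP τ) - 6 * Complex.I * c * ((c : ℂ) * τ + d) ∧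
    eQ (((a : ℂ) * τ + b) / ((c : ℂ) * τ + d)) = ((c : ℂ) * τ + d) ^ 4 * eQ τ ∧
    eR (((a : ℂ) * τ + b) / ((c : ℂ) * τ + d)) = ((c : ℂ) * τ + d) ^ 6 * eR τ := by
  let γ : SL(2, ℤ) := ⟨!![a, b; c, d], by rw [Matrix.det_fin_two_of]; exact hdet⟩
  let z : ℍ := ⟨τ, h⟩
  have e : ((γ • z : ℍ) : ℂ) = ((a : ℂ) * τ + b) / ((c : ℂ) * τ + d) := by
    rw [coe_specialLinearGroup_apply]
    simp [γ, z]
  have ed : denom γ z = (c : ℂ) * τ + d := by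
    rw [ModularGroup.denom_apply]
    simp [γ, z]
  have hd : (c : ℂ) * τ + d ≠ 0 := ed ▸ denom_ne_zero _ _
  have hz : τ = (z : ℂ) := rfl
  refine ⟨e ▸ (γ • z).im_pos, hd, ?_, ?_, ?_⟩
  · have h1 := congrFun (E2_slash_action γ) z
    rw [SL_slash_apply, ed] at h1
    rw [← e, OC1_eP, hz, OC1_eP, ← hz]
    have h2 : D2 γ z = 2 * (Real.pi : ℂ) * Complex.I * c / ((c : ℂ) * τ + d) := by
      rw [D2, ed]
      simp [γ]
    simp only [Pi.sub_apply, Pi.smul_apply, h2, riemannZeta_two, smul_eq_mul] at h1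
    have hpi : (Real.pi : ℂ) ≠ 0 := ofReal_ne_zero.2 Real.pi_ne_zero
    rw [zpow_neg] at h1
    field_simp at h1
    linear_combination h1
  · have h1 := SlashInvariantForm.slash_action_eqn'' (Γ := 𝒮ℒ) E₄ (γ := γ) ⟨γ, rfl⟩ z
    rw [← e, OC1_eQ, hz, OC1_eQ, ← hz, ← ed]
    exact_mod_cast h1
  · have h1 := SlashInvariantForm.slash_action_eqn'' (Γ := 𝒮ℒ) E₆ (γ := γ) ⟨γ, rfl⟩ z
    rw [← e, OC1_eR, hz, OC1_eR, ← hz, ← ed]
    exact_mod_cast h1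

end Pool.Agent.E21
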