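import Mathlib
import Pool.Agent.Work.MP_e21d36_nt.OC1
import Pool.Agent.Work.MP_e21d36_nt.Fin

-- merged part: Pool.Agent.Work.MP_e21d36_nt.OI1
section
/-!
# Functions with an algebraic `q`-expansion, level one forms
-/

namespace Pool.Agent.E21

open Complex UpperHalfPlane ModularForm EisensteinSeries Function
open scoped MatrixGroups

/-- Functions on the upper half plane that are sums of a power series in `exp (2 π i τ / N)` with
algebraic coefficients. -/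
def QA (N : ℕ) : Subring (ℍ → ℂ) where
  carrier := {f | ∃ c : ℕ → ℂ, (∀ n, IsAlgebraic ℚ (c n)) ∧
    ∀ τ : ℍ, HasSum (fun n => c n • Periodic.qParam N τ ^ n) (f τ)}
  add_mem' := by
    rintro f g ⟨c, hc, hf⟩ ⟨d, hd, hg⟩
    refine ⟨c + d, fun n => (hc n).add (hd n), fun τ => ?_⟩
    simpa [add_mul] using (hf τ).add (hg τ)
  zero_mem' := ⟨0, fun _ => isAlgebraic_zero, fun τ => by simpa using hasSum_zero⟩
  neg_mem' := by
    rintro f ⟨c, hc, hf⟩
    refine ⟨-c, fun n => (hc n).neg, fun τ => ?_⟩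
    simpa using (hf τ).neg
  one_mem' := by
    refine ⟨fun n => if n = 0 then 1 else 0, fun n => ?_, fun τ => ?_⟩
    · dsimp only
      split_ifs
      exacts [isAlgebraic_one, isAlgebraic_zero]
    · have := hasSum_single (f := fun n : ℕ =>
        (if n = 0 then (1 : ℂ) else 0) • Periodic.qParam N τ ^ n) 0 (fun b hb => by simp [hb])
      simpa using this
  mul_mem' := by
    rintro f g ⟨c, hc, hf⟩ ⟨d, hd, hg⟩
    refine ⟨fun n => ∑ kl ∈ Finset.HasAntidiagonal.antidiagonal n, c kl.1 * d kl.2, fun n => ?_, fun τ => ?_⟩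
    · exact Finset.sum_induction _ _ (fun _ _ => IsAlgebraic.add) isAlgebraic_zero
        fun kl _ => (hc _).mul (hd _)
    · have h1 := (hf τ).summable.norm
      have h2 := (hg τ).summable.norm
      have h3 := (summable_norm_sum_mul_antidiagonal_of_summable_norm h1 h2).of_norm.hasSum
      rw [← tsum_mul_tsum_eq_tsum_sum_antidiagonal_of_summable_norm h1 h2, (hf τ).tsum_eq,
        (hg τ).tsum_eq] at h3
      refine h3.congr_fun fun n => ?_
      rw [Finset.sum_smul]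
      refine Finset.sum_congr rfl fun kl hkl => ?_
      rw [← Finset.HasAntidiagonal.mem_antidiagonal.1 hkl]
      simp only [smul_eq_mul]
      ring

theorem QA_smul {N : ℕ} {f : ℍ → ℂ} (hf : f ∈ QA N) {a : ℂ} (ha : IsAlgebraic ℚ a) :
    a • f ∈ QA N := by
  obtain ⟨c, hc, hf⟩ := hf
  refine ⟨fun n => a * c n, fun n => ha.mul (hc n), fun τ => ?_⟩
  simpa [mul_assoc] using (hf τ).mul_left a

theorem QA_reindex {N M : ℕ} (hM : 0 < M) {f : ℍ → ℂ} {c : ℕ → ℂ} (hc : ∀ n, IsAlgebraic ℚ (c n))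
    (hf : ∀ τ : ℍ, HasSum (fun n => c n • (Periodic.qParam N τ ^ M) ^ n) (f τ)) : f ∈ QA N := by
  refine ⟨fun n => if M ∣ n then c (n / M) else 0, fun n => ?_, fun τ => ?_⟩
  · dsimp only
    split_ifs
    exacts [hc _, isAlgebraic_zero]
  · have hi : Injective fun n : ℕ => M * n := mul_right_injective₀ hM.ne'
    rw [← hi.hasSum_iff]
    · convert hf τ using 2 with n
      simp [Nat.mul_div_cancel_left _ hM, pow_mul]
    · intro x hx
      have : ¬ M ∣ x := fun ⟨y, hy⟩ => hx ⟨y, hy.symm⟩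
      simp [this]

theorem QA_bdd {N : ℕ} (hN : 0 < N) {f : ℍ → ℂ} (hf : f ∈ QA N) : IsBoundedAtImInfty f := by
  obtain ⟨c, -, hf⟩ := hf
  exact isBoundedAtImInfty_of_hasSum_qExpansion (h := N) (by exact_mod_cast hN) hf

theorem OI1_per (N : ℕ) : (N : ℝ) ∈ (𝒮ℒ).strictPeriods := by
  have := nsmul_mem one_mem_strictPeriods_SL N
  simpa using this

theorem QA_iff {N : ℕ} (hN : 0 < N) {k : ℤ} (f : ModularForm 𝒮ℒ k) :
    ⇑f ∈ QA N ↔ ∀ n, IsAlgebraic ℚ ((qExpansion N f).coeff n) := by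
  have hN' : (0 : ℝ) < N := by exact_mod_cast hN
  constructor
  · rintro ⟨c, hc, hf⟩ n
    rw [← ModularFormClass.qExpansion_coeff_unique hN' (OI1_per N) hf n]
    exact hc n
  · intro h
    exact ⟨_, h, fun τ => ModularForm.hasSum_qExpansion f hN' (OI1_per N) τ⟩

/-- From level `1` expansions to level `N` expansions after an upper triangular substitution. -/
theorem QA_tri {N : ℕ} {a d : ℕ} (b : ℤ) (had : a * d = N) (hN : 0 < N) {f : ℍ → ℂ}
    (hf : f ∈ QA 1) (m : ℍ → ℍ) (hm : ∀ τ : ℍ, (m τ : ℂ) = ((a : ℂ) * τ + b) / d) :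
    (fun τ => f (m τ)) ∈ QA N := by
  obtain ⟨c, hc, hf⟩ := hf
  have ha : 0 < a := Nat.pos_of_ne_zero fun h => by simp [h] at had; omega
  have hd : 0 < d := Nat.pos_of_ne_zero fun h => by simp [h] at had; omega
  have hd' : (d : ℂ) ≠ 0 := by exact_mod_cast hd.ne'
  have ha' : (a : ℂ) ≠ 0 := by exact_mod_cast ha.ne'
  set ζ : ℂ := cexp (2 * (Real.pi : ℂ) * Complex.I * b / d) with hζ
  have hζa : IsAlgebraic ℚ ζ := by
    refine IsAlgebraic.of_pow hd ?_
    have : ζ ^ d = 1 := by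
      rw [hζ, ← Complex.exp_nat_mul, ← Complex.exp_int_mul_two_pi_mul_I b]
      congr 1
      field_simp
    rw [this]
    exact isAlgebraic_one
  refine QA_reindex (M := a * a) (Nat.mul_pos ha ha) (c := fun n => c n * ζ ^ n)
    (fun n => (hc n).mul (hζa.pow n)) fun τ => ?_
  have e : Periodic.qParam ((1 : ℕ) : ℝ) (m τ) = ζ * Periodic.qParam N τ ^ (a * a) := by
    rw [Periodic.qParam, Periodic.qParam, hζ, ← Complex.exp_nat_mul, ← Complex.exp_add, hm,
      ← had]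
    congr 1
    push_cast
    field_simp
    ring
  convert hf (m τ) using 2 with n
  rw [e, mul_pow]
  simp only [smul_eq_mul]
  ring

theorem QA_one {N : ℕ} (hN : 0 < N) {f : ℍ → ℂ} (hf : f ∈ QA 1) : f ∈ QA N := by
  obtain ⟨c, hc, hf⟩ := hf
  refine QA_reindex hN hc fun τ => ?_
  have e : Periodic.qParam ((1 : ℕ) : ℝ) τ = Periodic.qParam N τ ^ N := by
    have : (N : ℂ) ≠ 0 := by exact_mod_cast hN.ne'
    rw [Periodic.qParam, Periodic.qParam, ← Complex.exp_nat_mul]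
    congr 1
    push_cast
    field_simp
  rw [← e]
  exact hf τ

theorem QA_E {k : ℕ} (hk : 3 ≤ k) (hk2 : Even k) : ⇑(E hk) ∈ QA 1 := by
  rw [QA_iff one_pos]
  intro n
  rw [Nat.cast_one, E_qExpansion_coeff hk hk2]
  split_ifs
  · exact isAlgebraic_one
  · have := isAlgebraic_algebraMap (R := ℚ) (A := ℂ)
      (-(2 * k / bernoulli k) * (ArithmeticFunction.sigma (k - 1) n : ℚ))
    simpa using this

theorem QA_E2 : E2 ∈ QA 1 := by
  refine ⟨fun m : ℕ => if m = 0 then 1 else -24 * ArithmeticFunction.sigma 1 m, fun n => ?_,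
    fun τ => ?_⟩
  · dsimp only
    split_ifs
    · exact isAlgebraic_one
    · have := isAlgebraic_algebraMap (R := ℚ) (A := ℂ)
        (-24 * (ArithmeticFunction.sigma 1 n : ℚ))
      simpa using this
  · simpa only [Periodic.qParam, Nat.cast_one, ofReal_one, div_one] using
      hasSum_qExpansion_E2 (z := τ)

end Pool.Agent.E21
end

-- merged part: Pool.Agent.Work.MP_e21d36_nt.OI2
section
/-!
# Values of level one forms with an algebraic `q`-expansion
-/

namespace Pool.Agent.E21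

open Complex UpperHalfPlane ModularForm EisensteinSeries Function
open scoped MatrixGroups

theorem OI2_div {D G H : PowerSeries ℂ} (hD0 : D ≠ 0) (h : D * G = H)
    (hD : ∀ n, IsAlgebraic ℚ (D.coeff n)) (hH : ∀ n, IsAlgebraic ℚ (H.coeff n)) (n : ℕ) :
    IsAlgebraic ℚ (G.coeff n) := by
  let F := algebraicClosure ℚ ℂ
  obtain ⟨p, hp⟩ := LinearMap.exists_leftInverse_of_injective (Algebra.linearMap F ℂ)
    (LinearMap.ker_eq_bot.2 (algebraMap F ℂ).injective)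
  let ψ : ℂ →ₗ[F] ℂ := LinearMap.id - Algebra.linearMap F ℂ ∘ₗ p
  have h1 : ∀ a : ℂ, IsAlgebraic ℚ a → ψ a = 0 := by
    intro a ha
    have := LinearMap.congr_fun hp ⟨a, mem_algebraicClosure_iff.2 ha⟩
    simp only [LinearMap.comp_apply, Algebra.linearMap_apply, LinearMap.id_apply] at this
    change a - algebraMap F ℂ (p a) = 0
    rw [show p a = ⟨a, mem_algebraicClosure_iff.2 ha⟩ from this]
    exact sub_self a
  have h2 : D * PowerSeries.mk (fun n => ψ (G.coeff n)) = 0 := by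
    ext m
    rw [PowerSeries.coeff_mul, map_zero, ← h1 _ (hH m), ← h, PowerSeries.coeff_mul, map_sum]
    refine Finset.sum_congr rfl fun kl _ => ?_
    rw [PowerSeries.coeff_mk]
    exact (ψ.map_smul (⟨D.coeff kl.1, mem_algebraicClosure_iff.2 (hD _)⟩ : F) _).symm
  have h3 := (mul_eq_zero.1 h2).resolve_left hD0
  have h4 : ψ (G.coeff n) = 0 := by
    simpa using congrArg (PowerSeries.coeff n) h3
  have h5 : G.coeff n = algebraMap F ℂ (p (G.coeff n)) := sub_eq_zero.1 h4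
  rw [h5]
  exact mem_algebraicClosure_iff.1 (p (G.coeff n)).2

theorem OI2_c0 {N : ℕ} (hN : 0 < N) {k : ℤ} (f : ModularForm 𝒮ℒ k) :
    (qExpansion N f).coeff 0 = valueAtInfty f := by
  have hN' : (0 : ℝ) < N := by exact_mod_cast hN
  exact qExpansion_coeff_zero hN' (ModularFormClass.analyticAt_cuspFunction_zero f hN' (OI1_per N))
    (SlashInvariantFormClass.periodic_comp_ofComplex f (OI1_per N))

theorem OI2_Δ {N : ℕ} (hN : 0 < N) : discriminant ∈ QA N := by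
  have e : discriminant = (((1 / 1728 : ℚ) : ℂ)) • ((⇑E₄) ^ 3 - (⇑E₆) ^ 2) := by
    ext z
    rw [discriminant_eq_E₄_cube_sub_E₆_sq]
    simp
    ring
  rw [e]
  exact QA_smul (sub_mem (pow_mem (QA_one hN (QA_E _ ⟨2, rfl⟩)) 3)
    (pow_mem (QA_one hN (QA_E _ ⟨3, rfl⟩)) 2)) (isAlgebraic_algebraMap _)

theorem OI2_level {N : ℕ} (hN : 0 < N) (K : Subfield ℂ) (hK : ∀ a, IsAlgebraic ℚ a → a ∈ K)
    (τ : ℍ) (P : ℂ) (h4 : P * E₄ τ ^ 3 ∈ K) (hD : P * discriminant τ ∈ K) (n : ℕ) :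
    ∀ k : ℤ, k = 12 * n → ∀ f : ModularForm 𝒮ℒ k, ⇑f ∈ QA N → P ^ n * f τ ∈ K := by
  have hN' : (0 : ℝ) < N := by exact_mod_cast hN
  induction n with
  | zero =>
    rintro k rfl f hf
    have h0 := (QA_iff hN f).1 hf 0
    rw [OI2_c0 hN] at h0
    obtain ⟨c, hc⟩ := ModularFormClass.levelOne_weight_zero_const (F := ModularForm 𝒮ℒ 0) f
    have h1 : valueAtInfty f = c := by
      rw [valueAtInfty]
      exact (hc ▸ tendsto_const_nhds : Filter.Tendsto f atImInfty (nhds c)).limUnder_eq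
    rw [pow_zero, one_mul, show f τ = c from congrFun hc τ, ← h1]
    exact hK _ h0
  | succ n ih =>
    intro k hk f hf
    let g : ModularForm 𝒮ℒ k := mcast (by rw [hk]; push_cast; ring) (E₄.pow (3 * (n + 1)))
    have hgc : ⇑g = (⇑E₄) ^ (3 * (n + 1)) := coe_pow _ _
    have hg : (qExpansion 1 g).coeff 0 = 1 := by
      rw [ModularForm.qExpansion_mcast, ModularForm.qExpansion_pow one_pos one_mem_strictPeriods_SL,
        PowerSeries.coeff_zero_eq_constantCoeff_apply, map_pow,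
        ← PowerSeries.coeff_zero_eq_constantCoeff_apply, E_qExpansion_coeff_zero _ ⟨2, rfl⟩,
        one_pow]
    set a := (qExpansion 1 f).coeff 0 with ha
    have haa : IsAlgebraic ℚ a := by
      have h0 := (QA_iff hN f).1 hf 0
      have h1 := OI2_c0 one_pos f
      rw [Nat.cast_one] at h1
      rwa [OI2_c0 hN, ← h1] at h0
    have h0 := (isCuspForm_iff_coeffZero_eq_zero _).1 (sub_smul_isCuspForm f g hg)
    set h := CuspForm.discriminantEquiv (toCuspForm _ h0) with hh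
    have e : discriminant * ⇑h = ⇑f - a • ⇑g := discriminant_mul_discriminantEquiv _
    have hq : ⇑(f - a • g) ∈ QA N := by
      have : ⇑g ∈ QA N := by
        rw [hgc]
        exact pow_mem (QA_one hN (QA_E _ ⟨2, rfl⟩)) _
      exact sub_mem hf (QA_smul this haa)
    have hhq : ⇑h ∈ QA N := by
      rw [QA_iff hN]
      let D : ModularForm 𝒮ℒ 12 := CuspForm.discriminant
      have hD0 : qExpansion N D ≠ 0 := by
        rw [ne_eq, ModularForm.qExpansion_eq_zero_iff hN' (OI1_per N)]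
        intro h1
        exact discriminant_ne_zero τ (congrFun (congrArg DFunLike.coe h1) τ)
      refine OI2_div hD0 (ModularForm.qExpansion_mul_coe hN' (OI1_per N) D h).symm
        ((QA_iff hN D).1 (OI2_Δ hN)) ?_
      rw [show ⇑D * ⇑h = ⇑(f - a • g) from e]
      exact (QA_iff hN _).1 hq
    have h1 := ih (k - 12) (by rw [hk]; push_cast; ring) h hhq
    have e1 : f τ = discriminant τ * h τ + a * E₄ τ ^ (3 * (n + 1)) := by
      have := congrFun e τ
      simp only [Pi.mul_apply, Pi.sub_apply, Pi.smul_apply, hgc, Pi.pow_apply,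
        smul_eq_mul] at this
      rw [this]
      ring
    have e2 : P ^ (n + 1) * f τ =
        (P * discriminant τ) * (P ^ n * h τ) + a * (P * E₄ τ ^ 3) ^ (n + 1) := by
      rw [e1]
      ring
    rw [e2]
    exact add_mem (mul_mem hD h1) (mul_mem (hK a haa) (pow_mem h4 _))

end Pool.Agent.E21
end

-- merged part: Pool.Agent.Work.MP_e21d36_nt.OC2
section
/-!
# Field theory for the one cusp theorem

`cl S` is the field of complex numbers algebraic over `ℚ(S)`.  The main lemma `OC2_core`: if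
`x, y, z` lie in `cl {θ}` and `l^2 x + e l`, `l^4 y`, `l^6 z` lie in `cl {θ'}`, with `e ≠ 0`
algebraic and `(y, z) ≠ (0, 0)`, then `l, x, y, z` lie in some `cl {w}`.
-/

namespace Pool.Agent.E21

open Polynomial

/-- The complex numbers algebraic over `ℚ(S)`. -/
noncomputable def cl (S : Set ℂ) : Subfield ℂ :=
  (algebraicClosure (IntermediateField.adjoin ℚ S) ℂ).toSubfield

theorem mem_cl {S : Set ℂ} {a : ℂ} :
    a ∈ cl S ↔ IsAlgebraic (IntermediateField.adjoin ℚ S) a := mem_algebraicClosure_iff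

theorem mem_cl' {S : Set ℂ} {a : ℂ} :
    a ∈ cl S ↔ a ∈ (AlgebraicIndependent.matroid ℚ ℂ).closure S := by
  rw [mem_cl, IntermediateField.isAlgebraic_adjoin_iff, AlgebraicIndependent.matroid_closure_eq]
  rfl

theorem cl_alg {S : Set ℂ} {a : ℂ} (h : IsAlgebraic ℚ a) : a ∈ cl S :=
  mem_cl.2 (h.tower_top _)

theorem cl_self (a : ℂ) : a ∈ cl {a} :=
  mem_cl'.2 ((AlgebraicIndependent.matroid ℚ ℂ).subset_closure _ (by simp) rfl)

theorem cl_trans {S : Set ℂ} {a b : ℂ} (h : a ∈ cl {b}) (hb : b ∈ cl S) : a ∈ cl S := by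
  rw [mem_cl'] at *
  exact Matroid.closure_subset_closure_of_subset_closure (Set.singleton_subset_iff.2 hb) h

theorem cl_exch {S : Set ℂ} {a b : ℂ} (h : a ∈ cl {b}) (ha : a ∉ cl S) : b ∈ cl {a} := by
  rw [mem_cl'] at *
  have h0 : a ∉ (AlgebraicIndependent.matroid ℚ ℂ).closure ∅ := fun h0 =>
    ha (Matroid.closure_mono _ (Set.empty_subset S) h0)
  have := Matroid.mem_closure_insert (f := b) h0 (by simpa using h)
  simpa using this

theorem cl_pow {S : Set ℂ} {a : ℂ} {n : ℕ} (hn : 0 < n) (h : a ^ n ∈ cl S) : a ∈ cl S :=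
  mem_cl.2 ((mem_cl.1 h).of_pow hn)

theorem not_indep_of_cl {u v : ℂ} (h : v ∈ cl {u}) : ¬ AlgebraicIndependent ℚ ![u, v] := by
  intro hi
  have h1 := hi.transcendental_adjoin (s := {0}) (i := 1) (by simp)
  rw [mem_cl, IntermediateField.isAlgebraic_adjoin_iff] at h
  apply h1
  have e : (![u, v] : Fin 2 → ℂ) '' {0} = {u} := by simp
  rw [e]
  exact h

theorem not_indep_of_cl2 {θ u v : ℂ} (hu : u ∈ cl {θ}) (hv : v ∈ cl {θ}) :
    ¬ AlgebraicIndependent ℚ ![u, v] := by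
  intro hi
  have h0 : u ∉ cl ∅ := by
    rw [mem_cl, IntermediateField.isAlgebraic_adjoin_iff]
    have h1 := hi.transcendental_adjoin (s := ∅) (i := 0) (by simp)
    rw [Set.image_empty] at h1
    exact h1
  exact not_indep_of_cl (cl_trans hv (cl_exch hu h0)) hi

/-- A line with coefficients in `K` through a point `(w, t)` of transcendence degree one, `w`
transcendental over `K`, is defined over the algebraic numbers. -/
theorem OC2_line {K : Type} [Field K] [Algebra ℚ K] [Algebra K ℂ] [IsScalarTower ℚ K ℂ]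
    (A B : K) {w : ℂ} (hw : Transcendental K w)
    (h : ¬ AlgebraicIndependent ℚ ![w, algebraMap K ℂ A * w + algebraMap K ℂ B]) :
    IsAlgebraic ℚ B := by
  rw [algebraicIndependent_iff] at h
  push Not at h
  obtain ⟨P, hP, hP0⟩ := h
  have hG0 : (MvPolynomial.aeval ![X, C A * X + C B] P : K[X]) = 0 := by
    by_contra hne
    refine hw ⟨_, hne, ?_⟩
    have h1 := MvPolynomial.comp_aeval_apply (f := ![X, C A * X + C B])
      ((Polynomial.aeval w : K[X] →ₐ[K] ℂ).restrictScalars ℚ) P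
    rw [AlgHom.restrictScalars_apply] at h1
    rw [h1, ← hP]
    congr 2
    ext i
    fin_cases i <;> simp
  have hr : ∀ r : ℚ, MvPolynomial.aeval ![algebraMap ℚ K r, A * algebraMap ℚ K r + B] P = 0 := by
    intro r
    have h1 := MvPolynomial.comp_aeval_apply (f := ![X, C A * X + C B])
      ((Polynomial.aeval (algebraMap ℚ K r) : K[X] →ₐ[K] K).restrictScalars ℚ) P
    rw [hG0, map_zero] at h1
    rw [h1]
    congr 2
    ext i
    fin_cases i <;> simp
  by_contra hB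
  have hs : {r : ℚ | IsAlgebraic ℚ (A * algebraMap ℚ K r + B)}.Subsingleton := by
    intro r1 h1 r2 h2
    by_contra hne
    apply hB
    have hd : algebraMap ℚ K (r2 - r1) ≠ 0 := by
      rw [_root_.map_ne_zero]
      exact sub_ne_zero.2 (Ne.symm hne)
    have e : B = algebraMap ℚ K (r2 / (r2 - r1)) * (A * algebraMap ℚ K r1 + B) -
        algebraMap ℚ K (r1 / (r2 - r1)) * (A * algebraMap ℚ K r2 + B) := by
      rw [map_div₀, map_div₀]
      field_simp
      rw [map_sub]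
      ring
    rw [e]
    exact ((isAlgebraic_algebraMap _).mul h1).sub ((isAlgebraic_algebraMap _).mul h2)
  have hz : ∀ r : ℚ, ¬ IsAlgebraic ℚ (A * algebraMap ℚ K r + B) → ∀ s : ℚ,
      MvPolynomial.eval ![r, s] P = 0 := by
    intro r ht s
    have H0 : (MvPolynomial.aeval ![C r, X] P : ℚ[X]) = 0 := by
      by_contra hne
      refine ht ⟨_, hne, ?_⟩
      have h1 := MvPolynomial.comp_aeval_apply (f := ![C r, X])
        (Polynomial.aeval (A * algebraMap ℚ K r + B) : ℚ[X] →ₐ[ℚ] K) P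
      rw [h1, ← hr r]
      congr 2
      ext i
      fin_cases i <;> simp
    have h1 := MvPolynomial.comp_aeval_apply (f := ![C r, X])
      (Polynomial.aeval s : ℚ[X] →ₐ[ℚ] ℚ) P
    rw [H0, map_zero] at h1
    rw [← MvPolynomial.coe_aeval_eq_eval, RingHom.coe_coe, h1]
    congr 2
    ext i
    fin_cases i <;> simp
  apply hP0
  refine MvPolynomial.funext_set
    ![{r : ℚ | IsAlgebraic ℚ (A * algebraMap ℚ K r + B)}ᶜ, Set.univ] ?_ ?_
  · intro i
    fin_cases i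
    · exact hs.finite.infinite_compl
    · exact Set.infinite_univ
  · intro v hv
    have h0 := hv 0 trivial
    have e : v = ![v 0, v 1] := by
      ext i
      fin_cases i <;> rfl
    rw [map_zero, e]
    exact hz _ h0 _

theorem OC2_line' {θ A B w : ℂ} (hA : A ∈ cl {θ}) (hB : B ∈ cl {θ}) (hw : w ∉ cl {θ})
    (h : A * w + B ∈ cl {w}) : IsAlgebraic ℚ B := by
  let K := algebraicClosure (IntermediateField.adjoin ℚ ({θ} : Set ℂ)) ℂ
  have hw' : Transcendental K w := fun ha =>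
    hw (mem_cl.2 (ha.restrictScalars (IntermediateField.adjoin ℚ ({θ} : Set ℂ))))
  have h1 := OC2_line (K := K) ⟨A, hA⟩ ⟨B, hB⟩ hw' (not_indep_of_cl h)
  exact h1.algebraMap

theorem OC2_core {x y z l e θ θ' : ℂ} (he0 : e ≠ 0) (he : IsAlgebraic ℚ e)
    (hyz : y ≠ 0 ∨ z ≠ 0) (hx : x ∈ cl {θ}) (hy : y ∈ cl {θ}) (hz : z ∈ cl {θ})
    (hx' : l ^ 2 * x + e * l ∈ cl {θ'}) (hy' : l ^ 4 * y ∈ cl {θ'}) (hz' : l ^ 6 * z ∈ cl {θ'}) :
    ∃ w : ℂ, l ∈ cl {w} ∧ x ∈ cl {w} ∧ y ∈ cl {w} ∧ z ∈ cl {w} := by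
  by_cases hl : l ∈ cl {θ}
  · exact ⟨θ, hl, hx, hy, hz⟩
  have hl0 : l ≠ 0 := by
    rintro rfl
    exact hl (zero_mem _)
  obtain ⟨s, hs0, hs, hw⟩ : ∃ s : ℂ, s ≠ 0 ∧ s ∈ cl {θ} ∧ s * l ∈ cl {θ'} := by
    rcases hyz with h | h
    · obtain ⟨s, rfl⟩ := IsAlgClosed.exists_pow_nat_eq y (n := 4) (by norm_num)
      refine ⟨s, fun h0 => h (by simp [h0]), cl_pow (by norm_num) hy,
        cl_pow (n := 4) (by norm_num) ?_⟩
      rwa [mul_pow, mul_comm]
    · obtain ⟨s, rfl⟩ := IsAlgClosed.exists_pow_nat_eq z (n := 6) (by norm_num)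
      refine ⟨s, fun h0 => h (by simp [h0]), cl_pow (by norm_num) hz,
        cl_pow (n := 6) (by norm_num) ?_⟩
      rwa [mul_pow, mul_comm]
  have hw0 : s * l ∉ cl {θ} := by
    intro h
    apply hl
    have := div_mem h hs
    rwa [mul_div_cancel_left₀ _ hs0] at this
  have hθ' := cl_exch hw hw0
  replace hx' := cl_trans hx' hθ'
  replace hy' := cl_trans hy' hθ'
  replace hz' := cl_trans hz' hθ'
  have ht : x / s ^ 2 * (s * l) + e / s ∈ cl {s * l} := by
    have := div_mem hx' (cl_self (s * l))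
    convert this using 1
    field_simp
  have hB := OC2_line' (div_mem hx (pow_mem hs 2)) (div_mem (cl_alg he) hs) hw0 ht
  have hs' : s ∈ cl {s * l} := by
    have := div_mem (cl_alg (S := {s * l}) he) (cl_alg hB)
    rwa [div_div_cancel₀ he0] at this
  have hl' : l ∈ cl {s * l} := by
    have := div_mem (cl_self (s * l)) hs'
    rwa [mul_div_cancel_left₀ _ hs0] at this
  refine ⟨s * l, hl', ?_, ?_, ?_⟩
  · have := div_mem (sub_mem hx' (mul_mem (cl_alg he) hl')) (pow_mem hl' 2)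
    convert this using 1
    field_simp
    ring
  · have := div_mem hy' (pow_mem hl' 4)
    rwa [mul_div_cancel_left₀ _ (pow_ne_zero _ hl0)] at this
  · have := div_mem hz' (pow_mem hl' 6)
    rwa [mul_div_cancel_left₀ _ (pow_ne_zero _ hl0)] at this

end Pool.Agent.E21
end

-- merged part: Pool.Agent.Work.MP_e21d36_nt.OI3
section
/-!
# Finite families permuted by the modular group
-/

namespace Pool.Agent.E21

open Complex UpperHalfPlane ModularForm EisensteinSeries Function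
open scoped MatrixGroups Manifold

theorem cl_root {S : Set ℂ} {p : Polynomial ℂ} (hp0 : p ≠ 0) (hp : ∀ n, p.coeff n ∈ cl S) {v : ℂ}
    (hv : p.eval v = 0) : v ∈ cl S := by
  let K := algebraicClosure (IntermediateField.adjoin ℚ S) ℂ
  have h1 : p ∈ Polynomial.lifts (algebraMap K ℂ) :=
    (Polynomial.lifts_iff_coeff_lifts p).2 fun n => ⟨⟨_, hp n⟩, rfl⟩
  obtain ⟨q, rfl⟩ := (Polynomial.mem_lifts p).1 h1
  have h2 : IsAlgebraic K v :=
    ⟨q, fun h => hp0 (by simp [h]), by rwa [Polynomial.eval_map_algebraMap] at hv⟩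
  exact mem_cl.2 (h2.restrictScalars (IntermediateField.adjoin ℚ S))

theorem cl_newton {S : Set ℂ} {ι : Type} [Fintype ι] (v : ι → ℂ)
    (h : ∀ m, ∑ i, v i ^ m ∈ cl S) (i : ι) : v i ∈ cl S := by
  have he : ∀ k, (Finset.univ.val.map v).esymm k ∈ cl S := by
    intro k
    rw [← MvPolynomial.aeval_esymm_eq_multiset_esymm ι ℚ]
    induction k using Nat.strong_induction_on with
    | _ k ih =>
      rcases Nat.eq_zero_or_pos k with rfl | hk
      · simp
      have h1 := congrArg (MvPolynomial.aeval v) (MvPolynomial.mul_esymm_eq_sum ι ℚ k)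
      simp only [map_mul, map_natCast, map_pow, map_neg, map_one, map_sum] at h1
      have hk' : (k : ℂ) ≠ 0 := by exact_mod_cast hk.ne'
      rw [(eq_inv_mul_iff_mul_eq₀ hk').2 h1]
      refine mul_mem (inv_mem (natCast_mem _ k)) (mul_mem (pow_mem (neg_mem (one_mem _)) _)
        (sum_mem fun a ha => mul_mem (mul_mem (pow_mem (neg_mem (one_mem _)) _)
          (ih _ (Finset.mem_filter.1 ha).2)) ?_))
      simpa [MvPolynomial.psum] using h a.2
  refine cl_root (p := ((Finset.univ.val.map v).map fun t => Polynomial.X - Polynomial.C t).prod)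
    (Polynomial.monic_multisetProd_X_sub_C _).ne_zero (fun n => ?_) ?_
  · by_cases hn : n ≤ Multiset.card (Finset.univ.val.map v)
    · rw [Multiset.prod_X_sub_C_coeff _ hn]
      exact mul_mem (pow_mem (neg_mem (one_mem _)) _) (he _)
    · rw [Polynomial.coeff_eq_zero_of_natDegree_lt]
      · exact zero_mem _
      · rw [Polynomial.natDegree_multiset_prod_X_sub_C_eq_card]
        omega
  · rw [Polynomial.eval_multiset_prod, Multiset.prod_eq_zero_iff]
    simp only [Multiset.map_map, Multiset.mem_map]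
    exact ⟨i, Finset.mem_univ_val i, by simp⟩

theorem OI3_pow (f : ℍ → ℂ) (w : ℤ) (n : ℕ) (γ : SL(2, ℤ)) :
    (f ^ n) ∣[n * w] γ = (f ∣[w] γ) ^ n := by
  ext τ
  simp only [SL_slash_apply, Pi.pow_apply, mul_pow]
  rw [← zpow_natCast, ← zpow_natCast, ← zpow_mul]
  congr 2
  ring

theorem OI3_fam {N : ℕ} (hN : 0 < N) {S : Set ℂ} (τ : ℍ) (P : ℂ) (h4 : P * E₄ τ ^ 3 ∈ cl S)
    (hD : P * discriminant τ ∈ cl S) (w : ℕ) (R : Finset (ℍ → ℂ))
    (hR : ∀ f ∈ R, ∀ γ : SL(2, ℤ), f ∣[(w : ℤ)] γ ∈ R)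
    (hol : ∀ f ∈ R, MDifferentiable 𝓘(ℂ) 𝓘(ℂ) f) (hq : ∀ f ∈ R, f ∈ QA N) :
    ∀ f ∈ R, P ^ w * f τ ^ 12 ∈ cl S := by
  intro f hf
  refine cl_newton (fun g : R => P ^ w * g.1 τ ^ 12) (fun m => ?_) ⟨f, hf⟩
  have hinv : ∀ γ : SL(2, ℤ), (∑ g ∈ R, g ^ (12 * m)) ∣[((12 * m : ℕ) : ℤ) * w] γ =
      ∑ g ∈ R, g ^ (12 * m) := by
    intro γ
    rw [SlashAction.sum_slash]
    simp only [OI3_pow]
    refine Finset.sum_nbij' (fun g => g ∣[(w : ℤ)] γ) (fun g => g ∣[(w : ℤ)] γ⁻¹)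
      (fun g hg => hR g hg γ) (fun g hg => hR g hg γ⁻¹) (fun g _ => ?_) (fun g _ => ?_)
      fun g _ => rfl
    · rw [← SlashAction.slash_mul, mul_inv_cancel, SlashAction.slash_one]
    · rw [← SlashAction.slash_mul, inv_mul_cancel, SlashAction.slash_one]
  have hqs : (∑ g ∈ R, g ^ (12 * m)) ∈ QA N := sum_mem fun g hg => pow_mem (hq g hg) _
  let F : ModularForm 𝒮ℒ (((12 * m : ℕ) : ℤ) * w) :=
    { toFun := ∑ g ∈ R, g ^ (12 * m)
      slash_action_eq' := fun _ ⟨γ, hγ⟩ => hγ ▸ hinv γ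
      holo' := Finset.sum_induction _ _ (fun _ _ => MDifferentiable.add) mdifferentiable_const
        fun g hg => (hol g hg).pow _
      bdd_at_cusps' := fun {c} hc => by
        rw [OnePoint.isBoundedAt_iff_forall_SL2Z hc]
        intro γ _
        exact (hinv γ).symm ▸ QA_bdd hN hqs }
  have h1 := OI2_level hN (cl S) (fun a => cl_alg) τ P h4 hD (w * m) _
    (by push_cast; ring) F hqs
  convert h1 using 1
  change _ = _ * (∑ g ∈ R, g ^ (12 * m)) τ
  rw [Finset.sum_apply, Finset.mul_sum, Finset.sum_coe_sort R fun g => (P ^ w * g τ ^ 12) ^ m]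
  refine Finset.sum_congr rfl fun g _ => ?_
  rw [Pi.pow_apply]
  ring

/-- An integral matrix of determinant `N > 0` as a real invertible matrix. -/
noncomputable def glm {N : ℕ} (hN : 0 < N) (A : FixedDetMatrix (Fin 2) ℤ (N : ℤ)) :
    GL (Fin 2) ℝ :=
  Matrix.GeneralLinearGroup.mkOfDetNeZero (A.1.map (Int.castRingHom ℝ)) (by
    rw [← RingHom.mapMatrix_apply, ← RingHom.map_det, A.2]
    simpa using hN.ne')

theorem glm_val {N : ℕ} (hN : 0 < N) (A : FixedDetMatrix (Fin 2) ℤ (N : ℤ)) :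
    (glm hN A).val = A.1.map (Int.castRingHom ℝ) := rfl

theorem glm_smul {N : ℕ} (hN : 0 < N) (γ : SL(2, ℤ)) (A : FixedDetMatrix (Fin 2) ℤ (N : ℤ)) :
    glm hN (γ • A) = (γ : GL (Fin 2) ℝ) * glm hN A := by
  apply Units.ext
  rw [Units.val_mul, glm_val, glm_val, FixedDetMatrices.smul_coe, Matrix.map_mul]
  rfl

theorem glm_mul {N : ℕ} (hN : 0 < N) (γ : SL(2, ℤ)) (A : FixedDetMatrix (Fin 2) ℤ (N : ℤ)) :
    ∃ B, glm hN B = glm hN A * (γ : GL (Fin 2) ℝ) := by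
  refine ⟨⟨A.1 * γ.1, by rw [Matrix.det_mul, A.2, γ.2, mul_one]⟩, Units.ext ?_⟩
  rw [Units.val_mul, glm_val, glm_val, Matrix.map_mul]
  rfl

theorem OI3_iso {N : ℕ} (hN : 0 < N) {S : Set ℂ} (τ : ℍ) (P : ℂ) (h4 : P * E₄ τ ^ 3 ∈ cl S)
    (hD : P * discriminant τ ∈ cl S) (w : ℕ) (G : ℍ → ℂ)
    (hG : ∀ γ : SL(2, ℤ), G ∣[(w : ℤ)] γ = G)
    (hup : ∀ A ∈ FixedDetMatrices.reps (N : ℤ),
      MDifferentiable 𝓘(ℂ) 𝓘(ℂ) (G ∣[(w : ℤ)] glm hN A - G) ∧ G ∣[(w : ℤ)] glm hN A - G ∈ QA N)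
    (A : FixedDetMatrix (Fin 2) ℤ (N : ℤ)) :
    P ^ w * ((G ∣[(w : ℤ)] glm hN A) τ - G τ) ^ 12 ∈ cl S := by
  let F := fun B : FixedDetMatrix (Fin 2) ℤ (N : ℤ) => G ∣[(w : ℤ)] glm hN B - G
  have h1 : ∀ (γ : SL(2, ℤ)) B, F (γ • B) = F B := by
    intro γ B
    simp only [F]
    rw [glm_smul, SlashAction.slash_mul, ← SL_slash, hG]
  have h2 : ∀ B, F B ∈ F '' FixedDetMatrices.reps (N : ℤ) := by
    intro B
    refine FixedDetMatrices.induction_on (C := fun B => F B ∈ F '' FixedDetMatrices.reps (N : ℤ))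
      (by exact_mod_cast hN.ne') (fun B b1 b2 b3 b4 => ⟨B, ⟨b1, b2, b3, b4⟩, rfl⟩) ?_ ?_
    · intro B hB
      rwa [h1]
    · intro B hB
      rwa [h1]
  have hfin : (F '' FixedDetMatrices.reps (N : ℤ)).Finite := (Set.toFinite _).image F
  refine OI3_fam hN τ P h4 hD w hfin.toFinset ?_ ?_ ?_ (F A) (hfin.mem_toFinset.2 (h2 A))
  · intro f hf γ
    obtain ⟨B, -, rfl⟩ := hfin.mem_toFinset.1 hf
    obtain ⟨B', hB'⟩ := glm_mul hN γ B
    have : F B ∣[(w : ℤ)] γ = F B' := by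
      simp only [F]
      rw [sub_eq_add_neg, SlashAction.add_slash, SlashAction.neg_slash, hG, hB',
        SlashAction.slash_mul, SL_slash, sub_eq_add_neg]
    rw [this]
    exact hfin.mem_toFinset.2 (h2 B')
  · intro f hf
    obtain ⟨B, hB, rfl⟩ := hfin.mem_toFinset.1 hf
    exact (hup B hB).1
  · intro f hf
    obtain ⟨B, hB, rfl⟩ := hfin.mem_toFinset.1 hf
    exact (hup B hB).2

end Pool.Agent.E21
end

-- merged part: Pool.Agent.Work.MP_e21d36_nt.OI4
section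
/-!
# Behaviour of the three normalised values under an isogeny
-/

namespace Pool.Agent.E21

open Complex UpperHalfPlane ModularForm EisensteinSeries Function
open scoped MatrixGroups Manifold

variable {N : ℕ} (hN : 0 < N) (A : FixedDetMatrix (Fin 2) ℤ (N : ℤ))

theorem glm_det : (glm hN A).det.val = N := by
  rw [Matrix.GeneralLinearGroup.val_det_apply, glm_val, ← RingHom.mapMatrix_apply,
    ← RingHom.map_det, A.2]
  simp

theorem glm_pos : 0 < (glm hN A).det.val := by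
  rw [glm_det]
  exact_mod_cast hN

theorem glm_denom (τ : ℂ) : denom (glm hN A) τ = (A.1 1 0 : ℂ) * τ + A.1 1 1 := by
  simp [denom, glm_val]

theorem glm_coe (τ : ℍ) : ((glm hN A • τ : ℍ) : ℂ) =
    ((A.1 0 0 : ℂ) * τ + A.1 0 1) / ((A.1 1 0 : ℂ) * τ + A.1 1 1) := by
  rw [coe_smul_of_det_pos (glm_pos hN A), glm_denom]
  simp [num, glm_val]

theorem glm_slash (f : ℍ → ℂ) (k : ℤ) (τ : ℍ) : (f ∣[k] glm hN A) τ =
    f (glm hN A • τ) * (N : ℂ) ^ (k - 1) * ((A.1 1 0 : ℂ) * τ + A.1 1 1) ^ (-k) := by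
  rw [slash_apply, σ, if_pos (glm_pos hN A), glm_det, glm_denom]
  simp

theorem QA_slash (hA : A ∈ FixedDetMatrices.reps (N : ℤ)) {f : ℍ → ℂ} (hf : f ∈ QA 1) (k : ℤ) :
    f ∣[k] glm hN A ∈ QA N := by
  obtain ⟨h10, h00, -, -⟩ := hA
  have hdet : A.1 0 0 * A.1 1 1 = N := by simpa [Matrix.det_fin_two, h10] using A.2
  have h11 : 0 < A.1 1 1 := by
    have : (0 : ℤ) < A.1 0 0 * A.1 1 1 := by rw [hdet]; exact_mod_cast hN
    exact (mul_pos_iff_of_pos_left h00).1 this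
  obtain ⟨a, ha⟩ := Int.eq_ofNat_of_zero_le h00.le
  obtain ⟨d, hd⟩ := Int.eq_ofNat_of_zero_le h11.le
  have had : a * d = N := by
    rw [ha, hd] at hdet
    exact_mod_cast hdet
  have h1 := QA_tri (A.1 0 1) had hN hf (fun τ => glm hN A • τ) fun τ => by
    rw [glm_coe, h10, ha, hd]
    simp
  have h2 := QA_smul h1
    (isAlgebraic_algebraMap (R := ℚ) (A := ℂ) ((N : ℚ) ^ (k - 1) * (d : ℚ) ^ (-k)))
  convert h2 using 1
  ext τ
  rw [glm_slash, h10, hd]
  simp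
  ring

/-- The function `1 / im τ`. -/
noncomputable def invIm (τ : ℍ) : ℂ := 1 / (τ.im : ℂ)

theorem invIm_slash {g : GL (Fin 2) ℝ} (hg : 0 < g.det.val) (τ : ℍ) :
    (invIm ∣[(2 : ℤ)] g) τ = invIm τ - 2 * Complex.I * g 1 0 / denom g τ := by
  rw [slash_apply, σ, if_pos hg, invIm, invIm, im_smul_eq_div_normSq, abs_of_pos hg]
  have h1 : denom g τ ≠ 0 := denom_ne_zero g τ
  have h2 : (τ.im : ℂ) ≠ 0 := by exact_mod_cast τ.im_ne_zero
  have h3 : (g.det.val : ℂ) ≠ 0 := by exact_mod_cast hg.ne'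
  have h4 : ((normSq (denom g τ) : ℝ) : ℂ) =
      denom g τ * (denom g τ - 2 * Complex.I * g 1 0 * τ.im) := by
    rw [← Complex.mul_conj]
    congr 1
    apply Complex.ext <;> simp [denom]
    ring
  have h5 : denom g τ - 2 * Complex.I * g 1 0 * τ.im ≠ 0 := by
    intro h
    rw [h, mul_zero] at h4
    exact normSq_denom_ne_zero g τ.im_ne_zero (by exact_mod_cast h4)
  simp only [ContinuousAlgEquiv.refl_apply, ofReal_div, ofReal_mul, h4, zpow_neg]
  generalize (g.det.val : ℂ) = D at h3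
  norm_num
  field_simp

/-- The non holomorphic Eisenstein series of weight two. -/
noncomputable def hatE : ℍ → ℂ := E2 - (3 / (Real.pi : ℂ)) • invIm

theorem hatE_slash {g : GL (Fin 2) ℝ} (hg : 0 < g.det.val) (τ : ℍ) :
    (hatE ∣[(2 : ℤ)] g) τ - hatE τ =
      (E2 ∣[(2 : ℤ)] g) τ - E2 τ + 6 * Complex.I * g 1 0 / ((Real.pi : ℂ) * denom g τ) := by
  rw [hatE, sub_eq_add_neg E2, SlashAction.add_slash, SlashAction.neg_slash, smul_slash, σ,
    if_pos hg]
  simp only [Pi.add_apply, Pi.neg_apply, Pi.smul_apply, invIm_slash hg, smul_eq_mul,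
    ContinuousAlgEquiv.refl_apply]
  ring

theorem hatE_inv (γ : SL(2, ℤ)) : hatE ∣[(2 : ℤ)] γ = hatE := by
  ext τ
  have h1 := hatE_slash (g := (γ : GL (Fin 2) ℝ)) (by simp) τ
  rw [← SL_slash, ← SL_slash, E2_slash_action] at h1
  have h2 : denom (γ : GL (Fin 2) ℝ) τ ≠ 0 := denom_ne_zero _ τ
  have hpi : (Real.pi : ℂ) ≠ 0 := ofReal_ne_zero.2 Real.pi_ne_zero
  rw [← sub_eq_zero, h1]
  simp only [Pi.sub_apply, Pi.smul_apply, D2, riemannZeta_two, smul_eq_mul]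
  have h3 : (((γ : GL (Fin 2) ℝ) 1 0 : ℝ) : ℂ) = (γ 1 0 : ℂ) := by simp
  rw [h3]
  field_simp
  ring

theorem iso_vals {S : Set ℂ} {τ : ℂ} (h : 0 < τ.im) {a b c d : ℤ} (hdet : 0 < a * d - b * c)
    (hx : (Real.pi : ℂ) * eP τ ∈ cl S) (hy : (Real.pi : ℂ) ^ 2 * eQ τ ∈ cl S)
    (hz : (Real.pi : ℂ) ^ 3 * eR τ ∈ cl S) :
    0 < (((a : ℂ) * τ + b) / ((c : ℂ) * τ + d)).im ∧ (c : ℂ) * τ + d ≠ 0 ∧
    ((Real.pi : ℂ) * eP (((a : ℂ) * τ + b) / ((c : ℂ) * τ + d)) +
      6 * Complex.I * c / ((a * d - b * c : ℤ) : ℂ) * ((c : ℂ) * τ + d)) /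
        ((c : ℂ) * τ + d) ^ 2 ∈ cl S ∧
    (Real.pi : ℂ) ^ 2 * eQ (((a : ℂ) * τ + b) / ((c : ℂ) * τ + d)) / ((c : ℂ) * τ + d) ^ 4 ∈ cl S ∧
    (Real.pi : ℂ) ^ 3 * eR (((a : ℂ) * τ + b) / ((c : ℂ) * τ + d)) / ((c : ℂ) * τ + d) ^ 6 ∈
      cl S := by
  obtain ⟨N, hNe⟩ := Int.eq_ofNat_of_zero_le hdet.le
  have hN : 0 < N := by omega
  have hN0 : (N : ℂ) ≠ 0 := by exact_mod_cast hN.ne'
  let A : FixedDetMatrix (Fin 2) ℤ (N : ℤ) :=
    ⟨!![a, b; c, d], by rw [Matrix.det_fin_two_of]; exact hNe⟩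
  let z : ℍ := ⟨τ, h⟩
  have e : ((glm hN A • z : ℍ) : ℂ) = ((a : ℂ) * τ + b) / ((c : ℂ) * τ + d) := glm_coe hN A z
  have ed : denom (glm hN A) z = (c : ℂ) * τ + d := glm_denom hN A z
  have hd : (c : ℂ) * τ + d ≠ 0 := ed ▸ denom_ne_zero _ _
  have es : ∀ (f : ℍ → ℂ) (k : ℤ), (f ∣[k] glm hN A) z =
      f (glm hN A • z) * (N : ℂ) ^ (k - 1) * ((c : ℂ) * τ + d) ^ (-k) := fun f k =>
    glm_slash hN A f k z
  have hpi : (Real.pi : ℂ) ≠ 0 := ofReal_ne_zero.2 Real.pi_ne_zero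
  rw [show τ = (z : ℂ) from rfl, OC1_eP] at hx
  rw [show τ = (z : ℂ) from rfl, OC1_eQ] at hy
  rw [show τ = (z : ℂ) from rfl, OC1_eR] at hz
  have h4 : (Real.pi : ℂ) ^ 6 * E₄ z ^ 3 ∈ cl S := by
    convert pow_mem hy 3 using 1
    ring
  have hD : (Real.pi : ℂ) ^ 6 * discriminant z ∈ cl S := by
    rw [discriminant_eq_E₄_cube_sub_E₆_sq]
    convert div_mem (sub_mem (pow_mem hy 3) (pow_mem hz 2)) (natCast_mem (cl S) 1728) using 1
    push_cast
    ring
  have key : ∀ (k : ℕ) (hk : 3 ≤ k) (hk2 : Even k),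
      ((Real.pi : ℂ) ^ 6) ^ k * ((⇑(E hk) ∣[(k : ℤ)] glm hN A) z - E hk z) ^ 12 ∈ cl S :=
    fun k hk hk2 => OI3_iso hN z _ h4 hD k _
      (fun γ => SlashInvariantForm.slash_action_eqn (Γ := 𝒮ℒ) (E hk) γ ⟨γ, rfl⟩)
      (fun B hB => ⟨((E hk).holo'.slash _ _).sub (E hk).holo',
        sub_mem (QA_slash hN B hB (QA_E hk hk2) _) (QA_one hN (QA_E hk hk2))⟩) A
  have hNm : (N : ℂ) ∈ cl S := natCast_mem _ N
  refine ⟨e ▸ (glm hN A • z).im_pos, hd, ?_, ?_, ?_⟩
  · have h1 := OI3_iso hN z _ h4 hD 2 hatE hatE_inv (fun B hB => by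
      have : hatE ∣[((2 : ℕ) : ℤ)] glm hN B - hatE = E2 ∣[(2 : ℤ)] glm hN B - E2 := by
        ext w
        have h2 := hatE_slash (glm_pos hN B) w
        have h3 : (glm hN B) 1 0 = 0 := by simp [glm_val, hB.1]
        simpa [h3] using h2
      rw [this]
      exact ⟨(E2_mdifferentiable.slash _ _).sub E2_mdifferentiable,
        sub_mem (QA_slash hN B hB QA_E2 _) (QA_one hN QA_E2)⟩) A
    have h2 : (Real.pi : ℂ) * ((hatE ∣[(2 : ℤ)] glm hN A) z - hatE z) ∈ cl S := by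
      refine cl_pow (n := 12) (by norm_num) ?_
      convert h1 using 1
      push_cast
      ring
    have h3 : ((glm hN A 1 0 : ℝ) : ℂ) = c := by simp [glm_val, A]
    rw [hatE_slash (glm_pos hN A), es, ed, h3] at h2
    rw [← e, OC1_eP, hNe]
    convert div_mem (add_mem h2 hx) hNm using 1
    simp only [zpow_neg]
    norm_num
    field_simp
    ring
  · have h2 : (Real.pi : ℂ) ^ 2 * ((⇑E₄ ∣[((4 : ℕ) : ℤ)] glm hN A) z - E₄ z) ∈ cl S := by
      refine cl_pow (n := 12) (by norm_num) ?_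
      convert key 4 (by norm_num) ⟨2, rfl⟩ using 1
      ring
    rw [es] at h2
    rw [← e, OC1_eQ]
    convert div_mem (add_mem h2 hy) (pow_mem hNm 3) using 1
    simp only [zpow_neg]
    norm_num
    field_simp
    ring
  · have h2 : (Real.pi : ℂ) ^ 3 * ((⇑E₆ ∣[((6 : ℕ) : ℤ)] glm hN A) z - E₆ z) ∈ cl S := by
      refine cl_pow (n := 12) (by norm_num) ?_
      convert key 6 (by norm_num) ⟨3, rfl⟩ using 1
      ring
    rw [es] at h2
    rw [← e, OC1_eR]
    convert div_mem (add_mem h2 hz) (pow_mem hNm 5) using 1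
    simp only [zpow_neg]
    norm_num
    field_simp
    ring

end Pool.Agent.E21
end

-- merged part: Pool.Agent.Work.MP_e21d36_nt.OC3
section
/-!
# The one cusp theorem
-/

namespace Pool.Agent.E21

open Complex
open scoped ComplexConjugate

/-- Two of `π E₂(τ)`, `π² E₄(τ)`, `π³ E₆(τ)` are algebraically independent. -/
def Dz (τ : ℂ) : Prop :=
  AlgebraicIndependent ℚ ![(Real.pi : ℂ) * eP τ, (Real.pi : ℂ) ^ 2 * eQ τ] ∨
    AlgebraicIndependent ℚ ![(Real.pi : ℂ) * eP τ, (Real.pi : ℂ) ^ 3 * eR τ] ∨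
    AlgebraicIndependent ℚ ![(Real.pi : ℂ) ^ 2 * eQ τ, (Real.pi : ℂ) ^ 3 * eR τ]

theorem not_indep_self (u : ℂ) : ¬ AlgebraicIndependent ℚ ![u, u] := fun h =>
  absurd (h.injective (a₁ := 0) (a₂ := 1) rfl) (by decide)

theorem base_of_not_Dz {τ : ℂ} (h : ¬ Dz τ) : ∃ θ : ℂ, (Real.pi : ℂ) * eP τ ∈ cl {θ} ∧
    (Real.pi : ℂ) ^ 2 * eQ τ ∈ cl {θ} ∧ (Real.pi : ℂ) ^ 3 * eR τ ∈ cl {θ} := by
  simp only [Dz, not_or] at h
  obtain ⟨h1, h2, h3⟩ := h
  obtain ⟨θ, -, hθ⟩ := exists_base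
    {(Real.pi : ℂ) * eP τ, (Real.pi : ℂ) ^ 2 * eQ τ, (Real.pi : ℂ) ^ 3 * eR τ} (by
      intro u hu v hv
      simp only [Set.mem_insert_iff, Set.mem_singleton_iff] at hu hv
      rcases hu with rfl | rfl | rfl <;> rcases hv with rfl | rfl | rfl
      exacts [not_indep_self _, h1, h2, fun h => h1 (indep_swap h), not_indep_self _, h3,
        fun h => h2 (indep_swap h), fun h => h3 (indep_swap h), not_indep_self _])
  exact ⟨θ, mem_cl.2 (hθ _ (by simp)), mem_cl.2 (hθ _ (by simp)), mem_cl.2 (hθ _ (by simp))⟩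

theorem nonquad_mob {τ : ℂ} (h : 0 < τ.im)
    (hq : ¬ ∃ a b c : ℤ, a ≠ 0 ∧ (a : ℂ) * τ ^ 2 + (b : ℂ) * τ + (c : ℂ) = 0) {a b c d : ℤ}
    (hdet : a * d - b * c ≠ 0) (hl : (c : ℂ) * τ + d ≠ 0) :
    ¬ ∃ A B C : ℤ, A ≠ 0 ∧ (A : ℂ) * (((a : ℂ) * τ + b) / ((c : ℂ) * τ + d)) ^ 2 +
      (B : ℂ) * (((a : ℂ) * τ + b) / ((c : ℂ) * τ + d)) + (C : ℂ) = 0 := by
  rintro ⟨A, B, C, hA, e⟩
  have e' : ((A * a ^ 2 + B * a * c + C * c ^ 2 : ℤ) : ℂ) * τ ^ 2 +
      ((2 * A * a * b + B * (a * d + b * c) + 2 * C * c * d : ℤ) : ℂ) * τ +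
      ((A * b ^ 2 + B * b * d + C * d ^ 2 : ℤ) : ℂ) = 0 := by
    have hs := div_mul_cancel₀ ((a : ℂ) * τ + b) hl
    generalize ((a : ℂ) * τ + b) / ((c : ℂ) * τ + d) = σ at e hs
    push_cast
    linear_combination ((c : ℂ) * τ + d) ^ 2 * e -
      (A * (σ * ((c : ℂ) * τ + d) + ((a : ℂ) * τ + b)) + B * ((c : ℂ) * τ + d)) * hs
  have h1 : A * a ^ 2 + B * a * c + C * c ^ 2 = 0 := by
    by_contra h1
    exact hq ⟨_, _, _, h1, e'⟩
  rw [h1] at e'
  have h2 : 2 * A * a * b + B * (a * d + b * c) + 2 * C * c * d = 0 := by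
    have := congrArg im e'
    simp only [Int.cast_zero, zero_mul, zero_add, add_im, mul_im, intCast_re, intCast_im, add_zero,
      zero_im, mul_eq_zero, Int.cast_eq_zero] at this
    exact this.resolve_right h.ne'
  rw [h2] at e'
  have h3 : A * b ^ 2 + B * b * d + C * d ^ 2 = 0 := by
    simp only [Int.cast_zero, zero_mul, zero_add] at e'
    exact_mod_cast e'
  have h4 : A * (a * d - b * c) ^ 2 = 0 := by
    linear_combination d ^ 2 * h1 - c * d * h2 + c ^ 2 * h3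
  exact hA ((mul_eq_zero.1 h4).resolve_right (pow_ne_zero _ hdet))

theorem one_cusp_pos {τ : ℂ} (h : 0 < τ.im)
    (hq : ¬ ∃ a b c : ℤ, a ≠ 0 ∧ (a : ℂ) * τ ^ 2 + (b : ℂ) * τ + (c : ℂ) = 0) {a b c d : ℤ}
    (hdet : 0 < a * d - b * c) (hc : c ≠ 0) :
    Dz τ ∨ Dz (((a : ℂ) * τ + b) / ((c : ℂ) * τ + d)) := by
  by_contra hcon
  rw [not_or] at hcon
  obtain ⟨θ, hx, hy, hz⟩ := base_of_not_Dz hcon.1
  obtain ⟨θ', hx', hy', hz'⟩ := base_of_not_Dz hcon.2
  obtain ⟨him, hl, h1, h2, h3⟩ := iso_vals h hdet hx hy hz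
  have hq' := nonquad_mob h hq hdet.ne' hl
  set σ := ((a : ℂ) * τ + b) / ((c : ℂ) * τ + d) with hσ
  set l := (c : ℂ) * τ + d with hld
  set e : ℂ := 6 * I * c / ((a * d - b * c : ℤ) : ℂ) with he
  have hc' : (c : ℂ) ≠ 0 := by exact_mod_cast hc
  have hpi : (Real.pi : ℂ) ≠ 0 := ofReal_ne_zero.2 Real.pi_ne_zero
  have he0 : -e ≠ 0 := by
    have : ((a * d - b * c : ℤ) : ℂ) ≠ 0 := by exact_mod_cast hdet.ne'
    exact neg_ne_zero.2 (div_ne_zero (mul_ne_zero (mul_ne_zero (by norm_num) I_ne_zero) hc') this)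
  have hea : IsAlgebraic ℚ (-e) := by
    have aI : IsAlgebraic ℚ I := by
      refine IsAlgebraic.of_pow (n := 2) (by norm_num) ?_
      rw [I_sq]
      exact isAlgebraic_one.neg
    have := (isAlgebraic_algebraMap (R := ℚ) (A := ℂ)
      (-6 * c / ((a * d - b * c : ℤ) : ℚ))).mul aI
    have e0 : -e = algebraMap ℚ ℂ (-6 * c / ((a * d - b * c : ℤ) : ℚ)) * I := by
      rw [he]
      simp only [eq_ratCast]
      push_cast
      ring
    rwa [e0]
  have e1 : l ^ 2 * (((Real.pi : ℂ) * eP σ + e * l) / l ^ 2) + -e * l = (Real.pi : ℂ) * eP σ := by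
    field_simp
    ring
  have e2 : l ^ 4 * ((Real.pi : ℂ) ^ 2 * eQ σ / l ^ 4) = (Real.pi : ℂ) ^ 2 * eQ σ := by
    field_simp
  have e3 : l ^ 6 * ((Real.pi : ℂ) ^ 3 * eR σ / l ^ 6) = (Real.pi : ℂ) ^ 3 * eR σ := by
    field_simp
  obtain ⟨w, wl, wx, wy, wz⟩ := OC2_core (l := l) he0 hea
    ((OC1_ne him).imp
      (fun h0 => div_ne_zero (mul_ne_zero (pow_ne_zero _ hpi) h0) (pow_ne_zero _ hl))
      fun h0 => div_ne_zero (mul_ne_zero (pow_ne_zero _ hpi) h0) (pow_ne_zero _ hl))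
    h1 h2 h3 (by rwa [e1]) (by rwa [e2]) (by rwa [e3])
  have wτ : τ ∈ cl {w} := by
    have := div_mem (sub_mem wl (intCast_mem _ d)) (intCast_mem _ c)
    rwa [hld, add_sub_cancel_right, mul_div_cancel_left₀ _ hc'] at this
  have hall : ∀ u ∈ ({σ, (Real.pi : ℂ) * eP σ, (Real.pi : ℂ) ^ 2 * eQ σ,
      (Real.pi : ℂ) ^ 3 * eR σ} : Set ℂ), u ∈ cl {w} := by
    intro u hu
    simp only [Set.mem_insert_iff, Set.mem_singleton_iff] at hu
    rcases hu with rfl | rfl | rfl | rfl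
    · exact div_mem (add_mem (mul_mem (intCast_mem _ a) wτ) (intCast_mem _ b)) wl
    · exact e1 ▸ add_mem (mul_mem (pow_mem wl 2) wx) (mul_mem (cl_alg hea) wl)
    · exact e2 ▸ mul_mem (pow_mem wl 4) wy
    · exact e3 ▸ mul_mem (pow_mem wl 6) wz
  obtain ⟨u, hu, v, hv, huv⟩ := tau_adjoined him hq'
  exact not_indep_of_cl2 (hall u hu) (hall v hv) huv

theorem det_pos_of_im {τ : ℂ} (h : 0 < τ.im) {a b c d : ℤ}
    (hσ : 0 < (((a : ℂ) * τ + b) / ((c : ℂ) * τ + d)).im) : 0 < a * d - b * c := by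
  have e : (((a : ℂ) * τ + b) / ((c : ℂ) * τ + d)).im =
      ((a * d - b * c : ℤ) : ℝ) * (τ.im / normSq ((c : ℂ) * τ + d)) := by
    rw [div_im]
    simp
    ring
  rw [e] at hσ
  have h1 : 0 ≤ τ.im / normSq ((c : ℂ) * τ + d) := div_nonneg h.le (normSq_nonneg _)
  exact_mod_cast pos_of_mul_pos_left hσ h1

theorem conj_series (k : ℕ) (τ : ℂ) :
    ∑' n : ℕ, (ArithmeticFunction.sigma k (n + 1) : ℂ) *
        exp (2 * (Real.pi : ℂ) * I * (-conj τ)) ^ (n + 1) =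
      conj (∑' n : ℕ, (ArithmeticFunction.sigma k (n + 1) : ℂ) *
        exp (2 * (Real.pi : ℂ) * I * τ) ^ (n + 1)) := by
  rw [conj_tsum]
  refine tsum_congr fun n => ?_
  rw [map_mul, map_pow, ← exp_conj]
  simp [map_ofNat]

theorem indep_conj {u v : ℂ} (h : AlgebraicIndependent ℚ ![conj u, conj v]) :
    AlgebraicIndependent ℚ ![u, v] := by
  have h1 := h.map' (f := (conjAe.toAlgHom.restrictScalars ℚ)) conjAe.injective
  convert h1 using 1
  ext i
  fin_cases i <;> simp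

theorem Dz_conj {τ : ℂ} (h : Dz (-conj τ)) : Dz τ := by
  have e1 : (Real.pi : ℂ) * eP (-conj τ) = conj ((Real.pi : ℂ) * eP τ) := by
    rw [eP, eP, conj_series]
    simp [map_ofNat]
  have e2 : (Real.pi : ℂ) ^ 2 * eQ (-conj τ) = conj ((Real.pi : ℂ) ^ 2 * eQ τ) := by
    rw [eQ, eQ, conj_series]
    simp [map_ofNat]
  have e3 : (Real.pi : ℂ) ^ 3 * eR (-conj τ) = conj ((Real.pi : ℂ) ^ 3 * eR τ) := by
    rw [eR, eR, conj_series]
    simp [map_ofNat]
  rw [Dz, e1, e2, e3] at h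
  exact h.imp indep_conj (Or.imp indep_conj indep_conj)

theorem one_cusp {τ σ : ℂ} (h : 0 < τ.im) (hσ : 0 < σ.im)
    (hq : ¬ ∃ a b c : ℤ, a ≠ 0 ∧ (a : ℂ) * τ ^ 2 + (b : ℂ) * τ + (c : ℂ) = 0) {a b c d : ℤ}
    (hc : c ≠ 0) (he : σ = ((a : ℂ) * τ + b) / ((c : ℂ) * τ + d) ∨
      σ = ((a : ℂ) * conj τ + b) / ((c : ℂ) * conj τ + d)) : Dz τ ∨ Dz σ := by
  rcases he with rfl | he
  · exact one_cusp_pos h hq (det_pos_of_im h hσ) hc
  · have h' : 0 < (-conj τ).im := by simpa using h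
    have hq' : ¬ ∃ a b c : ℤ, a ≠ 0 ∧
        (a : ℂ) * (-conj τ) ^ 2 + (b : ℂ) * (-conj τ) + (c : ℂ) = 0 := by
      rintro ⟨A, B, C, hA, e⟩
      refine hq ⟨A, -B, C, hA, ?_⟩
      have := congrArg conj e
      simp only [map_add, map_mul, map_intCast, map_pow, map_neg, conj_conj, map_zero] at this
      push_cast
      linear_combination this
    have e : σ = (((-a : ℤ) : ℂ) * (-conj τ) + b) / (((-c : ℤ) : ℂ) * (-conj τ) + d) := by
      rw [he]
      simp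
    rw [e] at hσ ⊢
    exact (one_cusp_pos h' hq' (det_pos_of_im h' hσ) (neg_ne_zero.2 hc)).imp_left Dz_conj

end Pool.Agent.E21
end
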