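import Pool.Agent.Work.MP_e21d36_nt.Fin

/-!
For every non quadratic `τ` in the upper half plane, two of the four numbers
`τ, π E₂(τ), π² E₄(τ), π³ E₆(τ)` are algebraically independent.
-/

namespace Pool.Agent.E21.TauAdj

theorem result :
    ∀ τ : ℂ, 0 < τ.im →
      (¬ ∃ a b c : ℤ, a ≠ 0 ∧ (a : ℂ) * τ ^ 2 + (b : ℂ) * τ + (c : ℂ) = 0) →
      ∀ x y z : ℂ,
        x = (Real.pi : ℂ) * (1 - 24 * ∑' n : ℕ,
              (ArithmeticFunction.sigma 1 (n + 1) : ℂ) *
                Complex.exp (2 * (Real.pi : ℂ) * Complex.I * τ) ^ (n + 1)) →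
        y = (Real.pi : ℂ) ^ 2 * (1 + 240 * ∑' n : ℕ,
              (ArithmeticFunction.sigma 3 (n + 1) : ℂ) *
                Complex.exp (2 * (Real.pi : ℂ) * Complex.I * τ) ^ (n + 1)) →
        z = (Real.pi : ℂ) ^ 3 * (1 - 504 * ∑' n : ℕ,
              (ArithmeticFunction.sigma 5 (n + 1) : ℂ) *
                Complex.exp (2 * (Real.pi : ℂ) * Complex.I * τ) ^ (n + 1)) →
        (AlgebraicIndependent ℚ ![x, y] ∨ AlgebraicIndependent ℚ ![x, z] ∨
          AlgebraicIndependent ℚ ![y, z]) ∨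
        (AlgebraicIndependent ℚ ![τ, x] ∨ AlgebraicIndependent ℚ ![τ, y] ∨
          AlgebraicIndependent ℚ ![τ, z]) := by
  intro τ h hq x y z hx hy hz
  obtain ⟨u, hu, v, hv, huv⟩ := Pool.Agent.E21.tau_adjoined h hq
  have ex : (Real.pi : ℂ) * Pool.Agent.E21.eP τ = x := hx.symm
  have ey : (Real.pi : ℂ) ^ 2 * Pool.Agent.E21.eQ τ = y := hy.symm
  have ez : (Real.pi : ℂ) ^ 3 * Pool.Agent.E21.eR τ = z := hz.symm
  rw [ex, ey, ez] at hu hv
  have hne : u ≠ v := by
    rintro rfl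
    have := huv.injective (a₁ := 0) (a₂ := 1) rfl
    exact absurd this (by decide)
  have hvu := Pool.Agent.E21.indep_swap huv
  simp only [Set.mem_insert_iff, Set.mem_singleton_iff] at hu hv
  rcases hu with rfl | rfl | rfl | rfl <;> rcases hv with rfl | rfl | rfl | rfl <;> tauto

end Pool.Agent.E21.TauAdj
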